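import Pool.Agent.LibMP0f946f.Lse
import Pool.Agent.LibOS96.Ultra

/-! TASK ARRLIM: from finite systems with asymptotic Ghirlanda-Guerra identities to an exact array.

Paper proof.  Let `Ω = ℕ → ℕ → Icc (-1) 1` (compact metrizable; Mathlib has `CompactSpace (ProbabilityMeasure Ω)` and
metrizability).  For every `j` let `P_j` be the law of the `j × j` array `ov (s k) (s l)` (extended by `0`
outside `k, l < j`), where `s : Fin j → Cfg (N j)` has law `E G^{⊗ j}`: a finite sum of Dirac masses with weights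
`EG (C j) j (indicator of s)`.  Take a convergent subsequence, push the limit forward to `ℕ → ℕ → ℝ`.  For a
continuous `Ψ` of the first `n` replicas `∫ Ψ dP_j = EG (C j) n Ψ` as soon as `n ≤ j` (`EG_inj`).
`diag`, `symm`, `bdd`, `psd` pass to the limit (closed conditions, `P_j` of the first `n` replicas for `n ≤ j`), so
does exchangeability.  The GG identities: first for continuous `f(R^n)` and `ψ = x^p`, `p ∈ {2,4,5,...}` and
`p = 0`; the span of these `x^p` is dense in `C([-1,1])` (all continuous functions vanishing at `0` are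
uniform limits of `x⁴ · polynomial`), hence for all continuous `ψ`; hence the finite measures
`law (R^n, R_{0n})` and `(1/n)[law(R^n) ⊗ ζ + ∑ law(R^n, R_{0l})]` on a compact metrizable space coincide.
`ζ` = law of `R 0 1`. -/

set_option autoImplicit false
open MeasureTheory ProbabilityTheory Real Filter Topology

namespace Pool.Agent.OS

namespace ArrLim

/-- the interval of values of the overlap -/
abbrev I : Type := Set.Icc (-1 : ℝ) 1

/-- the coordinate function on `I` -/
def Xf : C(I, ℝ) := ⟨fun x => (x : ℝ), continuous_subtype_val⟩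

theorem L_mul (L : C(I, ℝ) →L[ℝ] ℝ) (h : ∀ p : ℕ, 4 ≤ p → L (Xf ^ p) = 0) (g : C(I, ℝ)) :
    L (Xf ^ 4 * g) = 0 := by
  have hclosed : IsClosed {g : C(I, ℝ) | L (Xf ^ 4 * g) = 0} :=
    isClosed_eq (by fun_prop) continuous_const
  have hsub : (polynomialFunctions (Set.Icc (-1 : ℝ) 1) : Set C(I, ℝ)) ⊆
      {g : C(I, ℝ) | L (Xf ^ 4 * g) = 0} := by
    rintro g ⟨q, -, rfl⟩
    change L (Xf ^ 4 * (Polynomial.toContinuousMapOnAlgHom (Set.Icc (-1 : ℝ) 1)) q) = 0
    induction q using Polynomial.induction_on' with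
    | add p q hp hq => rw [map_add, mul_add, map_add, hp, hq, add_zero]
    | monomial n a =>
      have e : Xf ^ 4 * (Polynomial.toContinuousMapOnAlgHom (Set.Icc (-1 : ℝ) 1))
          (Polynomial.monomial n a) = a • Xf ^ (4 + n) := by
        ext x
        simp [Xf, pow_add]
        ring
      rw [e, map_smul, h _ (by omega), smul_zero]
  have h2 := closure_minimal hsub hclosed
  have h3 : g ∈ closure (polynomialFunctions (Set.Icc (-1 : ℝ) 1) : Set C(I, ℝ)) := by
    have h4 := polynomialFunctions_closure_eq_top (-1 : ℝ) 1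
    have h5 : g ∈ (polynomialFunctions (Set.Icc (-1 : ℝ) 1)).topologicalClosure := by
      rw [h4]; trivial
    exact h5
  exact h2 h3

theorem L_zero (L : C(I, ℝ) →L[ℝ] ℝ) (h1 : L 1 = 0) (h : ∀ p : ℕ, 4 ≤ p → L (Xf ^ p) = 0) :
    L = 0 := by
  have key : ∀ g : C(I, ℝ), g ⟨0, by norm_num⟩ = 0 → L g = 0 := by
    intro g hg
    by_contra hne
    have hpos : 0 < |L g| := abs_pos.2 hne
    set d : ℝ := |L g| / (2 * (‖L‖ + 1)) with hd
    have hL : 0 ≤ ‖L‖ := L.opNorm_nonneg
    have hdpos : 0 < d := by positivity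
    obtain ⟨δ, hδ, hδ2⟩ := Metric.continuous_iff.1 g.continuous ⟨0, by norm_num⟩ d hdpos
    set ε : ℝ := d * δ ^ 4 / (‖g‖ + 1) with hε
    have hgn : 0 ≤ ‖g‖ := norm_nonneg _
    have hεpos : 0 < ε := by positivity
    let ge : C(I, ℝ) := ⟨fun x => g x / ((x : ℝ) ^ 4 + ε), by
      refine Continuous.div g.continuous (by fun_prop) fun x => ?_
      positivity⟩
    have hn : ‖g - Xf ^ 4 * ge‖ ≤ d := by
      refine (ContinuousMap.norm_le _ hdpos.le).2 fun x => ?_
      have e : (g - Xf ^ 4 * ge) x = g x * (ε / ((x : ℝ) ^ 4 + ε)) := by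
        have h0 : (x : ℝ) ^ 4 + ε ≠ 0 := by positivity
        simp only [ContinuousMap.sub_apply, ContinuousMap.mul_apply, ContinuousMap.pow_apply, Xf,
          ContinuousMap.coe_mk, ge]
        field_simp
        ring
      rw [e, norm_mul, Real.norm_eq_abs, Real.norm_eq_abs]
      have h4 : 0 ≤ (x : ℝ) ^ 4 := by positivity
      rw [abs_of_pos (show 0 < ε / ((x : ℝ) ^ 4 + ε) by positivity)]
      rcases lt_or_ge |(x : ℝ)| δ with hx | hx
      · have h5 : |g x| ≤ d := by
          have := hδ2 x (by rw [Subtype.dist_eq]; simpa [Real.dist_eq] using hx)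
          rw [hg, Real.dist_eq, sub_zero] at this
          exact this.le
        have h6 : ε / ((x : ℝ) ^ 4 + ε) ≤ 1 := by
          rw [div_le_one (by positivity)]; linarith
        calc |g x| * (ε / ((x : ℝ) ^ 4 + ε)) ≤ d * 1 := by gcongr
          _ = d := mul_one d
      · have h5 : |g x| ≤ ‖g‖ := by
          rw [← Real.norm_eq_abs]; exact g.norm_coe_le_norm x
        have h6 : δ ^ 4 ≤ (x : ℝ) ^ 4 := by
          have : δ ^ 4 ≤ |(x : ℝ)| ^ 4 := by gcongr
          rwa [show |(x : ℝ)| ^ 4 = (x : ℝ) ^ 4 by rw [Even.pow_abs (by decide)]] at this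
        calc |g x| * (ε / ((x : ℝ) ^ 4 + ε)) ≤ ‖g‖ * (ε / δ ^ 4) := by
              gcongr
              linarith
          _ = d * (‖g‖ / (‖g‖ + 1)) := by
              rw [hε]; field_simp
          _ ≤ d * 1 := by
              gcongr
              rw [div_le_one (by positivity)]; linarith
          _ = d := mul_one d
    have h7 : L g = L (g - Xf ^ 4 * ge) := by
      rw [map_sub, L_mul L h, sub_zero]
    have h8 : |L g| ≤ ‖L‖ * d := by
      conv_lhs => rw [h7]
      rw [← Real.norm_eq_abs]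
      exact (L.le_opNorm _).trans (by gcongr)
    have h9 : ‖L‖ * d < |L g| := by
      rw [hd]
      have : ‖L‖ * (|L g| / (2 * (‖L‖ + 1))) = |L g| * (‖L‖ / (2 * (‖L‖ + 1))) := by ring
      rw [this]
      have h10 : ‖L‖ / (2 * (‖L‖ + 1)) < 1 := by
        rw [div_lt_one (by positivity)]; linarith
      nlinarith
    linarith
  ext ψ
  have h2 : ψ = (ψ ⟨0, by norm_num⟩) • (1 : C(I, ℝ)) + (ψ - (ψ ⟨0, by norm_num⟩) • (1 : C(I, ℝ))) := by
    abel
  rw [h2, map_add, map_smul, h1, smul_zero, zero_add, key _ (by simp)]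
  simp


/-! ### finite systems -/

theorem ov_mem {N : ℕ} (σ τ : Cfg N) : ov σ τ ∈ Set.Icc (-1 : ℝ) 1 := by
  have h : |∑ i, (if σ i = τ i then (1 : ℝ) else -1)| ≤ N := by
    calc |∑ i, (if σ i = τ i then (1 : ℝ) else -1)|
        ≤ ∑ i : Fin N, |if σ i = τ i then (1 : ℝ) else -1| := Finset.abs_sum_le_sum_abs _ _
      _ = ∑ i : Fin N, (1 : ℝ) := by
          refine Finset.sum_congr rfl fun i _ => ?_
          split_ifs <;> simp
      _ = N := by simp
  rw [Set.mem_Icc, ← abs_le]
  unfold ov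
  rw [abs_div, Nat.abs_cast]
  exact div_le_one_of_le₀ h (Nat.cast_nonneg _)

theorem ov_self {N : ℕ} (hN : 1 ≤ N) (σ : Cfg N) : ov σ σ = 1 := by
  have : (N : ℝ) ≠ 0 := by positivity
  simp [ov, this]

theorem ov_comm {N : ℕ} (σ τ : Cfg N) : ov σ τ = ov τ σ := by
  unfold ov
  congr 1
  refine Finset.sum_congr rfl fun i _ => ?_
  simp only [eq_comm]

/-- the spin -/
def sp (b : Bool) : ℝ := if b then 1 else -1

theorem ov_eq {N : ℕ} (σ τ : Cfg N) : ov σ τ = (∑ i, sp (σ i) * sp (τ i)) / N := by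
  unfold ov
  congr 1
  refine Finset.sum_congr rfl fun i _ => ?_
  unfold sp
  cases σ i <;> cases τ i <;> simp

theorem ov_psd {N : ℕ} (s : ℕ → Cfg N) (n : ℕ) (x : ℕ → ℝ) :
    0 ≤ ∑ i ∈ Finset.range n, ∑ j ∈ Finset.range n, x i * x j * ov (s i) (s j) := by
  have e : ∑ i ∈ Finset.range n, ∑ j ∈ Finset.range n, x i * x j * ov (s i) (s j) =
      (∑ k : Fin N, (∑ i ∈ Finset.range n, x i * sp (s i k)) ^ 2) / N := by
    calc ∑ i ∈ Finset.range n, ∑ j ∈ Finset.range n, x i * x j * ov (s i) (s j)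
        = ∑ i ∈ Finset.range n, ∑ j ∈ Finset.range n, ∑ k : Fin N,
            (x i * sp (s i k)) * (x j * sp (s j k)) / N := by
          refine Finset.sum_congr rfl fun i _ => Finset.sum_congr rfl fun j _ => ?_
          rw [ov_eq, Finset.sum_div, Finset.mul_sum]
          refine Finset.sum_congr rfl fun k _ => ?_
          ring
      _ = ∑ i ∈ Finset.range n, ∑ k : Fin N, ∑ j ∈ Finset.range n,
            (x i * sp (s i k)) * (x j * sp (s j k)) / N :=
          Finset.sum_congr rfl fun i _ => Finset.sum_comm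
      _ = ∑ k : Fin N, ∑ i ∈ Finset.range n, ∑ j ∈ Finset.range n,
            (x i * sp (s i k)) * (x j * sp (s j k)) / N := Finset.sum_comm
      _ = (∑ k : Fin N, (∑ i ∈ Finset.range n, x i * sp (s i k)) ^ 2) / N := by
          rw [Finset.sum_div]
          refine Finset.sum_congr rfl fun k _ => ?_
          rw [sq, Finset.sum_mul_sum, Finset.sum_div]
          refine Finset.sum_congr rfl fun i _ => ?_
          rw [Finset.sum_div]
  rw [e]
  positivity

/-- space of arrays -/
abbrev Om : Type := ℕ → ℕ → I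

/-- extension of a finite family of configurations -/
def ex {N j : ℕ} (s : Fin j → Cfg N) (k : ℕ) : Cfg N := if h : k < j then s ⟨k, h⟩ else fun _ => true

/-- the array of overlaps -/
noncomputable def arr {N j : ℕ} (s : Fin j → Cfg N) : Om := fun k l => ⟨ov (ex s k) (ex s l), ov_mem _ _⟩

section wt
variable {ι : Type*} [Fintype ι] [DecidableEq ι] [Nonempty ι]

/-- weights -/
noncomputable def wt (C : Matrix ι ι ℝ) (n : ℕ) (s : Fin n → ι) : ℝ :=
  EG C n (fun s' => if s' = s then 1 else 0)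

theorem wt_nonneg (C : Matrix ι ι ℝ) (n : ℕ) (s : Fin n → ι) : 0 ≤ wt C n s := by
  have h := EG_mono C n (f := fun _ => 0) (g := fun s' => if s' = s then 1 else 0)
    (fun s' => by split_ifs <;> norm_num)
  rwa [EG_const] at h

theorem EG_eq_sum (C : Matrix ι ι ℝ) (n : ℕ) (f : (Fin n → ι) → ℝ) :
    EG C n f = ∑ s, wt C n s * f s := by
  have key : ∀ T : Finset (Fin n → ι), EG C n (fun s => if s ∈ T then f s else 0) =
      ∑ s ∈ T, wt C n s * f s := by
    intro T
    induction T using Finset.induction_on with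
    | empty => simp [EG_const]
    | insert a T ha ih =>
      rw [Finset.sum_insert ha, ← ih, mul_comm, wt, ← EG_mul, ← EG_add]
      congr 1
      funext s
      by_cases h1 : s = a
      · subst h1; simp [ha]
      · simp [h1]
  have := key Finset.univ
  simpa using this

theorem wt_sum (C : Matrix ι ι ℝ) (n : ℕ) : ∑ s, wt C n s = 1 := by
  have h := EG_eq_sum C n (fun _ => 1)
  rw [EG_const] at h
  simpa using h.symm

end wt

/-- law of the array of `j` replicas -/
noncomputable def PJ {N : ℕ} (C : Matrix (Cfg N) (Cfg N) ℝ) (j : ℕ) : Measure Om :=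
  ∑ s : Fin j → Cfg N, ENNReal.ofReal (wt C j s) • Measure.dirac (arr s)

instance {N : ℕ} (C : Matrix (Cfg N) (Cfg N) ℝ) (j : ℕ) : IsProbabilityMeasure (PJ C j) := by
  constructor
  unfold PJ
  rw [Measure.finsetSum_apply]
  simp only [Measure.smul_apply, smul_eq_mul, measure_univ, mul_one]
  rw [← ENNReal.ofReal_sum_of_nonneg (fun s _ => wt_nonneg C j s), wt_sum, ENNReal.ofReal_one]

theorem integral_PJ {N : ℕ} (C : Matrix (Cfg N) (Cfg N) ℝ) (j : ℕ) (F : Om → ℝ) :
    ∫ R, F R ∂(PJ C j) = EG C j (fun s => F (arr s)) := by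
  have hi : ∀ s : Fin j → Cfg N, Integrable F (ENNReal.ofReal (wt C j s) • Measure.dirac (arr s)) := by
    intro s
    refine Integrable.smul_measure ?_ ENNReal.ofReal_ne_top
    exact integrable_dirac (by simp)
  unfold PJ
  rw [integral_finsetSum_measure (fun s _ => hi s), EG_eq_sum]
  refine Finset.sum_congr rfl fun s _ => ?_
  rw [integral_smul_measure, integral_dirac, ENNReal.toReal_ofReal (wt_nonneg C j s), smul_eq_mul]

theorem ae_PJ {N : ℕ} (C : Matrix (Cfg N) (Cfg N) ℝ) (j : ℕ) {S : Set Om} (hS : MeasurableSet S)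
    (h : ∀ s : Fin j → Cfg N, arr s ∈ S) : PJ C j S = 1 := by
  have : PJ C j Sᶜ = 0 := by
    unfold PJ
    rw [Measure.finsetSum_apply]
    refine Finset.sum_eq_zero fun s _ => ?_
    rw [Measure.smul_apply, Measure.dirac_apply' _ hS.compl]
    simp [h s]
  rw [prob_compl_eq_zero_iff hS] at this
  exact this

/-- restriction to the first replicas -/
def res (n : ℕ) (R : ℕ → ℕ → ℝ) : Fin n → Fin n → ℝ := fun i k => R i k

/-- real array -/
def cst (R : Om) : ℕ → ℕ → ℝ := fun i k => (R i k : ℝ)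

theorem cst_cont : Continuous cst := by
  unfold cst
  fun_prop

theorem cst_meas : Measurable cst := by
  unfold cst
  fun_prop

theorem res_arr {N j n : ℕ} (h : n ≤ j) (s : Fin j → Cfg N) :
    res n (cst (arr s)) = ovm (s ∘ Fin.castLE h) := by
  funext i k
  have hi : (i : ℕ) < j := i.2.trans_le h
  have hk : (k : ℕ) < j := k.2.trans_le h
  simp only [res, cst, arr, ovm, ex, hi, hk, dif_pos, Function.comp_apply]
  rfl


/-! ### the limit -/

theorem exists_lim (N : ℕ → ℕ) (C : ∀ j, Matrix (Cfg (N j)) (Cfg (N j)) ℝ) :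
    ∃ (φ : ℕ → ℕ) (μ : Measure Om), StrictMono φ ∧ IsProbabilityMeasure μ ∧
      (∀ F : Om → ℝ, Continuous F →
        Tendsto (fun j => EG (C (φ j)) (φ j) (fun s => F (arr s))) atTop (𝓝 (∫ R, F R ∂μ))) ∧
      (∀ S : Set Om, IsClosed S → (∀ (N' j : ℕ) (s : Fin j → Cfg N'), 1 ≤ N' → arr s ∈ S) →
        (∀ j, 1 ≤ N j) → μ S = 1) := by
  let ν : ℕ → ProbabilityMeasure Om := fun j => ⟨PJ (C j) j, inferInstance⟩
  obtain ⟨μ, φ, hφ, hlim⟩ := CompactSpace.tendsto_subseq ν
  refine ⟨φ, (μ : Measure Om), hφ, inferInstance, ?_, ?_⟩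
  · intro F hF
    have h := (ProbabilityMeasure.tendsto_iff_forall_integral_tendsto.1 hlim)
      (BoundedContinuousFunction.mkOfCompact ⟨F, hF⟩)
    refine h.congr fun j => ?_
    have := integral_PJ (C (φ j)) (φ j) F
    exact this
  · intro S hS h hN
    have h1 := ProbabilityMeasure.limsup_measure_closed_le_of_tendsto hlim hS
    have h2 : (fun j => ((ν ∘ φ) j : Measure Om) S) = fun _ => 1 := by
      funext j
      exact ae_PJ (C (φ j)) (φ j) hS.measurableSet fun s => h _ _ s (hN _)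
    rw [h2, limsup_const] at h1
    exact le_antisymm prob_le_one h1

/-- functionals on the continuous functions of one overlap -/
noncomputable def TL (μ : Measure Om) [IsProbabilityMeasure μ] (h : C(Om, ℝ)) (a b : ℕ) :
    C(I, ℝ) →L[ℝ] ℝ :=
  LinearMap.mkContinuous
    { toFun := fun ψ => ∫ R, h R * ψ (R a b) ∂μ
      map_add' := by
        intro ψ ψ'
        rw [← integral_add]
        · refine integral_congr_ae (Eventually.of_forall fun R => ?_)
          simp [mul_add]
        · exact (BoundedContinuousFunction.mkOfCompact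
            (⟨fun R => h R * ψ (R a b), by fun_prop⟩ : C(Om, ℝ))).integrable μ
        · exact (BoundedContinuousFunction.mkOfCompact
            (⟨fun R => h R * ψ' (R a b), by fun_prop⟩ : C(Om, ℝ))).integrable μ
      map_smul' := by
        intro c ψ
        rw [RingHom.id_apply, smul_eq_mul, ← integral_const_mul]
        refine integral_congr_ae (Eventually.of_forall fun R => ?_)
        simp only [ContinuousMap.smul_apply, smul_eq_mul]
        ring } ‖h‖ (by
      intro ψ
      refine (norm_integral_le_of_norm_le_const (C := ‖h‖ * ‖ψ‖) (Eventually.of_forall fun R => ?_)).trans ?_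
      · rw [norm_mul]
        exact mul_le_mul (h.norm_coe_le_norm R) (ψ.norm_coe_le_norm _) (norm_nonneg _) (norm_nonneg _)
      · simp)

theorem TL_apply (μ : Measure Om) [IsProbabilityMeasure μ] (h : C(Om, ℝ)) (a b : ℕ) (ψ : C(I, ℝ)) :
    TL μ h a b ψ = ∫ R, h R * ψ (R a b) ∂μ := rfl

section main
variable (N : ℕ → ℕ) (C : ∀ j, Matrix (Cfg (N j)) (Cfg (N j)) ℝ) (φ : ℕ → ℕ) (hφ : StrictMono φ)
  (μ : Measure Om) [IsProbabilityMeasure μ]
  (hF : ∀ F : Om → ℝ, Continuous F →
    Tendsto (fun j => EG (C (φ j)) (φ j) (fun s => F (arr s))) atTop (𝓝 (∫ R, F R ∂μ)))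

theorem res_cont (n : ℕ) : Continuous (res n) := by
  unfold res
  fun_prop

theorem res_meas (n : ℕ) : Measurable (res n) := by
  unfold res
  fun_prop

include hφ hF in
theorem conv (n : ℕ) (Ψ : (Fin n → Fin n → ℝ) → ℝ) (hΨ : Continuous Ψ) :
    Tendsto (fun j => EG (C (φ j)) n (fun s => Ψ (ovm s))) atTop
      (𝓝 (∫ R, Ψ (res n (cst R)) ∂μ)) := by
  refine (hF (fun R => Ψ (res n (cst R))) (hΨ.comp ((res_cont n).comp cst_cont))).congr' ?_
  filter_upwards [eventually_ge_atTop n] with j hj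
  have h : n ≤ φ j := hj.trans hφ.le_apply
  rw [← EG_inj (C (φ j)) (Fin.castLE h) (Fin.castLE_injective h) (fun s => Ψ (ovm s))]
  congr 1
  funext s
  rw [res_arr h]

/-- relabelling -/
def relI (σ : Equiv.Perm ℕ) (R : Om) : Om := fun i j => R (σ i) (σ j)

theorem relI_cont (σ : Equiv.Perm ℕ) : Continuous (relI σ) := by
  unfold relI
  fun_prop

theorem ex_swap {M j : ℕ} (s : Fin j → Cfg M) {a b : ℕ} (ha : a < j) (hb : b < j) (k : ℕ) :
    ex (s ∘ Equiv.swap (⟨a, ha⟩ : Fin j) ⟨b, hb⟩) k = ex s (Equiv.swap a b k) := by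
  by_cases hk : k < j
  · have hk' : Equiv.swap a b k < j := by
      rcases eq_or_ne k a with rfl | h1
      · rwa [Equiv.swap_apply_left]
      · rcases eq_or_ne k b with rfl | h2
        · rwa [Equiv.swap_apply_right]
        · rwa [Equiv.swap_apply_of_ne_of_ne h1 h2]
    simp only [ex, hk, hk', dif_pos, Function.comp_apply]
    congr 1
    rcases eq_or_ne k a with rfl | h1
    · rw [Equiv.swap_apply_left]
      ext
      simp
    · rcases eq_or_ne k b with rfl | h2
      · rw [Equiv.swap_apply_right]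
        ext
        simp
      · rw [Equiv.swap_apply_of_ne_of_ne (by simpa [Fin.ext_iff] using h1)
          (by simpa [Fin.ext_iff] using h2)]
        ext
        simp [Equiv.swap_apply_of_ne_of_ne h1 h2]
  · rw [Equiv.swap_apply_of_ne_of_ne (by omega) (by omega)]
    simp [ex, hk]

include hφ hF in
theorem exch (a b : ℕ) : μ.map (relI (Equiv.swap a b)) = μ := by
  have : IsProbabilityMeasure (μ.map (relI (Equiv.swap a b))) :=
    Measure.isProbabilityMeasure_map (relI_cont _).aemeasurable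
  refine ext_of_forall_integral_eq_of_IsFiniteMeasure fun f => ?_
  rw [integral_map (relI_cont _).aemeasurable f.continuous.aestronglyMeasurable]
  refine tendsto_nhds_unique (hF (fun R => f (relI (Equiv.swap a b) R))
    (f.continuous.comp (relI_cont _))) ?_
  refine (hF f f.continuous).congr' ?_
  filter_upwards [eventually_gt_atTop (max a b)] with j hj
  have h : j ≤ φ j := hφ.le_apply
  have ha : a < φ j := by omega
  have hb : b < φ j := by omega
  rw [← EG_inj (C (φ j)) (Equiv.swap (⟨a, ha⟩ : Fin (φ j)) ⟨b, hb⟩)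
    (Equiv.swap (⟨a, ha⟩ : Fin (φ j)) ⟨b, hb⟩).injective (fun s => f (arr s))]
  congr 1
  funext s
  congr 1
  funext k l
  apply Subtype.ext
  simp only [arr, relI, ex_swap]


include hφ hF in
theorem gg_L
    (hgg : ∀ p : ℕ, (p = 2 ∨ 4 ≤ p) → ∀ n : ℕ, ∀ f : ∀ j, (Fin (n + 1) → Cfg (N j)) → ℝ,
      (∀ j s, |f j s| ≤ 1) →
      Tendsto (fun j =>
        ((n : ℝ) + 1) * EG (C j) (n + 2)
            (fun s => f j (s ∘ Fin.castSucc) * ov (s 0) (s (Fin.last (n + 1))) ^ p)
          - EG (C j) (n + 1) (f j) * EG (C j) 2 (fun s => ov (s 0) (s 1) ^ p)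
          - ∑ l : Fin n, EG (C j) (n + 1) (fun s => f j s * ov (s 0) (s l.succ) ^ p))
        atTop (𝓝 0))
    (m : ℕ) (f : (Fin (m + 1) → Fin (m + 1) → ℝ) → ℝ) (hf : Continuous f) (hb : ∀ x, |f x| ≤ 1)
    (ψ : C(I, ℝ)) :
    ((m : ℝ) + 1) * ∫ R, f (res (m + 1) (cst R)) * ψ (R 0 (m + 1)) ∂μ =
      (∫ R, f (res (m + 1) (cst R)) ∂μ) * (∫ R, ψ (R 0 1) ∂μ) +
        ∑ l : Fin m, ∫ R, f (res (m + 1) (cst R)) * ψ (R 0 (l + 1)) ∂μ := by
  let h : C(Om, ℝ) := ⟨fun R => f (res (m + 1) (cst R)), hf.comp ((res_cont _).comp cst_cont)⟩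
  let L : C(I, ℝ) →L[ℝ] ℝ := ((m : ℝ) + 1) • TL μ h 0 (m + 1) - (∫ R, h R ∂μ) • TL μ 1 0 1 -
    ∑ l : Fin m, TL μ h 0 (l + 1)
  have hL1 : L 1 = 0 := by
    simp only [L, sub_apply, smul_apply,
      sum_apply, TL_apply, smul_eq_mul, ContinuousMap.one_apply, mul_one,
      integral_const, probReal_univ, one_smul]
    simp
    ring
  have hLp : ∀ p : ℕ, 4 ≤ p → L (Xf ^ p) = 0 := by
    intro p hp
    have h0 := (hgg p (Or.inr hp) m (fun j s => f (ovm s)) (fun j s => hb _)).comp hφ.tendsto_atTop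
    have t1 := conv N C φ hφ μ hF (m + 2)
      (fun R => f (fun i k => R i.castSucc k.castSucc) * (R 0 (Fin.last (m + 1))) ^ p) (by fun_prop)
    have t2 := conv N C φ hφ μ hF (m + 1) f hf
    have t3 := conv N C φ hφ μ hF 2 (fun R => (R 0 1) ^ p) (by fun_prop)
    have t4 := fun l : Fin m => conv N C φ hφ μ hF (m + 1)
      (fun R => f R * (R 0 l.succ) ^ p) (by fun_prop)
    have t5 := (((t1.const_mul ((m : ℝ) + 1)).sub (t2.mul t3)).sub
      (tendsto_finsetSum Finset.univ fun l _ => t4 l))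
    have t6 := tendsto_nhds_unique t5 h0
    simp only [L, sub_apply, smul_apply,
      sum_apply, TL_apply, smul_eq_mul]
    refine Eq.trans ?_ t6
    congr 1
    · congr 1
      congr 1
      refine integral_congr_ae (Eventually.of_forall fun R => ?_)
      simp [Xf, res, cst]
  have hL := L_zero L hL1 hLp
  have h2 : L ψ = 0 := by rw [hL]; rfl
  simp only [L, sub_apply, smul_apply,
      sum_apply, TL_apply, smul_eq_mul, ContinuousMap.one_apply, one_mul] at h2
  have h3 : ∀ R, h R = f (res (m + 1) (cst R)) := fun R => rfl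
  simp only [h3] at h2
  linarith


theorem integrable_Om {F : Om → ℝ} (hF : Continuous F) : Integrable F μ :=
  (BoundedContinuousFunction.mkOfCompact (⟨F, hF⟩ : C(Om, ℝ))).integrable μ

include hφ hF in
theorem gg_meas
    (hgg : ∀ p : ℕ, (p = 2 ∨ 4 ≤ p) → ∀ n : ℕ, ∀ f : ∀ j, (Fin (n + 1) → Cfg (N j)) → ℝ,
      (∀ j s, |f j s| ≤ 1) →
      Tendsto (fun j =>
        ((n : ℝ) + 1) * EG (C j) (n + 2)
            (fun s => f j (s ∘ Fin.castSucc) * ov (s 0) (s (Fin.last (n + 1))) ^ p)
          - EG (C j) (n + 1) (f j) * EG (C j) 2 (fun s => ov (s 0) (s 1) ^ p)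
          - ∑ l : Fin n, EG (C j) (n + 1) (fun s => f j s * ov (s 0) (s l.succ) ^ p))
        atTop (𝓝 0))
    (m : ℕ) :
    ((m : ENNReal) + 1) • μ.map (fun R => (res (m + 1) (cst R), cst R 0 (m + 1))) =
      (μ.map (fun R => res (m + 1) (cst R))).prod (μ.map (fun R => cst R 0 1)) +
        ∑ l : Fin m, μ.map (fun R => (res (m + 1) (cst R), cst R 0 (l + 1))) := by
  have c1 : Continuous (fun R : Om => res (m + 1) (cst R)) := (res_cont _).comp cst_cont
  have c2 : ∀ a b : ℕ, Continuous (fun R : Om => cst R a b) := by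
    intro a b
    unfold cst
    fun_prop
  have m1 : ∀ b : ℕ, Measurable (fun R : Om => (res (m + 1) (cst R), cst R 0 b)) := fun b =>
    (c1.prodMk (c2 0 b)).measurable
  have hP : ∀ b : ℕ, IsProbabilityMeasure (μ.map (fun R : Om => (res (m + 1) (cst R), cst R 0 b))) :=
    fun b => Measure.isProbabilityMeasure_map (m1 b).aemeasurable
  have hP2 : IsProbabilityMeasure (μ.map (fun R : Om => res (m + 1) (cst R))) :=
    Measure.isProbabilityMeasure_map c1.measurable.aemeasurable
  have hP3 : IsProbabilityMeasure (μ.map (fun R : Om => cst R 0 1)) :=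
    Measure.isProbabilityMeasure_map (c2 0 1).measurable.aemeasurable
  have hne : ((m : ENNReal) + 1) ≠ ⊤ := by
    exact ENNReal.add_ne_top.2 ⟨ENNReal.natCast_ne_top m, ENNReal.one_ne_top⟩
  have hfin : IsFiniteMeasure (((m : ENNReal) + 1) •
      μ.map (fun R => (res (m + 1) (cst R), cst R 0 (m + 1)))) := by
    constructor
    rw [Measure.smul_apply, measure_univ, smul_eq_mul, mul_one]
    exact hne.lt_top
  refine Measure.ext_of_integral_mul_boundedContinuousFunction fun f g => ?_
  have hgc : ∀ b, Continuous (fun R : Om => g (cst R 0 b)) := fun b => g.continuous.comp (c2 0 b)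
  have hfc : Continuous (fun R : Om => f (res (m + 1) (cst R))) := f.continuous.comp c1
  have hfg : Continuous (fun p : (Fin (m + 1) → Fin (m + 1) → ℝ) × ℝ => f p.1 * g p.2) := by
    fun_prop
  rw [integral_smul_measure, integral_map (m1 _).aemeasurable hfg.aestronglyMeasurable,
    integral_add_measure, integral_prod_mul, integral_finsetSum_measure]
  · rw [integral_map c1.measurable.aemeasurable f.continuous.aestronglyMeasurable,
      integral_map (c2 0 1).measurable.aemeasurable g.continuous.aestronglyMeasurable]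
    have e1 : ∀ l : Fin m, ∫ p : (Fin (m + 1) → Fin (m + 1) → ℝ) × ℝ, f p.1 * g p.2
        ∂(μ.map (fun R => (res (m + 1) (cst R), cst R 0 (l + 1)))) =
        ∫ R, f (res (m + 1) (cst R)) * g (cst R 0 (l + 1)) ∂μ := fun l => by
      rw [integral_map (m1 _).aemeasurable hfg.aestronglyMeasurable]
    rw [Finset.sum_congr rfl fun l _ => e1 l]
    have hc : 0 < ‖f‖ + 1 := by positivity
    let ψ : C(I, ℝ) := ⟨fun x => g (x : ℝ), g.continuous.comp continuous_subtype_val⟩
    have key := gg_L N C φ hφ μ hF hgg m (fun x => (‖f‖ + 1)⁻¹ * f x) (by fun_prop) (fun x => by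
      rw [abs_mul, abs_inv, abs_of_pos hc, inv_mul_le_iff₀ hc, mul_one]
      have := f.norm_coe_le_norm x
      rw [Real.norm_eq_abs] at this
      linarith) ψ
    simp only [mul_assoc, integral_const_mul, ← Finset.mul_sum] at key
    have key2 : (‖f‖ + 1)⁻¹ * (((m : ℝ) + 1) * ∫ R, f (res (m + 1) (cst R)) * ψ (R 0 (m + 1)) ∂μ) =
      (‖f‖ + 1)⁻¹ * ((∫ R, f (res (m + 1) (cst R)) ∂μ) * (∫ R, ψ (R 0 1) ∂μ) +
        ∑ l : Fin m, ∫ R, f (res (m + 1) (cst R)) * ψ (R 0 (l + 1)) ∂μ) := by
      linarith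
    have key3 := mul_left_cancel₀ (inv_pos.2 hc).ne' key2
    have e2 : ((m : ENNReal) + 1).toReal = (m : ℝ) + 1 := by
      rw [ENNReal.toReal_add (ENNReal.natCast_ne_top m) ENNReal.one_ne_top]
      simp
    rw [e2, smul_eq_mul]
    exact key3
  · intro l _
    exact (integrable_map_measure hfg.aestronglyMeasurable (m1 _).aemeasurable).2
      (integrable_Om μ (hfg.comp (c1.prodMk (c2 0 _))))
  · have : IsFiniteMeasure ((μ.map (fun R => res (m + 1) (cst R))).prod (μ.map (fun R => cst R 0 1))) :=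
      inferInstance
    exact Integrable.mul_prod (f.integrable _) (g.integrable _)
  · rw [integrable_finset_sum_measure]
    intro l _
    exact (integrable_map_measure hfg.aestronglyMeasurable (m1 _).aemeasurable).2
      (integrable_Om μ (hfg.comp (c1.prodMk (c2 0 _))))


theorem closedS : IsClosed {R : ℕ → ℕ → ℝ | (∀ i, R i i = 1) ∧ (∀ i j, R i j = R j i) ∧
    (∀ i j, |R i j| ≤ 1) ∧ ∀ (n : ℕ) (x : ℕ → ℝ),
      0 ≤ ∑ i ∈ Finset.range n, ∑ j ∈ Finset.range n, x i * x j * R i j} := by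
  have c : ∀ a b : ℕ, Continuous (fun R : ℕ → ℕ → ℝ => R a b) := fun a b => by fun_prop
  simp only [Set.setOf_and, Set.setOf_forall]
  refine (isClosed_iInter fun i => isClosed_eq (c i i) continuous_const).inter
    ((isClosed_iInter fun i => isClosed_iInter fun j => isClosed_eq (c i j) (c j i)).inter
    ((isClosed_iInter fun i => isClosed_iInter fun j => isClosed_le (c i j).abs continuous_const).inter
    (isClosed_iInter fun n => isClosed_iInter fun x => isClosed_le continuous_const ?_)))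
  refine continuous_finset_sum _ fun i _ => continuous_finset_sum _ fun j _ => ?_
  exact continuous_const.mul (c i j)

end main

/-- extension of a finite array by zero -/
noncomputable def emb (n : ℕ) (A : Fin n → Fin n → ℝ) : ℕ → ℕ → ℝ := fun i k =>
  if h : i < n ∧ k < n then A ⟨i, h.1⟩ ⟨k, h.2⟩ else 0

theorem emb_meas (n : ℕ) : Measurable (emb n) := by
  refine measurable_pi_lambda _ fun i => measurable_pi_lambda _ fun k => ?_
  unfold emb
  by_cases h : i < n ∧ k < n
  · simp only [h, and_self, dif_pos]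
    fun_prop
  · simp only [h, dif_neg, not_false_eq_true]
    exact measurable_const

theorem emb_res (n : ℕ) (R : ℕ → ℕ → ℝ) (i k : ℕ) (hi : i < n) (hk : k < n) :
    emb n (res n R) i k = R i k := by
  simp [emb, res, hi, hk]

end ArrLim

open ArrLim

open Pool.Agent.LibOS96 in
theorem arr_limit (N : ℕ → ℕ) (hN : ∀ j, 1 ≤ N j)
    (C : ∀ j, Matrix (Cfg (N j)) (Cfg (N j)) ℝ) (hC : ∀ j, (C j).PosSemidef) (ρ : ℕ → ℝ)
    (hmom : ∀ p : ℕ, (p = 2 ∨ 4 ≤ p) →
      Tendsto (fun j => EG (C j) 2 (fun s => ov (s 0) (s 1) ^ p)) atTop (𝓝 (ρ p)))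
    (hgg : ∀ p : ℕ, (p = 2 ∨ 4 ≤ p) → ∀ n : ℕ, ∀ f : ∀ j, (Fin (n + 1) → Cfg (N j)) → ℝ,
      (∀ j s, |f j s| ≤ 1) →
      Tendsto (fun j =>
        ((n : ℝ) + 1) * EG (C j) (n + 2)
            (fun s => f j (s ∘ Fin.castSucc) * ov (s 0) (s (Fin.last (n + 1))) ^ p)
          - EG (C j) (n + 1) (f j) * EG (C j) 2 (fun s => ov (s 0) (s 1) ^ p)
          - ∑ l : Fin n, EG (C j) (n + 1) (fun s => f j s * ov (s 0) (s l.succ) ^ p))
        atTop (𝓝 0)) :
    ∃ (φ : ℕ → ℕ) (P : Measure (ℕ → ℕ → ℝ)) (ζ : Measure ℝ), StrictMono φ ∧ GGArray P ζ ∧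
      (∀ p : ℕ, (p = 2 ∨ 4 ≤ p) → ∫ x, x ^ p ∂ζ = ρ p) ∧
      ∀ (n : ℕ) (Ψ : (Fin n → Fin n → ℝ) → ℝ), Continuous Ψ →
        Tendsto (fun j => EG (C (φ j)) n (fun s => Ψ (ovm s))) atTop
          (𝓝 (∫ R, Ψ (fun i k => R i k) ∂P)) := by
  obtain ⟨φ, μ, hφ, hμ, hF, hS⟩ := exists_lim N C
  have c2 : ∀ a b : ℕ, Measurable (fun R : ℕ → ℕ → ℝ => R a b) := fun a b => by fun_prop
  have hP : IsProbabilityMeasure (μ.map cst) :=
    Measure.isProbabilityMeasure_map cst_meas.aemeasurable
  have hζ : IsProbabilityMeasure ((μ.map cst).map (fun R => R 0 1)) :=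
    Measure.isProbabilityMeasure_map (c2 0 1).aemeasurable
  have hζ2 : (μ.map cst).map (fun R => R 0 1) = μ.map (fun R => cst R 0 1) := by
    rw [Measure.map_map (c2 0 1) cst_meas]
    rfl
  have hSP : ∀ᵐ R ∂(μ.map cst), R ∈ {R : ℕ → ℕ → ℝ | (∀ i, R i i = 1) ∧ (∀ i j, R i j = R j i) ∧
      (∀ i j, |R i j| ≤ 1) ∧ ∀ (n : ℕ) (x : ℕ → ℝ),
        0 ≤ ∑ i ∈ Finset.range n, ∑ j ∈ Finset.range n, x i * x j * R i j} := by
    refine (ae_map_iff cst_meas.aemeasurable closedS.measurableSet).2 ?_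
    have h1 := hS _ (closedS.preimage cst_cont) (fun N' j s hN' => by
      refine ⟨fun i => ov_self hN' _, fun i k => ov_comm _ _, fun i k => ?_, fun n x => ?_⟩
      · exact abs_le.2 (ov_mem _ _)
      · exact ov_psd (ex s) n x) hN
    rw [← prob_compl_eq_zero_iff (closedS.preimage cst_cont).measurableSet] at h1
    exact h1
  refine ⟨φ, μ.map cst, (μ.map cst).map (fun R => R 0 1), hφ, ?_, ?_, ?_⟩
  · refine ⟨hP, hζ, ?_, ?_, ?_, ?_, ?_, ?_⟩
    · filter_upwards [hSP] with R hR using hR.1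
    · filter_upwards [hSP] with R hR using hR.2.1
    · filter_upwards [hSP] with R hR using hR.2.2.1
    · filter_upwards [hSP] with R hR using hR.2.2.2
    · intro a b
      rw [Measure.map_map (measurable_rel _) cst_meas]
      have e : (rel (Equiv.swap a b)) ∘ cst = cst ∘ relI (Equiv.swap a b) := by
        funext R i k
        rfl
      rw [e, ← Measure.map_map cst_meas (relI_cont _).measurable, exch N C φ hφ μ hF]
    · intro n hn E hE hd B hB
      obtain ⟨m, rfl⟩ : ∃ m, n = m + 1 := ⟨n - 1, by omega⟩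
      have hm := gg_meas N C φ hφ μ hF hgg m
      have hE' : MeasurableSet (emb (m + 1) ⁻¹' E) := emb_meas _ hE
      have hiff : ∀ R : ℕ → ℕ → ℝ, res (m + 1) R ∈ emb (m + 1) ⁻¹' E ↔ R ∈ E := by
        intro R
        constructor
        · intro h
          exact hd _ _ (fun i hi k hk => emb_res _ R i k hi hk) h
        · intro h
          exact hd _ _ (fun i hi k hk => (emb_res _ R i k hi hk).symm) h
      have hr : Measurable (fun R : Om => res (m + 1) (cst R)) :=
        ((res_cont _).comp cst_cont).measurable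
      have m1 : ∀ b : ℕ, Measurable (fun R : Om => (res (m + 1) (cst R), cst R 0 b)) := fun b =>
        hr.prodMk ((c2 0 b).comp cst_meas)
      have v : ∀ b : ℕ, (μ.map (fun R : Om => (res (m + 1) (cst R), cst R 0 b)))
          ((emb (m + 1) ⁻¹' E) ×ˢ B) = (μ.map cst) (E ∩ {R | R 0 b ∈ B}) := by
        intro b
        rw [Measure.map_apply (m1 b) (hE'.prod hB),
          Measure.map_apply cst_meas (hE.inter (meas_entry hB))]
        congr 1
        ext R
        simp only [Set.mem_preimage, Set.mem_prod, Set.mem_inter_iff, Set.mem_setOf_eq]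
        rw [← hiff (cst R)]
        rfl
      have h2 := congrArg (fun ν : Measure ((Fin (m + 1) → Fin (m + 1) → ℝ) × ℝ) =>
        ν ((emb (m + 1) ⁻¹' E) ×ˢ B)) hm
      simp only [Measure.smul_apply, Measure.add_apply, Measure.prod_prod,
        Measure.finsetSum_apply, v, smul_eq_mul] at h2
      have v2 : (μ.map (fun R : Om => res (m + 1) (cst R))) (emb (m + 1) ⁻¹' E) = (μ.map cst) E := by
        rw [Measure.map_apply hr hE', Measure.map_apply cst_meas hE]
        congr 1
        ext R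
        exact hiff (cst R)
      rw [v2, ← hζ2] at h2
      have h3 := congrArg ENNReal.toReal h2
      rw [ENNReal.toReal_mul, ENNReal.toReal_add (by finiteness) (by finiteness),
        ENNReal.toReal_add (by finiteness) (by
          refine (ENNReal.sum_lt_top.2 fun l _ => ?_).ne
          exact measure_lt_top _ _), ENNReal.toReal_mul,
        ENNReal.toReal_sum (fun l _ => measure_ne_top _ _)] at h3
      simp only [← measureReal_def] at h3
      have h4 : ∑ l ∈ Finset.Ico 1 (m + 1), (μ.map cst).real (E ∩ {R | R 0 l ∈ B}) =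
          ∑ l : Fin m, (μ.map cst).real (E ∩ {R | R 0 (l + 1) ∈ B}) := by
        rw [Finset.sum_Ico_eq_sum_range, ← Fin.sum_univ_eq_sum_range
          (fun l => (μ.map cst).real (E ∩ {R | R 0 (1 + l) ∈ B}))]
        have e0 : m + 1 - 1 = m := by omega
        rw [e0]
        refine Finset.sum_congr rfl fun l _ => ?_
        rw [add_comm]
      rw [h4, eq_div_iff (by positivity)]
      push_cast
      rw [ENNReal.toReal_natCast, ENNReal.toReal_one] at h3
      linarith
  · intro p hp
    rw [hζ2, integral_map]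
    · have t := conv N C φ hφ μ hF 2 (fun R => (R 0 1) ^ p) (by fun_prop)
      have t' := (hmom p hp).comp hφ.tendsto_atTop
      exact tendsto_nhds_unique t t'
    · exact ((c2 0 1).comp cst_meas).aemeasurable
    · fun_prop
  · intro n Ψ hΨ
    have t := conv N C φ hφ μ hF n Ψ hΨ
    rw [integral_map cst_meas.aemeasurable]
    · exact t
    · have : Continuous (fun R : ℕ → ℕ → ℝ => Ψ (fun i k => R i k)) := by fun_prop
      exact this.aestronglyMeasurable

/-- the law of one overlap is determined by its moments of orders `2, 4, 5, 6, ...` -/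
theorem law_unique (ζ ζ' : Measure ℝ) [IsProbabilityMeasure ζ] [IsProbabilityMeasure ζ']
    (h1 : ζ (Set.Icc (-1) 1)ᶜ = 0) (h2 : ζ' (Set.Icc (-1) 1)ᶜ = 0)
    (h : ∀ p : ℕ, (p = 2 ∨ 4 ≤ p) → ∫ x, x ^ p ∂ζ = ∫ x, x ^ p ∂ζ') : ζ = ζ' := by
  let cl : ℝ → I := fun x => ⟨max (-1) (min 1 x), by
    constructor
    · exact le_max_left _ _
    · exact max_le (by norm_num) (min_le_left _ _)⟩
  have hcl : Continuous cl := by
    refine Continuous.subtype_mk ?_ _
    fun_prop
  have hae : ∀ ν : Measure ℝ, ν (Set.Icc (-1) 1)ᶜ = 0 → ∀ᵐ x ∂ν, ((cl x : I) : ℝ) = x := by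
    intro ν hν
    have : ∀ᵐ x ∂ν, x ∈ Set.Icc (-1 : ℝ) 1 := hν
    filter_upwards [this] with x hx
    simp only [cl]
    rw [min_eq_right hx.2, max_eq_right hx.1]
  have hint : ∀ (ν : Measure ℝ) [IsProbabilityMeasure ν] (ψ : C(I, ℝ)),
      Integrable (fun x => ψ (cl x)) ν := by
    intro ν _ ψ
    refine Integrable.of_bound (ψ.continuous.comp hcl).aestronglyMeasurable ‖ψ‖ ?_
    exact Eventually.of_forall fun x => ψ.norm_coe_le_norm _
  have mk : ∀ (ν : Measure ℝ) [IsProbabilityMeasure ν], ∃ T : C(I, ℝ) →L[ℝ] ℝ,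
      ∀ ψ, T ψ = ∫ x, ψ (cl x) ∂ν := by
    intro ν _
    refine ⟨LinearMap.mkContinuous
      { toFun := fun ψ => ∫ x, ψ (cl x) ∂ν
        map_add' := fun ψ ψ' => by
          rw [← integral_add (hint ν ψ) (hint ν ψ')]
          rfl
        map_smul' := fun c ψ => by
          rw [RingHom.id_apply, smul_eq_mul, ← integral_const_mul]
          rfl } 1 (fun ψ => ?_), fun ψ => rfl⟩
    refine (norm_integral_le_of_norm_le_const (C := ‖ψ‖)
      (Eventually.of_forall fun x => ψ.norm_coe_le_norm _)).trans ?_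
    simp
  obtain ⟨T, hT⟩ := mk ζ
  obtain ⟨T', hT'⟩ := mk ζ'
  have hz : T - T' = 0 := by
    refine L_zero _ ?_ ?_
    · rw [sub_apply, hT, hT']
      simp
    · intro p hp
      rw [sub_apply, hT, hT', sub_eq_zero]
      have e : ∀ (ν : Measure ℝ), ν (Set.Icc (-1) 1)ᶜ = 0 →
          ∫ x, (Xf ^ p : C(I, ℝ)) (cl x) ∂ν = ∫ x, x ^ p ∂ν := by
        intro ν hν
        refine integral_congr_ae ?_
        filter_upwards [hae ν hν] with x hx
        simp only [ContinuousMap.pow_apply, Xf, ContinuousMap.coe_mk, hx]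
      rw [e ζ h1, e ζ' h2]
      exact h p (Or.inr hp)
  have hmap : ζ.map cl = ζ'.map cl := by
    have := Measure.isProbabilityMeasure_map (μ := ζ) hcl.aemeasurable
    have := Measure.isProbabilityMeasure_map (μ := ζ') hcl.aemeasurable
    refine ext_of_forall_integral_eq_of_IsFiniteMeasure fun f => ?_
    rw [integral_map hcl.aemeasurable f.continuous.aestronglyMeasurable,
      integral_map hcl.aemeasurable f.continuous.aestronglyMeasurable]
    have h5 := congrArg (fun L : C(I, ℝ) →L[ℝ] ℝ => L f.toContinuousMap) hz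
    simp only [sub_apply, hT, hT'] at h5
    exact sub_eq_zero.1 h5
  have key : ∀ (ν : Measure ℝ), ν (Set.Icc (-1) 1)ᶜ = 0 →
      (ν.map cl).map (fun x : I => (x : ℝ)) = ν := by
    intro ν hν
    rw [Measure.map_map measurable_subtype_coe hcl.measurable]
    have : ((fun x : I => (x : ℝ)) ∘ cl) =ᵐ[ν] id := hae ν hν
    rw [Measure.map_congr this, Measure.map_id]
  rw [← key ζ h1, hmap, key ζ' h2]

end Pool.Agent.OS
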