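import Mathlib

/-!
Base definitions for MP_0f946f_pr (orthogonal structures, S19150).
-/

set_option autoImplicit false

open MeasureTheory ProbabilityTheory Real Filter Topology

namespace Pool.Agent.OS

/-! ### Gaussian vectors on finite index sets -/

/-- centred Gaussian measure on `ι → ℝ` with covariance matrix `C` (for `C` positive semidefinite) -/
noncomputable def gm {ι : Type*} [Fintype ι] [DecidableEq ι] (C : Matrix ι ι ℝ) :
    Measure (ι → ℝ) :=
  (multivariateGaussian (0 : EuclideanSpace ℝ ι) C).map (fun x => (WithLp.ofLp x : ι → ℝ))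

/-- the standard Gaussian law on the line -/
noncomputable abbrev γ : Measure ℝ := gaussianReal 0 1

/-- `F` is twice continuously differentiable, with first partial derivatives `G i` and second
partial derivatives `S i j`, all bounded -/
structure C2b {ι : Type*} [Fintype ι] (F : (ι → ℝ) → ℝ) (G : ι → (ι → ℝ) → ℝ)
    (S : ι → ι → (ι → ℝ) → ℝ) : Prop where
  hF : ∀ x, HasFDerivAt F (∑ j, G j x • (ContinuousLinearMap.proj j : (ι → ℝ) →L[ℝ] ℝ)) x
  hG : ∀ i x, HasFDerivAt (G i) (∑ j, S i j x • (ContinuousLinearMap.proj j : (ι → ℝ) →L[ℝ] ℝ)) x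
  hS : ∀ i j, Continuous (S i j)
  bd : ∃ B, ∀ x i, |G i x| ≤ B ∧ ∀ j, |S i j x| ≤ B

/-! ### Gibbs averages -/

section gibbs
variable {ι : Type*} [Fintype ι]

/-- log-sum-exp -/
noncomputable def lse (x : ι → ℝ) : ℝ := Real.log (∑ i, Real.exp (x i))

/-- Gibbs weight of `i` for the Hamiltonian `x` -/
noncomputable def pw (x : ι → ℝ) (i : ι) : ℝ := Real.exp (x i) / ∑ j, Real.exp (x j)

/-- Gibbs average of a function of `n` replicas -/
noncomputable def gav (x : ι → ℝ) (n : ℕ) (f : (Fin n → ι) → ℝ) : ℝ :=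
  ∑ s : Fin n → ι, f s * ∏ l, pw x (s l)

variable [DecidableEq ι]

/-- disorder and Gibbs average of a function of `n` replicas, Hamiltonian `~ N(0,C)` -/
noncomputable def EG (C : Matrix ι ι ℝ) (n : ℕ) (f : (Fin n → ι) → ℝ) : ℝ :=
  ∫ x, gav x n f ∂(gm C)

/-- mean log partition function -/
noncomputable def FE (C : Matrix ι ι ℝ) : ℝ := ∫ x, lse x ∂(gm C)

end gibbs

/-! ### The spin system -/

/-- configurations -/
abbrev Cfg (N : ℕ) := Fin N → Bool

/-- overlap -/
noncomputable def ov {N : ℕ} (σ τ : Cfg N) : ℝ := (∑ i, if σ i = τ i then (1:ℝ) else -1) / N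

/-- the function `ξ` with coefficients `c` (`c p = β_p²`) -/
noncomputable def xi (c : ℕ → ℝ) (x : ℝ) : ℝ := ∑' p, c p * x ^ p
/-- `ξ'` -/
noncomputable def xi1 (c : ℕ → ℝ) (x : ℝ) : ℝ := ∑' p, c p * (p * x ^ (p - 1))
/-- `ξ''` -/
noncomputable def xi2 (c : ℕ → ℝ) (x : ℝ) : ℝ := ∑' p, c p * (p * (p - 1) * x ^ (p - 2))
/-- `θ = x ξ' - ξ` -/
noncomputable def th (c : ℕ → ℝ) (x : ℝ) : ℝ := x * xi1 c x - xi c x

/-- covariance of the Hamiltonian -/
noncomputable def cov (c : ℕ → ℝ) (N : ℕ) : Matrix (Cfg N) (Cfg N) ℝ :=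
  fun σ τ => (N:ℝ) * xi c (ov σ τ)

/-- finite volume free energy -/
noncomputable def FN (c : ℕ → ℝ) (N : ℕ) : ℝ := FE (cov c N) / N

/-- admissible coefficient sequences -/
structure Adm (c : ℕ → ℝ) : Prop where
  nonneg : ∀ p, 0 ≤ c p
  sum : Summable (fun p : ℕ => (2:ℝ) ^ p * c p)
  c0 : c 0 = 0
  c1 : c 1 = 0

/-- matrix of overlaps of `n` replicas -/
noncomputable def ovm {N n : ℕ} (s : Fin n → Cfg N) : Fin n → Fin n → ℝ := fun i j => ov (s i) (s j)

/-! ### Guerra's operators -/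

section nest
variable {E : Type*} [NormedAddCommGroup E] [NormedSpace ℝ E]

/-- normalisation of the tilt `exp (m X)` along the Gaussian direction `a` -/
noncomputable def Zt (m : ℝ) (a : E) (X : E → ℝ) (x : E) : ℝ :=
  ∫ g, Real.exp (m * X (x + g • a)) ∂γ

/-- `T_{m,a} X (x) = (1/m) log E exp (m X (x + g a))`, and `E X (x + g a)` for `m = 0` -/
noncomputable def T (m : ℝ) (a : E) (X : E → ℝ) (x : E) : ℝ :=
  if m = 0 then ∫ g, X (x + g • a) ∂γ else m⁻¹ * Real.log (Zt m a X x)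

/-- tilted average -/
noncomputable def K {V : Type*} [NormedAddCommGroup V] [NormedSpace ℝ V]
    (m : ℝ) (a : E) (X : E → ℝ) (φ : E → V) (x : E) : V :=
  (Zt m a X x)⁻¹ • ∫ g, Real.exp (m * X (x + g • a)) • φ (x + g • a) ∂γ

end nest

/-! ### One-dimensional nests and the Parisi functional -/

/-- iterated operator for a list of pairs `(m, c)` (`c` = variance), outermost first -/
noncomputable def tn : List (ℝ × ℝ) → (ℝ → ℝ) → ℝ → ℝ
  | [], f => f
  | (p :: L), f => T p.1 (Real.sqrt p.2) (tn L f)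

/-- iterated tilted average, `L` outermost first, `X` the function at the inner end -/
noncomputable def KE : List (ℝ × ℝ) → (ℝ → ℝ) → (ℝ → ℝ) → ℝ → ℝ
  | [], _, φ => φ
  | (p :: L), X, φ => K p.1 (Real.sqrt p.2) (tn L X) (KE L X φ)

/-- `log cosh` -/
noncomputable def lc (y : ℝ) : ℝ := Real.log (Real.cosh y)

/-- the list of pairs `(m, ξ'(q_j) - ξ'(q_{j-1}))` for a list of pairs `(m_j, q_j)` -/
noncomputable def incs (c : ℕ → ℝ) : ℝ → List (ℝ × ℝ) → List (ℝ × ℝ)
  | _, [] => []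
  | q0, (p :: L) => (p.1, xi1 c p.2 - xi1 c q0) :: incs c p.2 L

/-- `∑ m_j (θ(q_j) - θ(q_{j-1}))` -/
noncomputable def pen (θ : ℝ → ℝ) : ℝ → List (ℝ × ℝ) → ℝ
  | _, [] => 0
  | q0, (p :: L) => p.1 * (θ p.2 - θ q0) + pen θ p.2 L

/-- Parisi functional of the step function with value `m_j` on `(q_{j-1}, q_j)` -/
noncomputable def Par (c : ℕ → ℝ) (L : List (ℝ × ℝ)) : ℝ :=
  tn (incs c 0 L) (fun y => Real.log (2 * Real.cosh y)) 0 - pen (th c) 0 L / 2

/-- the list `L` of pairs `(m_j, q_j)` is an admissible step function starting from `(m0, q0)` and ending at `(1,1)` -/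
def StepOK : ℝ → ℝ → List (ℝ × ℝ) → Prop
  | m0, q0, [] => m0 = 1 ∧ q0 = 1
  | m0, q0, (p :: L) => m0 ≤ p.1 ∧ q0 ≤ p.2 ∧ StepOK p.1 p.2 L

end Pool.Agent.OS
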