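import Pool.Agent.LibMP0f946f.Stein

/-! TASK LSE: log-sum-exp, Gibbs averages, comparison and concentration of free energies. -/

set_option autoImplicit false
open MeasureTheory ProbabilityTheory Real Filter Topology

set_option linter.unusedSectionVars false
set_option linter.deprecated false

namespace Pool.Agent.OS

variable {ι κ : Type*} [Fintype ι] [DecidableEq ι] [Fintype κ] [DecidableEq κ]

section basic
variable [Nonempty ι]

omit [DecidableEq ι] in
private theorem sum_exp_pos (x : ι → ℝ) : 0 < ∑ j, Real.exp (x j) :=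
  Finset.sum_pos (fun _ _ => Real.exp_pos _) Finset.univ_nonempty

omit [DecidableEq ι] in
theorem pw_pos (x : ι → ℝ) (i : ι) : 0 < pw x i :=
  div_pos (Real.exp_pos _) (sum_exp_pos x)

omit [DecidableEq ι] in
theorem pw_sum (x : ι → ℝ) : ∑ i, pw x i = 1 := by
  unfold pw
  rw [← Finset.sum_div, div_self (sum_exp_pos x).ne']

omit [DecidableEq ι] in
private theorem pw_le_one (x : ι → ℝ) (i : ι) : pw x i ≤ 1 := by
  rw [← pw_sum x]
  exact Finset.single_le_sum (fun j _ => (pw_pos x j).le) (Finset.mem_univ i)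

omit [DecidableEq ι] in
private theorem pw_cont (i : ι) : Continuous (fun x : ι → ℝ => pw x i) := by
  unfold pw
  refine Continuous.div (by fun_prop) (by fun_prop) fun x => (sum_exp_pos x).ne'

omit [DecidableEq ι] in
private theorem hasFDeriv_sumexp (x : ι → ℝ) :
    HasFDerivAt (fun x : ι → ℝ => ∑ j, Real.exp (x j))
      (∑ j, Real.exp (x j) • (ContinuousLinearMap.proj j : (ι → ℝ) →L[ℝ] ℝ)) x := by
  refine HasFDerivAt.fun_sum fun j _ => ?_
  exact (ContinuousLinearMap.hasFDerivAt
    (ContinuousLinearMap.proj j : (ι → ℝ) →L[ℝ] ℝ)).exp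

theorem lse_C2b : C2b (lse (ι := ι)) (fun i x => pw x i)
    (fun i j x => (if i = j then pw x i else 0) - pw x i * pw x j) := by
  refine ⟨fun x => ?_, fun i x => ?_, fun i j => ?_, ⟨2, fun x i => ⟨?_, fun j => ?_⟩⟩⟩
  · have := (hasFDeriv_sumexp x).log (sum_exp_pos x).ne'
    refine this.congr_fderiv ?_
    rw [Finset.smul_sum]
    refine Finset.sum_congr rfl fun j _ => ?_
    rw [smul_smul, pw, div_eq_inv_mul]
  · have h1 := (ContinuousLinearMap.hasFDerivAt (x := x)
      (ContinuousLinearMap.proj i : (ι → ℝ) →L[ℝ] ℝ)).exp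
    have h2 := (hasDerivAt_inv (sum_exp_pos x).ne').comp_hasFDerivAt x (hasFDeriv_sumexp x)
    have h3 := h1.mul h2
    have hfun : (fun x : ι → ℝ => pw x i) = fun x => Real.exp ((ContinuousLinearMap.proj i :
        (ι → ℝ) →L[ℝ] ℝ) x) * ((fun y => y⁻¹) ∘ fun x : ι → ℝ => ∑ j, Real.exp (x j)) x := by
      funext x
      simp [pw, div_eq_mul_inv]
    rw [hfun]
    refine h3.congr_fderiv ?_
    refine ContinuousLinearMap.ext fun v => ?_
    have hS := (sum_exp_pos x).ne'
    simp only [ContinuousLinearMap.proj_apply, Function.comp_apply, ContinuousLinearMap.add_apply,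
      ContinuousLinearMap.smul_apply, ContinuousLinearMap.sum_apply, smul_eq_mul, sub_mul,
      Finset.sum_sub_distrib, ite_mul, zero_mul, Finset.sum_ite_eq, Finset.mem_univ, if_true]
    have h4 : ∑ j, pw x i * pw x j * v j =
        pw x i * ((∑ j, Real.exp (x j))⁻¹ * ∑ j, Real.exp (x j) * v j) := by
      rw [Finset.mul_sum, Finset.mul_sum]
      refine Finset.sum_congr rfl fun j _ => ?_
      simp only [pw, div_eq_mul_inv]
      ring
    rw [h4]
    simp only [pw]
    field_simp
    ring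
  · have := pw_cont (ι := ι) i
    have := pw_cont (ι := ι) j
    split_ifs <;> fun_prop
  · rw [abs_of_pos (pw_pos x i)]
    linarith [pw_le_one x i]
  · have h1 := pw_pos x i
    have h2 := pw_le_one x i
    have h3 := pw_pos x j
    have h4 := pw_le_one x j
    have h5 : pw x i * pw x j ≤ 1 := mul_le_one₀ h2 h3.le h4
    have h6 : 0 ≤ pw x i * pw x j := by positivity
    rw [abs_le]
    split_ifs <;> constructor <;> linarith

private theorem lse_cont : Continuous (lse (ι := ι)) :=
  continuous_iff_continuousAt.2 fun x => (lse_C2b.hF x).continuousAt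

omit [DecidableEq ι] in
theorem gav_const (x : ι → ℝ) (n : ℕ) (c : ℝ) : gav x n (fun _ => c) = c := by
  unfold gav
  rw [← Finset.mul_sum]
  have := Finset.prod_univ_sum (fun _ : Fin n => (Finset.univ : Finset ι)) (fun _ j => pw x j)
  rw [Fintype.piFinset_univ] at this
  rw [← this]
  simp [pw_sum]

omit [DecidableEq ι] in
theorem gav_mono (x : ι → ℝ) (n : ℕ) {f g : (Fin n → ι) → ℝ} (h : ∀ s, f s ≤ g s) :
    gav x n f ≤ gav x n g := by
  unfold gav
  refine Finset.sum_le_sum fun s _ => mul_le_mul_of_nonneg_right (h s) ?_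
  exact Finset.prod_nonneg fun l _ => (pw_pos x _).le

omit [DecidableEq ι] in
theorem gav_add (x : ι → ℝ) (n : ℕ) (f g : (Fin n → ι) → ℝ) :
    gav x n (fun s => f s + g s) = gav x n f + gav x n g := by
  unfold gav
  rw [← Finset.sum_add_distrib]
  exact Finset.sum_congr rfl fun s _ => by ring

omit [DecidableEq ι] in
theorem gav_mul (x : ι → ℝ) (n : ℕ) (c : ℝ) (f : (Fin n → ι) → ℝ) :
    gav x n (fun s => c * f s) = c * gav x n f := by
  unfold gav
  rw [Finset.mul_sum]
  exact Finset.sum_congr rfl fun s _ => by ring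

omit [DecidableEq ι] in
/-- a function of fewer replicas, sampled along an injection -/
theorem gav_inj (x : ι → ℝ) {m n : ℕ} (e : Fin m → Fin n) (he : Function.Injective e)
    (f : (Fin m → ι) → ℝ) : gav x n (fun s => f (s ∘ e)) = gav x m f := by
  classical
  unfold gav
  rw [← Finset.sum_fiberwise_of_maps_to (s := (Finset.univ : Finset (Fin n → ι)))
    (t := (Finset.univ : Finset (Fin m → ι))) (g := fun s => s ∘ e) (fun _ _ => Finset.mem_univ _)]
  refine Finset.sum_congr rfl fun s' _ => ?_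
  have h1 : ∑ s ∈ (Finset.univ : Finset (Fin n → ι)).filter (fun s => s ∘ e = s'),
      f (s ∘ e) * ∏ l, pw x (s l) =
      f s' * ∑ s ∈ (Finset.univ : Finset (Fin n → ι)).filter (fun s => s ∘ e = s'),
        ∏ l, pw x (s l) := by
    rw [Finset.mul_sum]
    refine Finset.sum_congr rfl fun s hs => ?_
    rw [(Finset.mem_filter.mp hs).2]
  rw [h1]
  congr 1
  let t : Fin n → Finset ι := fun l => if h : ∃ k, e k = l then {s' h.choose} else Finset.univ
  have ht : (Finset.univ : Finset (Fin n → ι)).filter (fun s => s ∘ e = s') =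
      Fintype.piFinset t := by
    ext s
    simp only [Finset.mem_filter, Finset.mem_univ, true_and, Fintype.mem_piFinset, t]
    constructor
    · rintro rfl l
      split_ifs with h
      · rw [Finset.mem_singleton, Function.comp_apply, h.choose_spec]
      · exact Finset.mem_univ _
    · intro h
      funext k
      have hk := h (e k)
      have hex : ∃ k', e k' = e k := ⟨k, rfl⟩
      rw [dif_pos hex, Finset.mem_singleton] at hk
      rw [Function.comp_apply, hk, he hex.choose_spec]
  rw [ht, ← Finset.prod_univ_sum]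
  have h2 : ∀ l, ∑ j ∈ t l, pw x j = if h : ∃ k, e k = l then pw x (s' h.choose) else 1 := by
    intro l
    by_cases h : ∃ k, e k = l
    · simp only [t, dif_pos h, Finset.sum_singleton]
    · simp only [t, dif_neg h, pw_sum]
  rw [Finset.prod_congr rfl fun l _ => h2 l]
  have h3 : ∏ l, (if h : ∃ k, e k = l then pw x (s' h.choose) else 1) =
      ∏ l ∈ Finset.univ.image e, (if h : ∃ k, e k = l then pw x (s' h.choose) else 1) := by
    symm
    refine Finset.prod_subset (Finset.subset_univ _) fun l _ hl => ?_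
    rw [dif_neg]
    rintro ⟨k, rfl⟩
    exact hl (Finset.mem_image_of_mem _ (Finset.mem_univ _))
  rw [h3, Finset.prod_image (fun a _ b _ h => he h)]
  refine Finset.prod_congr rfl fun k _ => ?_
  have hex : ∃ k', e k' = e k := ⟨k, rfl⟩
  rw [dif_pos hex, he hex.choose_spec]

omit [DecidableEq ι] in
/-- product of averages -/
theorem gav_prod (x : ι → ℝ) {m n : ℕ} (f : (Fin m → ι) → ℝ) (g : (Fin n → ι) → ℝ) :
    gav x (m + n) (fun s => f (s ∘ Fin.castAdd n) * g (s ∘ Fin.natAdd m)) =
      gav x m f * gav x n g := by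
  unfold gav
  rw [← (Fin.appendEquiv m n).sum_comp, Fintype.sum_prod_type, Finset.sum_mul_sum]
  refine Finset.sum_congr rfl fun s _ => Finset.sum_congr rfl fun s' _ => ?_
  beta_reduce
  have h1 : (Fin.appendEquiv m n) (s, s') ∘ Fin.castAdd n = s := by
    funext i
    simp [Fin.appendEquiv]
  have h2 : (Fin.appendEquiv m n) (s, s') ∘ Fin.natAdd m = s' := by
    funext i
    simp [Fin.appendEquiv]
  rw [h1, h2, Fin.prod_univ_add]
  have h3 : ∀ i, (Fin.appendEquiv m n) (s, s') (Fin.castAdd n i) = s i := fun i =>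
    congrFun h1 i
  have h4 : ∀ i, (Fin.appendEquiv m n) (s, s') (Fin.natAdd m i) = s' i := fun i =>
    congrFun h2 i
  simp only [h3, h4]
  ring

omit [DecidableEq ι] in
theorem gav_measurable (n : ℕ) (f : (Fin n → ι) → ℝ) : Continuous (fun x : ι → ℝ => gav x n f) := by
  unfold gav
  refine continuous_finsetSum _ fun s _ => continuous_const.mul ?_
  exact continuous_finsetProd _ fun l _ => pw_cont _

omit [DecidableEq ι] in
private theorem gav_bdd (n : ℕ) (f : (Fin n → ι) → ℝ) : ∃ B : ℝ, ∀ x : ι → ℝ, |gav x n f| ≤ B := by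
  refine ⟨∑ s, |f s|, fun x => ?_⟩
  have hf : ∀ s, |f s| ≤ ∑ s, |f s| := fun s =>
    Finset.single_le_sum (f := fun s => |f s|) (fun _ _ => abs_nonneg _) (Finset.mem_univ s)
  rw [abs_le]
  constructor
  · have := gav_mono x n (f := fun _ => -∑ s, |f s|) (g := f) fun s => by
      linarith [hf s, neg_abs_le (f s)]
    rwa [gav_const] at this
  · have := gav_mono x n (f := f) (g := fun _ => ∑ s, |f s|) fun s => by
      linarith [hf s, le_abs_self (f s)]
    rwa [gav_const] at this

theorem gav_integrable (C : Matrix ι ι ℝ) (n : ℕ) (f : (Fin n → ι) → ℝ) :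
    Integrable (fun x : ι → ℝ => gav x n f) (gm C) := by
  obtain ⟨B, hB⟩ := gav_bdd (ι := ι) n f
  refine Integrable.of_bound (gav_measurable n f).aestronglyMeasurable B ?_
  exact Eventually.of_forall fun x => hB x

theorem EG_const (C : Matrix ι ι ℝ) (n : ℕ) (c : ℝ) : EG C n (fun _ => c) = c := by
  unfold EG
  simp [gav_const]

theorem EG_mono (C : Matrix ι ι ℝ) (n : ℕ) {f g : (Fin n → ι) → ℝ} (h : ∀ s, f s ≤ g s) :
    EG C n f ≤ EG C n g :=
  integral_mono (gav_integrable C n f) (gav_integrable C n g) fun x => gav_mono x n h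

theorem EG_add (C : Matrix ι ι ℝ) (n : ℕ) (f g : (Fin n → ι) → ℝ) :
    EG C n (fun s => f s + g s) = EG C n f + EG C n g := by
  unfold EG
  simp only [gav_add]
  exact integral_add (gav_integrable C n f) (gav_integrable C n g)

theorem EG_mul (C : Matrix ι ι ℝ) (n : ℕ) (c : ℝ) (f : (Fin n → ι) → ℝ) :
    EG C n (fun s => c * f s) = c * EG C n f := by
  unfold EG
  simp only [gav_mul]
  exact integral_const_mul c _

theorem EG_inj (C : Matrix ι ι ℝ) {m n : ℕ} (e : Fin m → Fin n) (he : Function.Injective e)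
    (f : (Fin m → ι) → ℝ) : EG C n (fun s => f (s ∘ e)) = EG C m f := by
  unfold EG
  simp only [gav_inj _ e he f]

theorem lse_integrable (C : Matrix ι ι ℝ) : Integrable (lse (ι := ι)) (gm C) :=
  C2b.integrable lse_C2b

omit [DecidableEq ι] [Nonempty ι] in
private theorem psd_diag {C : Matrix ι ι ℝ} (hC : C.PosSemidef) (i : ι) : 0 ≤ C i i :=
  hC.diag_nonneg

omit [DecidableEq ι] [Nonempty ι] in
private theorem psd_symm {C : Matrix ι ι ℝ} (hC : C.PosSemidef) (i j : ι) : C i j = C j i := by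
  have := hC.isHermitian.apply j i
  simpa using this

omit [DecidableEq ι] [Nonempty ι] in
private theorem psd_quad {C : Matrix ι ι ℝ} (hC : C.PosSemidef) (v : ι → ℝ) :
    0 ≤ ∑ i, ∑ j, C i j * (v i * v j) := by
  have h := hC.dotProduct_mulVec_nonneg v
  simp only [star_trivial, dotProduct, Matrix.mulVec, Finset.mul_sum] at h
  refine h.trans_eq ?_
  exact Finset.sum_congr rfl fun i _ => Finset.sum_congr rfl fun j _ => by ring

omit [Nonempty ι] in
private theorem psd_off {C : Matrix ι ι ℝ} (hC : C.PosSemidef) (i j : ι) :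
    2 * C i j ≤ C i i + C j j := by
  by_cases hij : i = j
  · subst hij; linarith
  have h := psd_quad hC (fun k => (if k = i then 1 else 0) - (if k = j then 1 else 0))
  have h1 : ∑ k, ∑ l, C k l * (((if k = i then (1 : ℝ) else 0) - (if k = j then 1 else 0)) *
      ((if l = i then (1 : ℝ) else 0) - (if l = j then 1 else 0))) =
      C i i - C i j - C j i + C j j := by
    simp [mul_sub, Finset.sum_sub_distrib]
    ring
  rw [h1, psd_symm hC j i] at h
  linarith

private theorem sum_S (M : Matrix ι ι ℝ) (x : ι → ℝ) :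
    ∑ i, ∑ j, M i j * ((if i = j then pw x i else 0) - pw x i * pw x j) =
      ∑ i, M i i * pw x i - ∑ i, ∑ j, M i j * (pw x i * pw x j) := by
  rw [← Finset.sum_sub_distrib]
  refine Finset.sum_congr rfl fun i _ => ?_
  simp [mul_sub, Finset.sum_sub_distrib]

omit [DecidableEq ι] in
private theorem sum_pp (x y : ι → ℝ) (c : ℝ) : ∑ i, ∑ j, c * (pw x i * pw y j) = c := by
  have : ∀ i, ∑ j, c * (pw x i * pw y j) = c * pw x i := fun i => by
    rw [← Finset.mul_sum, ← Finset.mul_sum, pw_sum, mul_one]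
  rw [Finset.sum_congr rfl fun i _ => this i, ← Finset.mul_sum, pw_sum, mul_one]

/-- `∑ D i j p i p j ≤ ∑ D i i p i` -/
private theorem psd_var {D : Matrix ι ι ℝ} (hD : D.PosSemidef) (x : ι → ℝ) :
    ∑ i, ∑ j, D i j * (pw x i * pw x j) ≤ ∑ i, D i i * pw x i := by
  have h1 : ∑ i, ∑ j, D i j * (pw x i * pw x j) ≤
      ∑ i, ∑ j, ((D i i * pw x i) * pw x j + pw x i * (D j j * pw x j)) / 2 := by
    refine Finset.sum_le_sum fun i _ => Finset.sum_le_sum fun j _ => ?_
    have := mul_le_mul_of_nonneg_right (psd_off hD i j)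
      (mul_nonneg (pw_pos x i).le (pw_pos x j).le)
    linarith
  refine h1.trans_eq ?_
  have h2 : ∀ i, ∑ j, ((D i i * pw x i) * pw x j + pw x i * (D j j * pw x j)) / 2 =
      (D i i * pw x i + pw x i * ∑ j, D j j * pw x j) / 2 := fun i => by
    rw [← Finset.sum_div, Finset.sum_add_distrib, ← Finset.mul_sum, ← Finset.mul_sum, pw_sum,
      mul_one]
  rw [Finset.sum_congr rfl fun i _ => h2 i, ← Finset.sum_div, Finset.sum_add_distrib,
    ← Finset.sum_mul, pw_sum]
  ring

private theorem FE_cmp {C D : Matrix ι ι ℝ} (hC : C.PosSemidef) (hD : D.PosSemidef) (c : ℝ)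
    (hc : ∀ x : ι → ℝ, ∑ i, (D i i - C i i) * pw x i -
      ∑ i, ∑ j, (D i j - C i j) * (pw x i * pw x j) ≤ c) : FE D ≤ FE C + c / 2 := by
  refine gm_cmp hC hD lse_C2b c fun x => ?_
  have := sum_S (D - C) x
  simp only [Matrix.sub_apply] at this
  rw [this]
  exact hc x

/-- equal variances and smaller covariances give a larger free energy -/
theorem FE_le_of_diag_eq {C D : Matrix ι ι ℝ} (hC : C.PosSemidef) (hD : D.PosSemidef)
    (hdiag : ∀ i, C i i = D i i) (hoff : ∀ i j, D i j ≤ C i j) : FE C ≤ FE D := by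
  have := FE_cmp hD hC 0 fun x => by
    have h1 : ∑ i, (C i i - D i i) * pw x i = 0 :=
      Finset.sum_eq_zero fun i _ => by rw [hdiag, sub_self, zero_mul]
    have h2 : 0 ≤ ∑ i, ∑ j, (C i j - D i j) * (pw x i * pw x j) :=
      Finset.sum_nonneg fun i _ => Finset.sum_nonneg fun j _ =>
        mul_nonneg (sub_nonneg.2 (hoff i j)) (mul_nonneg (pw_pos x i).le (pw_pos x j).le)
    linarith
  linarith

private theorem FE_lip_aux {C D : Matrix ι ι ℝ} (hC : C.PosSemidef) (hD : D.PosSemidef) (δ : ℝ)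
    (h : ∀ i j, |C i j - D i j| ≤ δ) : FE D ≤ FE C + δ := by
  have := FE_cmp hC hD (2 * δ) fun x => by
    have h1 : ∑ i, (D i i - C i i) * pw x i ≤ ∑ i, δ * pw x i :=
      Finset.sum_le_sum fun i _ => mul_le_mul_of_nonneg_right
        (by have := (abs_le.1 (h i i)).1; linarith) (pw_pos x i).le
    have h2 : ∑ i, ∑ j, -δ * (pw x i * pw x j) ≤ ∑ i, ∑ j, (D i j - C i j) * (pw x i * pw x j) :=
      Finset.sum_le_sum fun i _ => Finset.sum_le_sum fun j _ => mul_le_mul_of_nonneg_right
        (by have := (abs_le.1 (h i j)).2; linarith) (mul_nonneg (pw_pos x i).le (pw_pos x j).le)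
    rw [sum_pp] at h2
    rw [← Finset.mul_sum, pw_sum] at h1
    linarith
  linarith

theorem FE_lip {C D : Matrix ι ι ℝ} (hC : C.PosSemidef) (hD : D.PosSemidef) (δ : ℝ)
    (h : ∀ i j, |C i j - D i j| ≤ δ) : |FE C - FE D| ≤ δ := by
  have h1 := FE_lip_aux hC hD δ h
  have h2 := FE_lip_aux hD hC δ fun i j => by rw [abs_sub_comm]; exact h i j
  rw [abs_le]
  constructor <;> linarith

theorem FE_mono {C D : Matrix ι ι ℝ} (hC : C.PosSemidef) (hD : D.PosSemidef) :
    FE C ≤ FE (C + D) := by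
  have := FE_cmp (hC.add hD) hC 0 fun x => by
    have h1 := psd_var hD x
    simp only [Matrix.add_apply, sub_add_cancel_left, neg_mul, Finset.sum_neg_distrib]
    linarith
  linarith

private theorem FE_zero : FE (0 : Matrix ι ι ℝ) = Real.log (Fintype.card ι) := by
  unfold FE
  rw [gm_zero, integral_dirac]
  simp [lse]

/-- `FE C ≤ log |ι| + M/2` (Jensen) -/
theorem FE_le {C : Matrix ι ι ℝ} (hC : C.PosSemidef) (M : ℝ) (hM : ∀ i, C i i ≤ M) :
    FE C ≤ Real.log (Fintype.card ι) + M / 2 := by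
  rw [← FE_zero]
  refine FE_cmp Matrix.PosSemidef.zero hC M fun x => ?_
  simp only [Matrix.zero_apply, sub_zero]
  have h1 : ∑ i, C i i * pw x i ≤ ∑ i, M * pw x i :=
    Finset.sum_le_sum fun i _ => mul_le_mul_of_nonneg_right (hM i) (pw_pos x i).le
  rw [← Finset.mul_sum, pw_sum] at h1
  have h2 := psd_quad hC (pw x)
  linarith

theorem FE_ge {C : Matrix ι ι ℝ} (hC : C.PosSemidef) : Real.log (Fintype.card ι) ≤ FE C := by
  have := FE_mono (Matrix.PosSemidef.zero (n := ι) (R := ℝ)) hC
  rwa [zero_add, FE_zero] at this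

private theorem psd_abs {C : Matrix ι ι ℝ} (hC : C.PosSemidef) (M : ℝ) (hM : ∀ i, C i i ≤ M)
    (i j : ι) : C i j ≤ M := by
  have := psd_off hC i j
  linarith [hM i, hM j]

omit [DecidableEq ι] in
private theorem C2b.comp1 {u : (ι → ℝ) → ℝ} {G : ι → (ι → ℝ) → ℝ} {S : ι → ι → (ι → ℝ) → ℝ}
    (h : C2b u G S) {φ φ' φ'' : ℝ → ℝ} (h1 : ∀ t, HasDerivAt φ (φ' t) t)
    (h2 : ∀ t, HasDerivAt φ' (φ'' t) t) (h3 : Continuous φ'') (B : ℝ)
    (hB : ∀ t, |φ' t| ≤ B ∧ |φ'' t| ≤ B) :
    C2b (fun x => φ (u x)) (fun i x => φ' (u x) * G i x)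
      (fun i j x => φ'' (u x) * G j x * G i x + φ' (u x) * S i j x) := by
  have hcu : Continuous u := continuous_iff_continuousAt.2 fun x => (h.hF x).continuousAt
  have hcG : ∀ i, Continuous (G i) := fun i =>
    continuous_iff_continuousAt.2 fun x => (h.hG i x).continuousAt
  have hcφ' : Continuous φ' := continuous_iff_continuousAt.2 fun x => (h2 x).continuousAt
  obtain ⟨D, hD⟩ := h.bd
  refine ⟨fun x => ?_, fun i x => ?_, fun i j => ?_, ⟨|B| * |D| * |D| + |B| * |D|, ?_⟩⟩
  · refine ((h1 (u x)).comp_hasFDerivAt x (h.hF x)).congr_fderiv ?_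
    rw [Finset.smul_sum]
    exact Finset.sum_congr rfl fun j _ => smul_smul _ _ _
  · refine (((h2 (u x)).comp_hasFDerivAt x (h.hF x)).mul (h.hG i x)).congr_fderiv ?_
    rw [Finset.smul_sum, Finset.smul_sum, Finset.smul_sum, ← Finset.sum_add_distrib]
    refine Finset.sum_congr rfl fun j _ => ?_
    rw [smul_smul, smul_smul, smul_smul, ← add_smul]
    congr 1
    simp only [Function.comp_apply]
    ring
  · have := h.hS i j
    have := hcG i
    have := hcG j
    fun_prop
  · intro x i
    have hb1 := (hB (u x)).1.trans (le_abs_self B)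
    have hb2 := (hB (u x)).2.trans (le_abs_self B)
    have hd1 : ∀ i, |G i x| ≤ |D| := fun i => (hD x i).1.trans (le_abs_self D)
    have hd2 : ∀ j, |S i j x| ≤ |D| := fun j => ((hD x i).2 j).trans (le_abs_self D)
    have e0 : 0 ≤ |B| * |D| * |D| := by positivity
    constructor
    · rw [abs_mul]
      have := mul_le_mul hb1 (hd1 i) (abs_nonneg _) (abs_nonneg _)
      linarith
    · intro j
      refine (abs_add_le _ _).trans (add_le_add ?_ ?_)
      · rw [abs_mul, abs_mul]
        exact mul_le_mul (mul_le_mul hb2 (hd1 j) (abs_nonneg _) (abs_nonneg _)) (hd1 i)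
          (abs_nonneg _) (by positivity)
      · rw [abs_mul]
        exact mul_le_mul hb1 (hd2 j) (abs_nonneg _) (abs_nonneg _)

private noncomputable def uu (z : ι ⊕ ι → ℝ) : ℝ :=
  lse (fun i => z (Sum.inl i)) - lse (fun i => z (Sum.inr i))

private noncomputable def uG (k : ι ⊕ ι) (z : ι ⊕ ι → ℝ) : ℝ :=
  Sum.elim (fun i => pw (fun i => z (Sum.inl i)) i) (fun i => - pw (fun i => z (Sum.inr i)) i) k

private noncomputable def uS (k l : ι ⊕ ι) (z : ι ⊕ ι → ℝ) : ℝ :=
  Sum.elim (fun i => Sum.elim (fun j => (if i = j then pw (fun i => z (Sum.inl i)) i else 0) -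
      pw (fun i => z (Sum.inl i)) i * pw (fun i => z (Sum.inl i)) j) (fun _ => 0) l)
    (fun i => Sum.elim (fun _ => 0)
      (fun j => -((if i = j then pw (fun i => z (Sum.inr i)) i else 0) -
      pw (fun i => z (Sum.inr i)) i * pw (fun i => z (Sum.inr i)) j)) l) k

private theorem uu_C2b : C2b (uu (ι := ι)) uG uS := by
  have h := lse_C2b (ι := ι)
  let L : (ι ⊕ ι → ℝ) →L[ℝ] (ι → ℝ) := ContinuousLinearMap.pi fun i =>
    (ContinuousLinearMap.proj (Sum.inl i) : (ι ⊕ ι → ℝ) →L[ℝ] ℝ)
  let R : (ι ⊕ ι → ℝ) →L[ℝ] (ι → ℝ) := ContinuousLinearMap.pi fun i =>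
    (ContinuousLinearMap.proj (Sum.inr i) : (ι ⊕ ι → ℝ) →L[ℝ] ℝ)
  have hL : ∀ z, L z = fun i => z (Sum.inl i) := fun z => rfl
  have hR : ∀ z, R z = fun i => z (Sum.inr i) := fun z => rfl
  refine ⟨fun z => ?_, ?_, ?_, ⟨2, ?_⟩⟩
  · have h1 := ((h.hF (L z)).comp z L.hasFDerivAt).sub ((h.hF (R z)).comp z R.hasFDerivAt)
    refine h1.congr_fderiv ?_
    refine ContinuousLinearMap.ext fun v => ?_
    simp [Fintype.sum_sum_type, uG, hL, hR, sub_eq_add_neg]
  · rintro (i | i) z
    · have h1 := (h.hG i (L z)).comp z L.hasFDerivAt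
      refine h1.congr_fderiv ?_
      refine ContinuousLinearMap.ext fun v => ?_
      simp [Fintype.sum_sum_type, uS, hL]
    · have h1 := ((h.hG i (R z)).comp z R.hasFDerivAt).neg
      refine h1.congr_fderiv ?_
      refine ContinuousLinearMap.ext fun v => ?_
      simp only [add_apply, _root_.neg_apply, _root_.sum_apply, _root_.smul_apply,
        ContinuousLinearMap.comp_apply, ContinuousLinearMap.proj_apply, Fintype.sum_sum_type, uS, hR,
        Sum.elim_inl, Sum.elim_inr, smul_eq_mul, zero_mul, Finset.sum_const_zero, zero_add,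
        neg_mul, Finset.sum_neg_distrib]
  · have hcp : ∀ i, Continuous fun z : ι ⊕ ι → ℝ => pw (fun i => z (Sum.inl i)) i := fun i =>
      (pw_cont i).comp L.continuous
    have hcq : ∀ i, Continuous fun z : ι ⊕ ι → ℝ => pw (fun i => z (Sum.inr i)) i := fun i =>
      (pw_cont i).comp R.continuous
    rintro (i | i) (j | j)
    · change Continuous fun z : ι ⊕ ι → ℝ => (if i = j then pw (fun i => z (Sum.inl i)) i else 0) -
        pw (fun i => z (Sum.inl i)) i * pw (fun i => z (Sum.inl i)) j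
      have := hcp i
      have := hcp j
      split_ifs <;> fun_prop
    · exact continuous_const
    · exact continuous_const
    · change Continuous fun z : ι ⊕ ι → ℝ => -((if i = j then pw (fun i => z (Sum.inr i)) i else 0) -
        pw (fun i => z (Sum.inr i)) i * pw (fun i => z (Sum.inr i)) j)
      have := hcq i
      have := hcq j
      split_ifs <;> fun_prop
  · have key : ∀ (x : ι → ℝ) (i j : ι),
        |(if i = j then pw x i else 0) - pw x i * pw x j| ≤ 2 := by
      intro x i j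
      have h1 := pw_pos x i
      have h2 := pw_le_one x i
      have h3 := pw_pos x j
      have h4 := pw_le_one x j
      have h5 : pw x i * pw x j ≤ 1 := mul_le_one₀ h2 h3.le h4
      have h6 : 0 ≤ pw x i * pw x j := by positivity
      rw [abs_le]
      split_ifs <;> constructor <;> linarith
    have key2 : ∀ (x : ι → ℝ) (i : ι), |pw x i| ≤ 2 := by
      intro x i
      rw [abs_of_pos (pw_pos x i)]
      linarith [pw_le_one x i]
    rintro z (i | i)
    · refine ⟨key2 (fun i => z (Sum.inl i)) i, ?_⟩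
      rintro (j | j)
      · exact key (fun i => z (Sum.inl i)) i j
      · simp [uS]
    · refine ⟨?_, ?_⟩
      · simp only [uG, Sum.elim_inr, abs_neg]
        exact key2 _ _
      rintro (j | j)
      · simp [uS]
      · simp only [uS, Sum.elim_inr, abs_neg]
        exact key _ _ _

private theorem psd_fromBlocks_diag {C : Matrix ι ι ℝ} (hC : C.PosSemidef) :
    (Matrix.fromBlocks C 0 0 C).PosSemidef := by
  refine Matrix.PosSemidef.of_dotProduct_mulVec_nonneg ?_ fun v => ?_
  · rw [Matrix.IsHermitian, Matrix.fromBlocks_conjTranspose, hC.isHermitian.eq]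
    simp
  · have h1 := hC.dotProduct_mulVec_nonneg (v ∘ Sum.inl)
    have h2 := hC.dotProduct_mulVec_nonneg (v ∘ Sum.inr)
    rw [Matrix.fromBlocks_mulVec]
    simp only [dotProduct, Fintype.sum_sum_type, Pi.star_apply, star_trivial, Sum.elim_inl,
      Sum.elim_inr, Matrix.zero_mulVec, add_zero, zero_add, Function.comp_apply] at *
    linarith

private theorem phi_deriv (s : ℝ) (hs : 0 < s) (t : ℝ) :
    HasDerivAt (fun t : ℝ => Real.sqrt (s ^ 2 + t ^ 2)) (t / Real.sqrt (s ^ 2 + t ^ 2)) t := by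
  have h0 : s ^ 2 + t ^ 2 ≠ 0 := by positivity
  have h1 : HasDerivAt (fun t : ℝ => s ^ 2 + t ^ 2) (2 * t) t := by
    simpa using (hasDerivAt_pow 2 t).const_add (s ^ 2)
  have h2 := h1.sqrt h0
  refine h2.congr_deriv ?_
  field_simp

private theorem phi_deriv2 (s : ℝ) (hs : 0 < s) (t : ℝ) :
    HasDerivAt (fun t : ℝ => t / Real.sqrt (s ^ 2 + t ^ 2))
      (s ^ 2 / Real.sqrt (s ^ 2 + t ^ 2) ^ 3) t := by
  have h0 : 0 < s ^ 2 + t ^ 2 := by positivity
  have h3 : Real.sqrt (s ^ 2 + t ^ 2) ≠ 0 := (Real.sqrt_pos.2 h0).ne'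
  have h2 := (hasDerivAt_id t).div (phi_deriv s hs t) h3
  refine h2.congr_deriv ?_
  have h4 := Real.sq_sqrt h0.le
  simp only [id]
  field_simp
  rw [h4]
  ring

private theorem phi_bd (s : ℝ) (hs : 0 < s) (t : ℝ) :
    s ≤ Real.sqrt (s ^ 2 + t ^ 2) ∧ |t| ≤ Real.sqrt (s ^ 2 + t ^ 2) := by
  constructor
  · exact Real.le_sqrt_of_sq_le (by nlinarith [sq_nonneg t])
  · exact Real.le_sqrt_of_sq_le (by rw [sq_abs]; nlinarith [sq_nonneg s])

/-- concentration: apply `gm_cmp` on `ι ⊕ ι` to `√(s² + (lse x - lse y)²)` with covariances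
`[[C,C],[C,C]]` and `[[C,0],[0,C]]`, `s² = M` -/
theorem FE_conc {C : Matrix ι ι ℝ} (hC : C.PosSemidef) (M : ℝ) (hM : ∀ i, C i i ≤ M) :
    ∫ x, |lse x - FE C| ∂(gm C) ≤ 2 * Real.sqrt M := by
  have hM0 : 0 ≤ M := by
    obtain ⟨i⟩ := ‹Nonempty ι›
    exact (psd_diag hC i).trans (hM i)
  suffices H : ∀ s : ℝ, Real.sqrt M < s → ∫ x, |lse x - FE C| ∂(gm C) ≤ 2 * s by
    refine le_of_forall_gt_imp_ge_of_dense fun t ht => ?_
    have := H (t / 2) (by linarith)
    linarith
  intro s hs
  have hs0 : 0 < s := (Real.sqrt_nonneg M).trans_lt hs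
  have hMs : M ≤ s ^ 2 := by
    rw [← Real.sqrt_le_left hs0.le]
    exact hs.le
  let φ : ℝ → ℝ := fun t => Real.sqrt (s ^ 2 + t ^ 2)
  let φ' : ℝ → ℝ := fun t => t / Real.sqrt (s ^ 2 + t ^ 2)
  let φ'' : ℝ → ℝ := fun t => s ^ 2 / Real.sqrt (s ^ 2 + t ^ 2) ^ 3
  have hφ''pos : ∀ t, 0 ≤ φ'' t := fun t => by positivity
  have hφ''le : ∀ t, φ'' t ≤ 1 / s := fun t => by
    have h1 := (phi_bd s hs0 t).1
    have h2 : s ^ 3 ≤ Real.sqrt (s ^ 2 + t ^ 2) ^ 3 := pow_le_pow_left₀ hs0.le h1 3
    calc φ'' t ≤ s ^ 2 / s ^ 3 := div_le_div_of_nonneg_left (by positivity) (by positivity) h2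
      _ = 1 / s := by field_simp
  have hC2 : C2b (fun z : ι ⊕ ι → ℝ => φ (uu z)) (fun i z => φ' (uu z) * uG i z)
      (fun i j z => φ'' (uu z) * uG j z * uG i z + φ' (uu z) * uS i j z) := by
    refine uu_C2b.comp1 (phi_deriv s hs0) (phi_deriv2 s hs0) ?_ (1 + 1 / s) fun t => ⟨?_, ?_⟩
    · refine Continuous.div (by fun_prop) (by fun_prop) fun t => ?_
      have := (phi_bd s hs0 t).1
      have : 0 < Real.sqrt (s ^ 2 + t ^ 2) := by linarith
      positivity
    · have h1 := (phi_bd s hs0 t).2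
      have h2 : 0 < Real.sqrt (s ^ 2 + t ^ 2) := hs0.trans_le (phi_bd s hs0 t).1
      rw [abs_div, abs_of_pos h2, div_le_iff₀ h2]
      have : 0 < 1 / s := by positivity
      nlinarith
    · rw [abs_of_nonneg (hφ''pos t)]
      linarith [hφ''le t]
  have hD := psd_fromBlocks_diag hC
  have hE : (Matrix.fromBlocks C C C C).PosSemidef := by
    have := hC.submatrix (Sum.elim id id : ι ⊕ ι → ι)
    convert this using 1
    ext (i | i) (j | j) <;> rfl
  have h1 := gm_cmp hE hD hC2 (2 * M / s) fun z => by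
    have e1 : ∑ k, ∑ l, (Matrix.fromBlocks C 0 0 C k l - Matrix.fromBlocks C C C C k l) *
        (φ'' (uu z) * uG l z * uG k z + φ' (uu z) * uS k l z) =
        2 * φ'' (uu z) * ∑ i, ∑ j, C i j * (pw (fun i => z (Sum.inl i)) i *
          pw (fun i => z (Sum.inr i)) j) := by
      simp only [Fintype.sum_sum_type, Matrix.fromBlocks_apply₁₁, Matrix.fromBlocks_apply₁₂,
        Matrix.fromBlocks_apply₂₁, Matrix.fromBlocks_apply₂₂, sub_self, zero_mul,
        Finset.sum_const_zero, zero_add, add_zero, Matrix.zero_apply, zero_sub, uG, uS,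
        Sum.elim_inl, Sum.elim_inr, mul_zero]
      rw [Finset.sum_comm (f := fun i j => -C i j * (φ'' (uu z) * pw (fun i => z (Sum.inl i)) j *
        -pw (fun i => z (Sum.inr i)) i))]
      rw [← Finset.sum_add_distrib, Finset.mul_sum]
      refine Finset.sum_congr rfl fun i _ => ?_
      rw [← Finset.sum_add_distrib, Finset.mul_sum]
      refine Finset.sum_congr rfl fun j _ => ?_
      rw [psd_symm hC j i]
      ring
    rw [e1]
    have e2 : ∑ i, ∑ j, C i j * (pw (fun i => z (Sum.inl i)) i *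
          pw (fun i => z (Sum.inr i)) j) ≤ M := by
      calc _ ≤ ∑ i, ∑ j, M * (pw (fun i => z (Sum.inl i)) i *
          pw (fun i => z (Sum.inr i)) j) :=
            Finset.sum_le_sum fun i _ => Finset.sum_le_sum fun j _ =>
              mul_le_mul_of_nonneg_right (psd_abs hC M hM i j)
                (mul_nonneg (pw_pos _ i).le (pw_pos _ j).le)
        _ = M := sum_pp _ _ _
    calc 2 * φ'' (uu z) * _ ≤ 2 * φ'' (uu z) * M :=
          mul_le_mul_of_nonneg_left e2 (by linarith [hφ''pos (uu z)])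
      _ ≤ 2 * (1 / s) * M := mul_le_mul_of_nonneg_right (by linarith [hφ''le (uu z)]) hM0
      _ = 2 * M / s := by ring
  have h2 : ∫ z, φ (uu z) ∂(gm (Matrix.fromBlocks C C C C)) = s := by
    have hsub : Matrix.fromBlocks C C C C =
        C.submatrix (Sum.elim id id : ι ⊕ ι → ι) (Sum.elim id id) := by
      ext (i | i) (j | j) <;> rfl
    rw [hsub, ← gm_comp hC (Sum.elim id id : ι ⊕ ι → ι), integral_map]
    · have : ∀ x : ι → ℝ, φ (uu (x ∘ (Sum.elim id id : ι ⊕ ι → ι))) = s := fun x => by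
        simp [φ, uu, Real.sqrt_sq hs0.le]
      simp [this]
    · exact (by fun_prop : Continuous fun x : ι → ℝ => x ∘ (Sum.elim id id : ι ⊕ ι → ι)).aemeasurable
    · exact (continuous_iff_continuousAt.2 fun x => (hC2.hF x).continuousAt).aestronglyMeasurable
  have hcont : Continuous (fun p : (ι → ℝ) × (ι → ℝ) => (Sum.elim p.1 p.2 : ι ⊕ ι → ℝ)) := by
    refine continuous_pi fun k => ?_
    rcases k with i | i <;> simp <;> fun_prop
  have hcF : Continuous (fun z : ι ⊕ ι → ℝ => φ (uu z)) :=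
    continuous_iff_continuousAt.2 fun x => (hC2.hF x).continuousAt
  have h3 : ∫ z, φ (uu z) ∂(gm (Matrix.fromBlocks C 0 0 C)) =
      ∫ p : (ι → ℝ) × (ι → ℝ), φ (lse p.1 - lse p.2) ∂((gm C).prod (gm C)) := by
    rw [← gm_prod hC hC, integral_map hcont.aemeasurable hcF.aestronglyMeasurable]
    rfl
  have hint : Integrable (fun p : (ι → ℝ) × (ι → ℝ) => φ (lse p.1 - lse p.2))
      ((gm C).prod (gm C)) := by
    have := C2b.integrable (C := Matrix.fromBlocks C 0 0 C) hC2
    rw [← gm_prod hC hC, integrable_map_measure hcF.aestronglyMeasurable hcont.aemeasurable] at this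
    exact this
  have hli := lse_integrable (ι := ι) C
  have h4 : ∫ x, |lse x - FE C| ∂(gm C) ≤
      ∫ p : (ι → ℝ) × (ι → ℝ), φ (lse p.1 - lse p.2) ∂((gm C).prod (gm C)) := by
    rw [integral_prod _ hint]
    refine integral_mono_ae ((hli.sub (integrable_const _)).abs) hint.integral_prod_left ?_
    filter_upwards [hint.prod_right_ae] with x hx
    have e1 : lse x - FE C = ∫ y, (lse x - lse y) ∂(gm C) := by
      rw [integral_sub (integrable_const _) hli]
      simp [FE]
    rw [e1]
    calc |∫ y, (lse x - lse y) ∂(gm C)| ≤ ∫ y, |lse x - lse y| ∂(gm C) := abs_integral_le_integral_abs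
      _ ≤ ∫ y, φ (lse x - lse y) ∂(gm C) :=
        integral_mono (((integrable_const _).sub hli).abs) hx fun y => (phi_bd s hs0 _).2
  have h5 : 2 * M / s / 2 ≤ s := by
    rw [div_div, div_le_iff₀ (by positivity)]
    nlinarith
  rw [h2, h3] at h1
  linarith

/-- free energies of product structures: configurations `ι × κ`, `C ((i,k),(j,l)) = A i j` gives `FE A + log |κ|` -/
theorem FE_prod_const {A : Matrix ι ι ℝ} (hA : A.PosSemidef) [Nonempty κ] :
    FE (Matrix.of fun (p q : ι × κ) => A p.1 q.1) = FE A + Real.log (Fintype.card κ) := by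
  have hsub : (Matrix.of fun (p q : ι × κ) => A p.1 q.1) = A.submatrix Prod.fst Prod.fst := rfl
  rw [hsub]
  unfold FE
  rw [← gm_comp hA (Prod.fst : ι × κ → ι), integral_map
    (by fun_prop : Continuous fun x : ι → ℝ => x ∘ (Prod.fst : ι × κ → ι)).aemeasurable
    lse_cont.aestronglyMeasurable]
  have h1 : ∀ x : ι → ℝ, lse (x ∘ (Prod.fst : ι × κ → ι)) =
      lse x + Real.log (Fintype.card κ) := fun x => by
    unfold lse
    rw [← Real.log_mul (sum_exp_pos x).ne' (by positivity), Fintype.sum_prod_type,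
      Finset.sum_mul]
    congr 1
    refine Finset.sum_congr rfl fun i _ => ?_
    simp [mul_comm]
  simp only [h1]
  rw [integral_add (lse_integrable A) (integrable_const _)]
  simp

/-- independent systems add -/
theorem FE_prod_add {A : Matrix ι ι ℝ} {B : Matrix κ κ ℝ} (hA : A.PosSemidef) (hB : B.PosSemidef)
    [Nonempty κ] :
    FE (Matrix.of fun (p q : ι × κ) => A p.1 q.1 + B p.2 q.2) = FE A + FE B := by
  have hsub : (Matrix.of fun (p q : ι × κ) => A p.1 q.1 + B p.2 q.2) =
      A.submatrix Prod.fst Prod.fst + B.submatrix Prod.snd Prod.snd := rfl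
  have hA' := hA.submatrix (Prod.fst : ι × κ → ι)
  have hB' := hB.submatrix (Prod.snd : ι × κ → κ)
  rw [hsub]
  unfold FE
  have hc1 : Continuous fun x : ι → ℝ => x ∘ (Prod.fst : ι × κ → ι) := by fun_prop
  have hc2 : Continuous fun x : κ → ℝ => x ∘ (Prod.snd : ι × κ → κ) := by fun_prop
  have hc3 : Continuous fun p : (ι × κ → ℝ) × (ι × κ → ℝ) => lse (p.1 + p.2) :=
    lse_cont.comp (by fun_prop)
  have hm : (gm A).map (fun x : ι → ℝ => x ∘ (Prod.fst : ι × κ → ι)) =
      gm (A.submatrix Prod.fst Prod.fst) := gm_comp hA _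
  have hm2 : (gm B).map (fun x : κ → ℝ => x ∘ (Prod.snd : ι × κ → κ)) =
      gm (B.submatrix Prod.snd Prod.snd) := gm_comp hB _
  rw [← gm_add hA' hB', ← hm, ← hm2, Measure.map_prod_map _ _ hc1.measurable hc2.measurable,
    integral_map (by fun_prop) lse_cont.aestronglyMeasurable, integral_map
    (hc1.prodMap hc2).aemeasurable
    (hc3 : Continuous fun p : (ι × κ → ℝ) × (ι × κ → ℝ) => lse (p.1 + p.2)).aestronglyMeasurable]
  have h1 : ∀ p : (ι → ℝ) × (κ → ℝ), lse (((Prod.map (fun x : ι → ℝ => x ∘ (Prod.fst : ι × κ → ι))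
      (fun x : κ → ℝ => x ∘ (Prod.snd : ι × κ → κ)) p)).1 +
      ((Prod.map (fun x : ι → ℝ => x ∘ (Prod.fst : ι × κ → ι))
      (fun x : κ → ℝ => x ∘ (Prod.snd : ι × κ → κ)) p)).2) = lse p.1 + lse p.2 := fun p => by
    unfold lse
    rw [← Real.log_mul (sum_exp_pos p.1).ne' (sum_exp_pos p.2).ne', Fintype.sum_prod_type,
      Finset.sum_mul_sum]
    congr 1
    refine Finset.sum_congr rfl fun i _ => Finset.sum_congr rfl fun j _ => ?_
    simp [Real.exp_add]
  simp only [h1]
  have hi1 : Integrable (fun p : (ι → ℝ) × (κ → ℝ) => lse p.1) ((gm A).prod (gm B)) :=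
    (lse_integrable A).comp_fst _
  have hi2 : Integrable (fun p : (ι → ℝ) × (κ → ℝ) => lse p.2) ((gm A).prod (gm B)) :=
    (lse_integrable B).comp_snd _
  rw [integral_add hi1 hi2, integral_fun_fst, integral_fun_snd]
  simp

theorem FE_reindex (e : κ ≃ ι) {A : Matrix ι ι ℝ} (hA : A.PosSemidef) [Nonempty κ] :
    FE (A.submatrix e e) = FE A := by
  unfold FE
  rw [← gm_comp hA e, integral_map
    (by fun_prop : Continuous fun x : ι → ℝ => x ∘ e).aemeasurable
    lse_cont.aestronglyMeasurable]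
  refine integral_congr_ae (Eventually.of_forall fun x => ?_)
  show lse (x ∘ e) = lse x
  unfold lse
  rw [← e.sum_comp (fun i => Real.exp (x i))]
  rfl

end basic

end Pool.Agent.OS
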