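import Pool.Agent.LibMP0f946f.Spin0
import Pool.Agent.LibMP0f946f.Lse

/-! TASK CAVITY: the Aizenman-Sims-Starr decomposition.

`cw c N t` = coefficients with weights `((N+1)/N) (N/(N+1))^p + t (p-1)/N`, so
`cov (cw c N t) N = (N+1) ξ(N R/(N+1)) + t θ(R)`.
* `cav1`: a configuration of `N+1` spins is a pair `(σ, b)`, `ov = (N ov σ σ' + s s')/(N+1)` (`s, s' = ±1`), and
  `(N+1) ξ((N R + s s')/(N+1)) = (N+1) ξ(N R/(N+1)) + s s' ξ'(R) + O(1/N)` (`xi_taylor`, `xi1_lip`); `FE_reindex`, `FE_lip`.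
* `cav2`: `N ξ(R) = (N+1) ξ(N R/(N+1)) + θ(R) + O(1/N)`.
* `cav3`: `FE (cavM c N) = E_H E_z log ∑_σ e^{H σ} 2 cosh (z σ)` with `H ~ gm (cov (cw c N 0) N)`, `z ~ gm (ξ'(ov))`
  independent, so the difference is `E_H E_z log <2 cosh z> ≥ E_H E_z < log ((1/n) ∑_l 2 cosh (z (σ^l))) >` (Jensen for
  the concave `log` and `<2 cosh z> = <(1/n) ∑_l 2cosh z(σ^l)>`), and the law of `(z (σ^l))_l` is `gm (ξ'(ov))` (`gm_comp`).
* `Gn_lip`: `Gn` written with `FE` on `Fin n × Bool`, `FE_lip`. -/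

set_option autoImplicit false
open MeasureTheory ProbabilityTheory Real Filter Topology

namespace Pool.Agent.OS

/-- coefficients with the cavity weights -/
noncomputable def cw (c : ℕ → ℝ) (N : ℕ) (t : ℝ) : ℕ → ℝ := fun p =>
  c p * (((N:ℝ) + 1) / N * ((N:ℝ) / (N + 1)) ^ p + t * ((p:ℝ) - 1) / N)

/-- covariance of the system of `N` spins with a cavity spin -/
noncomputable def cavM (c : ℕ → ℝ) (N : ℕ) : Matrix (Cfg N × Bool) (Cfg N × Bool) ℝ :=
  fun p q => cov (cw c N 0) N p.1 q.1 + (if p.2 = q.2 then 1 else -1) * xi1 c (ov p.1 q.1)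

/-- `E log ((1/n) ∑ 2 cosh z_i)` for `z ~ gm M` -/
noncomputable def lch {n : ℕ} (M : Matrix (Fin n) (Fin n) ℝ) : ℝ :=
  ∫ z, Real.log ((1 / (n:ℝ)) * ∑ i, 2 * Real.cosh (z i)) ∂(gm M)

/-- the cavity functional of an overlap matrix -/
noncomputable def Gn (c : ℕ → ℝ) (n : ℕ) (r : Fin n → Fin n → ℝ) : ℝ :=
  lch (Matrix.of fun i j => xi1 c (r i j))

/-! ### weights -/

theorem cw_bound (c : ℕ → ℝ) (N : ℕ) (hN : 1 ≤ N) (t : ℝ) (ht : 0 ≤ t) (ht1 : t ≤ 1) (p : ℕ)
    (hp : 1 ≤ p) :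
    0 ≤ (((N:ℝ) + 1) / N * ((N:ℝ) / (N + 1)) ^ p + t * ((p:ℝ) - 1) / N) ∧
    (((N:ℝ) + 1) / N * ((N:ℝ) / (N + 1)) ^ p + t * ((p:ℝ) - 1) / N) ≤ 2 + p := by
  have hN0 : (0:ℝ) < N := by exact_mod_cast hN
  have hN1 : (1:ℝ) ≤ N := by exact_mod_cast hN
  have hp1 : (1:ℝ) ≤ p := by exact_mod_cast hp
  obtain ⟨q, rfl⟩ : ∃ q, p = q + 1 := ⟨p - 1, by omega⟩
  have e : ((N:ℝ) + 1) / N * ((N:ℝ) / (N + 1)) ^ (q + 1) = ((N:ℝ) / (N + 1)) ^ q := by
    rw [pow_succ]; field_simp
  rw [e]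
  have h0 : 0 ≤ ((N:ℝ) / (N + 1)) ^ q := by positivity
  have h1 : ((N:ℝ) / (N + 1)) ^ q ≤ 1 :=
    pow_le_one₀ (by positivity) ((div_le_one (by positivity)).2 (by linarith))
  have h2 : 0 ≤ t * (((q + 1 : ℕ) : ℝ) - 1) / N := by
    apply div_nonneg (mul_nonneg ht (by linarith)) hN0.le
  have h3 : t * (((q + 1 : ℕ) : ℝ) - 1) / N ≤ ((q + 1 : ℕ) : ℝ) - 1 := by
    rw [div_le_iff₀ hN0]
    have a1 : 0 ≤ ((q + 1 : ℕ) : ℝ) - 1 := by linarith
    nlinarith
  constructor
  · linarith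
  · linarith

theorem two_add_le_cav (p : ℕ) : (2:ℝ) + p ≤ 2 * 2 ^ p := by
  induction p with
  | zero => norm_num
  | succ p ih =>
    rw [pow_succ]; push_cast
    have : (1:ℝ) ≤ 2 ^ p := one_le_pow₀ (by norm_num)
    nlinarith

theorem cw_adm {c : ℕ → ℝ} (hc : Adm c) (h4 : Summable (fun p : ℕ => (4:ℝ) ^ p * c p)) (N : ℕ)
    (hN : 1 ≤ N) (t : ℝ) (ht : 0 ≤ t) (ht1 : t ≤ 1) : Adm (cw c N t) := by
  have hnn : ∀ p, 0 ≤ cw c N t p := fun p => by
    rcases Nat.eq_zero_or_pos p with rfl | hp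
    · simp [cw, hc.c0]
    · exact mul_nonneg (hc.nonneg p) (cw_bound c N hN t ht ht1 p hp).1
  refine ⟨hnn, ?_, by simp [cw, hc.c0], by simp [cw, hc.c1]⟩
  refine Summable.of_nonneg_of_le (fun p => mul_nonneg (by positivity) (hnn p)) (fun p => ?_)
    (h4.mul_left 2)
  rcases Nat.eq_zero_or_pos p with rfl | hp
  · simp [cw, hc.c0]
  · have h1 := (cw_bound c N hN t ht ht1 p hp).2
    have h2 : cw c N t p ≤ c p * (2 * 2 ^ p) :=
      mul_le_mul_of_nonneg_left (h1.trans (two_add_le_cav p)) (hc.nonneg p)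
    calc (2:ℝ) ^ p * cw c N t p ≤ 2 ^ p * (c p * (2 * 2 ^ p)) :=
          mul_le_mul_of_nonneg_left h2 (by positivity)
      _ = 2 * (4 ^ p * c p) := by
          have : (4:ℝ) ^ p = 2 ^ p * 2 ^ p := by rw [← mul_pow]; norm_num
          rw [this]; ring

theorem summ_pow {c : ℕ → ℝ} (hc : Adm c) {x : ℝ} (hx : |x| ≤ 1) :
    Summable (fun p => c p * x ^ p) :=
  summable_pow_of_abs_le hc.nonneg hc.summable hx (fun p => p)

theorem summ_th {c : ℕ → ℝ} (hc : Adm c) {x : ℝ} (hx : |x| ≤ 1) :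
    Summable (fun p : ℕ => c p * ((p : ℝ) - 1) * x ^ p) := by
  have h := hc.summable1.sub hc.summable
  refine summable_pow_of_abs_le (d := fun p => c p * ((p : ℝ) - 1)) hc.cpred_nonneg ?_ hx
    (fun p => p)
  refine h.congr fun p => ?_
  ring

theorem cov_cw0 {c : ℕ → ℝ} (hc : Adm c) (N : ℕ) (hN : 1 ≤ N) (σ τ : Cfg N) :
    cov (cw c N 0) N σ τ = ((N:ℝ) + 1) * xi c ((N:ℝ) * ov σ τ / (N + 1)) := by
  have hN0 : (0:ℝ) < N := by exact_mod_cast hN
  unfold cov xi
  rw [← tsum_mul_left, ← tsum_mul_left]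
  congr 1
  funext p
  simp only [cw]
  rw [div_pow, div_pow, mul_pow]
  field_simp
  ring

theorem cov_cw {c : ℕ → ℝ} (hc : Adm c) (h4 : Summable (fun p : ℕ => (4:ℝ) ^ p * c p)) (N : ℕ)
    (hN : 1 ≤ N) (t : ℝ) :
    cov (cw c N t) N = cov (cw c N 0) N + t • (Matrix.of fun σ τ : Cfg N => th c (ov σ τ)) := by
  have hN0 : (0:ℝ) < N := by exact_mod_cast hN
  ext σ τ
  have hx := ov_abs_le σ τ
  simp only [Matrix.add_apply, Matrix.smul_apply, Matrix.of_apply, smul_eq_mul]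
  rw [hc.th_eq hx]
  unfold cov xi
  have s0 : Summable (fun p => cw c N 0 p * (ov σ τ) ^ p) :=
    summ_pow (cw_adm hc h4 N hN 0 le_rfl zero_le_one) hx
  have s1 := summ_th hc hx
  have e : (fun p => cw c N t p * (ov σ τ) ^ p) =
      fun p => cw c N 0 p * (ov σ τ) ^ p + (t / N) * (c p * ((p : ℝ) - 1) * (ov σ τ) ^ p) := by
    funext p
    simp only [cw]
    field_simp
    ring
  rw [e, Summable.tsum_add s0 (s1.mul_left _), tsum_mul_left]
  field_simp

/-! ### tensoring with a spin -/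

theorem sp_ite (b b' : Bool) : (if b = b' then (1:ℝ) else -1) = sp b * sp b' := by
  cases b <;> cases b' <;> simp [sp]

theorem sp_mul_abs (b b' : Bool) : |sp b * sp b'| = 1 := by
  cases b <;> cases b' <;> simp [sp]

section tensor
variable {ι : Type*} [Fintype ι] [DecidableEq ι]

/-- tensor with the spin sign -/
noncomputable def sg2 (M : Matrix ι ι ℝ) : Matrix (ι × Bool) (ι × Bool) ℝ :=
  fun p q => sp p.2 * sp q.2 * M p.1 q.1

/-- the matrix of the linear map `z ↦ (p ↦ sp p.2 * z p.1)` -/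
noncomputable def sgm : Matrix (ι × Bool) ι ℝ := fun p i => if p.1 = i then sp p.2 else 0

theorem sg2_eq (M : Matrix ι ι ℝ) :
    sg2 M = (sgm : Matrix (ι × Bool) ι ℝ) * M * (sgm : Matrix (ι × Bool) ι ℝ).transpose := by
  ext p q
  simp only [sg2, Matrix.mul_apply, sgm, Matrix.transpose_apply, ite_mul, zero_mul, mul_ite,
    mul_zero, Finset.sum_ite_eq, Finset.mem_univ, if_true]
  ring

theorem sgm_mulVec (z : ι → ℝ) :
    (sgm : Matrix (ι × Bool) ι ℝ).mulVec z = fun p => sp p.2 * z p.1 := by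
  funext p
  simp [Matrix.mulVec, dotProduct, sgm]

theorem sg2_psd {M : Matrix ι ι ℝ} (hM : M.PosSemidef) : (sg2 M).PosSemidef := by
  rw [sg2_eq]
  have := hM.mul_mul_conjTranspose_same (sgm : Matrix (ι × Bool) ι ℝ)
  rwa [Matrix.conjTranspose_eq_transpose_of_trivial] at this

theorem sg2_gm {M : Matrix ι ι ℝ} (hM : M.PosSemidef) :
    (gm M).map (fun z (p : ι × Bool) => sp p.2 * z p.1) = gm (sg2 M) := by
  rw [sg2_eq, ← gm_map hM]
  congr 1
  funext z
  exact (sgm_mulVec z).symm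

omit [DecidableEq ι] in
theorem lse_bool (H z : ι → ℝ) : lse (fun p : ι × Bool => H p.1 + sp p.2 * z p.1) =
    Real.log (∑ i, Real.exp (H i) * (2 * Real.cosh (z i))) := by
  unfold lse
  rw [Fintype.sum_prod_type]
  congr 1
  refine Finset.sum_congr rfl fun i _ => ?_
  rw [Fintype.sum_bool]
  simp only [sp, if_true, Bool.false_eq_true, if_false]
  rw [Real.exp_add, Real.exp_add, Real.cosh_eq, one_mul, neg_one_mul]
  ring

omit [DecidableEq ι] in
theorem lse_bool0 (z : ι → ℝ) : lse (fun p : ι × Bool => sp p.2 * z p.1) =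
    Real.log (∑ i, 2 * Real.cosh (z i)) := by
  have := lse_bool (fun _ => 0) z
  simpa using this

omit [DecidableEq ι] in
theorem lse_bool_cont : Continuous (fun w : (ι → ℝ) × (ι → ℝ) =>
    (fun p : ι × Bool => w.1 p.1 + sp p.2 * w.2 p.1)) := by
  refine continuous_pi fun p => ?_
  fun_prop

end tensor

theorem lch_eq {n : ℕ} (hn : 1 ≤ n) {M : Matrix (Fin n) (Fin n) ℝ} (hM : M.PosSemidef) :
    lch M = FE (sg2 M) - Real.log n := by
  have : Nonempty (Fin n) := ⟨⟨0, hn⟩⟩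
  have hn0 : (0:ℝ) < n := by exact_mod_cast hn
  have hpos : ∀ z : Fin n → ℝ, 0 < ∑ i, 2 * Real.cosh (z i) := fun z =>
    Finset.sum_pos (fun i _ => by positivity) Finset.univ_nonempty
  have hlog : ∀ z : Fin n → ℝ, Real.log ((1 / (n:ℝ)) * ∑ i, 2 * Real.cosh (z i)) =
      lse (fun p : Fin n × Bool => sp p.2 * z p.1) - Real.log n := fun z => by
    rw [lse_bool0, Real.log_mul (by positivity) (hpos z).ne', one_div, Real.log_inv]
    ring
  have hc : Continuous (fun z : Fin n → ℝ => (fun p : Fin n × Bool => sp p.2 * z p.1)) := by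
    refine continuous_pi fun p => ?_
    fun_prop
  have hi : Integrable (fun z : Fin n → ℝ => lse (fun p : Fin n × Bool => sp p.2 * z p.1))
      (gm M) := by
    have h := lse_integrable (sg2 M)
    rw [← sg2_gm hM] at h
    exact (integrable_map_measure (lse_C2b.contF).aestronglyMeasurable hc.aemeasurable).1 h
  unfold lch FE
  simp_rw [hlog]
  rw [integral_sub hi (integrable_const _), ← sg2_gm hM, integral_map hc.aemeasurable
    (lse_C2b.contF).aestronglyMeasurable]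
  simp

theorem lch_lip {n : ℕ} (hn : 1 ≤ n) {M M' : Matrix (Fin n) (Fin n) ℝ} (hM : M.PosSemidef)
    (hM' : M'.PosSemidef) (δ : ℝ) (h : ∀ i j, |M i j - M' i j| ≤ δ) : |lch M - lch M'| ≤ δ := by
  have : Nonempty (Fin n) := ⟨⟨0, hn⟩⟩
  rw [lch_eq hn hM, lch_eq hn hM']
  have := FE_lip (sg2_psd hM) (sg2_psd hM') δ fun p q => by
    simp only [sg2]
    rw [← mul_sub, abs_mul, sp_mul_abs, one_mul]
    exact h _ _
  have e : FE (sg2 M) - Real.log n - (FE (sg2 M') - Real.log n) = FE (sg2 M) - FE (sg2 M') := by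
    ring
  rw [e]; exact this

theorem Gn_lip {c : ℕ → ℝ} (hc : Adm c) (n : ℕ) (hn : 1 ≤ n) {r r' : Fin n → Fin n → ℝ}
    (hr : (Matrix.of r).PosSemidef) (hb : ∀ i j, |r i j| ≤ 1)
    (hr' : (Matrix.of r').PosSemidef) (hb' : ∀ i j, |r' i j| ≤ 1) :
    |Gn c n r - Gn c n r'| ≤ xi2 c 1 * dist r r' := by
  refine lch_lip hn (xi1_psd hc r hr hb) (xi1_psd hc r' hr' hb') _ fun i j => ?_
  simp only [Matrix.of_apply]
  have h0 : 0 ≤ xi2 c 1 := (abs_nonneg _).trans (hc.xi2_abs (x := 1) (by simp))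
  refine (hc.xi1_lip (hb i j) (hb' i j)).trans (mul_le_mul_of_nonneg_left ?_ h0)
  have h1 : dist (r i j) (r' i j) ≤ dist (r i) (r' i) := dist_le_pi_dist (r i) (r' i) j
  have h2 : dist (r i) (r' i) ≤ dist r r' := dist_le_pi_dist r r' i
  rw [← Real.dist_eq]
  exact h1.trans h2

/-- `Gn` is continuous on the set of positive semidefinite matrices with entries in `[-1,1]` -/
theorem Gn_cont {c : ℕ → ℝ} (hc : Adm c) (n : ℕ) (hn : 1 ≤ n) :
    ContinuousOn (Gn c n) {r | (Matrix.of r).PosSemidef ∧ ∀ i j, |r i j| ≤ 1} := by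
  have h0 : 0 ≤ xi2 c 1 := (abs_nonneg _).trans (hc.xi2_abs (x := 1) (by simp))
  have : LipschitzOnWith (xi2 c 1).toNNReal (Gn c n)
      {r | (Matrix.of r).PosSemidef ∧ ∀ i j, |r i j| ≤ 1} := by
    refine LipschitzOnWith.of_dist_le_mul fun r hr r' hr' => ?_
    rw [Real.dist_eq, Real.coe_toNNReal _ h0]
    exact Gn_lip hc n hn hr.1 hr.2 hr'.1 hr'.2
  exact this.continuousOn

theorem Gn_bdd {c : ℕ → ℝ} (hc : Adm c) (n : ℕ) (hn : 1 ≤ n) : ∃ B, ∀ r : Fin n → Fin n → ℝ,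
    (Matrix.of r).PosSemidef → (∀ i j, |r i j| ≤ 1) → |Gn c n r| ≤ B := by
  refine ⟨|Gn c n (fun _ _ => 0)| + xi2 c 1, fun r hr hb => ?_⟩
  have hz : (Matrix.of (fun _ _ : Fin n => (0:ℝ))).PosSemidef := by
    have : (Matrix.of (fun _ _ : Fin n => (0:ℝ))) = 0 := by ext i j; simp
    rw [this]; exact Matrix.PosSemidef.zero
  have h0 : 0 ≤ xi2 c 1 := (abs_nonneg _).trans (hc.xi2_abs (x := 1) (by simp))
  have h1 := Gn_lip hc n hn hr hb hz (fun i j => by simp)
  have h2 : dist r (fun _ _ => (0:ℝ)) ≤ 1 := by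
    refine (dist_pi_le_iff zero_le_one).2 fun i => (dist_pi_le_iff zero_le_one).2 fun j => ?_
    rw [Real.dist_eq, sub_zero]; exact hb i j
  have h3 : xi2 c 1 * dist r (fun _ _ => (0:ℝ)) ≤ xi2 c 1 := by
    simpa using mul_le_mul_of_nonneg_left h2 h0
  have h4 := abs_sub_abs_le_abs_sub (Gn c n r) (Gn c n fun _ _ => 0)
  linarith

/-! ### the cavity system -/

theorem xi1ov_psd {c : ℕ → ℝ} (hc : Adm c) (N : ℕ) :
    (Matrix.of fun σ τ : Cfg N => xi1 c (ov σ τ)).PosSemidef :=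
  xi1_psd hc _ (ov_psd N) fun σ τ => ov_abs_le σ τ

theorem cavM_eq (c : ℕ → ℝ) (N : ℕ) : cavM c N =
    (cov (cw c N 0) N).submatrix Prod.fst Prod.fst +
      sg2 (Matrix.of fun σ τ : Cfg N => xi1 c (ov σ τ)) := by
  ext p q
  simp only [cavM, Matrix.add_apply, Matrix.submatrix_apply, sg2, Matrix.of_apply, sp_ite]

theorem cavM_psd {c : ℕ → ℝ} (hc : Adm c) (h4 : Summable (fun p : ℕ => (4:ℝ) ^ p * c p)) (N : ℕ)
    (hN : 1 ≤ N) : (cavM c N).PosSemidef := by
  rw [cavM_eq]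
  exact ((cov_psd (cw_adm hc h4 N hN 0 le_rfl zero_le_one) N).submatrix _).add
    (sg2_psd (xi1ov_psd hc N))

theorem cav1 {c : ℕ → ℝ} (hc : Adm c) (h4 : Summable (fun p : ℕ => (4:ℝ) ^ p * c p)) :
    ∃ K, ∀ N : ℕ, 1 ≤ N → |FE (cov c (N + 1)) - FE (cavM c N)| ≤ K / N := by
  have h0 : 0 ≤ xi2 c 1 := (abs_nonneg _).trans (hc.xi2_abs (x := 1) (by simp))
  refine ⟨2 * xi2 c 1, fun N hN => ?_⟩
  have hN0 : (0:ℝ) < N := by exact_mod_cast hN
  let e : Cfg N × Bool ≃ Cfg (N + 1) :=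
    { toFun := fun p => Fin.snoc (α := fun _ => Bool) p.1 p.2
      invFun := fun σ => (fun i => σ i.castSucc, σ (Fin.last N))
      left_inv := fun p => by
        ext i <;> simp
      right_inv := fun σ => by
        funext i
        refine Fin.lastCases ?_ (fun j => ?_) i
        · simp
        · simp }
  have he : ∀ p q : Cfg N × Bool, ov (e p) (e q) =
      ((N:ℝ) * ov p.1 q.1 + sp p.2 * sp q.2) / (N + 1) := fun p q => by
    unfold ov
    rw [Fin.sum_univ_castSucc]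
    have e1 : ∀ (p : Cfg N × Bool) (i : Fin N), e p i.castSucc = p.1 i := fun p i => by
      show Fin.snoc (α := fun _ => Bool) p.1 p.2 i.castSucc = _
      simp
    have e2 : ∀ (p : Cfg N × Bool), e p (Fin.last N) = p.2 := fun p => by
      show Fin.snoc (α := fun _ => Bool) p.1 p.2 (Fin.last N) = _
      simp
    simp only [e1, e2, sp_ite]
    push_cast
    field_simp
  have hr : FE (cov c (N + 1)) = FE ((cov c (N + 1)).submatrix e e) :=
    (FE_reindex e (cov_psd hc (N + 1))).symm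
  rw [hr]
  refine FE_lip ((cov_psd hc (N + 1)).submatrix e) (cavM_psd hc h4 N hN) _ fun p q => ?_
  simp only [Matrix.submatrix_apply, cavM, sp_ite]
  rw [cov_cw0 hc N hN]
  have hy : |ov (e p) (e q)| ≤ 1 := ov_abs_le _ _
  have hR := ov_abs_le p.1 q.1
  set R := ov p.1 q.1 with hRdef
  set s := sp p.2 * sp q.2 with hs
  have hsabs : |s| = 1 := sp_mul_abs _ _
  set x := (N:ℝ) * R / (N + 1) with hx
  have hx1 : |x| ≤ 1 := by
    rw [hx, abs_div, abs_mul, abs_of_pos hN0, abs_of_pos (by positivity : (0:ℝ) < N + 1),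
      div_le_one (by positivity)]
    nlinarith
  have hyx : ov (e p) (e q) - x = s / (N + 1) := by
    rw [he p q, hx]; field_simp; ring
  have t1 := hc.xi_taylor hx1 hy
  rw [hyx] at t1
  have t2 := hc.xi1_lip hx1 hR
  have hxR : |x - R| ≤ 1 / (N + 1) := by
    have : x - R = -R / (N + 1) := by rw [hx]; field_simp; ring
    rw [this, abs_div, abs_neg, abs_of_pos (by positivity : (0:ℝ) < N + 1)]
    gcongr
  have t3 : |xi1 c x - xi1 c R| ≤ xi2 c 1 * (1 / (N + 1)) :=
    t2.trans (mul_le_mul_of_nonneg_left hxR h0)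
  have t4 : (s / ((N:ℝ) + 1)) ^ 2 = (1 / (N + 1)) ^ 2 := by
    have : s ^ 2 = 1 := by rw [← sq_abs, hsabs]; norm_num
    rw [div_pow, div_pow, this]; norm_num
  rw [t4] at t1
  unfold cov
  push_cast
  set y := ov (e p) (e q) with hydef
  have key : ((N:ℝ) + 1) * xi c y - (((N:ℝ) + 1) * xi c x + s * xi1 c R) =
      ((N:ℝ) + 1) * (xi c y - xi c x - xi1 c x * (s / (N + 1))) + s * (xi1 c x - xi1 c R) := by
    field_simp
    ring
  rw [key]
  refine (abs_add_le _ _).trans ?_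
  rw [abs_mul, abs_mul, hsabs, one_mul, abs_of_pos (by positivity : (0:ℝ) < N + 1)]
  have t5 : ((N:ℝ) + 1) * |xi c y - xi c x - xi1 c x * (s / (N + 1))| ≤
      ((N:ℝ) + 1) * (xi2 c 1 * (1 / (N + 1)) ^ 2) := mul_le_mul_of_nonneg_left t1 (by positivity)
  have t6 : ((N:ℝ) + 1) * (xi2 c 1 * (1 / (N + 1)) ^ 2) = xi2 c 1 * (1 / (N + 1)) := by
    field_simp
  have t7 : xi2 c 1 * (1 / ((N:ℝ) + 1)) ≤ xi2 c 1 * (1 / N) := by
    gcongr
    linarith
  have t8 : 2 * xi2 c 1 / N = xi2 c 1 * (1 / N) + xi2 c 1 * (1 / N) := by ring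
  rw [t8]
  linarith

theorem cav2 {c : ℕ → ℝ} (hc : Adm c) (h4 : Summable (fun p : ℕ => (4:ℝ) ^ p * c p)) :
    ∃ K, ∀ N : ℕ, 1 ≤ N → |FE (cov c N) - FE (cov (cw c N 1) N)| ≤ K / N := by
  have h0 : 0 ≤ xi2 c 1 := (abs_nonneg _).trans (hc.xi2_abs (x := 1) (by simp))
  refine ⟨xi2 c 1, fun N hN => ?_⟩
  have hN0 : (0:ℝ) < N := by exact_mod_cast hN
  refine FE_lip (cov_psd hc N) (cov_psd (cw_adm hc h4 N hN 1 zero_le_one le_rfl) N) _ fun σ τ => ?_
  rw [cov_cw hc h4 N hN 1]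
  simp only [Matrix.add_apply, Matrix.smul_apply, Matrix.of_apply, smul_eq_mul, one_mul]
  rw [cov_cw0 hc N hN]
  have hR := ov_abs_le σ τ
  unfold cov
  set R := ov σ τ with hRdef
  set x := (N:ℝ) * R / (N + 1) with hx
  have hx1 : |x| ≤ 1 := by
    rw [hx, abs_div, abs_mul, abs_of_pos hN0, abs_of_pos (by positivity : (0:ℝ) < N + 1),
      div_le_one (by positivity)]
    nlinarith
  have hxR : x - R = -R / (N + 1) := by rw [hx]; field_simp; ring
  have t1 := hc.xi_taylor hR hx1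
  rw [hxR] at t1
  have t4 : (-R / ((N:ℝ) + 1)) ^ 2 ≤ (1 / (N + 1)) ^ 2 := by
    rw [div_pow, div_pow]
    refine div_le_div_of_nonneg_right ?_ (by positivity)
    rw [neg_sq, one_pow, ← sq_abs]
    exact pow_le_one₀ (abs_nonneg _) hR
  have key : (N:ℝ) * xi c R - (((N:ℝ) + 1) * xi c x + th c R) =
      -(((N:ℝ) + 1) * (xi c x - xi c R - xi1 c R * (-R / (N + 1)))) := by
    unfold th
    field_simp
    ring
  rw [key, abs_neg, abs_mul, abs_of_pos (by positivity : (0:ℝ) < N + 1)]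
  have t5 : ((N:ℝ) + 1) * |xi c x - xi c R - xi1 c R * (-R / (N + 1))| ≤
      ((N:ℝ) + 1) * (xi2 c 1 * (1 / (N + 1)) ^ 2) :=
    mul_le_mul_of_nonneg_left (t1.trans (mul_le_mul_of_nonneg_left t4 h0)) (by positivity)
  have t6 : ((N:ℝ) + 1) * (xi2 c 1 * (1 / (N + 1)) ^ 2) = xi2 c 1 * (1 / (N + 1)) := by
    field_simp
  have t7 : xi2 c 1 * (1 / ((N:ℝ) + 1)) ≤ xi2 c 1 * (1 / N) := by
    gcongr
    linarith
  have t8 : xi2 c 1 / N = xi2 c 1 * (1 / N) := by ring
  rw [t8]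
  linarith

/-! ### the lower bound -/

section jensen
variable {ι : Type*} [Fintype ι] [DecidableEq ι] [Nonempty ι]

omit [DecidableEq ι] in
theorem gav_one (x : ι → ℝ) (Y : ι → ℝ) (n : ℕ) (l : Fin n) :
    gav x n (fun s => Y (s l)) = ∑ i, pw x i * Y i := by
  have h := gav_inj x (fun _ : Fin 1 => l) (fun a b _ => Subsingleton.elim a b)
    (fun s : Fin 1 → ι => Y (s 0))
  have h' : gav x n (fun s => Y (s l)) = gav x 1 (fun s : Fin 1 → ι => Y (s 0)) := h
  rw [h']
  unfold gav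
  rw [← (Equiv.funUnique (Fin 1) ι).symm.sum_comp]
  refine Finset.sum_congr rfl fun i _ => ?_
  simp [mul_comm]

omit [DecidableEq ι] in
theorem gav_fsum (x : ι → ℝ) (n : ℕ) {κ : Type*} (T : Finset κ) (f : κ → (Fin n → ι) → ℝ) :
    gav x n (fun s => ∑ k ∈ T, f k s) = ∑ k ∈ T, gav x n (f k) := by
  unfold gav
  rw [Finset.sum_comm]
  exact Finset.sum_congr rfl fun s _ => by rw [Finset.sum_mul]

omit [DecidableEq ι] in
theorem jensen_log (x : ι → ℝ) (Y : ι → ℝ) (hY : ∀ i, 0 < Y i) (n : ℕ) (hn : 1 ≤ n) :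
    gav x n (fun s => Real.log ((1 / (n:ℝ)) * ∑ l, Y (s l))) ≤ Real.log (∑ i, pw x i * Y i) := by
  classical
  have hn0 : (0:ℝ) < n := by exact_mod_cast hn
  have : Nonempty (Fin n) := ⟨⟨0, hn⟩⟩
  have e : ∑ i, pw x i * Y i = gav x n (fun s => (1 / (n:ℝ)) * ∑ l, Y (s l)) := by
    rw [gav_mul, gav_fsum]
    simp only [gav_one]
    rw [Finset.sum_const, Finset.card_univ, Fintype.card_fin, nsmul_eq_mul]
    field_simp
  rw [e]
  unfold gav
  have hc := (strictConcaveOn_log_Ioi.concaveOn).le_map_sum (t := (Finset.univ : Finset (Fin n → ι)))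
    (w := fun s => ∏ l, pw x (s l)) (p := fun s => (1 / (n:ℝ)) * ∑ l, Y (s l))
    (fun s _ => Finset.prod_nonneg fun l _ => (pw_pos x _).le)
    (by
      have := gav_const x n 1
      unfold gav at this
      simpa using this)
    (fun s _ => by
      have : 0 < ∑ l, Y (s l) := Finset.sum_pos (fun l _ => hY _) Finset.univ_nonempty
      exact Set.mem_Ioi.2 (by positivity))
  simp only [smul_eq_mul] at hc
  calc ∑ s : Fin n → ι, Real.log ((1 / (n:ℝ)) * ∑ l, Y (s l)) * ∏ l, pw x (s l)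
      = ∑ s : Fin n → ι, (∏ l, pw x (s l)) * Real.log ((1 / (n:ℝ)) * ∑ l, Y (s l)) :=
        Finset.sum_congr rfl fun s _ => mul_comm _ _
    _ ≤ Real.log (∑ s : Fin n → ι, (∏ l, pw x (s l)) * ((1 / (n:ℝ)) * ∑ l, Y (s l))) := hc
    _ = _ := by
        congr 1
        exact Finset.sum_congr rfl fun s _ => mul_comm _ _

/-- the cavity computation for general covariances -/
theorem cav_gen {A B : Matrix ι ι ℝ} (hA : A.PosSemidef) (hB : B.PosSemidef) (n : ℕ) (hn : 1 ≤ n) :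
    EG A n (fun s => lch (B.submatrix s s)) ≤
      FE (A.submatrix Prod.fst Prod.fst + sg2 B) - FE A := by
  classical
  have hn0 : (0:ℝ) < n := by exact_mod_cast hn
  have : Nonempty (Fin n) := ⟨⟨0, hn⟩⟩
  have : Nonempty (ι × Bool) := ⟨(Classical.arbitrary ι, true)⟩
  set φ : (ι → ℝ) × (ι → ℝ) → (ι × Bool → ℝ) :=
    fun w => (fun p : ι × Bool => w.1 p.1 + sp p.2 * w.2 p.1) with hφ
  have hφc : Continuous φ := lse_bool_cont
  have hA' := hA.submatrix (Prod.fst : ι × Bool → ι)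
  have hlaw : gm (A.submatrix Prod.fst Prod.fst + sg2 B) = ((gm A).prod (gm B)).map φ := by
    have m1 : Measurable (fun x : ι → ℝ => x ∘ (Prod.fst : ι × Bool → ι)) :=
      measurable_pi_lambda _ fun p => measurable_pi_apply _
    have m2 : Measurable (fun z : ι → ℝ => (fun p : ι × Bool => sp p.2 * z p.1)) :=
      measurable_pi_lambda _ fun p => (measurable_pi_apply _).const_mul _
    rw [← gm_add hA' (sg2_psd hB), ← gm_comp hA, ← sg2_gm hB, Measure.map_prod_map _ _ m1 m2,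
      Measure.map_map (by fun_prop) (m1.prodMap m2)]
    rfl
  have hFi : Integrable (fun w => lse (φ w)) ((gm A).prod (gm B)) := by
    have h := lse_integrable (A.submatrix Prod.fst Prod.fst + sg2 B)
    rw [hlaw] at h
    exact (integrable_map_measure (lse_C2b.contF).aestronglyMeasurable hφc.aemeasurable).1 h
  have hFE : FE (A.submatrix Prod.fst Prod.fst + sg2 B) =
      ∫ H, ∫ z, lse (φ (H, z)) ∂(gm B) ∂(gm A) := by
    unfold FE
    rw [hlaw, integral_map hφc.aemeasurable (lse_C2b.contF).aestronglyMeasurable,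
      integral_prod _ hFi]
  have hJi : Integrable (fun H => ∫ z, lse (φ (H, z)) ∂(gm B)) (gm A) := hFi.integral_prod_left
  have hzi : ∀ H : ι → ℝ, Integrable (fun z => lse (φ (H, z))) (gm B) := fun H => by
    obtain ⟨K, hK⟩ := (lse_C2b (ι := ι × Bool)).bd
    have hK0 : 0 ≤ K := (abs_nonneg _).trans (hK 0 (Classical.arbitrary _)).1
    refine (gm_linint B (|lse (0 : ι × Bool → ℝ)| + K * (2 * ∑ i, |H i|)) (K * 2)).mono'
      ?_ (ae_of_all _ fun z => ?_)
    · exact ((lse_C2b.contF).comp (hφc.comp (by fun_prop : Continuous fun z : ι → ℝ => (H, z)))).aestronglyMeasurable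
    · rw [Real.norm_eq_abs]
      refine ((lse_C2b (ι := ι × Bool)).lip0 (fun x i => (hK x i).1) (φ (H, z))).trans ?_
      have h1 : ∑ p : ι × Bool, |φ (H, z) p| ≤ 2 * ∑ i, |H i| + 2 * ∑ i, |z i| := by
        rw [Fintype.sum_prod_type, Finset.mul_sum, Finset.mul_sum, ← Finset.sum_add_distrib]
        refine Finset.sum_le_sum fun i _ => ?_
        rw [Fintype.sum_bool]
        have a1 : |φ (H, z) (i, true)| ≤ |H i| + |z i| := by
          show |H i + sp true * z i| ≤ _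
          simp only [sp, if_true, one_mul]
          exact abs_add_le _ _
        have a2 : |φ (H, z) (i, false)| ≤ |H i| + |z i| := by
          show |H i + sp false * z i| ≤ _
          simp only [sp, Bool.false_eq_true, if_false, neg_one_mul]
          refine (abs_add_le _ _).trans ?_
          rw [abs_neg]
        linarith
      have h2 := mul_le_mul_of_nonneg_left h1 hK0
      linarith
  -- integrability and law of the replica field
  have hsc : ∀ s : Fin n → ι, Continuous (fun z : ι → ℝ => z ∘ s) := fun s =>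
    continuous_pi fun i => continuous_apply _
  have hpos : ∀ w : Fin n → ℝ, 0 < ∑ i, 2 * Real.cosh (w i) := fun w =>
    Finset.sum_pos (fun i _ => by positivity) Finset.univ_nonempty
  have hlcont : Continuous (fun w : Fin n → ℝ =>
      Real.log ((1 / (n:ℝ)) * ∑ i, 2 * Real.cosh (w i))) := by
    refine Continuous.log ?_ fun w => (mul_pos (by positivity) (hpos w)).ne'
    exact continuous_const.mul (continuous_finsetSum _ fun i _ =>
      continuous_const.mul (Real.continuous_cosh.comp (continuous_apply i)))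
  have hlint : ∀ M : Matrix (Fin n) (Fin n) ℝ, M.PosSemidef → Integrable (fun w : Fin n → ℝ =>
      Real.log ((1 / (n:ℝ)) * ∑ i, 2 * Real.cosh (w i))) (gm M) := fun M hM => by
    have hlog : (fun z : Fin n → ℝ => Real.log ((1 / (n:ℝ)) * ∑ i, 2 * Real.cosh (z i))) =
        fun z => lse (fun p : Fin n × Bool => sp p.2 * z p.1) - Real.log n := by
      funext z
      rw [lse_bool0, Real.log_mul (by positivity) (hpos z).ne', one_div, Real.log_inv]
      ring
    have hc : Continuous (fun z : Fin n → ℝ => (fun p : Fin n × Bool => sp p.2 * z p.1)) := by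
      refine continuous_pi fun p => ?_
      fun_prop
    rw [hlog]
    refine Integrable.sub ?_ (integrable_const _)
    have h := lse_integrable (sg2 M)
    rw [← sg2_gm hM] at h
    exact (integrable_map_measure (lse_C2b.contF).aestronglyMeasurable hc.aemeasurable).1 h
  have hsi : ∀ s : Fin n → ι, Integrable (fun z : ι → ℝ =>
      Real.log ((1 / (n:ℝ)) * ∑ l, 2 * Real.cosh (z (s l)))) (gm B) := fun s => by
    have h := hlint _ (hB.submatrix s)
    rw [← gm_comp hB s] at h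
    exact (integrable_map_measure hlcont.aestronglyMeasurable (hsc s).aemeasurable).1 h
  have hsl : ∀ s : Fin n → ι, ∫ z : ι → ℝ,
      Real.log ((1 / (n:ℝ)) * ∑ l, 2 * Real.cosh (z (s l))) ∂(gm B) = lch (B.submatrix s s) :=
    fun s => by
      unfold lch
      rw [← gm_comp hB s, integral_map (hsc s).aemeasurable hlcont.aestronglyMeasurable]
      rfl
  -- pointwise inequality
  have hpt : ∀ H : ι → ℝ, gav H n (fun s => lch (B.submatrix s s)) ≤
      (∫ z, lse (φ (H, z)) ∂(gm B)) - lse H := fun H => by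
    have h1 : gav H n (fun s => lch (B.submatrix s s)) =
        ∫ z, gav H n (fun s => Real.log ((1 / (n:ℝ)) * ∑ l, 2 * Real.cosh (z (s l)))) ∂(gm B) := by
      unfold gav
      rw [integral_finsetSum _ fun s _ => (hsi s).mul_const _]
      refine Finset.sum_congr rfl fun s _ => ?_
      rw [integral_mul_const, hsl]
    have h2 : (∫ z, lse (φ (H, z)) ∂(gm B)) - lse H = ∫ z, (lse (φ (H, z)) - lse H) ∂(gm B) := by
      rw [integral_sub (hzi H) (integrable_const _)]
      simp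
    rw [h1, h2]
    refine integral_mono ?_ ((hzi H).sub (integrable_const _)) fun z => ?_
    · unfold gav
      exact integrable_finsetSum _ fun s _ => (hsi s).mul_const _
    · have h3 : lse (φ (H, z)) - lse H = Real.log (∑ i, pw H i * (2 * Real.cosh (z i))) := by
        have hp : 0 < ∑ i, Real.exp (H i) * (2 * Real.cosh (z i)) :=
          Finset.sum_pos (fun i _ => by positivity) Finset.univ_nonempty
        have hq : 0 < ∑ i, Real.exp (H i) :=
          Finset.sum_pos (fun i _ => by positivity) Finset.univ_nonempty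
        rw [hφ, lse_bool]
        unfold lse
        rw [← Real.log_div hp.ne' hq.ne', Finset.sum_div]
        congr 1
        refine Finset.sum_congr rfl fun i _ => ?_
        unfold pw
        ring
      show gav H n _ ≤ lse (φ (H, z)) - lse H
      rw [h3]
      exact jensen_log H (fun i => 2 * Real.cosh (z i)) (fun i => by positivity) n hn
  rw [hFE]
  unfold FE EG
  rw [← integral_sub hJi (lse_integrable A)]
  exact integral_mono (gav_integrable A n _) (hJi.sub (lse_integrable A)) hpt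

end jensen

theorem cav3 {c : ℕ → ℝ} (hc : Adm c) (h4 : Summable (fun p : ℕ => (4:ℝ) ^ p * c p)) (N : ℕ)
    (hN : 1 ≤ N) (n : ℕ) (hn : 1 ≤ n) :
    EG (cov (cw c N 0) N) n (fun s => Gn c n (ovm s)) ≤
      FE (cavM c N) - FE (cov (cw c N 0) N) := by
  rw [cavM_eq]
  exact cav_gen (cov_psd (cw_adm hc h4 N hN 0 le_rfl zero_le_one) N) (xi1ov_psd hc N) n hn

end Pool.Agent.OS
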