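import Pool.Agent.LibMP0f946f.Lse
import Pool.Agent.LibOS96.ChainG

/-! TASK CHAIN (helper96): Lemma S and the chain over thresholds. -/

set_option autoImplicit false
open MeasureTheory ProbabilityTheory Real Filter Topology

namespace Pool.Agent.OS

/-- covariance matrix of the discretised cavity field: `L` is a list of pairs (threshold, increment) -/
noncomputable def Kmat (L : List (ℝ × ℝ)) (cl : ℝ) (n : ℕ) (R : ℕ → ℕ → ℝ) :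
    Matrix (Fin n) (Fin n) ℝ :=
  fun i j => (L.map (fun p => if p.1 ≤ R i j then p.2 else 0)).sum + (if i = j then cl else 0)

open Pool.Agent.LibOS96 in
theorem Kmat_psd {P : Measure (ℕ → ℕ → ℝ)} {ζ : Measure ℝ} (H : GGArray P ζ)
    (L : List (ℝ × ℝ)) (hL : ∀ p ∈ L, 0 < p.1 ∧ p.1 ≤ 1 ∧ 0 ≤ p.2) (cl : ℝ) (hcl : 0 ≤ cl) :
    ∀ᵐ R ∂P, ∀ n, (Kmat L cl n R).PosSemidef := by
  filter_upwards [H.good] with R hR n
  exact Km_psd L (fun p hp => ⟨(hL p hp).2.1, (hL p hp).2.2⟩) cl hcl hR n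

open Pool.Agent.LibOS96 in
theorem chain {P : Measure (ℕ → ℕ → ℝ)} {ζ : Measure ℝ} (H : GGArray P ζ)
    (L : List (ℝ × ℝ)) (hs : L.Pairwise (fun p q => p.1 ≤ q.1))
    (hL : ∀ p ∈ L, 0 < p.1 ∧ p.1 ≤ 1 ∧ 0 ≤ p.2) (cl : ℝ) (hcl : 0 ≤ cl)
    (A : ℝ → ℝ) (hA : Continuous A) (hb : ∃ B, ∀ y, |A y| ≤ B * (1 + |y|))
    (ε : ℝ) (hε : 0 < ε) :
    ∃ n : ℕ, 1 ≤ n ∧
      tn (L.map (fun p => (ζ.real (Set.Iio p.1), p.2)) ++ [(1, cl)]) A 0 - ε ≤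
        ∫ R, (∫ z, Real.log ((1 / (n:ℝ)) * ∑ i, Real.exp (A (z i))) ∂(gm (Kmat L cl n R))) ∂P := by
  obtain ⟨B, hB⟩ := hb
  obtain ⟨n, hn, hn1⟩ := ((H.chain3 L hs (fun p hp => ⟨(hL p hp).2.1, (hL p hp).2.2⟩) hcl
    (B := B) ⟨hA.measurable, hB⟩ hε).and (eventually_ge_atTop 1)).exists
  exact ⟨n, hn1, hn⟩

end Pool.Agent.OS
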