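import Pool.Agent.LibMP0f946f.Base

/-! TASK SPIN0: elementary facts on overlaps and on the functions `ξ, ξ', ξ'', θ`. -/

set_option autoImplicit false
open MeasureTheory ProbabilityTheory Real Filter Topology

namespace Pool.Agent.OS

theorem ov_abs_le {N : ℕ} (σ τ : Cfg N) : |ov σ τ| ≤ 1 := by
  unfold ov
  rw [abs_div, Nat.abs_cast]
  rcases Nat.eq_zero_or_pos N with h | h
  · subst h; simp
  · rw [div_le_one (by positivity)]
    refine (Finset.abs_sum_le_sum_abs _ _).trans ?_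
    refine (Finset.sum_le_card_nsmul _ _ 1 ?_).trans ?_
    · intro i _; split_ifs <;> simp
    · simp

theorem ov_self {N : ℕ} (hN : 1 ≤ N) (σ : Cfg N) : ov σ σ = 1 := by
  unfold ov
  have : (N : ℝ) ≠ 0 := by positivity
  simp [this]

theorem ov_comm {N : ℕ} (σ τ : Cfg N) : ov σ τ = ov τ σ := by
  unfold ov
  simp only [eq_comm]

/-- spin value -/
noncomputable def sp (b : Bool) : ℝ := if b then 1 else -1

theorem ov_eq {N : ℕ} (σ τ : Cfg N) : ov σ τ = (∑ i, sp (σ i) * sp (τ i)) / N := by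
  unfold ov sp
  congr 1
  refine Finset.sum_congr rfl fun i _ => ?_
  cases σ i <;> cases τ i <;> simp

theorem psd_of_quad {ι : Type*} [Fintype ι] (M : ι → ι → ℝ) (hs : ∀ i j, M i j = M j i)
    (hq : ∀ x : ι → ℝ, 0 ≤ ∑ i, ∑ j, x i * M i j * x j) : (Matrix.of M).PosSemidef := by
  rw [Matrix.posSemidef_iff_dotProduct_mulVec]
  refine ⟨?_, fun x => ?_⟩
  · ext i j
    simp [Matrix.conjTranspose_apply, hs i j]
  · have := hq x
    simp only [dotProduct, Matrix.mulVec, Matrix.of_apply, Pi.star_apply, star_trivial,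
      Finset.mul_sum]
    simpa only [mul_assoc] using this

theorem quad_of_psd {ι : Type*} [Fintype ι] (M : ι → ι → ℝ) (h : (Matrix.of M).PosSemidef)
    (x : ι → ℝ) : 0 ≤ ∑ i, ∑ j, x i * M i j * x j := by
  have := (Matrix.posSemidef_iff_dotProduct_mulVec.1 h).2 x
  simp only [dotProduct, Matrix.mulVec, Matrix.of_apply, Pi.star_apply, star_trivial,
      Finset.mul_sum] at this
  simpa only [mul_assoc] using this

theorem symm_of_psd {ι : Type*} (M : ι → ι → ℝ) (h : (Matrix.of M).PosSemidef) (i j : ι) :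
    M i j = M j i := by
  have := h.isHermitian.apply j i
  simpa using this

theorem ov_psd (N : ℕ) : (Matrix.of fun σ τ : Cfg N => ov σ τ).PosSemidef := by
  refine psd_of_quad _ ov_comm fun x => ?_
  have : ∑ σ, ∑ τ, x σ * ov σ τ * x τ = (∑ i : Fin N, (∑ σ : Cfg N, x σ * sp (σ i)) ^ 2) / N := by
    simp_rw [ov_eq, pow_two, Finset.sum_mul_sum]
    rw [Finset.sum_comm (s := (Finset.univ : Finset (Fin N)))]
    simp_rw [Finset.sum_comm (s := (Finset.univ : Finset (Fin N)))]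
    rw [Finset.sum_div]
    refine Finset.sum_congr rfl fun σ _ => ?_
    rw [Finset.sum_div]
    refine Finset.sum_congr rfl fun τ _ => ?_
    rw [mul_div_assoc', div_mul_eq_mul_div, Finset.mul_sum, Finset.sum_mul]
    congr 1
    refine Finset.sum_congr rfl fun i _ => ?_
    ring
  rw [this]
  exact div_nonneg (Finset.sum_nonneg fun i _ => sq_nonneg _) (Nat.cast_nonneg _)

theorem psd_one {ι : Type*} [Fintype ι] : (Matrix.of fun _ _ : ι => (1:ℝ)).PosSemidef := by
  refine psd_of_quad _ (fun _ _ => rfl) fun x => ?_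
  have : ∑ i, ∑ j, x i * 1 * x j = (∑ i, x i) ^ 2 := by
    rw [pow_two, Finset.sum_mul_sum]
    simp
  rw [this]
  exact sq_nonneg _

theorem psd_pow {ι : Type*} [Fintype ι] (R : ι → ι → ℝ)
    (hR : (Matrix.of R).PosSemidef) (p : ℕ) : (Matrix.of fun i j => R i j ^ p).PosSemidef := by
  induction p with
  | zero => simpa using psd_one (ι := ι)
  | succ n ih =>
    have e : (Matrix.of fun i j => R i j ^ (n + 1)) =
        (Matrix.of fun i j => R i j ^ n).hadamard (Matrix.of R) := by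
      ext i j
      simp [Matrix.hadamard_apply, pow_succ]
    rw [e]
    exact ih.hadamard hR

theorem psd_smul {ι : Type*} [Fintype ι] (R : ι → ι → ℝ)
    (hR : (Matrix.of R).PosSemidef) (a : ℝ) (ha : 0 ≤ a) :
    (Matrix.of fun i j => a * R i j).PosSemidef := by
  refine psd_of_quad _ (fun i j => by rw [symm_of_psd R hR i j]) fun x => ?_
  have := quad_of_psd R hR x
  have h : ∑ i, ∑ j, x i * (a * R i j) * x j = a * ∑ i, ∑ j, x i * R i j * x j := by
    simp_rw [Finset.mul_sum]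
    refine Finset.sum_congr rfl fun i _ => Finset.sum_congr rfl fun j _ => ?_
    ring
  rw [h]
  positivity

/-- positivity of infinite sums -/
theorem psd_tsum {ι : Type*} [Fintype ι] (f : ℕ → ι → ι → ℝ)
    (hf : ∀ p, (Matrix.of (f p)).PosSemidef) (hs : ∀ i j, Summable fun p => f p i j) :
    (Matrix.of fun i j => ∑' p, f p i j).PosSemidef := by
  refine psd_of_quad _ (fun i j => ?_) fun x => ?_
  · exact tsum_congr fun p => symm_of_psd _ (hf p) i j
  · have h : HasSum (fun p => ∑ i, ∑ j, x i * f p i j * x j)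
        (∑ i, ∑ j, x i * (∑' p, f p i j) * x j) :=
      hasSum_sum fun i _ => hasSum_sum fun j _ => ((hs i j).hasSum.mul_left _).mul_right _
    exact h.nonneg fun p => quad_of_psd _ (hf p) x

theorem summable_pow_of_abs_le {d : ℕ → ℝ} (hd : ∀ p, 0 ≤ d p) (hs : Summable d) {x : ℝ}
    (hx : |x| ≤ 1) (e : ℕ → ℕ) : Summable fun p => d p * x ^ (e p) := by
  refine Summable.of_norm_bounded hs fun p => ?_
  rw [norm_mul, norm_pow, Real.norm_eq_abs, Real.norm_eq_abs, abs_of_nonneg (hd p)]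
  exact mul_le_of_le_one_right (hd p) (pow_le_one₀ (abs_nonneg _) hx)

/-- entrywise power series with nonnegative coefficients preserve positivity (Schur) -/
theorem psd_series {ι : Type*} [Fintype ι] [DecidableEq ι] (R : ι → ι → ℝ)
    (hR : (Matrix.of R).PosSemidef) (hb : ∀ i j, |R i j| ≤ 1) (d : ℕ → ℝ) (hd : ∀ p, 0 ≤ d p)
    (hs : Summable d) : (Matrix.of fun i j => ∑' p, d p * R i j ^ p).PosSemidef :=
  psd_tsum _ (fun p => psd_smul _ (psd_pow R hR p) _ (hd p)) fun i j =>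
    summable_pow_of_abs_le hd hs (hb i j) _

section calculus0
variable {c : ℕ → ℝ} (hc : Adm c)
include hc

theorem Adm.summ (k : ℕ) {ρ : ℝ} (h0 : 0 ≤ ρ) (h2 : ρ < 2) :
    Summable (fun p : ℕ => c p * ((p : ℝ) ^ k * ρ ^ p)) := by
  have hr : |ρ / 2| < 1 := by
    rw [abs_of_nonneg (by positivity)]
    linarith
  have ht := tendsto_pow_const_mul_const_pow_of_abs_lt_one k hr
  obtain ⟨C, hC⟩ := ht.bddAbove_range
  have hC' : ∀ p : ℕ, (p : ℝ) ^ k * (ρ / 2) ^ p ≤ C := fun p => hC ⟨p, rfl⟩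
  refine Summable.of_nonneg_of_le (fun p => ?_) (fun p => ?_) (hc.sum.mul_left C)
  · have := hc.nonneg p
    positivity
  · have e : ρ ^ p = (ρ / 2) ^ p * 2 ^ p := by
      rw [← mul_pow]
      congr 1
      ring
    have h1 : 0 ≤ 2 ^ p * c p := mul_nonneg (by positivity) (hc.nonneg p)
    calc c p * ((p : ℝ) ^ k * ρ ^ p) = ((p : ℝ) ^ k * (ρ / 2) ^ p) * (2 ^ p * c p) := by
          rw [e]; ring
      _ ≤ C * (2 ^ p * c p) := mul_le_mul_of_nonneg_right (hC' p) h1

theorem Adm.summk (k : ℕ) : Summable (fun p : ℕ => c p * (p : ℝ) ^ k) := by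
  have := hc.summ k (ρ := 1) (by norm_num) (by norm_num)
  simpa using this

theorem Adm.summable : Summable c := by
  simpa using hc.summk 0

theorem Adm.summable1 : Summable (fun p : ℕ => c p * p) := by
  simpa using hc.summk 1

theorem Adm.summable2 : Summable (fun p : ℕ => c p * (p * (p - 1))) := by
  have := (hc.summk 2).sub (hc.summk 1)
  refine this.congr fun p => ?_
  ring

theorem Adm.summable3 : Summable (fun p : ℕ => c p * (p * (p - 1) * (p - 2))) := by
  have := ((hc.summk 3).sub ((hc.summk 2).mul_left 3)).add ((hc.summk 1).mul_left 2)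
  refine this.congr fun p => ?_
  ring

end calculus0

theorem nat_mul_pred_nonneg (p : ℕ) : (0:ℝ) ≤ (p : ℝ) * ((p : ℝ) - 1) := by
  rcases Nat.eq_zero_or_pos p with h | h
  · subst h; simp
  · have : (1 : ℝ) ≤ p := by exact_mod_cast h
    exact mul_nonneg (by positivity) (by linarith)

theorem Adm.cpred_nonneg {c : ℕ → ℝ} (hc : Adm c) (p : ℕ) : 0 ≤ c p * ((p : ℝ) - 1) := by
  rcases Nat.eq_zero_or_pos p with h | h
  · subst h; simp [hc.c0]
  · have : (1 : ℝ) ≤ p := by exact_mod_cast h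
    exact mul_nonneg (hc.nonneg p) (by linarith)

theorem Adm.th_eq {c : ℕ → ℝ} (hc : Adm c) {x : ℝ} (hx : |x| ≤ 1) :
    th c x = ∑' p, c p * ((p : ℝ) - 1) * x ^ p := by
  unfold th xi1 xi
  have s1 : Summable fun p : ℕ => (c p * p) * x ^ (p - 1) :=
    summable_pow_of_abs_le (fun p => mul_nonneg (hc.nonneg p) (Nat.cast_nonneg _)) hc.summable1 hx _
  have s1' : Summable fun p : ℕ => x * (c p * (p * x ^ (p - 1))) :=
    (s1.mul_left x).congr fun p => by ring
  have s0 : Summable fun p : ℕ => c p * x ^ p :=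
    summable_pow_of_abs_le hc.nonneg hc.summable hx _
  rw [← tsum_mul_left, ← s1'.tsum_sub s0]
  refine tsum_congr fun p => ?_
  cases p with
  | zero => simp
  | succ n =>
    simp only [Nat.add_sub_cancel, Nat.cast_add, Nat.cast_one]
    ring

theorem cov_psd {c : ℕ → ℝ} (hc : Adm c) (N : ℕ) : (cov c N).PosSemidef := by
  have h := psd_series (fun σ τ : Cfg N => ov σ τ) (ov_psd N) (fun _ _ => ov_abs_le _ _) c
    hc.nonneg hc.summable
  exact psd_smul _ h (N : ℝ) (Nat.cast_nonneg _)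

theorem xi_psd {ι : Type*} [Fintype ι] [DecidableEq ι] {c : ℕ → ℝ} (hc : Adm c) (R : ι → ι → ℝ)
    (hR : (Matrix.of R).PosSemidef) (hb : ∀ i j, |R i j| ≤ 1) :
    (Matrix.of fun i j => xi c (R i j)).PosSemidef :=
  psd_series R hR hb c hc.nonneg hc.summable

theorem xi1_psd {ι : Type*} [Fintype ι] [DecidableEq ι] {c : ℕ → ℝ} (hc : Adm c) (R : ι → ι → ℝ)
    (hR : (Matrix.of R).PosSemidef) (hb : ∀ i j, |R i j| ≤ 1) :
    (Matrix.of fun i j => xi1 c (R i j)).PosSemidef := by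
  unfold xi1
  refine psd_tsum _ (fun p => ?_) fun i j => ?_
  · exact psd_smul _ (psd_smul _ (psd_pow R hR (p - 1)) _ (Nat.cast_nonneg _)) _ (hc.nonneg p)
  · have := summable_pow_of_abs_le (fun p => mul_nonneg (hc.nonneg p) (Nat.cast_nonneg p))
      hc.summable1 (hb i j) (fun p => p - 1)
    exact this.congr fun p => by ring

theorem th_psd {ι : Type*} [Fintype ι] [DecidableEq ι] {c : ℕ → ℝ} (hc : Adm c) (R : ι → ι → ℝ)
    (hR : (Matrix.of R).PosSemidef) (hb : ∀ i j, |R i j| ≤ 1) :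
    (Matrix.of fun i j => th c (R i j)).PosSemidef := by
  have h := psd_series R hR hb (fun p => c p * ((p : ℝ) - 1)) hc.cpred_nonneg
    ((hc.summable1.sub hc.summable).congr fun p => by ring)
  convert h using 4
  rw [hc.th_eq (hb _ _)]

section calculus
variable {c : ℕ → ℝ} (hc : Adm c)
include hc

theorem Adm.xi_deriv {x : ℝ} (hx : |x| < 2) : HasDerivAt (xi c) (xi1 c x) x := by
  set ρ : ℝ := (max |x| 1 + 2) / 2 with hρ
  have hm1 : |x| ≤ max |x| 1 := le_max_left _ _
  have hm2 : 1 ≤ max |x| 1 := le_max_right _ _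
  have hm3 : max |x| 1 < 2 := max_lt hx (by norm_num)
  have hρ1 : 1 ≤ ρ := by rw [hρ]; linarith
  have hρ2 : ρ < 2 := by rw [hρ]; linarith
  have hxρ : |x| < ρ := by rw [hρ]; linarith
  refine hasDerivAt_tsum_of_isPreconnected (u := fun p => c p * ((p : ℝ) ^ 1 * ρ ^ p))
    (t := Metric.ball (0:ℝ) ρ) (y₀ := 0) (g := fun p x => c p * x ^ p)
    (g' := fun p x => c p * (p * x ^ (p - 1)))
    (hc.summ 1 (by linarith) hρ2) Metric.isOpen_ball
    (convex_ball _ _).isPreconnected (fun n y _ => (hasDerivAt_pow n y).const_mul _)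
    (fun n y hy => ?_) (by simp; linarith) ?_ (by simpa using hxρ)
  · rw [mem_ball_zero_iff, Real.norm_eq_abs] at hy
    rw [norm_mul, norm_mul, norm_pow, Real.norm_eq_abs, Real.norm_eq_abs, Real.norm_eq_abs,
      abs_of_nonneg (hc.nonneg n), Nat.abs_cast, pow_one]
    have h1 : |y| ^ (n - 1) ≤ ρ ^ n :=
      (pow_le_pow_left₀ (abs_nonneg _) hy.le _).trans (pow_le_pow_right₀ hρ1 (Nat.sub_le _ _))
    have h2 := hc.nonneg n
    gcongr
  · exact summable_pow_of_abs_le hc.nonneg hc.summable (by simp) _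

theorem Adm.xi1_deriv {x : ℝ} (hx : |x| < 2) : HasDerivAt (xi1 c) (xi2 c x) x := by
  set ρ : ℝ := (max |x| 1 + 2) / 2 with hρ
  have hm1 : |x| ≤ max |x| 1 := le_max_left _ _
  have hm2 : 1 ≤ max |x| 1 := le_max_right _ _
  have hm3 : max |x| 1 < 2 := max_lt hx (by norm_num)
  have hρ1 : 1 ≤ ρ := by rw [hρ]; linarith
  have hρ2 : ρ < 2 := by rw [hρ]; linarith
  have hxρ : |x| < ρ := by rw [hρ]; linarith
  refine hasDerivAt_tsum_of_isPreconnected (u := fun p => c p * ((p : ℝ) ^ 2 * ρ ^ p))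
    (t := Metric.ball (0:ℝ) ρ) (y₀ := 0) (g := fun p x => c p * (p * x ^ (p - 1)))
    (g' := fun p x => c p * (p * (p - 1) * x ^ (p - 2)))
    (hc.summ 2 (by linarith) hρ2) Metric.isOpen_ball
    (convex_ball _ _).isPreconnected (fun n y _ => ?_)
    (fun n y hy => ?_) (by simp; linarith) ?_ (by simpa using hxρ)
  · have h := ((hasDerivAt_pow (n - 1) y).const_mul (n : ℝ)).const_mul (c n)
    refine h.congr_deriv ?_
    cases n with
    | zero => simp
    | succ n =>
      have e2 : n + 1 - 2 = n - 1 := by omega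
      have e3 : n + 1 - 1 = n := by omega
      rw [e2, e3]
      push_cast
      ring
  · rw [mem_ball_zero_iff, Real.norm_eq_abs] at hy
    rw [norm_mul, norm_mul, norm_pow, Real.norm_eq_abs, Real.norm_eq_abs, Real.norm_eq_abs,
      abs_of_nonneg (hc.nonneg n), abs_of_nonneg (nat_mul_pred_nonneg n)]
    have h1 : |y| ^ (n - 2) ≤ ρ ^ n :=
      (pow_le_pow_left₀ (abs_nonneg _) hy.le _).trans (pow_le_pow_right₀ hρ1 (Nat.sub_le _ _))
    have h2 := hc.nonneg n
    have h3 : (n : ℝ) * ((n : ℝ) - 1) ≤ (n : ℝ) ^ 2 := by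
      have : (0:ℝ) ≤ n := Nat.cast_nonneg n
      nlinarith
    gcongr
  · have := summable_pow_of_abs_le (x := 0)
      (fun p => mul_nonneg (hc.nonneg p) (Nat.cast_nonneg p)) hc.summable1 (by simp) (fun p => p - 1)
    exact this.congr fun p => by ring

theorem Adm.th_deriv {x : ℝ} (hx : |x| < 2) : HasDerivAt (th c) (x * xi2 c x) x := by
  have h := ((hasDerivAt_id x).mul (hc.xi1_deriv hx)).sub (hc.xi_deriv hx)
  refine h.congr_deriv ?_
  simp only [id_eq]
  ring

theorem Adm.xi_zero : xi c 0 = 0 := by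
  unfold xi
  refine (tsum_congr fun p => ?_).trans tsum_zero
  cases p with
  | zero => simp [hc.c0]
  | succ n => simp

theorem Adm.xi1_zero : xi1 c 0 = 0 := by
  unfold xi1
  refine (tsum_congr fun p => ?_).trans tsum_zero
  match p with
  | 0 => simp
  | 1 => simp [hc.c1]
  | n + 2 => simp

theorem Adm.th_zero : th c 0 = 0 := by
  simp [th, hc.xi_zero]

theorem Adm.xi_abs {x : ℝ} (hx : |x| ≤ 1) : |xi c x| ≤ xi c 1 := by
  unfold xi
  have hs : Summable fun p : ℕ => c p * (1:ℝ) ^ p :=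
    summable_pow_of_abs_le hc.nonneg hc.summable (by simp) _
  rw [← Real.norm_eq_abs]
  refine tsum_of_norm_bounded hs.hasSum fun p => ?_
  rw [norm_mul, norm_pow, Real.norm_eq_abs, Real.norm_eq_abs, abs_of_nonneg (hc.nonneg p)]
  exact mul_le_mul_of_nonneg_left (pow_le_pow_left₀ (abs_nonneg _) hx _) (hc.nonneg p)

theorem Adm.xi1_abs {x : ℝ} (hx : |x| ≤ 1) : |xi1 c x| ≤ xi1 c 1 := by
  unfold xi1
  have hs : Summable fun p : ℕ => c p * (p * (1:ℝ) ^ (p - 1)) := by
    simpa using hc.summable1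
  rw [← Real.norm_eq_abs]
  refine tsum_of_norm_bounded hs.hasSum fun p => ?_
  rw [norm_mul, norm_mul, norm_pow, Real.norm_eq_abs, Real.norm_eq_abs, Real.norm_eq_abs,
    abs_of_nonneg (hc.nonneg p), Nat.abs_cast]
  have h1 : |x| ^ (p - 1) ≤ (1:ℝ) ^ (p - 1) := pow_le_pow_left₀ (abs_nonneg _) hx _
  have h2 := hc.nonneg p
  gcongr

theorem Adm.xi2_abs {x : ℝ} (hx : |x| ≤ 1) : |xi2 c x| ≤ xi2 c 1 := by
  unfold xi2
  have hs : Summable fun p : ℕ => c p * (p * (p - 1) * (1:ℝ) ^ (p - 2)) := by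
    simpa using hc.summable2
  rw [← Real.norm_eq_abs]
  refine tsum_of_norm_bounded hs.hasSum fun p => ?_
  rw [norm_mul, norm_mul, norm_pow, Real.norm_eq_abs, Real.norm_eq_abs, Real.norm_eq_abs,
    abs_of_nonneg (hc.nonneg p), abs_of_nonneg (nat_mul_pred_nonneg p)]
  have h1 : |x| ^ (p - 2) ≤ (1:ℝ) ^ (p - 2) := pow_le_pow_left₀ (abs_nonneg _) hx _
  exact mul_le_mul_of_nonneg_left (mul_le_mul_of_nonneg_left h1 (nat_mul_pred_nonneg p))
    (hc.nonneg p)

theorem Adm.th_abs {x : ℝ} (hx : |x| ≤ 1) : |th c x| ≤ th c 1 := by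
  rw [hc.th_eq hx, hc.th_eq (by simp)]
  have hs : Summable fun p : ℕ => c p * ((p : ℝ) - 1) * (1:ℝ) ^ p :=
    summable_pow_of_abs_le hc.cpred_nonneg
      ((hc.summable1.sub hc.summable).congr fun p => by ring) (by simp) _
  rw [← Real.norm_eq_abs]
  refine tsum_of_norm_bounded hs.hasSum fun p => ?_
  rw [norm_mul, norm_pow, Real.norm_eq_abs, Real.norm_eq_abs, abs_of_nonneg (hc.cpred_nonneg p)]
  exact mul_le_mul_of_nonneg_left (pow_le_pow_left₀ (abs_nonneg _) hx _) (hc.cpred_nonneg p)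

theorem Adm.xi1_mono {x y : ℝ} (h0 : 0 ≤ x) (h : x ≤ y) (h1 : y ≤ 1) : xi1 c x ≤ xi1 c y := by
  unfold xi1
  have hs : ∀ z : ℝ, |z| ≤ 1 → Summable fun p : ℕ => c p * (p * z ^ (p - 1)) := by
    intro z hz
    have := summable_pow_of_abs_le (fun p => mul_nonneg (hc.nonneg p) (Nat.cast_nonneg p))
      hc.summable1 hz (fun p => p - 1)
    exact this.congr fun p => by ring
  refine (hs x (by rw [abs_of_nonneg h0]; linarith)).tsum_le_tsum (fun p => ?_)
    (hs y (by rw [abs_of_nonneg (h0.trans h)]; linarith))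
  have h2 := hc.nonneg p
  gcongr

theorem Adm.xi_lip {x y : ℝ} (hx : |x| ≤ 1) (hy : |y| ≤ 1) :
    |xi c x - xi c y| ≤ xi1 c 1 * |x - y| := by
  have hmem : ∀ z : ℝ, z ∈ Set.Icc (-1:ℝ) 1 ↔ |z| ≤ 1 := fun z => abs_le.symm
  exact Convex.norm_image_sub_le_of_norm_hasDerivWithin_le (s := Set.Icc (-1:ℝ) 1)
    (fun z hz => (hc.xi_deriv (by have := (hmem z).1 hz; linarith)).hasDerivWithinAt)
    (fun z hz => hc.xi1_abs ((hmem z).1 hz)) (convex_Icc _ _) ((hmem y).2 hy) ((hmem x).2 hx)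

theorem Adm.xi1_lip {x y : ℝ} (hx : |x| ≤ 1) (hy : |y| ≤ 1) :
    |xi1 c x - xi1 c y| ≤ xi2 c 1 * |x - y| := by
  have hmem : ∀ z : ℝ, z ∈ Set.Icc (-1:ℝ) 1 ↔ |z| ≤ 1 := fun z => abs_le.symm
  exact Convex.norm_image_sub_le_of_norm_hasDerivWithin_le (s := Set.Icc (-1:ℝ) 1)
    (fun z hz => (hc.xi1_deriv (by have := (hmem z).1 hz; linarith)).hasDerivWithinAt)
    (fun z hz => hc.xi2_abs ((hmem z).1 hz)) (convex_Icc _ _) ((hmem y).2 hy) ((hmem x).2 hx)

/-- second order expansion -/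
theorem Adm.xi_taylor {x y : ℝ} (hx : |x| ≤ 1) (hy : |y| ≤ 1) :
    |xi c y - xi c x - xi1 c x * (y - x)| ≤ xi2 c 1 * (y - x) ^ 2 := by
  have hz1 : ∀ z ∈ Set.uIcc x y, |z| ≤ 1 := by
    intro z hz
    rw [abs_le] at hx hy ⊢
    rcases le_total x y with h | h
    · rw [Set.uIcc_of_le h] at hz
      exact ⟨by linarith [hz.1], by linarith [hz.2]⟩
    · rw [Set.uIcc_of_ge h] at hz
      exact ⟨by linarith [hz.1], by linarith [hz.2]⟩
  have h20 : 0 ≤ xi2 c 1 := (abs_nonneg _).trans (hc.xi2_abs (x := 1) (by simp))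
  have h := Convex.norm_image_sub_le_of_norm_hasDerivWithin_le (s := Set.uIcc x y)
    (f := fun t => xi c t - xi1 c x * t) (f' := fun t => xi1 c t - xi1 c x)
    (C := xi2 c 1 * |y - x|) (x := x) (y := y)
    (fun z hz => by
      have h1 := hc.xi_deriv (x := z) (by have := hz1 z hz; linarith)
      have h2 := h1.sub ((hasDerivAt_id z).const_mul (xi1 c x))
      simp only [mul_one] at h2
      exact h2.hasDerivWithinAt)
    (fun z hz => by
      refine (hc.xi1_lip (hz1 z hz) hx).trans ?_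
      refine mul_le_mul_of_nonneg_left ?_ h20
      exact Set.abs_sub_left_of_mem_uIcc hz)
    (convex_uIcc _ _) Set.left_mem_uIcc Set.right_mem_uIcc
  rw [Real.norm_eq_abs, Real.norm_eq_abs] at h
  have e1 : xi c y - xi1 c x * y - (xi c x - xi1 c x * x) =
      xi c y - xi c x - xi1 c x * (y - x) := by ring
  rw [e1, mul_assoc, ← pow_two, sq_abs] at h
  exact h

/-- `θ(q) ≥ 0`, and the tangent line inequality for convex `ξ` -/
theorem Adm.tangent (hconv : ConvexOn ℝ (Set.Icc (-1) 1) (xi c)) {x q : ℝ} (hx : |x| ≤ 1)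
    (hq : |q| ≤ 1) : - th c q ≤ xi c x - x * xi1 c q := by
  have hd := hc.xi_deriv (x := q) (by linarith)
  have hxm : x ∈ Set.Icc (-1:ℝ) 1 := abs_le.1 hx
  have hqm : q ∈ Set.Icc (-1:ℝ) 1 := abs_le.1 hq
  unfold th
  rcases lt_trichotomy q x with h | h | h
  · have := hconv.le_slope_of_hasDerivAt hqm hxm h hd
    rw [slope_def_field, le_div_iff₀ (by linarith)] at this
    linarith
  · subst h
    linarith
  · have := hconv.slope_le_of_hasDerivAt hxm hqm h hd
    rw [slope_def_field, div_le_iff₀ (by linarith)] at this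
    linarith

end calculus

end Pool.Agent.OS
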