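import Pool.Agent.LibMP0f946f.Fam
import Pool.Agent.LibMP0f946f.Spin0

/-! Conversion between the space variable `q` and the time variable `t = ξ'(q)`. -/

set_option autoImplicit false
open MeasureTheory ProbabilityTheory Real Filter Topology

namespace Pool.Agent.OS

/-- `∑ m_j (Θ(t_j) - Θ(t_{j-1}))` in the time variable -/
noncomputable def penT (Θ : ℝ → ℝ) : ℝ → List (ℝ × ℝ) → ℝ
  | _, [] => 0
  | t0, (p :: L) => p.1 * (Θ (t0 + p.2) - Θ t0) + penT Θ (t0 + p.2) L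

/-- list of pairs `(m_j, c_j)`: `m` nondecreasing from `m0` and at most `1`, `c ≥ 0` -/
def TimeOK : ℝ → List (ℝ × ℝ) → Prop
  | m0, [] => m0 ≤ 1
  | m0, (p :: L) => m0 ≤ p.1 ∧ 0 ≤ p.2 ∧ TimeOK p.1 L

/-- the list `(m_j, q(t_j))` -/
noncomputable def qlist (q : ℝ → ℝ) : ℝ → List (ℝ × ℝ) → List (ℝ × ℝ)
  | _, [] => []
  | t0, (p :: L) => (p.1, q (t0 + p.2)) :: qlist q (t0 + p.2) L

theorem gauss_exp (t : ℝ) : ∫ g, Real.exp (t * g) ∂γ = Real.exp (t ^ 2 / 2) := by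
  have h := mgf_gaussianReal (X := id) (p := γ) (μ := 0) (v := 1) (by simp) t
  simpa [mgf] using h

theorem T_one_log_cosh (d : ℝ) (hd : 0 ≤ d) (y : ℝ) :
    T 1 (Real.sqrt d) (fun y => Real.log (2 * Real.cosh y)) y =
      Real.log (2 * Real.cosh y) + d / 2 := by
  unfold T Zt
  rw [if_neg one_ne_zero]
  have h1 : ∀ g : ℝ, Real.exp (1 * Real.log (2 * Real.cosh (y + g • Real.sqrt d))) =
      Real.exp y * Real.exp (Real.sqrt d * g) + Real.exp (-y) * Real.exp (-Real.sqrt d * g) := by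
    intro g
    rw [one_mul, Real.exp_log (by positivity), Real.cosh_eq, ← Real.exp_add, ← Real.exp_add]
    rw [smul_eq_mul]; ring_nf
  simp_rw [h1]
  have hi1 : Integrable (fun g : ℝ => Real.exp y * Real.exp (Real.sqrt d * g)) γ :=
    (integrable_exp_mul_gaussianReal _).const_mul _
  have hi2 : Integrable (fun g : ℝ => Real.exp (-y) * Real.exp (-Real.sqrt d * g)) γ :=
    (integrable_exp_mul_gaussianReal _).const_mul _
  rw [integral_add hi1 hi2, integral_const_mul, integral_const_mul, gauss_exp, gauss_exp]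
  have h2 : (Real.sqrt d) ^ 2 = d := Real.sq_sqrt hd
  have h3 : (-Real.sqrt d) ^ 2 = d := by rw [neg_sq, h2]
  rw [h2, h3, ← add_mul]
  have h4 : Real.exp y + Real.exp (-y) = 2 * Real.cosh y := by rw [Real.cosh_eq]; ring
  rw [h4, Real.log_mul (by positivity) (Real.exp_pos _).ne', Real.log_exp]
  ring

theorem tn_append (L : List (ℝ × ℝ)) (p : ℝ × ℝ) (f : ℝ → ℝ) :
    tn (L ++ [p]) f = tn L (T p.1 (Real.sqrt p.2) f) := by
  induction L with
  | nil => rfl
  | cons a L ih => simp only [List.cons_append, tn, ih]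

theorem lc_lip : ∀ x y : ℝ, |lc x - lc y| ≤ 1 * ‖x - y‖ := by
  have hd : ∀ x : ℝ, HasDerivAt lc (Real.sinh x / Real.cosh x) x := by
    intro x
    exact (Real.hasDerivAt_cosh x).log (Real.cosh_pos x).ne'
  intro x y
  have := (convex_univ (𝕜 := ℝ) (E := ℝ)).norm_image_sub_le_of_norm_hasDerivWithin_le
    (f := lc) (f' := fun x => Real.sinh x / Real.cosh x) (C := 1)
    (fun x _ => (hd x).hasDerivWithinAt) (fun x _ => by
      rw [Real.norm_eq_abs, abs_div, abs_of_pos (Real.cosh_pos x), div_le_one (Real.cosh_pos x)]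
      rw [abs_le]
      constructor
      · rw [Real.sinh_eq, Real.cosh_eq]; nlinarith [Real.exp_pos x, Real.exp_pos (-x)]
      · rw [Real.sinh_eq, Real.cosh_eq]; nlinarith [Real.exp_pos x, Real.exp_pos (-x)])
    (Set.mem_univ y) (Set.mem_univ x)
  simpa [Real.norm_eq_abs] using this

theorem cont_of_lip {f : ℝ → ℝ} {B : ℝ} (h : ∀ x y, |f x - f y| ≤ B * ‖x - y‖) :
    Continuous f := by
  have : LipschitzWith (Real.toNNReal B) f := by
    refine LipschitzWith.of_dist_le_mul fun x y => ?_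
    rw [Real.dist_eq, dist_eq_norm]
    refine (h x y).trans ?_
    exact mul_le_mul_of_nonneg_right (Real.le_coe_toNNReal B) (norm_nonneg _)
  exact this.continuous

theorem tn_lip (L : List (ℝ × ℝ)) (hL : ∀ p ∈ L, 0 ≤ p.1) (f : ℝ → ℝ) (B : ℝ)
    (hf : ∀ x y, |f x - f y| ≤ B * ‖x - y‖) : ∀ x y, |tn L f x - tn L f y| ≤ B * ‖x - y‖ := by
  induction L with
  | nil => exact hf
  | cons p L ih =>
    exact T_lip B (ih fun r hr => hL r (List.mem_cons_of_mem _ hr)) p.1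
      (hL p List.mem_cons_self) (Real.sqrt p.2)

theorem tn_add_const (L : List (ℝ × ℝ)) (hL : ∀ p ∈ L, 0 ≤ p.1) (f : ℝ → ℝ) (B : ℝ)
    (hf : ∀ x y, |f x - f y| ≤ B * ‖x - y‖) (k : ℝ) (y : ℝ) :
    tn L (fun x => f x + k) y = tn L f y + k := by
  induction L generalizing y with
  | nil => rfl
  | cons p L ih =>
    have hL' : ∀ r ∈ L, 0 ≤ r.1 := fun r hr => hL r (List.mem_cons_of_mem _ hr)
    have h1 : tn L (fun x => f x + k) = fun y => tn L f y + k := funext fun y => ih hL' y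
    simp only [tn, h1]
    have hl := tn_lip L hL' f B hf
    exact T_add_const (cont_of_lip hl) ⟨B, hl⟩ k p.1 _ y

theorem TimeOK.nonneg {m0 : ℝ} (hm : 0 ≤ m0) {L : List (ℝ × ℝ)} (h : TimeOK m0 L) :
    ∀ p ∈ L, 0 ≤ p.1 ∧ 0 ≤ p.2 := by
  induction L generalizing m0 with
  | nil => simp
  | cons a L ih =>
    obtain ⟨h1, h2, h3⟩ := h
    intro p hp
    rcases List.mem_cons.1 hp with rfl | hp
    · exact ⟨hm.trans h1, h2⟩
    · exact ih (hm.trans h1) h3 p hp

/-- the data of the time change on `[0, T]`, `T = ξ'(δ)` -/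
structure QData (c : ℕ → ℝ) (δ : ℝ) (q : ℝ → ℝ) : Prop where
  q0 : q 0 = 0
  inv : ∀ t ∈ Set.Icc 0 (xi1 c δ), xi1 c (q t) = t ∧ 0 ≤ q t ∧ q t ≤ δ
  inv' : ∀ x ∈ Set.Icc 0 δ, q (xi1 c x) = x
  mono : StrictMonoOn q (Set.Icc 0 (xi1 c δ))

theorem incs_qlist {c : ℕ → ℝ} {δ : ℝ} {q : ℝ → ℝ} (hq : QData c δ q) (L : List (ℝ × ℝ))
    (m0 t0 : ℝ) (hm : TimeOK m0 L) (ht0 : 0 ≤ t0) (hsum : t0 + (L.map Prod.snd).sum = xi1 c δ)
    (r : ℝ) :
    incs c (q t0) (qlist q t0 L ++ [(1, r)]) = L ++ [(1, xi1 c r - xi1 c δ)] := by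
  induction L generalizing m0 t0 with
  | nil =>
    simp only [qlist, List.nil_append, incs]
    have ht : t0 = xi1 c δ := by simpa using hsum
    have h1 : t0 ∈ Set.Icc 0 (xi1 c δ) := ⟨ht0, ht.le⟩
    rw [(hq.inv t0 h1).1, ht]
  | cons p L ih =>
    obtain ⟨h1, h2, h3⟩ := hm
    have hnn : 0 ≤ (L.map Prod.snd).sum := by
      apply List.sum_nonneg
      intro x hx
      obtain ⟨r, hr, rfl⟩ := List.mem_map.1 hx
      have : ∀ (L : List (ℝ × ℝ)) (m0 : ℝ), TimeOK m0 L → ∀ p ∈ L, 0 ≤ p.2 := by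
        intro L
        induction L with
        | nil => simp
        | cons a L ih =>
          intro m0 h p hp
          rcases List.mem_cons.1 hp with rfl | hp
          · exact h.2.1
          · exact ih _ h.2.2 p hp
      exact this L _ h3 r hr
    simp only [List.map_cons, List.sum_cons] at hsum
    have hA : t0 ∈ Set.Icc 0 (xi1 c δ) := ⟨ht0, by linarith⟩
    have hB : t0 + p.2 ∈ Set.Icc 0 (xi1 c δ) := ⟨by linarith, by linarith⟩
    simp only [qlist, List.cons_append, incs]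
    rw [ih p.1 (t0 + p.2) h3 (by linarith) (by linarith), (hq.inv _ hA).1, (hq.inv _ hB).1]
    congr 2
    ring

theorem pen_qlist {q : ℝ → ℝ} (L : List (ℝ × ℝ)) (t0 r : ℝ)
    (θ : ℝ → ℝ) :
    pen θ (q t0) (qlist q t0 L ++ [(1, r)]) =
      penT (fun t => θ (q t)) t0 L + (θ r - θ (q (t0 + (L.map Prod.snd).sum))) := by
  induction L generalizing t0 with
  | nil => simp [qlist, pen, penT]
  | cons p L ih =>
    simp only [qlist, List.cons_append, pen, penT, ih (t0 + p.2), List.map_cons, List.sum_cons,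
      add_assoc]

theorem stepOK_qlist {c : ℕ → ℝ} {δ : ℝ} {q : ℝ → ℝ} (hq : QData c δ q) (hδ : δ ≤ 1)
    (L : List (ℝ × ℝ))
    (m0 t0 : ℝ) (hm : TimeOK m0 L) (ht0 : 0 ≤ t0) (hsum : t0 + (L.map Prod.snd).sum = xi1 c δ) :
    StepOK m0 (q t0) (qlist q t0 L ++ [(1, 1)]) := by
  have hnn' : ∀ (L : List (ℝ × ℝ)) (m0 : ℝ), TimeOK m0 L → 0 ≤ (L.map Prod.snd).sum := by
    intro L
    induction L with
    | nil => simp
    | cons a L ih =>
      intro m0 h
      simp only [List.map_cons, List.sum_cons]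
      have := ih _ h.2.2
      linarith [h.2.1]
  induction L generalizing m0 t0 with
  | nil =>
    simp only [qlist, List.nil_append, StepOK]
    have ht : t0 = xi1 c δ := by simpa using hsum
    have h1 : t0 ∈ Set.Icc 0 (xi1 c δ) := ⟨ht0, ht.le⟩
    exact ⟨hm, (hq.inv t0 h1).2.2.trans hδ, by simp⟩
  | cons p L ih =>
    obtain ⟨h1, h2, h3⟩ := hm
    have hnn := hnn' L _ h3
    simp only [List.map_cons, List.sum_cons] at hsum
    have hA : t0 ∈ Set.Icc 0 (xi1 c δ) := ⟨ht0, by linarith⟩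
    have hB : t0 + p.2 ∈ Set.Icc 0 (xi1 c δ) := ⟨by linarith, by linarith⟩
    simp only [qlist, List.cons_append, StepOK]
    exact ⟨h1, hq.mono.monotoneOn hA hB (by linarith),
      ih p.1 (t0 + p.2) h3 (by linarith) (by linarith)⟩

/-- the Parisi functional in the time variable -/
theorem Par_eq {c : ℕ → ℝ} (hc : Adm c) {δ : ℝ} (hδ0 : 0 ≤ δ) (hδ : δ ≤ 1) {q : ℝ → ℝ}
    (hq : QData c δ q)
    (L : List (ℝ × ℝ)) (hm : TimeOK 0 L) (hsum : (L.map Prod.snd).sum = xi1 c δ) :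
    Par c (qlist q 0 L ++ [(1, 1)]) =
      tn L lc 0 - penT (fun t => th c (q t)) 0 L / 2 +
        (Real.log 2 + (xi1 c 1 - xi1 c δ) / 2 - (th c 1 - th c δ) / 2) := by
  unfold Par
  have h1 : incs c 0 (qlist q 0 L ++ [(1, 1)]) = L ++ [(1, xi1 c 1 - xi1 c δ)] := by
    have := incs_qlist hq L 0 0 hm le_rfl (by simpa using hsum) 1
    rwa [hq.q0] at this
  have h2 : pen (th c) 0 (qlist q 0 L ++ [(1, 1)]) =
      penT (fun t => th c (q t)) 0 L + (th c 1 - th c δ) := by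
    have := pen_qlist (q := q) L 0 1 (th c)
    rw [hq.q0] at this
    rw [this, zero_add, hsum, hq.inv' δ ⟨hδ0, le_rfl⟩]
  rw [h1, h2, tn_append]
  have hd : 0 ≤ xi1 c 1 - xi1 c δ := sub_nonneg.2 (hc.xi1_mono hδ0 hδ le_rfl)
  have h3 : T (1, xi1 c 1 - xi1 c δ).1 (Real.sqrt (1, xi1 c 1 - xi1 c δ).2)
      (fun y => Real.log (2 * Real.cosh y)) =
      fun y => lc y + (Real.log 2 + (xi1 c 1 - xi1 c δ) / 2) := by
    funext y
    rw [T_one_log_cosh _ hd, Real.log_mul two_ne_zero (Real.cosh_pos y).ne']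
    unfold lc; ring
  rw [h3, tn_add_const L (fun p hp => (hm.nonneg le_rfl p hp).1) lc 1 lc_lip]
  ring

end Pool.Agent.OS
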