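import Pool.Agent.LibMP0f946f.Base

/-! TASK DIFFPT: a point at which a coordinatewise convex function is differentiable in every coordinate.

Paper proof.  `κ β = ∑' p, M p * (β p - b p)²` with `M p = (2 L p + 1... )/ r p` chosen such that `M p * r p > L p` and
`∑ M p * r p ^ 2 < ∞` (e.g. `M p = (L p + e p) / r p` with `e p > 0`, `∑ e p * r p < ∞`, for instance
`e p = 1 / ((p+1)^2 (1 + r p))`; `M p = 0` if `r p = 0`).  The box is compact (product topology), `Φ` and `κ` are
continuous on it (`hlip`, summability), so `Φ - κ` has a maximum `β`.  Comparing with `update β p (b p)` shows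
`|β p - b p| < r p` when `r p > 0`.  Then `t ↦ Φ (update β p t)` is convex near `β p` and lies below the smooth
function `Φ β - κ β + κ (update β p t)` touching it at `β p`, hence is differentiable there. -/

set_option autoImplicit false
open Real Filter Topology

namespace Pool.Agent.OS

private lemma hasDerivAt_of_quad (f : ℝ → ℝ) (x d M δ : ℝ) (hδ : 0 < δ)
    (h : ∀ y, |y - x| < δ → |f y - f x - d * (y - x)| ≤ M * (y - x) ^ 2) : HasDerivAt f d x := by
  rw [hasDerivAt_iff_isLittleO]
  have h1 : (fun y => f y - f x - (y - x) • d) =O[𝓝 x] fun y => (y - x) ^ 2 := by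
    refine Asymptotics.IsBigO.of_bound M ?_
    have : ∀ᶠ y in 𝓝 x, |y - x| < δ := by
      have := Metric.ball_mem_nhds x hδ
      filter_upwards [this] with y hy
      simpa [Real.dist_eq] using hy
    filter_upwards [this] with y hy
    have := h y hy
    rw [Real.norm_eq_abs, Real.norm_eq_abs, abs_of_nonneg (sq_nonneg (y - x)), smul_eq_mul,
      mul_comm (y - x) d]
    exact this
  have h2 : (fun y => (y - x) ^ 2) =o[𝓝 x] fun y => y - x := by
    have h3 : (fun y : ℝ => (y - x) ^ 2) = fun y => (y - x) * (y - x) := by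
      funext y; ring
    rw [h3]
    have h4 : (fun y : ℝ => y - x) =o[𝓝 x] fun _ => (1 : ℝ) := by
      rw [Asymptotics.isLittleO_one_iff]
      have : Tendsto (fun y : ℝ => y - x) (𝓝 x) (𝓝 (x - x)) := by
        exact (continuous_id.sub continuous_const).tendsto x
      simpa using this
    have := h4.mul_isBigO (Asymptotics.isBigO_refl (fun y : ℝ => y - x) (𝓝 x))
    simpa using this
  exact h1.trans_isLittleO h2

private lemma tsum_update_sub (w : ℕ → ℝ → ℝ) (β : ℕ → ℝ) (p : ℕ) (t : ℝ)
    (hs : Summable fun q => w q (β q)) :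
    (Summable fun q => w q (Function.update β p t q)) ∧
    ∑' q, w q (Function.update β p t q) = ∑' q, w q (β q) + (w p t - w p (β p)) := by
  have h1 : (fun q => w q (Function.update β p t q)) =
      fun q => w q (β q) + (if q = p then w p t - w p (β p) else 0) := by
    funext q
    by_cases hq : q = p
    · subst hq; simp
    · simp [Function.update_of_ne hq, hq]
  have h2 : HasSum (fun q => if q = p then w p t - w p (β p) else 0) (w p t - w p (β p)) :=
    hasSum_ite_eq p _
  have h3 := hs.hasSum.add h2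
  rw [h1]
  exact ⟨h3.summable, h3.tsum_eq⟩

theorem exists_diff_point (Φ : (ℕ → ℝ) → ℝ) (b r L : ℕ → ℝ) (hr : ∀ p, 0 ≤ r p)
    (hL : ∀ p, 0 ≤ L p) (hLr : Summable (fun p => L p * r p))
    (hlip : ∀ β β' : ℕ → ℝ, (∀ p, |β p - b p| ≤ r p) → (∀ p, |β' p - b p| ≤ r p) →
      |Φ β - Φ β'| ≤ ∑' p, L p * |β p - β' p|)
    (hconv : ∀ β : ℕ → ℝ, (∀ p, |β p - b p| ≤ r p) → ∀ p,
      ConvexOn ℝ (Set.Icc (b p - r p) (b p + r p)) (fun t => Φ (Function.update β p t))) :
    ∃ β : ℕ → ℝ, (∀ p, |β p - b p| ≤ r p) ∧ ∀ p, 0 < r p →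
      |β p - b p| < r p ∧ ∃ d, HasDerivAt (fun t => Φ (Function.update β p t)) d (β p) := by
  classical
  set e : ℕ → ℝ := fun p => 1 / (((p:ℝ) + 1) ^ 2 * (1 + r p)) with he
  have hepos : ∀ p, 0 < e p := fun p => by
    have := hr p
    simp only [he]; positivity
  set M : ℕ → ℝ := fun p => (L p + e p) / r p with hM
  have hMnn : ∀ p, 0 ≤ M p := fun p => by
    have h1 := hL p; have h2 := hr p; have h3 := hepos p
    simp only [hM]; positivity
  have hMr2 : ∀ p, M p * r p ^ 2 = (L p + e p) * r p := by
    intro p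
    by_cases h0 : r p = 0
    · simp [h0]
    · simp only [hM]; field_simp
  have her : Summable (fun p => e p * r p) := by
    have h1 : Summable (fun p : ℕ => 1 / ((p:ℝ) + 1) ^ 2) := by
      have := (summable_nat_add_iff 1).mpr (Real.summable_one_div_nat_pow.mpr (by norm_num : 1 < 2))
      simpa using this
    refine Summable.of_nonneg_of_le (fun p => mul_nonneg (hepos p).le (hr p)) (fun p => ?_) h1
    have h2 := hr p
    simp only [he]
    rw [div_mul_eq_mul_div, one_mul, div_le_div_iff₀ (by positivity) (by positivity)]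
    nlinarith [sq_nonneg ((p:ℝ) + 1), mul_nonneg (sq_nonneg ((p:ℝ)+1)) h2]
  have hMr : Summable (fun p => M p * r p ^ 2) := by
    have : (fun p => M p * r p ^ 2) = fun p => L p * r p + e p * r p := by
      funext p; rw [hMr2]; ring
    rw [this]; exact hLr.add her
  -- the box
  set K : Set (ℕ → ℝ) := Set.pi Set.univ (fun p => Set.Icc (b p - r p) (b p + r p)) with hK
  have hKmem : ∀ β : ℕ → ℝ, β ∈ K ↔ ∀ p, |β p - b p| ≤ r p := by
    intro β
    simp only [hK, Set.mem_univ_pi, Set.mem_Icc, abs_le]
    constructor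
    · intro h p; have := h p; constructor <;> linarith
    · intro h p; have := h p; constructor <;> linarith
  have hKc : IsCompact K := isCompact_univ_pi fun p => isCompact_Icc
  have hKne : K.Nonempty := ⟨b, by rw [hKmem]; intro p; simpa using hr p⟩
  -- continuity of Φ
  have hΦ : ContinuousOn Φ K := by
    intro β0 hβ0
    have hg : ContinuousOn (fun β : ℕ → ℝ => ∑' p, L p * |β p - β0 p|) K := by
      refine continuousOn_tsum (u := fun p => 2 * (L p * r p)) (fun p => ?_) (hLr.mul_left 2) ?_
      · have : Continuous (fun β : ℕ → ℝ => L p * |β p - β0 p|) := by fun_prop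
        exact this.continuousOn
      · intro p β hβ
        have h1 := (hKmem β).1 hβ p
        have h2 := (hKmem β0).1 hβ0 p
        rw [Real.norm_eq_abs, abs_mul, abs_of_nonneg (hL p), abs_abs]
        have h3 : |β p - β0 p| ≤ 2 * r p := by
          rw [abs_le] at *; constructor <;> linarith
        nlinarith [hL p]
    have h0 : Tendsto (fun β : ℕ → ℝ => ∑' p, L p * |β p - β0 p|) (𝓝[K] β0) (𝓝 0) := by
      have := hg β0 hβ0
      simpa [ContinuousWithinAt] using this
    rw [ContinuousWithinAt, tendsto_iff_dist_tendsto_zero]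
    refine squeeze_zero' (Eventually.of_forall fun β => dist_nonneg) ?_ h0
    filter_upwards [self_mem_nhdsWithin] with β hβ
    rw [Real.dist_eq]
    exact hlip β β0 ((hKmem β).1 hβ) ((hKmem β0).1 hβ0)
  set κ : (ℕ → ℝ) → ℝ := fun β => ∑' p, M p * (β p - b p) ^ 2 with hκ
  have hκb : ∀ β ∈ K, ∀ p, M p * (β p - b p) ^ 2 ≤ M p * r p ^ 2 := by
    intro β hβ p
    have h1 := (hKmem β).1 hβ p
    have : (β p - b p) ^ 2 ≤ r p ^ 2 := sq_le_sq' (by linarith [(abs_le.1 h1).1]) (abs_le.1 h1).2
    exact mul_le_mul_of_nonneg_left this (hMnn p)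
  have hκs : ∀ β ∈ K, Summable (fun p => M p * (β p - b p) ^ 2) := fun β hβ =>
    Summable.of_nonneg_of_le (fun p => mul_nonneg (hMnn p) (sq_nonneg _)) (hκb β hβ) hMr
  have hκc : ContinuousOn κ K := by
    refine continuousOn_tsum (u := fun p => M p * r p ^ 2) (fun p => ?_) hMr ?_
    · have : Continuous (fun β : ℕ → ℝ => M p * (β p - b p) ^ 2) := by fun_prop
      exact this.continuousOn
    · intro p β hβ
      rw [Real.norm_eq_abs, abs_of_nonneg (mul_nonneg (hMnn p) (sq_nonneg _))]
      exact hκb β hβ p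
  obtain ⟨β, hβK, hmax⟩ := hKc.exists_isMaxOn hKne (hΦ.sub hκc)
  have hβb := (hKmem β).1 hβK
  refine ⟨β, hβb, fun p hp => ?_⟩
  have hup : ∀ t, t ∈ Set.Icc (b p - r p) (b p + r p) → Function.update β p t ∈ K := by
    intro t ht
    rw [hKmem]
    intro q
    by_cases hq : q = p
    · subst hq
      rw [Function.update_self, abs_le]
      constructor <;> linarith [ht.1, ht.2]
    · rw [Function.update_of_ne hq]; exact hβb q
  have hkey : ∀ t, t ∈ Set.Icc (b p - r p) (b p + r p) →
      Φ (Function.update β p t) ≤ Φ β + M p * ((t - b p) ^ 2 - (β p - b p) ^ 2) := by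
    intro t ht
    have h1 : Φ (Function.update β p t) - κ (Function.update β p t) ≤ Φ β - κ β := hmax (hup t ht)
    have h2 := (tsum_update_sub (fun q x => M q * (x - b q) ^ 2) β p t (hκs β hβK)).2
    simp only [hκ] at h1
    rw [h2] at h1
    have h3 : M p * ((t - b p) ^ 2 - (β p - b p) ^ 2) =
      M p * (t - b p) ^ 2 - M p * (β p - b p) ^ 2 := by ring
    rw [h3]; linarith
  have hlt : |β p - b p| < r p := by
    rcases lt_or_eq_of_le (hβb p) with h | h
    · exact h
    exfalso
    have hbI : b p ∈ Set.Icc (b p - r p) (b p + r p) := ⟨by linarith, by linarith⟩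
    have h1 := hkey (b p) hbI
    have h2 := hlip β (Function.update β p (b p)) hβb ((hKmem _).1 (hup _ hbI))
    have h3 : ∑' q, L q * |β q - Function.update β p (b p) q| = L p * |β p - b p| := by
      rw [tsum_eq_single p]
      · simp
      · intro q hq; simp [Function.update_of_ne hq]
    rw [h3, h] at h2
    have h4 := (abs_le.1 h2).2
    have h5 : (β p - b p) ^ 2 = r p ^ 2 := by rw [← sq_abs, h]
    rw [h5] at h1
    have h6 := hMr2 p
    have h7 : M p * ((b p - b p) ^ 2 - r p ^ 2) = -(M p * r p ^ 2) := by ring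
    rw [h7, h6] at h1
    have h8 : 0 < e p * r p := mul_pos (hepos p) hp
    nlinarith
  refine ⟨hlt, 2 * M p * (β p - b p), ?_⟩
  have hlt' := abs_lt.1 hlt
  set x := β p with hx
  set d := 2 * M p * (x - b p) with hd
  set f := fun t => Φ (Function.update β p t) with hf
  have hfx : f x = Φ β := by simp only [hf, hx, Function.update_eq_self]
  -- distance to the ends
  set δ := min (x - (b p - r p)) (b p + r p - x) with hδ
  have hδpos : 0 < δ := lt_min (by linarith) (by linarith)
  have hcv := hconv β hβb p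
  have hup2 : ∀ y, |y - x| < δ → f y - f x - d * (y - x) ≤ M p * (y - x) ^ 2 := by
    intro y hy
    have hy' := abs_lt.1 hy
    have hI : y ∈ Set.Icc (b p - r p) (b p + r p) := by
      have h1 := min_le_left (x - (b p - r p)) (b p + r p - x)
      have h2 := min_le_right (x - (b p - r p)) (b p + r p - x)
      constructor <;> linarith
    have h1 := hkey y hI
    rw [← hfx] at h1
    have h2 : M p * ((y - b p) ^ 2 - (x - b p) ^ 2) = d * (y - x) + M p * (y - x) ^ 2 := by
      rw [hd]; ring
    rw [h2] at h1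
    linarith
  refine hasDerivAt_of_quad f x d (M p) δ hδpos fun y hy => ?_
  rw [abs_le]
  refine ⟨?_, hup2 y hy⟩
  -- reflect
  have hy2 : |(2 * x - y) - x| < δ := by
    rw [show (2 * x - y) - x = -(y - x) by ring, abs_neg]; exact hy
  have h1 := hup2 (2 * x - y) hy2
  have hmem : ∀ z, |z - x| < δ → z ∈ Set.Icc (b p - r p) (b p + r p) := by
    intro z hz
    have hz' := abs_lt.1 hz
    have h1 := min_le_left (x - (b p - r p)) (b p + r p - x)
    have h2 := min_le_right (x - (b p - r p)) (b p + r p - x)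
    constructor <;> linarith
  have h2 : f x ≤ (1/2 : ℝ) • f y + (1/2 : ℝ) • f (2 * x - y) := by
    have := hcv.2 (hmem y hy) (hmem _ hy2) (by norm_num : (0:ℝ) ≤ 1/2) (by norm_num : (0:ℝ) ≤ 1/2)
      (by norm_num)
    have h3 : (1/2 : ℝ) • y + (1/2 : ℝ) • (2 * x - y) = x := by
      simp only [smul_eq_mul]; ring
    rw [h3] at this
    exact this
  simp only [smul_eq_mul] at h2
  have h3 : (2 * x - y - x) = -(y - x) := by ring
  rw [h3] at h1
  nlinarith

end Pool.Agent.OS
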