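import Pool.Agent.LibMP0f946f.Base

/-! TASK FAM: one Guerra step preserves families of `C²` functions with bounded derivatives.

`Fam X J G S`: `X θ x` is jointly differentiable in `(θ, x)` with `∂_θ X = J`, `∂_x X = G`, and `∂_x G = S`;
`J, G, S` jointly continuous and bounded.

Paper proof of `Fam.step` (write `y = x + g • (ρ θ • a)`, `w = exp (m X θ y)`, `γ` standard Gaussian in `g`).
`X θ` is Lipschitz with constant `B` in `x` and in `θ`, so `w ≤ exp(C(1+|g|))` locally uniformly in `(θ,x)`;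
all derivatives under the integral sign are justified by domination
(`hasFDerivAt_integral_of_dominated_of_fderiv_le`).
* `∂_x Zt = ∫ m w G`, so `∂_x T = K G`;  `∂_x (K φ) = K[Dφ + m G ⊗ φ] - m (K G) ⊗ (K φ)` for `φ = G`.
* `∂_θ Zt = ∫ m w (J + g ρ' G a)`, and Stein's lemma in `g` (with `d/dg (w G a) = ρ w (S a a + m (G a)²)`) gives
  `∂_θ T = K[J + ρ ρ' (S a a + m (G a)²)]`, bounded.
* joint continuity by dominated convergence; `|K φ| ≤ sup |φ|`.  The case `m = 0` is the same with `w = 1`.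
(Stein's lemma: `∫ g f(g) dγ = ∫ f'(g) dγ`; prove the version needed here or import `Stein.lean`.) -/

set_option autoImplicit false
set_option maxSynthPendingDepth 3
open MeasureTheory ProbabilityTheory Real Filter Topology

namespace Pool.Agent.OS

namespace FamAux

/-! ### exponentially bounded kernels -/

theorem integrable_exp_abs (c : ℝ) : Integrable (fun g : ℝ => Real.exp (c * |g|)) γ := by
  have h1 : Integrable (fun g : ℝ => Real.exp (c * g) + Real.exp (-c * g)) γ :=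
    (integrable_exp_mul_gaussianReal c).add (integrable_exp_mul_gaussianReal (-c))
  refine h1.mono (by fun_prop) (Eventually.of_forall fun g => ?_)
  rw [Real.norm_of_nonneg (Real.exp_nonneg _), Real.norm_of_nonneg (by positivity)]
  rcases abs_cases g with ⟨h, _⟩ | ⟨h, _⟩ <;> rw [h]
  · linarith [Real.exp_pos (-c * g)]
  · have : c * -g = -c * g := by ring
    rw [this]; linarith [Real.exp_pos (c * g)]

theorem expb_mono {C C' : ℝ} (h : C ≤ C') (h0 : 0 ≤ C') (g : ℝ) :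
    C * Real.exp (C * |g|) ≤ C' * Real.exp (C' * |g|) := by
  rcases le_total C 0 with hC | hC
  · have h1 : C * Real.exp (C * |g|) ≤ 0 := mul_nonpos_of_nonpos_of_nonneg hC (Real.exp_nonneg _)
    have h2 : 0 ≤ C' * Real.exp (C' * |g|) := mul_nonneg h0 (Real.exp_nonneg _)
    linarith
  · gcongr

/-- jointly continuous kernels with a locally uniform exponential bound -/
structure EB {P V : Type*} [TopologicalSpace P] [NormedAddCommGroup V] (f : P → ℝ → V) : Prop where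
  cont : Continuous (fun q : P × ℝ => f q.1 q.2)
  bd : ∀ p₀ : P, ∃ C : ℝ, ∀ᶠ p in 𝓝 p₀, ∀ g : ℝ, ‖f p g‖ ≤ C * Real.exp (C * |g|)

section EB
variable {P V W : Type*} [TopologicalSpace P] [NormedAddCommGroup V] [NormedAddCommGroup W]

theorem EB.bd' {f : P → ℝ → V} (h : EB f) (p₀ : P) :
    ∃ C : ℝ, 0 ≤ C ∧ ∀ᶠ p in 𝓝 p₀, ∀ g : ℝ, ‖f p g‖ ≤ C * Real.exp (C * |g|) := by
  obtain ⟨C, hC⟩ := h.bd p₀
  refine ⟨|C|, abs_nonneg _, hC.mono fun p hp g => (hp g).trans ?_⟩
  exact expb_mono (le_abs_self C) (abs_nonneg C) g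

theorem EB.contg {f : P → ℝ → V} (h : EB f) (p : P) : Continuous (f p) :=
  h.cont.comp (Continuous.prodMk_right p)

theorem EB.contp {f : P → ℝ → V} (h : EB f) (g : ℝ) : Continuous (fun p => f p g) :=
  h.cont.comp (Continuous.prodMk_left g)

theorem EB.integrable {f : P → ℝ → V} (h : EB f) (p : P) : Integrable (f p) γ := by
  obtain ⟨C, hC⟩ := h.bd p
  refine ((integrable_exp_abs C).const_mul C).mono' (h.contg p).aestronglyMeasurable
    (Eventually.of_forall fun g => hC.self_of_nhds g)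

theorem EB.comp {Q : Type*} [TopologicalSpace Q] {f : P → ℝ → V} (h : EB f) {φ : Q → P}
    (hφ : Continuous φ) : EB (fun q g => f (φ q) g) := by
  refine ⟨h.cont.comp ((hφ.comp continuous_fst).prodMk continuous_snd), fun q => ?_⟩
  obtain ⟨C, hC⟩ := h.bd (φ q)
  exact ⟨C, (hφ.tendsto q).eventually hC⟩

theorem EB.add {f k : P → ℝ → V} (hf : EB f) (hk : EB k) : EB (fun p g => f p g + k p g) := by
  refine ⟨hf.cont.add hk.cont, fun p₀ => ?_⟩
  obtain ⟨C, h0, hC⟩ := hf.bd' p₀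
  obtain ⟨D, h1, hD⟩ := hk.bd' p₀
  refine ⟨C + D, ?_⟩
  filter_upwards [hC, hD] with p hp hq g
  have e1 : Real.exp (C * |g|) ≤ Real.exp ((C + D) * |g|) := by gcongr; linarith
  have e2 : Real.exp (D * |g|) ≤ Real.exp ((C + D) * |g|) := by gcongr; linarith
  calc ‖f p g + k p g‖ ≤ ‖f p g‖ + ‖k p g‖ := norm_add_le _ _
    _ ≤ C * Real.exp (C * |g|) + D * Real.exp (D * |g|) := add_le_add (hp g) (hq g)
    _ ≤ C * Real.exp ((C + D) * |g|) + D * Real.exp ((C + D) * |g|) := by gcongr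
    _ = (C + D) * Real.exp ((C + D) * |g|) := by ring

theorem EB.smul [NormedSpace ℝ V] {w : P → ℝ → ℝ} {f : P → ℝ → V} (hw : EB w) (hf : EB f) :
    EB (fun p g => w p g • f p g) := by
  refine ⟨hw.cont.smul hf.cont, fun p₀ => ?_⟩
  obtain ⟨C, h0, hC⟩ := hw.bd' p₀
  obtain ⟨D, h1, hD⟩ := hf.bd' p₀
  refine ⟨max (C * D) (C + D), ?_⟩
  filter_upwards [hC, hD] with p hp hq g
  calc ‖w p g • f p g‖ = ‖w p g‖ * ‖f p g‖ := norm_smul _ _
    _ ≤ (C * Real.exp (C * |g|)) * (D * Real.exp (D * |g|)) := by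
        gcongr
        · exact hp g
        · exact hq g
    _ = (C * D) * Real.exp ((C + D) * |g|) := by rw [add_mul, Real.exp_add]; ring
    _ ≤ (max (C * D) (C + D)) * Real.exp ((max (C * D) (C + D)) * |g|) := by
        gcongr
        · exact le_max_left _ _
        · exact le_max_right _ _

theorem EB.mul {w f : P → ℝ → ℝ} (hw : EB w) (hf : EB f) : EB (fun p g => w p g * f p g) :=
  hw.smul hf

theorem EB.of_bdd {f : P → ℝ → V} (hc : Continuous (fun q : P × ℝ => f q.1 q.2)) {B : ℝ}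
    (hB : ∀ p g, ‖f p g‖ ≤ B) : EB f := by
  refine ⟨hc, fun p₀ => ⟨|B|, Eventually.of_forall fun p g => ?_⟩⟩
  calc ‖f p g‖ ≤ |B| := (hB p g).trans (le_abs_self B)
    _ = |B| * 1 := by ring
    _ ≤ |B| * Real.exp (|B| * |g|) := by
        gcongr; exact Real.one_le_exp (by positivity)

/-- kernels depending on the parameter only -/
theorem EB.of_param {f : P → V} (hc : Continuous f) : EB (fun p (_ : ℝ) => f p) := by
  refine ⟨hc.comp continuous_fst, fun p₀ => ⟨‖f p₀‖ + 1, ?_⟩⟩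
  have h1 : ∀ᶠ p in 𝓝 p₀, ‖f p‖ < ‖f p₀‖ + 1 :=
    (hc.norm.tendsto p₀).eventually (eventually_lt_nhds (by linarith))
  filter_upwards [h1] with p hp g
  have h2 : 0 ≤ ‖f p₀‖ + 1 := by positivity
  calc ‖f p‖ ≤ (‖f p₀‖ + 1) * 1 := by linarith
    _ ≤ (‖f p₀‖ + 1) * Real.exp ((‖f p₀‖ + 1) * |g|) := by
        gcongr; exact Real.one_le_exp (by positivity)

theorem EB.idg : EB (fun (_ : P) (g : ℝ) => g) := by
  refine ⟨continuous_snd, fun p₀ => ⟨1, Eventually.of_forall fun p g => ?_⟩⟩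
  rw [one_mul, one_mul, Real.norm_eq_abs]
  linarith [Real.add_one_le_exp |g|]

theorem EB.of_growth {f : P → ℝ → ℝ} (hc : Continuous (fun q : P × ℝ => f q.1 q.2))
    (hb : ∀ p₀, ∃ D : ℝ, ∀ᶠ p in 𝓝 p₀, ∀ g : ℝ, |f p g| ≤ D * (1 + |g|)) : EB f := by
  refine ⟨hc, fun p₀ => ?_⟩
  obtain ⟨D, hD⟩ := hb p₀
  refine ⟨max |D| 1, hD.mono fun p hp g => ?_⟩
  have h1 : (1 : ℝ) + |g| ≤ Real.exp |g| := by linarith [Real.add_one_le_exp |g|]
  calc ‖f p g‖ ≤ D * (1 + |g|) := hp g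
    _ ≤ |D| * (1 + |g|) := by gcongr; exact le_abs_self D
    _ ≤ |D| * Real.exp |g| := by gcongr
    _ ≤ max |D| 1 * Real.exp (max |D| 1 * |g|) := by
        gcongr
        · exact le_max_left _ _
        · have : (1 : ℝ) * |g| ≤ max |D| 1 * |g| := by gcongr; exact le_max_right _ _
          linarith

theorem EB.exp_of_growth {f : P → ℝ → ℝ} (hc : Continuous (fun q : P × ℝ => f q.1 q.2))
    (hb : ∀ p₀, ∃ D : ℝ, ∀ᶠ p in 𝓝 p₀, ∀ g : ℝ, |f p g| ≤ D * (1 + |g|)) (m : ℝ) :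
    EB (fun p g => Real.exp (m * f p g)) := by
  refine ⟨Real.continuous_exp.comp (continuous_const.mul hc), fun p₀ => ?_⟩
  obtain ⟨D, hD⟩ := hb p₀
  refine ⟨max (Real.exp (|m| * |D|)) (|m| * |D|), hD.mono fun p hp g => ?_⟩
  have h1 : m * f p g ≤ |m| * |D| + |m| * |D| * |g| := by
    calc m * f p g ≤ |m * f p g| := le_abs_self _
      _ = |m| * |f p g| := abs_mul _ _
      _ ≤ |m| * (D * (1 + |g|)) := by gcongr; exact hp g
      _ ≤ |m| * (|D| * (1 + |g|)) := by gcongr; exact le_abs_self D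
      _ = |m| * |D| + |m| * |D| * |g| := by ring
  rw [Real.norm_of_nonneg (Real.exp_nonneg _)]
  calc Real.exp (m * f p g) ≤ Real.exp (|m| * |D| + |m| * |D| * |g|) := Real.exp_le_exp.2 h1
    _ = Real.exp (|m| * |D|) * Real.exp (|m| * |D| * |g|) := Real.exp_add _ _
    _ ≤ _ := by
        gcongr
        · exact le_max_left _ _
        · exact le_max_right _ _

theorem EB.continuous_integral [NormedSpace ℝ V] {f : P → ℝ → V} [FirstCountableTopology P]
    (h : EB f) : Continuous (fun p => ∫ g, f p g ∂γ) := by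
  rw [continuous_iff_continuousAt]
  intro p₀
  obtain ⟨C, hC⟩ := h.bd p₀
  exact continuousAt_of_dominated
    (Eventually.of_forall fun p => (h.contg p).aestronglyMeasurable)
    (hC.mono fun p hp => Eventually.of_forall hp)
    ((integrable_exp_abs C).const_mul C)
    (Eventually.of_forall fun g => (h.contp g).continuousAt)

end EB

theorem EB.hasFDerivAt {P V : Type*} [NormedAddCommGroup P] [NormedSpace ℝ P]
    [NormedAddCommGroup V] [NormedSpace ℝ V] {f : P → ℝ → V} {f' : P → ℝ → P →L[ℝ] V}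
    (hf : EB f) (hf' : EB f') (hd : ∀ p g, HasFDerivAt (fun p => f p g) (f' p g) p) (p : P) :
    HasFDerivAt (fun p => ∫ g, f p g ∂γ) (∫ g, f' p g ∂γ) p := by
  obtain ⟨C, hC⟩ := hf'.bd p
  exact hasFDerivAt_integral_of_dominated_of_fderiv_le hC
    (Eventually.of_forall fun p => (hf.contg p).aestronglyMeasurable) (hf.integrable p)
    (hf'.contg p).aestronglyMeasurable (Eventually.of_forall fun g q hq => hq g)
    ((integrable_exp_abs C).const_mul C) (Eventually.of_forall fun g q _ => hd q g)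

/-! ### Stein's lemma on the line -/

theorem hasDerivAt_pdf (x : ℝ) :
    HasDerivAt (gaussianPDFReal 0 1) (-x * gaussianPDFReal 0 1 x) x := by
  have h1 : HasDerivAt (fun y : ℝ => -(y - 0) ^ 2 / (2 * ((1 : NNReal) : ℝ))) (-x) x := by
    have := ((hasDerivAt_id x).sub_const (0:ℝ)).pow 2 |>.neg.div_const (2 * ((1 : NNReal) : ℝ))
    refine this.congr_deriv ?_
    simp
    ring
  have h2 := (h1.exp).const_mul ((Real.sqrt (2 * π * ((1 : NNReal) : ℝ)))⁻¹)
  refine HasDerivAt.congr_deriv (f := gaussianPDFReal 0 1) ?_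
    (show (Real.sqrt (2 * π * ((1 : NNReal) : ℝ)))⁻¹ *
      (Real.exp (-(x - 0) ^ 2 / (2 * ((1 : NNReal) : ℝ))) * (-x)) = _ from ?_)
  · exact h2
  · rw [gaussianPDFReal]; ring

theorem integrable_pdf_mul {f : ℝ → ℝ} (h : Integrable f γ) :
    Integrable (fun x => gaussianPDFReal 0 1 x * f x) := by
  rw [γ, gaussianReal_of_var_ne_zero 0 one_ne_zero] at h
  rw [integrable_withDensity_iff_integrable_smul₀' (measurable_gaussianPDF 0 1).aemeasurable
    (Eventually.of_forall fun x => gaussianPDF_lt_top)] at h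
  simpa [toReal_gaussianPDF] using h

theorem stein {u u' : ℝ → ℝ} (hu : ∀ g, HasDerivAt u (u' g) g) (h1 : Integrable u γ)
    (h2 : Integrable u' γ) (h3 : Integrable (fun g => g * u g) γ) :
    ∫ g, g * u g ∂γ = ∫ g, u' g ∂γ := by
  have i1 := integrable_pdf_mul h1
  have i2 := integrable_pdf_mul h2
  have i3 := integrable_pdf_mul h3
  have key := integral_mul_deriv_eq_deriv_mul_of_integrable (u := u) (v := gaussianPDFReal 0 1)
    (u' := u') (v' := fun x => -x * gaussianPDFReal 0 1 x) (fun x _ => hu x)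
    (fun x _ => hasDerivAt_pdf x)
    (by refine i3.neg.congr (Eventually.of_forall fun x => ?_); simp; ring)
    (by refine i2.congr (Eventually.of_forall fun x => ?_); simp; ring)
    (by refine i1.congr (Eventually.of_forall fun x => ?_); simp; ring)
  rw [integral_gaussianReal_eq_integral_smul one_ne_zero,
    integral_gaussianReal_eq_integral_smul one_ne_zero]
  calc ∫ x, gaussianPDFReal 0 1 x • (x * u x)
      = - ∫ x, u x * (-x * gaussianPDFReal 0 1 x) := by
        rw [← integral_neg]; congr 1; ext x; simp; ring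
    _ = ∫ x, u' x * gaussianPDFReal 0 1 x := by rw [key, neg_neg]
    _ = _ := by congr 1; ext x; simp; ring

end FamAux

open FamAux

variable {E : Type*} [NormedAddCommGroup E] [NormedSpace ℝ E]

structure Fam (X J : ℝ → E → ℝ) (G : ℝ → E → (E →L[ℝ] ℝ)) (S : ℝ → E → (E →L[ℝ] E →L[ℝ] ℝ)) :
    Prop where
  contJ : Continuous (fun p : ℝ × E => J p.1 p.2)
  contG : Continuous (fun p : ℝ × E => G p.1 p.2)
  contS : Continuous (fun p : ℝ × E => S p.1 p.2)
  bound : ∃ B, ∀ θ x, |J θ x| ≤ B ∧ ‖G θ x‖ ≤ B ∧ ‖S θ x‖ ≤ B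
  derivX : ∀ θ x, HasFDerivAt (fun p : ℝ × E => X p.1 p.2)
    (J θ x • ContinuousLinearMap.fst ℝ ℝ E + (G θ x).comp (ContinuousLinearMap.snd ℝ ℝ E)) (θ, x)
  derivG : ∀ θ x, HasFDerivAt (G θ) (S θ x) x

section step
variable {X J : ℝ → E → ℝ} {G : ℝ → E → (E →L[ℝ] ℝ)} {S : ℝ → E → (E →L[ℝ] E →L[ℝ] ℝ)}

theorem Fam.contX (h : Fam X J G S) : Continuous (fun p : ℝ × E => X p.1 p.2) :=
  continuous_iff_continuousAt.2 fun p => (h.derivX p.1 p.2).continuousAt

theorem Fam.lip (h : Fam X J G S) :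
    ∃ C : ℝ, 0 ≤ C ∧ ∀ p q : ℝ × E, |X q.1 q.2 - X p.1 p.2| ≤ C * ‖q - p‖ := by
  obtain ⟨B, hB⟩ := h.bound
  have hB0 : 0 ≤ B := (abs_nonneg _).trans (hB 0 0).1
  refine ⟨2 * B, by positivity, fun p q => ?_⟩
  have := Convex.norm_image_sub_le_of_norm_hasFDerivWithin_le (𝕜 := ℝ)
    (f := fun p : ℝ × E => X p.1 p.2)
    (f' := fun p => J p.1 p.2 • ContinuousLinearMap.fst ℝ ℝ E
      + (G p.1 p.2).comp (ContinuousLinearMap.snd ℝ ℝ E)) (C := 2 * B)
    (s := Set.univ) (x := p) (y := q) (fun x _ => (h.derivX x.1 x.2).hasFDerivWithinAt)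
    (fun x _ => ?_) convex_univ (Set.mem_univ _) (Set.mem_univ _)
  · exact this
  · refine (norm_add_le _ _).trans ?_
    have h1 : ‖J x.1 x.2 • ContinuousLinearMap.fst ℝ ℝ E‖ ≤ B := by
      rw [norm_smul]
      calc ‖J x.1 x.2‖ * ‖ContinuousLinearMap.fst ℝ ℝ E‖ ≤ B * 1 := by
            gcongr
            · exact (hB _ _).1
            · exact ContinuousLinearMap.norm_fst_le ℝ ℝ E
        _ = B := mul_one B
    have h2 : ‖(G x.1 x.2).comp (ContinuousLinearMap.snd ℝ ℝ E)‖ ≤ B := by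
      refine (ContinuousLinearMap.opNorm_comp_le _ _).trans ?_
      calc ‖G x.1 x.2‖ * ‖ContinuousLinearMap.snd ℝ ℝ E‖ ≤ B * 1 := by
            gcongr
            · exact (hB _ _).2.1
            · exact ContinuousLinearMap.norm_snd_le ℝ ℝ E
        _ = B := mul_one B
    linarith

theorem Fam.derivx (h : Fam X J G S) (θ : ℝ) (x : E) : HasFDerivAt (X θ) (G θ x) x := by
  have h1 := (h.derivX θ x).comp x (hasFDerivAt_prodMk_right θ x)
  refine (h1.congr_fderiv ?_)
  ext v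
  simp

variable {ρ ρ' : ℝ → ℝ}

/-- the shifted point -/
def ypt (ρ : ℝ → ℝ) (a : E) (p : ℝ × E) (g : ℝ) : E := p.2 + g • (ρ p.1 • a)

theorem ypt_cont (hρ : Continuous ρ) (a : E) :
    Continuous (fun q : (ℝ × E) × ℝ => ypt ρ a q.1 q.2) := by
  unfold ypt
  fun_prop

theorem pair_cont (hρ : Continuous ρ) (a : E) :
    Continuous (fun q : (ℝ × E) × ℝ => (q.1.1, ypt ρ a q.1 q.2)) :=
  (continuous_fst.comp continuous_fst).prodMk (ypt_cont hρ a)

theorem Fam.growth (h : Fam X J G S) (a : E) {M : ℝ} (hM : ∀ θ, |ρ θ| ≤ M)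
    (p₀ : ℝ × E) : ∃ D : ℝ, ∀ᶠ p in 𝓝 p₀, ∀ g : ℝ, |X p.1 (ypt ρ a p g)| ≤ D * (1 + |g|) := by
  obtain ⟨C, hC0, hC⟩ := h.lip
  have hM0 : 0 ≤ M := (abs_nonneg _).trans (hM 0)
  have h1 : ∀ᶠ p in 𝓝 p₀, ‖p - p₀‖ < 1 := by
    have : Tendsto (fun p => ‖p - p₀‖) (𝓝 p₀) (𝓝 0) := by
      have := ((continuous_id.sub (continuous_const (y := p₀))).norm).tendsto p₀
      simpa using this
    exact this.eventually (eventually_lt_nhds one_pos)
  refine ⟨|X p₀.1 p₀.2| + C * (1 + M * ‖a‖), h1.mono fun p hp g => ?_⟩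
  have h2 := hC p₀ (p.1, ypt ρ a p g)
  have h3 : ‖((p.1, ypt ρ a p g) : ℝ × E) - p₀‖ ≤ 1 + M * ‖a‖ * |g| := by
    have e : ((p.1, ypt ρ a p g) : ℝ × E) - p₀ = (p - p₀) + (0, g • (ρ p.1 • a)) := by
      ext
      · simp
      · simp [ypt]; abel
    rw [e]
    refine (norm_add_le _ _).trans ?_
    have : ‖((0 : ℝ), g • (ρ p.1 • a))‖ ≤ M * ‖a‖ * |g| := by
      rw [Prod.norm_mk, norm_zero, max_eq_right (norm_nonneg _), norm_smul, norm_smul]
      calc ‖g‖ * (‖ρ p.1‖ * ‖a‖) ≤ |g| * (M * ‖a‖) := by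
            gcongr
            · exact le_of_eq (Real.norm_eq_abs g)
            · exact hM _
        _ = M * ‖a‖ * |g| := by ring
    linarith
  have h4 : |X p.1 (ypt ρ a p g)| ≤ |X p₀.1 p₀.2| + C * ‖((p.1, ypt ρ a p g) : ℝ × E) - p₀‖ := by
    have := abs_sub_abs_le_abs_sub (X p.1 (ypt ρ a p g)) (X p₀.1 p₀.2)
    simp only at h2
    linarith
  calc |X p.1 (ypt ρ a p g)| ≤ |X p₀.1 p₀.2| + C * (1 + M * ‖a‖ * |g|) := by
        refine h4.trans ?_; gcongr
    _ ≤ (|X p₀.1 p₀.2| + C * (1 + M * ‖a‖)) * (1 + |g|) := by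
        have : 0 ≤ |X p₀.1 p₀.2| * |g| := by positivity
        have : 0 ≤ C * |g| := by positivity
        have : 0 ≤ C * (M * ‖a‖) := by positivity
        nlinarith [abs_nonneg g]

/-- continuity and boundedness of a kernel obtained from a jointly continuous bounded function -/
theorem EB.of_pull {V : Type*} [NormedAddCommGroup V] {φ : ℝ → E → V}
    (hc : Continuous (fun p : ℝ × E => φ p.1 p.2)) {B : ℝ} (hB : ∀ θ x, ‖φ θ x‖ ≤ B)
    (hρ : Continuous ρ) (a : E) : EB (fun (p : ℝ × E) g => φ p.1 (ypt ρ a p g)) :=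
  EB.of_bdd (hc.comp (pair_cont hρ a)) (fun _ _ => hB _ _)

theorem Fam.deriv_pull (h : Fam X J G S) (hρ : ∀ θ, HasDerivAt ρ (ρ' θ) θ) (a : E) (p : ℝ × E)
    (g : ℝ) : HasFDerivAt (fun p : ℝ × E => X p.1 (ypt ρ a p g))
      ((J p.1 (ypt ρ a p g) + g * (ρ' p.1 * G p.1 (ypt ρ a p g) a)) • ContinuousLinearMap.fst ℝ ℝ E
        + (G p.1 (ypt ρ a p g)).comp (ContinuousLinearMap.snd ℝ ℝ E)) p := by
  have h1 : HasFDerivAt (fun p : ℝ × E => ρ p.1) (ρ' p.1 • ContinuousLinearMap.fst ℝ ℝ E) p :=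
    (hρ p.1).comp_hasFDerivAt p hasFDerivAt_fst
  have h2 : HasFDerivAt (fun p : ℝ × E => ypt ρ a p g) (ContinuousLinearMap.snd ℝ ℝ E
      + g • (ρ' p.1 • ContinuousLinearMap.fst ℝ ℝ E).smulRight a) p :=
    hasFDerivAt_snd.add ((h1.smul_const a).const_smul g)
  have h3 := (h.derivX p.1 (ypt ρ a p g)).comp p (hasFDerivAt_fst.prodMk h2)
  refine h3.congr_fderiv ?_
  ext v
  · simp
  · simp

theorem wavg_norm_le {V : Type*} [NormedAddCommGroup V] [NormedSpace ℝ V] {w : ℝ → ℝ} {φ : ℝ → V}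
    {C : ℝ} (hw0 : ∀ g, 0 ≤ w g) (hwi : Integrable w γ) (hpos : 0 < ∫ g, w g ∂γ)
    (hφ : ∀ g, ‖φ g‖ ≤ C) : ‖(∫ g, w g ∂γ)⁻¹ • ∫ g, w g • φ g ∂γ‖ ≤ C := by
  have h1 : ‖∫ g, w g • φ g ∂γ‖ ≤ ∫ g, C * w g ∂γ := by
    refine norm_integral_le_of_norm_le (hwi.const_mul C) (Eventually.of_forall fun g => ?_)
    rw [norm_smul, Real.norm_of_nonneg (hw0 g), mul_comm]
    exact mul_le_mul_of_nonneg_right (hφ g) (hw0 g)
  rw [integral_const_mul] at h1
  rw [norm_smul, norm_inv, Real.norm_of_nonneg hpos.le, inv_mul_le_iff₀ hpos]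
  linarith

theorem Fam.wEB (h : Fam X J G S) (m : ℝ) (a : E) (hρ : Continuous ρ) {M : ℝ}
    (hM : ∀ θ, |ρ θ| ≤ M) : EB (fun (p : ℝ × E) g => Real.exp (m * X p.1 (ypt ρ a p g))) :=
  EB.exp_of_growth (h.contX.comp (pair_cont hρ a)) (h.growth a hM) m

theorem Fam.contK (h : Fam X J G S) (m : ℝ) (a : E) (hρ : Continuous ρ) {M : ℝ}
    (hM : ∀ θ, |ρ θ| ≤ M) {V : Type*} [NormedAddCommGroup V] [NormedSpace ℝ V] {φ : ℝ → E → V}
    {C : ℝ} (hφ : Continuous (fun p : ℝ × E => φ p.1 p.2)) (hC : ∀ θ x, ‖φ θ x‖ ≤ C) :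
    Continuous (fun p : ℝ × E => K m (ρ p.1 • a) (X p.1) (φ p.1) p.2) := by
  have hw := h.wEB m a hρ hM
  have h1 : EB (fun (p : ℝ × E) g => φ p.1 (ypt ρ a p g)) := EB.of_pull hφ hC hρ a
  exact (hw.continuous_integral.inv₀ fun p => (integral_exp_pos (hw.integrable p)).ne').smul
    (hw.smul h1).continuous_integral

theorem Fam.bdK (h : Fam X J G S) (m : ℝ) (a : E) (hρ : Continuous ρ) {M : ℝ}
    (hM : ∀ θ, |ρ θ| ≤ M) {V : Type*} [NormedAddCommGroup V] [NormedSpace ℝ V] {φ : ℝ → E → V}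
    {C : ℝ} (hC : ∀ θ x, ‖φ θ x‖ ≤ C) (θ : ℝ) (x : E) :
    ‖K m (ρ θ • a) (X θ) (φ θ) x‖ ≤ C := by
  have hw := h.wEB m a hρ hM
  exact wavg_norm_le (w := fun g => Real.exp (m * X θ (ypt ρ a (θ, x) g)))
    (φ := fun g => φ θ (ypt ρ a (θ, x) g)) (fun g => Real.exp_nonneg _)
    (hw.integrable (θ, x)) (integral_exp_pos (hw.integrable (θ, x))) (fun g => hC _ _)

theorem Fam.step {X J : ℝ → E → ℝ} {G : ℝ → E → (E →L[ℝ] ℝ)} {S : ℝ → E → (E →L[ℝ] E →L[ℝ] ℝ)}
    (h : Fam X J G S) (m : ℝ) (a : E) (ρ ρ' : ℝ → ℝ) (hρ : ∀ θ, HasDerivAt ρ (ρ' θ) θ)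
    (hρc : Continuous ρ') (hb : ∃ B, ∀ θ, |ρ θ| ≤ B ∧ |ρ' θ| ≤ B) :
    Fam (fun θ => T m (ρ θ • a) (X θ))
      (fun θ => K m (ρ θ • a) (X θ)
        (fun x => J θ x + ρ θ * ρ' θ * (S θ x a a + m * (G θ x a) ^ 2)))
      (fun θ => K m (ρ θ • a) (X θ) (G θ))
      (fun θ x => K m (ρ θ • a) (X θ) (fun y => S θ y + m • (G θ y).smulRight (G θ y)) x
        - m • (K m (ρ θ • a) (X θ) (G θ) x).smulRight (K m (ρ θ • a) (X θ) (G θ) x)) := by
  obtain ⟨B, hB⟩ := h.bound
  obtain ⟨M, hM⟩ := hb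
  have hB0 : 0 ≤ B := (abs_nonneg _).trans (hB 0 0).1
  have hM0 : 0 ≤ M := (abs_nonneg _).trans (hM 0).1
  have hρcont : Continuous ρ := continuous_iff_continuousAt.2 fun θ => (hρ θ).continuousAt
  -- the kernels
  let y : ℝ × E → ℝ → E := fun p g => ypt ρ a p g
  let Y : ℝ × E → ℝ → ℝ := fun p g => X p.1 (y p g)
  let w : ℝ × E → ℝ → ℝ := fun p g => Real.exp (m * Y p g)
  have hYc : Continuous (fun q : (ℝ × E) × ℝ => Y q.1 q.2) := h.contX.comp (pair_cont hρcont a)
  have hYb := h.growth a (fun θ => (hM θ).1)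
  have hY : EB Y := EB.of_growth hYc hYb
  have hw : EB w := EB.exp_of_growth hYc hYb m
  have hJ : EB (fun p g => J p.1 (y p g)) := EB.of_pull h.contJ (fun θ x => (hB θ x).1) hρcont a
  have hG : EB (fun p g => G p.1 (y p g)) := EB.of_pull h.contG (fun θ x => (hB θ x).2.1) hρcont a
  have hS : EB (fun p g => S p.1 (y p g)) := EB.of_pull h.contS (fun θ x => (hB θ x).2.2) hρcont a
  have bGa : ∀ θ x, ‖G θ x a‖ ≤ B * ‖a‖ := fun θ x =>
    ((G θ x).le_opNorm a).trans (by gcongr; exact (hB θ x).2.1)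
  have bSaa : ∀ θ x, ‖S θ x a a‖ ≤ B * ‖a‖ * ‖a‖ := fun θ x => by
    refine ((S θ x a).le_opNorm a).trans ?_
    gcongr
    refine ((S θ x).le_opNorm a).trans ?_
    gcongr
    exact (hB θ x).2.2
  have cGa : Continuous (fun p : ℝ × E => G p.1 p.2 a) := h.contG.clm_apply continuous_const
  have cSaa : Continuous (fun p : ℝ × E => S p.1 p.2 a a) :=
    (h.contS.clm_apply continuous_const).clm_apply continuous_const
  have hGa : EB (fun p g => G p.1 (y p g) a) := EB.of_pull cGa bGa hρcont a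
  have hSaa : EB (fun p g => S p.1 (y p g) a a) := EB.of_pull cSaa bSaa hρcont a
  let D : ℝ × E → ℝ → ((ℝ × E) →L[ℝ] ℝ) := fun p g =>
    (J p.1 (y p g) + g * (ρ' p.1 * G p.1 (y p g) a)) • ContinuousLinearMap.fst ℝ ℝ E
      + (G p.1 (y p g)).comp (ContinuousLinearMap.snd ℝ ℝ E)
  have hρ'EB : EB (fun (p : ℝ × E) (_ : ℝ) => ρ' p.1) := EB.of_param (hρc.comp continuous_fst)
  have hJg : EB (fun p g => J p.1 (y p g) + g * (ρ' p.1 * G p.1 (y p g) a)) :=
    hJ.add (EB.idg.mul (hρ'EB.mul hGa))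
  have hGs : EB (fun p g => (G p.1 (y p g)).comp (ContinuousLinearMap.snd ℝ ℝ E)) := by
    refine EB.of_pull (φ := fun θ x => (G θ x).comp (ContinuousLinearMap.snd ℝ ℝ E))
      (B := B * 1) (h.contG.clm_comp continuous_const) (fun θ x => ?_) hρcont a
    refine (ContinuousLinearMap.opNorm_comp_le _ _).trans ?_
    gcongr
    · exact (hB θ x).2.1
    · exact ContinuousLinearMap.norm_snd_le ℝ ℝ E
  have hD : EB D := (hJg.smul (EB.of_param continuous_const)).add hGs
  have hYd : ∀ p g, HasFDerivAt (fun p => Y p g) (D p g) p := fun p g => h.deriv_pull hρ a p g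
  -- normalisation
  let Z : ℝ × E → ℝ := fun p => ∫ g, w p g ∂γ
  have hZpos : ∀ p, 0 < Z p := fun p => integral_exp_pos (hw.integrable p)
  have hZc : Continuous Z := hw.continuous_integral
  have hZinv : Continuous (fun p => (Z p)⁻¹) := hZc.inv₀ fun p => (hZpos p).ne'
  have hwd : ∀ p g, HasFDerivAt (fun p => w p g) (w p g • (m • D p g)) p := fun p g =>
    ((hYd p g).const_mul m).exp
  have hwD : EB (fun p g => w p g • D p g) := hw.smul hD
  have hwDm : EB (fun p g => w p g • (m • D p g)) := by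
    have : EB (fun (p : ℝ × E) (g : ℝ) => m • D p g) :=
      (EB.of_param (P := ℝ × E) (f := fun _ => m) continuous_const).smul hD
    exact hw.smul this
  have hZd : ∀ p, HasFDerivAt Z (∫ g, w p g • (m • D p g) ∂γ) p := fun p =>
    EB.hasFDerivAt hw hwDm hwd p
  -- derivative of `T`
  have hTd : ∀ p : ℝ × E, HasFDerivAt (fun p : ℝ × E => T m (ρ p.1 • a) (X p.1) p.2)
      ((Z p)⁻¹ • ∫ g, w p g • D p g ∂γ) p := by
    intro p
    by_cases hm : m = 0
    · have e1 : (fun p : ℝ × E => T m (ρ p.1 • a) (X p.1) p.2) = fun p => ∫ g, Y p g ∂γ := by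
        ext p; simp only [T, if_pos hm]; rfl
      have e2 : ∀ g, w p g = 1 := fun g => by simp [w, hm]
      have e3 : Z p = 1 := by simp [Z, e2]
      rw [e1, e3]
      simp only [e2, one_smul, inv_one]
      exact EB.hasFDerivAt hY hD hYd p
    · have e1 : (fun p : ℝ × E => T m (ρ p.1 • a) (X p.1) p.2) = fun p => m⁻¹ * Real.log (Z p) := by
        ext p; simp only [T, if_neg hm]; rfl
      rw [e1]
      refine (((hZd p).log (hZpos p).ne').const_mul m⁻¹).congr_fderiv ?_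
      have e2 : ∫ g, w p g • (m • D p g) ∂γ = m • ∫ g, w p g • D p g ∂γ := by
        rw [← integral_smul]; congr 1; ext1 g; rw [smul_comm]
      rw [e2, smul_comm (Z p)⁻¹ m, smul_smul, inv_mul_cancel₀ hm, one_smul]
  -- Stein
  have hst : ∀ p : ℝ × E, ∫ g, g * (w p g * G p.1 (y p g) a) ∂γ
      = ∫ g, ρ p.1 * (w p g * (S p.1 (y p g) a a + m * (G p.1 (y p g) a) ^ 2)) ∂γ := by
    intro p
    have hGa2 : EB (fun p g => S p.1 (y p g) a a + m * (G p.1 (y p g) a) ^ 2) := by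
      have h2 : EB (fun p g => m * (G p.1 (y p g) a * G p.1 (y p g) a)) :=
        (EB.of_param (P := ℝ × E) (f := fun _ => m) continuous_const).mul (hGa.mul hGa)
      have h3 := hSaa.add h2
      simpa only [sq] using h3
    refine stein (fun g => ?_) ((hw.mul hGa).integrable p) ?_
      ((EB.idg.mul (hw.mul hGa)).integrable p)
    · have hy : HasDerivAt (y p) (ρ p.1 • a) g := by
        have h0 : HasDerivAt (fun g : ℝ => p.2 + g • (ρ p.1 • a)) ((1 : ℝ) • (ρ p.1 • a)) g :=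
          ((hasDerivAt_id g).smul_const (ρ p.1 • a)).const_add p.2
        rw [one_smul] at h0
        exact h0
      have h1 : HasDerivAt (fun g => X p.1 (y p g)) (G p.1 (y p g) (ρ p.1 • a)) g :=
        (h.derivx p.1 (y p g)).comp_hasDerivAt g hy
      have h2 : HasDerivAt (fun g => w p g)
          (w p g * (m * G p.1 (y p g) (ρ p.1 • a))) g := (h1.const_mul m).exp
      have h3 : HasDerivAt (fun g => G p.1 (y p g)) (S p.1 (y p g) (ρ p.1 • a)) g :=
        (h.derivG p.1 (y p g)).comp_hasDerivAt g hy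
      have h4 : HasDerivAt (fun g => G p.1 (y p g) a) (S p.1 (y p g) (ρ p.1 • a) a) g := by
        have := h3.clm_apply (hasDerivAt_const g a)
        simpa using this
      refine (h2.mul h4).congr_deriv ?_
      simp only [map_smul, smul_eq_mul, smul_apply]
      ring
    · exact ((EB.of_param (P := ℝ × E) (f := fun p => ρ p.1)
        (hρcont.comp continuous_fst)).mul (hw.mul hGa2)).integrable p
  have hw0 : ∀ p g, 0 ≤ w p g := fun p g => Real.exp_nonneg _
  have hcGa2 : Continuous (fun p : ℝ × E => J p.1 p.2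
      + ρ p.1 * ρ' p.1 * (S p.1 p.2 a a + m * (G p.1 p.2 a) ^ 2)) := by
    have c1 : Continuous (fun p : ℝ × E => ρ p.1) := hρcont.comp continuous_fst
    have c2 : Continuous (fun p : ℝ × E => ρ' p.1) := hρc.comp continuous_fst
    exact h.contJ.add ((c1.mul c2).mul (cSaa.add (continuous_const.mul (cGa.pow 2))))
  have bJ' : ∀ θ x, |J θ x + ρ θ * ρ' θ * (S θ x a a + m * (G θ x a) ^ 2)|
      ≤ B + M * M * (B * ‖a‖ * ‖a‖ + |m| * (B * ‖a‖) ^ 2) := by
    intro θ x
    refine (abs_add_le _ _).trans (add_le_add (hB θ x).1 ?_)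
    rw [abs_mul, abs_mul]
    gcongr
    · exact (hM θ).1
    · exact (hM θ).2
    · refine (abs_add_le _ _).trans (add_le_add (bSaa θ x) ?_)
      rw [abs_mul, abs_pow]
      gcongr
      exact bGa θ x
  have hM1 : ∀ θ, |ρ θ| ≤ M := fun θ => (hM θ).1
  have cSG : Continuous (fun p : ℝ × E => S p.1 p.2 + m • (G p.1 p.2).smulRight (G p.1 p.2)) := by
    have c1 : Continuous (fun p : ℝ × E => (G p.1 p.2).smulRight (G p.1 p.2)) :=
      (ContinuousLinearMap.smulRightL ℝ E (E →L[ℝ] ℝ)).continuous₂.comp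
        (h.contG.prodMk h.contG)
    have c2 : Continuous (fun p : ℝ × E => m • (G p.1 p.2).smulRight (G p.1 p.2)) :=
      c1.const_smul m
    exact Continuous.add (M := E →L[ℝ] E →L[ℝ] ℝ) h.contS c2
  have bSG : ∀ θ x, ‖S θ x + m • (G θ x).smulRight (G θ x)‖ ≤ B + |m| * (B * B) := by
    intro θ x
    have h1 : ‖m • (G θ x).smulRight (G θ x)‖ ≤ |m| * (B * B) := by
      rw [norm_smul, ContinuousLinearMap.norm_smulRight_apply]
      gcongr
      · exact le_of_eq (Real.norm_eq_abs m)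
      · exact (hB θ x).2.1
      · exact (hB θ x).2.1
    have h2 := norm_add_le (S θ x) (m • (G θ x).smulRight (G θ x))
    have h3 := (hB θ x).2.2
    linarith
  have cKG := h.contK m a hρcont hM1 h.contG (C := B) (fun θ x => (hB θ x).2.1)
  have bKG := h.bdK m a hρcont hM1 (φ := G) (C := B) (fun θ x => (hB θ x).2.1)
  have cKJ : Continuous (fun p : ℝ × E => K m (ρ p.1 • a) (X p.1)
      (fun x => J p.1 x + ρ p.1 * ρ' p.1 * (S p.1 x a a + m * (G p.1 x a) ^ 2)) p.2) :=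
    h.contK m a hρcont hM1 (φ := fun θ x => J θ x
        + ρ θ * ρ' θ * (S θ x a a + m * (G θ x a) ^ 2)) hcGa2 bJ'
  refine ⟨cKJ, cKG, ?_, ?_, ?_, ?_⟩
  · have c1 : Continuous (fun p : ℝ × E => (K m (ρ p.1 • a) (X p.1) (G p.1) p.2).smulRight
        (K m (ρ p.1 • a) (X p.1) (G p.1) p.2)) :=
      (ContinuousLinearMap.smulRightL ℝ E (E →L[ℝ] ℝ)).continuous₂.comp (cKG.prodMk cKG)
    have c2 := h.contK m a hρcont hM1
      (φ := fun θ x => S θ x + m • (G θ x).smulRight (G θ x)) cSG bSG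
    exact Continuous.sub (G := E →L[ℝ] E →L[ℝ] ℝ) c2 (c1.const_smul m)
  · refine ⟨max (B + M * M * (B * ‖a‖ * ‖a‖ + |m| * (B * ‖a‖) ^ 2))
      (max B ((B + |m| * (B * B)) + |m| * (B * B))), fun θ x => ⟨?_, ?_, ?_⟩⟩
    · exact (h.bdK m a hρcont hM1 (φ := fun θ x => J θ x
        + ρ θ * ρ' θ * (S θ x a a + m * (G θ x a) ^ 2)) bJ' θ x).trans (le_max_left _ _)
    · exact (bKG θ x).trans ((le_max_left _ _).trans (le_max_right _ _))
    · refine le_trans ?_ ((le_max_right _ _).trans (le_max_right _ _))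
      refine (norm_sub_le _ _).trans (add_le_add ?_ ?_)
      · exact h.bdK m a hρcont hM1 (φ := fun θ x => S θ x + m • (G θ x).smulRight (G θ x)) bSG θ x
      · rw [norm_smul, ContinuousLinearMap.norm_smulRight_apply]
        gcongr
        · exact le_of_eq (Real.norm_eq_abs m)
        · exact bKG θ x
        · exact bKG θ x
  · intro θ x
    refine (hTd (θ, x)).congr_fderiv ?_
    have iD := hwD.integrable (θ, x)
    have iJg := (hw.mul hJg).integrable (θ, x)
    have iJ := (hw.mul hJ).integrable (θ, x)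
    have iG := (hw.smul hG).integrable (θ, x)
    have ig := (EB.idg.mul (hw.mul hGa)).integrable (θ, x)
    have iS2 : Integrable (fun g => ρ θ * (w (θ, x) g * (S θ (y (θ, x) g) a a
        + m * (G θ (y (θ, x) g) a) ^ 2))) γ := by
      have h2 : EB (fun (p : ℝ × E) g => m * (G p.1 (y p g) a * G p.1 (y p g) a)) :=
        (EB.of_param (P := ℝ × E) (f := fun _ => m) continuous_const).mul (hGa.mul hGa)
      have h3 := ((hw.mul (hSaa.add h2)).integrable (θ, x)).const_mul (ρ θ)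
      simpa only [sq] using h3
    have e1 : ∫ g, w (θ, x) g * (J θ (y (θ, x) g) + g * (ρ' θ * G θ (y (θ, x) g) a)) ∂γ
        = ∫ g, w (θ, x) g • (J θ (y (θ, x) g) + ρ θ * ρ' θ * (S θ (y (θ, x) g) a a
          + m * (G θ (y (θ, x) g) a) ^ 2)) ∂γ := by
      calc ∫ g, w (θ, x) g * (J θ (y (θ, x) g) + g * (ρ' θ * G θ (y (θ, x) g) a)) ∂γ
          = ∫ g, (w (θ, x) g * J θ (y (θ, x) g)
            + ρ' θ * (g * (w (θ, x) g * G θ (y (θ, x) g) a))) ∂γ := by
            congr 1; ext1 g; ring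
        _ = (∫ g, w (θ, x) g * J θ (y (θ, x) g) ∂γ)
            + ρ' θ * ∫ g, g * (w (θ, x) g * G θ (y (θ, x) g) a) ∂γ := by
            rw [integral_add iJ (ig.const_mul _), integral_const_mul]
        _ = (∫ g, w (θ, x) g * J θ (y (θ, x) g) ∂γ)
            + ρ' θ * ∫ g, ρ θ * (w (θ, x) g * (S θ (y (θ, x) g) a a
              + m * (G θ (y (θ, x) g) a) ^ 2)) ∂γ := by
            rw [hst (θ, x)]
        _ = _ := by
            rw [← integral_const_mul, ← integral_add iJ (iS2.const_mul _)]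
            congr 1; ext1 g; rw [smul_eq_mul]; ring
    refine ContinuousLinearMap.ext fun v => ?_
    have e2 : (∫ g, w (θ, x) g • D (θ, x) g ∂γ) v
        = (∫ g, w (θ, x) g * (J θ (y (θ, x) g) + g * (ρ' θ * G θ (y (θ, x) g) a)) ∂γ) * v.1
          + (∫ g, w (θ, x) g • G θ (y (θ, x) g) ∂γ) v.2 := by
      rw [ContinuousLinearMap.integral_apply iD, ContinuousLinearMap.integral_apply iG,
        ← integral_mul_const, ← integral_add (iJg.mul_const _) (iG.apply_continuousLinearMap _)]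
      congr 1; ext1 g
      simp only [D, smul_apply, add_apply, ContinuousLinearMap.comp_apply,
        ContinuousLinearMap.coe_fst', ContinuousLinearMap.coe_snd', smul_eq_mul]
      ring
    have e3 : ((Z (θ, x))⁻¹ • ∫ g, w (θ, x) g • D (θ, x) g ∂γ) v
        = (Z (θ, x))⁻¹ * (∫ g, w (θ, x) g • D (θ, x) g ∂γ) v := rfl
    rw [e3, e2, e1]
    show _ = (Z (θ, x))⁻¹ • (∫ g, w (θ, x) g • (J θ (y (θ, x) g) + ρ θ * ρ' θ *
      (S θ (y (θ, x) g) a a + m * (G θ (y (θ, x) g) a) ^ 2)) ∂γ) * v.1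
      + ((Z (θ, x))⁻¹ • ∫ g, w (θ, x) g • G θ (y (θ, x) g) ∂γ) v.2
    rw [smul_apply, smul_eq_mul, smul_eq_mul]
    ring
  · intro θ x
    -- restrict the kernels to fixed `θ`
    have cpair : Continuous (fun x : E => ((θ, x) : ℝ × E)) := Continuous.prodMk_right θ
    have hwx : EB (fun (x : E) g => w (θ, x) g) := hw.comp cpair
    have hGx : EB (fun (x : E) g => G θ (y (θ, x) g)) := hG.comp cpair
    have hSx : EB (fun (x : E) g => S θ (y (θ, x) g)) := hS.comp cpair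
    have hmGx : EB (fun (x : E) g => m • G θ (y (θ, x) g)) :=
      (EB.of_param (P := E) (f := fun _ => m) continuous_const).smul hGx
    have hGGx : EB (fun (x : E) g => (G θ (y (θ, x) g)).smulRight (G θ (y (θ, x) g))) := by
      refine EB.of_bdd (B := B * B) ?_ fun x g => ?_
      · exact (ContinuousLinearMap.smulRightL ℝ E (E →L[ℝ] ℝ)).continuous₂.comp
          (hGx.cont.prodMk hGx.cont)
      · rw [ContinuousLinearMap.norm_smulRight_apply]
        gcongr
        · exact (hB _ _).2.1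
        · exact (hB _ _).2.1
    have dy : ∀ (x : E) (g : ℝ), HasFDerivAt (fun x => y (θ, x) g) (ContinuousLinearMap.id ℝ E) x :=
      fun x g => (hasFDerivAt_id x).add_const (g • (ρ θ • a))
    have dX : ∀ (x : E) (g : ℝ), HasFDerivAt (fun x => Y (θ, x) g) (G θ (y (θ, x) g)) x := by
      intro x g
      have := (h.derivx θ (y (θ, x) g)).comp x (dy x g)
      exact this
    have dw : ∀ (x : E) (g : ℝ), HasFDerivAt (fun x => w (θ, x) g)
        (w (θ, x) g • (m • G θ (y (θ, x) g))) x := fun x g => ((dX x g).const_mul m).exp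
    have dG : ∀ (x : E) (g : ℝ), HasFDerivAt (fun x => G θ (y (θ, x) g)) (S θ (y (θ, x) g)) x := by
      intro x g
      have := (h.derivG θ (y (θ, x) g)).comp x (dy x g)
      exact this
    have hwG := hwx.smul hGx
    have hF' : EB (fun (x : E) g => w (θ, x) g • S θ (y (θ, x) g)
        + (w (θ, x) g • (m • G θ (y (θ, x) g))).smulRight (G θ (y (θ, x) g))) := by
      have h1 := hwx.smul hSx
      have h2 : EB (fun (x : E) g => (w (θ, x) g * m) •
          (G θ (y (θ, x) g)).smulRight (G θ (y (θ, x) g))) :=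
        (hwx.mul (EB.of_param (P := E) (f := fun _ => m) continuous_const)).smul hGGx
      have h3 := h1.add h2
      refine Eq.mp ?_ h3
      congr 1
      ext x g u v
      simp
      ring
    have dF := EB.hasFDerivAt hwG hF' (fun x g => (dw x g).smul (dG x g)) x
    have dZ := EB.hasFDerivAt hwx (hwx.smul hmGx) dw x
    have dZi : HasFDerivAt (fun x : E => (Z (θ, x))⁻¹)
        ((-(Z (θ, x) ^ 2)⁻¹) • ∫ g, w (θ, x) g • (m • G θ (y (θ, x) g)) ∂γ) x :=
      (hasDerivAt_inv (hZpos (θ, x)).ne').comp_hasFDerivAt x dZ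
    have d := dZi.smul dF
    refine d.congr_fderiv ?_
    have e1 : ∫ g, (w (θ, x) g • S θ (y (θ, x) g)
        + (w (θ, x) g • (m • G θ (y (θ, x) g))).smulRight (G θ (y (θ, x) g))) ∂γ
        = ∫ g, w (θ, x) g • (S θ (y (θ, x) g)
          + m • (G θ (y (θ, x) g)).smulRight (G θ (y (θ, x) g))) ∂γ := by
      congr 1; ext g u v
      simp
      ring
    have e2 : ∫ g, w (θ, x) g • (m • G θ (y (θ, x) g)) ∂γ
        = m • ∫ g, w (θ, x) g • G θ (y (θ, x) g) ∂γ := by
      rw [← integral_smul]; congr 1; ext1 g; rw [smul_comm]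
    rw [e1, e2]
    have e3 : K m (ρ θ • a) (X θ) (G θ) x
        = (Z (θ, x))⁻¹ • ∫ g, w (θ, x) g • G θ (y (θ, x) g) ∂γ := rfl
    have e4 : K m (ρ θ • a) (X θ) (fun y => S θ y + m • (G θ y).smulRight (G θ y)) x
        = (Z (θ, x))⁻¹ • ∫ g, w (θ, x) g • (S θ (y (θ, x) g)
          + m • (G θ (y (θ, x) g)).smulRight (G θ (y (θ, x) g))) ∂γ := rfl
    rw [e3, e4]
    ext u v
    simp
    ring

end step

/-! elementary facts on `T` and `K` for functions of linear growth; `Lip X` below means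
`∃ B, ∀ x y, |X x - X y| ≤ B * ‖x - y‖` -/

theorem lip_growth {X : E → ℝ} (hL : ∃ B, ∀ x y, |X x - X y| ≤ B * ‖x - y‖) (a : E) (x₀ : E) :
    ∃ D : ℝ, ∀ᶠ x in 𝓝 x₀, ∀ g : ℝ, |X (x + g • a)| ≤ D * (1 + |g|) := by
  obtain ⟨B, hB⟩ := hL
  have h1 : ∀ᶠ x in 𝓝 x₀, ‖x - x₀‖ < 1 := by
    have : Tendsto (fun x => ‖x - x₀‖) (𝓝 x₀) (𝓝 0) := by
      have := ((continuous_id.sub (continuous_const (y := x₀))).norm).tendsto x₀
      simpa using this
    exact this.eventually (eventually_lt_nhds one_pos)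
  refine ⟨|X x₀| + |B| * (1 + ‖a‖), h1.mono fun x hx g => ?_⟩
  have h2 := hB (x + g • a) x₀
  have h3 : ‖x + g • a - x₀‖ ≤ 1 + |g| * ‖a‖ := by
    have e : x + g • a - x₀ = (x - x₀) + g • a := by abel
    rw [e]
    refine (norm_add_le _ _).trans ?_
    rw [norm_smul, Real.norm_eq_abs]
    linarith
  have h4 : |X (x + g • a)| ≤ |X x₀| + |B| * (1 + |g| * ‖a‖) := by
    have h5 := abs_sub_abs_le_abs_sub (X (x + g • a)) (X x₀)
    have h6 : B * ‖x + g • a - x₀‖ ≤ |B| * (1 + |g| * ‖a‖) := by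
      calc B * ‖x + g • a - x₀‖ ≤ |B| * ‖x + g • a - x₀‖ := by
            gcongr; exact le_abs_self B
        _ ≤ |B| * (1 + |g| * ‖a‖) := by gcongr
    linarith
  refine h4.trans ?_
  have : 0 ≤ |X x₀| * |g| := by positivity
  have : 0 ≤ |B| * |g| := by positivity
  have : 0 ≤ |B| * ‖a‖ := by positivity
  nlinarith [abs_nonneg g]

theorem lip_Y {X : E → ℝ} (hX : Continuous X) (hL : ∃ B, ∀ x y, |X x - X y| ≤ B * ‖x - y‖)
    (a : E) : EB (fun (x : E) g => X (x + g • a)) :=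
  EB.of_growth (by fun_prop) (lip_growth hL a)

theorem lip_w {X : E → ℝ} (hX : Continuous X) (hL : ∃ B, ∀ x y, |X x - X y| ≤ B * ‖x - y‖)
    (m : ℝ) (a : E) : EB (fun (x : E) g => Real.exp (m * X (x + g • a))) :=
  EB.exp_of_growth (by fun_prop) (lip_growth hL a) m

theorem Zt_pos {X : E → ℝ} (hX : Continuous X) (hL : ∃ B, ∀ x y, |X x - X y| ≤ B * ‖x - y‖)
    (m : ℝ) (a x : E) : 0 < Zt m a X x :=
  integral_exp_pos ((lip_w hX hL m a).integrable x)

theorem K_integrable {V : Type*} [NormedAddCommGroup V] [NormedSpace ℝ V] {X : E → ℝ}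
    (hX : Continuous X) (hL : ∃ B, ∀ x y, |X x - X y| ≤ B * ‖x - y‖) {φ : E → V}
    (hφ : Continuous φ) (hb : ∃ B, ∀ x, ‖φ x‖ ≤ B) (m : ℝ) (a x : E) :
    Integrable (fun g : ℝ => Real.exp (m * X (x + g • a)) • φ (x + g • a)) γ := by
  obtain ⟨B, hB⟩ := hb
  have h1 : EB (fun (x : E) g => φ (x + g • a)) :=
    EB.of_bdd (by fun_prop) (fun x g => hB (x + g • a))
  exact ((lip_w hX hL m a).smul h1).integrable x

theorem K_const {V : Type*} [NormedAddCommGroup V] [NormedSpace ℝ V] [CompleteSpace V] {X : E → ℝ}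
    (hX : Continuous X) (hL : ∃ B, ∀ x y, |X x - X y| ≤ B * ‖x - y‖) (c : V) (m : ℝ) (a x : E) :
    K m a X (fun _ => c) x = c := by
  have h := Zt_pos hX hL m a x
  unfold K
  rw [integral_smul_const]
  show (Zt m a X x)⁻¹ • (Zt m a X x) • c = c
  rw [smul_smul, inv_mul_cancel₀ h.ne', one_smul]

theorem K_add {V : Type*} [NormedAddCommGroup V] [NormedSpace ℝ V] {X : E → ℝ}
    (hX : Continuous X) (hL : ∃ B, ∀ x y, |X x - X y| ≤ B * ‖x - y‖) {φ ψ : E → V}
    (hφ : Continuous φ) (hb : ∃ B, ∀ x, ‖φ x‖ ≤ B) (hψ : Continuous ψ) (hb' : ∃ B, ∀ x, ‖ψ x‖ ≤ B)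
    (m : ℝ) (a x : E) :
    K m a X (fun y => φ y + ψ y) x = K m a X φ x + K m a X ψ x := by
  unfold K
  rw [← smul_add, ← integral_add (K_integrable hX hL hφ hb m a x) (K_integrable hX hL hψ hb' m a x)]
  congr 2
  ext1 g
  rw [smul_add]

/-- `K` commutes with continuous linear maps -/
theorem K_clm {V W : Type*} [NormedAddCommGroup V] [NormedSpace ℝ V] [NormedAddCommGroup W]
    [NormedSpace ℝ W] [CompleteSpace V] [CompleteSpace W] (A : V →L[ℝ] W) {X : E → ℝ}
    (hX : Continuous X) (hL : ∃ B, ∀ x y, |X x - X y| ≤ B * ‖x - y‖) {φ : E → V}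
    (hφ : Continuous φ) (hb : ∃ B, ∀ x, ‖φ x‖ ≤ B) (m : ℝ) (a x : E) :
    A (K m a X φ x) = K m a X (fun y => A (φ y)) x := by
  unfold K
  rw [map_smul, ← A.integral_comp_comm (K_integrable hX hL hφ hb m a x)]
  congr 2
  ext1 g
  rw [map_smul]

theorem K_mono {X : E → ℝ} (hX : Continuous X) (hL : ∃ B, ∀ x y, |X x - X y| ≤ B * ‖x - y‖)
    {φ ψ : E → ℝ} (hφ : Continuous φ) (hb : ∃ B, ∀ x, |φ x| ≤ B) (hψ : Continuous ψ)
    (hb' : ∃ B, ∀ x, |ψ x| ≤ B) (h : ∀ x, φ x ≤ ψ x) (m : ℝ) (a x : E) :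
    K m a X φ x ≤ K m a X ψ x := by
  have hZ := Zt_pos hX hL m a x
  unfold K
  rw [smul_eq_mul, smul_eq_mul]
  refine mul_le_mul_of_nonneg_left ?_ (inv_nonneg.2 hZ.le)
  exact integral_mono (K_integrable hX hL hφ hb m a x) (K_integrable hX hL hψ hb' m a x)
    fun g => mul_le_mul_of_nonneg_left (h _) (Real.exp_nonneg _)

theorem T_zero_dir {X : E → ℝ} (m : ℝ) (x : E) : T m (0 : E) X x = X x := by
  unfold T Zt
  by_cases hm : m = 0
  · simp [hm]
  · simp [hm]

theorem T_mono {X Y : E → ℝ} (hX : Continuous X) (hL : ∃ B, ∀ x y, |X x - X y| ≤ B * ‖x - y‖)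
    (hY : Continuous Y) (hL' : ∃ B, ∀ x y, |Y x - Y y| ≤ B * ‖x - y‖) (h : ∀ x, X x ≤ Y x)
    (m : ℝ) (hm : 0 ≤ m) (a x : E) : T m a X x ≤ T m a Y x := by
  unfold T
  by_cases h0 : m = 0
  · rw [if_pos h0, if_pos h0]
    exact integral_mono ((lip_Y hX hL a).integrable x) ((lip_Y hY hL' a).integrable x)
      fun g => h _
  · rw [if_neg h0, if_neg h0]
    refine mul_le_mul_of_nonneg_left ?_ (inv_nonneg.2 hm)
    refine Real.log_le_log (Zt_pos hX hL m a x) ?_
    exact integral_mono ((lip_w hX hL m a).integrable x) ((lip_w hY hL' m a).integrable x)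
      fun g => Real.exp_le_exp.2 (mul_le_mul_of_nonneg_left (h _) hm)

theorem T_add_const {X : E → ℝ} (hX : Continuous X)
    (hL : ∃ B, ∀ x y, |X x - X y| ≤ B * ‖x - y‖) (c m : ℝ) (a x : E) :
    T m a (fun y => X y + c) x = T m a X x + c := by
  unfold T
  by_cases h0 : m = 0
  · rw [if_pos h0, if_pos h0, integral_add ((lip_Y hX hL a).integrable x) (integrable_const c)]
    simp
  · rw [if_neg h0, if_neg h0]
    have e : Zt m a (fun y => X y + c) x = Zt m a X x * Real.exp (m * c) := by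
      unfold Zt
      rw [← integral_mul_const]
      congr 1; ext1 g
      rw [mul_add, Real.exp_add]
    rw [e, Real.log_mul (Zt_pos hX hL m a x).ne' (Real.exp_pos _).ne', Real.log_exp, mul_add,
      ← mul_assoc, inv_mul_cancel₀ h0, one_mul]

theorem T_shift {X : E → ℝ} (m : ℝ) (a x v : E) : T m a X (x + v) = T m a (fun y => X (y + v)) x := by
  unfold T Zt
  have : ∀ g : ℝ, x + v + g • a = x + g • a + v := fun g => by abel
  simp only [this]

theorem T_lip {X : E → ℝ} (B : ℝ) (hL : ∀ x y, |X x - X y| ≤ B * ‖x - y‖)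
    (m : ℝ) (hm : 0 ≤ m) (a : E) : ∀ x y, |T m a X x - T m a X y| ≤ B * ‖x - y‖ := by
  have hX : Continuous X := by
    have : LipschitzWith (Real.toNNReal |B|) X := by
      refine LipschitzWith.of_dist_le_mul fun x y => ?_
      rw [Real.dist_eq, dist_eq_norm, Real.coe_toNNReal _ (abs_nonneg B)]
      exact (hL x y).trans (by gcongr; exact le_abs_self B)
    exact this.continuous
  have key : ∀ x y, T m a X x ≤ T m a X y + B * ‖x - y‖ := by
    intro x y
    have e1 : T m a X x = T m a (fun z => X (z + (x - y))) y := by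
      rw [← T_shift]; congr 1; abel
    rw [e1, ← T_add_const hX ⟨B, hL⟩]
    have hc : Continuous (fun z => X (z + (x - y))) := by fun_prop
    have hc' : Continuous (fun z => X z + B * ‖x - y‖) := hX.add continuous_const
    refine T_mono hc ⟨B, fun u v => ?_⟩ hc' ⟨B, fun u v => ?_⟩ (fun z => ?_) m hm a y
    · have := hL (u + (x - y)) (v + (x - y))
      rwa [add_sub_add_right_eq_sub] at this
    · rw [add_sub_add_right_eq_sub]; exact hL u v
    · have h1 := hL (z + (x - y)) z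
      rw [add_sub_cancel_left] at h1
      have h2 := le_abs_self (X (z + (x - y)) - X z)
      linarith
  intro x y
  rw [abs_sub_le_iff]
  constructor
  · linarith [key x y]
  · have := key y x
    rw [norm_sub_rev] at this
    linarith

end Pool.Agent.OS
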