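import Pool.Agent.LibMP0f946f.Nest
import Pool.Agent.LibMP0f946f.Spin0
import Pool.Agent.LibMP0f946f.Lse

/-! TASK GUERRA: Guerra's bound for the spin system (helper85). -/

set_option autoImplicit false
open MeasureTheory ProbabilityTheory Real Filter Topology

namespace Pool.Agent.OS

namespace Gue

/-! ### 1. `C2b` functions are `Stat` -/

section stat
variable {ι : Type*} [Fintype ι] {E : Type*} [NormedAddCommGroup E] [NormedSpace ℝ E]

theorem cont_sum2 {X V : Type*} [TopologicalSpace X] [NormedAddCommGroup V] [NormedSpace ℝ V]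
    (s : ι → ι → X → ℝ) (hs : ∀ i j, Continuous (s i j)) (c : ι → ι → V) :
    Continuous (fun x => ∑ i, ∑ j, s i j x • c i j) :=
  continuous_finsetSum _ fun i _ => continuous_finsetSum _ fun j _ => (hs i j).smul continuous_const

theorem norm_sum1 {V : Type*} [NormedAddCommGroup V] [NormedSpace ℝ V]
    (s : ι → ℝ) (B : ℝ) (hs : ∀ i, |s i| ≤ B) (c : ι → V) :
    ‖∑ i, s i • c i‖ ≤ ∑ i, B * ‖c i‖ := by
  refine (norm_sum_le _ _).trans (Finset.sum_le_sum fun i _ => ?_)
  rw [norm_smul]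
  exact mul_le_mul_of_nonneg_right (hs i) (norm_nonneg _)

theorem norm_sum2 {V : Type*} [NormedAddCommGroup V] [NormedSpace ℝ V]
    (s : ι → ι → ℝ) (B : ℝ) (hs : ∀ i j, |s i j| ≤ B) (c : ι → ι → V) :
    ‖∑ i, ∑ j, s i j • c i j‖ ≤ ∑ i, ∑ j, B * ‖c i j‖ := by
  refine (norm_sum_le _ _).trans (Finset.sum_le_sum fun i _ => ?_)
  exact norm_sum1 _ _ (hs i) _

theorem fderiv_sum1 {V : Type*} [NormedAddCommGroup V] [NormedSpace ℝ V] {G : ι → E → ℝ}
    {G' : ι → (E →L[ℝ] ℝ)} {x : E} (hG : ∀ i, HasFDerivAt (G i) (G' i) x) (c : ι → V) :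
    HasFDerivAt (fun x => ∑ i, G i x • c i) (∑ i, (G' i).smulRight (c i)) x :=
  HasFDerivAt.fun_sum fun i _ => (hG i).smul_const _

noncomputable def gdir (b : ι → (E →L[ℝ] ℝ)) (g : ι → ℝ) : E →L[ℝ] ℝ := ∑ j, g j • b j

noncomputable def gS (b : ι → (E →L[ℝ] ℝ)) (s : ι → ι → ℝ) : E →L[ℝ] E →L[ℝ] ℝ :=
  ∑ i, ∑ j, s i j • ((b j).smulRight (b i))

theorem gdir_apply (b : ι → (E →L[ℝ] ℝ)) (g : ι → ℝ) (v : E) : gdir b g v = ∑ j, g j * b j v := by
  simp [gdir]

theorem gS_apply (b : ι → (E →L[ℝ] ℝ)) (s : ι → ι → ℝ) (u v : E) :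
    gS b s u v = ∑ i, ∑ j, s i j * (b j u * b i v) := by
  simp [gS]

theorem stat_gen (b : ι → (E →L[ℝ] ℝ)) {F : E → ℝ} {G : ι → E → ℝ} {S : ι → ι → E → ℝ}
    (hF : ∀ x, HasFDerivAt F (∑ j, G j x • b j) x)
    (hG : ∀ i x, HasFDerivAt (G i) (∑ j, S i j x • b j) x)
    (hS : ∀ i j, Continuous (S i j))
    (bd : ∃ B, ∀ x i, |G i x| ≤ B ∧ ∀ j, |S i j x| ≤ B) :
    Stat F (fun x => gdir b (fun i => G i x)) (fun x => gS b (fun i j => S i j x)) where
  contS := cont_sum2 (V := E →L[ℝ] E →L[ℝ] ℝ) _ hS _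
  bound := by
    obtain ⟨B, hB⟩ := bd
    refine ⟨max (∑ j : ι, B * ‖b j‖)
      (∑ i : ι, ∑ j : ι, B * ‖((b j).smulRight (b i))‖), fun x => ⟨?_, ?_⟩⟩
    · refine le_trans ?_ (le_max_left _ _)
      exact norm_sum1 (V := E →L[ℝ] ℝ) _ _ (fun i => (hB x i).1) _
    · refine le_trans ?_ (le_max_right _ _)
      exact norm_sum2 (V := E →L[ℝ] E →L[ℝ] ℝ) _ _ (fun i j => (hB x i).2 j) _
  derivF := hF
  derivG := by
    intro x
    have h1 : HasFDerivAt (fun x => ∑ i, G i x • b i)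
        (∑ i, (∑ j, S i j x • b j).smulRight (b i)) x :=
      fderiv_sum1 (V := E →L[ℝ] ℝ) (fun i => hG i x) b
    refine h1.congr_fderiv ?_
    ext u v
    rw [gS_apply]
    simp only [_root_.sum_apply, ContinuousLinearMap.smulRight_apply,
      _root_.smul_apply, smul_eq_mul, Finset.sum_mul]
    exact Finset.sum_congr rfl fun i _ => Finset.sum_congr rfl fun j _ => by ring

theorem C2b_stat {F : (ι → ℝ) → ℝ} {G : ι → (ι → ℝ) → ℝ} {S : ι → ι → (ι → ℝ) → ℝ}
    (h : C2b F G S) :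
    Stat F (fun x => gdir (fun j => ContinuousLinearMap.proj j) (fun i => G i x))
      (fun x => gS (fun j => ContinuousLinearMap.proj j) (fun i j => S i j x)) :=
  stat_gen (E := ι → ℝ) (fun j => ContinuousLinearMap.proj j) h.hF h.hG h.hS h.bd

end stat

/-! ### 2. elementary facts on nests -/

section nests
variable {E : Type*} [NormedAddCommGroup E] [NormedSpace ℝ E]

theorem T_line (m : ℝ) (a x : E) (X : E → ℝ) (b y : ℝ) (h : ℝ → ℝ)
    (hyp : ∀ g : ℝ, X (x + g • a) = h (y + g • b)) : T m a X x = T m b h y := by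
  unfold T Zt
  simp only [hyp]

theorem nest_append (F : E → ℝ) (θ : ℝ) (L₁ L₂ : List (Stp E)) :
    nest F θ (L₁ ++ L₂) = nest (nest F θ L₂) θ L₁ := by
  induction L₁ with
  | nil => rfl
  | cons s L ih => simp only [List.cons_append, nest, ih]

theorem nest_trivial (F : E → ℝ) (θ : ℝ) (L : List (Stp E)) (h : ∀ s ∈ L, rho s.k θ = 0) :
    nest F θ L = F := by
  induction L with
  | nil => rfl
  | cons s L ih =>
    have h1 := ih fun t ht => h t (List.mem_cons_of_mem _ ht)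
    have h2 := h s (List.mem_cons_self ..)
    funext x
    simp only [nest, h1, h2, zero_smul]
    exact T_zero_dir _ _

end nests

/-! ### 3. the value at `θ = 0` -/

/-- the vector `σ ↦ σ_i` -/
noncomputable def spv {N : ℕ} (i : Fin N) : Cfg N → ℝ := fun σ => sp (σ i)

noncomputable def comb {N : ℕ} (y : Fin N → ℝ) : Cfg N → ℝ := fun σ => ∑ i, y i * sp (σ i)

theorem lse_comb {N : ℕ} (y : Fin N → ℝ) :
    lse (comb y) = ∑ i, Real.log (2 * Real.cosh (y i)) := by
  unfold lse comb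
  have h1 : ∑ σ : Cfg N, Real.exp (∑ i, y i * sp (σ i)) = ∏ i, (2 * Real.cosh (y i)) := by
    have h2 := Finset.prod_univ_sum (fun _ : Fin N => (Finset.univ : Finset Bool))
      (fun i b => Real.exp (y i * sp b))
    rw [Fintype.piFinset_univ] at h2
    have h3 : ∀ i : Fin N, ∑ b : Bool, Real.exp (y i * sp b) = 2 * Real.cosh (y i) := by
      intro i
      rw [Fintype.sum_bool, Real.cosh_eq]
      simp [sp]
      ring
    simp only [h3] at h2
    rw [h2]
    refine Finset.sum_congr rfl fun σ _ => ?_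
    rw [Real.exp_sum]
  rw [h1, Real.log_prod]
  intro i _
  have := Real.cosh_pos (y i)
  positivity

theorem comb_add {N : ℕ} (y : Fin N → ℝ) (i : Fin N) (t : ℝ) :
    comb y + t • spv i = comb (Function.update y i (y i + t)) := by
  funext σ
  simp only [comb, spv, Pi.add_apply, Pi.smul_apply, smul_eq_mul]
  rw [← Finset.add_sum_erase _ _ (Finset.mem_univ i),
    ← Finset.add_sum_erase (a := i) _ (fun j => Function.update y i (y i + t) j * sp (σ j)) (Finset.mem_univ i)]
  rw [Function.update_self]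
  have : ∑ x ∈ Finset.univ.erase i, Function.update y i (y i + t) x * sp (σ x) =
      ∑ x ∈ Finset.univ.erase i, y x * sp (σ x) := by
    refine Finset.sum_congr rfl fun j hj => ?_
    rw [Function.update_of_ne (Finset.ne_of_mem_erase hj)]
  rw [this]
  ring

/-- the steps of one level -/
noncomputable def lev {N : ℕ} (m v : ℝ) (l : List (Fin N)) : List (Stp (Cfg N → ℝ)) :=
  l.map fun i => ⟨m, Real.sqrt v • spv i, 2⟩

/-- all levels -/
noncomputable def levs (N : ℕ) (c : ℕ → ℝ) : ℝ → List (ℝ × ℝ) → List (Stp (Cfg N → ℝ))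
  | _, [] => []
  | q0, (p :: L) => lev p.1 (xi1 c p.2 - xi1 c q0) (List.finRange N) ++ levs N c p.2 L

theorem rho_two_zero : rho 2 0 = 1 := by simp [rho]

theorem lev_zero {N : ℕ} (m v : ℝ) (f : ℝ → ℝ) (hfc : Continuous f)
    (hfL : ∃ B, ∀ x y, |f x - f y| ≤ B * ‖x - y‖) (X : (Cfg N → ℝ) → ℝ)
    (hX : ∀ y : Fin N → ℝ, X (comb y) = ∑ i, f (y i)) (l : List (Fin N)) (hl : l.Nodup)
    (y : Fin N → ℝ) :
    nest X 0 (lev m v l) (comb y) =
      ∑ i, (if i ∈ l then T m (Real.sqrt v) f (y i) else f (y i)) := by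
  induction l generalizing y with
  | nil => simpa [lev, nest] using hX y
  | cons i l ih =>
    rw [List.nodup_cons] at hl
    have ih' := ih hl.2
    have h1 : nest X 0 (lev m v (i :: l)) (comb y) =
        T m (Real.sqrt v • spv i) (nest X 0 (lev m v l)) (comb y) := by
      simp only [lev, List.map_cons, nest, rho_two_zero, one_smul]
    rw [h1]
    set C : ℝ := ∑ j ∈ Finset.univ.erase i, (if j ∈ l then T m (Real.sqrt v) f (y j) else f (y j))
      with hC
    have h2 : ∀ g : ℝ, nest X 0 (lev m v l) (comb y + g • (Real.sqrt v • spv i)) =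
        (fun t => f t + C) (y i + g • Real.sqrt v) := by
      intro g
      rw [smul_smul, comb_add, ih', ← Finset.add_sum_erase _ _ (Finset.mem_univ i)]
      simp only [if_neg hl.1, Function.update_self, smul_eq_mul]
      congr 1
      refine Finset.sum_congr rfl fun j hj => ?_
      rw [Function.update_of_ne (Finset.ne_of_mem_erase hj)]
    rw [T_line m _ _ _ (Real.sqrt v) (y i) (fun t => f t + C) h2,
      T_add_const hfc hfL, ← Finset.add_sum_erase _ _ (Finset.mem_univ i)]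
    simp only [List.mem_cons_self, if_true]
    congr 1
    refine Finset.sum_congr rfl fun j hj => ?_
    have : j ≠ i := Finset.ne_of_mem_erase hj
    simp [List.mem_cons, this]

theorem l2c_lip (x y : ℝ) :
    |Real.log (2 * Real.cosh x) - Real.log (2 * Real.cosh y)| ≤ 1 * ‖x - y‖ := by
  have key : ∀ x y : ℝ, Real.log (2 * Real.cosh x) ≤ |x - y| + Real.log (2 * Real.cosh y) := by
    intro x y
    have hx := Real.cosh_pos x
    have hy := Real.cosh_pos y
    rw [← Real.log_exp |x - y|, ← Real.log_mul (Real.exp_pos _).ne' (by positivity)]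
    apply Real.log_le_log (by positivity)
    rw [Real.cosh_eq, Real.cosh_eq]
    have h1 : Real.exp x ≤ Real.exp |x - y| * Real.exp y := by
      rw [← Real.exp_add]
      exact Real.exp_le_exp.2 (by linarith [le_abs_self (x - y)])
    have h2 : Real.exp (-x) ≤ Real.exp |x - y| * Real.exp (-y) := by
      rw [← Real.exp_add]
      exact Real.exp_le_exp.2 (by linarith [neg_abs_le (x - y)])
    linarith
  rw [one_mul, Real.norm_eq_abs, abs_le]
  constructor
  · have := key y x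
    rw [abs_sub_comm] at this
    linarith
  · linarith [key x y]

theorem cont_of_lip {f : ℝ → ℝ} {B : ℝ} (h : ∀ x y, |f x - f y| ≤ B * ‖x - y‖) :
    Continuous f := by
  have hB : 0 ≤ B := by
    have := h 1 0
    have h2 := abs_nonneg (f 1 - f 0)
    simp at this
    linarith
  have : LipschitzWith ⟨B, hB⟩ f := LipschitzWith.of_dist_le_mul fun x y => by
    rw [Real.dist_eq, dist_eq_norm]
    exact h x y
  exact this.continuous

theorem StepOK.lip {c : ℕ → ℝ} {m0 q0 : ℝ} {L : List (ℝ × ℝ)} (hm : 0 ≤ m0) (h : StepOK m0 q0 L) :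
    ∀ x y, |tn (incs c q0 L) (fun y => Real.log (2 * Real.cosh y)) x -
      tn (incs c q0 L) (fun y => Real.log (2 * Real.cosh y)) y| ≤ 1 * ‖x - y‖ := by
  induction L generalizing m0 q0 with
  | nil => exact l2c_lip
  | cons p L ih =>
    obtain ⟨h1, h2, h3⟩ := h
    exact T_lip 1 (ih (hm.trans h1) h3) p.1 (hm.trans h1) _

theorem levs_zero {N : ℕ} {c : ℕ → ℝ} {m0 q0 : ℝ} {L : List (ℝ × ℝ)} (hm : 0 ≤ m0)
    (h : StepOK m0 q0 L) (y : Fin N → ℝ) :
    nest lse 0 (levs N c q0 L) (comb y) =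
      ∑ i, tn (incs c q0 L) (fun y => Real.log (2 * Real.cosh y)) (y i) := by
  induction L generalizing m0 q0 y with
  | nil => exact lse_comb y
  | cons p L ih =>
    obtain ⟨h1, h2, h3⟩ := h
    have ih' := fun y => ih (hm.trans h1) h3 y
    have hl := StepOK.lip (c := c) (hm.trans h1) h3
    simp only [levs]
    rw [nest_append, lev_zero p.1 _ _ (cont_of_lip hl) ⟨1, hl⟩ _ ih' _ (List.nodup_finRange N)]
    simp only [List.mem_finRange, if_true]
    rfl

/-! ### 4. the value at `θ = π / 2` -/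

section gauss
variable {ι : Type*} [Fintype ι] [DecidableEq ι]

/-- sum of rank one matrices -/
noncomputable def sm (l : List (ι → ℝ)) : Matrix ι ι ℝ := (l.map fun a => Matrix.vecMulVec a a).sum

theorem sm_psd (l : List (ι → ℝ)) : (sm l).PosSemidef := by
  induction l with
  | nil => simpa [sm] using Matrix.PosSemidef.zero
  | cons a l ih =>
    have h : (Matrix.vecMulVec a a).PosSemidef := by
      have := Matrix.posSemidef_vecMulVec_self_star a
      simpa using this
    simpa [sm] using h.add ih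

theorem gm_rank_one (a : ι → ℝ) :
    γ.map (fun g : ℝ => g • a) = gm (Matrix.vecMulVec a a) := by
  have h1 := gm_of_factor (κ := Unit) (Matrix.of fun (i : ι) (_ : Unit) => a i)
  have h2 : (Matrix.of fun (i : ι) (_ : Unit) => a i) * (Matrix.of fun (i : ι) (_ : Unit) => a i).transpose
      = Matrix.vecMulVec a a := by
    ext i j
    simp [Matrix.mul_apply, Matrix.vecMulVec_apply]
  rw [h2] at h1
  rw [h1]
  have h3 : (fun g : Unit → ℝ => (Matrix.of fun (i : ι) (_ : Unit) => a i).mulVec g) =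
      (fun t : ℝ => t • a) ∘ (MeasurableEquiv.funUnique Unit ℝ) := by
    funext g
    funext i
    simp [Matrix.mulVec, dotProduct, mul_comm]
  rw [h3, ← Measure.map_map (by fun_prop) (MeasurableEquiv.measurable _)]
  congr 1
  exact (measurePreserving_funUnique γ Unit).map_eq.symm

theorem gm_cons (a : ι → ℝ) (l : List (ι → ℝ)) :
    gm (sm (a :: l)) = (γ.prod (gm (sm l))).map (fun p => p.1 • a + p.2) := by
  have h1 : sm (a :: l) = Matrix.vecMulVec a a + sm l := by simp [sm]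
  have h0 : (Matrix.vecMulVec a a).PosSemidef := by
    have := Matrix.posSemidef_vecMulVec_self_star a
    simpa using this
  rw [h1, ← gm_add h0 (sm_psd l), ← gm_rank_one]
  have h2 : (fun p : ℝ × (ι → ℝ) => p.1 • a + p.2) =
      (fun p : (ι → ℝ) × (ι → ℝ) => p.1 + p.2) ∘ (Prod.map (fun g : ℝ => g • a) id) := rfl
  rw [h2, ← Measure.map_map (by fun_prop) (by fun_prop)]
  congr 1
  have h3 : γ.map (fun g : ℝ => g • a) = γ.map (fun g : ℝ => g • a) := rfl
  conv_lhs => rw [← Measure.map_id (μ := gm (sm l))]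
  exact Measure.map_prod_map γ (gm (sm l)) (by fun_prop) measurable_id

theorem lse_lip [Nonempty ι] (x y : ι → ℝ) : |lse x - lse y| ≤ ‖x - y‖ := by
  have key : ∀ x y : ι → ℝ, lse x ≤ ‖x - y‖ + lse y := by
    intro x y
    unfold lse
    have hx : 0 < ∑ i, Real.exp (x i) := Finset.sum_pos (fun i _ => Real.exp_pos _) Finset.univ_nonempty
    have hy : 0 < ∑ i, Real.exp (y i) := Finset.sum_pos (fun i _ => Real.exp_pos _) Finset.univ_nonempty
    rw [← Real.log_exp ‖x - y‖, ← Real.log_mul (Real.exp_pos _).ne' hy.ne']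
    apply Real.log_le_log hx
    rw [Finset.mul_sum]
    refine Finset.sum_le_sum fun i _ => ?_
    rw [← Real.exp_add]
    apply Real.exp_le_exp.2
    have := norm_le_pi_norm (x - y) i
    rw [Pi.sub_apply, Real.norm_eq_abs] at this
    linarith [le_abs_self (x i - y i)]
  rw [abs_le]
  constructor
  · have := key y x
    rw [norm_sub_rev] at this
    linarith
  · linarith [key x y]

theorem lse_cont [Nonempty ι] : Continuous (lse (ι := ι)) := by
  have : LipschitzWith 1 (lse (ι := ι)) := LipschitzWith.of_dist_le_mul fun x y => by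
    rw [Real.dist_eq, dist_eq_norm, NNReal.coe_one, one_mul]
    exact lse_lip x y
  exact this.continuous

theorem lse_shift_integrable [Nonempty ι] (C : Matrix ι ι ℝ) (x : ι → ℝ) :
    Integrable (fun y => lse (x + y)) (gm C) := by
  refine Integrable.mono' (g := fun y => ‖lse y‖ + ‖x‖) ((lse_integrable C).norm.add (integrable_const _))
    ?_ ?_
  · exact (lse_cont.comp (by fun_prop)).aestronglyMeasurable
  · refine Eventually.of_forall fun y => ?_
    have h := lse_lip (x + y) y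
    rw [add_sub_cancel_right] at h
    rw [Real.norm_eq_abs, Real.norm_eq_abs]
    have := abs_sub_abs_le_abs_sub (lse (x + y)) (lse y)
    linarith

/-- the steps for the Gaussian part -/
noncomputable def gst (l : List (ι → ℝ)) : List (Stp (ι → ℝ)) := l.map fun a => ⟨0, a, 1⟩

theorem rho_one_pi : rho 1 (Real.pi / 2) = 1 := by simp [rho]

theorem gst_pi [Nonempty ι] (l : List (ι → ℝ)) (x : ι → ℝ) :
    nest lse (Real.pi / 2) (gst l) x = ∫ y, lse (x + y) ∂(gm (sm l)) := by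
  induction l generalizing x with
  | nil =>
    have : sm ([] : List (ι → ℝ)) = 0 := by simp [sm]
    rw [this, gm_zero, integral_dirac]
    simp [gst, nest]
  | cons a l ih =>
    have h1 : nest lse (Real.pi / 2) (gst (a :: l)) x =
        ∫ g, nest lse (Real.pi / 2) (gst l) (x + g • a) ∂γ := by
      simp only [gst, List.map_cons, nest, rho_one_pi, one_smul, T, if_true]
    rw [h1]
    have h2 : ∀ g : ℝ, nest lse (Real.pi / 2) (gst l) (x + g • a) =
        ∫ y, lse (x + (g • a + y)) ∂(gm (sm l)) := by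
      intro g
      rw [ih]
      simp only [add_assoc]
    simp only [h2]
    have hm : Measurable (fun p : ℝ × (ι → ℝ) => p.1 • a + p.2) := by fun_prop
    have hint := lse_shift_integrable (sm (a :: l)) x
    rw [gm_cons] at hint ⊢
    have hc : Continuous (fun y : ι → ℝ => lse (x + y)) := lse_cont.comp (by fun_prop)
    rw [integral_map hm.aemeasurable hc.aestronglyMeasurable]
    rw [integrable_map_measure hc.aestronglyMeasurable hm.aemeasurable] at hint
    exact (integral_prod _ hint).symm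

end gauss

/-! ### 5. the bound for `Wn` -/

section wb
variable {N : ℕ}

/-- basis vectors -/
noncomputable def eb (σ : Cfg N) : Cfg N → ℝ := Pi.single σ 1

theorem vec_eq (v : Cfg N → ℝ) : v = ∑ σ, v σ • eb σ := by
  funext τ
  simp [eb, Finset.sum_apply, Pi.single_apply]

theorem bil_eq (B : (Cfg N → ℝ) →L[ℝ] (Cfg N → ℝ) →L[ℝ] ℝ) (u v : Cfg N → ℝ) :
    B u v = ∑ σ, ∑ τ, u σ * v τ * B (eb σ) (eb τ) := by
  conv_lhs => rw [vec_eq u, vec_eq v]
  simp only [map_sum, map_smul, _root_.sum_apply, _root_.smul_apply, smul_eq_mul, Finset.mul_sum]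
  rw [Finset.sum_comm]
  exact Finset.sum_congr rfl fun σ _ => Finset.sum_congr rfl fun τ _ => by ring

/-- the functional represented by a kernel -/
def Rep (A : ((Cfg N → ℝ) →L[ℝ] (Cfg N → ℝ) →L[ℝ] ℝ) →L[ℝ] ℝ) (M : Cfg N → Cfg N → ℝ) : Prop :=
  ∀ B, A B = ∑ σ, ∑ τ, M σ τ * B (eb σ) (eb τ)

theorem rep_ev (a : Cfg N → ℝ) : Rep (ev a) (fun σ τ => a σ * a τ) := by
  intro B
  exact bil_eq B a a

theorem rep_zero : Rep (0 : ((Cfg N → ℝ) →L[ℝ] (Cfg N → ℝ) →L[ℝ] ℝ) →L[ℝ] ℝ) (fun _ _ => 0) := by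
  intro B
  simp

theorem rep_add {A A' : ((Cfg N → ℝ) →L[ℝ] (Cfg N → ℝ) →L[ℝ] ℝ) →L[ℝ] ℝ} {M M' : Cfg N → Cfg N → ℝ}
    (h : Rep A M) (h' : Rep A' M') : Rep (A + A') (fun σ τ => M σ τ + M' σ τ) := by
  intro B
  have e : (A + A') B = A B + A' B := rfl
  rw [e, h B, h' B, ← Finset.sum_add_distrib]
  refine Finset.sum_congr rfl fun σ _ => ?_
  rw [← Finset.sum_add_distrib]
  exact Finset.sum_congr rfl fun τ _ => by ring

theorem rep_smul {A : ((Cfg N → ℝ) →L[ℝ] (Cfg N → ℝ) →L[ℝ] ℝ) →L[ℝ] ℝ} {M : Cfg N → Cfg N → ℝ}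
    (r : ℝ) (h : Rep A M) : Rep (r • A) (fun σ τ => r * M σ τ) := by
  intro B
  have e : (r • A) B = r * A B := rfl
  rw [e, h B, Finset.mul_sum]
  refine Finset.sum_congr rfl fun σ _ => ?_
  rw [Finset.mul_sum]
  exact Finset.sum_congr rfl fun τ _ => by ring

/-- probability-like gradients -/
def PP (N : ℕ) : Set ((Cfg N → ℝ) →L[ℝ] ℝ) := {p | (∀ σ, 0 ≤ p (eb σ)) ∧ p (fun _ => 1) = 1}

theorem PP_sum {p : (Cfg N → ℝ) →L[ℝ] ℝ} (hp : p ∈ PP N) : ∑ σ, p (eb σ) = 1 := by
  have h := hp.2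
  rw [vec_eq (fun _ => 1)] at h
  simpa using h

variable {G : (Cfg N → ℝ) → ((Cfg N → ℝ) →L[ℝ] ℝ)}
    {S : (Cfg N → ℝ) → ((Cfg N → ℝ) →L[ℝ] (Cfg N → ℝ) →L[ℝ] ℝ)}

/-- steps with the same parameter `m` -/
theorem wb_same (P : Set ((Cfg N → ℝ) →L[ℝ] ℝ)) (m : ℝ) (k : Fin 3) (l : List (Cfg N → ℝ))
    (L : List (Stp (Cfg N → ℝ))) (A : ((Cfg N → ℝ) →L[ℝ] (Cfg N → ℝ) →L[ℝ] ℝ) →L[ℝ] ℝ)
    (c : ℝ) (M : Cfg N → Cfg N → ℝ) (hM : Rep A M)
    (h : ∀ A', Rep A' (fun σ τ => M σ τ + eps k * (l.map fun a => a σ * a τ).sum) →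
      WB G S P L A' m c) :
    WB G S P ((l.map fun a => (⟨m, a, k⟩ : Stp (Cfg N → ℝ))) ++ L) A m c := by
  induction l generalizing A M with
  | nil =>
    simp only [List.map_nil, List.nil_append]
    refine h A ?_
    simpa using hM
  | cons a l ih =>
    simp only [List.map_cons, List.cons_append]
    refine WB.same (⟨m, a, k⟩ : Stp (Cfg N → ℝ)) _ A c ?_
    refine ih (A + eps k • ev a) _ (rep_add hM (rep_smul (eps k) (rep_ev a))) ?_
    intro A' hA'
    refine h A' ?_
    convert hA' using 3 with σ τ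
    simp only [List.map_cons, List.sum_cons]
    ring

end wb

section lv
variable {N : ℕ} {c : ℕ → ℝ}

theorem sm_apply (l : List (Cfg N → ℝ)) (σ τ : Cfg N) :
    sm l σ τ = (l.map fun a => a σ * a τ).sum := by
  induction l with
  | nil => simp [sm]
  | cons a l ih =>
    have h1 : sm (a :: l) = Matrix.vecMulVec a a + sm l := by simp [sm]
    rw [h1, Matrix.add_apply, ih, List.map_cons, List.sum_cons, Matrix.vecMulVec_apply]

theorem levs_k (q0 : ℝ) (L : List (ℝ × ℝ)) : ∀ s ∈ levs N c q0 L, s.k = 2 := by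
  induction L generalizing q0 with
  | nil => intro s hs; simp [levs] at hs
  | cons p L ih =>
    intro s hs
    rw [levs, List.mem_append] at hs
    rcases hs with hs | hs
    · obtain ⟨i, -, rfl⟩ := List.mem_map.1 hs
      rfl
    · exact ih _ s hs

theorem gst_k (l : List (Cfg N → ℝ)) : ∀ s ∈ gst l, s.k = 1 := by
  intro s hs
  obtain ⟨i, -, rfl⟩ := List.mem_map.1 hs
  rfl

theorem StepOK.le_one {m0 q0 : ℝ} {L : List (ℝ × ℝ)} (h : StepOK m0 q0 L) : q0 ≤ 1 := by
  induction L generalizing m0 q0 with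
  | nil => exact h.2.le
  | cons p L ih => exact h.2.1.trans (ih h.2.2)

/-- the kernel after the levels up to `q` -/
noncomputable def kern (c : ℕ → ℝ) (N : ℕ) (q : ℝ) (σ τ : Cfg N) : ℝ :=
  N * (xi c (ov σ τ) - xi1 c q * ov σ τ)

variable {G : (Cfg N → ℝ) → ((Cfg N → ℝ) →L[ℝ] ℝ)}
    {S : (Cfg N → ℝ) → ((Cfg N → ℝ) →L[ℝ] (Cfg N → ℝ) →L[ℝ] ℝ)}

theorem smulRight_eb (p : (Cfg N → ℝ) →L[ℝ] ℝ) (σ τ : Cfg N) :
    (p.smulRight p) (eb σ) (eb τ) = p (eb σ) * p (eb τ) := by
  simp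

/-- `-A (p ⊗ p) ≤ N θ(q)` -/
theorem kappa_bound (hc : Adm c) (hconv : ConvexOn ℝ (Set.Icc (-1) 1) (xi c)) {q : ℝ}
    (hq0 : 0 ≤ q) (hq1 : q ≤ 1) {A : ((Cfg N → ℝ) →L[ℝ] (Cfg N → ℝ) →L[ℝ] ℝ) →L[ℝ] ℝ}
    (hA : Rep A (kern c N q)) (p : (Cfg N → ℝ) →L[ℝ] ℝ) (hp : p ∈ PP N) :
    - A (p.smulRight p) ≤ N * th c q := by
  have h1 : A (p.smulRight p) = ∑ σ, ∑ τ, kern c N q σ τ * (p (eb σ) * p (eb τ)) := by
    rw [hA]
    simp only [smulRight_eb]
  have h2 : ∑ σ, ∑ τ, (-(N * th c q)) * (p (eb σ) * p (eb τ)) ≤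
      ∑ σ, ∑ τ, kern c N q σ τ * (p (eb σ) * p (eb τ)) := by
    refine Finset.sum_le_sum fun σ _ => Finset.sum_le_sum fun τ _ => ?_
    refine mul_le_mul_of_nonneg_right ?_ (mul_nonneg (hp.1 σ) (hp.1 τ))
    unfold kern
    have h3 := hc.tangent hconv (ov_abs_le σ τ) (q := q) (by rw [abs_of_nonneg hq0]; exact hq1)
    have h4 : (0:ℝ) ≤ N := Nat.cast_nonneg N
    nlinarith
  have h5 : ∑ σ, ∑ τ, (-(N * th c q)) * (p (eb σ) * p (eb τ)) = -(N * th c q) := by
    simp only [← Finset.mul_sum, PP_sum hp, mul_one]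
  rw [h1]
  linarith

theorem lev_kernel (hN : 1 ≤ N) (v : ℝ) (hv : 0 ≤ v) (σ τ : Cfg N) :
    (((List.finRange N).map fun i => Real.sqrt v • spv i).map fun a => a σ * a τ).sum =
      v * (N * ov σ τ) := by
  have h1 : (N:ℝ) * ov σ τ = ∑ i, sp (σ i) * sp (τ i) := by
    rw [ov_eq]
    have : (N:ℝ) ≠ 0 := by positivity
    field_simp
  rw [h1, List.map_map, Finset.mul_sum, ← List.ofFn_eq_map, List.sum_ofFn]
  refine Finset.sum_congr rfl fun i _ => ?_
  simp only [Function.comp_apply, Pi.smul_apply, spv, smul_eq_mul]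
  have := Real.mul_self_sqrt hv
  linear_combination (sp (σ i) * sp (τ i)) * this

theorem levs_wb (hc : Adm c) (hconv : ConvexOn ℝ (Set.Icc (-1) 1) (xi c)) (hN : 1 ≤ N)
    (hend : ∀ A : ((Cfg N → ℝ) →L[ℝ] (Cfg N → ℝ) →L[ℝ] ℝ) →L[ℝ] ℝ, Rep A (kern c N 1) →
      ∀ x, A (S x + (1:ℝ) • (G x).smulRight (G x)) ≤ -(N * th c 1))
    (L : List (ℝ × ℝ)) {m0 q0 : ℝ} (hm0 : 0 ≤ m0) (hq0 : 0 ≤ q0) (hL : StepOK m0 q0 L)
    (A : ((Cfg N → ℝ) →L[ℝ] (Cfg N → ℝ) →L[ℝ] ℝ) →L[ℝ] ℝ) (hA : Rep A (kern c N q0)) :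
    WB G S (PP N) (levs N c q0 L) A m0 (-(N * (pen (th c) q0 L + m0 * th c q0))) := by
  induction L generalizing m0 q0 A with
  | nil =>
    obtain ⟨rfl, rfl⟩ := hL
    refine WB.nil A 1 _ fun x => ?_
    refine (hend A hA x).trans (le_of_eq ?_)
    simp [pen]
  | cons p L ih =>
    obtain ⟨h1, h2, h3⟩ := hL
    have hp0 : 0 ≤ p.2 := hq0.trans h2
    have hp1 : p.2 ≤ 1 := StepOK.le_one h3
    have hv : 0 ≤ xi1 c p.2 - xi1 c q0 := sub_nonneg.2 (hc.xi1_mono hq0 h2 hp1)
    obtain ⟨n, rfl⟩ : ∃ n, N = n + 1 := ⟨N - 1, by omega⟩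
    set v := xi1 c p.2 - xi1 c q0 with hvdef
    -- first step: rule `cons`
    have hval : -(((n + 1 : ℕ) : ℝ) * (pen (th c) q0 (p :: L) + m0 * th c q0)) =
        -(((n + 1 : ℕ) : ℝ) * (pen (th c) p.2 L + p.1 * th c p.2)) +
          (p.1 - m0) * (((n + 1 : ℕ) : ℝ) * th c q0) := by
      simp only [pen]
      ring
    rw [hval]
    have hl1 : levs (n + 1) c q0 (p :: L) =
        (⟨p.1, Real.sqrt v • spv 0, 2⟩ : Stp (Cfg (n + 1) → ℝ)) ::
        ((((List.finRange n).map Fin.succ).map fun i => Real.sqrt v • spv i).map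
          (fun a => (⟨p.1, a, 2⟩ : Stp (Cfg (n + 1) → ℝ))) ++ levs (n + 1) c p.2 L) := by
      simp only [levs, lev, List.finRange_succ, List.map_cons, List.map_map, List.cons_append]
      rfl
    rw [hl1]
    refine WB.cons (⟨p.1, Real.sqrt v • spv 0, 2⟩ : Stp (Cfg (n + 1) → ℝ)) _ A m0 _ _ h1
      (fun q hq => kappa_bound hc hconv hq0 (h2.trans hp1) hA q hq) ?_
    refine wb_same _ _ 2 _ _ _ _ _ (rep_add hA (rep_smul (eps 2) (rep_ev _))) ?_
    intro A' hA'
    refine ih (hm0.trans h1) hp0 h3 A' ?_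
    convert hA' using 3 with σ τ
    have hk := lev_kernel hN v hv σ τ
    rw [List.finRange_succ, List.map_cons, List.map_cons, List.sum_cons] at hk
    have he : eps 2 = -1 := by simp [eps]
    simp only [kern, he]
    have : v = xi1 c p.2 - xi1 c q0 := hvdef
    rw [this] at hk ⊢
    linear_combination hk

end lv

end Gue

open Gue in
theorem guerra_bound {c : ℕ → ℝ} (hc : Adm c) (hconv : ConvexOn ℝ (Set.Icc (-1) 1) (xi c))
    (L : List (ℝ × ℝ)) (hL : StepOK 0 0 L) (N : ℕ) (hN : 1 ≤ N) : FN c N ≤ Par c L := by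
  classical
  obtain ⟨B, hB, -⟩ := gm_factor (cov_psd hc N)
  -- columns
  set cols : List (Cfg N → ℝ) := (Finset.univ.toList : List (Cfg N)).map fun k => B.col k with hcols
  have hcol : ∀ σ τ, (cols.map fun a => a σ * a τ).sum = cov c N σ τ := by
    intro σ τ
    rw [hcols, List.map_map, hB, Matrix.mul_apply]
    simp [Function.comp_def, Matrix.transpose_apply]
  have hsm : sm cols = cov c N := by
    ext σ τ
    rw [← hcol σ τ, sm_apply]
  set F : (Cfg N → ℝ) → ℝ := lse with hF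
  set steps := gst cols ++ levs N c 0 L with hsteps
  have hst := C2b_stat (lse_C2b (ι := Cfg N))
  set G : (Cfg N → ℝ) → ((Cfg N → ℝ) →L[ℝ] ℝ) :=
    fun x => gdir (fun j => ContinuousLinearMap.proj j) (fun i => pw x i) with hG
  set S : (Cfg N → ℝ) → ((Cfg N → ℝ) →L[ℝ] (Cfg N → ℝ) →L[ℝ] ℝ) :=
    fun x => gS (fun j => ContinuousLinearMap.proj j)
      (fun i j => (if i = j then pw x i else 0) - pw x i * pw x j) with hS
  have hstat : Stat F G S := hst
  -- gradients
  have hGe : ∀ x σ, G x (eb σ) = pw x σ := by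
    intro x σ
    rw [hG, gdir_apply]
    simp [eb, Pi.single_apply]
  have hG1 : ∀ x, G x (fun _ => 1) = 1 := by
    intro x
    rw [hG, gdir_apply]
    simpa using pw_sum x
  have hP : ∀ θ (L' : List (Stp (Cfg N → ℝ))) x, nestG F G θ L' x ∈ PP N := by
    intro θ L' x
    refine ⟨fun σ => ?_, le_antisymm ?_ ?_⟩
    · exact nestG_mem hstat (eb σ) 0 (fun x => by rw [hGe]; exact (pw_pos x σ).le) θ L' x
    · have := nestG_mem hstat (-(fun _ => 1)) (-1) (fun x => by rw [map_neg, hG1]) θ L' x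
      rw [map_neg] at this
      linarith
    · exact nestG_mem hstat (fun _ => 1) 1 (fun x => by rw [hG1]) θ L' x
  have hend : ∀ A : ((Cfg N → ℝ) →L[ℝ] (Cfg N → ℝ) →L[ℝ] ℝ) →L[ℝ] ℝ, Rep A (kern c N 1) →
      ∀ x, A (S x + (1:ℝ) • (G x).smulRight (G x)) ≤ -(N * th c 1) := by
    intro A hA x
    rw [hA]
    have h1 : ∀ σ τ, (S x + (1:ℝ) • (G x).smulRight (G x)) (eb σ) (eb τ) =
        if σ = τ then pw x σ else 0 := by
      intro σ τ
      have h2 : (S x + (1:ℝ) • (G x).smulRight (G x)) (eb σ) (eb τ) =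
          S x (eb σ) (eb τ) + G x (eb σ) * G x (eb τ) := by simp
      rw [h2, hGe, hGe, hS, gS_apply]
      rw [Finset.sum_eq_single τ, Finset.sum_eq_single σ]
      · by_cases h : σ = τ
        · subst h; simp [eb]
        · simp [eb, h, Ne.symm h, mul_comm]
      · intro σ' _ h'
        simp [eb, h']
      · simp
      · intro τ' _ h'
        simp [eb, h']
      · simp
    simp only [h1]
    simp only [mul_ite, mul_zero, Finset.sum_ite_eq, Finset.mem_univ, if_true]
    have h3 : ∀ σ, kern c N 1 σ σ = -(N * th c 1) := by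
      intro σ
      simp only [kern, ov_self hN, th]
      ring
    simp only [h3, ← Finset.mul_sum, pw_sum, mul_one, le_refl]
  have hWB : WB G S (PP N) steps 0 0 (-(N * (pen (th c) 0 L + 0 * th c 0))) := by
    refine wb_same (PP N) 0 1 cols _ 0 _ _ rep_zero ?_
    intro A' hA'
    refine levs_wb hc hconv hN hend L le_rfl le_rfl hL A' ?_
    convert hA' using 3 with σ τ
    rw [hcol]
    simp [kern, eps, cov, hc.xi1_zero]
  have hcmp := nest_compare hstat steps 0 0 _ (fun θ _ =>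
    Wn_le hstat (PP N) θ (hP θ) steps 0 0 _ hWB 0)
  -- left side
  have hleft : nest F (Real.pi / 2) steps 0 = FE (cov c N) := by
    rw [hsteps, nest_append, nest_trivial F (Real.pi / 2) (levs N c 0 L), gst_pi, hsm]
    · simp [FE]
    · intro s hs
      rw [levs_k _ _ s hs]
      simp [rho]
  have hright : nest F 0 steps 0 = N * tn (incs c 0 L) (fun y => Real.log (2 * Real.cosh y)) 0 := by
    rw [hsteps, nest_append, nest_trivial _ 0 (gst cols)]
    · have h0 : (0 : Cfg N → ℝ) = comb (fun _ => 0) := by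
        funext σ
        simp [comb]
      rw [h0, levs_zero le_rfl hL]
      simp
    · intro s hs
      rw [gst_k _ s hs]
      simp [rho]
  rw [hleft, hright] at hcmp
  unfold FN Par
  have hN' : (0:ℝ) < N := by exact_mod_cast hN
  rw [div_le_iff₀ hN']
  simp only [zero_mul, add_zero] at hcmp
  linarith

end Pool.Agent.OS
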