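import Pool.Agent.LibMP0f946f.Lse

/-! TASK GGFIN: finite volume Ghirlanda-Guerra inequality.

Notation: `A, B` positive semidefinite, `X ~ gm A`, `Y ~ gm B` independent, `H_t = t X + Y ~ gm (t² A + B)`,
`φ(t) = lse (t X + Y)` (convex in `t`, `φ' = <X>`, `φ'' = <X²> - <X>²`), `f(t) = E φ(t) = FE (t² A + B)`,
`<·>` = Gibbs average of `H_t`.

(1) `FE_sq_deriv`: `f'(t) = E<X> = t EG_2 [A(1,1) - A(1,2)]` (IBP in `X`).
(2) IBP: `E<F X(s_0)> = t EG_{n+2}[F (∑_{l≤n} A(s_0,s_l) - (n+1) A(s_0,s_{n+1}))]` for `F` a function of `n+1` replicas.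
(3) `|E<F X(s_0)> - E<F> E<X>| ≤ E<|X - E<X>|> ≤ E<|X_1 - X_2|> + E|<X> - E<X>|` for `|F| ≤ 1`.
(4) Thermal part: for `g = |X_1 - X_2|`, `|d/dt <g>| = |<g (X_1 + X_2 - 2 <X>)>| ≤ 2 φ''(t)` pointwise, so `<g> + 2 φ'` is
    nondecreasing; and `<g> ≤ c/2 + φ''/c`.  With `t` such that `φ''(t) = (φ'(t0+δ)-φ'(t0))/δ` (mean value theorem)
    `<g>_{t0} ≤ c/2 + D/(cδ) + 2 D`, `D = φ'(t0+δ) - φ'(t0)`.
(5) Disorder part: convexity of `φ`: `|φ'(t0) - f'(t0)| ≤ (1/δ) ∑_{t ∈ {t0-δ,t0,t0+δ}} |φ - f|(t) + f'(t0+δ) - f'(t0-δ)` and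
    `E|φ - f|(t) ≤ 2 √(M N)` (`FE_conc`).
(6) `f'(t0+δ) - f'(t0-δ) ≤ [f(t0+2δ) - f(t0+δ) - f(t0-δ) + f(t0-2δ)]/δ = N Δ` (convexity). -/

set_option autoImplicit false
open MeasureTheory ProbabilityTheory Real Filter Topology

namespace Pool.Agent.OS

variable {ι : Type*} [Fintype ι] [DecidableEq ι] [Nonempty ι]

namespace GGfin

omit [DecidableEq ι] in
theorem pw_le_one' (x : ι → ℝ) (i : ι) : pw x i ≤ 1 := by
  rw [← pw_sum x]
  exact Finset.single_le_sum (fun j _ => (pw_pos x j).le) (Finset.mem_univ i)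

theorem pw_cont' (i : ι) : Continuous (fun x : ι → ℝ => pw x i) :=
  continuous_iff_continuousAt.2 fun x => (lse_C2b.hG i x).continuousAt

theorem lse_cont' : Continuous (lse (ι := ι)) :=
  continuous_iff_continuousAt.2 fun x => (lse_C2b.hF x).continuousAt

/-- thermal mean of the direction `x` -/
noncomputable def mn (h x : ι → ℝ) : ℝ := ∑ j, pw h j * x j
/-- thermal variance -/
noncomputable def vr (h x : ι → ℝ) : ℝ := ∑ j, pw h j * x j ^ 2 - mn h x ^ 2
/-- `<|X_1 - X_2|>` -/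
noncomputable def df (h x : ι → ℝ) : ℝ := ∑ i, ∑ j, pw h i * pw h j * |x i - x j|

omit [DecidableEq ι] [Nonempty ι] in
theorem hasDeriv_line (x y : ι → ℝ) (t : ℝ) : HasDerivAt (fun t : ℝ => t • x + y) x t := by
  simpa using ((hasDerivAt_id t).smul_const x).add_const y

theorem hasDeriv_lse (x y : ι → ℝ) (t : ℝ) :
    HasDerivAt (fun t : ℝ => lse (t • x + y)) (mn (t • x + y) x) t := by
  have h := (lse_C2b.hF (t • x + y)).comp_hasDerivAt t (hasDeriv_line x y t)
  refine h.congr_deriv ?_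
  simp [mn]

theorem hasDeriv_pw (x y : ι → ℝ) (t : ℝ) (i : ι) :
    HasDerivAt (fun t : ℝ => pw (t • x + y) i)
      (pw (t • x + y) i * (x i - mn (t • x + y) x)) t := by
  have h := (lse_C2b.hG i (t • x + y)).comp_hasDerivAt t (hasDeriv_line x y t)
  refine h.congr_deriv ?_
  simp only [mn, _root_.sum_apply, _root_.smul_apply,
    ContinuousLinearMap.proj_apply, smul_eq_mul, sub_mul, Finset.sum_sub_distrib, ite_mul, zero_mul,
    Finset.sum_ite_eq, Finset.mem_univ, if_true, mul_sub, Finset.mul_sum, mul_assoc]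

omit [DecidableEq ι] in
theorem mn_const (h : ι → ℝ) (c : ℝ) : mn h (fun _ => c) = c := by
  unfold mn
  rw [← Finset.sum_mul, pw_sum, one_mul]

omit [DecidableEq ι] in
theorem vr_eq (h x : ι → ℝ) : vr h x = ∑ j, pw h j * (x j - mn h x) ^ 2 := by
  have h1 : ∀ j, pw h j * (x j - mn h x) ^ 2 =
      pw h j * x j ^ 2 - 2 * mn h x * (pw h j * x j) + mn h x ^ 2 * pw h j := fun j => by ring
  simp only [h1]
  rw [Finset.sum_add_distrib, Finset.sum_sub_distrib, ← Finset.mul_sum, ← Finset.mul_sum, pw_sum,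
    vr]
  have : ∑ j, pw h j * x j = mn h x := rfl
  rw [this]
  ring

omit [DecidableEq ι] in
theorem vr_nonneg (h x : ι → ℝ) : 0 ≤ vr h x := by
  rw [vr_eq]
  exact Finset.sum_nonneg fun j _ => mul_nonneg (pw_pos h j).le (sq_nonneg _)

theorem hasDeriv_mn (x y : ι → ℝ) (t : ℝ) :
    HasDerivAt (fun t : ℝ => mn (t • x + y) x) (vr (t • x + y) x) t := by
  have h : HasDerivAt (fun t : ℝ => ∑ j, pw (t • x + y) j * x j)
      (∑ j, pw (t • x + y) j * (x j - mn (t • x + y) x) * x j) t :=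
    HasDerivAt.fun_sum fun j _ => (hasDeriv_pw x y t j).mul_const (x j)
  refine h.congr_deriv ?_
  have h1 : ∀ j, pw (t • x + y) j * (x j - mn (t • x + y) x) * x j =
      pw (t • x + y) j * x j ^ 2 - mn (t • x + y) x * (pw (t • x + y) j * x j) := fun j => by ring
  simp only [h1]
  rw [Finset.sum_sub_distrib, ← Finset.mul_sum, vr, mn]
  ring

theorem hasDeriv_df (x y : ι → ℝ) (t : ℝ) :
    HasDerivAt (fun t : ℝ => df (t • x + y) x)
      (∑ i, ∑ j, pw (t • x + y) i * pw (t • x + y) j *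
        (((x i - mn (t • x + y) x) + (x j - mn (t • x + y) x)) * |x i - x j|)) t := by
  refine HasDerivAt.fun_sum fun i _ => HasDerivAt.fun_sum fun j _ => ?_
  refine (((hasDeriv_pw x y t i).mul (hasDeriv_pw x y t j)).mul_const _).congr_deriv ?_
  ring

omit [DecidableEq ι] in
/-- double sums against the product weights -/
theorem sum2 (h : ι → ℝ) (a : ι → ℝ) :
    ∑ i, ∑ j, pw h i * pw h j * (a i + a j) = 2 * ∑ i, pw h i * a i := by
  have h1 : ∀ i j, pw h i * pw h j * (a i + a j) = pw h i * a i * pw h j + pw h i * (pw h j * a j) :=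
    fun i j => by ring
  simp only [h1, Finset.sum_add_distrib, ← Finset.mul_sum, pw_sum, mul_one, ← Finset.sum_mul, one_mul]
  ring

omit [DecidableEq ι] in
theorem df_deriv_ge (h x : ι → ℝ) :
    -(2 * vr h x) ≤ ∑ i, ∑ j, pw h i * pw h j *
      (((x i - mn h x) + (x j - mn h x)) * |x i - x j|) := by
  have h1 := sum2 h (fun j => -(x j - mn h x) ^ 2)
  have h2 : ∑ i, pw h i * -(x i - mn h x) ^ 2 = - vr h x := by
    rw [vr_eq, ← Finset.sum_neg_distrib]
    exact Finset.sum_congr rfl fun i _ => by ring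
  rw [h2] at h1
  have h3 : -(2 * vr h x) = 2 * - vr h x := by ring
  rw [h3, ← h1]
  refine Finset.sum_le_sum fun i _ => Finset.sum_le_sum fun j _ => ?_
  refine mul_le_mul_of_nonneg_left ?_ (mul_nonneg (pw_pos h i).le (pw_pos h j).le)
  set a := x i - mn h x with ha
  set b := x j - mn h x with hb
  have hab : x i - x j = a - b := by rw [ha, hb]; ring
  rw [hab]
  rcases abs_cases (a - b) with ⟨h5, _⟩ | ⟨h5, _⟩ <;> rw [h5] <;> nlinarith [sq_nonneg a, sq_nonneg b]

omit [DecidableEq ι] in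
theorem sum_sq (h x : ι → ℝ) : ∑ i, ∑ j, pw h i * pw h j * (x i - x j) ^ 2 = 2 * vr h x := by
  have h1 := sum2 h (fun j => x j ^ 2)
  have h2 : ∑ i, ∑ j, pw h i * x i * (pw h j * x j) = mn h x ^ 2 := by
    rw [← Finset.sum_mul_sum, mn, sq]
  have h3 : ∀ i j, pw h i * pw h j * (x i - x j) ^ 2 =
      pw h i * pw h j * (x i ^ 2 + x j ^ 2) - 2 * (pw h i * x i * (pw h j * x j)) := fun i j => by ring
  simp only [h3, Finset.sum_sub_distrib, ← Finset.mul_sum]
  rw [h1]
  have h4 : ∑ i, pw h i * x i * ∑ j, pw h j * x j = mn h x ^ 2 := by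
    rw [← h2]
    exact Finset.sum_congr rfl fun i _ => by rw [Finset.mul_sum]
  rw [h4, vr]
  ring

omit [DecidableEq ι] in
theorem df_le (h x : ι → ℝ) (c : ℝ) (hc : 0 < c) : df h x ≤ c / 2 + vr h x / c := by
  have h1 := sum_sq h x
  have h2 : ∑ i, ∑ j, pw h i * pw h j * (c / 4 + c / 4) = c / 2 := by
    rw [sum2 h (fun _ => c / 4), ← Finset.sum_mul, pw_sum]
    ring
  have h3 : df h x ≤ ∑ i, ∑ j, (pw h i * pw h j * (c / 4 + c / 4) +
      pw h i * pw h j * (x i - x j) ^ 2 / (2 * c)) := by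
    refine Finset.sum_le_sum fun i _ => Finset.sum_le_sum fun j _ => ?_
    have hp : 0 ≤ pw h i * pw h j := mul_nonneg (pw_pos h i).le (pw_pos h j).le
    have h4 : |x i - x j| ≤ (c / 4 + c / 4) + (x i - x j) ^ 2 / (2 * c) := by
      have h5 : 0 ≤ (|x i - x j| - c) ^ 2 / (2 * c) := by positivity
      have h6 : (|x i - x j| - c) ^ 2 / (2 * c) =
          (x i - x j) ^ 2 / (2 * c) - |x i - x j| + (c / 4 + c / 4) := by
        rw [sub_sq, sq_abs]
        field_simp
        ring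
      linarith
    calc pw h i * pw h j * |x i - x j| ≤ pw h i * pw h j * ((c / 4 + c / 4) +
          (x i - x j) ^ 2 / (2 * c)) := mul_le_mul_of_nonneg_left h4 hp
      _ = _ := by ring
  refine h3.trans_eq ?_
  simp only [Finset.sum_add_distrib, ← Finset.sum_div]
  rw [h2, h1]
  field_simp

/-- pointwise thermal estimate -/
theorem thermal (x y : ι → ℝ) (t0 δ c : ℝ) (hδ : 0 < δ) (hc : 0 < c) :
    df (t0 • x + y) x ≤ c / 2 + (mn ((t0 + δ) • x + y) x - mn (t0 • x + y) x) / (c * δ) +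
      2 * (mn ((t0 + δ) • x + y) x - mn (t0 • x + y) x) := by
  obtain ⟨t, ht, ht'⟩ := exists_hasDerivAt_eq_slope (fun t : ℝ => mn (t • x + y) x)
    (fun t : ℝ => vr (t • x + y) x) (by linarith : t0 < t0 + δ)
    (continuousOn_of_forall_continuousAt fun t _ => (hasDeriv_mn x y t).continuousAt)
    (fun t _ => hasDeriv_mn x y t)
  have hmono : Monotone (fun t : ℝ => df (t • x + y) x + 2 * mn (t • x + y) x) := by
    refine monotone_of_hasDerivAt_nonneg
      (fun t => (hasDeriv_df x y t).add ((hasDeriv_mn x y t).const_mul 2)) fun t => ?_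
    have := df_deriv_ge (t • x + y) x
    simp only [Pi.zero_apply]
    linarith
  have hmono2 : Monotone (fun t : ℝ => mn (t • x + y) x) :=
    monotone_of_hasDerivAt_nonneg (hasDeriv_mn x y) fun t => vr_nonneg _ _
  have h1 := hmono ht.1.le
  have h2 := hmono2 ht.2.le
  have h3 := df_le (t • x + y) x c hc
  simp only at h1 h2
  have h4 : vr (t • x + y) x / c =
      (mn ((t0 + δ) • x + y) x - mn (t0 • x + y) x) / (c * δ) := by
    rw [ht']
    have : t0 + δ - t0 = δ := by ring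
    rw [this, div_div, mul_comm δ c]
  linarith

/-- secants of a function with monotone derivative -/
theorem secant {f f' : ℝ → ℝ} (h : ∀ t, HasDerivAt f (f' t) t) (hm : Monotone f') (a δ : ℝ)
    (hδ : 0 < δ) : f' a * δ ≤ f (a + δ) - f a ∧ f (a + δ) - f a ≤ f' (a + δ) * δ := by
  obtain ⟨t, ht, ht'⟩ := exists_hasDerivAt_eq_slope f f' (by linarith : a < a + δ)
    (continuousOn_of_forall_continuousAt fun t _ => (h t).continuousAt) (fun t _ => h t)
  have h1 : f (a + δ) - f a = f' t * δ := by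
    rw [ht']
    have : a + δ - a = δ := by ring
    rw [this, div_mul_cancel₀ _ hδ.ne']
  rw [h1]
  exact ⟨mul_le_mul_of_nonneg_right (hm ht.1.le) hδ.le,
    mul_le_mul_of_nonneg_right (hm ht.2.le) hδ.le⟩

/-- pointwise disorder estimate -/
theorem disorder {f f' g g' : ℝ → ℝ} (h : ∀ t, HasDerivAt f (f' t) t) (hm : Monotone f')
    (hg : ∀ t, HasDerivAt g (g' t) t) (hgm : Monotone g') (t0 δ : ℝ) (hδ : 0 < δ) :
    |f' t0 - g' t0| ≤ (|f (t0 - δ) - g (t0 - δ)| + |f t0 - g t0| + |f (t0 + δ) - g (t0 + δ)|) / δ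
      + (g' (t0 + δ) - g' (t0 - δ)) := by
  have h1 := (secant h hm t0 δ hδ).1
  have h2 := (secant h hm (t0 - δ) δ hδ).2
  have h3 := (secant hg hgm t0 δ hδ).2
  have h4 := (secant hg hgm (t0 - δ) δ hδ).1
  rw [sub_add_cancel] at h2 h4
  have h5 := hgm (by linarith : t0 - δ ≤ t0)
  have h6 := hgm (by linarith : t0 ≤ t0 + δ)
  have e1 := abs_le.1 (le_refl |f (t0 - δ) - g (t0 - δ)|)
  have e2 := abs_le.1 (le_refl |f t0 - g t0|)
  have e3 := abs_le.1 (le_refl |f (t0 + δ) - g (t0 + δ)|)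
  have e4 := abs_nonneg (f (t0 - δ) - g (t0 - δ))
  have e5 := abs_nonneg (f (t0 + δ) - g (t0 + δ))
  have h7 : |f' t0 - g' t0| * δ ≤ |f (t0 - δ) - g (t0 - δ)| + |f t0 - g t0| +
      |f (t0 + δ) - g (t0 + δ)| + (g' (t0 + δ) - g' (t0 - δ)) * δ := by
    have h8 : |f' t0 - g' t0| * δ = |(f' t0 - g' t0) * δ| := by rw [abs_mul, abs_of_pos hδ]
    rw [h8, abs_le]
    have h9 := mul_le_mul_of_nonneg_right h5 hδ.le
    have h10 := mul_le_mul_of_nonneg_right h6 hδ.le
    constructor <;> nlinarith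
  have h8 : (|f (t0 - δ) - g (t0 - δ)| + |f t0 - g t0| + |f (t0 + δ) - g (t0 + δ)|) / δ
      + (g' (t0 + δ) - g' (t0 - δ)) = (|f (t0 - δ) - g (t0 - δ)| + |f t0 - g t0| +
      |f (t0 + δ) - g (t0 + δ)| + (g' (t0 + δ) - g' (t0 - δ)) * δ) / δ := by
    field_simp
  rw [h8, le_div_iff₀ hδ]
  exact h7

omit [Nonempty ι] in
theorem law {A B : Matrix ι ι ℝ} (hA : A.PosSemidef) (hB : B.PosSemidef) (t : ℝ) :
    ((gm A).prod (gm B)).map (fun p => t • p.1 + p.2) = gm (t ^ 2 • A + B) := by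
  rw [← gm_add (hA.smul (sq_nonneg t)) hB, ← gm_smul hA t]
  have h1 : ((gm A).map (fun x => t • x)).prod (gm B) =
      ((gm A).prod (gm B)).map (Prod.map (fun x => t • x) id) := by
    rw [← Measure.map_prod_map _ _ (by fun_prop) measurable_id, Measure.map_id]
  rw [h1, Measure.map_map (by fun_prop) (by fun_prop)]
  rfl

omit [Nonempty ι] in
theorem law_integral {A B : Matrix ι ι ℝ} (hA : A.PosSemidef) (hB : B.PosSemidef) (t : ℝ)
    (g : (ι → ℝ) → ℝ) (hg : Continuous g) :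
    ∫ p, g (t • p.1 + p.2) ∂((gm A).prod (gm B)) = ∫ z, g z ∂(gm (t ^ 2 • A + B)) := by
  rw [← law hA hB t, integral_map (by fun_prop) hg.aestronglyMeasurable]

omit [Nonempty ι] in
theorem law_integrable {A B : Matrix ι ι ℝ} (hA : A.PosSemidef) (hB : B.PosSemidef) (t : ℝ)
    (g : (ι → ℝ) → ℝ) (hg : Continuous g) (hi : Integrable g (gm (t ^ 2 • A + B))) :
    Integrable (fun p : (ι → ℝ) × (ι → ℝ) => g (t • p.1 + p.2)) ((gm A).prod (gm B)) := by
  rw [← law hA hB t, integrable_map_measure hg.aestronglyMeasurable (by fun_prop)] at hi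
  exact hi

omit [Nonempty ι] in
/-- `∑ |x_i|` is integrable -/
theorem sum_abs_integrable (A : Matrix ι ι ℝ) : Integrable (fun x : ι → ℝ => ∑ i, |x i|) (gm A) := by
  refine (gm_expint A 1).mono' (Continuous.aestronglyMeasurable (by fun_prop))
    (Eventually.of_forall fun x => ?_)
  rw [Real.norm_eq_abs, abs_of_nonneg (Finset.sum_nonneg fun i _ => abs_nonneg _), one_mul]
  linarith [Real.add_one_le_exp (∑ i, |x i|)]

omit [Nonempty ι] in
theorem sum_abs_integrable' (A B : Matrix ι ι ℝ) :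
    Integrable (fun p : (ι → ℝ) × (ι → ℝ) => ∑ i, |p.1 i|) ((gm A).prod (gm B)) :=
  (sum_abs_integrable A).comp_fst (gm B)

omit [DecidableEq ι] in
theorem mn_abs (h x : ι → ℝ) : |mn h x| ≤ ∑ i, |x i| := by
  refine (Finset.abs_sum_le_sum_abs _ _).trans (Finset.sum_le_sum fun i _ => ?_)
  rw [abs_mul, abs_of_pos (pw_pos h i)]
  exact mul_le_of_le_one_left (abs_nonneg _) (pw_le_one' h i)

theorem mn_cont (t : ℝ) :
    Continuous (fun p : (ι → ℝ) × (ι → ℝ) => mn (t • p.1 + p.2) p.1) := by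
  unfold mn
  refine continuous_finsetSum _ fun j _ => Continuous.mul ?_ (by fun_prop)
  exact (pw_cont' j).comp (by fun_prop)

theorem mn_integrable (A B : Matrix ι ι ℝ) (t : ℝ) :
    Integrable (fun p : (ι → ℝ) × (ι → ℝ) => mn (t • p.1 + p.2) p.1) ((gm A).prod (gm B)) :=
  (sum_abs_integrable' A B).mono' (mn_cont t).aestronglyMeasurable
    (Eventually.of_forall fun _ => mn_abs _ _)

/-- `E <X>` -/
noncomputable def eX (A B : Matrix ι ι ℝ) (t : ℝ) : ℝ :=
  ∫ p, mn (t • p.1 + p.2) p.1 ∂((gm A).prod (gm B))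

theorem FE_hasDeriv {A B : Matrix ι ι ℝ} (hA : A.PosSemidef) (hB : B.PosSemidef) (t : ℝ) :
    HasDerivAt (fun t : ℝ => FE (t ^ 2 • A + B)) (eX A B t) t := by
  have h1 : (fun t : ℝ => FE (t ^ 2 • A + B)) =
      fun t : ℝ => ∫ p, lse (t • p.1 + p.2) ∂((gm A).prod (gm B)) := by
    funext t
    exact (law_integral hA hB t _ lse_cont').symm
  rw [h1]
  have h2 : ∀ t : ℝ, Continuous (fun p : (ι → ℝ) × (ι → ℝ) => lse (t • p.1 + p.2)) := fun t =>
    lse_cont'.comp (by fun_prop)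
  refine (hasDerivAt_integral_of_dominated_loc_of_deriv_le (s := Set.univ)
    (bound := fun p : (ι → ℝ) × (ι → ℝ) => ∑ i, |p.1 i|) Filter.univ_mem
    (Eventually.of_forall fun t => (h2 t).aestronglyMeasurable)
    (law_integrable hA hB t _ lse_cont' (lse_integrable _))
    (mn_cont t).aestronglyMeasurable (Eventually.of_forall fun p t _ => mn_abs _ _)
    (sum_abs_integrable' A B)
    (Eventually.of_forall fun p t _ => hasDeriv_lse p.1 p.2 t)).2

theorem eX_mono (A B : Matrix ι ι ℝ) : Monotone (eX A B) := by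
  intro s t hst
  refine integral_mono (mn_integrable A B s) (mn_integrable A B t) fun p => ?_
  exact monotone_of_hasDerivAt_nonneg (hasDeriv_mn p.1 p.2) (fun t => vr_nonneg _ _) hst

theorem int3 {Ω : Type*} [MeasurableSpace Ω] {μ : Measure Ω} [IsProbabilityMeasure μ]
    {a b c : Ω → ℝ} (ha : Integrable a μ) (hb : Integrable b μ) (hc : Integrable c μ) (δ k : ℝ) :
    ∫ p, ((a p + b p + c p) / δ + k) ∂μ = (∫ p, a p ∂μ + ∫ p, b p ∂μ + ∫ p, c p ∂μ) / δ + k := by
  have h1 : Integrable (fun p => a p + b p) μ := ha.add hb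
  have h2 : Integrable (fun p => a p + b p + c p) μ := h1.add hc
  have h3 : Integrable (fun p => (a p + b p + c p) / δ) μ := h2.div_const δ
  rw [integral_add h3 (integrable_const _), integral_div, integral_add h1 hc, integral_add ha hb]
  simp

theorem int2 {Ω : Type*} [MeasurableSpace Ω] {μ : Measure Ω} [IsProbabilityMeasure μ]
    {a b : Ω → ℝ} (ha : Integrable a μ) (hb : Integrable b μ) (c d : ℝ) :
    ∫ p, (c + (a p - b p) / d + 2 * (a p - b p)) ∂μ =
      c + (∫ p, a p ∂μ - ∫ p, b p ∂μ) / d + 2 * (∫ p, a p ∂μ - ∫ p, b p ∂μ) := by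
  have h1 : Integrable (fun p => a p - b p) μ := ha.sub hb
  have h2 : Integrable (fun p => (a p - b p) / d) μ := h1.div_const d
  have h3 : Integrable (fun p => c + (a p - b p) / d) μ := (integrable_const c).add h2
  rw [integral_add h3 (h1.const_mul 2), integral_add (integrable_const _) h2, integral_div,
    integral_const_mul, integral_sub ha hb]
  simp

theorem disorder_int {A B : Matrix ι ι ℝ} (hA : A.PosSemidef) (hB : B.PosSemidef)
    (t0 δ M : ℝ) (hδ : 0 < δ)
    (hd : ∀ t ∈ Set.Icc (t0 - δ) (t0 + δ), ∀ i, (t ^ 2 • A + B) i i ≤ M) :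
    ∫ p, |mn (t0 • p.1 + p.2) p.1 - eX A B t0| ∂((gm A).prod (gm B)) ≤
      6 * Real.sqrt M / δ + (eX A B (t0 + δ) - eX A B (t0 - δ)) := by
  have hc : ∀ t : ℝ, Continuous (fun z : ι → ℝ => |lse z - FE (t ^ 2 • A + B)|) := fun t =>
    (lse_cont'.sub continuous_const).abs
  have hi : ∀ t : ℝ, Integrable (fun p : (ι → ℝ) × (ι → ℝ) =>
      |lse (t • p.1 + p.2) - FE (t ^ 2 • A + B)|) ((gm A).prod (gm B)) := fun t =>
    law_integrable hA hB t _ (hc t) (((lse_integrable _).sub (integrable_const _)).abs)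
  have hb : ∀ t ∈ Set.Icc (t0 - δ) (t0 + δ), ∫ p, |lse (t • p.1 + p.2) - FE (t ^ 2 • A + B)|
      ∂((gm A).prod (gm B)) ≤ 2 * Real.sqrt M := fun t ht => by
    rw [law_integral hA hB t _ (hc t)]
    exact FE_conc ((hA.smul (sq_nonneg t)).add hB) M (hd t ht)
  have h1 := hb (t0 - δ) ⟨le_rfl, by linarith⟩
  have h2 := hb t0 ⟨by linarith, by linarith⟩
  have h3 := hb (t0 + δ) ⟨by linarith, le_rfl⟩
  calc ∫ p, |mn (t0 • p.1 + p.2) p.1 - eX A B t0| ∂((gm A).prod (gm B))
      ≤ ∫ p, ((|lse ((t0 - δ) • p.1 + p.2) - FE ((t0 - δ) ^ 2 • A + B)| +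
          |lse (t0 • p.1 + p.2) - FE (t0 ^ 2 • A + B)| +
          |lse ((t0 + δ) • p.1 + p.2) - FE ((t0 + δ) ^ 2 • A + B)|) / δ +
          (eX A B (t0 + δ) - eX A B (t0 - δ))) ∂((gm A).prod (gm B)) := by
        refine integral_mono ((mn_integrable A B t0).sub (integrable_const _)).abs
          (((((hi _).add (hi _)).add (hi _)).div_const _).add (integrable_const _)) fun p => ?_
        exact disorder (f := fun t => lse (t • p.1 + p.2)) (hasDeriv_lse p.1 p.2)
          (monotone_of_hasDerivAt_nonneg (hasDeriv_mn p.1 p.2) (fun t => vr_nonneg _ _))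
          (FE_hasDeriv hA hB) (eX_mono A B) t0 δ hδ
    _ = (∫ p, |lse ((t0 - δ) • p.1 + p.2) - FE ((t0 - δ) ^ 2 • A + B)| ∂((gm A).prod (gm B)) +
          ∫ p, |lse (t0 • p.1 + p.2) - FE (t0 ^ 2 • A + B)| ∂((gm A).prod (gm B)) +
          ∫ p, |lse ((t0 + δ) • p.1 + p.2) - FE ((t0 + δ) ^ 2 • A + B)| ∂((gm A).prod (gm B))) / δ +
          (eX A B (t0 + δ) - eX A B (t0 - δ)) := by
        exact int3 (hi _) (hi _) (hi _) _ _
    _ ≤ 6 * Real.sqrt M / δ + (eX A B (t0 + δ) - eX A B (t0 - δ)) := by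
        gcongr
        linarith

omit [DecidableEq ι] in
theorem df_nonneg (h x : ι → ℝ) : 0 ≤ df h x :=
  Finset.sum_nonneg fun i _ => Finset.sum_nonneg fun j _ =>
    mul_nonneg (mul_nonneg (pw_pos h i).le (pw_pos h j).le) (abs_nonneg _)

theorem df_cont (t : ℝ) :
    Continuous (fun p : (ι → ℝ) × (ι → ℝ) => df (t • p.1 + p.2) p.1) := by
  unfold df
  refine continuous_finsetSum _ fun i _ => continuous_finsetSum _ fun j _ =>
    Continuous.mul (Continuous.mul ?_ ?_) (by fun_prop)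
  · exact (pw_cont' i).comp (by fun_prop)
  · exact (pw_cont' j).comp (by fun_prop)

omit [DecidableEq ι] in
theorem df_abs (h x : ι → ℝ) : |df h x| ≤ 2 * ∑ i, |x i| := by
  rw [abs_of_nonneg (df_nonneg h x)]
  have h1 := sum2 h (fun j => |x j|)
  have h2 : ∑ i, pw h i * |x i| ≤ ∑ i, |x i| :=
    Finset.sum_le_sum fun i _ => mul_le_of_le_one_left (abs_nonneg _) (pw_le_one' h i)
  calc df h x ≤ ∑ i, ∑ j, pw h i * pw h j * (|x i| + |x j|) := by
        refine Finset.sum_le_sum fun i _ => Finset.sum_le_sum fun j _ => ?_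
        exact mul_le_mul_of_nonneg_left (abs_sub _ _) (mul_nonneg (pw_pos h i).le (pw_pos h j).le)
    _ ≤ _ := by rw [h1]; linarith

theorem df_integrable (A B : Matrix ι ι ℝ) (t : ℝ) :
    Integrable (fun p : (ι → ℝ) × (ι → ℝ) => df (t • p.1 + p.2) p.1) ((gm A).prod (gm B)) :=
  ((sum_abs_integrable' A B).const_mul 2).mono' (df_cont t).aestronglyMeasurable
    (Eventually.of_forall fun _ => df_abs _ _)

theorem thermal_int (A B : Matrix ι ι ℝ) (t0 δ : ℝ) (hδ : 0 < δ) (D : ℝ)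
    (hD : eX A B (t0 + δ) - eX A B t0 ≤ D) :
    ∫ p, df (t0 • p.1 + p.2) p.1 ∂((gm A).prod (gm B)) ≤ Real.sqrt (2 * D / δ) + 2 * D := by
  have hD0 : 0 ≤ D := (sub_nonneg.2 (eX_mono A B (by linarith : t0 ≤ t0 + δ))).trans hD
  have key : ∀ c : ℝ, 0 < c → ∫ p, df (t0 • p.1 + p.2) p.1 ∂((gm A).prod (gm B)) ≤
      c / 2 + D / (c * δ) + 2 * D := by
    intro c hc
    have hi := (mn_integrable A B (t0 + δ)).sub (mn_integrable A B t0)
    calc ∫ p, df (t0 • p.1 + p.2) p.1 ∂((gm A).prod (gm B))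
        ≤ ∫ p, (c / 2 + (mn ((t0 + δ) • p.1 + p.2) p.1 - mn (t0 • p.1 + p.2) p.1) / (c * δ) +
          2 * (mn ((t0 + δ) • p.1 + p.2) p.1 - mn (t0 • p.1 + p.2) p.1))
            ∂((gm A).prod (gm B)) :=
          integral_mono (df_integrable A B t0)
            (((integrable_const _).add (hi.div_const _)).add (hi.const_mul 2))
            fun p => thermal p.1 p.2 t0 δ c hδ hc
      _ = c / 2 + (eX A B (t0 + δ) - eX A B t0) / (c * δ) +
          2 * (eX A B (t0 + δ) - eX A B t0) := by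
          exact int2 (mn_integrable A B (t0 + δ)) (mn_integrable A B t0) _ _
      _ ≤ c / 2 + D / (c * δ) + 2 * D := by
          gcongr
  rcases hD0.eq_or_lt with h0 | h0
  · subst h0
    simp only [mul_zero, zero_div, Real.sqrt_zero, add_zero] at key ⊢
    refine le_of_forall_pos_le_add fun c hc => ?_
    have := key (2 * c) (by positivity)
    linarith
  · set c := Real.sqrt (2 * D / δ) with hc
    have hc0 : 0 < c := Real.sqrt_pos.2 (by positivity)
    have hc2 : c ^ 2 = 2 * D / δ := Real.sq_sqrt (by positivity)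
    have := key c hc0
    have h1 : D / (c * δ) = c / 2 := by
      have : D = c ^ 2 * δ / 2 := by rw [hc2]; field_simp
      rw [this]
      field_simp
    linarith

/-! ### Integration by parts -/

omit [DecidableEq ι] [Nonempty ι] in
theorem gav_snoc (h : ι → ℝ) (n : ℕ) (g : (Fin (n + 1) → ι) → ℝ) :
    gav h (n + 1) g = gav h n (fun s => ∑ j, g (Fin.snoc s j) * pw h j) := by
  unfold gav
  rw [← (Fin.snocEquiv (fun _ : Fin (n + 1) => ι)).sum_comp, Fintype.sum_prod_type_right]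
  refine Finset.sum_congr rfl fun s _ => ?_
  rw [Finset.sum_mul]
  refine Finset.sum_congr rfl fun j _ => ?_
  rw [Fin.prod_univ_castSucc]
  simp [Fin.snocEquiv]
  ring

theorem prod_hasFDeriv (n : ℕ) (s : Fin n → ι) (x : ι → ℝ) :
    HasFDerivAt (fun x : ι → ℝ => ∏ l, pw x (s l))
      (∑ j, ((∏ l, pw x (s l)) * ∑ l, ((if s l = j then 1 else 0) - pw x j)) •
        (ContinuousLinearMap.proj j : (ι → ℝ) →L[ℝ] ℝ)) x := by
  have h := HasFDerivAt.finsetProd (u := (Finset.univ : Finset (Fin n)))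
    (g := fun l x => pw x (s l)) (x := x) (fun l _ => lse_C2b.hG (s l) x)
  refine h.congr_fderiv ?_
  refine ContinuousLinearMap.ext fun v => ?_
  simp only [_root_.sum_apply, _root_.smul_apply, ContinuousLinearMap.proj_apply, smul_eq_mul]
  have h1 : ∀ l : Fin n, (∏ k ∈ Finset.univ.erase l, pw x (s k)) *
      ∑ j, ((if s l = j then pw x (s l) else 0) - pw x (s l) * pw x j) * v j =
      (∏ k, pw x (s k)) * ∑ j, ((if s l = j then 1 else 0) - pw x j) * v j := fun l => by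
    rw [← Finset.mul_prod_erase Finset.univ (fun k => pw x (s k)) (Finset.mem_univ l),
      mul_comm (pw x (s l)), mul_assoc]
    congr 1
    rw [Finset.mul_sum]
    refine Finset.sum_congr rfl fun j _ => ?_
    split_ifs <;> ring
  rw [Finset.sum_congr rfl fun l _ => h1 l, ← Finset.mul_sum, Finset.sum_comm]
  simp only [mul_assoc, ← Finset.mul_sum, Finset.sum_mul]

theorem gav_hasFDeriv (n : ℕ) (f : (Fin n → ι) → ℝ) (x : ι → ℝ) :
    HasFDerivAt (fun x : ι → ℝ => gav x n f)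
      (∑ j, gav x n (fun s => f s * ∑ l, ((if s l = j then 1 else 0) - pw x j)) •
        (ContinuousLinearMap.proj j : (ι → ℝ) →L[ℝ] ℝ)) x := by
  have h : HasFDerivAt (fun x : ι → ℝ => ∑ s : Fin n → ι, f s * ∏ l, pw x (s l)) _ x :=
    HasFDerivAt.fun_sum fun s _ => (prod_hasFDeriv n s x).const_mul (f s)
  refine h.congr_fderiv ?_
  refine ContinuousLinearMap.ext fun v => ?_
  simp only [_root_.sum_apply, _root_.smul_apply, ContinuousLinearMap.proj_apply, smul_eq_mul, gav,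
    Finset.mul_sum, Finset.sum_mul]
  rw [Finset.sum_comm]
  refine Finset.sum_congr rfl fun j _ => Finset.sum_congr rfl fun s _ => ?_
  refine Finset.sum_congr rfl fun l _ => ?_
  ring

omit [DecidableEq ι] in
theorem gav_abs (h : ι → ℝ) (n : ℕ) (f : (Fin n → ι) → ℝ) (C : ℝ) (hC : ∀ s, |f s| ≤ C) :
    |gav h n f| ≤ C := by
  rw [abs_le]
  constructor
  · have := gav_mono h n (f := fun _ => -C) (g := f) fun s => (abs_le.1 (hC s)).1
    rwa [gav_const] at this
  · have := gav_mono h n (f := f) (g := fun _ => C) fun s => (abs_le.1 (hC s)).2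
    rwa [gav_const] at this

omit [DecidableEq ι] in
theorem gav_bdd' (n : ℕ) (f : (Fin n → ι) → ℝ) : ∃ C : ℝ, 0 ≤ C ∧ ∀ h : ι → ℝ, |gav h n f| ≤ C :=
  ⟨∑ s, |f s|, Finset.sum_nonneg fun _ _ => abs_nonneg _, fun h => gav_abs h n f _ fun s =>
    Finset.single_le_sum (f := fun s => |f s|) (fun _ _ => abs_nonneg _) (Finset.mem_univ s)⟩

/-- partial derivatives of Gibbs averages -/
noncomputable def dg (n : ℕ) (f : (Fin n → ι) → ℝ) (j : ι) (h : ι → ℝ) : ℝ :=
  gav h n (fun s => f s * ∑ l, (if s l = j then 1 else 0)) - n * pw h j * gav h n f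

omit [Nonempty ι] in
theorem dg_eq (n : ℕ) (f : (Fin n → ι) → ℝ) (j : ι) (h : ι → ℝ) :
    dg n f j h = gav h n (fun s => f s * ∑ l, ((if s l = j then 1 else 0) - pw h j)) := by
  unfold dg gav
  rw [Finset.mul_sum, ← Finset.sum_sub_distrib]
  refine Finset.sum_congr rfl fun s _ => ?_
  beta_reduce
  rw [Finset.sum_sub_distrib, Finset.sum_const, Finset.card_univ, Fintype.card_fin, nsmul_eq_mul]
  ring

theorem dg_cont (n : ℕ) (f : (Fin n → ι) → ℝ) (j : ι) : Continuous (dg n f j) := by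
  unfold dg
  exact (gav_measurable n _).sub ((continuous_const.mul (pw_cont' j)).mul (gav_measurable n _))

theorem dg_bdd (n : ℕ) (f : (Fin n → ι) → ℝ) (j : ι) : ∃ C : ℝ, 0 ≤ C ∧ ∀ h, |dg n f j h| ≤ C := by
  obtain ⟨C1, hC1, h1⟩ := gav_bdd' n (fun s : Fin n → ι => f s * ∑ l, (if s l = j then 1 else 0))
  obtain ⟨C2, hC2, h2⟩ := gav_bdd' n f
  refine ⟨C1 + n * C2, by positivity, fun h => ?_⟩
  refine (abs_sub _ _).trans (add_le_add (h1 h) ?_)
  rw [abs_mul, abs_mul, abs_of_pos (pw_pos h j), Nat.abs_cast, mul_assoc]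
  refine mul_le_mul_of_nonneg_left ?_ (Nat.cast_nonneg n)
  calc pw h j * |gav h n f| ≤ 1 * C2 :=
        mul_le_mul (pw_le_one' h j) (h2 h) (abs_nonneg _) zero_le_one
    _ = C2 := one_mul _

theorem ibp_fixed {A : Matrix ι ι ℝ} (hA : A.PosSemidef) (t : ℝ) (y : ι → ℝ) (n : ℕ)
    (f : (Fin n → ι) → ℝ) (i : ι) :
    ∫ x, x i * gav (t • x + y) n f ∂(gm A) =
      ∑ j, A i j * ∫ x, t * dg n f j (t • x + y) ∂(gm A) := by
  have hlin : ∀ x : ι → ℝ, HasFDerivAt (fun x : ι → ℝ => t • x + y)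
      (t • ContinuousLinearMap.id ℝ (ι → ℝ)) x := fun x =>
    ((hasFDerivAt_id x).const_smul t).add_const y
  have hF : ∀ x : ι → ℝ, HasFDerivAt (fun x : ι → ℝ => gav (t • x + y) n f)
      (∑ j, (t * dg n f j (t • x + y)) • (ContinuousLinearMap.proj j : (ι → ℝ) →L[ℝ] ℝ)) x := by
    intro x
    have h := (gav_hasFDeriv n f (t • x + y)).comp x (hlin x)
    refine h.congr_fderiv ?_
    refine ContinuousLinearMap.ext fun v => ?_
    simp only [_root_.sum_apply, _root_.smul_apply, ContinuousLinearMap.proj_apply, smul_eq_mul,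
      ContinuousLinearMap.comp_apply, ContinuousLinearMap.id_apply, Pi.smul_apply, dg_eq]
    refine Finset.sum_congr rfl fun j _ => ?_
    ring
  obtain ⟨C, hC0, hC⟩ := gav_bdd' (ι := ι) n f
  choose D hD0 hD using fun j => dg_bdd n f j
  have hD' : ∀ j, D j ≤ ∑ j, D j := fun j =>
    Finset.single_le_sum (f := D) (fun j _ => hD0 j) (Finset.mem_univ j)
  have hDs : 0 ≤ ∑ j, D j := Finset.sum_nonneg fun j _ => hD0 j
  refine gm_ibp hA (fun x => gav (t • x + y) n f) (fun j x => t * dg n f j (t • x + y)) hF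
    (fun j => continuous_const.mul ((dg_cont n f j).comp (by fun_prop)))
    ⟨C + |t| * ∑ j, D j, fun x => ?_⟩ i
  have hB : 0 ≤ C + |t| * ∑ j, D j := by positivity
  have hE : 1 ≤ Real.exp ((C + |t| * ∑ j, D j) * ∑ i, |x i|) :=
    Real.one_le_exp (mul_nonneg hB (Finset.sum_nonneg fun i _ => abs_nonneg _))
  have hBE : C + |t| * ∑ j, D j ≤
      (C + |t| * ∑ j, D j) * Real.exp ((C + |t| * ∑ j, D j) * ∑ i, |x i|) :=
    le_mul_of_one_le_right hB hE
  refine ⟨?_, fun j => ?_⟩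
  · have := hC (t • x + y)
    have h2 : 0 ≤ |t| * ∑ j, D j := by positivity
    linarith
  · rw [abs_mul]
    have h2 : |t| * |dg n f j (t • x + y)| ≤ |t| * ∑ j, D j :=
      mul_le_mul_of_nonneg_left ((hD j _).trans (hD' j)) (abs_nonneg t)
    linarith

theorem xgav_integrable (A B : Matrix ι ι ℝ) (t : ℝ) (n : ℕ) (f : (Fin n → ι) → ℝ) (i : ι) :
    Integrable (fun p : (ι → ℝ) × (ι → ℝ) => p.1 i * gav (t • p.1 + p.2) n f)
      ((gm A).prod (gm B)) := by
  obtain ⟨C, hC0, hC⟩ := gav_bdd' (ι := ι) n f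
  refine ((sum_abs_integrable' A B).const_mul C).mono'
    (Continuous.aestronglyMeasurable ?_) (Eventually.of_forall fun p => ?_)
  · exact Continuous.mul (by fun_prop) ((gav_measurable n f).comp (by fun_prop))
  · rw [Real.norm_eq_abs, abs_mul, mul_comm]
    exact mul_le_mul (hC _) (Finset.single_le_sum (f := fun i => |p.1 i|)
      (fun _ _ => abs_nonneg _) (Finset.mem_univ i)) (abs_nonneg _) hC0

theorem dg_integrable (A B : Matrix ι ι ℝ) (t : ℝ) (n : ℕ) (f : (Fin n → ι) → ℝ) (j : ι) :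
    Integrable (fun p : (ι → ℝ) × (ι → ℝ) => t * dg n f j (t • p.1 + p.2))
      ((gm A).prod (gm B)) := by
  obtain ⟨C, hC0, hC⟩ := dg_bdd n f j
  refine Integrable.const_mul ?_ t
  refine Integrable.of_bound (Continuous.aestronglyMeasurable ?_) C (Eventually.of_forall fun p => ?_)
  · exact (dg_cont n f j).comp (by fun_prop)
  · exact hC _

theorem ibp_coord {A B : Matrix ι ι ℝ} (hA : A.PosSemidef) (t : ℝ) (n : ℕ)
    (f : (Fin n → ι) → ℝ) (i : ι) :
    ∫ p, p.1 i * gav (t • p.1 + p.2) n f ∂((gm A).prod (gm B)) =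
      ∫ p, ∑ j, A i j * (t * dg n f j (t • p.1 + p.2)) ∂((gm A).prod (gm B)) := by
  rw [integral_prod_symm _ (xgav_integrable A B t n f i), integral_finsetSum _
    (fun j _ => (dg_integrable A B t n f j).const_mul (A i j))]
  simp only [ibp_fixed hA]
  have h1 : ∀ j, Integrable (fun y => A i j * ∫ x, t * dg n f j (t • x + y) ∂(gm A)) (gm B) :=
    fun j => (dg_integrable A B t n f j).integral_prod_right.const_mul _
  rw [integral_finsetSum _ (fun j _ => h1 j)]
  refine Finset.sum_congr rfl fun j _ => ?_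
  rw [integral_const_mul, integral_const_mul, integral_prod_symm _ (dg_integrable A B t n f j)]

omit [Nonempty ι] in
theorem gav_split (h x : ι → ℝ) (n : ℕ) (f : (Fin (n + 1) → ι) → ℝ) :
    gav h (n + 1) (fun s => f s * x (s 0)) =
      ∑ i, x i * gav h (n + 1) (fun s => if s 0 = i then f s else 0) := by
  unfold gav
  simp only [Finset.mul_sum]
  rw [Finset.sum_comm]
  refine Finset.sum_congr rfl fun s _ => ?_
  simp only [ite_mul, zero_mul, mul_ite, mul_zero, Finset.sum_ite_eq, Finset.mem_univ, if_true]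
  ring

theorem dg_sum (A : Matrix ι ι ℝ) (h : ι → ℝ) (n : ℕ) (f : (Fin (n + 1) → ι) → ℝ) :
    ∑ i, ∑ j, A i j * dg (n + 1) (fun s => if s 0 = i then f s else 0) j h =
      gav h (n + 2) (fun s => f (s ∘ Fin.castSucc) * (∑ l : Fin (n + 1), A (s 0) (s l.castSucc)
            - ((n : ℝ) + 1) * A (s 0) (s (Fin.last (n + 1))))) := by
  rw [gav_snoc]
  have h0 : ∀ (s : Fin (n + 1) → ι) (k : ι), (Fin.snoc s k : Fin (n + 2) → ι) 0 = s 0 := fun s k => by
    exact Fin.snoc_castSucc (α := fun _ => ι) k s (0 : Fin (n + 1))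
  have h1 : ∀ (s : Fin (n + 1) → ι) (k : ι),
      (Fin.snoc s k : Fin (n + 2) → ι) ∘ Fin.castSucc = s := fun s k => by
    funext l
    simp
  simp only [h0, h1, Fin.snoc_castSucc, Fin.snoc_last]
  unfold dg gav
  have h2 : ∀ s : Fin (n + 1) → ι, ∑ k, f s * (∑ l, A (s 0) (s l) - ((n : ℝ) + 1) * A (s 0) k) *
      pw h k = f s * ∑ l, A (s 0) (s l) - ((n : ℝ) + 1) * f s * ∑ j, A (s 0) j * pw h j := fun s => by
    have h3 : ∀ k, f s * (∑ l, A (s 0) (s l) - ((n : ℝ) + 1) * A (s 0) k) * pw h k =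
        (f s * ∑ l, A (s 0) (s l)) * pw h k - ((n : ℝ) + 1) * f s * (A (s 0) k * pw h k) :=
      fun k => by ring
    simp only [h3]
    rw [Finset.sum_sub_distrib, ← Finset.mul_sum, ← Finset.mul_sum, pw_sum, mul_one]
  simp only [h2]
  have h4 : ∀ i j, A i j * (∑ s : Fin (n + 1) → ι, (if s 0 = i then f s else 0) *
        (∑ l, if s l = j then 1 else 0) * ∏ l, pw h (s l) -
      ((n + 1 : ℕ) : ℝ) * pw h j * ∑ s : Fin (n + 1) → ι, (if s 0 = i then f s else 0) *
        ∏ l, pw h (s l)) =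
      ∑ s : Fin (n + 1) → ι, (if s 0 = i then f s * (∏ l, pw h (s l)) *
        ((∑ l, if s l = j then A i j else 0) - ((n : ℝ) + 1) * (A i j * pw h j)) else 0) := by
    intro i j
    rw [Finset.mul_sum, ← Finset.sum_sub_distrib, Finset.mul_sum]
    refine Finset.sum_congr rfl fun s _ => ?_
    have h5 : ∑ l : Fin (n + 1), (if s l = j then A i j else 0) =
        A i j * ∑ l : Fin (n + 1), (if s l = j then (1 : ℝ) else 0) := by
      rw [Finset.mul_sum]
      exact Finset.sum_congr rfl fun l _ => by split_ifs <;> simp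
    rw [h5]
    split_ifs
    · push_cast
      ring
    · simp
  simp only [h4]
  rw [Finset.sum_congr rfl fun i _ => Finset.sum_comm, Finset.sum_comm]
  refine Finset.sum_congr rfl fun s _ => ?_
  have h6 : ∀ i, ∑ j, (if s 0 = i then f s * (∏ l, pw h (s l)) *
        ((∑ l, if s l = j then A i j else 0) - ((n : ℝ) + 1) * (A i j * pw h j)) else 0) =
      if s 0 = i then f s * (∏ l, pw h (s l)) *
        (∑ l, A i (s l) - ((n : ℝ) + 1) * ∑ j, (A i j * pw h j)) else 0 := by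
    intro i
    split_ifs with hi
    · rw [← Finset.mul_sum, Finset.sum_sub_distrib, Finset.sum_comm, ← Finset.mul_sum]
      simp
    · simp
  simp only [h6, Finset.sum_ite_eq, Finset.mem_univ, if_true]
  ring

theorem ibp {A B : Matrix ι ι ℝ} (hA : A.PosSemidef) (hB : B.PosSemidef) (t : ℝ) (n : ℕ)
    (f : (Fin (n + 1) → ι) → ℝ) :
    ∫ p, gav (t • p.1 + p.2) (n + 1) (fun s => f s * p.1 (s 0)) ∂((gm A).prod (gm B)) =
      t * EG (t ^ 2 • A + B) (n + 2) (fun s => f (s ∘ Fin.castSucc) *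
        (∑ l : Fin (n + 1), A (s 0) (s l.castSucc)
            - ((n : ℝ) + 1) * A (s 0) (s (Fin.last (n + 1))))) := by
  simp only [gav_split]
  rw [integral_finsetSum _ (fun i _ => xgav_integrable A B t (n + 1) _ i)]
  simp only [ibp_coord hA]
  rw [← integral_finsetSum _ (fun i _ => integrable_finsetSum _ fun j _ =>
    (dg_integrable A B t (n + 1) _ j).const_mul (A i j))]
  unfold EG
  rw [← law_integral hA hB t _ (gav_measurable (n + 2) _), ← integral_const_mul]
  refine integral_congr_ae (Eventually.of_forall fun p => ?_)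
  simp only
  rw [← dg_sum, Finset.mul_sum]
  refine Finset.sum_congr rfl fun i _ => ?_
  rw [Finset.mul_sum]
  refine Finset.sum_congr rfl fun j _ => ?_
  ring

omit [DecidableEq ι] [Nonempty ι] in
theorem gav_one (h : ι → ℝ) (g : ι → ℝ) :
    gav h 1 (fun s => g (s 0)) = ∑ i, pw h i * g i := by
  unfold gav
  rw [← (Equiv.funUnique (Fin 1) ι).symm.sum_comp]
  refine Finset.sum_congr rfl fun i _ => ?_
  simp [mul_comm]

theorem eX_eq {A B : Matrix ι ι ℝ} (hA : A.PosSemidef) (hB : B.PosSemidef) (t : ℝ) :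
    eX A B t = t * EG (t ^ 2 • A + B) 2 (fun s => A (s 0) (s 0) - A (s 0) (s 1)) := by
  have h := ibp hA hB t 0 (fun _ => 1)
  simp only [one_mul] at h
  have h1 : ∀ p : (ι → ℝ) × (ι → ℝ), gav (t • p.1 + p.2) (0 + 1) (fun s => p.1 (s 0)) =
      mn (t • p.1 + p.2) p.1 := fun p => gav_one _ _
  simp only [h1] at h
  unfold eX
  rw [h]
  congr 2
  funext s
  simp

omit [DecidableEq ι] in
theorem pointwise (h x : ι → ℝ) (n : ℕ) (f : (Fin (n + 1) → ι) → ℝ) (hf : ∀ s, |f s| ≤ 1) (m : ℝ) :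
    |gav h (n + 1) (fun s => f s * x (s 0)) - m * gav h (n + 1) f| ≤
      df h x + |mn h x - m| := by
  have h1 : gav h (n + 1) (fun s => f s * x (s 0)) - m * gav h (n + 1) f =
      gav h (n + 1) (fun s => f s * (x (s 0) - m)) := by
    rw [← gav_mul, sub_eq_iff_eq_add, ← gav_add]
    congr 1
    funext s
    ring
  rw [h1]
  have h2 : |gav h (n + 1) (fun s => f s * (x (s 0) - m))| ≤
      gav h (n + 1) (fun s => |x (s 0) - m|) := by
    have h3 : ∀ s : Fin (n + 1) → ι, |f s * (x (s 0) - m)| ≤ |x (s 0) - m| := fun s => by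
      rw [abs_mul]
      exact mul_le_of_le_one_left (abs_nonneg _) (hf s)
    rw [abs_le]
    constructor
    · have h4 := gav_mono h (n + 1) (f := fun s => (-1) * |x (s 0) - m|)
        (g := fun s => f s * (x (s 0) - m)) fun s => by
          have := (abs_le.1 (h3 s)).1
          linarith
      rw [gav_mul] at h4
      linarith
    · exact gav_mono h (n + 1) fun s => (abs_le.1 (h3 s)).2
  refine h2.trans ?_
  have h5 := gav_inj h (m := 1) (n := n + 1) (fun _ => 0) (Function.injective_of_subsingleton _)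
    (fun s => |x (s 0) - m|)
  simp only [Function.comp_apply] at h5
  rw [h5, gav_one h (fun i => |x i - m|)]
  have h6 : ∀ i, |x i - mn h x| ≤ ∑ j, pw h j * |x i - x j| := fun i => by
    have h7 : x i - mn h x = ∑ j, pw h j * (x i - x j) := by
      simp only [mul_sub, Finset.sum_sub_distrib, ← Finset.sum_mul, pw_sum, one_mul]
      rfl
    rw [h7]
    refine (Finset.abs_sum_le_sum_abs _ _).trans_eq ?_
    exact Finset.sum_congr rfl fun j _ => by rw [abs_mul, abs_of_pos (pw_pos h j)]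
  calc ∑ i, pw h i * |x i - m| ≤
        ∑ i, (pw h i * ∑ j, pw h j * |x i - x j| + pw h i * |mn h x - m|) := by
        refine Finset.sum_le_sum fun i _ => ?_
        rw [← mul_add]
        refine mul_le_mul_of_nonneg_left ?_ (pw_pos h i).le
        have := abs_add_le (x i - mn h x) (mn h x - m)
        rw [sub_add_sub_cancel] at this
        linarith [h6 i]
    _ = df h x + |mn h x - m| := by
        rw [Finset.sum_add_distrib, ← Finset.sum_mul, pw_sum, one_mul]
        unfold df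
        simp only [Finset.mul_sum, mul_assoc]

end GGfin

open GGfin

theorem FE_sq_deriv {A B : Matrix ι ι ℝ} (hA : A.PosSemidef) (hB : B.PosSemidef) (t : ℝ) :
    HasDerivAt (fun t : ℝ => FE (t ^ 2 • A + B))
      (t * EG (t ^ 2 • A + B) 2 (fun s => A (s 0) (s 0) - A (s 0) (s 1))) t := by
  rw [← eX_eq hA hB t]
  exact FE_hasDeriv hA hB t

theorem gg_finite {A B : Matrix ι ι ℝ} (hA : A.PosSemidef) (hB : B.PosSemidef)
    (t0 δ M N : ℝ) (hδ : 0 < δ) (hN : 0 < N) (hM : 0 ≤ M)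
    (hd : ∀ t ∈ Set.Icc (t0 - δ) (t0 + δ), ∀ i, (t ^ 2 • A + B) i i ≤ M * N)
    (n : ℕ) (f : (Fin (n + 1) → ι) → ℝ) (hf : ∀ s, |f s| ≤ 1) (Δ : ℝ)
    (hΔ : Δ = (FE ((t0 + 2 * δ) ^ 2 • A + B) - FE ((t0 + δ) ^ 2 • A + B)
      - FE ((t0 - δ) ^ 2 • A + B) + FE ((t0 - 2 * δ) ^ 2 • A + B)) / (N * δ)) :
    |t0| / N * |EG (t0 ^ 2 • A + B) (n + 2)
          (fun s => f (s ∘ Fin.castSucc) * (∑ l : Fin (n + 1), A (s 0) (s l.castSucc)
            - ((n : ℝ) + 1) * A (s 0) (s (Fin.last (n + 1)))))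
        - EG (t0 ^ 2 • A + B) (n + 1) f *
          EG (t0 ^ 2 • A + B) 2 (fun s => A (s 0) (s 0) - A (s 0) (s 1))|
      ≤ Real.sqrt (2 * Δ / (δ * N)) + 5 * Δ + 6 * Real.sqrt M / (δ * Real.sqrt N) := by
  -- convexity
  have hs1 := (secant (FE_hasDeriv hA hB) (eX_mono A B) (t0 + δ) δ hδ).1
  have hs2 := (secant (FE_hasDeriv hA hB) (eX_mono A B) (t0 - 2 * δ) δ hδ).2
  have e1 : t0 + δ + δ = t0 + 2 * δ := by ring
  have e2 : t0 - 2 * δ + δ = t0 - δ := by ring
  rw [e1] at hs1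
  rw [e2] at hs2
  have hND : eX A B (t0 + δ) - eX A B (t0 - δ) ≤ N * Δ := by
    have h1 : N * Δ = (FE ((t0 + 2 * δ) ^ 2 • A + B) - FE ((t0 + δ) ^ 2 • A + B)
      - FE ((t0 - δ) ^ 2 • A + B) + FE ((t0 - 2 * δ) ^ 2 • A + B)) / δ := by
      rw [hΔ]
      field_simp
    rw [h1, le_div_iff₀ hδ]
    linarith
  have hm1 := eX_mono A B (by linarith : t0 - δ ≤ t0)
  have hm2 := eX_mono A B (by linarith : t0 ≤ t0 + δ)
  have hND2 : eX A B (t0 + δ) - eX A B t0 ≤ N * Δ := by linarith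
  have hND0 : 0 ≤ N * Δ := by linarith
  have hΔ0 : 0 ≤ Δ := nonneg_of_mul_nonneg_right hND0 hN
  -- the two sides
  have hth := thermal_int A B t0 δ hδ (N * Δ) hND2
  have hdi := disorder_int hA hB t0 δ (M * N) hδ hd
  have hI1 : Integrable (fun p : (ι → ℝ) × (ι → ℝ) =>
      gav (t0 • p.1 + p.2) (n + 1) (fun s => f s * p.1 (s 0))) ((gm A).prod (gm B)) := by
    simp only [gav_split]
    exact integrable_finsetSum _ fun i _ => xgav_integrable A B t0 (n + 1) _ i
  have hI2 : Integrable (fun p : (ι → ℝ) × (ι → ℝ) =>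
      gav (t0 • p.1 + p.2) (n + 1) f) ((gm A).prod (gm B)) :=
    law_integrable hA hB t0 _ (gav_measurable _ _) (gav_integrable _ _ _)
  have hmain : |∫ p, gav (t0 • p.1 + p.2) (n + 1) (fun s => f s * p.1 (s 0))
      ∂((gm A).prod (gm B)) - EG (t0 ^ 2 • A + B) (n + 1) f * eX A B t0| ≤
      Real.sqrt (2 * (N * Δ) / δ) + 2 * (N * Δ) + (6 * Real.sqrt (M * N) / δ + N * Δ) := by
    have h1 : EG (t0 ^ 2 • A + B) (n + 1) f * eX A B t0 =
        ∫ p, eX A B t0 * gav (t0 • p.1 + p.2) (n + 1) f ∂((gm A).prod (gm B)) := by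
      rw [integral_const_mul, law_integral hA hB t0 _ (gav_measurable _ _), mul_comm]
      rfl
    rw [h1, ← integral_sub hI1 (hI2.const_mul _)]
    refine (abs_integral_le_integral_abs).trans ?_
    have h2 := mn_integrable A B t0
    have h3 : Integrable (fun p : (ι → ℝ) × (ι → ℝ) =>
        |mn (t0 • p.1 + p.2) p.1 - eX A B t0|) ((gm A).prod (gm B)) :=
      (h2.sub (integrable_const _)).abs
    calc ∫ p, |gav (t0 • p.1 + p.2) (n + 1) (fun s => f s * p.1 (s 0)) -
          eX A B t0 * gav (t0 • p.1 + p.2) (n + 1) f| ∂((gm A).prod (gm B))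
        ≤ ∫ p, (df (t0 • p.1 + p.2) p.1 + |mn (t0 • p.1 + p.2) p.1 - eX A B t0|)
            ∂((gm A).prod (gm B)) :=
          integral_mono (hI1.sub (hI2.const_mul _)).abs ((df_integrable A B t0).add h3)
            fun p => pointwise _ _ n f hf _
      _ = ∫ p, df (t0 • p.1 + p.2) p.1 ∂((gm A).prod (gm B)) +
            ∫ p, |mn (t0 • p.1 + p.2) p.1 - eX A B t0| ∂((gm A).prod (gm B)) :=
          integral_add (df_integrable A B t0) h3
      _ ≤ _ := by
          refine add_le_add hth (hdi.trans ?_)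
          linarith
  rw [ibp hA hB t0 n f, eX_eq hA hB t0] at hmain
  set X := EG (t0 ^ 2 • A + B) (n + 2)
          (fun s => f (s ∘ Fin.castSucc) * (∑ l : Fin (n + 1), A (s 0) (s l.castSucc)
            - ((n : ℝ) + 1) * A (s 0) (s (Fin.last (n + 1))))) with hX
  set Y := EG (t0 ^ 2 • A + B) 2 (fun s => A (s 0) (s 0) - A (s 0) (s 1)) with hY
  set E := EG (t0 ^ 2 • A + B) (n + 1) f with hE
  have h4 : |t0| / N * |X - E * Y| = |t0 * X - E * (t0 * Y)| / N := by
    have : t0 * X - E * (t0 * Y) = t0 * (X - E * Y) := by ring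
    rw [this, abs_mul]
    ring
  rw [h4, div_le_iff₀ hN]
  refine hmain.trans ?_
  have hsN : 0 < Real.sqrt N := Real.sqrt_pos.2 hN
  have hsN2 : Real.sqrt N * Real.sqrt N = N := Real.mul_self_sqrt hN.le
  have h5 : Real.sqrt (2 * (N * Δ) / δ) = Real.sqrt (2 * Δ / (δ * N)) * N := by
    have : 2 * (N * Δ) / δ = 2 * Δ / (δ * N) * N ^ 2 := by field_simp
    rw [this, Real.sqrt_mul (by positivity), Real.sqrt_sq hN.le]
  have h6 : 6 * Real.sqrt (M * N) / δ = 6 * Real.sqrt M / (δ * Real.sqrt N) * N := by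
    rw [Real.sqrt_mul hM]
    field_simp
    rw [sq, hsN2]
  rw [h5, h6]
  nlinarith

end Pool.Agent.OS
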