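import Pool.Agent.LibMP0f946f.Reg
import Pool.Agent.LibMP0f946f.GGfin

/-! TASK REGGG: Ghirlanda-Guerra identities and convergence of moments for regular models, with weights.

Paper proof.  Fix `p ∈ {2,4,5,…}`, `t0 = √(c p) > 0`.  `cov (c w_j) (N_j) = t0² A_j + B_j` with
`A_j = N_j w_j(p) ov^p`, `B_j` = the remaining terms (`psd_series`).  `FE (t² A_j + B_j)/N_j - FN (update c p t²) (N_j) → 0`
for every `t` (`FN_lip` with `∑ |c_q w_j(q) - c_q| → 0`, dominated by `(3+q) c_q`), so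
`F_j(t) := FE (t² A_j + B_j)/N_j → Φ t` near `t0`.
* moments: `F_j` convex with `F_j'(t0) = t0 w_j(p) (1 - EG_2[ov^p])` (`FE_sq_deriv`), and convexity +
  differentiability of `Φ` gives `F_j'(t0) → Φ'(t0) = d p`.
* `gg_finite` with `δ` fixed, `j → ∞`, then `δ → 0`: `Δ → (Φ(t0+2δ) - Φ(t0+δ) - Φ(t0-δ) + Φ(t0-2δ))/δ`, which tends to
  `0` as `δ → 0` by differentiability at `t0`.  On the diagonal `ov = 1`; divide by `t0 w_j(p) → t0 > 0`. -/

set_option autoImplicit false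
open MeasureTheory ProbabilityTheory Real Filter Topology

namespace Pool.Agent.OS

theorem EG_sum {ι : Type*} [Fintype ι] [DecidableEq ι] [Nonempty ι] (C : Matrix ι ι ℝ) (n : ℕ)
    {α : Type*} (S : Finset α) (f : α → (Fin n → ι) → ℝ) :
    EG C n (fun s => ∑ a ∈ S, f a s) = ∑ a ∈ S, EG C n (f a) := by
  classical
  induction S using Finset.induction_on with
  | empty => simpa using EG_const C n 0
  | insert a S ha ih =>
    simp only [Finset.sum_insert ha]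
    rw [EG_add, ih]

theorem two_add_le (q : ℕ) : (3 : ℝ) + q ≤ 3 * 2 ^ q := by
  induction q with
  | zero => norm_num
  | succ q ih =>
    have : (1 : ℝ) ≤ 2 ^ q := one_le_pow₀ (by norm_num)
    push_cast
    rw [pow_succ]
    linarith

/-- admissibility of a weighted sequence -/
theorem adm_wt {e : ℕ → ℝ} (he : Adm e) (h4 : Summable (fun p : ℕ => (4:ℝ) ^ p * e p)) {w : ℕ → ℝ}
    (hw : ∀ p : ℕ, 0 ≤ w p ∧ w p ≤ 2 + p) : Adm (fun q => e q * w q) where
  nonneg p := mul_nonneg (he.nonneg p) (hw p).1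
  sum := by
    refine Summable.of_nonneg_of_le (fun p => ?_) (fun p => ?_) (h4.mul_left 3)
    · have h1 := (hw p).1
      have h2 := he.nonneg p
      positivity
    · have h1 := (hw p).2
      have h2 := he.nonneg p
      have h3 := two_add_le p
      have h5 : (4 : ℝ) ^ p = 2 ^ p * 2 ^ p := by
        rw [← mul_pow]
        norm_num
      calc (2:ℝ) ^ p * (e p * w p) ≤ 2 ^ p * (e p * (3 * 2 ^ p)) := by
            refine mul_le_mul_of_nonneg_left (mul_le_mul_of_nonneg_left (by linarith) h2)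
              (by positivity)
        _ = 3 * (4 ^ p * e p) := by rw [h5]; ring
  c0 := by simp [he.c0]
  c1 := by simp [he.c1]

theorem adm_update {c : ℕ → ℝ} (hc : Adm c) {p : ℕ} (hp : 2 ≤ p) {x : ℝ} (hx : 0 ≤ x) :
    Adm (Function.update c p x) where
  nonneg q := by
    rcases eq_or_ne q p with rfl | h
    · simpa using hx
    · simpa [Function.update_of_ne h] using hc.nonneg q
  sum := by
    have h1 : (fun q : ℕ => (2:ℝ) ^ q * Function.update c p x q) =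
        Function.update (fun q : ℕ => (2:ℝ) ^ q * c q) p (2 ^ p * x) := by
      funext q
      rcases eq_or_ne q p with rfl | h
      · simp
      · simp [Function.update_of_ne h]
    rw [h1]
    exact hc.sum.update p _
  c0 := by
    rw [Function.update_of_ne (by omega)]
    exact hc.c0
  c1 := by
    rw [Function.update_of_ne (by omega)]
    exact hc.c1

theorem sum4_update {c : ℕ → ℝ} (h4 : Summable (fun p : ℕ => (4:ℝ) ^ p * c p)) (p : ℕ) (x : ℝ) :
    Summable (fun q : ℕ => (4:ℝ) ^ q * Function.update c p x q) := by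
  have h1 : (fun q : ℕ => (4:ℝ) ^ q * Function.update c p x q) =
      Function.update (fun q : ℕ => (4:ℝ) ^ q * c q) p (4 ^ p * x) := by
    funext q
    rcases eq_or_ne q p with rfl | h
    · simp
    · simp [Function.update_of_ne h]
  rw [h1]
  exact h4.update p _

theorem xi_summable {c : ℕ → ℝ} (hc : Adm c) {y : ℝ} (hy : |y| ≤ 1) :
    Summable (fun q => c q * y ^ q) := by
  refine Summable.of_norm_bounded hc.summable (fun q => ?_)
  rw [norm_mul, norm_pow, Real.norm_eq_abs, Real.norm_eq_abs, abs_of_nonneg (hc.nonneg q)]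
  exact mul_le_of_le_one_right (hc.nonneg q) (pow_le_one₀ (abs_nonneg _) hy)

/-- the matrix of the `p`-spin part -/
noncomputable def pA (p N : ℕ) (w : ℝ) : Matrix (Cfg N) (Cfg N) ℝ :=
  Matrix.of fun σ τ => (N : ℝ) * (w * ov σ τ ^ p)

theorem pA_psd {p : ℕ} (hp : 2 ≤ p) (N : ℕ) {w : ℝ} (hw : 0 ≤ w) : (pA p N w).PosSemidef := by
  have h1 : Adm (Function.update (fun _ : ℕ => (0:ℝ)) p w) := by
    refine adm_update ⟨fun _ => le_refl _, ?_, rfl, rfl⟩ hp hw
    simpa using summable_zero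
  have h2 := cov_psd h1 N
  have h3 : cov (Function.update (fun _ : ℕ => (0:ℝ)) p w) N = pA p N w := by
    ext σ τ
    simp only [cov, xi, pA, Matrix.of_apply]
    rw [tsum_eq_single p]
    · simp
    · intro q hq
      rw [Function.update_of_ne hq, zero_mul]
  rwa [h3] at h2

theorem cov_update {c : ℕ → ℝ} (hc : Adm c) {p : ℕ} (hp : 2 ≤ p) (t w : ℝ) (hw : 0 ≤ w) (N : ℕ) :
    cov (Function.update c p (t ^ 2 * w)) N =
      t ^ 2 • pA p N w + cov (Function.update c p 0) N := by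
  ext σ τ
  simp only [cov, xi, pA, Matrix.add_apply, Matrix.smul_apply, Matrix.of_apply, smul_eq_mul]
  have h := (xi_summable (adm_update hc hp (by positivity : 0 ≤ t ^ 2 * w))
    (ov_abs_le σ τ)).tsum_eq_add_tsum_ite p
  rw [h, Function.update_self]
  have h2 : (fun q => if q = p then 0 else Function.update c p (t ^ 2 * w) q * ov σ τ ^ q) =
      fun q => Function.update c p 0 q * ov σ τ ^ q := by
    funext q
    rcases eq_or_ne q p with rfl | h
    · simp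
    · simp [Function.update_of_ne h, h]
  rw [h2]
  ring

/-- derivatives of convex functions converging pointwise to a function differentiable at `t0` -/
theorem convex_deriv_tendsto (F : ℕ → ℝ → ℝ) (F' : ℕ → ℝ) (Φ : ℝ → ℝ) (D t0 : ℝ)
    (hF : ∀ j, ConvexOn ℝ Set.univ (F j)) (hF' : ∀ j, HasDerivAt (F j) (F' j) t0)
    (hΦ : ∀ᶠ t in 𝓝 t0, Tendsto (fun j => F j t) atTop (𝓝 (Φ t))) (hD : HasDerivAt Φ D t0) :
    Tendsto F' atTop (𝓝 D) := by
  have hs := hasDerivAt_iff_tendsto_slope_zero.1 hD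
  have h0 : Tendsto (fun j => F j t0) atTop (𝓝 (Φ t0)) := hΦ.self_of_nhds
  have hΦ' : ∀ᶠ u in 𝓝 (0:ℝ), Tendsto (fun j => F j (t0 + u)) atTop (𝓝 (Φ (t0 + u))) := by
    have h1 : Tendsto (fun u : ℝ => t0 + u) (𝓝 0) (𝓝 t0) := by
      have : Tendsto (fun u : ℝ => t0 + u) (𝓝 0) (𝓝 (t0 + 0)) :=
        (continuous_const.add continuous_id).tendsto 0
      simpa using this
    exact h1.eventually hΦ
  have lim : ∀ u : ℝ, Tendsto (fun j => F j (t0 + u)) atTop (𝓝 (Φ (t0 + u))) →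
      Tendsto (fun j => u⁻¹ • (F j (t0 + u) - F j t0)) atTop (𝓝 (u⁻¹ • (Φ (t0 + u) - Φ t0))) :=
    fun u hu => (hu.sub h0).const_smul _
  refine tendsto_order.2 ⟨fun a ha => ?_, fun a ha => ?_⟩
  · -- use a negative increment
    have h1 : ∀ᶠ u in 𝓝[<] (0:ℝ), a < u⁻¹ • (Φ (t0 + u) - Φ t0) :=
      (hs.eventually (lt_mem_nhds ha)).filter_mono (nhdsWithin_mono _ (fun x hx => ne_of_lt hx))
    have h2 : ∀ᶠ u in 𝓝[<] (0:ℝ), Tendsto (fun j => F j (t0 + u)) atTop (𝓝 (Φ (t0 + u))) :=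
      hΦ'.filter_mono nhdsWithin_le_nhds
    obtain ⟨u, hu1, hu2, hu3⟩ := (h1.and (h2.and self_mem_nhdsWithin)).exists
    have hu3' : u < 0 := hu3
    filter_upwards [(lim u hu2).eventually (lt_mem_nhds hu1)] with j hj
    refine hj.trans_le ?_
    have h3 := (hF j).slope_le_of_hasDerivAt (Set.mem_univ (t0 + u)) (Set.mem_univ t0)
      (by linarith) (hF' j)
    rw [slope_def_field] at h3
    refine le_trans (le_of_eq ?_) h3
    rw [smul_eq_mul]
    have : t0 - (t0 + u) = -u := by ring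
    rw [this]
    field_simp
    ring
  · have h1 : ∀ᶠ u in 𝓝[>] (0:ℝ), u⁻¹ • (Φ (t0 + u) - Φ t0) < a :=
      (hs.eventually (gt_mem_nhds ha)).filter_mono (nhdsWithin_mono _ (fun x hx => ne_of_gt hx))
    have h2 : ∀ᶠ u in 𝓝[>] (0:ℝ), Tendsto (fun j => F j (t0 + u)) atTop (𝓝 (Φ (t0 + u))) :=
      hΦ'.filter_mono nhdsWithin_le_nhds
    obtain ⟨u, hu1, hu2, hu3⟩ := (h1.and (h2.and self_mem_nhdsWithin)).exists
    have hu3' : 0 < u := hu3
    filter_upwards [(lim u hu2).eventually (gt_mem_nhds hu1)] with j hj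
    refine lt_of_le_of_lt ?_ hj
    have h3 := (hF j).le_slope_of_hasDerivAt (Set.mem_univ t0) (Set.mem_univ (t0 + u))
      (by linarith) (hF' j)
    rw [slope_def_field] at h3
    refine h3.trans (le_of_eq ?_)
    rw [smul_eq_mul]
    have : t0 + u - t0 = u := by ring
    rw [this]
    field_simp

section main
variable {c d : ℕ → ℝ} (h : Reg c d) (N : ℕ → ℕ) (w : ℕ → ℕ → ℝ)

/-- the rest of the covariance -/
noncomputable def pB (c : ℕ → ℝ) (p N : ℕ) (w : ℕ → ℝ) : Matrix (Cfg N) (Cfg N) ℝ :=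
  cov (Function.update (fun q => c q * w q) p 0) N

theorem cov_wt {c : ℕ → ℝ} (hc : Adm c) (h4 : Summable (fun p : ℕ => (4:ℝ) ^ p * c p)) {w : ℕ → ℝ}
    (hw : ∀ p : ℕ, 0 ≤ w p ∧ w p ≤ 2 + p) {p : ℕ} (hp : 2 ≤ p) (t : ℝ) (N : ℕ) :
    cov (fun q => Function.update c p (t ^ 2) q * w q) N = t ^ 2 • pA p N (w p) + pB c p N w := by
  have h1 := cov_update (adm_wt hc h4 hw) hp t (w p) (hw p).1 N
  rw [pB, ← h1]
  congr 1
  funext q
  rcases eq_or_ne q p with rfl | h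
  · simp
  · simp [Function.update_of_ne h]

theorem pB_psd {c : ℕ → ℝ} (hc : Adm c) (h4 : Summable (fun p : ℕ => (4:ℝ) ^ p * c p)) {w : ℕ → ℝ}
    (hw : ∀ p : ℕ, 0 ≤ w p ∧ w p ≤ 2 + p) {p : ℕ} (hp : 2 ≤ p) (N : ℕ) :
    (pB c p N w).PosSemidef :=
  cov_psd (adm_update (adm_wt hc h4 hw) hp (le_refl _)) N

/-- convergence of the weighted free energies -/
theorem FN_wt_tendsto {e : ℕ → ℝ} (he : Adm e) (h4 : Summable (fun p : ℕ => (4:ℝ) ^ p * e p))
    (hN : Tendsto N atTop atTop) (hw0 : ∀ j p, 0 ≤ w j p ∧ w j p ≤ 2 + p)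
    (hw1 : ∀ p, Tendsto (fun j => w j p) atTop (𝓝 1)) (Φ : ℝ)
    (hΦ : Tendsto (FN e) atTop (𝓝 Φ)) :
    Tendsto (fun j => FN (fun q => e q * w j q) (N j)) atTop (𝓝 Φ) := by
  have h1 : Tendsto (fun j => ∑' q, |e q * w j q - e q|) atTop (𝓝 (∑' _ : ℕ, (0:ℝ))) := by
    refine tendsto_tsum_of_dominated_convergence (bound := fun q : ℕ => 3 * ((4:ℝ) ^ q * e q))
      (h4.mul_left 3) (fun q => ?_) (Eventually.of_forall fun j q => ?_)
    · have h2 : Tendsto (fun j => |e q * w j q - e q|) atTop (𝓝 |e q * 1 - e q|) :=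
        (((hw1 q).const_mul _).sub_const _).abs
      simpa using h2
    · rw [Real.norm_eq_abs, abs_abs]
      have h2 : e q * w j q - e q = e q * (w j q - 1) := by ring
      rw [h2, abs_mul, abs_of_nonneg (he.nonneg q)]
      have h3 : |w j q - 1| ≤ 3 * 2 ^ q := by
        have := two_add_le q
        have h4 := (hw0 j q).1
        have h5 := (hw0 j q).2
        have h6 : (1 : ℝ) ≤ 2 ^ q := one_le_pow₀ (by norm_num)
        rw [abs_le]
        constructor <;> linarith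
      have h5 : (2 : ℝ) ^ q ≤ 4 ^ q := pow_le_pow_left₀ (by norm_num) (by norm_num) q
      calc e q * |w j q - 1| ≤ e q * (3 * 4 ^ q) :=
            mul_le_mul_of_nonneg_left (by linarith) (he.nonneg q)
        _ = 3 * (4 ^ q * e q) := by ring
  rw [tsum_zero] at h1
  have h2 : Tendsto (fun j => FN e (N j)) atTop (𝓝 Φ) := hΦ.comp hN
  have h3 : Tendsto (fun j => FN (fun q => e q * w j q) (N j) - FN e (N j)) atTop (𝓝 0) := by
    refine squeeze_zero_norm (fun j => ?_) h1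
    rw [Real.norm_eq_abs]
    exact FN_lip (adm_wt he h4 (hw0 j)) he (N j)
  have h4 := h3.add h2
  simpa using h4

include h in
theorem two_le_of {p : ℕ} (hp : p = 2 ∨ 4 ≤ p) : 2 ≤ p := by omega

/-- the functions `F_j` -/
noncomputable def FF (c : ℕ → ℝ) (p : ℕ) (N : ℕ → ℕ) (w : ℕ → ℕ → ℝ) (j : ℕ) (t : ℝ) : ℝ :=
  FE (t ^ 2 • pA p (N j) (w j p) + pB c p (N j) (w j)) / N j

include h in
theorem FF_tendsto (hN : Tendsto N atTop atTop) (hw0 : ∀ j p, 0 ≤ w j p ∧ w j p ≤ 2 + p)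
    (hw1 : ∀ p, Tendsto (fun j => w j p) atTop (𝓝 1)) {p : ℕ} (hp : 2 ≤ p) (t Φ : ℝ)
    (hΦ : Tendsto (FN (Function.update c p (t ^ 2))) atTop (𝓝 Φ)) :
    Tendsto (fun j => FF c p N w j t) atTop (𝓝 Φ) := by
  have h1 := FN_wt_tendsto N w (adm_update h.adm hp (sq_nonneg t)) (sum4_update h.sum4 p (t ^ 2))
    hN hw0 hw1 Φ hΦ
  refine h1.congr (fun j => ?_)
  rw [FF, FN, cov_wt h.adm h.sum4 (hw0 j) hp t (N j)]

theorem update_sqrt {p : ℕ} (hp : 0 < c p) :
    Function.update c p (Real.sqrt (c p) ^ 2) = c := by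
  rw [Real.sq_sqrt hp.le, Function.update_eq_self]

include h in
theorem cov_t0 (hw0 : ∀ j p, 0 ≤ w j p ∧ w j p ≤ 2 + p) {p : ℕ} (hp : p = 2 ∨ 4 ≤ p) (j : ℕ) :
    cov (fun q => c q * w j q) (N j) =
      Real.sqrt (c p) ^ 2 • pA p (N j) (w j p) + pB c p (N j) (w j) := by
  have hp2 : 2 ≤ p := by omega
  have h1 := cov_wt h.adm h.sum4 (hw0 j) hp2 (Real.sqrt (c p)) (N j)
  rw [update_sqrt (h.pos p hp)] at h1
  exact h1

include h in
theorem FF_deriv (hw0 : ∀ j p, 0 ≤ w j p ∧ w j p ≤ 2 + p) {p : ℕ} (hp : p = 2 ∨ 4 ≤ p) (j : ℕ)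
    (hNj : 1 ≤ N j) :
    HasDerivAt (FF c p N w j) (Real.sqrt (c p) * (w j p *
      (1 - EG (cov (fun q => c q * w j q) (N j)) 2 (fun s => ov (s 0) (s 1) ^ p))))
      (Real.sqrt (c p)) := by
  have hp2 : 2 ≤ p := by omega
  have hNj' : (0 : ℝ) < N j := by exact_mod_cast hNj
  have h1 := (FE_sq_deriv (pA_psd hp2 (N j) (hw0 j p).1) (pB_psd h.adm h.sum4 (hw0 j) hp2 (N j))
    (Real.sqrt (c p))).div_const (N j : ℝ)
  have h2 := cov_t0 h N w hw0 hp j
  rw [← h2] at h1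
  have h3 : (fun s : Fin 2 → Cfg (N j) => pA p (N j) (w j p) (s 0) (s 0) -
      pA p (N j) (w j p) (s 0) (s 1)) =
      fun s => (N j : ℝ) * w j p + (-((N j : ℝ) * w j p)) * ov (s 0) (s 1) ^ p := by
    funext s
    simp only [pA, Matrix.of_apply]
    rw [ov_self hNj, one_pow]
    ring
  rw [h3, EG_add, EG_const, EG_mul] at h1
  refine h1.congr_deriv ?_
  field_simp
  ring

include h in
theorem FF_convex (hw0 : ∀ j p, 0 ≤ w j p ∧ w j p ≤ 2 + p) {p : ℕ} (hp : 2 ≤ p) (j : ℕ) :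
    ConvexOn ℝ Set.univ (FF c p N w j) := by
  have h1 := FE_sq_convex (pA_psd hp (N j) (hw0 j p).1) (pB_psd h.adm h.sum4 (hw0 j) hp (N j))
  have h2 := h1.smul (c := ((N j : ℝ))⁻¹) (by positivity)
  refine h2.congr ?_
  intro t _
  simp only [FF, smul_eq_mul]
  rw [div_eq_inv_mul]

end main

theorem reg_mom {c d : ℕ → ℝ} (h : Reg c d) (N : ℕ → ℕ) (hN : Tendsto N atTop atTop)
    (w : ℕ → ℕ → ℝ) (hw0 : ∀ j p, 0 ≤ w j p ∧ w j p ≤ 2 + p)
    (hw1 : ∀ p, Tendsto (fun j => w j p) atTop (𝓝 1)) (p : ℕ) (hp : p = 2 ∨ 4 ≤ p) :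
    Tendsto (fun j => EG (cov (fun q => c q * w j q) (N j)) 2 (fun s => ov (s 0) (s 1) ^ p)) atTop
      (𝓝 (1 - d p / Real.sqrt (c p))) := by
  have hp2 : 2 ≤ p := by omega
  have ht0 : 0 < Real.sqrt (c p) := Real.sqrt_pos.2 (h.pos p hp)
  obtain ⟨Φ, hΦ, hD⟩ := h.lim p hp
  obtain ⟨J, hJ⟩ := eventually_atTop.1 (hN.eventually (eventually_ge_atTop 1))
  set X : ℕ → ℝ := fun j =>
    EG (cov (fun q => c q * w j q) (N j)) 2 (fun s => ov (s 0) (s 1) ^ p) with hX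
  have h1 : Tendsto (fun j => Real.sqrt (c p) * (w (j + J) p * (1 - X (j + J)))) atTop
      (𝓝 (d p)) := by
    refine convex_deriv_tendsto (fun j => FF c p N w (j + J)) _ Φ (d p) (Real.sqrt (c p))
      (fun j => FF_convex h N w hw0 hp2 _)
      (fun j => FF_deriv h N w hw0 hp (j + J) (hJ _ (Nat.le_add_left _ _))) ?_ hD
    filter_upwards [hΦ] with t ht
    exact (FF_tendsto h N w hN hw0 hw1 hp2 t (Φ t) ht).comp (tendsto_add_atTop_nat J)
  have h2 : Tendsto (fun j => w (j + J) p) atTop (𝓝 1) :=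
    (hw1 p).comp (tendsto_add_atTop_nat J)
  have h3 : Tendsto (fun j => 1 - (Real.sqrt (c p) * (w (j + J) p * (1 - X (j + J)))) /
      (Real.sqrt (c p) * w (j + J) p)) atTop (𝓝 (1 - d p / (Real.sqrt (c p) * 1))) :=
    (h1.div (h2.const_mul _) (by positivity)).const_sub 1
  rw [mul_one] at h3
  refine (tendsto_add_atTop_iff_nat J).1 (h3.congr' ?_)
  filter_upwards [h2.eventually (lt_mem_nhds (zero_lt_one))] with j hj
  have hj' : 0 < w (j + J) p := hj
  change _ = X (j + J)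
  field_simp
  ring

/-- the second difference quotient at a point of differentiability -/
theorem second_diff_tendsto (Φ : ℝ → ℝ) (D t0 : ℝ) (hD : HasDerivAt Φ D t0) :
    Tendsto (fun u : ℝ => (Φ (t0 + 2 * u) - Φ (t0 + u) - Φ (t0 - u) + Φ (t0 - 2 * u)) / u)
      (𝓝[≠] 0) (𝓝 0) := by
  have h1 : ∀ a : ℝ, HasDerivAt (fun u : ℝ => Φ (t0 + a * u)) (D * a) 0 := by
    intro a
    have h2 : HasDerivAt (fun u : ℝ => t0 + a * u) a 0 := by
      simpa using ((hasDerivAt_id (0:ℝ)).const_mul a).const_add t0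
    have h3 : HasDerivAt Φ D (t0 + a * 0) := by simpa using hD
    exact h3.comp (0:ℝ) h2
  have h2 := (((h1 2).sub (h1 1)).sub (h1 (-1))).add (h1 (-2))
  have h3 := hasDerivAt_iff_tendsto_slope_zero.1 h2
  have e : D * 2 - D * 1 - D * (-1) + D * (-2) = 0 := by ring
  rw [e] at h3
  refine h3.congr (fun u => ?_)
  simp only [Pi.add_apply, Pi.sub_apply, smul_eq_mul, zero_add, mul_zero, add_zero, one_mul,
    neg_mul]
  rw [div_eq_inv_mul]
  have e1 : t0 + -u = t0 - u := by ring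
  have e2 : t0 + -(2 * u) = t0 - 2 * u := by ring
  rw [e1, e2]
  ring

section ggaux
variable {c d : ℕ → ℝ} (h : Reg c d) (N : ℕ → ℕ) (w : ℕ → ℕ → ℝ)

/-- the quantity of the Ghirlanda-Guerra identity -/
noncomputable def ggX (c : ℕ → ℝ) (p n N : ℕ) (w : ℕ → ℝ) (f : (Fin (n + 1) → Cfg N) → ℝ) : ℝ :=
  ((n : ℝ) + 1) * EG (cov (fun q => c q * w q) N) (n + 2)
      (fun s => f (s ∘ Fin.castSucc) * ov (s 0) (s (Fin.last (n + 1))) ^ p)
    - EG (cov (fun q => c q * w q) N) (n + 1) f *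
      EG (cov (fun q => c q * w q) N) 2 (fun s => ov (s 0) (s 1) ^ p)
    - ∑ l : Fin n, EG (cov (fun q => c q * w q) N) (n + 1)
        (fun s => f s * ov (s 0) (s l.succ) ^ p)

theorem gg_expand {N : ℕ} (hN : 1 ≤ N) (C : Matrix (Cfg N) (Cfg N) ℝ) (p n : ℕ) (w : ℝ)
    (f : (Fin (n + 1) → Cfg N) → ℝ) :
    EG C (n + 2) (fun s => f (s ∘ Fin.castSucc) * (∑ l : Fin (n + 1), pA p N w (s 0) (s l.castSucc)
            - ((n : ℝ) + 1) * pA p N w (s 0) (s (Fin.last (n + 1)))))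
        - EG C (n + 1) f * EG C 2 (fun s => pA p N w (s 0) (s 0) - pA p N w (s 0) (s 1)) =
      -((N : ℝ) * w * (((n : ℝ) + 1) * EG C (n + 2)
      (fun s => f (s ∘ Fin.castSucc) * ov (s 0) (s (Fin.last (n + 1))) ^ p)
    - EG C (n + 1) f * EG C 2 (fun s => ov (s 0) (s 1) ^ p)
    - ∑ l : Fin n, EG C (n + 1) (fun s => f s * ov (s 0) (s l.succ) ^ p))) := by
  have h1 : (fun s : Fin (n + 2) → Cfg N => f (s ∘ Fin.castSucc) *
      (∑ l : Fin (n + 1), pA p N w (s 0) (s l.castSucc)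
            - ((n : ℝ) + 1) * pA p N w (s 0) (s (Fin.last (n + 1))))) =
      fun s => (∑ l : Fin (n + 1), (fun s : Fin (n + 2) → Cfg N => (fun s' : Fin (n + 1) → Cfg N =>
          ((N : ℝ) * w) * (f s' * ov (s' 0) (s' l) ^ p)) (s ∘ Fin.castSucc)) s) +
        (-(((n : ℝ) + 1) * (N * w))) *
          (f (s ∘ Fin.castSucc) * ov (s 0) (s (Fin.last (n + 1))) ^ p) := by
    funext s
    simp only [pA, Matrix.of_apply, Function.comp_apply, Fin.castSucc_zero]
    rw [mul_sub, Finset.mul_sum]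
    have : ∀ l : Fin (n + 1), f (s ∘ Fin.castSucc) * (N * (w * ov (s 0) (s l.castSucc) ^ p)) =
        (N : ℝ) * w * (f (s ∘ Fin.castSucc) * ov (s 0) (s l.castSucc) ^ p) := fun l => by ring
    simp only [this]
    ring
  have h2 : (fun s : Fin 2 → Cfg N => pA p N w (s 0) (s 0) - pA p N w (s 0) (s 1)) =
      fun s => (N : ℝ) * w + (-((N : ℝ) * w)) * ov (s 0) (s 1) ^ p := by
    funext s
    simp only [pA, Matrix.of_apply]
    rw [ov_self hN, one_pow]
    ring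
  rw [h1, h2, EG_add, EG_add, EG_const, EG_mul, EG_mul, EG_sum]
  have h3 : ∀ l : Fin (n + 1), EG C (n + 2) (fun s : Fin (n + 2) → Cfg N =>
      (fun s' : Fin (n + 1) → Cfg N =>
          ((N : ℝ) * w) * (f s' * ov (s' 0) (s' l) ^ p)) (s ∘ Fin.castSucc)) =
      (N * w) * EG C (n + 1) (fun s => f s * ov (s 0) (s l) ^ p) := by
    intro l
    have h5 := EG_inj C Fin.castSucc (Fin.castSucc_injective (n + 1))
      (fun s' : Fin (n + 1) → Cfg N => ((N : ℝ) * w) * (f s' * ov (s' 0) (s' l) ^ p))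
    exact h5.trans (EG_mul C (n + 1) _ _)
  rw [Finset.sum_congr rfl (fun l _ => h3 l), Fin.sum_univ_succ]
  have h4 : (fun s : Fin (n + 1) → Cfg N => f s * ov (s 0) (s 0) ^ p) = f := by
    funext s
    rw [ov_self hN, one_pow, mul_one]
  rw [h4, ← Finset.mul_sum]
  ring

/-- the bound on the diagonal -/
theorem diag_bound {c : ℕ → ℝ} (hc : Adm c) (h4 : Summable (fun p : ℕ => (4:ℝ) ^ p * c p)) {w : ℕ → ℝ}
    (hw : ∀ p : ℕ, 0 ≤ w p ∧ w p ≤ 2 + p) {p : ℕ} (hp : 2 ≤ p) {N : ℕ} (hN : 1 ≤ N) (t T : ℝ)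
    (ht : t ^ 2 ≤ T) (σ : Cfg N) :
    (t ^ 2 • pA p N (w p) + pB c p N w) σ σ ≤
      (T * (2 + p) + 3 * ∑' q : ℕ, (4:ℝ) ^ q * c q) * N := by
  have hN' : (0 : ℝ) < N := by exact_mod_cast hN
  simp only [pA, pB, cov, xi, Matrix.add_apply, Matrix.smul_apply, Matrix.of_apply, smul_eq_mul]
  rw [ov_self hN]
  simp only [one_pow, mul_one]
  have h1 : t ^ 2 * w p ≤ T * (2 + p) :=
    mul_le_mul ht (hw p).2 (hw p).1 ((sq_nonneg t).trans ht)
  have h2 : ∑' q, Function.update (fun q => c q * w q) p 0 q ≤ 3 * ∑' q : ℕ, (4:ℝ) ^ q * c q := by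
    rw [← tsum_mul_left]
    refine Summable.tsum_le_tsum (fun q => ?_)
      (adm_update (adm_wt hc h4 hw) hp (le_refl _)).summable (h4.mul_left 3)
    rcases eq_or_ne q p with rfl | hq
    · rw [Function.update_self]
      have := hc.nonneg q
      positivity
    · rw [Function.update_of_ne hq]
      have h3 := (hw q).2
      have h5 := two_add_le q
      have h6 : (2 : ℝ) ^ q ≤ 4 ^ q := pow_le_pow_left₀ (by norm_num) (by norm_num) q
      calc c q * w q ≤ c q * (3 * 4 ^ q) := mul_le_mul_of_nonneg_left (by linarith) (hc.nonneg q)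
        _ = 3 * (4 ^ q * c q) := by ring
  calc t ^ 2 * (↑N * w p) + ↑N * ∑' q, Function.update (fun q => c q * w q) p 0 q
      = (t ^ 2 * w p + ∑' q, Function.update (fun q => c q * w q) p 0 q) * N := by ring
    _ ≤ _ := mul_le_mul_of_nonneg_right (add_le_add h1 h2) hN'.le

include h in
/-- finite volume bound -/
theorem ggX_bound (hw0 : ∀ j p, 0 ≤ w j p ∧ w j p ≤ 2 + p) {p : ℕ} (hp : p = 2 ∨ 4 ≤ p) (j : ℕ)
    (hNj : 1 ≤ N j) (n : ℕ) (f : (Fin (n + 1) → Cfg (N j)) → ℝ) (hf : ∀ s, |f s| ≤ 1)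
    (δ M Δ : ℝ) (hδ : 0 < δ) (hδ1 : δ ≤ 1)
    (hM : M = (Real.sqrt (c p) + 1) ^ 2 * (2 + p) + 3 * ∑' q : ℕ, (4:ℝ) ^ q * c q)
    (hΔ : Δ = (FF c p N w j (Real.sqrt (c p) + 2 * δ) - FF c p N w j (Real.sqrt (c p) + δ)
      - FF c p N w j (Real.sqrt (c p) - δ) + FF c p N w j (Real.sqrt (c p) - 2 * δ)) / δ) :
    Real.sqrt (c p) * (w j p * |ggX c p n (N j) (w j) f|) ≤
      Real.sqrt (2 * Δ / (δ * N j)) + 5 * Δ + 6 * Real.sqrt M / (δ * Real.sqrt (N j)) := by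
  have hp2 : 2 ≤ p := by omega
  have ht0 : 0 < Real.sqrt (c p) := Real.sqrt_pos.2 (h.pos p hp)
  have hN' : (0 : ℝ) < N j := by exact_mod_cast hNj
  have hS : 0 ≤ ∑' q : ℕ, (4:ℝ) ^ q * c q :=
    tsum_nonneg (fun q => mul_nonneg (by positivity) (h.adm.nonneg q))
  have h1 := gg_finite (pA_psd hp2 (N j) (hw0 j p).1) (pB_psd h.adm h.sum4 (hw0 j) hp2 (N j))
    (Real.sqrt (c p)) δ M (N j) hδ hN' (by rw [hM]; positivity) (by
      intro t ht i
      rw [hM]
      refine diag_bound h.adm h.sum4 (hw0 j) hp2 hNj t _ ?_ i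
      have h1 : -(Real.sqrt (c p) + 1) ≤ t := by
        have := ht.1
        linarith
      have h2 : t ≤ Real.sqrt (c p) + 1 := by
        have := ht.2
        linarith
      nlinarith) n f hf Δ (by
      rw [hΔ]
      simp only [FF]
      field_simp)
  rw [gg_expand hNj, ← cov_t0 h N w hw0 hp j] at h1
  refine le_trans (le_of_eq ?_) h1
  rw [abs_neg, abs_mul, abs_mul, abs_of_pos ht0, abs_of_pos hN', abs_of_nonneg (hw0 j p).1]
  rw [ggX]
  field_simp

end ggaux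

theorem reg_gg {c d : ℕ → ℝ} (h : Reg c d) (N : ℕ → ℕ) (hN : Tendsto N atTop atTop)
    (w : ℕ → ℕ → ℝ) (hw0 : ∀ j p, 0 ≤ w j p ∧ w j p ≤ 2 + p)
    (hw1 : ∀ p, Tendsto (fun j => w j p) atTop (𝓝 1)) (p : ℕ) (hp : p = 2 ∨ 4 ≤ p)
    (n : ℕ) (f : ∀ j, (Fin (n + 1) → Cfg (N j)) → ℝ) (hf : ∀ j s, |f j s| ≤ 1) :
    Tendsto (fun j =>
        ((n : ℝ) + 1) * EG (cov (fun q => c q * w j q) (N j)) (n + 2)
            (fun s => f j (s ∘ Fin.castSucc) * ov (s 0) (s (Fin.last (n + 1))) ^ p)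
          - EG (cov (fun q => c q * w j q) (N j)) (n + 1) (f j) *
            EG (cov (fun q => c q * w j q) (N j)) 2 (fun s => ov (s 0) (s 1) ^ p)
          - ∑ l : Fin n, EG (cov (fun q => c q * w j q) (N j)) (n + 1)
              (fun s => f j s * ov (s 0) (s l.succ) ^ p))
        atTop (𝓝 0) := by
  have hp2 : 2 ≤ p := by omega
  have ht0 : 0 < Real.sqrt (c p) := Real.sqrt_pos.2 (h.pos p hp)
  set t0 := Real.sqrt (c p) with ht0d
  obtain ⟨Φ, hΦ, hD⟩ := h.lim p hp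
  have hNj := hN.eventually (eventually_ge_atTop 1)
  have hNr : Tendsto (fun j => (N j : ℝ)) atTop atTop := tendsto_natCast_atTop_atTop.comp hN
  change Tendsto (fun j => ggX c p n (N j) (w j) (f j)) atTop (𝓝 0)
  have hadd : ∀ a : ℝ, Tendsto (fun u : ℝ => t0 + a * u) (𝓝 0) (𝓝 t0) := by
    intro a
    have : Tendsto (fun u : ℝ => t0 + a * u) (𝓝 0) (𝓝 (t0 + a * 0)) :=
      (continuous_const.add (continuous_const.mul continuous_id)).tendsto 0
    simpa using this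
  have hFt : ∀ t, Tendsto (FN (Function.update c p (t ^ 2))) atTop (𝓝 (Φ t)) →
      Tendsto (fun j => FF c p N w j t) atTop (𝓝 (Φ t)) :=
    fun t ht => FF_tendsto h N w hN hw0 hw1 hp2 t (Φ t) ht
  rw [Metric.tendsto_atTop']
  intro ε hε
  -- choice of `δ`
  have e1 : ∀ᶠ u in 𝓝[>] (0:ℝ),
      (Φ (t0 + 2 * u) - Φ (t0 + u) - Φ (t0 - u) + Φ (t0 - 2 * u)) / u < t0 * ε / 20 :=
    ((second_diff_tendsto Φ (d p) t0 hD).eventually (gt_mem_nhds (by positivity))).filter_mono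
      (nhdsWithin_mono _ (fun x hx => ne_of_gt hx))
  have e2 : ∀ a : ℝ, ∀ᶠ u in 𝓝[>] (0:ℝ),
      Tendsto (fun j => FF c p N w j (t0 + a * u)) atTop (𝓝 (Φ (t0 + a * u))) := by
    intro a
    have h1 := ((hadd a).eventually hΦ).filter_mono (nhdsWithin_le_nhds (s := Set.Ioi (0:ℝ)))
    exact h1.mono (fun u hu => hFt _ hu)
  have e3 : ∀ᶠ u in 𝓝[>] (0:ℝ), u ≤ 1 :=
    (eventually_le_nhds (zero_lt_one)).filter_mono nhdsWithin_le_nhds
  obtain ⟨δ, g1, g2, g3, g4, g5, g6, g7⟩ :=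
    (e1.and ((e2 2).and ((e2 1).and ((e2 (-1)).and ((e2 (-2)).and (e3.and
      self_mem_nhdsWithin)))))).exists
  have hδ : 0 < δ := g7
  have r1 : t0 + 1 * δ = t0 + δ := by ring
  have r2 : t0 + -1 * δ = t0 - δ := by ring
  have r3 : t0 + -2 * δ = t0 - 2 * δ := by ring
  rw [r1] at g3
  rw [r2] at g4
  rw [r3] at g5
  set Δ : ℕ → ℝ := fun j => (FF c p N w j (t0 + 2 * δ) - FF c p N w j (t0 + δ)
      - FF c p N w j (t0 - δ) + FF c p N w j (t0 - 2 * δ)) / δ with hΔ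
  set Δi : ℝ := (Φ (t0 + 2 * δ) - Φ (t0 + δ) - Φ (t0 - δ) + Φ (t0 - 2 * δ)) / δ with hΔi
  have l1 : Tendsto Δ atTop (𝓝 Δi) := (((g2.sub g3).sub g4).add g5).div_const δ
  set M : ℝ := (Real.sqrt (c p) + 1) ^ 2 * (2 + p) + 3 * ∑' q : ℕ, (4:ℝ) ^ q * c q with hM
  have l2 : Tendsto (fun j => 2 * Δ j / (δ * N j)) atTop (𝓝 0) :=
    (l1.const_mul 2).div_atTop (hNr.const_mul_atTop hδ)
  have l3 : Tendsto (fun j => Real.sqrt (2 * Δ j / (δ * N j))) atTop (𝓝 0) := by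
    have := (Real.continuous_sqrt.tendsto 0).comp l2
    rw [Real.sqrt_zero] at this
    exact this
  have l4 : Tendsto (fun j => 6 * Real.sqrt M / (δ * Real.sqrt (N j))) atTop (𝓝 0) :=
    tendsto_const_nhds.div_atTop ((Real.tendsto_sqrt_atTop.comp hNr).const_mul_atTop hδ)
  have l5 : Tendsto (fun j => Real.sqrt (2 * Δ j / (δ * N j)) + 5 * Δ j +
      6 * Real.sqrt M / (δ * Real.sqrt (N j))) atTop (𝓝 (0 + 5 * Δi + 0)) :=
    (l3.add (l1.const_mul 5)).add l4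
  have l6 : 0 + 5 * Δi + 0 < t0 * ε / 3 := by
    have : 0 < t0 * ε := by positivity
    linarith
  have l7 := (l5.eventually (gt_mem_nhds l6)).and
    (((hw1 p).eventually (lt_mem_nhds (by norm_num : (1:ℝ) / 2 < 1))).and hNj)
  obtain ⟨J, hJ⟩ := eventually_atTop.1 l7
  refine ⟨J, fun j hj => ?_⟩
  obtain ⟨m1, m2, m3⟩ := hJ j (le_of_lt hj)
  have m4 := ggX_bound h N w hw0 hp j m3 n (f j) (hf j) δ M (Δ j) hδ g6 hM rfl
  rw [Real.dist_eq, sub_zero]
  have m5 : t0 * (w j p * |ggX c p n (N j) (w j) (f j)|) < t0 * (ε / 3) := by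
    refine (lt_of_le_of_lt m4 m1).trans_le (le_of_eq ?_)
    ring
  have m6 := lt_of_mul_lt_mul_left m5 ht0.le
  have m7 := abs_nonneg (ggX c p n (N j) (w j) (f j))
  nlinarith

end Pool.Agent.OS
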