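import Pool.Agent.LibMP0f946f.Cavity
import Pool.Agent.LibMP0f946f.RegGG
import Pool.Agent.LibMP0f946f.ArrLim
import Pool.Agent.LibMP0f946f.Chain

/-! TASK LOWERB: the lower bound.  (a) `bterm`, (b) `cavity_lower`, (c) `lower_bound`.

(a) With `C = cov (cw c N 0) N`, `D = th c (ov)`: `FE (C + D) - FE C = ∫_0^1 u EG (C + u² D) 2 [D(1,1) - D(1,2)] du`
(`FE_sq_deriv`, `cov_cw`), and for every `u` the integrand tends to `u (θ(1) - ∫ θ dζ)` (`reg_mom` with the weights of
`cw c N (u²)`, `th_eq`, dominated convergence in `p`; bounded by `2 θ(1)`), so dominated convergence in `u`.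
(b) `a_N = FE (cov c N)`; `a_N / N → F`, hence `a_{N+1} - a_N ≤ F + 1/(j+1)` for infinitely many `N`: choose
`N_j → ∞`.  `a_{N+1} - a_N ≥ EG[Gn] - (FE (cov (cw c N 1) N) - FE (cov (cw c N 0) N)) - K/N` (`cav1, cav2, cav3`).
`arr_limit` for the sequence `cov (cw c N_j 0) N_j` (hypotheses: `reg_mom`, `reg_gg`), Tietze extension of `Gn`
(`Gn_cont`) to a continuous function, `bterm`.
(c) For an admissible list `s_1 ≤ … ≤ s_k` with `ζ(Iio s_k) = 1`: `chain` with `L = [(s_j, ξ'(s_j) - ξ'(s_{j-1}))]`,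
`cl = ξ'(1) - ξ'(s_k)`, `A = log (2 cosh)`; `Kmat` differs from `ξ'(R)` by at most `ξ''(1) μ` (off the diagonal
`R < s_k` a.s.), `lch_lip`; and `∑ ζ(Iio s_j)(θ(s_j) - θ(s_{j-1})) + θ(1) - θ(s_k) = θ(1) - ∫ θ(κ(x)) dζ` differs from
`θ(1) - ∫ θ dζ` by at most `ξ''(1) μ`. -/

set_option autoImplicit false
open MeasureTheory ProbabilityTheory Real Filter Topology
open Pool.Agent.LibOS96

namespace Pool.Agent.OS

/-- consecutive gaps of the list `s0, s_1, s_2, …` are in `[0, μ]` -/
def Gaps (μ : ℝ) : ℝ → List ℝ → Prop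
  | _, [] => True
  | s0, (s :: L) => s0 ≤ s ∧ s ≤ s0 + μ ∧ Gaps μ s L

/-- pairs (threshold, increment of `φ`) -/
noncomputable def incL (φ : ℝ → ℝ) : ℝ → List ℝ → List (ℝ × ℝ)
  | _, [] => []
  | s0, (s :: L) => (s, φ s - φ s0) :: incL φ s L

/-- last element of `s0 :: L` -/
def lstG : ℝ → List ℝ → ℝ
  | s0, [] => s0
  | _, (s :: L) => lstG s L

/-- the largest element of `s0 :: L` which is at most `x` -/
noncomputable def kap : ℝ → List ℝ → ℝ → ℝ
  | s0, [], _ => s0
  | s0, (s :: L), x => if s ≤ x then kap s L x else s0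

theorem incs_eq (c : ℕ → ℝ) (f : ℝ → ℝ) (L : List ℝ) : ∀ s0,
    incs c s0 (L.map (fun s => (f s, s)) ++ [(1, 1)]) =
      (incL (xi1 c) s0 L).map (fun p => (f p.1, p.2)) ++ [(1, xi1 c 1 - xi1 c (lstG s0 L))] := by
  induction L with
  | nil => intro s0; simp [incs, incL, lstG]
  | cons s L ih =>
    intro s0
    simp only [List.map_cons, List.cons_append, incs, incL, lstG]
    rw [ih s]

theorem Gaps.le_lst {μ : ℝ} {L : List ℝ} : ∀ {s0}, Gaps μ s0 L → s0 ≤ lstG s0 L := by
  induction L with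
  | nil => intro s0 _; exact le_rfl
  | cons s L ih => intro s0 h; exact h.1.trans (ih h.2.2)

theorem Gaps.mem_le_lst {μ : ℝ} {L : List ℝ} : ∀ {s0}, Gaps μ s0 L → ∀ s ∈ L, s ≤ lstG s0 L := by
  induction L with
  | nil => intro s0 _ s hs; simp at hs
  | cons s' L ih =>
    intro s0 h s hs
    rcases List.mem_cons.1 hs with rfl | hs
    · exact h.2.2.le_lst
    · exact ih h.2.2 s hs

theorem lst_mem (L : List ℝ) : ∀ s0, lstG s0 L = s0 ∨ lstG s0 L ∈ L := by
  induction L with
  | nil => intro s0; exact Or.inl rfl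
  | cons s' L ih =>
    intro s0
    right
    rcases ih s' with h | h
    · rw [lstG, h]; exact List.mem_cons_self
    · exact List.mem_cons_of_mem _ h

theorem incL_fst {φ : ℝ → ℝ} {L : List ℝ} : ∀ {s0} {p : ℝ × ℝ}, p ∈ incL φ s0 L → p.1 ∈ L := by
  induction L with
  | nil => intro s0 p hp; simp [incL] at hp
  | cons s L ih =>
    intro s0 p hp
    rw [incL, List.mem_cons] at hp
    rcases hp with rfl | hp
    · exact List.mem_cons_self
    · exact List.mem_cons_of_mem _ (ih hp)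

theorem Gaps.ge {μ : ℝ} {L : List ℝ} : ∀ {s0}, Gaps μ s0 L → ∀ s ∈ L, s0 ≤ s := by
  induction L with
  | nil => intro s0 _ s hs; simp at hs
  | cons s' L ih =>
    intro s0 h s hs
    rcases List.mem_cons.1 hs with rfl | hs
    · exact h.1
    · exact h.1.trans (ih h.2.2 s hs)

theorem incL_pairwise {φ : ℝ → ℝ} {μ : ℝ} {L : List ℝ} : ∀ {s0}, Gaps μ s0 L →
    (incL φ s0 L).Pairwise (fun p q => p.1 ≤ q.1) := by
  induction L with
  | nil => intro s0 _; simp [incL]
  | cons s L ih =>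
    intro s0 h
    rw [incL, List.pairwise_cons]
    exact ⟨fun q hq => h.2.2.ge _ (incL_fst hq), ih h.2.2⟩

theorem incL_snd {φ : ℝ → ℝ} {μ : ℝ} (hφ : ∀ x y, 0 ≤ x → x ≤ y → y ≤ 1 → φ x ≤ φ y)
    {L : List ℝ} : ∀ {s0}, 0 ≤ s0 → Gaps μ s0 L → (∀ s ∈ L, s ≤ 1) →
    ∀ p ∈ incL φ s0 L, 0 ≤ p.2 := by
  induction L with
  | nil => intro s0 _ _ _ p hp; simp [incL] at hp
  | cons s L ih =>
    intro s0 h0 h h1 p hp
    rw [incL, List.mem_cons] at hp
    rcases hp with rfl | hp
    · exact sub_nonneg.2 (hφ _ _ h0 h.1 (h1 s List.mem_cons_self))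
    · exact ih (h0.trans h.1) h.2.2 (fun s' hs' => h1 s' (List.mem_cons_of_mem _ hs')) p hp

/-- sum of the increments with thresholds at most `x` -/
theorem incL_sum (φ : ℝ → ℝ) {μ : ℝ} {L : List ℝ} (x : ℝ) : ∀ {s0}, Gaps μ s0 L →
    ((incL φ s0 L).map (fun p => if p.1 ≤ x then p.2 else 0)).sum = φ (kap s0 L x) - φ s0 := by
  induction L with
  | nil => intro s0 _; simp [incL, kap]
  | cons s L ih =>
    intro s0 h
    rw [incL, List.map_cons, List.sum_cons, kap]
    by_cases hs : s ≤ x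
    · rw [if_pos hs, if_pos hs, ih h.2.2]
      ring
    · rw [if_neg hs, if_neg hs, sub_self, zero_add]
      apply List.sum_eq_zero
      intro y hy
      rw [List.mem_map] at hy
      obtain ⟨p, hp, rfl⟩ := hy
      have := h.2.2.ge _ (incL_fst hp)
      rw [if_neg (by intro h'; exact hs (this.trans h'))]

theorem kap_le {μ : ℝ} {L : List ℝ} {x : ℝ} : ∀ {s0}, Gaps μ s0 L → s0 ≤ x →
    s0 ≤ kap s0 L x ∧ kap s0 L x ≤ x := by
  induction L with
  | nil => intro s0 _ h; exact ⟨le_rfl, h⟩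
  | cons s L ih =>
    intro s0 h h0
    rw [kap]
    by_cases hs : s ≤ x
    · rw [if_pos hs]
      have := ih h.2.2 hs
      exact ⟨h.1.trans this.1, this.2⟩
    · rw [if_neg hs]
      exact ⟨le_rfl, h0⟩

theorem kap_close {μ : ℝ} {L : List ℝ} {x : ℝ} : ∀ {s0}, Gaps μ s0 L → s0 ≤ x →
    x < lstG s0 L → x ≤ kap s0 L x + μ := by
  induction L with
  | nil => intro s0 _ h h'; exact absurd h' (not_lt.2 h)
  | cons s L ih =>
    intro s0 h h0 hl
    rw [kap]
    by_cases hs : s ≤ x
    · rw [if_pos hs]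
      exact ih h.2.2 hs hl
    · rw [if_neg hs]
      push Not at hs
      linarith [h.2.1]

theorem kap_last {μ : ℝ} {L : List ℝ} {x : ℝ} : ∀ {s0}, Gaps μ s0 L → (∀ s ∈ L, s ≤ x) →
    kap s0 L x = lstG s0 L := by
  induction L with
  | nil => intro s0 _ _; rfl
  | cons s L ih =>
    intro s0 h hl
    rw [kap, if_pos (hl s List.mem_cons_self), lstG]
    exact ih h.2.2 fun s' hs' => hl s' (List.mem_cons_of_mem _ hs')

/-- the function whose integral is the penalty -/
noncomputable def pfun (θ : ℝ → ℝ) : ℝ → List ℝ → ℝ → ℝ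
  | s0, [], _ => θ 1 - θ s0
  | s0, (s :: L), x => (Set.Iio s).indicator (fun _ => θ s - θ s0) x + pfun θ s L x

theorem pfun_int (θ : ℝ → ℝ) (ζ : Measure ℝ) [IsProbabilityMeasure ζ] (L : List ℝ) : ∀ s0,
    Integrable (pfun θ s0 L) ζ ∧
      ∫ x, pfun θ s0 L x ∂ζ = pen θ s0 (L.map (fun s => (ζ.real (Set.Iio s), s)) ++ [(1, 1)]) := by
  induction L with
  | nil =>
    intro s0
    constructor
    · exact integrable_const _
    · simp [pfun, pen]
  | cons s L ih =>
    intro s0
    have h1 : Integrable (fun x => (Set.Iio s).indicator (fun _ => θ s - θ s0) x) ζ :=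
      (integrable_const _).indicator measurableSet_Iio
    constructor
    · exact h1.add (ih s).1
    · simp only [pfun, List.map_cons, List.cons_append, pen]
      rw [integral_add h1 (ih s).1, (ih s).2, integral_indicator measurableSet_Iio,
        setIntegral_const, smul_eq_mul]

theorem pfun_zero (θ : ℝ → ℝ) {μ : ℝ} {L : List ℝ} {x : ℝ} : ∀ {s0}, Gaps μ s0 L → x < s0 →
    pfun θ s0 L x = θ 1 - θ s0 := by
  induction L with
  | nil => intro s0 _ _; rfl
  | cons s L ih =>
    intro s0 h hx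
    have hs : x < s := lt_of_lt_of_le hx h.1
    rw [pfun, ih h.2.2 hs, Set.indicator_of_mem (Set.mem_Iio.2 hs)]
    ring

theorem pfun_eq (θ : ℝ → ℝ) {μ : ℝ} {L : List ℝ} {x : ℝ} : ∀ {s0}, Gaps μ s0 L → s0 ≤ x →
    pfun θ s0 L x = θ 1 - θ (kap s0 L x) := by
  induction L with
  | nil => intro s0 _ _; rfl
  | cons s L ih =>
    intro s0 h hx
    rw [pfun, kap]
    by_cases hs : s ≤ x
    · rw [if_pos hs, ih h.2.2 hs, Set.indicator_of_notMem (by rw [Set.mem_Iio]; exact not_lt.2 hs),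
        zero_add]
    · rw [if_neg hs]
      push Not at hs
      rw [pfun_zero θ h.2.2 hs, Set.indicator_of_mem (Set.mem_Iio.2 hs)]
      ring

/-- all off-diagonal entries have law `ζ` -/
theorem ae_offdiag {P : Measure (ℕ → ℕ → ℝ)} {ζ : Measure ℝ} (H : GGArray P ζ) {B : Set ℝ}
    (hB : MeasurableSet B) (h : ζ.real B = 1) : ∀ᵐ R ∂P, ∀ i j, i ≠ j → R i j ∈ B := by
  have := H.prob
  have := H.probζ
  have h1 : ∀ᵐ R ∂P, R 0 1 ∈ B := by
    have h2 : P.real {R | R 0 1 ∈ B} = 1 := by rw [H.law_one hB, h]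
    have h3 : P.real {R | R 0 1 ∈ B}ᶜ = 0 := by
      rw [measureReal_compl (meas_entry hB), h2, probReal_univ, sub_self]
    rw [Measure.real, ENNReal.toReal_eq_zero_iff] at h3
    have h4 := measure_eq_zero_iff_ae_notMem.1 (h3.resolve_right (measure_ne_top _ _))
    filter_upwards [h4] with R hR
    simpa using hR
  have h2 : ∀ i j : ℕ, i ≠ j → ∀ᵐ R ∂P, R i j ∈ B := by
    intro i j hij
    obtain ⟨k, hk1, hk2⟩ : ∃ k : ℕ, i ≠ k ∧ j ≠ k := ⟨i + j + 1, by omega, by omega⟩
    obtain ⟨σ, hσ, e0, e1, e2⟩ := H.exch_three hij hk1 hk2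
    have h := h1
    rw [← hσ] at h
    have h3 := ae_of_ae_map (measurable_rel σ).aemeasurable h
    filter_upwards [h3] with R hR
    simpa only [rel, e0, e1] using hR
  rw [ae_all_iff]
  intro i
  rw [ae_all_iff]
  intro j
  by_cases hij : i = j
  · exact Filter.Eventually.of_forall fun R h => absurd hij h
  · filter_upwards [h2 i j hij] with R hR _
    exact hR

theorem ae_zeta {P : Measure (ℕ → ℕ → ℝ)} {ζ : Measure ℝ} (H : GGArray P ζ) :
    ∀ᵐ x ∂ζ, 0 ≤ x ∧ x ≤ 1 := by
  have := H.prob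
  have := H.probζ
  have h1 : P.real {R | R 0 1 ∈ (Set.Icc (0:ℝ) 1)ᶜ} = 0 := by
    rw [measureReal_eq_zero_iff, measure_eq_zero_iff_ae_notMem]
    filter_upwards [H.nonneg, H.bdd] with R h0 hb
    simp only [Set.mem_compl_iff, not_not]
    exact ⟨h0 0 1, (abs_le.1 (hb 0 1)).2⟩
  rw [H.law_one measurableSet_Icc.compl, measureReal_eq_zero_iff,
    measure_eq_zero_iff_ae_notMem] at h1
  filter_upwards [h1] with x hx
  simpa using hx

/-- projection to `[-1,1]` -/
noncomputable def clp (x : ℝ) : ℝ := max (-1) (min 1 x)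

theorem clp_cont : Continuous clp := by unfold clp; fun_prop

theorem clp_mem (x : ℝ) : |clp x| ≤ 1 := by
  unfold clp
  rw [abs_le]
  exact ⟨le_max_left _ _, max_le (by norm_num) (min_le_left _ _)⟩

theorem clp_eq {x : ℝ} (hx : |x| ≤ 1) : clp x = x := by
  rw [abs_le] at hx
  unfold clp
  rw [min_eq_right hx.2, max_eq_right hx.1]

theorem xi1_clp_cont {c : ℕ → ℝ} (hc : Adm c) : Continuous (fun x => xi1 c (clp x)) := by
  refine continuous_iff_continuousAt.2 fun x => ?_
  have h1 : ContinuousAt (xi1 c) (clp x) :=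
    (hc.xi1_deriv (by have := clp_mem x; linarith)).continuousAt
  exact ContinuousAt.comp (f := clp) (g := xi1 c) h1 clp_cont.continuousAt

theorem th_clp_cont {c : ℕ → ℝ} (hc : Adm c) : Continuous (fun x => th c (clp x)) := by
  refine continuous_iff_continuousAt.2 fun x => ?_
  have h1 : ContinuousAt (th c) (clp x) :=
    (hc.th_deriv (by have := clp_mem x; linarith)).continuousAt
  exact ContinuousAt.comp (f := clp) (g := th c) h1 clp_cont.continuousAt

theorem th_mono {c : ℕ → ℝ} (hc : Adm c) {x y : ℝ} (h0 : 0 ≤ x) (h : x ≤ y) (h1 : y ≤ 1) :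
    th c x ≤ th c y := by
  rw [hc.th_eq (by rw [abs_of_nonneg h0]; linarith), hc.th_eq (by rw [abs_of_nonneg (by linarith)]; exact h1)]
  have hs : ∀ z : ℝ, |z| ≤ 1 → Summable fun p : ℕ => c p * ((p : ℝ) - 1) * z ^ p := fun z hz =>
    summable_pow_of_abs_le hc.cpred_nonneg
      ((hc.summable1.sub hc.summable).congr fun p => by ring) hz _
  refine (hs x (by rw [abs_of_nonneg h0]; linarith)).tsum_le_tsum (fun p => ?_)
    (hs y (by rw [abs_of_nonneg (by linarith)]; exact h1))
  exact mul_le_mul_of_nonneg_left (pow_le_pow_left₀ h0 h _) (hc.cpred_nonneg p)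

/-- `lch` extends to a continuous function -/
theorem lch_ext {n : ℕ} (hn : 1 ≤ n) : ∃ g : (Fin n → Fin n → ℝ) → ℝ, Continuous g ∧
    ∀ M : Fin n → Fin n → ℝ, (Matrix.of M).PosSemidef → lch (Matrix.of M) = g M := by
  have h : LipschitzOnWith 1 (fun M : Fin n → Fin n → ℝ => lch (Matrix.of M))
      {M | (Matrix.of M).PosSemidef} := by
    refine LipschitzOnWith.of_dist_le_mul fun M hM M' hM' => ?_
    rw [NNReal.coe_one, one_mul, Real.dist_eq]
    refine lch_lip hn hM hM' _ fun i j => ?_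
    rw [Matrix.of_apply, Matrix.of_apply, ← Real.dist_eq]
    exact (dist_le_pi_dist (M i) (M' i) j).trans (dist_le_pi_dist M M' i)
  obtain ⟨g, hg, hgeq⟩ := h.extend_real
  exact ⟨g, hg.continuous, fun M hM => hgeq hM⟩

theorem H_psd {P : Measure (ℕ → ℕ → ℝ)} {ζ : Measure ℝ} (H : GGArray P ζ) :
    ∀ᵐ R ∂P, ∀ n : ℕ, (Matrix.of fun i j : Fin n => R i j).PosSemidef := by
  filter_upwards [H.psd, H.symm] with R hR hs n
  refine psd_of_quad _ (fun i j => hs _ _) fun x => ?_
  have h1 := hR n (fun i => if h : i < n then x ⟨i, h⟩ else 0)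
  rw [Finset.sum_range] at h1
  refine h1.trans_eq (Finset.sum_congr rfl fun i _ => ?_)
  rw [Finset.sum_range]
  refine Finset.sum_congr rfl fun j _ => ?_
  simp only [Fin.is_lt, dite_true, Fin.eta]
  ring

theorem lower_bound {c d : ℕ → ℝ} (h : Reg c d) (F : ℝ) (hF : Tendsto (FN c) atTop (𝓝 F))
    {P : Measure (ℕ → ℕ → ℝ)} {ζ : Measure ℝ} (H : GGArray P ζ)
    (hlow : ∀ n : ℕ, 1 ≤ n →
        (∫ R, Gn c n (fun i k => R i k) ∂P) - (th c 1 - ∫ x, th c x ∂ζ) / 2 ≤ F)
    (μ : ℝ) (L : List ℝ) (hL : Gaps μ 0 L) (hpos : ∀ s ∈ L, 0 < s ∧ s ≤ 1)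
    (hlast : ∃ s ∈ L, ζ.real (Set.Iio s) = 1 ∧ ∀ s' ∈ L, s' ≤ s) :
    Par c (L.map (fun s => (ζ.real (Set.Iio s), s)) ++ [(1, 1)]) ≤ F + 2 * xi2 c 1 * μ := by
  have hP := H.prob
  have hζ := H.probζ
  have hc := h.adm
  -- the last threshold
  obtain ⟨sk, hsk, hsk1, hskmax⟩ := hlast
  have hlst : lstG 0 L = sk := by
    refine le_antisymm ?_ (hL.mem_le_lst sk hsk)
    rcases lst_mem L 0 with h1 | h1
    · rw [h1]; exact (hpos sk hsk).1.le
    · exact hskmax _ h1
  have hμ : 0 ≤ μ := by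
    cases L with
    | nil => simp at hsk
    | cons s L => have := hL.1; have := hL.2.1; linarith
  have hx2 : 0 ≤ xi2 c 1 := (abs_nonneg _).trans (hc.xi2_abs (x := 1) (by norm_num))
  set cl : ℝ := xi1 c 1 - xi1 c (lstG 0 L) with hcl
  have hcl0 : 0 ≤ cl := by
    rw [hcl, hlst]
    exact sub_nonneg.2 (hc.xi1_mono (hpos sk hsk).1.le (hpos sk hsk).2 le_rfl)
  set LL := incL (xi1 c) 0 L with hLL
  have hLL1 : ∀ p ∈ LL, 0 < p.1 ∧ p.1 ≤ 1 ∧ 0 ≤ p.2 := by
    intro p hp
    have h1 := hpos _ (incL_fst hp)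
    exact ⟨h1.1, h1.2, incL_snd (fun x y => hc.xi1_mono) le_rfl hL (fun s hs => (hpos s hs).2) p hp⟩
  -- the function `A`
  set A : ℝ → ℝ := fun y => Real.log (2 * Real.cosh y) with hA
  have hcp : ∀ y : ℝ, 0 < 2 * Real.cosh y := fun y => by have := Real.cosh_pos y; positivity
  have hAc : Continuous A := by
    refine Continuous.log (by fun_prop) fun y => (hcp y).ne'
  have hAb : ∃ B, ∀ y, |A y| ≤ B * (1 + |y|) := by
    refine ⟨1, fun y => ?_⟩
    have h1 : 1 ≤ 2 * Real.cosh y := by have := Real.one_le_cosh y; linarith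
    have h2 : 0 ≤ A y := Real.log_nonneg h1
    rw [abs_of_nonneg h2, one_mul]
    have h3 : 2 * Real.cosh y ≤ Real.exp (1 + |y|) := by
      rw [Real.cosh_eq, Real.exp_add]
      have h4 : Real.exp y ≤ Real.exp |y| := Real.exp_le_exp.2 (le_abs_self y)
      have h5 : Real.exp (-y) ≤ Real.exp |y| := Real.exp_le_exp.2 (neg_le_abs y)
      have h6 : (2:ℝ) ≤ Real.exp 1 := by
        have := Real.add_one_le_exp (1:ℝ); linarith
      have h7 := Real.exp_pos |y|
      nlinarith
    calc A y ≤ Real.log (Real.exp (1 + |y|)) := Real.log_le_log (hcp y) h3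
      _ = 1 + |y| := Real.log_exp _
  -- entries of the two matrices
  have hent : ∀ᵐ R ∂P, ∀ (n : ℕ) (i j : Fin n), |Kmat LL cl n R i j - xi1 c (R i j)| ≤
      xi2 c 1 * μ := by
    filter_upwards [H.nonneg, H.bdd, H.diag, ae_offdiag H measurableSet_Iio hsk1] with R h0 hb hdg hoff
    intro n i j
    unfold Kmat
    rw [hLL, incL_sum (xi1 c) _ hL, hc.xi1_zero, sub_zero]
    by_cases hij : i = j
    · subst hij
      rw [if_pos rfl, hdg, kap_last hL (fun s hs => (hpos s hs).2), hcl]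
      have : xi1 c (lstG 0 L) + (xi1 c 1 - xi1 c (lstG 0 L)) - xi1 c 1 = 0 := by ring
      rw [this, abs_zero]
      positivity
    · rw [if_neg hij, add_zero]
      have h1 := kap_le hL (h0 i j)
      have h2 : R i j < lstG 0 L := by
        rw [hlst]
        exact hoff i j (fun h' => hij (Fin.ext h'))
      have h3 := kap_close hL (h0 i j) h2
      have h4 : R i j ≤ 1 := (abs_le.1 (hb i j)).2
      refine (hc.xi1_lip (by rw [abs_of_nonneg h1.1]; linarith [h1.2]) (hb i j)).trans ?_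
      refine mul_le_mul_of_nonneg_left ?_ hx2
      rw [abs_le]
      constructor <;> linarith [h1.2]
  have hKpsd := Kmat_psd H LL hLL1 cl hcl0
  have hGpsd : ∀ᵐ R ∂P, ∀ n : ℕ, (Matrix.of fun i j : Fin n => xi1 c (R i j)).PosSemidef := by
    filter_upwards [H_psd H, H.bdd] with R hR hb n
    exact xi1_psd hc _ (hR n) fun i j => hb _ _
  -- the comparison for every `n`
  have hcomp : ∀ n : ℕ, 1 ≤ n → ∫ R, lch (Kmat LL cl n R) ∂P ≤
      (∫ R, Gn c n (fun i k => R i k) ∂P) + xi2 c 1 * μ := by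
    intro n hn
    obtain ⟨g, hg, hgeq⟩ := lch_ext hn
    have hle : ∀ᵐ R ∂P, |lch (Kmat LL cl n R) - Gn c n (fun i k => R i k)| ≤ xi2 c 1 * μ := by
      filter_upwards [hent, hKpsd, hGpsd] with R h1 h2 h3
      exact lch_lip hn (h2 n) (h3 n) _ fun i j => h1 n i j
    -- measurability
    have hGm : AEStronglyMeasurable (fun R : ℕ → ℕ → ℝ => Gn c n (fun i k => R i k)) P := by
      have h1 : Continuous (fun R : ℕ → ℕ → ℝ => g (fun i j : Fin n => xi1 c (clp (R i j)))) := by
        refine hg.comp (continuous_pi fun i => continuous_pi fun j => ?_)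
        exact (xi1_clp_cont hc).comp ((continuous_apply (j : ℕ)).comp (continuous_apply (i : ℕ)))
      refine h1.measurable.stronglyMeasurable.aestronglyMeasurable.congr ?_
      filter_upwards [hGpsd, H.bdd] with R h2 hb
      have h3 : (fun i j : Fin n => xi1 c (clp (R i j))) = fun i j : Fin n => xi1 c (R i j) := by
        funext i j
        rw [clp_eq (hb i j)]
      rw [h3, ← hgeq _ (h2 n)]
      rfl
    have hKm : AEStronglyMeasurable (fun R : ℕ → ℕ → ℝ => lch (Kmat LL cl n R)) P := by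
      have h1 : Measurable (fun R : ℕ → ℕ → ℝ => g (fun i j : Fin n => Kmat LL cl n R i j)) := by
        refine hg.measurable.comp (measurable_pi_lambda _ fun i => measurable_pi_lambda _ fun j => ?_)
        unfold Kmat
        refine Measurable.add ?_ measurable_const
        have hlist : ∀ l : List (ℝ × ℝ), Measurable (fun R : ℕ → ℕ → ℝ =>
            (l.map (fun p => if p.1 ≤ R i j then p.2 else 0)).sum) := by
          intro l
          induction l with
          | nil => simp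
          | cons p l ih =>
            simp only [List.map_cons, List.sum_cons]
            refine Measurable.add (Measurable.ite ?_ measurable_const measurable_const) ih
            exact measurable_entry (i : ℕ) (j : ℕ) measurableSet_Ici
        exact hlist LL
      refine h1.stronglyMeasurable.aestronglyMeasurable.congr ?_
      filter_upwards [hKpsd] with R h2
      have h3 := hgeq (fun i j : Fin n => Kmat LL cl n R i j) (h2 n)
      rw [← h3]
      rfl
    have hGi : Integrable (fun R : ℕ → ℕ → ℝ => Gn c n (fun i k => R i k)) P := by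
      obtain ⟨B, hB⟩ := Gn_bdd hc n hn
      refine Integrable.of_bound hGm B ?_
      filter_upwards [H_psd H, H.bdd] with R h2 hb
      exact hB _ (h2 n) fun i j => hb _ _
    have hKi : Integrable (fun R : ℕ → ℕ → ℝ => lch (Kmat LL cl n R)) P := by
      refine (hGi.abs.add (integrable_const (xi2 c 1 * μ))).mono' hKm ?_
      filter_upwards [hle] with R hR
      rw [Real.norm_eq_abs]
      simp only [Pi.add_apply]
      have h1 := abs_sub_abs_le_abs_sub (lch (Kmat LL cl n R)) (Gn c n (fun i k => R i k))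
      linarith
    have h1 : ∫ R, lch (Kmat LL cl n R) ∂P ≤
        ∫ R, (Gn c n (fun i k => R i k) + xi2 c 1 * μ) ∂P := by
      refine integral_mono_ae hKi (hGi.add (integrable_const _)) ?_
      filter_upwards [hle] with R hR
      have := (abs_le.1 hR).2
      linarith
    rw [integral_add hGi (integrable_const _)] at h1
    simpa using h1
  -- the penalty
  have hpen : th c 1 - ∫ x, th c x ∂ζ ≤
      pen (th c) 0 (L.map (fun s => (ζ.real (Set.Iio s), s)) ++ [(1, 1)]) := by
    obtain ⟨hi, he⟩ := pfun_int (th c) ζ L 0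
    rw [← he]
    have hti : Integrable (th c) ζ := by
      have h1 : AEStronglyMeasurable (th c) ζ := by
        refine (th_clp_cont hc).aestronglyMeasurable.congr ?_
        filter_upwards [ae_zeta H] with x hx
        rw [clp_eq (by rw [abs_of_nonneg hx.1]; exact hx.2)]
      refine Integrable.of_bound h1 (th c 1) ?_
      filter_upwards [ae_zeta H] with x hx
      exact hc.th_abs (by rw [abs_of_nonneg hx.1]; exact hx.2)
    have h1 : ∫ x, (th c 1 - th c x) ∂ζ ≤ ∫ x, pfun (th c) 0 L x ∂ζ := by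
      refine integral_mono_ae ((integrable_const _).sub hti) hi ?_
      filter_upwards [ae_zeta H] with x hx
      rw [pfun_eq (th c) hL hx.1]
      have h2 := kap_le hL hx.1
      have := th_mono hc h2.1 h2.2 hx.2
      linarith
    rw [integral_sub (integrable_const _) hti] at h1
    simpa using h1
  -- conclusion
  have key : ∀ ε : ℝ, 0 < ε →
      Par c (L.map (fun s => (ζ.real (Set.Iio s), s)) ++ [(1, 1)]) ≤ F + xi2 c 1 * μ + ε := by
    intro ε hε
    obtain ⟨n, hn, hch⟩ := chain H LL (incL_pairwise hL) hLL1 cl hcl0 A hAc hAb ε hε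
    have h1 : (∫ R, (∫ z, Real.log ((1 / (n:ℝ)) * ∑ i, Real.exp (A (z i)))
        ∂(gm (Kmat LL cl n R))) ∂P) = ∫ R, lch (Kmat LL cl n R) ∂P := by
      unfold lch
      simp only [hA, Real.exp_log (hcp _)]
    rw [h1] at hch
    have h2 := hcomp n hn
    have h3 := hlow n hn
    unfold Par
    rw [incs_eq c (fun s => ζ.real (Set.Iio s)) L 0]
    linarith
  have := le_of_forall_pos_le_add key
  have h5 : 0 ≤ xi2 c 1 * μ := mul_nonneg hx2 hμ
  linarith

end Pool.Agent.OS
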