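import Pool.Agent.LibMP0f946f.Spin0
import Pool.Agent.LibMP0f946f.Lse

/-! TASK NEARCRIT: near-critical facts.

(1) `sub_crit`: `Λ = 2 ∑ c p < 1`.  `E Z = 2^N exp(N ξ(1)/2)` and
`E Z² = ∑_{σ,τ} exp(N ξ(1) + N ξ(ov))` (`gm_mgf`), `ξ(x) ≤ Λ x²/2`; with `σ` fixed, `√N ov` is a normalised Rademacher sum and
`E exp(Λ (√N ov)²/2) ≤ (1-Λ)^{-1/2}` (linearise with a Gaussian, `cosh y ≤ e^{y²/2}`), so `E Z² ≤ K (E Z)²`, hence
(Paley-Zygmund) `P(Z ≥ E Z/2) ≥ 1/(4K)`; with `FE_conc` (`E|log Z - FE| ≤ 2 √(N ξ(1))`) this gives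
`FE ≥ log(E Z / 2) - 8 K √(N ξ(1))`, so `liminf FN ≥ log 2 + ξ(1)/2`.
(2) `localise`: for `s_N = F - ε/4...`: `EG (1(|ov| ≥ δ)) ≤ P(log Z < N (F - ε)) + E[∑_{|ov| ≥ δ} e^{H σ + H τ}] e^{-2N(F-ε)}`.
The first term tends to `0` (`FE_conc`, Markov).  `E ∑_{ov σ τ = u} e^{Hσ+Hτ} = #{ov = u} exp(N ξ(1) + N ξ(u))` and
`#{(σ,τ) : ov = u} ≤ 4^N exp(-N (u²/2 + u⁴/20))` (Chernoff with `λ = u`: `cosh u ≤ exp(u²/2 - u⁴/20)` for `|u| ≤ 1`); `ov` takes at
most `N+1` values.  So the second term is at most `(N+1) exp(N (2 log 2 + ξ(1) - κ' - 2F + 2ε)) → 0` for small `ε`.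
(3) `rs_bound`: Guerra's functional for `L = [(0,q),(1,1)]` is
`log 2 + E lc(√τ g) + (ξ'(1) - τ)/2 - (θ(1) - θ(q))/2 = log 2 + ξ(1)/2 + [E lc(√τ g) - τ/2 + θ(q)/2]`, `τ = ξ'(q)`, and
`lc y ≤ y²/2 - y⁴/12 + y⁶/45`, so the bracket is `≤ - τ²/4 + τ³/3 + θ(q)/2`; `τ ≥ 2 c_2 q`, `θ(q) ≤ c_2 q² + K q⁴`
(`c_3 = 0`; or `K q³`), and `-(2c_2)²q²/4 + c_2 q²/2 = c_2 q² (1 - 2c_2)/2 < 0` dominates for small `q`. -/

set_option autoImplicit false
open MeasureTheory ProbabilityTheory Real Filter Topology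

namespace Pool.Agent.OS

/-! ### The bound on `log cosh` -/

/-- the polynomial bound -/
noncomputable def lcP (y : ℝ) : ℝ := y ^ 2 / 2 - y ^ 4 / 12 + y ^ 6 / 45
/-- its derivative -/
noncomputable def lcT (y : ℝ) : ℝ := y - y ^ 3 / 3 + 2 * y ^ 5 / 15

theorem lcP_deriv (y : ℝ) : HasDerivAt lcP (lcT y) y := by
  have h1 := (((hasDerivAt_pow 2 y).div_const 2).sub ((hasDerivAt_pow 4 y).div_const 12)).add
    ((hasDerivAt_pow 6 y).div_const 45)
  refine h1.congr_deriv ?_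
  simp only [lcT]
  push_cast
  ring

theorem lcT_deriv (y : ℝ) : HasDerivAt lcT (1 - y ^ 2 + 2 * y ^ 4 / 3) y := by
  have h1 := ((hasDerivAt_id y).sub ((hasDerivAt_pow 3 y).div_const 3)).add
    (((hasDerivAt_pow 5 y).const_mul 2).div_const 15)
  refine h1.congr_deriv ?_
  push_cast
  ring

/-- the auxiliary function -/
noncomputable def lcG (y : ℝ) : ℝ := (lcT y * Real.cosh y - Real.sinh y) * Real.exp (lcP y)

theorem lcG_deriv (y : ℝ) : HasDerivAt lcG
    (Real.exp (lcP y) * Real.cosh y * (1 - y ^ 2 + 2 * y ^ 4 / 3 - 1 + lcT y ^ 2)) y := by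
  have h1 := (((lcT_deriv y).mul (Real.hasDerivAt_cosh y)).sub (Real.hasDerivAt_sinh y)).mul
    (lcP_deriv y).exp
  refine h1.congr_deriv ?_
  simp only [Pi.mul_apply, Pi.sub_apply]
  ring

theorem lcG_mono : Monotone lcG := by
  refine monotone_of_deriv_nonneg (fun y => (lcG_deriv y).differentiableAt) (fun y => ?_)
  rw [(lcG_deriv y).deriv]
  have h1 : (1 - y ^ 2 + 2 * y ^ 4 / 3 - 1 + lcT y ^ 2) =
      y ^ 6 * ((2 * y ^ 2 / 15 - 1 / 3) ^ 2 + 4 / 15) := by
    simp only [lcT]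
    ring
  rw [h1]
  have h2 : (0:ℝ) ≤ y ^ 6 := by positivity
  have h3 := Real.exp_pos (lcP y)
  have h4 := Real.cosh_pos y
  positivity

theorem lcG_nonneg {y : ℝ} (hy : 0 ≤ y) : 0 ≤ lcG y := by
  have h1 := lcG_mono hy
  simpa [lcG, lcT] using h1

theorem lc_deriv (y : ℝ) : HasDerivAt lc (Real.sinh y / Real.cosh y) y :=
  (Real.hasDerivAt_cosh y).log (Real.cosh_pos y).ne'

theorem lc_even (y : ℝ) : lc (-y) = lc y := by
  rw [lc, lc, Real.cosh_neg]

theorem lc_le (y : ℝ) : lc y ≤ y ^ 2 / 2 - y ^ 4 / 12 + y ^ 6 / 45 := by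
  have key : ∀ z : ℝ, 0 ≤ z → lc z ≤ lcP z := by
    intro z hz
    have hmono : MonotoneOn (fun y => lcP y - lc y) (Set.Ici 0) := by
      refine monotoneOn_of_deriv_nonneg (convex_Ici 0) ?_ ?_ ?_
      · exact fun x _ => ((lcP_deriv x).sub (lc_deriv x)).continuousAt.continuousWithinAt
      · exact fun x _ => ((lcP_deriv x).sub (lc_deriv x)).differentiableAt.differentiableWithinAt
      · intro x hx
        rw [interior_Ici] at hx
        have hx' : 0 < x := hx
        have hd : HasDerivAt (fun y => lcP y - lc y) (lcT x - Real.sinh x / Real.cosh x) x :=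
          (lcP_deriv x).sub (lc_deriv x)
        rw [hd.deriv]
        have h1 := lcG_nonneg hx'.le
        rw [lcG] at h1
        have h2 : 0 ≤ lcT x * Real.cosh x - Real.sinh x :=
          nonneg_of_mul_nonneg_left h1 (Real.exp_pos _)
        have h3 := Real.cosh_pos x
        have h4 : Real.sinh x / Real.cosh x ≤ lcT x := by
          rw [div_le_iff₀ h3]
          linarith
        linarith
    have h1 := hmono (Set.mem_Ici.2 (le_refl 0)) (Set.mem_Ici.2 hz) hz
    simp only [lcP, lc, Real.cosh_zero, Real.log_one] at h1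
    simp only [lcP, lc]
    linarith
  change lc y ≤ lcP y
  rcases le_total 0 y with h | h
  · exact key y h
  · have h1 := key (-y) (by linarith)
    rw [lc_even] at h1
    refine h1.trans (le_of_eq ?_)
    simp only [lcP]
    ring

theorem exp_lc (u : ℝ) : Real.exp (lc u) = Real.cosh u := Real.exp_log (Real.cosh_pos u)

theorem cosh_le_quartic {u : ℝ} (hu : |u| ≤ 1) :
    Real.cosh u ≤ Real.exp (u ^ 2 / 2 - u ^ 4 / 20) := by
  rw [← exp_lc]
  refine Real.exp_le_exp.2 ((lc_le u).trans ?_)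
  have h1 : u ^ 2 ≤ 1 := by
    rw [← sq_abs]
    exact pow_le_one₀ (abs_nonneg u) hu
  have h2 : 0 ≤ u ^ 4 := by positivity
  have h3 : u ^ 6 ≤ u ^ 4 := by nlinarith
  linarith

/-! ### Exponential sums of overlaps -/

theorem sum_exp_ov {N : ℕ} (hN : 1 ≤ N) (l : ℝ) (σ : Cfg N) :
    ∑ τ : Cfg N, Real.exp (l * (N * ov σ τ)) = (2 * Real.cosh l) ^ N := by
  have hN' : (N : ℝ) ≠ 0 := by
    have : 0 < N := hN
    positivity
  have h1 : ∀ τ : Cfg N, Real.exp (l * (N * ov σ τ)) =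
      ∏ i, Real.exp (l * (if σ i = τ i then (1:ℝ) else -1)) := by
    intro τ
    rw [← Real.exp_sum, ← Finset.mul_sum, ov]
    congr 2
    field_simp
  simp only [h1]
  have h2 := Finset.prod_univ_sum (fun _ : Fin N => (Finset.univ : Finset Bool))
    (fun i b => Real.exp (l * (if σ i = b then (1:ℝ) else -1)))
  rw [Fintype.piFinset_univ] at h2
  rw [← h2]
  have h3 : ∀ i : Fin N, ∑ b : Bool, Real.exp (l * (if σ i = b then (1:ℝ) else -1)) =
      2 * Real.cosh l := by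
    intro i
    rw [Real.cosh_eq, Fintype.sum_bool]
    cases σ i
    · simp
      ring
    · simp
      ring
  simp only [h3]
  simp

theorem count_ov (N : ℕ) (hN : 1 ≤ N) (u : ℝ) (hu : |u| ≤ 1) (σ : Cfg N) :
    (((Finset.univ.filter fun τ : Cfg N => ov σ τ = u).card : ℕ) : ℝ) ≤
      2 ^ N * Real.exp (-(N * (u ^ 2 / 2 + u ^ 4 / 20))) := by
  have h1 : (((Finset.univ.filter fun τ : Cfg N => ov σ τ = u).card : ℕ) : ℝ) *
      Real.exp (u * (N * u)) ≤ (2 * Real.cosh u) ^ N := by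
    rw [← sum_exp_ov hN u σ, ← nsmul_eq_mul, ← Finset.sum_const]
    have h2 : ∑ τ ∈ Finset.univ.filter (fun τ : Cfg N => ov σ τ = u), Real.exp (u * (N * u)) =
        ∑ τ ∈ Finset.univ.filter (fun τ : Cfg N => ov σ τ = u), Real.exp (u * (N * ov σ τ)) := by
      refine Finset.sum_congr rfl (fun τ hτ => ?_)
      rw [(Finset.mem_filter.1 hτ).2]
    rw [h2]
    exact Finset.sum_le_sum_of_subset_of_nonneg (Finset.filter_subset _ _)
      (fun _ _ _ => (Real.exp_pos _).le)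
  have h2 : (2 * Real.cosh u) ^ N ≤ 2 ^ N * Real.exp (N * (u ^ 2 / 2 - u ^ 4 / 20)) := by
    rw [mul_pow, Real.exp_nat_mul]
    refine mul_le_mul_of_nonneg_left ?_ (by positivity)
    exact pow_le_pow_left₀ (Real.cosh_pos u).le (cosh_le_quartic hu) N
  have h3 := h1.trans h2
  rw [← le_div_iff₀ (Real.exp_pos _)] at h3
  refine h3.trans (le_of_eq ?_)
  rw [mul_div_assoc, ← Real.exp_sub]
  congr 2
  ring

/-! ### Moments of the partition function -/

section moments
variable {ι : Type*} [Fintype ι] [DecidableEq ι]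

omit [DecidableEq ι] in
theorem cont_exp_one (i : ι) : Continuous (fun x : ι → ℝ => Real.exp (x i)) :=
  Real.continuous_exp.comp (continuous_apply i)

omit [DecidableEq ι] in
theorem cont_exp_two (i j : ι) : Continuous (fun x : ι → ℝ => Real.exp (x i + x j)) :=
  Real.continuous_exp.comp ((continuous_apply i).add (continuous_apply j))

omit [DecidableEq ι] in
theorem le_sum_abs (x : ι → ℝ) (i : ι) : x i ≤ ∑ k, |x k| :=
  (le_abs_self _).trans
    (Finset.single_le_sum (f := fun k => |x k|) (fun _ _ => abs_nonneg _) (Finset.mem_univ i))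

theorem gm_exp_int1 (C : Matrix ι ι ℝ) (i : ι) :
    Integrable (fun x : ι → ℝ => Real.exp (x i)) (gm C) := by
  refine (gm_expint C 1).mono' (cont_exp_one i).aestronglyMeasurable (ae_of_all _ fun x => ?_)
  rw [Real.norm_eq_abs, abs_of_pos (Real.exp_pos _), one_mul]
  exact Real.exp_le_exp.2 (le_sum_abs x i)

theorem gm_exp_int2 (C : Matrix ι ι ℝ) (i j : ι) :
    Integrable (fun x : ι → ℝ => Real.exp (x i + x j)) (gm C) := by
  refine (gm_expint C 2).mono' (cont_exp_two i j).aestronglyMeasurable (ae_of_all _ fun x => ?_)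
  rw [Real.norm_eq_abs, abs_of_pos (Real.exp_pos _)]
  refine Real.exp_le_exp.2 ?_
  have h1 := le_sum_abs x i
  have h2 := le_sum_abs x j
  linarith

theorem gm_exp_one {C : Matrix ι ι ℝ} (hC : C.PosSemidef) (i : ι) :
    ∫ x, Real.exp (x i) ∂(gm C) = Real.exp (C i i / 2) := by
  have h := gm_mgf hC (Pi.single i 1)
  simpa [Pi.single_apply, ite_mul, mul_ite, Finset.sum_ite_eq] using h

theorem gm_exp_two {C : Matrix ι ι ℝ} (hC : C.PosSemidef) (i j : ι) :
    ∫ x, Real.exp (x i + x j) ∂(gm C) = Real.exp ((C i i + C j j) / 2 + C i j) := by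
  have h := gm_mgf hC (fun k => (if k = i then 1 else 0) + (if k = j then 1 else 0))
  have hs : C j i = C i j := by
    have h1 := hC.isHermitian.apply i j
    simpa using h1
  have h2 : ∀ x : ι → ℝ, ∑ k, ((if k = i then (1:ℝ) else 0) + (if k = j then 1 else 0)) * x k =
      x i + x j := by
    intro x
    simp [add_mul, Finset.sum_add_distrib, ite_mul, Finset.sum_ite_eq]
  have h3 : (∑ k, ∑ l, ((if k = i then (1:ℝ) else 0) + (if k = j then 1 else 0)) * C k l *
      ((if l = i then (1:ℝ) else 0) + (if l = j then 1 else 0))) = C i i + C i j + (C j i + C j j) := by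
    simp [add_mul, mul_add, Finset.sum_add_distrib, ite_mul, mul_ite, Finset.sum_ite_eq]
    ring
  simp only [h2, h3] at h
  rw [h, hs]
  congr 1
  ring

theorem gm_Z_one {C : Matrix ι ι ℝ} (hC : C.PosSemidef) (m : ℝ) (hm : ∀ i, C i i = m) :
    ∫ x, ∑ i, Real.exp (x i) ∂(gm C) = Fintype.card ι * Real.exp (m / 2) := by
  rw [integral_finsetSum _ (fun i _ => gm_exp_int1 C i)]
  simp [gm_exp_one hC, hm]

theorem gm_Z_pair {C : Matrix ι ι ℝ} (hC : C.PosSemidef) (m : ℝ) (hm : ∀ i, C i i = m)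
    (S : Finset (ι × ι)) :
    ∫ x, ∑ q ∈ S, Real.exp (x q.1 + x q.2) ∂(gm C) = ∑ q ∈ S, Real.exp (m + C q.1 q.2) := by
  rw [integral_finsetSum _ (fun q _ => gm_exp_int2 C q.1 q.2)]
  refine Finset.sum_congr rfl (fun q _ => ?_)
  rw [gm_exp_two hC, hm, hm]
  congr 1
  ring

end moments

/-- the exponential square of a Gaussian is integrable -/
theorem integrable_exp_sq_γ {a : ℝ} (ha : a < 1) :
    Integrable (fun g : ℝ => Real.exp (a / 2 * g ^ 2)) γ := by
  rw [integrable_γ_iff]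
  have h1 : Integrable (fun x : ℝ => Real.exp (-((1 - a) / 2) * x ^ 2)) :=
    integrable_exp_neg_mul_sq (by linarith)
  refine (h1.const_mul (Real.sqrt (2 * π))⁻¹).congr (ae_of_all _ fun x => ?_)
  simp only [gaussianPDFReal, NNReal.coe_one, mul_one, sub_zero]
  rw [mul_assoc, ← Real.exp_add]
  congr 2
  ring

theorem mgf_γ (t : ℝ) : ∫ x, Real.exp (t * x) ∂γ = Real.exp (t ^ 2 / 2) := by
  have h := congrFun (mgf_id_gaussianReal (μ := 0) (v := 1)) t
  simpa [mgf] using h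

/-- Gaussian linearisation -/
theorem sum_exp_ov_sq {N : ℕ} (hN : 1 ≤ N) {a : ℝ} (ha0 : 0 ≤ a) (ha : a < 1) (σ : Cfg N) :
    ∑ τ : Cfg N, Real.exp (N * (a / 2 * ov σ τ ^ 2)) ≤
      2 ^ N * ∫ g, Real.exp (a / 2 * g ^ 2) ∂γ := by
  have hN' : (0:ℝ) < N := by exact_mod_cast hN
  set s := Real.sqrt (a / N) with hs
  have hs2 : s ^ 2 = a / N := Real.sq_sqrt (by positivity)
  have h1 : ∀ τ : Cfg N, Real.exp (N * (a / 2 * ov σ τ ^ 2)) =
      ∫ g, Real.exp ((s * (N * ov σ τ)) * g) ∂γ := by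
    intro τ
    rw [mgf_γ]
    congr 1
    have : (s * (N * ov σ τ)) ^ 2 = s ^ 2 * N ^ 2 * ov σ τ ^ 2 := by ring
    rw [this, hs2]
    field_simp
  have h2 : ∑ τ : Cfg N, Real.exp (N * (a / 2 * ov σ τ ^ 2)) =
      ∫ g, ∑ τ : Cfg N, Real.exp ((s * (N * ov σ τ)) * g) ∂γ := by
    rw [integral_finsetSum _ (fun τ _ => integrable_exp_mul_gaussianReal _)]
    exact Finset.sum_congr rfl (fun τ _ => h1 τ)
  rw [h2, ← integral_const_mul]
  refine integral_mono (integrable_finsetSum _ (fun τ _ => integrable_exp_mul_gaussianReal _))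
    ((integrable_exp_sq_γ ha).const_mul _) (fun g => ?_)
  have h3 : ∀ τ : Cfg N, Real.exp ((s * (N * ov σ τ)) * g) = Real.exp ((s * g) * (N * ov σ τ)) := by
    intro τ
    congr 1
    ring
  simp only [h3]
  rw [sum_exp_ov hN, mul_pow]
  refine mul_le_mul_of_nonneg_left ?_ (by positivity)
  have h4 := pow_le_pow_left₀ (Real.cosh_pos (s * g)).le (Real.cosh_le_exp_half_sq (s * g)) N
  refine h4.trans (le_of_eq ?_)
  rw [← Real.exp_nat_mul]
  congr 1
  have : (s * g) ^ 2 = s ^ 2 * g ^ 2 := by ring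
  rw [this, hs2]
  field_simp

theorem xi_le_sq {c : ℕ → ℝ} (hc : Adm c) {x : ℝ} (hx : |x| ≤ 1) :
    xi c x ≤ (∑' p, c p) * x ^ 2 := by
  rw [xi, ← tsum_mul_right]
  have hx2 : x ^ 2 ≤ 1 := by
    rw [← sq_abs]
    exact pow_le_one₀ (abs_nonneg x) hx
  refine Summable.tsum_le_tsum (fun p => ?_) (summable_pow_of_abs_le hc.nonneg hc.summable hx (fun p => p))
    (hc.summable.mul_right _)
  match p with
  | 0 => simp [hc.c0]
  | 1 => simp [hc.c1]
  | p + 2 =>
    refine mul_le_mul_of_nonneg_left ?_ (hc.nonneg _)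
    rw [pow_add]
    have h1 : x ^ p ≤ 1 := by
      refine (le_abs_self _).trans ?_
      rw [abs_pow]
      exact pow_le_one₀ (abs_nonneg x) hx
    have h2 := sq_nonneg x
    nlinarith

theorem cov_diag {c : ℕ → ℝ} {N : ℕ} (hN : 1 ≤ N) (σ : Cfg N) : cov c N σ σ = N * xi c 1 := by
  rw [cov, ov_self hN]

theorem card_cfg (N : ℕ) : ((Fintype.card (Cfg N) : ℕ) : ℝ) = 2 ^ N := by
  simp [Cfg]

theorem xi_one_nonneg {c : ℕ → ℝ} (hc : Adm c) : 0 ≤ xi c 1 := by
  have := hc.xi_abs (x := 0) (by norm_num)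
  exact (abs_nonneg _).trans this

theorem Z_sq {ι : Type*} [Fintype ι] (x : ι → ℝ) :
    (∑ i, Real.exp (x i)) ^ 2 = ∑ q : ι × ι, Real.exp (x q.1 + x q.2) := by
  rw [sq, Finset.sum_mul_sum, Fintype.sum_prod_type]
  refine Finset.sum_congr rfl (fun i _ => Finset.sum_congr rfl (fun j _ => ?_))
  rw [Real.exp_add]

theorem sub_crit_fin {c : ℕ → ℝ} (hc : Adm c) (h : 2 * ∑' p, c p < 1) {N : ℕ} (hN : 1 ≤ N) (K : ℝ)
    (hK : K = ∫ g, Real.exp ((2 * ∑' p, c p) / 2 * g ^ 2) ∂γ) :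
    N * (Real.log 2 + xi c 1 / 2) - Real.log 2 - 4 * K ^ 2 * Real.sqrt (N * xi c 1) ≤
      FE (cov c N) := by
  have hC := cov_psd hc N
  have hdiag : ∀ σ, cov c N σ σ = N * xi c 1 := fun σ => cov_diag hN σ
  set m : ℝ := N * xi c 1 with hm
  have ha0 : 0 ≤ 2 * ∑' p, c p := mul_nonneg zero_le_two (tsum_nonneg hc.nonneg)
  have hK1 : 1 ≤ K := by
    rw [hK]
    have h1 : ∫ _ : ℝ, (1:ℝ) ∂γ ≤ ∫ g, Real.exp ((2 * ∑' p, c p) / 2 * g ^ 2) ∂γ :=
      integral_mono (integrable_const _) (integrable_exp_sq_γ h) (fun g => by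
        refine Real.one_le_exp ?_
        positivity)
    simpa using h1
  set μ : ℝ := 2 ^ N * Real.exp (m / 2) with hμ
  have hμ0 : 0 < μ := by positivity
  have hZ1 : ∫ x, ∑ σ, Real.exp (x σ) ∂(gm (cov c N)) = μ := by
    rw [gm_Z_one hC m hdiag, card_cfg]
  have hZ2 : ∫ x, (∑ σ, Real.exp (x σ)) ^ 2 ∂(gm (cov c N)) ≤ K * μ ^ 2 := by
    simp only [Z_sq]
    rw [gm_Z_pair hC m hdiag, Fintype.sum_prod_type]
    have h1 : ∀ σ : Cfg N, ∑ τ : Cfg N, Real.exp (m + cov c N σ τ) ≤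
        Real.exp m * (2 ^ N * K) := by
      intro σ
      rw [hK]
      refine le_trans ?_ (mul_le_mul_of_nonneg_left (sum_exp_ov_sq hN ha0 h σ)
        (Real.exp_pos m).le)
      rw [Finset.mul_sum]
      refine Finset.sum_le_sum (fun τ _ => ?_)
      rw [← Real.exp_add]
      refine Real.exp_le_exp.2 (add_le_add_right ?_ _)
      rw [cov]
      refine mul_le_mul_of_nonneg_left ?_ (Nat.cast_nonneg N)
      refine (xi_le_sq hc (ov_abs_le σ τ)).trans (le_of_eq ?_)
      ring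
    refine (Finset.sum_le_sum (fun σ _ => h1 σ)).trans (le_of_eq ?_)
    rw [Finset.sum_const, nsmul_eq_mul, Finset.card_univ, card_cfg, hμ]
    have h2 : Real.exp m = Real.exp (m / 2) ^ 2 := by
      rw [← Real.exp_nat_mul]
      congr 1
      push_cast
      ring
    rw [h2]
    ring
  have hi1 : Integrable (fun x : Cfg N → ℝ => ∑ σ, Real.exp (x σ)) (gm (cov c N)) :=
    integrable_finsetSum _ (fun σ _ => gm_exp_int1 _ σ)
  have hi2 : Integrable (fun x : Cfg N → ℝ => (∑ σ, Real.exp (x σ)) ^ 2) (gm (cov c N)) := by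
    simp only [Z_sq]
    exact integrable_finsetSum _ (fun q _ => gm_exp_int2 _ q.1 q.2)
  -- the quadratic
  set m' : ℝ := Real.log (μ / 2) with hm'
  have hm'2 : m' = N * (Real.log 2 + xi c 1 / 2) - Real.log 2 := by
    rw [hm', Real.log_div hμ0.ne' two_ne_zero, hμ, Real.log_mul (by positivity) (by positivity),
      Real.log_pow, Real.log_exp, hm]
    ring
  rw [← hm'2]
  by_contra hcon
  push Not at hcon
  have hlt : 0 < m' - FE (cov c N) := by
    have : 0 ≤ 4 * K ^ 2 * Real.sqrt m := by positivity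
    linarith
  have hconc := FE_conc hC m (fun σ => (hdiag σ).le)
  have hlow : ∫ x : Cfg N → ℝ, (m' - FE (cov c N)) * ((1 / K ^ 2) * ((2 * K + 1 / 2) / μ *
      (∑ σ, Real.exp (x σ)) - 1 / μ ^ 2 * (∑ σ, Real.exp (x σ)) ^ 2 - K)) ∂(gm (cov c N)) ≤
      ∫ x, |lse x - FE (cov c N)| ∂(gm (cov c N)) := by
    refine integral_mono ((((hi1.const_mul _).sub (hi2.const_mul _)).sub
      (integrable_const _)).const_mul _ |>.const_mul _)
      ((lse_integrable (cov c N)).sub (integrable_const _)).abs (fun x => ?_)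
    have hZ0 : 0 < ∑ σ, Real.exp (x σ) :=
      Finset.sum_pos (fun _ _ => Real.exp_pos _) Finset.univ_nonempty
    set Z := ∑ σ, Real.exp (x σ) with hZ
    have e1 : (2 * K + 1 / 2) / μ * Z - 1 / μ ^ 2 * Z ^ 2 - K =
        (Z / μ - 1 / 2) * (2 * K - Z / μ) := by
      field_simp
      ring
    simp only
    rw [e1]
    rcases le_or_gt (μ / 2) Z with h1 | h1
    · have h2 : m' ≤ lse x := by
        rw [hm', lse]
        exact Real.log_le_log (by positivity) h1
      have h3 : m' - FE (cov c N) ≤ |lse x - FE (cov c N)| :=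
        (sub_le_sub_right h2 _).trans (le_abs_self _)
      refine le_trans ?_ h3
      have h4 : 1 / K ^ 2 * ((Z / μ - 1 / 2) * (2 * K - Z / μ)) ≤ 1 := by
        rw [div_mul_eq_mul_div, one_mul, div_le_one (by positivity)]
        nlinarith [sq_nonneg (K - Z / μ)]
      calc (m' - FE (cov c N)) * (1 / K ^ 2 * ((Z / μ - 1 / 2) * (2 * K - Z / μ)))
          ≤ (m' - FE (cov c N)) * 1 := mul_le_mul_of_nonneg_left h4 hlt.le
        _ = _ := mul_one _
    · refine le_trans ?_ (abs_nonneg _)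
      have h2 : Z / μ < 1 / 2 := by
        rw [div_lt_iff₀ hμ0]
        linarith
      have h3 : (Z / μ - 1 / 2) * (2 * K - Z / μ) ≤ 0 := by
        refine mul_nonpos_of_nonpos_of_nonneg (by linarith) (by linarith)
      have h4 : 1 / K ^ 2 * ((Z / μ - 1 / 2) * (2 * K - Z / μ)) ≤ 0 :=
        mul_nonpos_of_nonneg_of_nonpos (by positivity) h3
      exact mul_nonpos_of_nonneg_of_nonpos hlt.le h4
  rw [integral_const_mul, integral_const_mul, integral_sub, integral_sub, integral_const_mul,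
    integral_const_mul, hZ1, integral_const] at hlow
  rotate_left
  · exact hi1.const_mul _
  · exact hi2.const_mul _
  · exact (hi1.const_mul _).sub (hi2.const_mul _)
  · exact integrable_const _
  simp only [probReal_univ, smul_eq_mul, one_mul] at hlow
  have h5 : 1 / (2 * K ^ 2) ≤ 1 / K ^ 2 * ((2 * K + 1 / 2) / μ * μ - 1 / μ ^ 2 *
      (∫ x, (∑ σ, Real.exp (x σ)) ^ 2 ∂(gm (cov c N))) - K) := by
    have e1 : (2 * K + 1 / 2) / μ * μ = 2 * K + 1 / 2 := by field_simp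
    have e2 : 1 / μ ^ 2 * (∫ x, (∑ σ, Real.exp (x σ)) ^ 2 ∂(gm (cov c N))) ≤ K := by
      calc 1 / μ ^ 2 * (∫ x, (∑ σ, Real.exp (x σ)) ^ 2 ∂(gm (cov c N)))
          ≤ 1 / μ ^ 2 * (K * μ ^ 2) := mul_le_mul_of_nonneg_left hZ2 (by positivity)
        _ = K := by field_simp
    rw [e1]
    have e3 : 1 / (2 * K ^ 2) = 1 / K ^ 2 * (1 / 2) := by field_simp
    rw [e3]
    refine mul_le_mul_of_nonneg_left (by linarith) (by positivity)
  have h6 := (mul_le_mul_of_nonneg_left h5 hlt.le).trans (hlow.trans hconc)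
  have h7 : m' - FE (cov c N) ≤ 4 * K ^ 2 * Real.sqrt m := by
    have h8 : (m' - FE (cov c N)) * (1 / (2 * K ^ 2)) * (2 * K ^ 2) ≤
        2 * Real.sqrt m * (2 * K ^ 2) := mul_le_mul_of_nonneg_right h6 (by positivity)
    have h9 : (m' - FE (cov c N)) * (1 / (2 * K ^ 2)) * (2 * K ^ 2) = m' - FE (cov c N) := by
      field_simp
    rw [h9] at h8
    linarith
  linarith

theorem sub_crit {c : ℕ → ℝ} (hc : Adm c) (h : 2 * ∑' p, c p < 1) (F : ℝ)
    (hF : Tendsto (FN c) atTop (𝓝 F)) : Real.log 2 + xi c 1 / 2 ≤ F := by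
  set K : ℝ := ∫ g, Real.exp ((2 * ∑' p, c p) / 2 * g ^ 2) ∂γ with hK
  have hNr : Tendsto (fun N : ℕ => (N : ℝ)) atTop atTop := tendsto_natCast_atTop_atTop
  have h1 : Tendsto (fun N : ℕ => Real.log 2 + xi c 1 / 2 - Real.log 2 / N -
      4 * K ^ 2 * Real.sqrt (xi c 1) / Real.sqrt N) atTop
      (𝓝 (Real.log 2 + xi c 1 / 2 - 0 - 0)) :=
    (tendsto_const_nhds.sub (tendsto_const_nhds.div_atTop hNr)).sub
      (tendsto_const_nhds.div_atTop (Real.tendsto_sqrt_atTop.comp hNr))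
  rw [sub_zero, sub_zero] at h1
  refine le_of_tendsto_of_tendsto h1 hF ?_
  filter_upwards [eventually_ge_atTop 1] with N hN
  have hN' : (0:ℝ) < N := by exact_mod_cast hN
  have h2 := sub_crit_fin hc h hN K hK
  rw [FN, le_div_iff₀ hN']
  refine le_trans (le_of_eq ?_) h2
  rw [Real.sqrt_mul hN'.le]
  have h3 : Real.sqrt N * Real.sqrt N = N := Real.mul_self_sqrt hN'.le
  have h4 : 0 < Real.sqrt N := Real.sqrt_pos.2 hN'
  have e1 : (Real.log 2 + xi c 1 / 2 - Real.log 2 / N -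
      4 * K ^ 2 * Real.sqrt (xi c 1) / Real.sqrt N) * N =
      N * (Real.log 2 + xi c 1 / 2) - Real.log 2 -
      4 * K ^ 2 * Real.sqrt (xi c 1) * (N / Real.sqrt N) := by
    field_simp
  have e2 : (N : ℝ) / Real.sqrt N = Real.sqrt N := by
    rw [div_eq_iff h4.ne']
    exact h3.symm
  rw [e1, e2]
  ring

/-! ### Localisation -/

theorem gav_two_eq {ι : Type*} [Fintype ι] [Nonempty ι] (x : ι → ℝ) (P : ι → ι → Prop)
    [∀ i j, Decidable (P i j)] :
    gav x 2 (fun s => if P (s 0) (s 1) then 1 else 0) =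
      (∑ q ∈ Finset.univ.filter (fun q : ι × ι => P q.1 q.2), Real.exp (x q.1 + x q.2)) /
        Real.exp (lse x) ^ 2 := by
  have hZ0 : 0 < ∑ j, Real.exp (x j) :=
    Finset.sum_pos (fun _ _ => Real.exp_pos _) Finset.univ_nonempty
  rw [gav, lse, Real.exp_log hZ0, ← (finTwoArrowEquiv ι).symm.sum_comp, Finset.sum_filter,
    Finset.sum_div]
  refine Finset.sum_congr rfl (fun q _ => ?_)
  simp only [finTwoArrowEquiv_symm_apply, Fin.prod_univ_two, Matrix.cons_val_zero,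
    Matrix.cons_val_one, pw]
  split_ifs with h
  · rw [Real.exp_add]
    field_simp
  · simp

theorem ov_values {N : ℕ} (hN : 1 ≤ N) (σ : Cfg N) (T : Finset (Cfg N)) :
    (T.image (fun τ => ov σ τ)).card ≤ N + 1 := by
  have h1 : T.image (fun τ => ov σ τ) ⊆
      (Finset.range (N + 1)).image (fun m : ℕ => ((2 * (m : ℝ) - N) / N : ℝ)) := by
    intro u hu
    obtain ⟨τ, _, rfl⟩ := Finset.mem_image.1 hu
    refine Finset.mem_image.2 ⟨(Finset.univ.filter (fun i => σ i = τ i)).card, ?_, ?_⟩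
    · rw [Finset.mem_range]
      have := Finset.card_le_univ (Finset.univ.filter (fun i => σ i = τ i))
      rw [Fintype.card_fin] at this
      omega
    · rw [ov]
      congr 1
      have h2 : ∀ i, (if σ i = τ i then (1:ℝ) else -1) = 2 * (if σ i = τ i then (1:ℝ) else 0) - 1 := by
        intro i
        split_ifs <;> norm_num
      simp only [h2]
      rw [Finset.sum_sub_distrib, ← Finset.mul_sum, Finset.sum_boole]
      simp
  refine (Finset.card_le_card h1).trans (Finset.card_image_le.trans ?_)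
  rw [Finset.card_range]

theorem sum_far {c : ℕ → ℝ} {N : ℕ} (hN : 1 ≤ N) (δ κ : ℝ)
    (hκ : ∀ u : ℝ, δ ≤ |u| → |u| ≤ 1 → xi c u - (u ^ 2 / 2 + u ^ 4 / 20) ≤ - κ) (σ : Cfg N) :
    ∑ τ ∈ Finset.univ.filter (fun τ : Cfg N => δ ≤ |ov σ τ|), Real.exp (N * xi c (ov σ τ)) ≤
      (N + 1) * (2 ^ N * Real.exp (-(N * κ))) := by
  classical
  have hN0 : (0:ℝ) ≤ N := Nat.cast_nonneg N
  set T := Finset.univ.filter (fun τ : Cfg N => δ ≤ |ov σ τ|) with hT
  rw [Finset.sum_comp (fun u => Real.exp (N * xi c u)) (fun τ => ov σ τ)]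
  have h1 : ∀ u ∈ T.image (fun τ => ov σ τ),
      (T.filter (fun τ => ov σ τ = u)).card • Real.exp (N * xi c u) ≤
        2 ^ N * Real.exp (-(N * κ)) := by
    intro u hu
    obtain ⟨τ, hτ, rfl⟩ := Finset.mem_image.1 hu
    have hτ' : δ ≤ |ov σ τ| := (Finset.mem_filter.1 hτ).2
    have h2 := hκ _ hτ' (ov_abs_le σ τ)
    have h3 := count_ov N hN (ov σ τ) (ov_abs_le σ τ) σ
    have h4 : (((T.filter (fun τ' => ov σ τ' = ov σ τ)).card : ℕ) : ℝ) ≤
        (((Finset.univ.filter fun τ' : Cfg N => ov σ τ' = ov σ τ).card : ℕ) : ℝ) := by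
      exact_mod_cast Finset.card_le_card (Finset.filter_subset_filter _ (Finset.subset_univ _))
    rw [nsmul_eq_mul]
    refine (mul_le_mul_of_nonneg_right (h4.trans h3) (Real.exp_pos _).le).trans ?_
    rw [mul_assoc, ← Real.exp_add]
    refine mul_le_mul_of_nonneg_left (Real.exp_le_exp.2 ?_) (by positivity)
    have h5 := mul_le_mul_of_nonneg_left h2 hN0
    linarith
  refine (Finset.sum_le_card_nsmul _ _ _ h1).trans ?_
  rw [nsmul_eq_mul]
  refine mul_le_mul_of_nonneg_right ?_ (by positivity)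
  exact_mod_cast ov_values hN σ T

theorem localise_fin {c : ℕ → ℝ} (hc : Adm c) {N : ℕ} (hN : 1 ≤ N) (δ κ F ε : ℝ) (hε : 0 < ε)
    (hκ : ∀ u : ℝ, δ ≤ |u| → |u| ≤ 1 → xi c u - (u ^ 2 / 2 + u ^ 4 / 20) ≤ - κ)
    (hF : F - ε / 2 ≤ FN c N) :
    EG (cov c N) 2 (fun s => if δ ≤ |ov (s 0) (s 1)| then 1 else 0) ≤
      2 / (N * ε) * (2 * Real.sqrt (N * xi c 1)) +
      (N + 1) * Real.exp (N * (2 * Real.log 2 + xi c 1 - κ - 2 * F + 2 * ε)) := by
  have hN' : (0:ℝ) < N := by exact_mod_cast hN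
  have hC := cov_psd hc N
  have hdiag : ∀ σ, cov c N σ σ = N * xi c 1 := fun σ => cov_diag hN σ
  set m : ℝ := N * xi c 1 with hm
  have hconc := FE_conc hC m (fun σ => (hdiag σ).le)
  have hFE : N * (F - ε / 2) ≤ FE (cov c N) := by
    rw [FN, le_div_iff₀ hN'] at hF
    linarith
  set S := Finset.univ.filter (fun q : Cfg N × Cfg N => δ ≤ |ov q.1 q.2|) with hS
  have hpt : ∀ x : Cfg N → ℝ, gav x 2 (fun s => if δ ≤ |ov (s 0) (s 1)| then 1 else 0) ≤
      2 / (N * ε) * |lse x - FE (cov c N)| + Real.exp (-(2 * (N * (F - ε)))) *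
        ∑ q ∈ S, Real.exp (x q.1 + x q.2) := by
    intro x
    have hsum : 0 ≤ ∑ q ∈ S, Real.exp (x q.1 + x q.2) :=
      Finset.sum_nonneg (fun _ _ => (Real.exp_pos _).le)
    rcases lt_or_ge (lse x) (N * (F - ε)) with h1 | h1
    · have h2 : gav x 2 (fun s => if δ ≤ |ov (s 0) (s 1)| then 1 else 0) ≤ 1 := by
        refine (gav_mono x 2 (g := fun _ => 1) (fun s => ?_)).trans (le_of_eq (gav_const x 2 1))
        split_ifs <;> norm_num
      have h3 : N * ε / 2 ≤ |lse x - FE (cov c N)| := by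
        have h4 : N * ε / 2 ≤ -(lse x - FE (cov c N)) := by linarith
        exact h4.trans (neg_le_abs _)
      have h4 : 1 ≤ 2 / (N * ε) * |lse x - FE (cov c N)| := by
        calc (1:ℝ) = 2 / (N * ε) * (N * ε / 2) := by field_simp
          _ ≤ _ := mul_le_mul_of_nonneg_left h3 (by positivity)
      have h5 : 0 ≤ Real.exp (-(2 * (N * (F - ε)))) * ∑ q ∈ S, Real.exp (x q.1 + x q.2) :=
        mul_nonneg (Real.exp_pos _).le hsum
      linarith
    · rw [gav_two_eq x (fun σ τ => δ ≤ |ov σ τ|)]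
      have h2 : (∑ q ∈ S, Real.exp (x q.1 + x q.2)) / Real.exp (lse x) ^ 2 ≤
          Real.exp (-(2 * (N * (F - ε)))) * ∑ q ∈ S, Real.exp (x q.1 + x q.2) := by
        rw [div_eq_mul_inv, mul_comm]
        refine mul_le_mul_of_nonneg_right ?_ hsum
        rw [← Real.exp_nat_mul, ← Real.exp_neg]
        refine Real.exp_le_exp.2 ?_
        push_cast
        linarith
      have h3 : 0 ≤ 2 / (N * ε) * |lse x - FE (cov c N)| := by positivity
      linarith
  have hint : ∫ x : Cfg N → ℝ, (2 / (N * ε) * |lse x - FE (cov c N)| +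
      Real.exp (-(2 * (N * (F - ε)))) * ∑ q ∈ S, Real.exp (x q.1 + x q.2)) ∂(gm (cov c N)) =
      2 / (N * ε) * (∫ x, |lse x - FE (cov c N)| ∂(gm (cov c N))) +
      Real.exp (-(2 * (N * (F - ε)))) * ∑ q ∈ S, Real.exp (m + cov c N q.1 q.2) := by
    rw [integral_add, integral_const_mul, integral_const_mul, gm_Z_pair hC m hdiag]
    · exact (((lse_integrable (cov c N)).sub (integrable_const _)).abs).const_mul _
    · exact (integrable_finsetSum _ (fun q _ => gm_exp_int2 _ q.1 q.2)).const_mul _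
  have h1 : EG (cov c N) 2 (fun s => if δ ≤ |ov (s 0) (s 1)| then 1 else 0) ≤
      2 / (N * ε) * (∫ x, |lse x - FE (cov c N)| ∂(gm (cov c N))) +
      Real.exp (-(2 * (N * (F - ε)))) * ∑ q ∈ S, Real.exp (m + cov c N q.1 q.2) := by
    rw [← hint, EG]
    refine integral_mono (gav_integrable _ _ _) ?_ hpt
    exact ((((lse_integrable (cov c N)).sub (integrable_const _)).abs).const_mul _).add
      ((integrable_finsetSum _ (fun q _ => gm_exp_int2 _ q.1 q.2)).const_mul _)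
  have h2 : ∑ q ∈ S, Real.exp (m + cov c N q.1 q.2) ≤
      2 ^ N * (Real.exp m * ((N + 1) * (2 ^ N * Real.exp (-(N * κ))))) := by
    rw [hS, Finset.sum_filter, Fintype.sum_prod_type]
    have h3 : ∀ σ : Cfg N, ∑ τ : Cfg N, (if δ ≤ |ov σ τ| then Real.exp (m + cov c N σ τ) else 0) ≤
        Real.exp m * ((N + 1) * (2 ^ N * Real.exp (-(N * κ)))) := by
      intro σ
      refine le_trans (le_of_eq ?_) (mul_le_mul_of_nonneg_left (sum_far hN δ κ hκ σ)
        (Real.exp_pos m).le)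
      rw [← Finset.sum_filter, Finset.mul_sum]
      refine Finset.sum_congr rfl (fun τ _ => ?_)
      rw [← Real.exp_add, cov]
    refine (Finset.sum_le_sum (fun σ _ => h3 σ)).trans (le_of_eq ?_)
    rw [Finset.sum_const, nsmul_eq_mul, Finset.card_univ, card_cfg]
  have h3 : 2 / (N * ε) * (∫ x, |lse x - FE (cov c N)| ∂(gm (cov c N))) ≤
      2 / (N * ε) * (2 * Real.sqrt m) := mul_le_mul_of_nonneg_left hconc (by positivity)
  have h4 : Real.exp (-(2 * (N * (F - ε)))) * ∑ q ∈ S, Real.exp (m + cov c N q.1 q.2) ≤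
      (N + 1) * Real.exp (N * (2 * Real.log 2 + xi c 1 - κ - 2 * F + 2 * ε)) := by
    refine (mul_le_mul_of_nonneg_left h2 (Real.exp_pos _).le).trans (le_of_eq ?_)
    have h5 : (2:ℝ) ^ N = Real.exp (N * Real.log 2) := by
      rw [Real.exp_nat_mul, Real.exp_log two_pos]
    have h6 : N * (2 * Real.log 2 + xi c 1 - κ - 2 * F + 2 * ε) =
        -(2 * (N * (F - ε))) + N * Real.log 2 + m + N * Real.log 2 + (-(N * κ)) := by
      rw [hm]
      ring
    rw [h6, h5, Real.exp_add, Real.exp_add, Real.exp_add, Real.exp_add]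
    ring
  linarith

theorem localise {c : ℕ → ℝ} (hc : Adm c) (F : ℝ) (hF : Tendsto (FN c) atTop (𝓝 F))
    (δ κ : ℝ) (hδ : 0 < δ)
    (hκ : ∀ u : ℝ, δ ≤ |u| → |u| ≤ 1 → xi c u - (u ^ 2 / 2 + u ^ 4 / 20) ≤ - κ)
    (hFκ : 2 * Real.log 2 + xi c 1 - κ < 2 * F) :
    Tendsto (fun N => EG (cov c N) 2 (fun s => if δ ≤ |ov (s 0) (s 1)| then 1 else 0)) atTop
      (𝓝 0) := by
  set D : ℝ := 2 * Real.log 2 + xi c 1 - κ - 2 * F with hD
  have hD0 : D < 0 := by
    rw [hD]
    linarith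
  set ε : ℝ := -D / 4 with hε
  have hε0 : 0 < ε := by
    rw [hε]
    linarith
  have hNr : Tendsto (fun N : ℕ => (N : ℝ)) atTop atTop := tendsto_natCast_atTop_atTop
  have l1 : Tendsto (fun N : ℕ => (4 * Real.sqrt (xi c 1) / ε) / Real.sqrt N) atTop (𝓝 0) :=
    tendsto_const_nhds.div_atTop (Real.tendsto_sqrt_atTop.comp hNr)
  have hr0 : |Real.exp (D / 2)| < 1 := by
    rw [abs_of_pos (Real.exp_pos _), Real.exp_lt_one_iff]
    linarith
  have l2 : Tendsto (fun N : ℕ => (N : ℝ) ^ 1 * Real.exp (D / 2) ^ N + Real.exp (D / 2) ^ N)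
      atTop (𝓝 (0 + 0)) :=
    (tendsto_pow_const_mul_const_pow_of_abs_lt_one 1 hr0).add
      (tendsto_pow_atTop_nhds_zero_of_abs_lt_one hr0)
  have l3 := l1.add l2
  rw [add_zero, add_zero] at l3
  refine tendsto_of_tendsto_of_tendsto_of_le_of_le' tendsto_const_nhds l3 ?_ ?_
  · filter_upwards with N
    refine (le_of_eq (EG_const (cov c N) 2 0).symm).trans (EG_mono _ _ (fun s => ?_))
    split_ifs <;> norm_num
  · filter_upwards [eventually_ge_atTop 1, hF.eventually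
      (lt_mem_nhds (show F - ε / 2 < F by linarith))] with N hN hFN
    have hN' : (0:ℝ) < N := by exact_mod_cast hN
    have h1 := localise_fin hc hN δ κ F ε hε0 hκ hFN.le
    refine h1.trans (le_of_eq ?_)
    have h2 : 2 * Real.log 2 + xi c 1 - κ - 2 * F + 2 * ε = D / 2 := by
      rw [hε, hD]
      ring
    rw [h2, Real.exp_nat_mul, Real.sqrt_mul hN'.le]
    have h3 : Real.sqrt N * Real.sqrt N = N := Real.mul_self_sqrt hN'.le
    have h4 : 0 < Real.sqrt N := Real.sqrt_pos.2 hN'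
    have h5 : 2 / (N * ε) * (2 * (Real.sqrt N * Real.sqrt (xi c 1))) =
        4 * Real.sqrt (xi c 1) / ε / Real.sqrt N := by
      have h6 : (N : ℝ) = Real.sqrt N * Real.sqrt N := h3.symm
      calc 2 / (N * ε) * (2 * (Real.sqrt N * Real.sqrt (xi c 1)))
          = 2 / (Real.sqrt N * Real.sqrt N * ε) * (2 * (Real.sqrt N * Real.sqrt (xi c 1))) := by
            rw [h3]
        _ = _ := by
          field_simp
          ring
    rw [h5]
    ring

/-! ### The replica symmetric bound -/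

theorem pow_bound (n : ℕ) (x : ℝ) : |x ^ n| ≤ (n.factorial : ℝ) * Real.exp |x| := by
  have h1 := Real.pow_div_factorial_le_exp |x| (abs_nonneg x) n
  have h2 : (0:ℝ) < n.factorial := by exact_mod_cast n.factorial_pos
  rw [div_le_iff₀ h2] at h1
  rw [abs_pow]
  linarith

theorem exp_abs_le {B : ℝ} (hB : 1 ≤ B) (x : ℝ) : Real.exp |x| ≤ Real.exp (B * |x|) := by
  refine Real.exp_le_exp.2 ?_
  have := abs_nonneg x
  nlinarith

theorem fact_ge_one (n : ℕ) : (1:ℝ) ≤ n.factorial := by exact_mod_cast n.factorial_pos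

theorem int_pow (n : ℕ) : Integrable (fun x : ℝ => x ^ n) γ := by
  refine integrable_γ_of_bound (B := (n.factorial : ℝ)) (by fun_prop) (fun x => ?_)
  exact (pow_bound n x).trans
    (mul_le_mul_of_nonneg_left (exp_abs_le (fact_ge_one n) x) (by positivity))

theorem mom_step (n : ℕ) : ∫ x, x ^ (n + 2) ∂γ = (n + 1) * ∫ x, x ^ n ∂γ := by
  have h := stein (fun x => x ^ (n + 1)) (fun x => (n + 1) * x ^ n) (fun x => by
    have := hasDerivAt_pow (n + 1) x
    refine this.congr_deriv ?_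
    push_cast
    rfl) (by fun_prop) ⟨((n + 1).factorial : ℝ), fun x => ⟨?_, ?_⟩⟩
  · rw [integral_const_mul] at h
    rw [← h]
    refine integral_congr_ae (ae_of_all _ fun x => ?_)
    simp only
    ring
  · exact (pow_bound (n + 1) x).trans
      (mul_le_mul_of_nonneg_left (exp_abs_le (fact_ge_one (n + 1)) x) (by positivity))
  · rw [abs_mul]
    have h1 : |(n : ℝ) + 1| = n + 1 := abs_of_pos (by positivity)
    rw [h1]
    calc ((n : ℝ) + 1) * |x ^ n| ≤ (n + 1) * ((n.factorial : ℝ) * Real.exp |x|) :=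
          mul_le_mul_of_nonneg_left (pow_bound n x) (by positivity)
      _ = ((n + 1).factorial : ℝ) * Real.exp |x| := by
          rw [Nat.factorial_succ]
          push_cast
          ring
      _ ≤ _ := mul_le_mul_of_nonneg_left (exp_abs_le (fact_ge_one (n + 1)) x) (by positivity)

theorem mom2 : ∫ x, x ^ 2 ∂γ = 1 := by
  have h := mom_step 0
  simpa using h

theorem mom4 : ∫ x, x ^ 4 ∂γ = 3 := by
  have h := mom_step 2
  rw [mom2] at h
  rw [h]
  norm_num

theorem mom6 : ∫ x, x ^ 6 ∂γ = 15 := by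
  have h := mom_step 4
  rw [mom4] at h
  rw [h]
  norm_num

theorem lc_nonneg (y : ℝ) : 0 ≤ lc y := Real.log_nonneg (Real.one_le_cosh y)

theorem lc_cont : Continuous lc :=
  continuous_iff_continuousAt.2 fun x => (lc_deriv x).continuousAt

theorem lc_le_abs (y : ℝ) : lc y ≤ |y| := by
  rw [lc]
  have h1 : Real.cosh y ≤ Real.exp |y| := by
    rw [← Real.cosh_abs, Real.cosh_eq]
    have h2 : Real.exp (-|y|) ≤ Real.exp |y| := Real.exp_le_exp.2 (by
      have := abs_nonneg y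
      linarith)
    linarith
  calc Real.log (Real.cosh y) ≤ Real.log (Real.exp |y|) := Real.log_le_log (Real.cosh_pos y) h1
    _ = |y| := Real.log_exp _

theorem int_lc (s : ℝ) : Integrable (fun g : ℝ => lc (s * g)) γ := by
  have h1 : Integrable (fun g : ℝ => |s| * |g|) γ := by
    have h2 := (int_pow 1).abs.const_mul |s|
    simpa using h2
  refine h1.mono' (lc_cont.comp (continuous_const.mul continuous_id)).aestronglyMeasurable
    (ae_of_all _ fun g => ?_)
  rw [Real.norm_eq_abs, abs_of_nonneg (lc_nonneg _), ← abs_mul]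
  exact lc_le_abs _

theorem int_lc_le {s τ : ℝ} (hs : s ^ 2 = τ) :
    ∫ g, lc (s * g) ∂γ ≤ τ / 2 - τ ^ 2 / 4 + τ ^ 3 / 3 := by
  have h1 : ∫ g, lc (s * g) ∂γ ≤ ∫ g : ℝ, (τ / 2 * g ^ 2 - τ ^ 2 / 12 * g ^ 4 +
      τ ^ 3 / 45 * g ^ 6) ∂γ := by
    refine integral_mono (int_lc s) ((((int_pow 2).const_mul _).sub
      ((int_pow 4).const_mul _)).add ((int_pow 6).const_mul _)) (fun g => ?_)
    refine (lc_le (s * g)).trans (le_of_eq ?_)
    rw [← hs]
    ring
  rw [integral_add, integral_sub, integral_const_mul, integral_const_mul, integral_const_mul,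
    mom2, mom4, mom6] at h1
  · linarith
  · exact (int_pow 2).const_mul _
  · exact (int_pow 4).const_mul _
  · exact ((int_pow 2).const_mul _).sub ((int_pow 4).const_mul _)
  · exact (int_pow 6).const_mul _

theorem T_one_cosh (a x : ℝ) : T 1 a (fun y => Real.log (2 * Real.cosh y)) x =
    Real.log 2 + lc x + a ^ 2 / 2 := by
  have h1 : Zt 1 a (fun y => Real.log (2 * Real.cosh y)) x = 2 * Real.cosh x *
      Real.exp (a ^ 2 / 2) := by
    rw [Zt]
    have h2 : ∀ g : ℝ, Real.exp (1 * Real.log (2 * Real.cosh (x + g • a))) =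
        Real.exp x * Real.exp (a * g) + Real.exp (-x) * Real.exp (-a * g) := by
      intro g
      have h3 := Real.cosh_pos (x + g • a)
      rw [one_mul, Real.exp_log (by positivity), Real.cosh_eq, smul_eq_mul, ← Real.exp_add,
        ← Real.exp_add]
      have e1 : x + g * a = x + a * g := by ring
      have e2 : -(x + g * a) = -x + -a * g := by ring
      rw [e2, e1]
      ring
    simp only [h2]
    rw [integral_add ((integrable_exp_mul_gaussianReal a).const_mul _)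
      ((integrable_exp_mul_gaussianReal (-a)).const_mul _), integral_const_mul,
      integral_const_mul, mgf_γ, mgf_γ, Real.cosh_eq]
    have e3 : (-a) ^ 2 = a ^ 2 := by ring
    rw [e3]
    ring
  rw [T, if_neg one_ne_zero, h1, inv_one, one_mul, Real.log_mul (by
    have := Real.cosh_pos x
    positivity) (Real.exp_pos _).ne', Real.log_exp, Real.log_mul two_ne_zero
    (Real.cosh_pos x).ne', lc]

theorem par_rs {c : ℕ → ℝ} (hc : Adm c) {q : ℝ} (hq0 : 0 ≤ q) (hq1 : q ≤ 1) :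
    Par c [(0, q), (1, 1)] = Real.log 2 + (∫ g, lc (Real.sqrt (xi1 c q) * g) ∂γ) +
      (xi1 c 1 - xi1 c q) / 2 - (th c 1 - th c q) / 2 := by
  have h1 : 0 ≤ xi1 c 1 - xi1 c q := sub_nonneg.2 (hc.xi1_mono hq0 hq1 (le_refl 1))
  simp only [Par, incs, tn, pen, hc.xi1_zero, sub_zero, hc.th_zero]
  have h2 : T 1 (Real.sqrt (xi1 c 1 - xi1 c q)) (fun y => Real.log (2 * Real.cosh y)) =
      fun x => Real.log 2 + lc x + (xi1 c 1 - xi1 c q) / 2 := by
    funext x
    rw [T_one_cosh, Real.sq_sqrt h1]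
  rw [h2, T, if_pos rfl]
  have h3 : ∀ g : ℝ, lc (0 + g • Real.sqrt (xi1 c q)) = lc (Real.sqrt (xi1 c q) * g) := by
    intro g
    congr 1
    rw [smul_eq_mul]
    ring
  simp only [h3]
  have h4 : ∫ g, (Real.log 2 + lc (Real.sqrt (xi1 c q) * g) + (xi1 c 1 - xi1 c q) / 2) ∂γ =
      Real.log 2 + (∫ g, lc (Real.sqrt (xi1 c q) * g) ∂γ) + (xi1 c 1 - xi1 c q) / 2 := by
    have i1 : Integrable (fun g : ℝ => Real.log 2 + lc (Real.sqrt (xi1 c q) * g)) γ :=
      (integrable_const _).add (int_lc _)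
    rw [integral_add i1 (integrable_const _), integral_add (integrable_const _) (int_lc _)]
    simp only [integral_const, probReal_univ, smul_eq_mul, one_mul]
  rw [h4]
  ring

theorem xi1_summable {c : ℕ → ℝ} (hc : Adm c) {q : ℝ} (hq0 : 0 ≤ q) (hq1 : q ≤ 1) :
    Summable (fun p : ℕ => c p * (p * q ^ (p - 1))) := by
  refine Summable.of_nonneg_of_le (fun p => ?_) (fun p => ?_) hc.summable1
  · have := hc.nonneg p
    positivity
  · refine mul_le_mul_of_nonneg_left ?_ (hc.nonneg p)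
    exact mul_le_of_le_one_right (Nat.cast_nonneg p) (pow_le_one₀ hq0 hq1)

theorem xi1_ge {c : ℕ → ℝ} (hc : Adm c) {q : ℝ} (hq0 : 0 ≤ q) (hq1 : q ≤ 1) :
    2 * c 2 * q ≤ xi1 c q := by
  have h1 := (xi1_summable hc hq0 hq1).le_tsum 2 (fun p _ => by
    have := hc.nonneg p
    positivity)
  rw [xi1]
  refine le_trans (le_of_eq ?_) h1
  simp
  ring

theorem xi1_le_mul {c : ℕ → ℝ} (hc : Adm c) {q : ℝ} (hq0 : 0 ≤ q) (hq1 : q ≤ 1) :
    xi1 c q ≤ q * xi1 c 1 := by
  rw [xi1, xi1, ← tsum_mul_left]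
  refine Summable.tsum_le_tsum (fun p => ?_) (xi1_summable hc hq0 hq1)
    ((xi1_summable hc zero_le_one (le_refl 1)).mul_left q)
  match p with
  | 0 => simp
  | 1 => simp [hc.c1]
  | p + 2 =>
    have h1 : q ^ (p + 2 - 1) ≤ q := by
      have e : p + 2 - 1 = p + 1 := by omega
      rw [e, pow_succ]
      exact mul_le_of_le_one_left hq0 (pow_le_one₀ hq0 hq1)
    have h2 := hc.nonneg (p + 2)
    rw [one_pow, mul_one]
    calc c (p + 2) * (((p + 2 : ℕ) : ℝ) * q ^ (p + 2 - 1))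
        ≤ c (p + 2) * (((p + 2 : ℕ) : ℝ) * q) :=
          mul_le_mul_of_nonneg_left (mul_le_mul_of_nonneg_left h1 (Nat.cast_nonneg _)) h2
      _ = _ := by ring

theorem th_le {c : ℕ → ℝ} (hc : Adm c) {q : ℝ} (hq0 : 0 ≤ q) (hq1 : q ≤ 1) :
    th c q ≤ c 2 * q ^ 2 + th c 1 * q ^ 3 := by
  have hq : |q| ≤ 1 := by
    rw [abs_of_nonneg hq0]
    exact hq1
  have hs : Summable (fun p : ℕ => c p * ((p : ℝ) - 1)) := by
    have h1 := hc.summable1.sub hc.summable
    refine h1.congr (fun p => ?_)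
    ring
  rw [hc.th_eq hq, hc.th_eq (x := 1) (by norm_num)]
  have h1 : c 2 * q ^ 2 = ∑' p : ℕ, (if p = 2 then c 2 * q ^ 2 else 0) := by
    rw [tsum_ite_eq]
  have hs1 : Summable (fun p : ℕ => if p = 2 then c 2 * q ^ 2 else (0:ℝ)) :=
    (hasSum_ite_eq 2 (c 2 * q ^ 2)).summable
  have hs2 : Summable (fun p : ℕ => c p * ((p : ℝ) - 1) * 1 ^ p * q ^ 3) := by
    have := hs.mul_right (q ^ 3)
    simpa using this
  rw [h1, ← tsum_mul_right, ← hs1.tsum_add hs2]
  have hn : ∀ p : ℕ, 0 ≤ c p * ((p : ℝ) - 1) := hc.cpred_nonneg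
  refine Summable.tsum_le_tsum (fun p => ?_) ?_ (hs1.add hs2)
  · match p with
    | 0 => simp [hc.c0]
    | 1 => simp
    | 2 =>
      have h5 := hn 2
      have h6 : 0 ≤ q ^ 3 := by positivity
      have h7 : c 2 * (((2 : ℕ) : ℝ) - 1) * 1 ^ 2 * q ^ 3 = c 2 * (((2 : ℕ) : ℝ) - 1) * q ^ 3 := by
        ring
      rw [if_pos rfl, h7]
      have h8 : c 2 * (((2 : ℕ) : ℝ) - 1) * q ^ 2 = c 2 * q ^ 2 := by
        push_cast
        ring
      rw [h8]
      have := mul_nonneg h5 h6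
      linarith
    | p + 3 =>
      rw [if_neg (by omega), zero_add, one_pow, mul_one]
      refine mul_le_mul_of_nonneg_left ?_ (hn _)
      rw [pow_add]
      exact mul_le_of_le_one_left (by positivity) (pow_le_one₀ hq0 hq1)
  · refine Summable.of_nonneg_of_le (fun p => mul_nonneg (hn p) (by positivity)) (fun p => ?_) hs
    exact mul_le_of_le_one_right (hn p) (pow_le_one₀ hq0 hq1)

theorem rs_bound {c : ℕ → ℝ} (hc : Adm c) (h2 : 1 / 2 < c 2) :
    ∃ L : List (ℝ × ℝ), StepOK 0 0 L ∧ Par c L < Real.log 2 + xi c 1 / 2 := by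
  set K := xi1 c 1 with hK
  set K2 := th c 1 with hK2
  have hK0 : 0 ≤ K := by
    have := hc.xi1_mono (le_refl 0) zero_le_one (le_refl 1)
    rwa [hc.xi1_zero] at this
  have hK20 : 0 ≤ K2 := (abs_nonneg _).trans (hc.th_abs (x := 1) (by norm_num))
  set M : ℝ := K ^ 3 / 3 + K2 / 2 with hM
  have hM0 : 0 ≤ M := by positivity
  set e : ℝ := c 2 * (c 2 - 1 / 2) with he
  have he0 : 0 < e := mul_pos (by linarith) (by linarith)
  set q : ℝ := min 1 (e / (2 * (M + 1))) with hq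
  have hq0 : 0 < q := lt_min one_pos (by positivity)
  have hq1 : q ≤ 1 := min_le_left _ _
  have hqM : q * (M + 1) ≤ e / 2 := by
    have h3 : q ≤ e / (2 * (M + 1)) := min_le_right _ _
    calc q * (M + 1) ≤ e / (2 * (M + 1)) * (M + 1) := mul_le_mul_of_nonneg_right h3 (by positivity)
      _ = e / 2 := by field_simp
  refine ⟨[(0, q), (1, 1)], ⟨le_refl _, hq0.le, zero_le_one, hq1, rfl, rfl⟩, ?_⟩
  rw [par_rs hc hq0.le hq1]
  set τ := xi1 c q with hτ
  have hτ1 : 2 * c 2 * q ≤ τ := xi1_ge hc hq0.le hq1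
  have hτ2 : τ ≤ q * K := xi1_le_mul hc hq0.le hq1
  have hc2 : 0 < c 2 := by linarith
  have hτ0 : 0 ≤ τ := le_trans (by positivity) hτ1
  have h3 := int_lc_le (s := Real.sqrt τ) (τ := τ) (Real.sq_sqrt hτ0)
  have h4 := th_le hc hq0.le hq1
  have h5 : th c 1 = xi1 c 1 - xi c 1 := by
    rw [th, one_mul]
  have h6 : (2 * c 2 * q) ^ 2 ≤ τ ^ 2 := pow_le_pow_left₀ (by positivity) hτ1 2
  have h7 : τ ^ 3 ≤ (q * K) ^ 3 := pow_le_pow_left₀ hτ0 hτ2 3
  have h8 : q ^ 2 * (q * (M + 1)) ≤ q ^ 2 * (e / 2) :=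
    mul_le_mul_of_nonneg_left hqM (sq_nonneg q)
  have h9 : 0 < q ^ 2 * e := by positivity
  have h10 : 0 < q ^ 3 := by positivity
  have key : - τ ^ 2 / 4 + τ ^ 3 / 3 + th c q / 2 < 0 := by
    have e1 : -(2 * c 2 * q) ^ 2 / 4 + (q * K) ^ 3 / 3 + (c 2 * q ^ 2 + K2 * q ^ 3) / 2 =
        - (q ^ 2 * e) + q ^ 2 * (q * (M + 1)) - q ^ 3 := by
      rw [he, hM]
      ring
    linarith
  linarith

end Pool.Agent.OS
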