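import Pool.Agent.LibMP0f946f.Spin0
import Pool.Agent.LibMP0f946f.Lse

/-! Reduction: an Orthogonal Structure gives a positive mass of small overlaps. -/

set_option autoImplicit false
open MeasureTheory ProbabilityTheory Real Filter Topology

namespace Pool.Agent.OS

/-- the frozen statement, positive form -/
def FrozenOS : Prop := ∀ β : ℕ → ℝ, β 0 = 0 → β 1 = 0 → Summable (fun p : ℕ => (2:ℝ) ^ p * β p ^ 2) →
  ∃ a : ℕ → ℝ, (∀ k, 0 < a k) ∧ ∀ k₀ : ℕ, ∀ ε : ℝ, 0 < ε → ∃ N₀ : ℕ, ∀ N : ℕ, N₀ ≤ N →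
   ∀ μ : Measure ((Fin N → Bool) → ℝ), IsGaussian μ →
   (∀ σ : Fin N → Bool, ∫ H, H σ ∂μ = 0) →
   (∀ σ τ : Fin N → Bool, ∫ H, H σ * H τ ∂μ =
      (N:ℝ) * ∑' p : ℕ, β p ^ 2 * ((∑ i, if σ i = τ i then (1:ℝ) else -1) / N) ^ p) →
   (3/4 : ENNReal) ≤ μ {H | ∃ A : ℕ → Finset (Fin N → Bool),
      (∀ k ≤ k₀, a k ≤ (∑ σ ∈ A k, Real.exp (H σ)) / ∑ σ, Real.exp (H σ)) ∧
      ∀ k ≤ k₀, ∀ l ≤ k₀, k ≠ l →
        (∑ σ ∈ A k, ∑ τ ∈ A l, Real.exp (H σ) * Real.exp (H τ) *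
            |(∑ i, if σ i = τ i then (1:ℝ) else -1) / N|) /
          (∑ σ, Real.exp (H σ)) ^ 2 < ε}

/-- two-replica Gibbs averages as double sums -/
theorem gav_two {ι : Type*} [Fintype ι] [DecidableEq ι] (x : ι → ℝ) (f : ι → ι → ℝ) :
    gav x 2 (fun s => f (s 0) (s 1)) = ∑ i, ∑ j, f i j * (pw x i * pw x j) := by
  unfold gav
  rw [← Fintype.sum_prod_type' (f := fun i j => f i j * (pw x i * pw x j))]
  apply Fintype.sum_equiv (finTwoArrowEquiv ι)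
  intro s
  simp [Fin.prod_univ_two, finTwoArrowEquiv]

theorem os_lower (hOS : FrozenOS) {c : ℕ → ℝ} (hc : Adm c) :
    ∃ a0 a1 : ℝ, 0 < a0 ∧ 0 < a1 ∧ ∀ ε : ℝ, 0 < ε → ∃ N0 : ℕ, ∀ N : ℕ, N0 ≤ N →
      3 / 4 * (a0 * a1 - ε) ≤
        EG (cov c N) 2 (fun s => if |ov (s 0) (s 1)| < ε then (1:ℝ) else 0) := by
  obtain ⟨a, ha, h⟩ := hOS (fun p => Real.sqrt (c p)) (by simp [hc.c0]) (by simp [hc.c1])
    (by simpa only [Real.sq_sqrt (hc.nonneg _)] using hc.sum)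
  refine ⟨a 0, a 1, ha 0, ha 1, fun ε hε => ?_⟩
  obtain ⟨N0, hN0⟩ := h 1 (ε ^ 2) (by positivity)
  refine ⟨N0, fun N hN => ?_⟩
  have hcov : ∀ σ τ : Fin N → Bool, ∫ H, H σ * H τ ∂(gm (cov c N)) =
      (N:ℝ) * ∑' p : ℕ, (Real.sqrt (c p)) ^ 2 *
        ((∑ i, if σ i = τ i then (1:ℝ) else -1) / N) ^ p := by
    intro σ τ
    rw [gm_cov (cov_psd hc N)]
    simp only [Real.sq_sqrt (hc.nonneg _), cov, xi, ov]
  have h34 := hN0 N hN (gm (cov c N)) inferInstance (gm_mean _) hcov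
  by_cases hneg : a 0 * a 1 - ε ≤ 0
  · refine le_trans (by nlinarith : 3 / 4 * (a 0 * a 1 - ε) ≤ 0) ?_
    have := EG_mono (cov c N) 2 (f := fun _ => (0:ℝ))
      (g := fun s => if |ov (s 0) (s 1)| < ε then (1:ℝ) else 0)
      (fun s => by positivity)
    rwa [EG_const] at this
  push Not at hneg
  set f : (Fin 2 → Cfg N) → ℝ := fun s => if |ov (s 0) (s 1)| < ε then (1:ℝ) else 0 with hf
  have hf0 : ∀ s, 0 ≤ f s := fun s => by rw [hf]; dsimp only; split_ifs <;> norm_num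
  -- the event is contained in a measurable set
  have hsub : {H : Cfg N → ℝ | ∃ A : ℕ → Finset (Fin N → Bool),
      (∀ k ≤ 1, a k ≤ (∑ σ ∈ A k, Real.exp (H σ)) / ∑ σ, Real.exp (H σ)) ∧
      ∀ k ≤ 1, ∀ l ≤ 1, k ≠ l →
        (∑ σ ∈ A k, ∑ τ ∈ A l, Real.exp (H σ) * Real.exp (H τ) *
            |(∑ i, if σ i = τ i then (1:ℝ) else -1) / N|) /
          (∑ σ, Real.exp (H σ)) ^ 2 < ε ^ 2} ⊆ {H | a 0 * a 1 - ε ≤ gav H 2 f} := by
    rintro H ⟨A, hA1, hA2⟩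
    simp only [Set.mem_setOf_eq]
    have e0 := hA1 0 (by norm_num)
    have e1 := hA1 1 (by norm_num)
    have e2 := hA2 0 (by norm_num) 1 (by norm_num) (by norm_num)
    have hpw : ∀ B : Finset (Cfg N), (∑ σ ∈ B, Real.exp (H σ)) / ∑ σ, Real.exp (H σ) =
        ∑ σ ∈ B, pw H σ := by
      intro B; rw [Finset.sum_div]; rfl
    rw [hpw] at e0 e1
    have e2' : ∑ σ ∈ A 0, ∑ τ ∈ A 1, |ov σ τ| * (pw H σ * pw H τ) < ε ^ 2 := by
      convert e2 using 1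
      rw [Finset.sum_div]
      refine Finset.sum_congr rfl fun σ _ => ?_
      rw [Finset.sum_div]
      refine Finset.sum_congr rfl fun τ _ => ?_
      unfold pw ov
      have hZ : (∑ σ : Cfg N, Real.exp (H σ)) ≠ 0 := by
        apply ne_of_gt
        exact Finset.sum_pos (fun _ _ => Real.exp_pos _) Finset.univ_nonempty
      field_simp
    have hpos : ∀ σ, 0 ≤ pw H σ := fun σ => (pw_pos H σ).le
    have hprod : a 0 * a 1 ≤ ∑ σ ∈ A 0, ∑ τ ∈ A 1, pw H σ * pw H τ := by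
      rw [← Finset.sum_mul_sum]
      exact mul_le_mul e0 e1 (ha 1).le (Finset.sum_nonneg fun σ _ => hpos σ)
    have hsplit : ∀ σ τ : Cfg N, pw H σ * pw H τ ≤
        (if |ov σ τ| < ε then (1:ℝ) else 0) * (pw H σ * pw H τ) +
          (1 / ε) * (|ov σ τ| * (pw H σ * pw H τ)) := by
      intro σ τ
      have hp : 0 ≤ pw H σ * pw H τ := mul_nonneg (hpos σ) (hpos τ)
      split_ifs with hlt
      · have : 0 ≤ 1 / ε * (|ov σ τ| * (pw H σ * pw H τ)) := by positivity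
        linarith
      · push Not at hlt
        have h1 : 1 ≤ 1 / ε * |ov σ τ| := by
          rw [one_div, ← div_eq_inv_mul, le_div_iff₀ hε]; linarith
        calc pw H σ * pw H τ = 1 * (pw H σ * pw H τ) := by ring
          _ ≤ (1 / ε * |ov σ τ|) * (pw H σ * pw H τ) := mul_le_mul_of_nonneg_right h1 hp
          _ = 0 * (pw H σ * pw H τ) + 1 / ε * (|ov σ τ| * (pw H σ * pw H τ)) := by ring
    have hsum : ∑ σ ∈ A 0, ∑ τ ∈ A 1, pw H σ * pw H τ ≤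
        (∑ σ ∈ A 0, ∑ τ ∈ A 1, (if |ov σ τ| < ε then (1:ℝ) else 0) * (pw H σ * pw H τ)) +
          (1 / ε) * ∑ σ ∈ A 0, ∑ τ ∈ A 1, |ov σ τ| * (pw H σ * pw H τ) := by
      rw [Finset.mul_sum, ← Finset.sum_add_distrib]
      refine Finset.sum_le_sum fun σ _ => ?_
      rw [Finset.mul_sum, ← Finset.sum_add_distrib]
      exact Finset.sum_le_sum fun τ _ => hsplit σ τ
    have hbig : (∑ σ ∈ A 0, ∑ τ ∈ A 1, (if |ov σ τ| < ε then (1:ℝ) else 0) *
        (pw H σ * pw H τ)) ≤ gav H 2 f := by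
      have : gav H 2 f = ∑ σ, ∑ τ, (if |ov σ τ| < ε then (1:ℝ) else 0) * (pw H σ * pw H τ) :=
        gav_two H (fun σ τ => if |ov σ τ| < ε then (1:ℝ) else 0)
      rw [this]
      have hnn : ∀ σ τ : Cfg N, 0 ≤ (if |ov σ τ| < ε then (1:ℝ) else 0) * (pw H σ * pw H τ) := by
        intro σ τ
        have hp : 0 ≤ pw H σ * pw H τ := mul_nonneg (hpos σ) (hpos τ)
        split_ifs <;> simp [hp]
      calc _ ≤ ∑ σ ∈ A 0, ∑ τ, (if |ov σ τ| < ε then (1:ℝ) else 0) * (pw H σ * pw H τ) :=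
            Finset.sum_le_sum fun σ _ =>
              Finset.sum_le_univ_sum_of_nonneg (fun τ => hnn σ τ)
        _ ≤ _ := Finset.sum_le_univ_sum_of_nonneg
            (fun σ => Finset.sum_nonneg fun τ _ => hnn σ τ)
    have hεε : (1 / ε) * ∑ σ ∈ A 0, ∑ τ ∈ A 1, |ov σ τ| * (pw H σ * pw H τ) ≤ ε := by
      calc (1 / ε) * ∑ σ ∈ A 0, ∑ τ ∈ A 1, |ov σ τ| * (pw H σ * pw H τ)
          ≤ (1 / ε) * ε ^ 2 := mul_le_mul_of_nonneg_left e2'.le (by positivity)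
        _ = ε := by field_simp
    linarith
  have hmeas : MeasurableSet {H : Cfg N → ℝ | a 0 * a 1 - ε ≤ gav H 2 f} :=
    measurableSet_le measurable_const (gav_measurable 2 f).measurable
  have hm := h34.trans (measure_mono hsub)
  -- Markov
  have hint := gav_integrable (cov c N) 2 f
  have hnn : ∀ H : Cfg N → ℝ, 0 ≤ gav H 2 f := by
    intro H
    have := gav_mono H 2 (f := fun _ => (0:ℝ)) (g := f) hf0
    rwa [gav_const] at this
  have hmk := mul_meas_ge_le_integral_of_nonneg (μ := gm (cov c N)) (f := fun H => gav H 2 f)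
    (Filter.Eventually.of_forall hnn) hint (a 0 * a 1 - ε)
  have hr : (3 / 4 : ℝ) ≤ (gm (cov c N)).real {H | a 0 * a 1 - ε ≤ gav H 2 f} := by
    rw [Measure.real]
    have : (3 / 4 : ℝ) = (3 / 4 : ENNReal).toReal := by
      rw [ENNReal.toReal_div]; norm_num
    rw [this]
    exact ENNReal.toReal_mono (measure_ne_top _ _) hm
  calc 3 / 4 * (a 0 * a 1 - ε) = (a 0 * a 1 - ε) * (3 / 4) := by ring
    _ ≤ (a 0 * a 1 - ε) * (gm (cov c N)).real {H | a 0 * a 1 - ε ≤ gav H 2 f} :=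
        mul_le_mul_of_nonneg_left hr hneg.le
    _ ≤ _ := hmk

end Pool.Agent.OS
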