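import Pool.Agent.LibMP0f946f.Spin0

/-! TASK QINV: the inverse function of `ξ'`.

Paper proof.  With `ξ''' (x) = ∑' c p p (p-1) (p-2) x^(p-3)` and `ξ''''` similarly (termwise derivatives on `|x| < 2`,
as for `Adm.xi1_deriv`), `c 3 = 0` gives `|ξ'''(x)| ≤ C κ |x|` and `|ξ''''| ≤ C κ` on `[-1,1]`, `1/2 ≤ ξ'' ` (and `1 ≤ ξ''`
on `[0,1]`, as `2 c 2 ≥ 1`).  So `ξ'` is strictly increasing on `[-1,1]`, `q` = inverse function (defined on the interval
`[ξ'(-1), ξ'(1)]` which contains `[0, ξ'(δ)]` in its interior), `q' = 1/ξ''(q)`, `q'' = - ξ'''(q)/ξ''(q)^3`, and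
`|q'''| = |-ξ''''(q)/ξ''(q)^4 + 3 ξ'''(q)²/ξ''(q)^5| ≤ C' κ ≤ κ0`. -/

set_option autoImplicit false
open MeasureTheory ProbabilityTheory Real Filter Topology

namespace Pool.Agent.OS

namespace QInv

/-- `ξ'''` -/
noncomputable def xi3 (c : ℕ → ℝ) (x : ℝ) : ℝ :=
  ∑' p, c p * (p * (p - 1) * (p - 2) * x ^ (p - 3))
/-- `ξ''''` -/
noncomputable def xi4 (c : ℕ → ℝ) (x : ℝ) : ℝ :=
  ∑' p, c p * (p * (p - 1) * (p - 2) * (p - 3) * x ^ (p - 4))

theorem ff3_bd (n : ℕ) : |(n : ℝ) * ((n : ℝ) - 1) * ((n : ℝ) - 2)| ≤ (n : ℝ) ^ 3 := by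
  match n with
  | 0 => simp
  | 1 => simp
  | n + 2 =>
    push_cast
    have h : (0:ℝ) ≤ n := Nat.cast_nonneg n
    rw [abs_of_nonneg (by
      have e1 : (n : ℝ) + 2 - 1 = n + 1 := by ring
      have e2 : (n : ℝ) + 2 - 2 = n := by ring
      rw [e1, e2]; positivity)]
    nlinarith [mul_nonneg h h]

theorem ff4_bd (n : ℕ) :
    |(n : ℝ) * ((n : ℝ) - 1) * ((n : ℝ) - 2) * ((n : ℝ) - 3)| ≤ (n : ℝ) ^ 4 := by
  match n with
  | 0 => simp
  | 1 => simp
  | 2 => simp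
  | n + 3 =>
    push_cast
    have h : (0:ℝ) ≤ n := Nat.cast_nonneg n
    rw [abs_of_nonneg (by
      have e1 : (n : ℝ) + 3 - 1 = n + 2 := by ring
      have e2 : (n : ℝ) + 3 - 2 = n + 1 := by ring
      have e3 : (n : ℝ) + 3 - 3 = n := by ring
      rw [e1, e2, e3]; positivity)]
    nlinarith [mul_nonneg h h, mul_nonneg (mul_nonneg h h) h]

section calculus
variable {c : ℕ → ℝ} (hc : Adm c)
include hc

theorem summable3' {x : ℝ} (hx : |x| ≤ 1) :
    Summable fun p : ℕ => c p * (p * (p - 1) * (p - 2) * x ^ (p - 3)) := by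
  refine Summable.of_norm_bounded (hc.summk 3) fun p => ?_
  rw [norm_mul, norm_mul, norm_pow, Real.norm_eq_abs, Real.norm_eq_abs, Real.norm_eq_abs,
    abs_of_nonneg (hc.nonneg p)]
  have h1 : |x| ^ (p - 3) ≤ 1 := pow_le_one₀ (abs_nonneg _) hx
  have h2 := ff3_bd p
  have h3 := hc.nonneg p
  calc c p * (|(p : ℝ) * ((p : ℝ) - 1) * ((p : ℝ) - 2)| * |x| ^ (p - 3))
      ≤ c p * ((p : ℝ) ^ 3 * 1) := by gcongr
    _ = c p * (p : ℝ) ^ 3 := by ring

theorem xi2_deriv {x : ℝ} (hx : |x| < 2) : HasDerivAt (xi2 c) (xi3 c x) x := by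
  set ρ : ℝ := (max |x| 1 + 2) / 2 with hρ
  have hm1 : |x| ≤ max |x| 1 := le_max_left _ _
  have hm2 : 1 ≤ max |x| 1 := le_max_right _ _
  have hm3 : max |x| 1 < 2 := max_lt hx (by norm_num)
  have hρ1 : 1 ≤ ρ := by rw [hρ]; linarith
  have hρ2 : ρ < 2 := by rw [hρ]; linarith
  have hxρ : |x| < ρ := by rw [hρ]; linarith
  refine hasDerivAt_tsum_of_isPreconnected (u := fun p => c p * ((p : ℝ) ^ 3 * ρ ^ p))
    (t := Metric.ball (0:ℝ) ρ) (y₀ := 0) (g := fun p x => c p * (p * (p - 1) * x ^ (p - 2)))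
    (g' := fun p x => c p * (p * (p - 1) * (p - 2) * x ^ (p - 3)))
    (hc.summ 3 (by linarith) hρ2) Metric.isOpen_ball
    (convex_ball _ _).isPreconnected (fun n y _ => ?_)
    (fun n y hy => ?_) (by simp; linarith) ?_ (by simpa using hxρ)
  · have h := ((hasDerivAt_pow (n - 2) y).const_mul ((n : ℝ) * (n - 1))).const_mul (c n)
    refine h.congr_deriv ?_
    match n with
    | 0 => simp
    | 1 => simp
    | n + 2 =>
      have e2 : n + 2 - 3 = n - 1 := by omega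
      have e3 : n + 2 - 2 = n := by omega
      rw [e2, e3]
      push_cast
      ring
  · rw [mem_ball_zero_iff, Real.norm_eq_abs] at hy
    rw [norm_mul, norm_mul, norm_pow, Real.norm_eq_abs, Real.norm_eq_abs, Real.norm_eq_abs,
      abs_of_nonneg (hc.nonneg n)]
    have h1 : |y| ^ (n - 3) ≤ ρ ^ n :=
      (pow_le_pow_left₀ (abs_nonneg _) hy.le _).trans (pow_le_pow_right₀ hρ1 (Nat.sub_le _ _))
    have h2 := hc.nonneg n
    have h3 := ff3_bd n
    gcongr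
  · have := hc.summable2
    refine Summable.of_norm_bounded (hc.summk 2) fun p => ?_
    rw [norm_mul, norm_mul, norm_pow, Real.norm_eq_abs, Real.norm_eq_abs, Real.norm_eq_abs,
      abs_of_nonneg (hc.nonneg p), abs_of_nonneg (nat_mul_pred_nonneg p)]
    have h1 : |(0:ℝ)| ^ (p - 2) ≤ 1 := pow_le_one₀ (abs_nonneg _) (by simp)
    have h2 : (p : ℝ) * ((p : ℝ) - 1) ≤ (p : ℝ) ^ 2 := by
      have : (0:ℝ) ≤ p := Nat.cast_nonneg p
      nlinarith
    have h3 := hc.nonneg p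
    have h4 := nat_mul_pred_nonneg p
    calc c p * ((p : ℝ) * ((p : ℝ) - 1) * |(0:ℝ)| ^ (p - 2)) ≤ c p * ((p : ℝ) ^ 2 * 1) := by gcongr
      _ = c p * (p : ℝ) ^ 2 := by ring

theorem xi3_deriv {x : ℝ} (hx : |x| < 2) : HasDerivAt (xi3 c) (xi4 c x) x := by
  set ρ : ℝ := (max |x| 1 + 2) / 2 with hρ
  have hm1 : |x| ≤ max |x| 1 := le_max_left _ _
  have hm2 : 1 ≤ max |x| 1 := le_max_right _ _
  have hm3 : max |x| 1 < 2 := max_lt hx (by norm_num)
  have hρ1 : 1 ≤ ρ := by rw [hρ]; linarith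
  have hρ2 : ρ < 2 := by rw [hρ]; linarith
  have hxρ : |x| < ρ := by rw [hρ]; linarith
  refine hasDerivAt_tsum_of_isPreconnected (u := fun p => c p * ((p : ℝ) ^ 4 * ρ ^ p))
    (t := Metric.ball (0:ℝ) ρ) (y₀ := 0)
    (g := fun p x => c p * (p * (p - 1) * (p - 2) * x ^ (p - 3)))
    (g' := fun p x => c p * (p * (p - 1) * (p - 2) * (p - 3) * x ^ (p - 4)))
    (hc.summ 4 (by linarith) hρ2) Metric.isOpen_ball
    (convex_ball _ _).isPreconnected (fun n y _ => ?_)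
    (fun n y hy => ?_) (by simp; linarith) ?_ (by simpa using hxρ)
  · have h := ((hasDerivAt_pow (n - 3) y).const_mul ((n : ℝ) * (n - 1) * (n - 2))).const_mul (c n)
    refine h.congr_deriv ?_
    match n with
    | 0 => simp
    | 1 => simp
    | 2 => simp
    | n + 3 =>
      have e2 : n + 3 - 4 = n - 1 := by omega
      have e3 : n + 3 - 3 = n := by omega
      rw [e2, e3]
      push_cast
      ring
  · rw [mem_ball_zero_iff, Real.norm_eq_abs] at hy
    rw [norm_mul, norm_mul, norm_pow, Real.norm_eq_abs, Real.norm_eq_abs, Real.norm_eq_abs,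
      abs_of_nonneg (hc.nonneg n)]
    have h1 : |y| ^ (n - 4) ≤ ρ ^ n :=
      (pow_le_pow_left₀ (abs_nonneg _) hy.le _).trans (pow_le_pow_right₀ hρ1 (Nat.sub_le _ _))
    have h2 := hc.nonneg n
    have h3 := ff4_bd n
    gcongr
  · exact summable3' hc (by simp)

end calculus

/-- a series dominated by a geometric series, up to one term -/
theorem tsum_near (f : ℕ → ℝ) (A B : ℝ)
    (h : ∀ p, |f p - (if p = 2 then A else 0)| ≤ B / 2 / 2 ^ p) :
    Summable f ∧ |∑' p, f p - A| ≤ B := by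
  have hg := hasSum_geometric_two' B
  have h0 : Summable fun p => f p - (if p = 2 then A else 0) :=
    Summable.of_norm_bounded hg.summable fun p => by rw [Real.norm_eq_abs]; exact h p
  have h1 : HasSum (fun p : ℕ => if p = 2 then A else 0) A := hasSum_ite_eq 2 A
  have h2 : HasSum f ((∑' p, (f p - (if p = 2 then A else 0))) + A) := by
    have := h0.hasSum.add h1
    simpa using this
  refine ⟨h2.summable, ?_⟩
  rw [h2.tsum_eq, add_sub_cancel_right, ← Real.norm_eq_abs]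
  exact tsum_of_norm_bounded hg fun p => by rw [Real.norm_eq_abs]; exact h p

theorem pow4_le : ∀ n : ℕ, 4 ≤ n → (n : ℝ) ^ 4 ≤ 4 ^ n := by
  intro n hn
  induction n, hn using Nat.le_induction with
  | base => norm_num
  | succ n hn ih =>
    obtain ⟨k, rfl⟩ := Nat.exists_eq_add_of_le hn
    push_cast at ih ⊢
    have hp4 : (4:ℝ) ^ (4 + k + 1) = 4 ^ (4 + k) * 4 := pow_succ _ _
    have hk : (0:ℝ) ≤ k := Nat.cast_nonneg k
    have h1 : (4 + (k:ℝ) + 1) ^ 4 ≤ (4 + (k:ℝ)) ^ 4 * 4 := by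
      have h2 : (4 + (k:ℝ)) ^ 4 * 4 - (4 + (k:ℝ) + 1) ^ 4 =
          3 * k ^ 4 + 44 * k ^ 3 + 234 * k ^ 2 + 524 * k + 399 := by ring
      have h3 : 0 ≤ 3 * (k:ℝ) ^ 4 + 44 * k ^ 3 + 234 * k ^ 2 + 524 * k + 399 := by positivity
      linarith
    rw [hp4]
    linarith

section bounds
variable {c : ℕ → ℝ} {κ : ℝ} (hκ : 0 < κ) (hc : Adm c) (h3 : c 3 = 0)
  (h : ∀ p, 4 ≤ p → c p ≤ κ / 8 ^ p)
include hκ hc h3 h

/-- termwise bound: weights at most `p ^ 4` -/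
theorem term_bd (p : ℕ) (hp : p ≠ 2) (w y : ℝ) (hw : |w| ≤ (p : ℝ) ^ 4) (hy : 0 ≤ y) (z : ℝ)
    (hz : 4 ≤ p → |z| ≤ y) : |c p * (w * z)| ≤ 2 * κ * y / 2 / 2 ^ p := by
  have hr : 0 ≤ 2 * κ * y / 2 / 2 ^ p := by positivity
  rcases lt_or_ge p 4 with h4 | h4
  · have : c p = 0 := by
      interval_cases p
      · exact hc.c0
      · exact hc.c1
      · exact absurd rfl hp
      · exact h3
    rw [this, zero_mul, abs_zero]
    exact hr
  · rw [abs_mul, abs_mul, abs_of_nonneg (hc.nonneg p)]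
    have h5 := hc.nonneg p
    have h6 := pow4_le p h4
    have h7 := hz h4
    have e : (8:ℝ) ^ p = 4 ^ p * 2 ^ p := by rw [← mul_pow]; norm_num
    calc c p * (|w| * |z|) ≤ (κ / 8 ^ p) * (4 ^ p * y) := by
          gcongr
          · exact h p h4
          · exact hw.trans h6
      _ = 2 * κ * y / 2 / 2 ^ p := by
          rw [e]; field_simp

theorem xi2_near {x : ℝ} (hx : |x| ≤ 1) : |xi2 c x - 2 * c 2| ≤ 2 * κ := by
  refine (tsum_near _ _ _ fun p => ?_).2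
  by_cases hp : p = 2
  · subst hp
    rw [if_pos rfl]
    have : c 2 * (((2:ℕ):ℝ) * (((2:ℕ):ℝ) - 1) * x ^ (2 - 2)) - 2 * c 2 = 0 := by
      simp; ring
    rw [this, abs_zero]; positivity
  · rw [if_neg hp, sub_zero]
    have hw : |(p : ℝ) * ((p : ℝ) - 1)| ≤ (p : ℝ) ^ 4 := by
      rw [abs_of_nonneg (nat_mul_pred_nonneg p)]
      rcases Nat.eq_zero_or_pos p with h0 | h0
      · subst h0; simp
      · have h1 : (1:ℝ) ≤ p := by exact_mod_cast h0
        have h2 : (p:ℝ) ^ 2 ≤ (p:ℝ) ^ 4 := pow_le_pow_right₀ h1 (by norm_num)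
        nlinarith
    have := term_bd hκ hc h3 h p hp _ 1 hw zero_le_one (x ^ (p - 2)) (fun _ => by
      rw [abs_pow]; exact pow_le_one₀ (abs_nonneg _) hx)
    simpa using this

theorem xi3_bd {x : ℝ} (hx : |x| ≤ 1) : |xi3 c x| ≤ 2 * κ * |x| := by
  have := (tsum_near (fun p : ℕ => c p * (p * (p - 1) * (p - 2) * x ^ (p - 3))) 0 (2 * κ * |x|)
    fun p => ?_).2
  · rw [sub_zero] at this; exact this
  by_cases hp : p = 2
  · subst hp
    simp
    positivity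
  · rw [if_neg hp, sub_zero]
    have hw : |(p : ℝ) * ((p : ℝ) - 1) * ((p : ℝ) - 2)| ≤ (p : ℝ) ^ 4 := by
      refine (ff3_bd p).trans ?_
      rcases Nat.eq_zero_or_pos p with h0 | h0
      · subst h0; simp
      · have h1 : (1:ℝ) ≤ p := by exact_mod_cast h0
        exact pow_le_pow_right₀ h1 (by norm_num)
    refine term_bd hκ hc h3 h p hp _ |x| hw (abs_nonneg _) (x ^ (p - 3)) (fun h4 => ?_)
    rw [abs_pow]
    calc |x| ^ (p - 3) ≤ |x| ^ 1 := pow_le_pow_of_le_one (abs_nonneg _) hx (by omega)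
      _ = |x| := pow_one _

theorem xi4_bd {x : ℝ} (hx : |x| ≤ 1) : |xi4 c x| ≤ 2 * κ := by
  have := (tsum_near (fun p : ℕ => c p * (p * (p - 1) * (p - 2) * (p - 3) * x ^ (p - 4))) 0 (2 * κ)
    fun p => ?_).2
  · rw [sub_zero] at this; exact this
  by_cases hp : p = 2
  · subst hp
    simp
    positivity
  · rw [if_neg hp, sub_zero]
    have := term_bd hκ hc h3 h p hp _ 1 (ff4_bd p) zero_le_one (x ^ (p - 4)) (fun _ => by
      rw [abs_pow]; exact pow_le_one₀ (abs_nonneg _) hx)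
    simpa using this

end bounds

theorem xi2_ge {c : ℕ → ℝ} (hc : Adm c) {x : ℝ} (hx0 : 0 ≤ x) (hx1 : x ≤ 1) :
    2 * c 2 ≤ xi2 c x := by
  have hs : Summable fun p : ℕ => c p * (p * (p - 1) * x ^ (p - 2)) := by
    refine Summable.of_norm_bounded (hc.summk 2) fun p => ?_
    rw [norm_mul, norm_mul, norm_pow, Real.norm_eq_abs, Real.norm_eq_abs, Real.norm_eq_abs,
      abs_of_nonneg (hc.nonneg p), abs_of_nonneg (nat_mul_pred_nonneg p)]
    have h1 : |x| ^ (p - 2) ≤ 1 := pow_le_one₀ (abs_nonneg _) (by rwa [abs_of_nonneg hx0])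
    have h2 : (p : ℝ) * ((p : ℝ) - 1) ≤ (p : ℝ) ^ 2 := by
      have : (0:ℝ) ≤ p := Nat.cast_nonneg p
      nlinarith
    have h3 := hc.nonneg p
    have h4 := nat_mul_pred_nonneg p
    calc c p * ((p : ℝ) * ((p : ℝ) - 1) * |x| ^ (p - 2)) ≤ c p * ((p : ℝ) ^ 2 * 1) := by gcongr
      _ = c p * (p : ℝ) ^ 2 := by ring
  have := hs.le_tsum 2 (fun p _ => by
    have h3 := hc.nonneg p
    have h4 := nat_mul_pred_nonneg p
    positivity)
  refine le_trans (le_of_eq ?_) this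
  simp
  ring

end QInv

open QInv

theorem exists_q (κ0 : ℝ) (hκ0 : 0 < κ0) : ∃ κ : ℝ, 0 < κ ∧ ∀ c : ℕ → ℝ, Adm c → 1 / 2 ≤ c 2 →
    c 2 ≤ 1 → c 3 = 0 → (∀ p, 4 ≤ p → c p ≤ κ / 8 ^ p) → ∀ δ : ℝ, 0 < δ → δ ≤ 1 / 2 →
    ∃ q q1 q2 q3 : ℝ → ℝ, q 0 = 0 ∧ q2 0 = 0 ∧
      (∀ t ∈ Set.Icc 0 (xi1 c δ), HasDerivAt q (q1 t) t ∧ HasDerivAt q1 (q2 t) t ∧
        HasDerivAt q2 (q3 t) t ∧ 0 < q1 t ∧ q1 t ≤ 1 ∧ |q3 t| ≤ κ0) ∧
      (∀ t ∈ Set.Icc 0 (xi1 c δ), xi1 c (q t) = t ∧ 0 ≤ q t ∧ q t ≤ δ) ∧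
      (∀ x ∈ Set.Icc 0 δ, q (xi1 c x) = x) ∧ StrictMonoOn q (Set.Icc 0 (xi1 c δ)) ∧
      (∀ t ∈ Set.Icc 0 (xi1 c δ), HasDerivAt (fun t => th c (q t)) (q t) t) := by
  refine ⟨min (1 / 8) (κ0 / 14), lt_min (by norm_num) (by positivity), ?_⟩
  intro c hc hc2 hc2' hc3 hcp δ hδ hδ'
  set κ := min (1 / 8) (κ0 / 14) with hκdef
  have hκ : 0 < κ := lt_min (by norm_num) (by positivity)
  have hκ8 : κ ≤ 1 / 8 := min_le_left _ _
  have hκ14 : κ ≤ κ0 / 14 := min_le_right _ _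
  have hmem : ∀ x : ℝ, x ∈ Set.Icc (-1:ℝ) 1 ↔ |x| ≤ 1 := fun x => abs_le.symm
  -- the derivative is at least `1/2`
  have hd2 : ∀ x ∈ Set.Icc (-1:ℝ) 1, 1 / 2 ≤ xi2 c x := by
    intro x hx
    have := (abs_le.1 (xi2_near hκ hc hc3 hcp ((hmem x).1 hx))).1
    linarith
  have hder : ∀ x ∈ Set.Icc (-1:ℝ) 1, HasDerivAt (xi1 c) (xi2 c x) x := fun x hx =>
    hc.xi1_deriv (by have := (hmem x).1 hx; linarith)
  -- expansion
  have hexp : ∀ x ∈ Set.Icc (-1:ℝ) 1, ∀ y ∈ Set.Icc (-1:ℝ) 1, x ≤ y →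
      (y - x) / 2 ≤ xi1 c y - xi1 c x := by
    intro x hx y hy hxy
    have hmono : MonotoneOn (fun z => xi1 c z - z / 2) (Set.Icc (-1) 1) := by
      refine monotoneOn_of_hasDerivWithinAt_nonneg (f' := fun z => xi2 c z - 1 / 2)
        (convex_Icc _ _) ?_ ?_ ?_
      · intro z hz
        exact ((hder z hz).sub ((hasDerivAt_id z).div_const 2)).continuousAt.continuousWithinAt
      · intro z hz
        exact ((hder z (interior_subset hz)).sub ((hasDerivAt_id z).div_const 2)).hasDerivWithinAt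
      · intro z hz
        have := hd2 z (interior_subset hz)
        linarith
    have := hmono hx hy hxy
    simp only at this
    linarith
  have hsm : StrictMonoOn (xi1 c) (Set.Icc (-1) 1) := by
    intro x hx y hy hxy
    have := hexp x hx y hy hxy.le
    linarith
  have hinj : Set.InjOn (xi1 c) (Set.Icc (-1) 1) := hsm.injOn
  set q := Function.invFunOn (xi1 c) (Set.Icc (-1) 1) with hq
  have hcont : ContinuousOn (xi1 c) (Set.Icc (-1) 1) := fun z hz =>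
    (hder z hz).continuousAt.continuousWithinAt
  have hsurj : ∀ t ∈ Set.Icc (xi1 c (-1)) (xi1 c 1), q t ∈ Set.Icc (-1:ℝ) 1 ∧ xi1 c (q t) = t := by
    intro t ht
    have h1 : t ∈ xi1 c '' Set.Icc (-1) 1 :=
      intermediate_value_Icc (by norm_num) hcont ht
    exact ⟨Function.invFunOn_mem h1, Function.invFunOn_eq h1⟩
  have hqx : ∀ x ∈ Set.Icc (-1:ℝ) 1, q (xi1 c x) = x := by
    intro x hx
    exact hinj.leftInvOn_invFunOn hx
  have hm1 : xi1 c (-1) < 0 := by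
    have := hsm (a := -1) (b := 0) (by simp) (by simp) (by norm_num)
    rwa [hc.xi1_zero] at this
  have hm2 : ∀ x, 0 ≤ x → x ≤ 1 / 2 → 0 ≤ xi1 c x ∧ xi1 c x < xi1 c 1 := by
    intro x hx hx'
    constructor
    · have := hsm.monotoneOn (a := 0) (b := x) (by simp) ⟨by linarith, by linarith⟩ hx
      rwa [hc.xi1_zero] at this
    · exact hsm ⟨by linarith, by linarith⟩ (by simp) (by linarith)
  have hδm := hm2 δ hδ.le hδ'
  have hint : ∀ t ∈ Set.Icc 0 (xi1 c δ), t ∈ Set.Ioo (xi1 c (-1)) (xi1 c 1) := fun t ht =>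
    ⟨lt_of_lt_of_le hm1 ht.1, lt_of_le_of_lt ht.2 hδm.2⟩
  have hq0 : q 0 = 0 := by
    have := hqx 0 (by simp)
    rwa [hc.xi1_zero] at this
  have hlip : ∀ s ∈ Set.Icc (xi1 c (-1)) (xi1 c 1), ∀ t ∈ Set.Icc (xi1 c (-1)) (xi1 c 1),
      |q s - q t| ≤ 2 * |s - t| := by
    intro s hs t ht
    obtain ⟨h1, h2⟩ := hsurj s hs
    obtain ⟨h3, h4⟩ := hsurj t ht
    rcases le_total (q s) (q t) with h | h
    · have := hexp _ h1 _ h3 h
      rw [h2, h4] at this
      rw [abs_of_nonpos (by linarith), abs_of_nonpos (by linarith)]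
      linarith
    · have := hexp _ h3 _ h1 h
      rw [h2, h4] at this
      rw [abs_of_nonneg (by linarith), abs_of_nonneg (by linarith)]
      linarith
  have hqc : ∀ t ∈ Set.Ioo (xi1 c (-1)) (xi1 c 1), ContinuousAt q t := by
    intro t ht
    have hnb : Set.Icc (xi1 c (-1)) (xi1 c 1) ∈ 𝓝 t := Icc_mem_nhds ht.1 ht.2
    rw [ContinuousAt, tendsto_iff_norm_sub_tendsto_zero]
    refine squeeze_zero' (Eventually.of_forall fun s => norm_nonneg _)
      (g := fun s => 2 * |s - t|) ?_ ?_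
    · filter_upwards [hnb] with s hs
      exact hlip s hs t ⟨ht.1.le, ht.2.le⟩
    · have : Continuous fun s : ℝ => 2 * |s - t| := by fun_prop
      have := this.tendsto t
      simpa using this
  have hqd : ∀ t ∈ Set.Ioo (xi1 c (-1)) (xi1 c 1), HasDerivAt q (xi2 c (q t))⁻¹ t := by
    intro t ht
    have h1 := (hsurj t ⟨ht.1.le, ht.2.le⟩).1
    refine HasDerivAt.of_local_left_inverse (hqc t ht) (hder _ h1) ?_ ?_
    · have := hd2 _ h1
      linarith
    · filter_upwards [Icc_mem_nhds ht.1 ht.2] with s hs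
      exact (hsurj s hs).2
  have hrange : ∀ t ∈ Set.Icc 0 (xi1 c δ), xi1 c (q t) = t ∧ 0 ≤ q t ∧ q t ≤ δ := by
    intro t ht
    have h1 := hint t ht
    obtain ⟨h2, h3⟩ := hsurj t ⟨h1.1.le, h1.2.le⟩
    refine ⟨h3, ?_, ?_⟩
    · by_contra hcon
      have := hsm h2 (by simp : (0:ℝ) ∈ Set.Icc (-1:ℝ) 1) (not_le.1 hcon)
      rw [h3, hc.xi1_zero] at this
      linarith [ht.1]
    · by_contra hcon
      have := hsm (⟨by linarith, by linarith⟩ : δ ∈ Set.Icc (-1:ℝ) 1) h2 (not_le.1 hcon)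
      rw [h3] at this
      linarith [ht.2]
  let q1 : ℝ → ℝ := fun t => (xi2 c (q t))⁻¹
  let q2 : ℝ → ℝ := fun t => -(xi3 c (q t)) * q1 t ^ 3
  let q3 : ℝ → ℝ := fun t => -(xi4 c (q t)) * q1 t ^ 4 + 3 * xi3 c (q t) ^ 2 * q1 t ^ 5
  refine ⟨q, q1, q2, q3, hq0, ?_, ?_, hrange, ?_, ?_, ?_⟩
  · have h1 : |xi3 c 0| ≤ 2 * κ * |(0:ℝ)| := xi3_bd hκ hc hc3 hcp (by simp)
    have h2 : xi3 c 0 = 0 := by
      rw [abs_zero, mul_zero] at h1
      exact abs_nonpos_iff.1 h1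
    simp only [q2]
    rw [hq0, h2]; ring
  · intro t ht
    have h0 := hqd t (hint t ht)
    obtain ⟨h1, h2, h3⟩ := hrange t ht
    have hab : |q t| ≤ 1 := by rw [abs_of_nonneg h2]; linarith
    have hab2 : |q t| < 2 := by linarith
    have hge : 1 ≤ xi2 c (q t) := by
      have := xi2_ge hc h2 (by linarith : q t ≤ 1)
      linarith
    have hne : xi2 c (q t) ≠ 0 := by linarith
    have hd1 : HasDerivAt q1 (q2 t) t := by
      have e1 := (xi2_deriv hc hab2).comp t h0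
      have e2 := e1.inv hne
      refine e2.congr_deriv ?_
      simp only [q2, q1, Function.comp]
      field_simp
    have hpos : 0 < q1 t := by simp only [q1]; positivity
    have hle : q1 t ≤ 1 := by simp only [q1]; exact inv_le_one_of_one_le₀ hge
    refine ⟨h0, hd1, ?_, hpos, hle, ?_⟩
    · have e1 := (xi3_deriv hc hab2).comp t h0
      have e2 := (e1.neg).mul (hd1.pow 3)
      refine e2.congr_deriv ?_
      have a0 : (xi2 c (q t))⁻¹ = q1 t := rfl
      have a1 : (q1 ^ 3) t = q1 t ^ 3 := rfl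
      have a2 : (-xi3 c ∘ q) t = -(xi3 c (q t)) := rfl
      rw [a0, a1, a2]
      simp only [q2, q3]
      push_cast
      ring
    · have b3 := xi3_bd hκ hc hc3 hcp hab
      have b4 := xi4_bd hκ hc hc3 hcp hab
      have b3' : |xi3 c (q t)| ≤ 2 * κ := b3.trans (by
        calc 2 * κ * |q t| ≤ 2 * κ * 1 := by gcongr
          _ = 2 * κ := by ring)
      have p4 : q1 t ^ 4 ≤ 1 := pow_le_one₀ hpos.le hle
      have p5 : q1 t ^ 5 ≤ 1 := pow_le_one₀ hpos.le hle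
      have p4' : 0 ≤ q1 t ^ 4 := by positivity
      have p5' : 0 ≤ q1 t ^ 5 := by positivity
      have s3 : xi3 c (q t) ^ 2 ≤ (2 * κ) ^ 2 := by
        rw [← sq_abs]
        gcongr
      calc |q3 t| ≤ |-(xi4 c (q t)) * q1 t ^ 4| + |3 * xi3 c (q t) ^ 2 * q1 t ^ 5| := abs_add_le _ _
        _ = |xi4 c (q t)| * q1 t ^ 4 + 3 * xi3 c (q t) ^ 2 * q1 t ^ 5 := by
            rw [abs_mul, abs_neg, abs_of_nonneg p4', abs_of_nonneg (a := 3 * _ * _) (by positivity)]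
        _ ≤ 2 * κ * 1 + 3 * (2 * κ) ^ 2 * 1 := by gcongr
        _ ≤ 14 * κ := by nlinarith
        _ ≤ κ0 := by linarith
  · intro x hx
    exact hqx x ⟨by linarith [hx.1], by linarith [hx.2]⟩
  · intro s hs t ht hst
    by_contra hcon
    push Not at hcon
    have h1 := hint t ht
    have h2 := hint s hs
    have h3 := hsm.monotoneOn (hsurj t ⟨h1.1.le, h1.2.le⟩).1 (hsurj s ⟨h2.1.le, h2.2.le⟩).1 hcon
    rw [(hsurj t ⟨h1.1.le, h1.2.le⟩).2, (hsurj s ⟨h2.1.le, h2.2.le⟩).2] at h3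
    linarith
  · intro t ht
    have h0 := hqd t (hint t ht)
    obtain ⟨h1, h2, h3⟩ := hrange t ht
    have hab2 : |q t| < 2 := by rw [abs_of_nonneg h2]; linarith
    have hge : 1 ≤ xi2 c (q t) := by
      have := xi2_ge hc h2 (by linarith : q t ≤ 1)
      linarith
    have e1 := (hc.th_deriv hab2).comp t h0
    refine e1.congr_deriv ?_
    field_simp

/-- crude bounds -/
theorem xi_bounds (κ : ℝ) (hκ : 0 < κ) (hκ1 : κ ≤ 1) (c : ℕ → ℝ) (hc : Adm c) (h2 : c 2 ≤ 1)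
    (h3 : c 3 = 0) (h : ∀ p, 4 ≤ p → c p ≤ κ / 8 ^ p) :
    (∀ x ∈ Set.Icc (0:ℝ) 1, 2 * c 2 * x ≤ xi1 c x ∧ xi1 c x ≤ 2 * c 2 * x + κ * x ^ 3) ∧
    (∀ x : ℝ, |x| ≤ 1 → xi c x ≤ c 2 * x ^ 2 + κ * x ^ 4) ∧ (∑' p, c p ≤ c 2 + κ) := by
  have key : ∀ p : ℕ, 4 ≤ p → c p * p ≤ κ / 2 / 2 ^ p := by
    intro p hp
    have h4 := pow4_le p hp
    have hp' : (4:ℝ) ≤ p := by exact_mod_cast hp
    have h5 : 2 * (p:ℝ) ≤ 4 ^ p := by
      have : 2 * (p:ℝ) ≤ (p:ℝ) ^ 4 := by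
        have h6 : (0:ℝ) ≤ p := by linarith
        have h7 : (2:ℝ) ≤ (p:ℝ) ^ 3 := by
          calc (2:ℝ) ≤ 4 ^ 3 := by norm_num
            _ ≤ (p:ℝ) ^ 3 := by gcongr
        calc 2 * (p:ℝ) ≤ (p:ℝ) ^ 3 * p := by gcongr
          _ = (p:ℝ) ^ 4 := by ring
      linarith
    have e : (8:ℝ) ^ p = 4 ^ p * 2 ^ p := by rw [← mul_pow]; norm_num
    calc c p * p ≤ (κ / 8 ^ p) * (4 ^ p / 2) := by
          gcongr
          · exact h p hp
          · linarith
      _ = κ / 2 / 2 ^ p := by rw [e]; field_simp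
  have key0 : ∀ p : ℕ, 4 ≤ p → c p ≤ κ / 2 / 2 ^ p := by
    intro p hp
    refine le_trans ?_ (key p hp)
    have : (1:ℝ) ≤ p := by exact_mod_cast (by omega : 1 ≤ p)
    have h0 := hc.nonneg p
    nlinarith
  have A1 : ∀ x : ℝ, |x| ≤ 1 → |xi1 c x - 2 * c 2 * x| ≤ κ * |x| ^ 3 := by
    intro x hx
    refine (tsum_near (fun p : ℕ => c p * (p * x ^ (p - 1))) _ _ fun p => ?_).2
    rcases lt_or_ge p 4 with h4 | h4
    · have hr : (0:ℝ) ≤ κ * |x| ^ 3 / 2 / 2 ^ p := by positivity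
      interval_cases p
      · simp [hc.c0]; positivity
      · simp [hc.c1]; positivity
      · have : c 2 * (((2:ℕ):ℝ) * x ^ (2 - 1)) - (if (2:ℕ) = 2 then 2 * c 2 * x else 0) = 0 := by
          simp; ring
        rw [this, abs_zero]; exact hr
      · simp [h3]; positivity
    · rw [if_neg (by omega), sub_zero, abs_mul, abs_mul, abs_pow, abs_of_nonneg (hc.nonneg p),
        Nat.abs_cast]
      have h5 : |x| ^ (p - 1) ≤ |x| ^ 3 := pow_le_pow_of_le_one (abs_nonneg _) hx (by omega)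
      have h6 := key p h4
      have h7 : 0 ≤ c p * p := mul_nonneg (hc.nonneg p) (Nat.cast_nonneg _)
      calc c p * (p * |x| ^ (p - 1)) = (c p * p) * |x| ^ (p - 1) := by ring
        _ ≤ (κ / 2 / 2 ^ p) * |x| ^ 3 := by gcongr
        _ = κ * |x| ^ 3 / 2 / 2 ^ p := by ring
  have A0 : ∀ x : ℝ, |x| ≤ 1 → |xi c x - c 2 * x ^ 2| ≤ κ * |x| ^ 4 := by
    intro x hx
    refine (tsum_near (fun p : ℕ => c p * x ^ p) _ _ fun p => ?_).2
    rcases lt_or_ge p 4 with h4 | h4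
    · have hr : (0:ℝ) ≤ κ * |x| ^ 4 / 2 / 2 ^ p := by positivity
      interval_cases p
      · simp [hc.c0]; positivity
      · simp [hc.c1]; positivity
      · have : c 2 * x ^ 2 - (if (2:ℕ) = 2 then c 2 * x ^ 2 else 0) = 0 := by
          simp
        rw [this, abs_zero]; exact hr
      · simp [h3]; positivity
    · rw [if_neg (by omega), sub_zero, abs_mul, abs_pow, abs_of_nonneg (hc.nonneg p)]
      have h5 : |x| ^ p ≤ |x| ^ 4 := pow_le_pow_of_le_one (abs_nonneg _) hx h4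
      have h6 := key0 p h4
      have h7 := hc.nonneg p
      calc c p * |x| ^ p ≤ (κ / 2 / 2 ^ p) * |x| ^ 4 := by gcongr
        _ = κ * |x| ^ 4 / 2 / 2 ^ p := by ring
  refine ⟨fun x hx => ⟨?_, ?_⟩, fun x hx => ?_, ?_⟩
  · -- lower bound: the term `p = 2`
    have hs : Summable fun p : ℕ => c p * (p * x ^ (p - 1)) := by
      have := summable_pow_of_abs_le (fun p => mul_nonneg (hc.nonneg p) (Nat.cast_nonneg p))
        hc.summable1 (by rw [abs_of_nonneg hx.1]; exact hx.2) (fun p => p - 1) (x := x)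
      exact this.congr fun p => by ring
    have := hs.le_tsum 2 (fun p _ => by
      have h3 := hc.nonneg p
      have h4 := hx.1
      positivity)
    refine le_trans (le_of_eq ?_) this
    simp
    ring
  · have := A1 x (by rw [abs_of_nonneg hx.1]; exact hx.2)
    rw [abs_of_nonneg hx.1] at this
    have := (abs_le.1 this).2
    linarith
  · have h5 := (abs_le.1 (A0 x hx)).2
    have h6 : |x| ^ 4 = x ^ 4 := by
      rw [← abs_pow, abs_of_nonneg (by positivity)]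
    rw [h6] at h5
    linarith
  · have h5 := (abs_le.1 (A0 1 (by simp))).2
    have h6 : xi c 1 = ∑' p, c p := by simp [xi]
    rw [h6] at h5
    simp at h5
    linarith

end Pool.Agent.OS
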