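import Pool.Agent.LibMP0f946f.LowerB
import Pool.Agent.LibMP0f946f.LowerC
import Pool.Agent.LibMP0f946f.NearCrit
import Pool.Agent.LibMP0f946f.Guerra
import Pool.Agent.LibMP0f946f.OSred
import Pool.Agent.LibMP0f946f.Qinv
import Pool.Agent.LibMP0f946f.Conv

/-! Assembly, part A: the limit law of one overlap. -/

set_option autoImplicit false
open MeasureTheory ProbabilityTheory Real Filter Topology
open Pool.Agent.LibOS96

namespace Pool.Agent.OS

theorem law_map {P : Measure (ℕ → ℕ → ℝ)} {ζ : Measure ℝ} (H : GGArray P ζ) :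
    P.map (fun R => R 0 1) = ζ := by
  have := H.prob
  have := H.probζ
  have hm : Measurable fun R : ℕ → ℕ → ℝ => R 0 1 := measurable_entry 0 1
  have := Measure.isProbabilityMeasure_map (μ := P) hm.aemeasurable
  refine Measure.ext fun B hB => ?_
  rw [Measure.map_apply hm hB]
  have h1 := H.law_one hB
  rw [Measure.real, Measure.real] at h1
  exact (ENNReal.toReal_eq_toReal_iff' (measure_ne_top _ _) (measure_ne_top _ _)).1 h1

theorem limit_law {c d : ℕ → ℝ} (h : Reg c d) {ζ : Measure ℝ} (hζ : IsProbabilityMeasure ζ)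
    (hs : ζ (Set.Icc (-1) 1)ᶜ = 0)
    (hm : ∀ p : ℕ, (p = 2 ∨ 4 ≤ p) → ∫ x, x ^ p ∂ζ = 1 - d p / Real.sqrt (c p)) :
    ∃ φ : ℕ → ℕ, Tendsto φ atTop atTop ∧ ∀ ψ : ℝ → ℝ, Continuous ψ →
      Tendsto (fun j => EG (cov c (φ j)) 2 (fun s => ψ (ov (s 0) (s 1)))) atTop
        (𝓝 (∫ x, ψ x ∂ζ)) := by
  have hw0 : ∀ j p : ℕ, (0:ℝ) ≤ (fun _ _ => (1:ℝ)) j p ∧ (fun _ _ => (1:ℝ)) j p ≤ 2 + p := by
    intro j p
    constructor
    · norm_num
    · have : (0:ℝ) ≤ p := Nat.cast_nonneg p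
      simp only
      linarith
  have hw1 : ∀ p : ℕ, Tendsto (fun j : ℕ => (fun _ _ => (1:ℝ)) j p) atTop (𝓝 1) :=
    fun p => tendsto_const_nhds
  have hN : Tendsto (fun j : ℕ => j + 1) atTop atTop := tendsto_add_atTop_nat 1
  have hcov : ∀ j : ℕ, cov (fun q => c q * (fun _ _ => (1:ℝ)) j q) (j + 1) = cov c (j + 1) := by
    intro j; simp
  obtain ⟨φ, P, ζ1, hφ, H, hm1, hlim⟩ := arr_limit (fun j => j + 1) (fun j => by omega)
    (fun j => cov c (j + 1)) (fun j => cov_psd h.adm _) (fun p => 1 - d p / Real.sqrt (c p))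
    (fun p hp => by
      have := reg_mom h (fun j => j + 1) hN (fun _ _ => 1) hw0 hw1 p hp
      simpa using this)
    (fun p hp n f hf => by
      have := reg_gg h (fun j => j + 1) hN (fun _ _ => 1) hw0 hw1 p hp n f hf
      simpa using this)
  have := H.probζ
  have hs1 : ζ1 (Set.Icc (-1) 1)ᶜ = 0 := by
    rw [measure_eq_zero_iff_ae_notMem]
    filter_upwards [ae_zeta H] with x hx
    simp only [Set.mem_compl_iff, Set.mem_Icc, not_not]
    exact ⟨by linarith [hx.1], hx.2⟩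
  have heq : ζ1 = ζ := law_unique ζ1 ζ hs1 hs fun p hp => by rw [hm1 p hp, hm p hp]
  refine ⟨fun j => φ j + 1, (tendsto_add_atTop_nat 1).comp hφ.tendsto_atTop, fun ψ hψ => ?_⟩
  have h1 := hlim 2 (fun r => ψ (r 0 1)) (by fun_prop)
  have h2 : ∫ R, ψ (R ((0 : Fin 2) : ℕ) ((1 : Fin 2) : ℕ)) ∂P = ∫ x, ψ x ∂ζ := by
    rw [← heq, ← law_map H, integral_map (measurable_entry 0 1).aemeasurable
      hψ.aestronglyMeasurable]
    rfl
  rw [h2] at h1
  exact h1

end Pool.Agent.OS
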