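import Pool.Agent.LibMP0f946f.FinalA

/-! Assembly, part B: atom at `0` and localisation of the limit law. -/

set_option autoImplicit false
open MeasureTheory ProbabilityTheory Real Filter Topology
open Pool.Agent.LibOS96

namespace Pool.Agent.OS

/-- bump function -/
noncomputable def bump (ε : ℝ) (x : ℝ) : ℝ := max 0 (min 1 (2 - |x| / ε))

theorem bump_cont (ε : ℝ) : Continuous (bump ε) := by unfold bump; fun_prop

theorem bump_nonneg (ε x : ℝ) : 0 ≤ bump ε x := le_max_left _ _

theorem bump_le (ε x : ℝ) : bump ε x ≤ 1 := max_le zero_le_one (min_le_left _ _)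

theorem atom_pos (hOS : FrozenOS) {c d : ℕ → ℝ} (h : Reg c d) {ζ : Measure ℝ}
    (hζ : IsProbabilityMeasure ζ)
    (hs : ζ (Set.Icc (-1) 1)ᶜ = 0)
    (hm : ∀ p : ℕ, (p = 2 ∨ 4 ≤ p) → ∫ x, x ^ p ∂ζ = 1 - d p / Real.sqrt (c p)) :
    ζ {0} ≠ 0 := by
  obtain ⟨φ, hφ, hlim⟩ := limit_law h hζ hs hm
  obtain ⟨a0, a1, h0, h1, hlow⟩ := os_lower hOS h.adm
  have key : ∀ ε : ℝ, 0 < ε → 3 / 4 * (a0 * a1 - ε) ≤ ∫ x, bump ε x ∂ζ := by
    intro ε hε
    obtain ⟨N0, hN0⟩ := hlow ε hε
    refine ge_of_tendsto (hlim (bump ε) (bump_cont ε)) ?_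
    filter_upwards [hφ.eventually_ge_atTop N0] with j hj
    refine (hN0 _ hj).trans ?_
    refine EG_mono _ _ fun s => ?_
    split_ifs with hlt
    · unfold bump
      refine le_max_of_le_right (le_min le_rfl ?_)
      have : |ov (s 0) (s 1)| / ε ≤ 1 := by
        rw [div_le_one hε]; exact hlt.le
      linarith
    · exact bump_nonneg _ _
  have hseq : Tendsto (fun n : ℕ => ∫ x, bump (1 / ((n:ℝ) + 1)) x ∂ζ) atTop
      (𝓝 (∫ x, Set.indicator {(0:ℝ)} (fun _ => (1:ℝ)) x ∂ζ)) := by
    refine tendsto_integral_of_dominated_convergence (fun _ => (1:ℝ))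
      (fun n => (bump_cont _).aestronglyMeasurable) (integrable_const _)
      (fun n => Filter.Eventually.of_forall fun x => ?_)
      (Filter.Eventually.of_forall fun x => ?_)
    · rw [Real.norm_eq_abs, abs_of_nonneg (bump_nonneg _ _)]; exact bump_le _ _
    · by_cases hx : x = 0
      · subst hx
        have : ∀ n : ℕ, bump (1 / ((n:ℝ) + 1)) 0 = 1 := by
          intro n
          unfold bump
          rw [abs_zero, zero_div, sub_zero, min_eq_left (by norm_num), max_eq_right zero_le_one]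
        simp only [this, Set.indicator_of_mem (Set.mem_singleton (0:ℝ))]
        exact tendsto_const_nhds
      · rw [Set.indicator_of_notMem (by simpa using hx)]
        refine tendsto_const_nhds.congr' ?_
        have hx' : 0 < |x| := abs_pos.2 hx
        obtain ⟨n0, hn0⟩ := exists_nat_gt (2 / |x|)
        filter_upwards [eventually_ge_atTop n0] with n hn
        unfold bump
        symm
        refine max_eq_left ((min_le_right _ _).trans ?_)
        have h2 : (n0 : ℝ) ≤ n := by exact_mod_cast hn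
        have h3 : 2 / |x| ≤ (n : ℝ) + 1 := by linarith
        rw [div_le_iff₀ hx'] at h3
        have h4 : |x| / (1 / ((n:ℝ) + 1)) = ((n:ℝ) + 1) * |x| := by
          field_simp
        rw [h4]; linarith
  have hlim2 : Tendsto (fun n : ℕ => 3 / 4 * (a0 * a1 - 1 / ((n:ℝ) + 1))) atTop
      (𝓝 (3 / 4 * (a0 * a1 - 0))) :=
    (tendsto_const_nhds.sub tendsto_one_div_add_atTop_nhds_zero_nat).const_mul _
  have hfin := le_of_tendsto_of_tendsto' hlim2 hseq fun n => key _ (by positivity)
  rw [integral_indicator (measurableSet_singleton _)] at hfin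
  simp only [integral_const, smul_eq_mul, mul_one, sub_zero] at hfin
  intro h00
  rw [measureReal_restrict_apply_univ, Measure.real, h00] at hfin
  simp only [ENNReal.toReal_zero] at hfin
  nlinarith [mul_pos h0 h1]

theorem local_law {c d : ℕ → ℝ} (h : Reg c d) {ζ : Measure ℝ} (hζ : IsProbabilityMeasure ζ)
    (hs : ζ (Set.Icc (-1) 1)ᶜ = 0)
    (hm : ∀ p : ℕ, (p = 2 ∨ 4 ≤ p) → ∫ x, x ^ p ∂ζ = 1 - d p / Real.sqrt (c p))
    (δ : ℝ)
    (hloc : Tendsto (fun N => EG (cov c N) 2 (fun s => if δ ≤ |ov (s 0) (s 1)| then 1 else 0))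
      atTop (𝓝 0)) : ∀ᵐ x ∂ζ, |x| ≤ δ := by
  obtain ⟨φ, hφ, hlim⟩ := limit_law h hζ hs hm
  set ψ : ℝ → ℝ := fun x => max 0 (min 1 (|x| - δ)) with hψ
  have hψc : Continuous ψ := by rw [hψ]; fun_prop
  have hψ0 : ∀ x, 0 ≤ ψ x := fun x => le_max_left _ _
  have h1 : Tendsto (fun j => EG (cov c (φ j)) 2 (fun s => ψ (ov (s 0) (s 1)))) atTop (𝓝 0) := by
    refine squeeze_zero (fun j => ?_) (fun j => ?_) (hloc.comp hφ)
    · have := EG_mono (cov c (φ j)) 2 (f := fun _ => (0:ℝ))
        (g := fun s => ψ (ov (s 0) (s 1))) (fun s => hψ0 _)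
      rwa [EG_const] at this
    · refine EG_mono _ _ fun s => ?_
      split_ifs with hle
      · exact max_le zero_le_one (min_le_left _ _)
      · push Not at hle
        refine max_le le_rfl ((min_le_right _ _).trans (by linarith))
  have h2 : ∫ x, ψ x ∂ζ = 0 := tendsto_nhds_unique (hlim ψ hψc) h1
  have hint : Integrable ψ ζ := by
    refine Integrable.mono' (integrable_const (1:ℝ)) hψc.aestronglyMeasurable
      (Filter.Eventually.of_forall fun x => ?_)
    rw [Real.norm_eq_abs, abs_of_nonneg (hψ0 x)]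
    exact max_le zero_le_one (min_le_left _ _)
  rw [integral_eq_zero_iff_of_nonneg hψ0 hint] at h2
  filter_upwards [h2] with x hx
  by_contra hgt
  push Not at hgt
  have : 0 < ψ x := by
    rw [hψ]
    exact lt_max_of_lt_right (lt_min zero_lt_one (by linarith))
  rw [hx] at this
  exact lt_irrefl _ this

end Pool.Agent.OS
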