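import Pool.Agent.LibMP0f946f.FinalB
import Pool.Agent.LibOS45.Sec8

/-! Assembly, part C: the data for section 8. -/

set_option autoImplicit false
open MeasureTheory ProbabilityTheory Real Filter Topology
open Pool.Agent.LibOS96 Pool.Agent.LibOS45

namespace Pool.Agent.OS

theorem abs_le_of_deriv {g g' B B' : ℝ → ℝ} {t : ℝ} (ht : 0 ≤ t)
    (hg : ∀ r ∈ Set.Icc 0 t, HasDerivAt g (g' r) r) (hB : ∀ r ∈ Set.Icc 0 t, HasDerivAt B (B' r) r)
    (h : ∀ r ∈ Set.Icc 0 t, |g' r| ≤ B' r) (g0 : g 0 = 0) (B0 : B 0 = 0) : |g t| ≤ B t := by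
  have h1 : MonotoneOn (fun r => B r - g r) (Set.Icc 0 t) := by
    refine monotoneOn_of_deriv_nonneg (convex_Icc 0 t)
      (fun r hr => ((hB r hr).sub (hg r hr)).continuousAt.continuousWithinAt)
      (fun r hr => ((hB r (interior_subset hr)).sub
        (hg r (interior_subset hr))).differentiableAt.differentiableWithinAt) fun r hr => ?_
    rw [((hB r (interior_subset hr)).fun_sub (hg r (interior_subset hr))).deriv]
    have := (abs_le.1 (h r (interior_subset hr))).2
    linarith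
  have h2 : MonotoneOn (fun r => B r + g r) (Set.Icc 0 t) := by
    refine monotoneOn_of_deriv_nonneg (convex_Icc 0 t)
      (fun r hr => ((hB r hr).add (hg r hr)).continuousAt.continuousWithinAt)
      (fun r hr => ((hB r (interior_subset hr)).add
        (hg r (interior_subset hr))).differentiableAt.differentiableWithinAt) fun r hr => ?_
    rw [((hB r (interior_subset hr)).fun_add (hg r (interior_subset hr))).deriv]
    have := (abs_le.1 (h r (interior_subset hr))).1
    linarith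
  have a1 := h1 ⟨le_rfl, ht⟩ ⟨ht, le_rfl⟩ ht
  have a2 := h2 ⟨le_rfl, ht⟩ ⟨ht, le_rfl⟩ ht
  simp only [g0, B0] at a1 a2
  rw [abs_le]
  constructor <;> linarith

/-- cubic Taylor estimate for the inverse function and the resulting estimate for its primitive -/
theorem Q_est {T κ : ℝ} {q q1 q2 q3 Q : ℝ → ℝ} (q0 : q 0 = 0) (q20 : q2 0 = 0)
    (h : ∀ t ∈ Set.Icc 0 T, HasDerivAt q (q1 t) t ∧ HasDerivAt q1 (q2 t) t ∧
        HasDerivAt q2 (q3 t) t ∧ 0 < q1 t ∧ q1 t ≤ 1 ∧ |q3 t| ≤ 6 * κ)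
    (hQ : ∀ t ∈ Set.Icc 0 T, HasDerivAt Q (q t) t) (s t : ℝ) (hs : 0 ≤ s) (hst : s ≤ t)
    (ht : t ≤ T) : |Q t - Q s - q1 0 / 2 * (t ^ 2 - s ^ 2)| ≤ κ * t ^ 3 * (t - s) := by
  have e1 : ∀ r ∈ Set.Icc 0 T, |q2 r| ≤ 6 * κ * r := by
    intro r hr
    exact abs_le_of_deriv (g' := q3) (B := fun r => 6 * κ * r) (B' := fun _ => 6 * κ) hr.1
      (fun u hu => (h u ⟨hu.1, hu.2.trans hr.2⟩).2.2.1)
      (fun u _ => by simpa using (hasDerivAt_id u).const_mul (6 * κ))
      (fun u hu => (h u ⟨hu.1, hu.2.trans hr.2⟩).2.2.2.2.2) q20 (by simp)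
  have e2 : ∀ r ∈ Set.Icc 0 T, |q1 r - q1 0| ≤ 3 * κ * r ^ 2 := by
    intro r hr
    exact abs_le_of_deriv (g := fun r => q1 r - q1 0) (g' := q2) (B := fun r => 3 * κ * r ^ 2)
      (B' := fun r => 6 * κ * r) hr.1
      (fun u hu => (h u ⟨hu.1, hu.2.trans hr.2⟩).2.1.sub_const _)
      (fun u _ => ((hasDerivAt_pow 2 u).const_mul (3 * κ)).congr_deriv (by norm_num; ring))
      (fun u hu => e1 u ⟨hu.1, hu.2.trans hr.2⟩) (by simp) (by simp)
  have e3 : ∀ r ∈ Set.Icc 0 T, |q r - q1 0 * r| ≤ κ * r ^ 3 := by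
    intro r hr
    exact abs_le_of_deriv (g := fun r => q r - q1 0 * r) (g' := fun r => q1 r - q1 0)
      (B := fun r => κ * r ^ 3) (B' := fun r => 3 * κ * r ^ 2) hr.1
      (fun u hu => ((h u ⟨hu.1, hu.2.trans hr.2⟩).1.fun_sub
        ((hasDerivAt_id' u).const_mul (q1 0))).congr_deriv (by ring))
      (fun u _ => ((hasDerivAt_pow 3 u).const_mul κ).congr_deriv (by norm_num; ring))
      (fun u hu => e2 u ⟨hu.1, hu.2.trans hr.2⟩) (by simp [q0]) (by simp)
  have hκ : 0 ≤ κ := by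
    have := (h 0 ⟨le_rfl, hs.trans (hst.trans ht)⟩).2.2.2.2.2
    have := (abs_nonneg _).trans this
    linarith
  have hmv := (convex_Icc s t).norm_image_sub_le_of_norm_hasDerivWithin_le
    (f := fun r => Q r - q1 0 / 2 * r ^ 2) (f' := fun r => q r - q1 0 * r) (C := κ * t ^ 3)
    (x := s) (y := t)
    (fun r hr => by
      have h1 := hQ r ⟨hs.trans hr.1, hr.2.trans ht⟩
      have h2 := (hasDerivAt_pow 2 r).const_mul (q1 0 / 2)
      exact ((h1.fun_sub h2).congr_deriv (by norm_num; ring)).hasDerivWithinAt)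
    (fun r hr => by
      rw [Real.norm_eq_abs]
      refine (e3 r ⟨hs.trans hr.1, hr.2.trans ht⟩).trans ?_
      have : r ^ 3 ≤ t ^ 3 := pow_le_pow_left₀ (hs.trans hr.1) hr.2 3
      exact mul_le_mul_of_nonneg_left this hκ)
    ⟨le_rfl, hst⟩ ⟨hst, le_rfl⟩
  rw [Real.norm_eq_abs, Real.norm_eq_abs, abs_of_nonneg (sub_nonneg.2 hst)] at hmv
  convert hmv using 2
  ring

theorem penT_eq (Q : ℝ → ℝ) (L : List (ℝ × ℝ)) (s : ℝ) : penT Q s L = penQ Q s L := by
  induction L generalizing s with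
  | nil => rfl
  | cons p L ih => simp only [penT, penQ, ih]

theorem timeOK_of (L : List (ℝ × ℝ)) (m0 : ℝ) (hm0 : m0 ≤ 1)
    (h1 : ∀ p ∈ L, m0 ≤ p.1 ∧ p.1 ≤ 1 ∧ 0 ≤ p.2)
    (h2 : L.Pairwise (fun p r => p.1 ≤ r.1)) : TimeOK m0 L := by
  induction L generalizing m0 with
  | nil => exact hm0
  | cons p L ih =>
    rw [List.pairwise_cons] at h2
    have hp := h1 p List.mem_cons_self
    refine ⟨hp.1, hp.2.2, ih p.1 hp.2.1 (fun r hr => ⟨h2.1 r hr, ?_⟩) h2.2⟩
    exact (h1 r (List.mem_cons_of_mem _ hr)).2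

/-- the partition lists -/
theorem qlist_range (q D : ℝ → ℝ) (k : ℕ) (t : ℕ → ℝ) (t0 : ℝ) (ht0 : t0 = t 0) :
    qlist q t0 ((List.range k).map fun j => (D (t (j + 1)), t (j + 1) - t j)) =
      (List.range k).map fun j => (D (t (j + 1)), q (t (j + 1))) := by
  induction k generalizing t t0 with
  | zero => rfl
  | succ k ih =>
    rw [List.range_succ_eq_map]
    simp only [List.map_cons, List.map_map, qlist]
    have h1 : t0 + (t (0 + 1) - t 0) = t 1 := by rw [ht0]; ring_nf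
    rw [h1]
    have h2 := ih (fun j => t (j + 1)) (t 1) rfl
    simp only [Function.comp_def]
    congr 1

theorem sum_range (D : ℝ → ℝ) (k : ℕ) (t : ℕ → ℝ) :
    (((List.range k).map fun j => (D (t (j + 1)), t (j + 1) - t j)).map Prod.snd).sum =
      t k - t 0 := by
  induction k with
  | zero => simp
  | succ k ih =>
    rw [List.range_succ, List.map_append, List.map_append, List.sum_append, ih]
    simp

theorem gaps_range (q : ℝ → ℝ) (μ : ℝ) (k : ℕ) (t : ℕ → ℝ) (s0 : ℝ) (h0 : s0 = q (t 0))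
    (h : ∀ j < k, q (t j) ≤ q (t (j + 1)) ∧ q (t (j + 1)) ≤ q (t j) + μ) :
    Gaps μ s0 ((List.range k).map fun j => q (t (j + 1))) := by
  induction k generalizing t s0 with
  | zero => exact trivial
  | succ k ih =>
    rw [List.range_succ_eq_map]
    simp only [List.map_cons, List.map_map, Gaps]
    have h1 := h 0 (by omega)
    rw [h0]
    refine ⟨h1.1, h1.2, ?_⟩
    exact ih (fun j => t (j + 1)) _ rfl fun j hj => h (j + 1) (by omega)

theorem xi_scale (c : ℕ → ℝ) (l x : ℝ) : xi (fun p => l * c p) x = l * xi c x := by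
  unfold xi
  rw [← tsum_mul_left]
  exact tsum_congr fun p => by ring

theorem adm_scale {c : ℕ → ℝ} (hc : Adm c) {l : ℝ} (hl : 0 ≤ l) : Adm (fun p => l * c p) where
  nonneg p := mul_nonneg hl (hc.nonneg p)
  sum := by
    have := hc.sum.mul_left l
    refine this.congr fun p => by ring
  c0 := by simp [hc.c0]
  c1 := by simp [hc.c1]

/-- near-critical lower bound for the free energy -/
theorem near_lower {c : ℕ → ℝ} (hc : Adm c) (hconv : ConvexOn ℝ (Set.Icc (-1) 1) (xi c)) (F : ℝ)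
    (hF : Tendsto (FN c) atTop (𝓝 F)) (τ : ℝ) (hτ : 0 < τ) (hsum : 2 * ∑' p, c p < 1 + τ)
    (hx : xi c 1 ≤ 1) : 2 * Real.log 2 + xi c 1 - τ ≤ 2 * F := by
  set l : ℝ := 1 / (1 + τ) with hl
  have hl0 : 0 < l := by positivity
  have hl1 : l ≤ 1 := by rw [hl, div_le_one (by positivity)]; linarith
  have hA := adm_scale hc hl0.le
  have hcv : ConvexOn ℝ (Set.Icc (-1) 1) (xi fun p => l * c p) := by
    have : (xi fun p => l * c p) = fun x => l • xi c x := by
      funext x; rw [xi_scale, smul_eq_mul]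
    rw [this]
    exact hconv.smul hl0.le
  obtain ⟨F', hF'⟩ := FN_tendsto hA hcv
  have h1 : F' ≤ F := by
    refine le_of_tendsto_of_tendsto' hF' hF fun N => FN_mono hA hc (fun p => ?_) N
    have := mul_le_mul_of_nonneg_right hl1 (hc.nonneg p)
    simpa using this
  have h2 : Real.log 2 + xi (fun p => l * c p) 1 / 2 ≤ F' := by
    refine sub_crit hA ?_ F' hF'
    rw [tsum_mul_left, hl]
    have : 2 * (1 / (1 + τ) * ∑' p, c p) = (2 * ∑' p, c p) / (1 + τ) := by ring
    rw [this, div_lt_one (by positivity)]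
    exact hsum
  rw [xi_scale] at h2
  have h0 : 0 ≤ xi c 1 := by
    unfold xi; exact tsum_nonneg fun p => mul_nonneg (hc.nonneg p) (by positivity)
  have h3 : (1 - l) * xi c 1 ≤ τ := by
    have h4 : 1 - l ≤ τ := by
      rw [hl]
      have : 1 - 1 / (1 + τ) = τ / (1 + τ) := by field_simp; ring
      rw [this, div_le_iff₀ (by positivity)]
      nlinarith
    calc (1 - l) * xi c 1 ≤ τ * 1 :=
          mul_le_mul h4 hx h0 hτ.le
      _ = τ := mul_one τ
  nlinarith

end Pool.Agent.OS
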