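import Pool.Agent.LibMP0f946f.FinalC

/-! Assembly, part D: the contradiction. -/

set_option autoImplicit false
open MeasureTheory ProbabilityTheory Real Filter Topology
open Pool.Agent.LibOS96 Pool.Agent.LibOS45

namespace Pool.Agent.OS

/-- `ζ = δ_0` is impossible above criticality -/
theorem not_dirac {c d : ℕ → ℝ} (h : Reg c d) (h2 : 1 / 2 < c 2) (F : ℝ)
    (hF : Tendsto (FN c) atTop (𝓝 F))
    {P : Measure (ℕ → ℕ → ℝ)} {ζ : Measure ℝ} (H : GGArray P ζ)
    (hlow : ∀ n : ℕ, 1 ≤ n →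
        (∫ R, Gn c n (fun i k => R i k) ∂P) - (th c 1 - ∫ x, th c x ∂ζ) / 2 ≤ F) :
    ζ {0} ≠ 1 := by
  intro h1
  have := H.probζ
  have hc := h.adm
  obtain ⟨L, hL, hLlt⟩ := rs_bound hc h2
  have hFlt : F < Real.log 2 + xi c 1 / 2 := by
    refine lt_of_le_of_lt (le_of_tendsto hF ?_) hLlt
    filter_upwards [eventually_ge_atTop 1] with N hN
    exact guerra_bound hc h.conv L hL N hN
  have hμ : ∀ μ : ℝ, 0 < μ → μ ≤ 1 →
      Real.log 2 + xi c 1 / 2 ≤ F + 2 * xi2 c 1 * μ := by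
    intro μ hμ hμ1
    have hI : ζ.real (Set.Iio μ) = 1 := by
      refine le_antisymm measureReal_le_one ?_
      have h3 : ζ.real {0} ≤ ζ.real (Set.Iio μ) :=
        measureReal_mono (Set.singleton_subset_iff.2 hμ)
      rw [Measure.real, h1, ENNReal.toReal_one] at h3
      exact h3
    have h4 := lower_bound h F hF H hlow μ [μ] ⟨hμ.le, by linarith, trivial⟩
      (by simpa using ⟨hμ, hμ1⟩) ⟨μ, by simp, hI, by simp⟩
    have h5 : Par c (([μ] : List ℝ).map (fun s => (ζ.real (Set.Iio s), s)) ++ [(1, 1)]) =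
        Real.log 2 + xi c 1 / 2 := by
      have h6 : ([μ] : List ℝ).map (fun s => (ζ.real (Set.Iio s), s)) ++ [((1:ℝ), (1:ℝ))] =
          [(1, μ), (1, 1)] := by simp [hI]
      rw [h6]
      have hp0 : 0 ≤ xi1 c μ := by
        have := hc.xi1_mono le_rfl hμ.le hμ1
        rwa [hc.xi1_zero] at this
      have hp1 : 0 ≤ xi1 c 1 - xi1 c μ := sub_nonneg.2 (hc.xi1_mono hμ.le hμ1 le_rfl)
      unfold Par
      simp only [incs, tn, pen]
      rw [hc.xi1_zero, hc.th_zero, sub_zero]
      have e1 : T 1 (Real.sqrt (xi1 c 1 - xi1 c μ)) (fun y => Real.log (2 * Real.cosh y)) =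
          fun y => Real.log (2 * Real.cosh y) + (xi1 c 1 - xi1 c μ) / 2 :=
        funext fun y => T_one_log_cosh _ hp1 y
      rw [e1]
      have hlip : ∀ x y : ℝ, |Real.log (2 * Real.cosh x) - Real.log (2 * Real.cosh y)| ≤
          1 * ‖x - y‖ := by
        intro x y
        have := lc_lip x y
        unfold lc at this
        rw [Real.log_mul two_ne_zero (Real.cosh_pos x).ne',
          Real.log_mul two_ne_zero (Real.cosh_pos y).ne']
        simpa using this
      rw [T_add_const (cont_of_lip hlip) ⟨1, hlip⟩, T_one_log_cosh _ hp0]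
      unfold th
      rw [Real.cosh_zero]
      ring_nf
    rw [h5] at h4
    exact h4
  have h0 : 0 ≤ xi2 c 1 := (abs_nonneg _).trans (hc.xi2_abs (x := 1) (by norm_num))
  have hlim : Tendsto (fun n : ℕ => F + 2 * xi2 c 1 * (1 / ((n:ℝ) + 1))) atTop
      (𝓝 (F + 2 * xi2 c 1 * 0)) :=
    tendsto_const_nhds.add (tendsto_one_div_add_atTop_nhds_zero_nat.const_mul _)
  have := ge_of_tendsto' hlim fun n => hμ (1 / ((n:ℝ) + 1)) (by positivity)
    (by rw [div_le_one (by positivity)]; have : (0:ℝ) ≤ n := Nat.cast_nonneg n; linarith)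
  linarith

end Pool.Agent.OS
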