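import Pool.Agent.LibMP0f946f.FinalD

/-! Assembly, part E: the contradiction. -/

set_option autoImplicit false
open MeasureTheory ProbabilityTheory Real Filter Topology
open Pool.Agent.LibOS96 Pool.Agent.LibOS45

namespace Pool.Agent.OS

/-- the time-changed law of the overlap -/
noncomputable def tlaw (c : ℕ → ℝ) (ζ : Measure ℝ) : Measure ℝ :=
  ζ.map (fun x => xi1 c (clp x))

theorem tlaw_real {c : ℕ → ℝ} (hc : Adm c) {ζ : Measure ℝ} [IsProbabilityMeasure ζ]
    {δ : ℝ} {q : ℝ → ℝ} (hq : QData c δ q) (hδ : δ ≤ 1) (hae : ∀ᵐ x ∂ζ, 0 ≤ x ∧ x ≤ δ)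
    (t : ℝ) (ht0 : 0 ≤ t) (ht : t ≤ xi1 c δ) :
    (tlaw c ζ).real (Set.Ico 0 t) = ζ.real (Set.Iio (q t)) := by
  unfold tlaw
  rw [map_measureReal_apply (xi1_clp_cont hc).measurable measurableSet_Ico]
  refine measureReal_congr ?_
  filter_upwards [hae] with x hx
  have hx1 : |x| ≤ 1 := by rw [abs_of_nonneg hx.1]; linarith [hx.2]
  have hδ0 : 0 ≤ δ := hx.1.trans hx.2
  have e0 : 0 ≤ xi1 c x := by
    have := hc.xi1_mono le_rfl hx.1 (hx.2.trans hδ)
    rwa [hc.xi1_zero] at this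
  have e1 : xi1 c x ≤ xi1 c δ := hc.xi1_mono hx.1 hx.2 hδ
  have e2 : q (xi1 c x) = x := hq.inv' x ⟨hx.1, hx.2⟩
  apply propext
  show xi1 c (clp x) ∈ Set.Ico 0 t ↔ x ∈ Set.Iio (q t)
  rw [clp_eq hx1, Set.mem_Ico, Set.mem_Iio]
  constructor
  · rintro ⟨_, h2⟩
    rw [← e2]
    exact hq.mono ⟨e0, e1⟩ ⟨ht0, ht⟩ h2
  · intro h2
    refine ⟨e0, ?_⟩
    rw [← e2] at h2
    exact (hq.mono.lt_iff_lt ⟨e0, e1⟩ ⟨ht0, ht⟩).1 h2

theorem aux_low {a x : ℝ} (ha : 1 / 2 < a) (hx : 0 ≤ x) : x ≤ 2 * a * x := by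
  nlinarith

theorem aux_up {a x : ℝ} (ha : a ≤ 1) (hx : 0 ≤ x) : 2 * a * x ≤ 2 * x := by
  nlinarith

theorem aux_cube {x : ℝ} (h0 : 0 ≤ x) (h1 : x ≤ 1) : x ^ 3 ≤ x :=
  pow_le_of_le_one h0 h1 (by norm_num)

theorem aux_kcube {κ x : ℝ} (hκ1 : κ ≤ 1) (h0 : 0 ≤ x) (h1 : x ≤ 1) :
    κ * x ^ 3 ≤ x :=
  (mul_le_mul hκ1 (aux_cube h0 h1) (by positivity) zero_le_one).trans (by rw [one_mul])

theorem final (hOS : FrozenOS) : False := by
  obtain ⟨T0, hT0, thc, hthc, hsec⟩ := sec8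
  obtain ⟨κq, hκq, hqex⟩ := exists_q (6 * thc) (by positivity)
  obtain ⟨δ, hδdef⟩ : ∃ δ, δ = min (T0 / 4) (1 / 2) := ⟨_, rfl⟩
  have hδ0 : 0 < δ := by rw [hδdef]; exact lt_min (by positivity) (by norm_num)
  have hδT : 4 * δ ≤ T0 := by
    have := min_le_left (T0 / 4) (1 / 2); rw [← hδdef] at this; linarith
  have hδh : δ ≤ 1 / 2 := by rw [hδdef]; exact min_le_right _ _
  obtain ⟨δ1, hδ1def⟩ : ∃ δ1, δ1 = δ / 8 := ⟨_, rfl⟩
  have hδ10 : 0 < δ1 := by rw [hδ1def]; positivity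
  have hδ1s : δ1 ≤ 1 / 16 := by rw [hδ1def]; linarith
  obtain ⟨η, hηdef⟩ : ∃ η, η = δ1 ^ 4 / 200 := ⟨_, rfl⟩
  have hη0 : 0 < η := by rw [hηdef]; positivity
  have hδ14 : δ1 ^ 4 ≤ 1 / 16 := by
    have := pow_le_pow_left₀ hδ10.le hδ1s 4
    refine this.trans (by norm_num)
  have hηs : η ≤ 1 / 3200 := by rw [hηdef]; linarith
  obtain ⟨κ, hκdef⟩ : ∃ κ, κ = min κq η := ⟨_, rfl⟩
  have hκ0 : 0 < κ := by rw [hκdef]; exact lt_min hκq hη0
  have hκq' : κ ≤ κq := by rw [hκdef]; exact min_le_left _ _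
  have hκη : κ ≤ η := by rw [hκdef]; exact min_le_right _ _
  obtain ⟨c, d, hreg, hc2, hc2', hc4⟩ := exists_reg η κ hη0 (by linarith) hκ0
  have hc := hreg.adm
  obtain ⟨F, hF⟩ := FN_tendsto hc hreg.conv
  obtain ⟨hb1, hb2, hb3⟩ := xi_bounds κ hκ0 (by linarith) c hc (by linarith) hreg.c3 hc4
  obtain ⟨q, q1, q2, q3, q0, q20, hder, hinv, hinv', hmono, hQd⟩ :=
    hqex c hc hc2.le (by linarith) hreg.c3
      (fun p hp => (hc4 p hp).trans (by gcongr)) δ hδ0 hδh
  have hqd : QData c δ q := ⟨q0, hinv, hinv', hmono⟩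
  -- the time horizon
  obtain ⟨T, hT⟩ : ∃ T, T = xi1 c δ := ⟨_, rfl⟩
  have hxδ := hb1 δ ⟨hδ0.le, by linarith⟩
  have hTlow : δ ≤ T := by rw [hT]; exact (aux_low hc2 hδ0.le).trans hxδ.1
  have hκ1 : κ ≤ 1 := by linarith
  have hc21 : c 2 ≤ 1 := by linarith
  have hTup : T ≤ T0 := by
    rw [hT]
    have h1 : 2 * c 2 * δ ≤ 2 * δ := aux_up hc21 hδ0.le
    have h2 : κ * δ ^ 3 ≤ δ := aux_kcube hκ1 hδ0.le (by linarith)
    linarith [hxδ.2]
  have hT0' : 0 < T := by linarith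
  -- the limit law
  obtain ⟨P, ζ, H, hmom, hlow⟩ := cavity_lower hreg F hF
  have hζ := H.probζ
  have hP := H.prob
  have hsupp : ζ (Set.Icc (-1) 1)ᶜ = 0 := by
    rw [measure_eq_zero_iff_ae_notMem]
    filter_upwards [ae_zeta H] with x hx
    simp only [Set.mem_compl_iff, Set.mem_Icc, not_not]
    exact ⟨by linarith [hx.1], hx.2⟩
  have hatom := atom_pos hOS hreg hζ hsupp hmom
  have hnot := not_dirac hreg hc2 F hF H hlow
  -- localisation
  have hx1 : xi c 1 ≤ 1 := by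
    have := hb2 1 (by norm_num)
    norm_num at this
    linarith
  have hFlow := near_lower hc hreg.conv F hF (5 * η) (by positivity)
    (by have := hb3; linarith) hx1
  have hloc := localise hc F hF δ1 (δ1 ^ 4 / 39) hδ10 (fun u hu hu1 => by
    have h1 := hb2 u hu1
    have hu0 : 0 ≤ u ^ 2 := sq_nonneg u
    have hu2 : δ1 ^ 2 ≤ u ^ 2 := by
      rw [← sq_abs u]; exact pow_le_pow_left₀ hδ10.le hu 2
    have hu4 : u ^ 4 = u ^ 2 * u ^ 2 := by ring
    have h44 : δ1 ^ 4 = δ1 ^ 2 * δ1 ^ 2 := by ring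
    have h5 : δ1 ^ 4 ≤ u ^ 4 := by rw [hu4, h44]; exact mul_le_mul hu2 hu2 (by positivity) hu0
    have hu21 : u ^ 2 ≤ 1 := by rw [← sq_abs]; exact pow_le_one₀ (abs_nonneg u) hu1
    have h6 : η * u ^ 2 ≤ u ^ 4 / 200 := by
      rw [hηdef]
      have : δ1 ^ 4 * u ^ 2 ≤ u ^ 4 * 1 := mul_le_mul h5 hu21 hu0 (by positivity)
      linarith
    have h7 : κ * u ^ 4 ≤ u ^ 4 / 3200 := by
      have : κ ≤ 1 / 3200 := hκη.trans hηs
      have h9 := mul_le_mul_of_nonneg_right this (show 0 ≤ u ^ 4 by positivity)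
      linarith
    have h8 : c 2 * u ^ 2 ≤ u ^ 2 / 2 + η * u ^ 2 := by
      have h9 := mul_le_mul_of_nonneg_right hc2'.le hu0
      linarith
    linarith) (by rw [hηdef] at hFlow; linarith [show 0 < δ1 ^ 4 by positivity])
  have hae1 := local_law hreg hζ hsupp hmom δ1 hloc
  have hae : ∀ᵐ x ∂ζ, 0 ≤ x ∧ x ≤ δ1 := by
    filter_upwards [hae1, ae_zeta H] with x hx hx'
    exact ⟨hx'.1, (le_abs_self x).trans hx⟩
  have hδ1δ : δ1 ≤ δ := by rw [hδ1def]; linarith
  have haeδ : ∀ᵐ x ∂ζ, 0 ≤ x ∧ x ≤ δ := by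
    filter_upwards [hae] with x hx
    exact ⟨hx.1, hx.2.trans hδ1δ⟩
  -- the time-changed law
  have hmeas : Measurable (fun x => xi1 c (clp x)) := (xi1_clp_cont hc).measurable
  have hzp : IsProbabilityMeasure (tlaw c ζ) :=
    Measure.isProbabilityMeasure_map hmeas.aemeasurable
  have hz0 : (tlaw c ζ) {0} = ζ {0} := by
    unfold tlaw
    rw [Measure.map_apply hmeas (measurableSet_singleton _)]
    refine measure_congr ?_
    filter_upwards [hae] with x hx
    apply propext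
    show xi1 c (clp x) ∈ ({0} : Set ℝ) ↔ x ∈ ({0} : Set ℝ)
    have hx1 : |x| ≤ 1 := by rw [abs_of_nonneg hx.1]; linarith [hx.2]
    rw [clp_eq hx1, Set.mem_singleton_iff, Set.mem_singleton_iff]
    have h1 := (hb1 x ⟨hx.1, by linarith [hx.2]⟩).1
    constructor
    · intro h0
      rw [h0] at h1
      have h2 := aux_low hc2 hx.1
      linarith [hx.1]
    · intro h0
      rw [h0, hc.xi1_zero]
  have hzs : (tlaw c ζ) (Set.Icc 0 (T / 2))ᶜ = 0 := by
    unfold tlaw
    rw [Measure.map_apply hmeas measurableSet_Icc.compl, measure_eq_zero_iff_ae_notMem]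
    filter_upwards [hae] with x hx
    have hx1 : |x| ≤ 1 := by rw [abs_of_nonneg hx.1]; linarith [hx.2]
    simp only [Set.mem_preimage, Set.mem_compl_iff, not_not, Set.mem_Icc]
    rw [clp_eq hx1]
    have h1 := hb1 x ⟨hx.1, by linarith [hx.2]⟩
    constructor
    · exact (hx.1.trans (aux_low hc2 hx.1)).trans h1.1
    · have h3 : κ * x ^ 3 ≤ x := aux_kcube hκ1 hx.1 (by linarith [hx.2])
      have h4 : 2 * c 2 * x ≤ 2 * x := aux_up hc21 hx.1
      have h5 : xi1 c x ≤ 3 * x := by linarith [h1.2]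
      have h6 : 3 * x ≤ 3 * δ1 := by linarith [hx.2]
      rw [hδ1def] at h6
      linarith
  -- constants
  obtain ⟨K0, hK0⟩ : ∃ K0, K0 = Real.log 2 + (xi1 c 1 - xi1 c δ) / 2 - (th c 1 - th c δ) / 2 :=
    ⟨_, rfl⟩
  have hPar : ∀ L : List (ℝ × ℝ), TimeOK 0 L → (L.map Prod.snd).sum = T →
      Par c (qlist q 0 L ++ [(1, 1)]) = PfQ (fun t => th c (q t)) L + K0 := by
    intro L hL hsum
    rw [Par_eq hc hδ0.le (by linarith) hqd L hL (by rw [hsum, hT]), hK0, penT_eq, PfQ]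
    ring
  have hxi2 : 0 ≤ xi2 c 1 := (abs_nonneg _).trans (hc.xi2_abs (x := 1) (by norm_num))
  refine hsec T hT0' hTup (fun t => th c (q t)) (q1 0)
    (hder 0 ⟨le_rfl, by rw [← hT]; exact hT0'.le⟩).2.2.2.1.le
    (hder 0 ⟨le_rfl, by rw [← hT]; exact hT0'.le⟩).2.2.2.2.1
    (fun s t hs hst ht => Q_est q0 q20 (by rwa [hT]) (by rwa [hT]) s t hs hst ht)
    (tlaw c ζ) (by rwa [hz0]) (by rwa [hz0]) hzs (F - K0) ?_ ?_
  · intro L hL1 hL2 hsum
    have hL : TimeOK 0 L := timeOK_of L 0 zero_le_one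
      (fun p hp => ⟨(hL1 p hp).1.le, (hL1 p hp).2.1, (hL1 p hp).2.2.le⟩) hL2
    have hstep : StepOK 0 0 (qlist q 0 L ++ [(1, 1)]) := by
      have := stepOK_qlist hqd (by linarith) L 0 0 hL le_rfl (by rw [zero_add, hsum, hT])
      rwa [q0] at this
    have h1 : F ≤ Par c (qlist q 0 L ++ [(1, 1)]) := by
      refine le_of_tendsto hF ?_
      filter_upwards [eventually_ge_atTop 1] with N hN
      exact guerra_bound hc hreg.conv _ hstep N hN
    rw [hPar L hL hsum] at h1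
    linarith
  · intro ε hε
    refine ⟨ε / (2 * xi2 c 1 + 1), by positivity, ?_⟩
    intro k t ht0 htk ht
    have hmon : ∀ j, j ≤ k → 0 ≤ t j ∧ ∀ i, i ≤ j → t i ≤ t j := by
      intro j
      induction j with
      | zero =>
        intro _
        exact ⟨ht0.ge, fun i hi => by rw [Nat.le_zero.1 hi]⟩
      | succ j ih =>
        intro hj
        obtain ⟨i1, i2⟩ := ih (by omega)
        have h3 := (ht j (by omega)).1
        refine ⟨by linarith, fun i hi => ?_⟩
        rcases Nat.lt_or_ge i (j + 1) with h4 | h4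
        · exact (i2 i (by omega)).trans h3.le
        · rw [le_antisymm hi h4]
    have htT : ∀ j, j ≤ k → t j ∈ Set.Icc 0 (xi1 c δ) := by
      intro j hj
      refine ⟨(hmon j hj).1, ?_⟩
      have := (hmon k le_rfl).2 j hj
      rw [htk, hT] at this
      exact this
    have hk : 0 < k := by
      rcases Nat.eq_zero_or_pos k with h0 | h0
      · subst h0; rw [ht0] at htk; linarith
      · exact h0
    -- values
    have hD : ∀ j < k, (tlaw c ζ).real (Set.Ico 0 (t (j + 1))) = ζ.real (Set.Iio (q (t (j + 1)))) :=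
      fun j hj => tlaw_real hc hqd (by linarith) haeδ _ (htT (j + 1) (by omega)).1
        (htT (j + 1) (by omega)).2
    have hlist : ((List.range k).map fun j =>
        ((tlaw c ζ).real (Set.Ico 0 (t (j + 1))), t (j + 1) - t j)) =
        (List.range k).map fun j => (ζ.real (Set.Iio (q (t (j + 1)))), t (j + 1) - t j) := by
      refine List.map_congr_left fun j hj => ?_
      rw [hD j (List.mem_range.1 hj)]
    rw [hlist]
    obtain ⟨μ, hμ⟩ : ∃ μ, μ = ε / (2 * xi2 c 1 + 1) := ⟨_, rfl⟩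
    rw [← hμ] at ht
    -- increments of q
    have hqinc : ∀ j < k, q (t j) ≤ q (t (j + 1)) ∧ q (t (j + 1)) ≤ q (t j) + μ := by
      intro j hj
      have ha := htT j (by omega)
      have hb := htT (j + 1) (by omega)
      have hlt := (ht j hj).1
      refine ⟨hmono.monotoneOn ha hb hlt.le, ?_⟩
      have hmv := (convex_Icc (t j) (t (j + 1))).norm_image_sub_le_of_norm_hasDerivWithin_le
        (f := q) (f' := q1) (C := 1) (x := t j) (y := t (j + 1))
        (fun r hr => (hder r ⟨ha.1.trans hr.1, hr.2.trans hb.2⟩).1.hasDerivWithinAt)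
        (fun r hr => by
          have := hder r ⟨ha.1.trans hr.1, hr.2.trans hb.2⟩
          rw [Real.norm_eq_abs, abs_of_pos this.2.2.2.1]
          exact this.2.2.2.2.1)
        ⟨le_rfl, hlt.le⟩ ⟨hlt.le, le_rfl⟩
      rw [Real.norm_eq_abs, Real.norm_eq_abs, one_mul, abs_of_pos (sub_pos.2 hlt)] at hmv
      have := (abs_le.1 hmv).2
      have h5 := (ht j hj).2
      linarith
    have hgaps : Gaps μ 0 ((List.range k).map fun j => q (t (j + 1))) :=
      gaps_range q μ k t 0 (by rw [ht0, q0]) hqinc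
    have hqpos : ∀ s ∈ (List.range k).map (fun j => q (t (j + 1))), 0 < s ∧ s ≤ 1 := by
      intro s hs
      obtain ⟨j, hj, rfl⟩ := List.mem_map.1 hs
      have hj' := List.mem_range.1 hj
      have hb := htT (j + 1) (by omega)
      have h0 : (0:ℝ) ∈ Set.Icc 0 (xi1 c δ) := ⟨le_rfl, hb.1.trans hb.2⟩
      have hpos : 0 < t (j + 1) := lt_of_le_of_lt (htT j (by omega)).1 (ht j hj').1
      refine ⟨?_, (hinv _ hb).2.2.trans (by linarith)⟩
      have := hmono h0 hb hpos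
      rwa [q0] at this
    have hlast : ∃ s ∈ (List.range k).map (fun j => q (t (j + 1))),
        ζ.real (Set.Iio s) = 1 ∧ ∀ s' ∈ (List.range k).map (fun j => q (t (j + 1))), s' ≤ s := by
      refine ⟨q (t k), List.mem_map.2 ⟨k - 1, List.mem_range.2 (by omega), ?_⟩, ?_, ?_⟩
      · rw [Nat.sub_add_cancel hk]
      · rw [htk, hT, hinv' δ ⟨hδ0.le, le_rfl⟩]
        have h1 : ζ.real (Set.Iio δ)ᶜ = 0 := by
          rw [measureReal_eq_zero_iff, measure_eq_zero_iff_ae_notMem]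
          filter_upwards [hae] with x hx
          simp only [Set.mem_compl_iff, Set.mem_Iio, not_not]
          refine lt_of_le_of_lt hx.2 ?_
          rw [hδ1def]; linarith
        have h2 := probReal_compl_eq_one_sub (μ := ζ) (measurableSet_Iio (a := δ))
        rw [h1] at h2
        linarith
      · intro s hs
        obtain ⟨j, hj, rfl⟩ := List.mem_map.1 hs
        have hj' := List.mem_range.1 hj
        exact hmono.monotoneOn (htT (j + 1) (by omega)) (htT k le_rfl)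
          ((hmon k le_rfl).2 (j + 1) (by omega))
    have h1 := lower_bound hreg F hF H hlow μ _ hgaps hqpos hlast
    rw [List.map_map] at h1
    have h2 := qlist_range q (fun s => ζ.real (Set.Iio (q s))) k t 0 ht0.symm
    have h3 : ((List.range k).map ((fun s => (ζ.real (Set.Iio s), s)) ∘ fun j => q (t (j + 1)))) =
        qlist q 0 ((List.range k).map fun j =>
          (ζ.real (Set.Iio (q (t (j + 1)))), t (j + 1) - t j)) := by
      rw [h2]; rfl
    rw [h3] at h1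
    have hsum : (((List.range k).map fun j =>
        (ζ.real (Set.Iio (q (t (j + 1)))), t (j + 1) - t j)).map Prod.snd).sum = T := by
      have := sum_range (fun s => ζ.real (Set.Iio (q s))) k t
      rw [this, htk, ht0, sub_zero]
    have hTO : TimeOK 0 ((List.range k).map fun j =>
        (ζ.real (Set.Iio (q (t (j + 1)))), t (j + 1) - t j)) := by
      refine timeOK_of _ 0 zero_le_one (fun p hp => ?_) ?_
      · obtain ⟨j, hj, rfl⟩ := List.mem_map.1 hp
        exact ⟨measureReal_nonneg, measureReal_le_one,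
          (sub_pos.2 (ht j (List.mem_range.1 hj)).1).le⟩
      · rw [List.pairwise_map]
        refine List.Pairwise.imp_of_mem (R := fun a b => a < b) (fun {a b} ha hb hab => ?_)
          List.pairwise_lt_range
        have ha' := List.mem_range.1 ha
        have hb' := List.mem_range.1 hb
        refine measureReal_mono (Set.Iio_subset_Iio ?_)
        exact hmono.monotoneOn (htT (a + 1) (by omega)) (htT (b + 1) (by omega))
          ((hmon (b + 1) (by omega)).2 (a + 1) (by omega))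
    rw [hPar _ hTO hsum] at h1
    have h4 : 2 * xi2 c 1 * μ ≤ ε := by
      rw [hμ]
      have : 2 * xi2 c 1 * (ε / (2 * xi2 c 1 + 1)) = ε * (2 * xi2 c 1 / (2 * xi2 c 1 + 1)) := by
        ring
      rw [this]
      have h5 : 2 * xi2 c 1 / (2 * xi2 c 1 + 1) ≤ 1 := by
        rw [div_le_one (by positivity)]; linarith
      calc ε * (2 * xi2 c 1 / (2 * xi2 c 1 + 1)) ≤ ε * 1 :=
            mul_le_mul_of_nonneg_left h5 hε.le
        _ = ε := mul_one ε
    linarith

end Pool.Agent.OS
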