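import Pool.Agent.LibMP0f946f.Base

/-! TASK GM: API for the Gaussian measure `gm C`. -/

set_option autoImplicit false
open MeasureTheory ProbabilityTheory Real Filter Topology
open scoped MatrixOrder

namespace Pool.Agent.OS

variable {ι κ : Type*} [Fintype ι] [DecidableEq ι] [Fintype κ] [DecidableEq κ]

/-! ### auxiliary facts on Gaussian measures on `ι → ℝ` -/

section aux

omit [DecidableEq ι] in
theorem gaux_memLp {μ : Measure (ι → ℝ)} (hμ : IsGaussian μ) (i : ι) :
    MemLp (fun x : ι → ℝ => x i) 2 μ := by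
  have := IsGaussian.memLp_dual μ (ContinuousLinearMap.proj (R := ℝ) (φ := fun _ : ι => ℝ) i) 2
    (by simp)
  exact this

omit [DecidableEq ι] in
theorem gaux_int {μ : Measure (ι → ℝ)} (hμ : IsGaussian μ) (i : ι) :
    Integrable (fun x : ι → ℝ => x i) μ := 
  IsGaussian.integrable_dual μ (ContinuousLinearMap.proj (R := ℝ) (φ := fun _ : ι => ℝ) i)

omit [DecidableEq ι] in
theorem gaux_int2 {μ : Measure (ι → ℝ)} (hμ : IsGaussian μ) (i j : ι) :
    Integrable (fun x : ι → ℝ => x i * x j) μ := 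
  (gaux_memLp hμ i).integrable_mul (gaux_memLp hμ j)

theorem dual_apply (L : StrongDual ℝ (ι → ℝ)) (x : ι → ℝ) :
    L x = ∑ i, L (Pi.single i 1) * x i := by
  conv_lhs => rw [pi_eq_sum_univ' x, map_sum]
  refine Finset.sum_congr rfl fun i _ => ?_
  rw [map_smul, smul_eq_mul, mul_comm]

theorem gaux_charFunDual {μ : Measure (ι → ℝ)} (hμ : IsGaussian μ) (hm : ∀ i, ∫ x, x i ∂μ = 0)
    {c : ι → ι → ℝ} (hc : ∀ i j, ∫ x, x i * x j ∂μ = c i j) (L : StrongDual ℝ (ι → ℝ)) :
    charFunDual μ L = Complex.exp (-(((∑ i, ∑ j, L (Pi.single i 1) * L (Pi.single j 1) * c i j) / 2 : ℝ) : ℂ)) := by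
  have h1 : ∫ x, L x ∂μ = 0 := by
    have : ∀ x : ι → ℝ, L x = ∑ i, L (Pi.single i 1) * x i := dual_apply L
    rw [integral_congr_ae (Eventually.of_forall this)]
    rw [integral_finsetSum _ (fun i _ => (gaux_int hμ i).const_mul _)]
    simp [integral_const_mul, hm]
  have h2 : Var[L; μ] = ∑ i, ∑ j, L (Pi.single i 1) * L (Pi.single j 1) * c i j := by
    rw [variance_of_integral_eq_zero (L.continuous.aemeasurable) h1]
    have : ∀ x : ι → ℝ, (L x) ^ 2 = ∑ i, ∑ j, L (Pi.single i 1) * L (Pi.single j 1) * (x i * x j) := by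
      intro x
      rw [dual_apply L x, sq, Finset.sum_mul_sum]
      refine Finset.sum_congr rfl fun i _ => Finset.sum_congr rfl fun j _ => by ring
    rw [integral_congr_ae (Eventually.of_forall this)]
    rw [integral_finsetSum _ (fun i _ => integrable_finsetSum _ fun j _ => (gaux_int2 hμ i j).const_mul _)]
    refine Finset.sum_congr rfl fun i _ => ?_
    rw [integral_finsetSum _ (fun j _ => (gaux_int2 hμ i j).const_mul _)]
    refine Finset.sum_congr rfl fun j _ => ?_
    rw [integral_const_mul, hc]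
  rw [IsGaussian.charFunDual_eq, h2]
  have h3 : ∫ x, ((L x : ℝ) : ℂ) ∂μ = 0 := by
    rw [integral_complex_ofReal, h1]; simp
  rw [h3]
  congr 1
  push_cast
  ring

theorem gaux_ext {μ ν : Measure (ι → ℝ)} (hμ : IsGaussian μ) (hν : IsGaussian ν) 
    (hm : ∀ i, ∫ x, x i ∂μ = 0) (hn : ∀ i, ∫ x, x i ∂ν = 0)
    (hc : ∀ i j, ∫ x, x i * x j ∂μ = ∫ x, x i * x j ∂ν) : μ = ν := by
  refine Measure.ext_of_charFunDual (funext fun L => ?_)
  rw [gaux_charFunDual hμ hm hc L, gaux_charFunDual hν hn (fun _ _ => rfl) L]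

end aux

theorem gm_eq (C : Matrix ι ι ℝ) : gm C = (multivariateGaussian (0 : EuclideanSpace ℝ ι) C).map 
    (EuclideanSpace.equiv ι ℝ) := rfl

instance gm_isGaussian (C : Matrix ι ι ℝ) : IsGaussian (gm C) := by
  rw [gm_eq]; infer_instance

instance gm_isProb (C : Matrix ι ι ℝ) : IsProbabilityMeasure (gm C) := by
  infer_instance

theorem gm_integral (C : Matrix ι ι ℝ) (f : (ι → ℝ) → ℝ) (hf : AEStronglyMeasurable f (gm C)) : 
    ∫ x, f x ∂(gm C) = ∫ x : EuclideanSpace ℝ ι, f (WithLp.ofLp x) ∂(multivariateGaussian (0 : EuclideanSpace ℝ ι) C) := by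
  unfold gm at hf ⊢
  rw [integral_map (by fun_prop) hf]

theorem gm_mean (C : Matrix ι ι ℝ) (i : ι) : ∫ x, x i ∂(gm C) = 0 := by
  rw [gm_integral C (fun x => x i) (gaux_int (gm_isGaussian C) i).1]
  have h := ContinuousLinearMap.integral_comp_comm (EuclideanSpace.proj i : EuclideanSpace ℝ ι →L[ℝ] ℝ) 
    (IsGaussian.integrable_fun_id (μ := multivariateGaussian (0 : EuclideanSpace ℝ ι) C))
  rw [integral_id_multivariateGaussian] at h
  simpa using h

theorem gm_cov {C : Matrix ι ι ℝ} (hC : C.PosSemidef) (i j : ι) :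
    ∫ x, x i * x j ∂(gm C) = C i j := by
  have h := covariance_eval_multivariateGaussian (μ := 0) hC i j
  have h1 : ∀ i, ∫ x : EuclideanSpace ℝ ι, x i ∂(multivariateGaussian (0 : EuclideanSpace ℝ ι) C) = 0 := by
    intro i
    rw [← gm_mean C i, gm_integral C (fun x => x i) (gaux_int (gm_isGaussian C) i).1]
  rw [covariance, h1, h1] at h
  rw [gm_integral C (fun x => x i * x j) (gaux_int2 (gm_isGaussian C) i j).1]
  simpa using h

/-- a centred Gaussian measure is determined by its covariances -/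
theorem gm_unique {μ : Measure (ι → ℝ)} (hμ : IsGaussian μ) (hm : ∀ i, ∫ x, x i ∂μ = 0)
    {C : Matrix ι ι ℝ} (hC : C.PosSemidef) (hc : ∀ i j, ∫ x, x i * x j ∂μ = C i j) :
    μ = gm C := 
  gaux_ext hμ (gm_isGaussian C) hm (gm_mean C) (fun i j => by rw [hc, gm_cov hC])

/-- the general form of the mapping lemmas -/
theorem gm_map' {C : Matrix ι ι ℝ} (hC : C.PosSemidef) (M : Matrix κ ι ℝ) :
    (gm C).map (fun x => M.mulVec x) = gm (M * C * M.transpose) := by
  have hM : (M * C * M.transpose).PosSemidef := by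
    have := hC.mul_mul_conjTranspose_same M
    rwa [Matrix.conjTranspose_eq_transpose_of_trivial] at this
  have hmeas : Measurable (fun x : ι → ℝ => M.mulVec x) := by
    have : Continuous (fun x : ι → ℝ => M.mulVec x) := 
      (LinearMap.continuous_of_finiteDimensional (Matrix.mulVecLin M))
    exact this.measurable
  have hG : IsGaussian ((gm C).map (fun x => M.mulVec x)) := by
    have : (gm C).map (fun x => M.mulVec x) = (gm C).map (LinearMap.toContinuousLinearMap (Matrix.mulVecLin M)) := rfl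
    rw [this]; infer_instance
  refine gm_unique hG (fun i => ?_) hM (fun i j => ?_)
  · rw [integral_map hmeas.aemeasurable (Measurable.aestronglyMeasurable (by fun_prop))]
    simp only [Matrix.mulVec, dotProduct]
    rw [integral_finsetSum _ (fun k _ => (gaux_int (gm_isGaussian C) k).const_mul _)]
    simp [integral_const_mul, gm_mean]
  · rw [integral_map hmeas.aemeasurable (Measurable.aestronglyMeasurable (by fun_prop))]
    simp only [Matrix.mulVec, dotProduct]
    have : ∀ x : ι → ℝ, (∑ k, M i k * x k) * (∑ l, M j l * x l) = ∑ k, ∑ l, M i k * M j l * (x k * x l) := by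
      intro x
      rw [Finset.sum_mul_sum]
      refine Finset.sum_congr rfl fun i _ => Finset.sum_congr rfl fun j _ => by ring
    simp_rw [this]
    rw [integral_finsetSum _ (fun i _ => integrable_finsetSum _ fun j _ => (gaux_int2 (gm_isGaussian C) i j).const_mul _)]
    simp only [Matrix.mul_apply, Matrix.transpose_apply, Finset.sum_mul]
    rw [Finset.sum_comm]
    refine Finset.sum_congr rfl fun k _ => ?_
    rw [integral_finsetSum _ (fun j _ => (gaux_int2 (gm_isGaussian C) k j).const_mul _)]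
    refine Finset.sum_congr rfl fun l _ => ?_
    rw [integral_const_mul, gm_cov hC]
    ring

theorem gm_map {C : Matrix ι ι ℝ} (hC : C.PosSemidef) (M : Matrix κ ι ℝ) :
    (gm C).map (fun x => M.mulVec x) = gm (M * C * M.transpose) := gm_map' hC M

theorem gm_comp {C : Matrix ι ι ℝ} (hC : C.PosSemidef) (f : κ → ι) :
    (gm C).map (fun x => x ∘ f) = gm (C.submatrix f f) := by
  have hmeas : Measurable (fun x : ι → ℝ => x ∘ f) := 
    measurable_pi_lambda _ (fun i => measurable_pi_apply _)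
  let L : (ι → ℝ) →L[ℝ] (κ → ℝ) := ContinuousLinearMap.pi (fun k => ContinuousLinearMap.proj (f k))
  have hL : (gm C).map (fun x => x ∘ f) = (gm C).map L := rfl
  have hG : IsGaussian ((gm C).map (fun x => x ∘ f)) := by rw [hL]; infer_instance
  refine gm_unique hG (fun i => ?_) (hC.submatrix f) (fun i j => ?_)
  · rw [integral_map hmeas.aemeasurable (Measurable.aestronglyMeasurable (by fun_prop))]
    exact gm_mean C (f i)
  · rw [integral_map hmeas.aemeasurable (Measurable.aestronglyMeasurable (by fun_prop))]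
    exact gm_cov hC (f i) (f j)

theorem gm_smul {C : Matrix ι ι ℝ} (hC : C.PosSemidef) (t : ℝ) :
    (gm C).map (fun x => t • x) = gm (t ^ 2 • C) := by
  have hmeas : Measurable (fun x : ι → ℝ => t • x) := by fun_prop
  let L : (ι → ℝ) →L[ℝ] (ι → ℝ) := t • ContinuousLinearMap.id ℝ _
  have hL : (gm C).map (fun x => t • x) = (gm C).map L := rfl
  have hG : IsGaussian ((gm C).map (fun x => t • x)) := by rw [hL]; infer_instance
  refine gm_unique hG (fun i => ?_) (hC.smul (sq_nonneg t)) (fun i j => ?_)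
  · rw [integral_map hmeas.aemeasurable (Measurable.aestronglyMeasurable (by fun_prop))]
    simp [integral_const_mul, gm_mean]
  · rw [integral_map hmeas.aemeasurable (Measurable.aestronglyMeasurable (by fun_prop))]
    have : ∀ x : ι → ℝ, (t • x) i * (t • x) j = t ^ 2 * (x i * x j) := by
      intro x; simp; ring
    simp_rw [this]
    rw [integral_const_mul, gm_cov hC]
    simp

theorem gm_add {C D : Matrix ι ι ℝ} (hC : C.PosSemidef) (hD : D.PosSemidef) :
    ((gm C).prod (gm D)).map (fun p => p.1 + p.2) = gm (C + D) := by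
  have hmeas : Measurable (fun p : (ι → ℝ) × (ι → ℝ) => p.1 + p.2) := by fun_prop
  let L : ((ι → ℝ) × (ι → ℝ)) →L[ℝ] (ι → ℝ) := ContinuousLinearMap.fst ℝ _ _ + ContinuousLinearMap.snd ℝ _ _
  have hL : ((gm C).prod (gm D)).map (fun p => p.1 + p.2) = ((gm C).prod (gm D)).map L := rfl
  have hG : IsGaussian (((gm C).prod (gm D)).map (fun p => p.1 + p.2)) := by rw [hL]; infer_instance
  have i1 : ∀ i, Integrable (fun p : (ι → ℝ) × (ι → ℝ) => p.1 i) ((gm C).prod (gm D)) := fun i =>
    (gaux_int (gm_isGaussian C) i).comp_fst (gm D)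
  have i2 : ∀ i, Integrable (fun p : (ι → ℝ) × (ι → ℝ) => p.2 i) ((gm C).prod (gm D)) := fun i =>
    (gaux_int (gm_isGaussian D) i).comp_snd (gm C)
  have i11 : ∀ i j, Integrable (fun p : (ι → ℝ) × (ι → ℝ) => p.1 i * p.1 j) ((gm C).prod (gm D)) := fun i j =>
    (gaux_int2 (gm_isGaussian C) i j).comp_fst (gm D)
  have i22 : ∀ i j, Integrable (fun p : (ι → ℝ) × (ι → ℝ) => p.2 i * p.2 j) ((gm C).prod (gm D)) := fun i j =>
    (gaux_int2 (gm_isGaussian D) i j).comp_snd (gm C)
  have i12 : ∀ i j, Integrable (fun p : (ι → ℝ) × (ι → ℝ) => p.1 i * p.2 j) ((gm C).prod (gm D)) := fun i j =>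
    (gaux_int (gm_isGaussian C) i).mul_prod (gaux_int (gm_isGaussian D) j)
  have e1 : ∀ f : (ι → ℝ) → ℝ, ∫ p : (ι → ℝ) × (ι → ℝ), f p.1 ∂((gm C).prod (gm D)) = ∫ x, f x ∂(gm C) := by
    intro f; rw [integral_fun_fst]; simp
  have e2 : ∀ f : (ι → ℝ) → ℝ, ∫ p : (ι → ℝ) × (ι → ℝ), f p.2 ∂((gm C).prod (gm D)) = ∫ x, f x ∂(gm D) := by
    intro f; rw [integral_fun_snd]; simp
  refine gm_unique hG (fun i => ?_) (hC.add hD) (fun i j => ?_)
  · rw [integral_map hmeas.aemeasurable (Measurable.aestronglyMeasurable (by fun_prop))]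
    simp only [Pi.add_apply]
    rw [integral_add (i1 i) (i2 i), e1 (fun x => x i), e2 (fun x => x i), gm_mean, gm_mean, add_zero]
  · rw [integral_map hmeas.aemeasurable (Measurable.aestronglyMeasurable (by fun_prop))]
    have : ∀ p : (ι → ℝ) × (ι → ℝ), (p.1 + p.2) i * (p.1 + p.2) j = 
        (p.1 i * p.1 j + p.2 i * p.2 j) + (p.1 i * p.2 j + p.1 j * p.2 i) := by
      intro p; simp; ring
    simp_rw [this]
    have k1 := integral_add ((i11 i j).add (i22 i j)) ((i12 i j).add (i12 j i))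
    simp only [Pi.add_apply] at k1
    rw [k1, integral_add (i11 i j) (i22 i j),
      integral_add (i12 i j) (i12 j i), e1 (fun x => x i * x j), e2 (fun x => x i * x j), gm_cov hC, gm_cov hD,
      integral_prod_mul (fun x : ι → ℝ => x i) (fun y : ι → ℝ => y j), 
      integral_prod_mul (fun x : ι → ℝ => x j) (fun y : ι → ℝ => y i)]
    simp [gm_mean]

theorem gm_prod {C : Matrix ι ι ℝ} {D : Matrix κ κ ℝ} (hC : C.PosSemidef) (hD : D.PosSemidef) :
    ((gm C).prod (gm D)).map (fun p => Sum.elim p.1 p.2) = gm (Matrix.fromBlocks C 0 0 D) := by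
  have hmeas : Measurable (fun p : (ι → ℝ) × (κ → ℝ) => (Sum.elim p.1 p.2 : ι ⊕ κ → ℝ)) := by
    refine measurable_pi_lambda _ (fun i => ?_)
    rcases i with i | i
    · exact (measurable_pi_apply i).comp measurable_fst
    · exact (measurable_pi_apply i).comp measurable_snd
  let L : ((ι → ℝ) × (κ → ℝ)) →L[ℝ] (ι ⊕ κ → ℝ) := ContinuousLinearMap.pi (fun i => 
    Sum.elim (fun i => (ContinuousLinearMap.proj i).comp (ContinuousLinearMap.fst ℝ (ι → ℝ) (κ → ℝ)))
      (fun i => (ContinuousLinearMap.proj i).comp (ContinuousLinearMap.snd ℝ (ι → ℝ) (κ → ℝ))) i)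
  have hL : ((gm C).prod (gm D)).map (fun p => (Sum.elim p.1 p.2 : ι ⊕ κ → ℝ)) = ((gm C).prod (gm D)).map L := by
    congr 1
    funext p i
    rcases i with i | i <;> rfl
  have hG : IsGaussian (((gm C).prod (gm D)).map (fun p => (Sum.elim p.1 p.2 : ι ⊕ κ → ℝ))) := by rw [hL]; infer_instance
  have e1 : ∀ f : (ι → ℝ) → ℝ, ∫ p : (ι → ℝ) × (κ → ℝ), f p.1 ∂((gm C).prod (gm D)) = ∫ x, f x ∂(gm C) := by
    intro f; rw [integral_fun_fst]; simp
  have e2 : ∀ f : (κ → ℝ) → ℝ, ∫ p : (ι → ℝ) × (κ → ℝ), f p.2 ∂((gm C).prod (gm D)) = ∫ x, f x ∂(gm D) := by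
    intro f; rw [integral_fun_snd]; simp
  have hP : (Matrix.fromBlocks C 0 0 D).PosSemidef := by
    refine (Matrix.PosSemidef.of_dotProduct_mulVec_nonneg ?_ ?_)
    · exact Matrix.IsHermitian.fromBlocks hC.1 (by simp) hD.1
    · intro x
      have : x = Sum.elim (x ∘ Sum.inl) (x ∘ Sum.inr) := (Sum.elim_comp_inl_inr x).symm
      rw [this, Matrix.fromBlocks_mulVec]
      have h1 := hC.dotProduct_mulVec_nonneg (x ∘ Sum.inl)
      have h2 := hD.dotProduct_mulVec_nonneg (x ∘ Sum.inr)
      simp only [dotProduct, Fintype.sum_sum_type] at h1 h2 ⊢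
      simpa using add_nonneg h1 h2
  refine gm_unique hG (fun i => ?_) hP (fun i j => ?_)
  · rw [integral_map hmeas.aemeasurable (Measurable.aestronglyMeasurable (by fun_prop))]
    rcases i with i | i
    · exact (e1 (fun x => x i)).trans (gm_mean C i)
    · exact (e2 (fun x => x i)).trans (gm_mean D i)
  · rw [integral_map hmeas.aemeasurable (Measurable.aestronglyMeasurable (by fun_prop))]
    rcases i with i | i <;> rcases j with j | j
    · exact (e1 (fun x => x i * x j)).trans (gm_cov hC i j)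
    · simp only [Sum.elim_inl, Sum.elim_inr, Matrix.fromBlocks_apply₁₂, Matrix.zero_apply]
      rw [integral_prod_mul (fun x : ι → ℝ => x i) (fun y : κ → ℝ => y j), gm_mean, zero_mul]
    · simp only [Sum.elim_inl, Sum.elim_inr, Matrix.fromBlocks_apply₂₁, Matrix.zero_apply]
      simp_rw [mul_comm]
      rw [integral_prod_mul (fun x : ι → ℝ => x j) (fun y : κ → ℝ => y i), gm_mean, zero_mul]
    · exact (e2 (fun x => x i * x j)).trans (gm_cov hD i j)

theorem gm_one : gm (1 : Matrix ι ι ℝ) = Measure.pi (fun _ => γ) := by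
  unfold gm
  rw [multivariateGaussian_zero_one, ← map_pi_eq_stdGaussian, Measure.map_map (by fun_prop) (by fun_prop)]
  have : (fun x : EuclideanSpace ℝ ι => (WithLp.ofLp x : ι → ℝ)) ∘ (WithLp.toLp 2) = id := rfl
  rw [this, Measure.map_id]

theorem gm_zero : gm (0 : Matrix ι ι ℝ) = Measure.dirac 0 := by
  unfold gm
  have : multivariateGaussian (0 : EuclideanSpace ℝ ι) (0 : Matrix ι ι ℝ) = Measure.dirac 0 := by
    simp [multivariateGaussian]
  rw [this, Measure.map_dirac' (by fun_prop)]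
  rfl

/-- linear images of iid standard Gaussians -/
theorem gm_of_factor (B : Matrix ι κ ℝ) :
    gm (B * B.transpose) = (Measure.pi (fun _ : κ => γ)).map (fun g => B.mulVec g) := by
  rw [← gm_one, gm_map Matrix.PosSemidef.one, Matrix.mul_one]

/-- the positive semidefinite matrix `C` has a square root, and `gm C` is a linear image of iid standard Gaussians -/
theorem gm_factor {C : Matrix ι ι ℝ} (hC : C.PosSemidef) :
    ∃ B : Matrix ι ι ℝ, C = B * B.transpose ∧
      gm C = (Measure.pi (fun _ : ι => γ)).map (fun g => B.mulVec g) := by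
  have hs : CFC.sqrt C * CFC.sqrt C = C := CFC.sqrt_mul_sqrt_self C hC.nonneg
  have hsa : (CFC.sqrt C).transpose = CFC.sqrt C := by
    have := (CFC.sqrt_nonneg C).isSelfAdjoint
    rw [← Matrix.conjTranspose_eq_transpose_of_trivial]
    exact this
  refine ⟨CFC.sqrt C, by rw [hsa, hs], ?_⟩
  rw [← gm_of_factor, hsa, hs]

theorem gm_expint (C : Matrix ι ι ℝ) (t : ℝ) :
    Integrable (fun x : ι → ℝ => Real.exp (t * ∑ i, |x i|)) (gm C) := by
  obtain ⟨c, hc, hint⟩ := IsGaussian.exists_integrable_exp_sq (gm C)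
  set K : ℝ := |t| * Fintype.card ι with hK
  have hmeas : AEStronglyMeasurable (fun x : ι → ℝ => Real.exp (t * ∑ i, |x i|)) (gm C) :=
    (by fun_prop : Continuous (fun x : ι → ℝ => Real.exp (t * ∑ i, |x i|))).aestronglyMeasurable
  refine (hint.const_mul (Real.exp (K ^ 2 / (4 * c)))).mono hmeas (Eventually.of_forall fun x => ?_)
  rw [Real.norm_of_nonneg (Real.exp_pos _).le, Real.norm_of_nonneg (by positivity), ← Real.exp_add]
  apply Real.exp_le_exp.mpr
  have h1 : ∑ i, |x i| ≤ Fintype.card ι * ‖x‖ := by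
    calc ∑ i, |x i| ≤ ∑ _i : ι, ‖x‖ := Finset.sum_le_sum fun i _ => by
          rw [← Real.norm_eq_abs]; exact norm_le_pi_norm x i
      _ = Fintype.card ι * ‖x‖ := by simp
  have h2 : t * ∑ i, |x i| ≤ K * ‖x‖ := by
    calc t * ∑ i, |x i| ≤ |t| * ∑ i, |x i| := by
          apply mul_le_mul_of_nonneg_right (le_abs_self t) (Finset.sum_nonneg fun i _ => abs_nonneg _)
      _ ≤ |t| * (Fintype.card ι * ‖x‖) := by gcongr
      _ = K * ‖x‖ := by rw [hK]; ring
  have h3 : K * ‖x‖ ≤ K ^ 2 / (4 * c) + c * ‖x‖ ^ 2 := by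
    have : 0 ≤ (K / (2 * c) - ‖x‖) ^ 2 * c := by positivity
    have e : (K / (2 * c) - ‖x‖) ^ 2 * c = K ^ 2 / (4 * c) + c * ‖x‖ ^ 2 - K * ‖x‖ := by
      field_simp; ring
    linarith
  linarith

/-- exponential moments -/
theorem gm_mgf {C : Matrix ι ι ℝ} (hC : C.PosSemidef) (a : ι → ℝ) :
    ∫ x, Real.exp (∑ i, a i * x i) ∂(gm C) = Real.exp ((∑ i, ∑ j, a i * C i j * a j) / 2) := by
  let L : StrongDual ℝ (ι → ℝ) := ∑ i, a i • (ContinuousLinearMap.proj i : (ι → ℝ) →L[ℝ] ℝ)
  have hL : ∀ x : ι → ℝ, L x = ∑ i, a i * x i := by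
    intro x; simp [L]
  have h1 : ∫ x, L x ∂(gm C) = 0 := by
    rw [integral_congr_ae (Eventually.of_forall hL)]
    rw [integral_finsetSum _ (fun i _ => (gaux_int (gm_isGaussian C) i).const_mul _)]
    simp [integral_const_mul, gm_mean]
  have h2 : Var[L; gm C] = ∑ i, ∑ j, a i * C i j * a j := by
    rw [variance_of_integral_eq_zero (L.continuous.aemeasurable) h1]
    have : ∀ x : ι → ℝ, (L x) ^ 2 = ∑ i, ∑ j, a i * a j * (x i * x j) := by
      intro x
      rw [hL x, sq, Finset.sum_mul_sum]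
      refine Finset.sum_congr rfl fun i _ => Finset.sum_congr rfl fun j _ => by ring
    rw [integral_congr_ae (Eventually.of_forall this)]
    rw [integral_finsetSum _ (fun i _ => integrable_finsetSum _ fun j _ => (gaux_int2 (gm_isGaussian C) i j).const_mul _)]
    refine Finset.sum_congr rfl fun i _ => ?_
    rw [integral_finsetSum _ (fun j _ => (gaux_int2 (gm_isGaussian C) i j).const_mul _)]
    refine Finset.sum_congr rfl fun j _ => ?_
    rw [integral_const_mul, gm_cov hC]
    ring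
  have h3 := IsGaussian.map_eq_gaussianReal (μ := gm C) L
  have h4 := mgf_gaussianReal h3 1
  rw [h1, zero_mul, zero_add, one_pow, mul_one, Real.coe_toNNReal _ (variance_nonneg _ _), h2] at h4
  rw [← h4, mgf]
  refine integral_congr_ae (Eventually.of_forall fun x => ?_)
  simp only [one_mul]
  rw [hL]

end Pool.Agent.OS
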