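import Pool.Agent.LibMP0f946f.Cavity
import Pool.Agent.LibMP0f946f.RegGG
import Pool.Agent.LibMP0f946f.ArrLim
import Pool.Agent.LibMP0f946f.Chain

/-! TASK LOWERB: the lower bound.  (a) `bterm`, (b) `cavity_lower`, (c) `lower_bound`.

(a) With `C = cov (cw c N 0) N`, `D = th c (ov)`: `FE (C + D) - FE C = ∫_0^1 u EG (C + u² D) 2 [D(1,1) - D(1,2)] du`
(`FE_sq_deriv`, `cov_cw`), and for every `u` the integrand tends to `u (θ(1) - ∫ θ dζ)` (`reg_mom` with the weights of
`cw c N (u²)`, `th_eq`, dominated convergence in `p`; bounded by `2 θ(1)`), so dominated convergence in `u`.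
(b) `a_N = FE (cov c N)`; `a_N / N → F`, hence `a_{N+1} - a_N ≤ F + 1/(j+1)` for infinitely many `N`: choose
`N_j → ∞`.  `a_{N+1} - a_N ≥ EG[Gn] - (FE (cov (cw c N 1) N) - FE (cov (cw c N 0) N)) - K/N` (`cav1, cav2, cav3`).
`arr_limit` for the sequence `cov (cw c N_j 0) N_j` (hypotheses: `reg_mom`, `reg_gg`), Tietze extension of `Gn`
(`Gn_cont`) to a continuous function, `bterm`.
(c) For an admissible list `s_1 ≤ … ≤ s_k` with `ζ(Iio s_k) = 1`: `chain` with `L = [(s_j, ξ'(s_j) - ξ'(s_{j-1}))]`,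
`cl = ξ'(1) - ξ'(s_k)`, `A = log (2 cosh)`; `Kmat` differs from `ξ'(R)` by at most `ξ''(1) μ` (off the diagonal
`R < s_k` a.s.), `lch_lip`; and `∑ ζ(Iio s_j)(θ(s_j) - θ(s_{j-1})) + θ(1) - θ(s_k) = θ(1) - ∫ θ(κ(x)) dζ` differs from
`θ(1) - ∫ θ dζ` by at most `ξ''(1) μ`. -/

set_option autoImplicit false
open MeasureTheory ProbabilityTheory Real Filter Topology
open Pool.Agent.LibOS96

namespace Pool.Agent.OS

section aux
variable {ι : Type*} [Fintype ι] [DecidableEq ι] [Nonempty ι]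

private theorem EG_eq_sum (C : Matrix ι ι ℝ) (n : ℕ) (f : (Fin n → ι) → ℝ) :
    EG C n f = ∑ s : Fin n → ι, f s * ∫ x, ∏ l, pw x (s l) ∂(gm C) := by
  unfold EG gav
  rw [integral_finsetSum]
  · refine Finset.sum_congr rfl fun s _ => ?_
    exact integral_const_mul _ _
  · intro s _
    refine Integrable.const_mul ?_ _
    have h := gav_integrable C n (fun s' => if s' = s then 1 else 0)
    refine h.congr (Eventually.of_forall fun x => ?_)
    unfold gav
    simp

private theorem EG_hasSum (C : Matrix ι ι ℝ) (n : ℕ) (a : ℕ → (Fin n → ι) → ℝ) (f : (Fin n → ι) → ℝ)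
    (h : ∀ s, HasSum (fun p => a p s) (f s)) : HasSum (fun p => EG C n (a p)) (EG C n f) := by
  simp only [EG_eq_sum C n]
  exact hasSum_sum fun s _ => (h s).mul_right _

private theorem EG_abs_le (C : Matrix ι ι ℝ) (n : ℕ) (f : (Fin n → ι) → ℝ) (B : ℝ) (h : ∀ s, |f s| ≤ B) :
    |EG C n f| ≤ B := by
  rw [abs_le]
  constructor
  · have := EG_mono C n (f := fun _ => -B) (g := f) fun s => (abs_le.1 (h s)).1
    rwa [EG_const] at this
  · have := EG_mono C n (f := f) (g := fun _ => B) fun s => (abs_le.1 (h s)).2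
    rwa [EG_const] at this

end aux

/-- the weights of `cw` -/
private noncomputable def wt (N : ℕ) (t : ℝ) (p : ℕ) : ℝ :=
  ((N:ℝ) + 1) / N * ((N:ℝ) / (N + 1)) ^ p + t * ((p:ℝ) - 1) / N

private theorem cw_eq_wt (c : ℕ → ℝ) (N : ℕ) (t : ℝ) : cw c N t = fun p => c p * wt N t p := rfl

private theorem wt_bound (N : ℕ) (hN : 1 ≤ N) (t : ℝ) (ht : 0 ≤ t) (ht1 : t ≤ 1) (p : ℕ) :
    0 ≤ wt N t p ∧ wt N t p ≤ 2 + p := by
  rcases Nat.eq_zero_or_pos p with hp | hp
  · subst hp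
    have hN' : (1:ℝ) ≤ N := by exact_mod_cast hN
    have hN0 : (0:ℝ) < N := by linarith
    have e : wt N t 0 = 1 + (1 - t) / N := by
      unfold wt
      field_simp
      push_cast
      ring
    rw [e]
    have h1 : 0 ≤ (1 - t) / N := div_nonneg (by linarith) hN0.le
    have h2 : (1 - t) / N ≤ 1 := by
      rw [div_le_one hN0]; linarith
    push_cast
    constructor <;> linarith
  · exact cw_bound (fun _ => 0) N hN t ht ht1 p hp

private theorem wt_tendsto (t : ℝ) (p : ℕ) : Tendsto (fun n => wt n t p) atTop (𝓝 1) := by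
  have h1 : Tendsto (fun n : ℕ => (n:ℝ) / ((n:ℝ) + 1)) atTop (𝓝 1) :=
    tendsto_natCast_div_add_atTop (1:ℝ)
  have h2 : Tendsto (fun n : ℕ => ((n:ℝ) + 1) / (n:ℝ)) atTop (𝓝 1) := by
    have := h1.inv₀ one_ne_zero
    simp only [inv_one, inv_div] at this
    exact this
  have h3 : Tendsto (fun n : ℕ => t * ((p:ℝ) - 1) / (n:ℝ)) atTop (𝓝 0) :=
    tendsto_const_div_atTop_nhds_zero_nat _
  have := (h2.mul (h1.pow p)).add h3
  simpa [wt] using this

/-- the moments of the limit -/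
private theorem int_th {c d : ℕ → ℝ} (h : Reg c d) {ζ : Measure ℝ} (hζ : IsProbabilityMeasure ζ)
    (hs : ζ (Set.Icc (-1) 1)ᶜ = 0) :
    ∫ x, th c x ∂ζ = ∑' p : ℕ, c p * ((p:ℝ) - 1) * ∫ x, x ^ p ∂ζ := by
  have hae : ∀ᵐ x ∂ζ, |x| ≤ 1 := by
    rw [ae_iff]
    convert hs using 2
    ext x
    simp [abs_le, Set.mem_Icc]
  have hi : ∀ p : ℕ, Integrable (fun x : ℝ => c p * ((p:ℝ) - 1) * x ^ p) ζ := by
    intro p
    refine Integrable.const_mul ?_ _
    refine Integrable.of_bound (by fun_prop) 1 ?_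
    filter_upwards [hae] with x hx
    rw [norm_pow]
    exact pow_le_one₀ (norm_nonneg _) hx
  have hb : ∀ p : ℕ, ∫ x, ‖c p * ((p:ℝ) - 1) * x ^ p‖ ∂ζ ≤ c p * ((p:ℝ) - 1) := by
    intro p
    have : ∫ x, ‖c p * ((p:ℝ) - 1) * x ^ p‖ ∂ζ ≤ ∫ x, c p * ((p:ℝ) - 1) ∂ζ := by
      refine integral_mono_ae (hi p).norm (integrable_const _) ?_
      filter_upwards [hae] with x hx
      rw [norm_mul, norm_pow, Real.norm_of_nonneg (h.adm.cpred_nonneg p)]
      exact mul_le_of_le_one_right (h.adm.cpred_nonneg p) (pow_le_one₀ (norm_nonneg _) hx)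
    simpa using this
  have hsum : Summable fun p : ℕ => ∫ x, ‖c p * ((p:ℝ) - 1) * x ^ p‖ ∂ζ := by
    refine Summable.of_nonneg_of_le (fun p => integral_nonneg fun x => norm_nonneg _) hb ?_
    exact ((h.adm.summable1.sub h.adm.summable).congr fun p => by ring)
  have key := integral_tsum_of_summable_integral_norm hi hsum
  have e1 : ∫ x, th c x ∂ζ = ∫ x, ∑' p : ℕ, c p * ((p:ℝ) - 1) * x ^ p ∂ζ := by
    refine integral_congr_ae ?_
    filter_upwards [hae] with x hx
    exact h.adm.th_eq hx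
  rw [e1, ← key]
  exact tsum_congr fun p => integral_const_mul _ _

private theorem eg_th_tendsto {c d : ℕ → ℝ} (h : Reg c d) {ζ : Measure ℝ} (hζ : IsProbabilityMeasure ζ)
    (hs : ζ (Set.Icc (-1) 1)ᶜ = 0)
    (hm : ∀ p : ℕ, (p = 2 ∨ 4 ≤ p) → ∫ x, x ^ p ∂ζ = 1 - d p / Real.sqrt (c p))
    (N : ℕ → ℕ) (hN1 : ∀ j, 1 ≤ N j) (hN : Tendsto N atTop atTop) (t : ℝ) (ht : 0 ≤ t)
    (ht1 : t ≤ 1) :
    Tendsto (fun j => EG (cov (cw c (N j) t) (N j)) 2 (fun s => th c (ov (s 0) (s 1)))) atTop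
      (𝓝 (∫ x, th c x ∂ζ)) := by
  rw [int_th h hζ hs]
  have e : ∀ j, EG (cov (cw c (N j) t) (N j)) 2 (fun s => th c (ov (s 0) (s 1))) =
      ∑' p : ℕ, c p * ((p:ℝ) - 1) *
        EG (cov (cw c (N j) t) (N j)) 2 (fun s => ov (s 0) (s 1) ^ p) := by
    intro j
    have h1 := EG_hasSum (cov (cw c (N j) t) (N j)) 2
      (fun p s => c p * ((p:ℝ) - 1) * ov (s 0) (s 1) ^ p) (fun s => th c (ov (s 0) (s 1)))
      (fun s => by
        rw [h.adm.th_eq (ov_abs_le _ _)]
        refine Summable.hasSum ?_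
        exact summable_pow_of_abs_le h.adm.cpred_nonneg
          ((h.adm.summable1.sub h.adm.summable).congr fun p => by ring) (ov_abs_le _ _) _)
    rw [← h1.tsum_eq]
    exact tsum_congr fun p => EG_mul _ _ _ _
  simp only [e]
  refine tendsto_tsum_of_dominated_convergence (bound := fun p => c p * ((p:ℝ) - 1))
    ((h.adm.summable1.sub h.adm.summable).congr fun p => by ring) ?_ ?_
  · intro p
    by_cases hp : p = 2 ∨ 4 ≤ p
    · refine Tendsto.const_mul _ ?_
      rw [hm p hp]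
      exact reg_mom h N hN (fun j q => wt (N j) t q) (fun j q => wt_bound _ (hN1 j) t ht ht1 q)
        (fun q => (wt_tendsto t q).comp hN) p hp
    · have hp' : p = 0 ∨ p = 1 ∨ p = 3 := by omega
      have hc : c p * ((p:ℝ) - 1) = 0 := by
        rcases hp' with rfl | rfl | rfl
        · simp [h.adm.c0]
        · simp
        · simp [h.c3]
      simp only [hc, zero_mul]
      exact tendsto_const_nhds
  · refine Eventually.of_forall fun j p => ?_
    rw [norm_mul, Real.norm_of_nonneg (h.adm.cpred_nonneg p)]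
    refine mul_le_of_le_one_right (h.adm.cpred_nonneg p) ?_
    refine EG_abs_le _ _ _ 1 fun s => ?_
    rw [abs_pow]
    exact pow_le_one₀ (abs_nonneg _) (ov_abs_le _ _)

theorem bterm {c d : ℕ → ℝ} (h : Reg c d) {ζ : Measure ℝ} (hζ : IsProbabilityMeasure ζ)
    (hs : ζ (Set.Icc (-1) 1)ᶜ = 0)
    (hm : ∀ p : ℕ, (p = 2 ∨ 4 ≤ p) → ∫ x, x ^ p ∂ζ = 1 - d p / Real.sqrt (c p)) :
    Tendsto (fun N : ℕ => FE (cov (cw c N 1) N) - FE (cov (cw c N 0) N)) atTop
      (𝓝 ((th c 1 - ∫ x, th c x ∂ζ) / 2)) := by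
  rw [← tendsto_add_atTop_iff_nat 1]
  set I := ∫ x, th c x ∂ζ with hI
  let A : ∀ N : ℕ, Matrix (Cfg N) (Cfg N) ℝ := fun N => Matrix.of fun σ τ => th c (ov σ τ)
  let g' : ℕ → ℝ → ℝ := fun N u =>
    u * EG (cov (cw c N (u ^ 2)) N) 2 (fun s => th c 1 - th c (ov (s 0) (s 1)))
  have hA : ∀ N, (A N).PosSemidef := fun N => th_psd h.adm _ (ov_psd N) fun _ _ => ov_abs_le _ _
  have hB : ∀ N, 1 ≤ N → (cov (cw c N 0) N).PosSemidef := fun N hN =>
    cov_psd (cw_adm h.adm h.sum4 N hN 0 le_rfl zero_le_one) N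
  have hcov : ∀ N, 1 ≤ N → ∀ u : ℝ, u ^ 2 • A N + cov (cw c N 0) N = cov (cw c N (u ^ 2)) N := by
    intro N hN u
    rw [cov_cw h.adm h.sum4 N hN (u ^ 2), add_comm]
  have hder : ∀ N, 1 ≤ N → ∀ u : ℝ, HasDerivAt (fun u : ℝ => FE (cov (cw c N (u ^ 2)) N))
      (g' N u) u := by
    intro N hN u
    have h1 := FE_sq_deriv (hA N) (hB N hN) u
    simp only [hcov N hN] at h1
    convert h1 using 4 with s
    simp only [A, Matrix.of_apply]
    rw [ov_self hN]
  have hbd : ∀ N, 1 ≤ N → ∀ u : ℝ, 0 ≤ u → u ≤ 1 → ‖g' N u‖ ≤ 2 * th c 1 := by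
    intro N hN u h0 h1
    have hb1 : |EG (cov (cw c N (u ^ 2)) N) 2 (fun s => th c 1 - th c (ov (s 0) (s 1)))| ≤
        2 * th c 1 := by
      refine EG_abs_le _ _ _ _ fun s => ?_
      have h2 := h.adm.th_abs (ov_abs_le (s 0) (s 1))
      have h3 := h.adm.th_abs (x := 1) (by simp)
      rw [abs_le] at h2 h3 ⊢
      constructor <;> linarith
    have h4 : 0 ≤ 2 * th c 1 := (abs_nonneg _).trans hb1
    rw [norm_mul, Real.norm_of_nonneg h0, Real.norm_eq_abs]
    calc _ ≤ 1 * (2 * th c 1) := mul_le_mul h1 hb1 (abs_nonneg _) (by norm_num)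
      _ = _ := one_mul _
  have hmeas : ∀ N, 1 ≤ N → Measurable (g' N) := by
    intro N hN
    have : g' N = deriv (fun u : ℝ => FE (cov (cw c N (u ^ 2)) N)) := by
      funext u
      exact ((hder N hN u).deriv).symm
    rw [this]
    exact measurable_deriv _
  have hint : ∀ N, 1 ≤ N → IntervalIntegrable (g' N) volume 0 1 := by
    intro N hN
    refine (intervalIntegrable_const (c := 2 * th c 1)).mono_fun'
      (hmeas N hN).aestronglyMeasurable ?_
    refine (ae_restrict_iff' measurableSet_uIoc).2 (Eventually.of_forall fun u hu => ?_)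
    rw [Set.uIoc_of_le zero_le_one] at hu
    exact hbd N hN u hu.1.le hu.2
  have hftc : ∀ N, 1 ≤ N → FE (cov (cw c N 1) N) - FE (cov (cw c N 0) N) =
      ∫ u in (0:ℝ)..1, g' N u := by
    intro N hN
    rw [intervalIntegral.integral_eq_sub_of_hasDerivAt (fun u _ => hder N hN u) (hint N hN)]
    norm_num
  have hlim : ∀ u : ℝ, 0 ≤ u → u ≤ 1 →
      Tendsto (fun j : ℕ => g' (j + 1) u) atTop (𝓝 (u * (th c 1 - I))) := by
    intro u h0 h1
    refine Tendsto.const_mul _ ?_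
    have h2 := eg_th_tendsto h hζ hs hm (fun j => j + 1) (fun j => by omega)
      (tendsto_add_atTop_nat 1) (u ^ 2) (by positivity) (pow_le_one₀ h0 h1)
    have h3 := h2.const_sub (th c 1)
    refine h3.congr fun j => ?_
    have h4 := EG_add (cov (cw c (j + 1) (u ^ 2)) (j + 1)) 2 (fun _ => th c 1)
      (fun s => (-1) * th c (ov (s 0) (s 1)))
    rw [EG_const, EG_mul] at h4
    have h5 : (fun s : Fin 2 → Cfg (j + 1) => th c 1 + (-1) * th c (ov (s 0) (s 1))) =
        fun s => th c 1 - th c (ov (s 0) (s 1)) := by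
      funext s; ring
    rw [h5] at h4
    rw [h4]
    ring
  have hfin : (th c 1 - I) / 2 = ∫ u in (0:ℝ)..1, u * (th c 1 - I) := by
    rw [intervalIntegral.integral_mul_const, integral_id]
    ring
  rw [hfin]
  have hconv := intervalIntegral.tendsto_integral_filter_of_dominated_convergence
    (F := fun (j : ℕ) u => g' (j + 1) u) (f := fun u => u * (th c 1 - I)) (a := 0) (b := 1)
    (μ := volume) (l := atTop) (fun _ => 2 * th c 1)
    (Eventually.of_forall fun j => (hmeas (j + 1) (by omega)).aestronglyMeasurable)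
    (Eventually.of_forall fun j => Eventually.of_forall fun u hu => by
      rw [Set.uIoc_of_le zero_le_one] at hu
      exact hbd (j + 1) (by omega) u hu.1.le hu.2)
    intervalIntegrable_const
    (Eventually.of_forall fun u hu => by
      rw [Set.uIoc_of_le zero_le_one] at hu
      exact hlim u hu.1.le hu.2)
  refine hconv.congr fun j => ?_
  exact (hftc (j + 1) (by omega)).symm

private theorem exists_small_step (a : ℕ → ℝ) (F : ℝ) (hF : Tendsto (fun N : ℕ => a N / N) atTop (𝓝 F))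
    (ε : ℝ) (hε : 0 < ε) (M : ℕ) : ∃ N, M ≤ N ∧ a (N + 1) - a N ≤ F + ε := by
  by_contra hcon
  push Not at hcon
  have h1 : ∀ k : ℕ, a M + k * (F + ε) ≤ a (k + M) := by
    intro k
    induction k with
    | zero => simp
    | succ k ih =>
      have h2 := hcon (k + M) (by omega)
      have e : k + 1 + M = k + M + 1 := by omega
      rw [e]
      push_cast
      linarith
  have h3 : Tendsto (fun k : ℕ => a (k + M) / ((k + M : ℕ) : ℝ)) atTop (𝓝 F) :=
    hF.comp (tendsto_add_atTop_nat M)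
  have h4 : Tendsto (fun k : ℕ => a M / ((k + M : ℕ) : ℝ) + (k : ℝ) / ((k : ℝ) + M) * (F + ε))
      atTop (𝓝 (0 + 1 * (F + ε))) := by
    refine Tendsto.add ?_ (Tendsto.mul_const _ (tendsto_natCast_div_add_atTop (M : ℝ)))
    exact (tendsto_const_div_atTop_nhds_zero_nat (a M)).comp (tendsto_add_atTop_nat M)
  have h5 : 0 + 1 * (F + ε) ≤ F := by
    refine le_of_tendsto_of_tendsto' h4 h3 fun k => ?_
    rcases Nat.eq_zero_or_pos (k + M) with hk | hk
    · have hk0 : k = 0 := by omega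
      have hM0 : M = 0 := by omega
      subst hk0
      subst hM0
      simp
    · have hk' : (0:ℝ) < ((k + M : ℕ) : ℝ) := by exact_mod_cast hk
      have e : (k : ℝ) + M = ((k + M : ℕ) : ℝ) := by push_cast; ring
      rw [e, div_mul_eq_mul_div, ← add_div]
      exact div_le_div_of_nonneg_right (h1 k) hk'.le
  linarith

private theorem isClosed_psd (n : ℕ) :
    IsClosed {r : Fin n → Fin n → ℝ | (Matrix.of r).PosSemidef ∧ ∀ i j, |r i j| ≤ 1} := by
  have e : {r : Fin n → Fin n → ℝ | (Matrix.of r).PosSemidef ∧ ∀ i j, |r i j| ≤ 1} =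
      {r : Fin n → Fin n → ℝ | ((∀ i j, r i j = r j i) ∧
        ∀ x : Fin n → ℝ, 0 ≤ ∑ i, ∑ j, x i * r i j * x j) ∧ ∀ i j, |r i j| ≤ 1} := by
    ext r
    constructor
    · rintro ⟨h1, h2⟩
      exact ⟨⟨symm_of_psd r h1, quad_of_psd r h1⟩, h2⟩
    · rintro ⟨⟨h1, h2⟩, h3⟩
      exact ⟨psd_of_quad r h1 h2, h3⟩
  rw [e]
  have hc : ∀ i j, Continuous fun r : Fin n → Fin n → ℝ => r i j := fun i j => by fun_prop
  simp only [Set.ofPred_and, Set.ofPred_forall]
  refine IsClosed.inter (IsClosed.inter ?_ ?_) ?_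
  · exact isClosed_iInter fun i => isClosed_iInter fun j => isClosed_eq (hc i j) (hc j i)
  · exact isClosed_iInter fun x => isClosed_le continuous_const (by fun_prop)
  · exact isClosed_iInter fun i => isClosed_iInter fun j =>
      isClosed_le (hc i j).abs continuous_const

theorem cavity_lower {c d : ℕ → ℝ} (h : Reg c d) (F : ℝ) (hF : Tendsto (FN c) atTop (𝓝 F)) :
    ∃ (P : Measure (ℕ → ℕ → ℝ)) (ζ : Measure ℝ), GGArray P ζ ∧
      (∀ p : ℕ, (p = 2 ∨ 4 ≤ p) → ∫ x, x ^ p ∂ζ = 1 - d p / Real.sqrt (c p)) ∧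
      ∀ n : ℕ, 1 ≤ n →
        (∫ R, Gn c n (fun i k => R i k) ∂P) - (th c 1 - ∫ x, th c x ∂ζ) / 2 ≤ F := by
  have hc := h.adm
  obtain ⟨K1, hK1⟩ := cav1 hc h.sum4
  obtain ⟨K2, hK2⟩ := cav2 hc h.sum4
  have hex : ∀ j : ℕ, ∃ N, j + 1 ≤ N ∧
      FE (cov c (N + 1)) - FE (cov c N) ≤ F + 1 / ((j:ℝ) + 1) := fun j =>
    exists_small_step (fun N => FE (cov c N)) F hF _ (by positivity) _
  choose N hNj hNF using hex
  have hN1 : ∀ j, 1 ≤ N j := fun j => by have := hNj j; omega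
  have hNt : Tendsto N atTop atTop :=
    tendsto_atTop_mono (fun j => by have := hNj j; omega : ∀ j, j ≤ N j) tendsto_id
  obtain ⟨φ, P, ζ, hφ, H, hmom, hΨ⟩ := arr_limit N hN1 (fun j => cov (cw c (N j) 0) (N j))
    (fun j => cov_psd (cw_adm hc h.sum4 (N j) (hN1 j) 0 le_rfl zero_le_one) (N j))
    (fun p => 1 - d p / Real.sqrt (c p))
    (fun p hp => reg_mom h N hNt (fun j q => wt (N j) 0 q)
      (fun j q => wt_bound _ (hN1 j) 0 le_rfl zero_le_one q)
      (fun q => (wt_tendsto 0 q).comp hNt) p hp)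
    (fun p hp n f hf => reg_gg h N hNt (fun j q => wt (N j) 0 q)
      (fun j q => wt_bound _ (hN1 j) 0 le_rfl zero_le_one q)
      (fun q => (wt_tendsto 0 q).comp hNt) p hp n f hf)
  refine ⟨P, ζ, H, hmom, fun n hn => ?_⟩
  have := H.prob
  have := H.probζ
  have hζs : ζ (Set.Icc (-1) 1)ᶜ = 0 := by
    have h1 : P.real {R | R 0 1 ∈ (Set.Icc (-1:ℝ) 1)ᶜ} = 0 := by
      have : P {R | R 0 1 ∈ (Set.Icc (-1:ℝ) 1)ᶜ} = 0 := by
        rw [measure_eq_zero_iff_ae_notMem]
        filter_upwards [H.bdd] with R hR hR2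
        exact hR2 (abs_le.1 (hR 0 1))
      rw [Measure.real, this]
      rfl
    rw [H.law_one measurableSet_Icc.compl] at h1
    rwa [measureReal_eq_zero_iff] at h1
  have hb := bterm h H.probζ hζs hmom
  obtain ⟨Ψ, hΨ'⟩ := ContinuousMap.exists_restrict_eq (isClosed_psd n)
    (⟨_, (Gn_cont hc n hn).domRestrict⟩ : C({r : Fin n → Fin n → ℝ | (Matrix.of r).PosSemidef ∧
      ∀ i j, |r i j| ≤ 1}, ℝ))
  have hEq : ∀ r : Fin n → Fin n → ℝ, (Matrix.of r).PosSemidef → (∀ i j, |r i j| ≤ 1) →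
      Ψ r = Gn c n r := by
    intro r h1 h2
    have := congrArg (fun f => f ⟨r, h1, h2⟩) hΨ'
    simpa using this
  have h1 := hΨ n Ψ Ψ.continuous
  have h2 : ∫ R, Gn c n (fun i k => R i k) ∂P = ∫ R, Ψ (fun i k => R i k) ∂P := by
    refine integral_congr_ae ?_
    filter_upwards [H.psd, H.symm, H.bdd] with R hp hs hbd
    refine (hEq _ ?_ fun i j => hbd i j).symm
    refine psd_of_quad _ (fun i j => hs i j) fun x => ?_
    have h3 := hp n (fun i => if hi : i < n then x ⟨i, hi⟩ else 0)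
    rw [Finset.sum_range] at h3
    simp only [Finset.sum_range] at h3
    refine h3.trans_eq ?_
    refine Finset.sum_congr rfl fun i _ => Finset.sum_congr rfl fun j _ => ?_
    simp
    ring
  rw [h2]
  have hNφ : Tendsto (fun j => N (φ j)) atTop atTop := hNt.comp hφ.tendsto_atTop
  have h4 : Tendsto (fun j => EG (cov (cw c (N (φ j)) 0) (N (φ j))) n (fun s => Ψ (ovm s)) -
      (FE (cov (cw c (N (φ j)) 1) (N (φ j))) - FE (cov (cw c (N (φ j)) 0) (N (φ j))))) atTop
      (𝓝 ((∫ R, Ψ (fun i k => R i k) ∂P) - (th c 1 - ∫ x, th c x ∂ζ) / 2)) :=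
    h1.sub (hb.comp hNφ)
  have h5 : Tendsto (fun j => F + 1 / ((φ j : ℝ) + 1) + K1 / (N (φ j) : ℝ) + K2 / (N (φ j) : ℝ))
      atTop (𝓝 (F + 0 + 0 + 0)) := by
    refine Tendsto.add (Tendsto.add (Tendsto.add tendsto_const_nhds ?_) ?_) ?_
    · exact tendsto_one_div_add_atTop_nhds_zero_nat.comp hφ.tendsto_atTop
    · exact (tendsto_const_div_atTop_nhds_zero_nat K1).comp hNφ
    · exact (tendsto_const_div_atTop_nhds_zero_nat K2).comp hNφ
  simp only [add_zero] at h5
  refine le_of_tendsto_of_tendsto' h4 h5 fun j => ?_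
  have h6 : EG (cov (cw c (N (φ j)) 0) (N (φ j))) n (fun s => Ψ (ovm s)) =
      EG (cov (cw c (N (φ j)) 0) (N (φ j))) n (fun s => Gn c n (ovm s)) := by
    congr 1
    funext s
    refine hEq _ ?_ fun i k => ov_abs_le _ _
    have h7 := ov_psd (N (φ j))
    exact h7.submatrix s
  have h8 := cav3 hc h.sum4 (N (φ j)) (hN1 _) n hn
  have h9 := (abs_le.1 (hK1 (N (φ j)) (hN1 _))).1
  have h10 := (abs_le.1 (hK2 (N (φ j)) (hN1 _))).2
  have h11 := hNF (φ j)
  rw [h6]
  linarith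

end Pool.Agent.OS
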