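import Pool.Agent.LibMP0f946f.Fam

/-! TASK NEST: derivative of a nest of Guerra steps, and the resulting comparison theorem. -/

set_option autoImplicit false
open MeasureTheory ProbabilityTheory Real Filter Topology

namespace Pool.Agent.OS

variable {E : Type*} [NormedAddCommGroup E] [NormedSpace ℝ E]

/-- a step: parameter `m`, direction `a`, kind `k` (`0`: constant, `1`: `sin θ`, `2`: `cos θ`) -/
structure Stp (E : Type*) where
  m : ℝ
  a : E
  k : Fin 3

noncomputable def rho (k : Fin 3) (θ : ℝ) : ℝ :=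
  if k = 0 then 1 else if k = 1 then Real.sin θ else Real.cos θ

noncomputable def eps (k : Fin 3) : ℝ := if k = 0 then 0 else if k = 1 then 1 else -1

noncomputable def nest (F : E → ℝ) (θ : ℝ) : List (Stp E) → E → ℝ
  | [] => F
  | (s :: L) => T s.m (rho s.k θ • s.a) (nest F θ L)

noncomputable def nestG (F : E → ℝ) (G : E → (E →L[ℝ] ℝ)) (θ : ℝ) : List (Stp E) → E → (E →L[ℝ] ℝ)
  | [] => G
  | (s :: L) => K s.m (rho s.k θ • s.a) (nest F θ L) (nestG F G θ L)

/-- evaluation of a bilinear form at `(a,a)` -/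
noncomputable def ev (a : E) : (E →L[ℝ] E →L[ℝ] ℝ) →L[ℝ] ℝ :=
  (ContinuousLinearMap.apply ℝ ℝ a).comp (ContinuousLinearMap.apply ℝ (E →L[ℝ] ℝ) a)

/-- the expression `W`: with `sin θ cos θ W` the derivative of the nest -/
noncomputable def Wn (F : E → ℝ) (G : E → (E →L[ℝ] ℝ)) (S : E → (E →L[ℝ] E →L[ℝ] ℝ)) (θ : ℝ) :
    List (Stp E) → ((E →L[ℝ] E →L[ℝ] ℝ) →L[ℝ] ℝ) → ℝ → E → ℝ
  | [], A, m => fun x => A (S x + m • (G x).smulRight (G x))
  | (s :: L), A, m => fun x =>
      -(s.m - m) * A ((nestG F G θ (s :: L) x).smulRight (nestG F G θ (s :: L) x))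
      + K s.m (rho s.k θ • s.a) (nest F θ L) (Wn F G S θ L (A + eps s.k • ev s.a) s.m) x

/-- static `C²` function with bounded derivatives -/
structure Stat (F : E → ℝ) (G : E → (E →L[ℝ] ℝ)) (S : E → (E →L[ℝ] E →L[ℝ] ℝ)) : Prop where
  contS : Continuous S
  bound : ∃ B, ∀ x, ‖G x‖ ≤ B ∧ ‖S x‖ ≤ B
  derivF : ∀ x, HasFDerivAt F (G x) x
  derivG : ∀ x, HasFDerivAt G (S x) x

/-! ### auxiliary facts -/

theorem rho_deriv (k : Fin 3) : ∃ r' : ℝ → ℝ, (∀ θ, HasDerivAt (rho k) (r' θ) θ) ∧ Continuous r' ∧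
    (∃ B, ∀ θ, |rho k θ| ≤ B ∧ |r' θ| ≤ B) ∧
    ∀ θ, rho k θ * r' θ = Real.sin θ * Real.cos θ * eps k := by
  fin_cases k
  · refine ⟨fun _ => 0, fun θ => ?_, continuous_const, ⟨1, fun θ => ?_⟩, fun θ => ?_⟩
    · have : rho 0 = fun _ => (1 : ℝ) := by funext θ; simp [rho]
      show HasDerivAt (rho 0) 0 θ
      rw [this]; exact hasDerivAt_const θ 1
    · simp [rho]
    · simp [rho, eps]
  · refine ⟨Real.cos, fun θ => ?_, Real.continuous_cos, ⟨1, fun θ => ?_⟩, fun θ => ?_⟩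
    · have : rho 1 = Real.sin := by funext θ; simp [rho]
      show HasDerivAt (rho 1) _ θ
      rw [this]; exact Real.hasDerivAt_sin θ
    · refine ⟨?_, Real.abs_cos_le_one θ⟩
      have : rho 1 θ = Real.sin θ := by simp [rho]
      show |rho 1 θ| ≤ 1
      rw [this]; exact Real.abs_sin_le_one θ
    · simp [rho, eps]
  · refine ⟨fun θ => - Real.sin θ, fun θ => ?_, Real.continuous_sin.neg, ⟨1, fun θ => ?_⟩,
      fun θ => ?_⟩
    · have : rho 2 = Real.cos := by funext θ; simp [rho]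
      show HasDerivAt (rho 2) _ θ
      rw [this]; exact Real.hasDerivAt_cos θ
    · have : rho 2 θ = Real.cos θ := by simp [rho]
      show |rho 2 θ| ≤ 1 ∧ |- Real.sin θ| ≤ 1
      rw [this, abs_neg]; exact ⟨Real.abs_cos_le_one θ, Real.abs_sin_le_one θ⟩
    · have h1 : rho 2 θ = Real.cos θ := by simp [rho]
      have h2 : eps 2 = -1 := by simp [eps]
      show rho 2 θ * (- Real.sin θ) = Real.sin θ * Real.cos θ * eps 2
      rw [h1, h2]; ring

/-- second derivative of the nest -/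
noncomputable def nestS (F : E → ℝ) (G : E → (E →L[ℝ] ℝ)) (S : E → (E →L[ℝ] E →L[ℝ] ℝ)) (θ : ℝ) :
    List (Stp E) → E → (E →L[ℝ] E →L[ℝ] ℝ)
  | [] => S
  | (s :: L) => fun x =>
      K s.m (rho s.k θ • s.a) (nest F θ L)
        (fun y => nestS F G S θ L y + s.m • (nestG F G θ L y).smulRight (nestG F G θ L y)) x
      - s.m • (K s.m (rho s.k θ • s.a) (nest F θ L) (nestG F G θ L) x).smulRight
          (K s.m (rho s.k θ • s.a) (nest F θ L) (nestG F G θ L) x)

/-- the expression `N` with `sin θ cos θ N` the derivative of the nest -/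
noncomputable def nestN (F : E → ℝ) (G : E → (E →L[ℝ] ℝ)) (S : E → (E →L[ℝ] E →L[ℝ] ℝ)) (θ : ℝ) :
    List (Stp E) → E → ℝ
  | [] => fun _ => 0
  | (s :: L) => K s.m (rho s.k θ • s.a) (nest F θ L)
        (fun x => nestN F G S θ L x + eps s.k *
          (nestS F G S θ L x s.a s.a + s.m * (nestG F G θ L x s.a) ^ 2))

theorem K_smul_real (m : ℝ) (a : E) (X : E → ℝ) (c : ℝ) (φ : E → ℝ) (x : E) :
    K m a X (fun y => c * φ y) x = c * K m a X φ x := by
  unfold K
  simp only [smul_eq_mul]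
  have : ∫ g, Real.exp (m * X (x + g • a)) * (c * φ (x + g • a)) ∂γ =
      c * ∫ g, Real.exp (m * X (x + g • a)) * φ (x + g • a) ∂γ := by
    rw [← integral_const_mul]
    congr 1
    funext g
    ring
  rw [this]; ring

/-! instances and norm facts for iterated spaces of continuous linear maps -/

instance contAdd_bil : ContinuousAdd (E →L[ℝ] E →L[ℝ] ℝ) :=
  let _ : SeminormedAddCommGroup (E →L[ℝ] E →L[ℝ] ℝ) := inferInstance
  SeminormedAddCommGroup.toIsTopologicalAddGroup.toContinuousAdd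

theorem clm_bd (A : (E →L[ℝ] E →L[ℝ] ℝ) →L[ℝ] ℝ) : ∃ C : ℝ, 0 < C ∧ ∀ x, |A x| ≤ C * ‖x‖ :=
  @ContinuousLinearMap.bound ℝ ℝ (E →L[ℝ] E →L[ℝ] ℝ) ℝ _ _ _ _ _ _ (RingHom.id ℝ) _ A

theorem norm_smul_bil (m : ℝ) (B : E →L[ℝ] E →L[ℝ] ℝ) : ‖m • B‖ ≤ |m| * ‖B‖ := by
  refine ContinuousLinearMap.opNorm_le_bound _ (by positivity) fun x => ?_
  have e : (m • B) x = m • B x := rfl
  rw [e, norm_smul, Real.norm_eq_abs, mul_assoc]
  exact mul_le_mul_of_nonneg_left (B.le_opNorm x) (abs_nonneg m)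

theorem fam_nest {F : E → ℝ} {G : E → (E →L[ℝ] ℝ)} {S : E → (E →L[ℝ] E →L[ℝ] ℝ)}
    (h : Stat F G S) (L : List (Stp E)) :
    Fam (fun θ => nest F θ L) (fun θ x => Real.sin θ * Real.cos θ * nestN F G S θ L x)
      (fun θ => nestG F G θ L) (fun θ => nestS F G S θ L) := by
  induction L with
  | nil =>
    obtain ⟨B, hB⟩ := h.bound
    have cG : Continuous G := continuous_iff_continuousAt.2 fun x => (h.derivG x).continuousAt
    refine ⟨?_, ?_, ?_, ⟨B, fun θ x => ⟨?_, (hB x).1, (hB x).2⟩⟩, fun θ x => ?_, fun θ x => h.derivG x⟩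
    · simp only [nestN, mul_zero]; exact continuous_const
    · exact cG.comp continuous_snd
    · exact h.contS.comp continuous_snd
    · simp only [nestN, mul_zero, abs_zero]
      exact le_trans (norm_nonneg _) (hB x).1
    · have h1 : HasFDerivAt (fun p : ℝ × E => F p.2) ((G x).comp (ContinuousLinearMap.snd ℝ ℝ E))
          (θ, x) := by
        have := (h.derivF x)
        exact HasFDerivAt.comp (𝕜 := ℝ) (θ, x) this hasFDerivAt_snd
      simpa [nest, nestN, nestG] using h1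
  | cons s L ih =>
    obtain ⟨r', h1, h2, h3, h4⟩ := rho_deriv s.k
    have key := Fam.step ih s.m s.a (rho s.k) r' h1 h2 h3
    have e1 : (fun θ x => Real.sin θ * Real.cos θ * nestN F G S θ (s :: L) x) =
        (fun θ => K s.m (rho s.k θ • s.a) (nest F θ L)
        (fun x => Real.sin θ * Real.cos θ * nestN F G S θ L x + rho s.k θ * r' θ *
          (nestS F G S θ L x s.a s.a + s.m * (nestG F G θ L x s.a) ^ 2))) := by
      funext θ x
      simp only [nestN]
      rw [← K_smul_real]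
      congr 1
      funext y
      rw [h4]; ring
    rw [e1]
    exact key

theorem Fam.fix_cont {X J : ℝ → E → ℝ} {G : ℝ → E → (E →L[ℝ] ℝ)}
    {S : ℝ → E → (E →L[ℝ] E →L[ℝ] ℝ)} (h : Fam X J G S) (θ : ℝ) : Continuous (X θ) := by
  have : Continuous (fun p : ℝ × E => X p.1 p.2) :=
    continuous_iff_continuousAt.2 fun p => (h.derivX p.1 p.2).continuousAt
  exact this.comp (continuous_const.prodMk continuous_id)

theorem Fam.fix_deriv {X J : ℝ → E → ℝ} {G : ℝ → E → (E →L[ℝ] ℝ)}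
    {S : ℝ → E → (E →L[ℝ] E →L[ℝ] ℝ)} (h : Fam X J G S) (θ : ℝ) (x : E) :
    HasFDerivAt (X θ) (G θ x) x := by
  have h1 : HasFDerivAt (fun y : E => ((θ, y) : ℝ × E)) (ContinuousLinearMap.inr ℝ ℝ E) x :=
    hasFDerivAt_prodMk_right θ x
  have h2 := HasFDerivAt.comp (𝕜 := ℝ) x (h.derivX θ x) h1
  have e : ((J θ x • ContinuousLinearMap.fst ℝ ℝ E + (G θ x).comp (ContinuousLinearMap.snd ℝ ℝ E)).comp
      (ContinuousLinearMap.inr ℝ ℝ E)) = G θ x := by
    ext v; simp
  rw [e] at h2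
  exact h2

theorem Fam.fix_lip {X J : ℝ → E → ℝ} {G : ℝ → E → (E →L[ℝ] ℝ)}
    {S : ℝ → E → (E →L[ℝ] E →L[ℝ] ℝ)} (h : Fam X J G S) (θ : ℝ) :
    ∃ B, ∀ x y, |X θ x - X θ y| ≤ B * ‖x - y‖ := by
  obtain ⟨B, hB⟩ := h.bound
  refine ⟨B, fun x y => ?_⟩
  have := Convex.norm_image_sub_le_of_norm_hasFDerivWithin_le (𝕜 := ℝ) (f := X θ) (f' := G θ)
    (s := Set.univ) (C := B) (x := y) (y := x)
    (fun z _ => (h.fix_deriv θ z).hasFDerivWithinAt) (fun z _ => (hB θ z).2.1) convex_univ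
    (Set.mem_univ _) (Set.mem_univ _)
  simpa [Real.norm_eq_abs] using this

/-- exponential integrability for the standard Gaussian -/
theorem int_exp_abs (c : ℝ) : Integrable (fun g : ℝ => Real.exp (c * |g|)) γ := by
  have h1 : Integrable (fun g : ℝ => Real.exp (c * g)) γ := integrable_exp_mul_gaussianReal c
  have h2 : Integrable (fun g : ℝ => Real.exp (-c * g)) γ := integrable_exp_mul_gaussianReal (-c)
  refine (h1.add h2).mono' ?_ ?_
  · exact (Real.continuous_exp.comp (continuous_const.mul continuous_abs)).aestronglyMeasurable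
  · refine ae_of_all _ fun g => ?_
    rw [Real.norm_eq_abs, abs_of_pos (Real.exp_pos _)]
    simp only [Pi.add_apply]
    rcases le_total 0 g with hg | hg
    · rw [abs_of_nonneg hg]; linarith [Real.exp_pos (-c * g)]
    · rw [abs_of_nonpos hg]
      have : c * -g = -c * g := by ring
      rw [this]; linarith [Real.exp_pos (c * g)]

theorem K_num_cont {V : Type*} [NormedAddCommGroup V] [NormedSpace ℝ V] {X : E → ℝ}
    (hX : Continuous X) (hL : ∃ B, ∀ x y, |X x - X y| ≤ B * ‖x - y‖) {φ : E → V}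
    (hφ : Continuous φ) (hb : ∃ B, ∀ x, ‖φ x‖ ≤ B) (m : ℝ) (a : E) :
    Continuous (fun x => ∫ g, Real.exp (m * X (x + g • a)) • φ (x + g • a) ∂γ) := by
  obtain ⟨B0, hB0⟩ := hL
  obtain ⟨C0, hC0⟩ := hb
  set B := |B0| with hBdef
  have hB : ∀ x y, |X x - X y| ≤ B * ‖x - y‖ := fun x y =>
    (hB0 x y).trans (mul_le_mul_of_nonneg_right (le_abs_self _) (norm_nonneg _))
  have hBn : 0 ≤ B := abs_nonneg _
  have hC0n : 0 ≤ |C0| := abs_nonneg _
  refine continuous_iff_continuousAt.2 fun x0 => ?_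
  refine continuousAt_of_dominated (bound := fun g : ℝ =>
    Real.exp (|m| * (|X x0| + B)) * |C0| * Real.exp (|m| * B * ‖a‖ * |g|)) ?_ ?_ ?_ ?_
  · refine Filter.Eventually.of_forall fun x => ?_
    have c1 : Continuous (fun g : ℝ => x + g • a) := by fun_prop
    exact ((Real.continuous_exp.comp (continuous_const.mul (hX.comp c1))).smul
      (hφ.comp c1)).aestronglyMeasurable
  · have : ∀ᶠ x in 𝓝 x0, ‖x - x0‖ < 1 := by
      have := Metric.ball_mem_nhds x0 one_pos
      filter_upwards [this] with x hx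
      rwa [Metric.mem_ball, dist_eq_norm] at hx
    filter_upwards [this] with x hx
    refine ae_of_all _ fun g => ?_
    rw [norm_smul, Real.norm_eq_abs, abs_of_pos (Real.exp_pos _)]
    have h1 : |X (x + g • a)| ≤ |X x0| + B + B * ‖a‖ * |g| := by
      have h2 := hB (x + g • a) x0
      have h3 : ‖x + g • a - x0‖ ≤ 1 + |g| * ‖a‖ := by
        have : x + g • a - x0 = (x - x0) + g • a := by abel
        rw [this]
        refine (norm_add_le _ _).trans ?_
        rw [norm_smul, Real.norm_eq_abs]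
        linarith
      have h4 : |X (x + g • a)| ≤ |X x0| + |X (x + g • a) - X x0| := by
        have := abs_add_le (X x0) (X (x + g • a) - X x0)
        simpa using this
      have h5 : B * ‖x + g • a - x0‖ ≤ B * (1 + |g| * ‖a‖) := mul_le_mul_of_nonneg_left h3 hBn
      nlinarith [h2, h4, h5]
    have h6 : m * X (x + g • a) ≤ |m| * (|X x0| + B) + |m| * B * ‖a‖ * |g| := by
      calc m * X (x + g • a) ≤ |m * X (x + g • a)| := le_abs_self _
        _ = |m| * |X (x + g • a)| := abs_mul _ _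
        _ ≤ |m| * (|X x0| + B + B * ‖a‖ * |g|) := mul_le_mul_of_nonneg_left h1 (abs_nonneg _)
        _ = _ := by ring
    have h7 : Real.exp (m * X (x + g • a)) ≤
        Real.exp (|m| * (|X x0| + B)) * Real.exp (|m| * B * ‖a‖ * |g|) := by
      rw [← Real.exp_add]; exact Real.exp_le_exp.2 h6
    have h8 : ‖φ (x + g • a)‖ ≤ |C0| := (hC0 _).trans (le_abs_self _)
    calc Real.exp (m * X (x + g • a)) * ‖φ (x + g • a)‖
        ≤ (Real.exp (|m| * (|X x0| + B)) * Real.exp (|m| * B * ‖a‖ * |g|)) * |C0| :=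
          mul_le_mul h7 h8 (norm_nonneg _) (by positivity)
      _ = _ := by ring
  · exact (int_exp_abs _).const_mul _
  · refine ae_of_all _ fun g => ?_
    have c1 : Continuous (fun x : E => x + g • a) := by fun_prop
    exact ((Real.continuous_exp.comp (continuous_const.mul (hX.comp c1))).smul
      (hφ.comp c1)).continuousAt

theorem K_cont {V : Type*} [NormedAddCommGroup V] [NormedSpace ℝ V] {X : E → ℝ}
    (hX : Continuous X) (hL : ∃ B, ∀ x y, |X x - X y| ≤ B * ‖x - y‖) {φ : E → V}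
    (hφ : Continuous φ) (hb : ∃ B, ∀ x, ‖φ x‖ ≤ B) (m : ℝ) (a : E) :
    Continuous (K m a X φ) := by
  have h1 : Continuous (Zt m a X) := by
    have := K_num_cont hX hL (φ := fun _ : E => (1 : ℝ)) continuous_const ⟨1, fun x => by simp⟩ m a
    have e : Zt m a X = fun x => ∫ g, Real.exp (m * X (x + g • a)) • (fun _ : E => (1 : ℝ)) (x + g • a) ∂γ := by
      funext x; simp [Zt]
    rw [e]; exact this
  have h2 : ∀ x, Zt m a X x ≠ 0 := fun x => (Zt_pos hX hL m a x).ne'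
  unfold K
  exact (h1.inv₀ h2).smul (K_num_cont hX hL hφ hb m a)

theorem K_bdd {X : E → ℝ}
    (hX : Continuous X) (hL : ∃ B, ∀ x y, |X x - X y| ≤ B * ‖x - y‖) {φ : E → ℝ}
    (hφ : Continuous φ) (hb : ∃ B, ∀ x, |φ x| ≤ B) (m : ℝ) (a : E) :
    ∃ B, ∀ x, |K m a X φ x| ≤ B := by
  obtain ⟨B, hB⟩ := hb
  refine ⟨B, fun x => ?_⟩
  have hc : ∀ c : ℝ, ∃ B, ∀ x : E, |(fun _ : E => c) x| ≤ B := fun c => ⟨|c|, fun x => le_rfl⟩
  have h1 := K_mono hX hL hφ ⟨B, hB⟩ (ψ := fun _ => B) continuous_const (hc B)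
    (fun x => (abs_le.1 (hB x)).2) m a x
  have h2 := K_mono hX hL (φ := fun _ => -B) (ψ := φ) continuous_const (hc (-B)) hφ ⟨B, hB⟩
    (fun x => (abs_le.1 (hB x)).1) m a x
  rw [K_const hX hL] at h1 h2
  exact abs_le.2 ⟨h2, h1⟩

/-- `G ⊗ G + S` is continuous and bounded -/
theorem quad_cont {G : E → (E →L[ℝ] ℝ)} {S : E → (E →L[ℝ] E →L[ℝ] ℝ)} (hG : Continuous G)
    (hS : Continuous S) (m : ℝ) : Continuous (fun y => S y + m • (G y).smulRight (G y)) := by
  have : Continuous (fun y => (G y).smulRight (G y)) := by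
    have h := (ContinuousLinearMap.smulRightL ℝ E (E →L[ℝ] ℝ))
    have h1 : Continuous (fun y => (ContinuousLinearMap.smulRightL ℝ E (E →L[ℝ] ℝ)) (G y) (G y)) :=
      ((ContinuousLinearMap.smulRightL ℝ E (E →L[ℝ] ℝ)).continuous.comp hG).clm_apply hG
    exact h1
  exact hS.add (this.const_smul m)

theorem quad_bdd {G : E → (E →L[ℝ] ℝ)} {S : E → (E →L[ℝ] E →L[ℝ] ℝ)} 
    (hb : ∃ B, ∀ x, ‖G x‖ ≤ B ∧ ‖S x‖ ≤ B) (m : ℝ) :
    ∃ B, ∀ y, ‖S y + m • (G y).smulRight (G y)‖ ≤ B := by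
  obtain ⟨B, hB⟩ := hb
  refine ⟨B + |m| * (B * B), fun y => ?_⟩
  have e1 : ‖S y + m • (G y).smulRight (G y)‖ ≤ ‖S y‖ + ‖m • (G y).smulRight (G y)‖ :=
    norm_add_le (S y) (m • (G y).smulRight (G y))
  have e2 := norm_smul_bil m ((G y).smulRight (G y))
  rw [ContinuousLinearMap.norm_smulRight_apply] at e2
  have h1 := (hB y).1
  have h2 := (hB y).2
  have h0 : 0 ≤ ‖G y‖ := norm_nonneg _
  have h3 : ‖G y‖ * ‖G y‖ ≤ B * B := mul_le_mul h1 h1 h0 (h0.trans h1)
  have := mul_le_mul_of_nonneg_left h3 (abs_nonneg m)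
  linarith

theorem ev_quad (a : E) (G : E →L[ℝ] ℝ) (S : E →L[ℝ] E →L[ℝ] ℝ) (m : ℝ) :
    ev a (S + m • G.smulRight G) = S a a + m * (G a) ^ 2 := by
  simp [ev, pow_two]

theorem nestN_nice {F : E → ℝ} {G : E → (E →L[ℝ] ℝ)} {S : E → (E →L[ℝ] E →L[ℝ] ℝ)}
    (h : Stat F G S) (θ : ℝ) (L : List (Stp E)) :
    Continuous (nestN F G S θ L) ∧ ∃ B, ∀ x, |nestN F G S θ L x| ≤ B := by
  induction L with
  | nil => exact ⟨continuous_const, 0, fun x => by simp [nestN]⟩
  | cons s L ih =>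
    have f := fam_nest h L
    obtain ⟨B, hB⟩ := f.bound
    have cG : Continuous (nestG F G θ L) :=
      f.contG.comp (continuous_const.prodMk continuous_id : Continuous fun x : E => ((θ, x) : ℝ × E))
    have cS : Continuous (nestS F G S θ L) :=
      f.contS.comp (continuous_const.prodMk continuous_id : Continuous fun x : E => ((θ, x) : ℝ × E))
    have hGS : ∃ B, ∀ x, ‖nestG F G θ L x‖ ≤ B ∧ ‖nestS F G S θ L x‖ ≤ B := ⟨B, fun x => (hB θ x).2⟩
    obtain ⟨c1, B1, hB1⟩ := ih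
    obtain ⟨B2, hB2⟩ := quad_bdd hGS s.m
    have e : (fun x => nestN F G S θ L x + eps s.k *
          (nestS F G S θ L x s.a s.a + s.m * (nestG F G θ L x s.a) ^ 2)) =
        fun x => nestN F G S θ L x + eps s.k * ev s.a (nestS F G S θ L x + s.m •
          (nestG F G θ L x).smulRight (nestG F G θ L x)) := by
      funext x; rw [ev_quad]
    have c2 : Continuous (fun x => nestN F G S θ L x + eps s.k *
          (nestS F G S θ L x s.a s.a + s.m * (nestG F G θ L x s.a) ^ 2)) := by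
      rw [e]
      exact c1.add (continuous_const.mul ((ev s.a).continuous.comp (quad_cont cG cS s.m)))
    have b2 : ∃ B, ∀ x, |nestN F G S θ L x + eps s.k *
          (nestS F G S θ L x s.a s.a + s.m * (nestG F G θ L x s.a) ^ 2)| ≤ B := by
      obtain ⟨C, hC, hC'⟩ := clm_bd (ev s.a)
      refine ⟨B1 + |eps s.k| * (C * B2), fun x => ?_⟩
      rw [← ev_quad]
      refine (abs_add_le _ _).trans (add_le_add (hB1 x) ?_)
      rw [abs_mul]
      refine mul_le_mul_of_nonneg_left ?_ (abs_nonneg _)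
      exact (hC' _).trans (mul_le_mul_of_nonneg_left (hB2 x) hC.le)
    exact ⟨K_cont (f.fix_cont θ) (f.fix_lip θ) c2 (by simpa [Real.norm_eq_abs] using b2) _ _,
      K_bdd (f.fix_cont θ) (f.fix_lip θ) c2 b2 _ _⟩

theorem Wn_eq {F : E → ℝ} {G : E → (E →L[ℝ] ℝ)} {S : E → (E →L[ℝ] E →L[ℝ] ℝ)}
    (h : Stat F G S) (θ : ℝ) (L : List (Stp E)) :
    ∀ (A : (E →L[ℝ] E →L[ℝ] ℝ) →L[ℝ] ℝ) (m : ℝ), Wn F G S θ L A m = fun x =>
      nestN F G S θ L x + A (nestS F G S θ L x + m • (nestG F G θ L x).smulRight (nestG F G θ L x)) := by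
  induction L with
  | nil => intro A m; funext x; simp [Wn, nestN, nestS, nestG]
  | cons s L ih =>
    intro A m
    funext x
    have f := fam_nest h L
    obtain ⟨B, hB⟩ := f.bound
    have cG : Continuous (nestG F G θ L) :=
      f.contG.comp (continuous_const.prodMk continuous_id : Continuous fun x : E => ((θ, x) : ℝ × E))
    have cS : Continuous (nestS F G S θ L) :=
      f.contS.comp (continuous_const.prodMk continuous_id : Continuous fun x : E => ((θ, x) : ℝ × E))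
    have hGS : ∃ B, ∀ x, ‖nestG F G θ L x‖ ≤ B ∧ ‖nestS F G S θ L x‖ ≤ B := ⟨B, fun x => (hB θ x).2⟩
    have hX := f.fix_cont θ
    have hL := f.fix_lip θ
    have cQ := quad_cont cG cS s.m
    have bQ := quad_bdd hGS s.m
    obtain ⟨cN, B1, hB1⟩ := nestN_nice h θ L
    have hbN : ∃ B, ∀ x, ‖nestN F G S θ L x‖ ≤ B := ⟨B1, fun x => by
      rw [Real.norm_eq_abs]; exact hB1 x⟩
    have bA : ∀ A' : (E →L[ℝ] E →L[ℝ] ℝ) →L[ℝ] ℝ, ∃ B, ∀ y, ‖A' (nestS F G S θ L y + s.m •
          (nestG F G θ L y).smulRight (nestG F G θ L y))‖ ≤ B := by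
      intro A'
      obtain ⟨B2, hB2⟩ := bQ
      obtain ⟨C, hC, hC'⟩ := clm_bd A'
      exact ⟨C * B2, fun y => (hC' _).trans
        (mul_le_mul_of_nonneg_left (hB2 y) hC.le)⟩
    simp only [Wn]
    rw [ih]
    -- split `K` of the sum
    have e1 : (fun x => nestN F G S θ L x + (A + eps s.k • ev s.a) (nestS F G S θ L x + s.m •
          (nestG F G θ L x).smulRight (nestG F G θ L x))) =
        fun x => (nestN F G S θ L x + eps s.k *
          (nestS F G S θ L x s.a s.a + s.m * (nestG F G θ L x s.a) ^ 2)) +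
          A (nestS F G S θ L x + s.m • (nestG F G θ L x).smulRight (nestG F G θ L x)) := by
      funext y
      have e0 : ∀ z, (A + eps s.k • ev s.a) z = A z + eps s.k * ev s.a z := fun z => rfl
      rw [e0, ev_quad]
      ring
    have c2 : Continuous (fun x => nestN F G S θ L x + eps s.k *
          (nestS F G S θ L x s.a s.a + s.m * (nestG F G θ L x s.a) ^ 2)) := by
      have : (fun x => nestN F G S θ L x + eps s.k *
          (nestS F G S θ L x s.a s.a + s.m * (nestG F G θ L x s.a) ^ 2)) =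
        fun x => nestN F G S θ L x + eps s.k * ev s.a (nestS F G S θ L x + s.m •
          (nestG F G θ L x).smulRight (nestG F G θ L x)) := by
        funext x; rw [ev_quad]
      rw [this]
      exact cN.add (continuous_const.mul ((ev s.a).continuous.comp cQ))
    have b2 : ∃ B, ∀ x, ‖nestN F G S θ L x + eps s.k *
          (nestS F G S θ L x s.a s.a + s.m * (nestG F G θ L x s.a) ^ 2)‖ ≤ B := by
      obtain ⟨B3, hB3⟩ := bA (ev s.a)
      refine ⟨B1 + |eps s.k| * B3, fun x => ?_⟩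
      rw [← ev_quad]
      refine (norm_add_le _ _).trans (add_le_add (by rw [Real.norm_eq_abs]; exact hB1 x) ?_)
      rw [norm_mul, Real.norm_eq_abs (eps s.k)]
      exact mul_le_mul_of_nonneg_left (hB3 x) (abs_nonneg _)
    have cA : Continuous (fun x => A (nestS F G S θ L x + s.m •
        (nestG F G θ L x).smulRight (nestG F G θ L x))) := A.continuous.comp cQ
    rw [e1, K_add hX hL c2 b2 cA (bA A)]
    have hk := K_clm (V := E →L[ℝ] E →L[ℝ] ℝ) (W := ℝ) A hX hL cQ bQ s.m (rho s.k θ • s.a) x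
    rw [← hk]
    simp only [nestN, nestS, nestG]
    have lA1 : ∀ u v : E →L[ℝ] E →L[ℝ] ℝ, A (u + v) = A u + A v := fun u v => map_add A u v
    have lA2 : ∀ u v : E →L[ℝ] E →L[ℝ] ℝ, A (u - v) = A u - A v := fun u v => map_sub A u v
    have lA3 : ∀ (r : ℝ) (u : E →L[ℝ] E →L[ℝ] ℝ), A (r • u) = r * A u := fun r u => by
      rw [map_smul A r u, smul_eq_mul]
    rw [lA1, lA2, lA3, lA3]
    ring

/-- Paper proof: by induction on `L` with `Fam.step`, the nest is a `Fam` with `∂_θ = sin θ cos θ N_L`,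
`N_[] = 0`, `N_{s::L} = K[N_L + ε_s Q_{s.m}(X_L; a a)]`, where `Q_m(X;A) = A (∂²X + m ∂X ⊗ ∂X)`.  Claim
`N_L + Q_m(X_L;A) = Wn L A m` for all `A, m`: from the formula for the second derivative,
`Q_m(X_{s::L};A) = K[Q_{s.m}(X_L;A)] - (s.m - m) A(∂X_{s::L} ⊗ ∂X_{s::L})`.  Then `A = 0`. -/
theorem nest_deriv {F : E → ℝ} {G : E → (E →L[ℝ] ℝ)} {S : E → (E →L[ℝ] E →L[ℝ] ℝ)}
    (h : Stat F G S) (L : List (Stp E)) (m : ℝ) (x : E) (θ : ℝ) :
    HasDerivAt (fun θ => nest F θ L x) (Real.sin θ * Real.cos θ * Wn F G S θ L 0 m x) θ := by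
  have f := fam_nest h L
  rw [Wn_eq h]
  have h1 : HasFDerivAt (fun t : ℝ => ((t, x) : ℝ × E)) (ContinuousLinearMap.inl ℝ ℝ E) θ :=
    hasFDerivAt_prodMk_left θ x
  have h2 := HasFDerivAt.comp (𝕜 := ℝ) θ (f.derivX θ x) h1
  have h3 : HasDerivAt ((fun p : ℝ × E => nest F p.1 L p.2) ∘ fun t => (t, x)) _ θ := h2.hasDerivAt
  have e : (fun θ => nest F θ L x) = ((fun p : ℝ × E => nest F p.1 L p.2) ∘ fun t => (t, x)) := rfl
  rw [e]
  refine h3.congr_deriv ?_
  simp

/-- the gradient of the nest stays in every closed convex set of the form below -/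
theorem nestG_mem {F : E → ℝ} {G : E → (E →L[ℝ] ℝ)} {S : E → (E →L[ℝ] E →L[ℝ] ℝ)}
    (h : Stat F G S) (v : E) (lo : ℝ) (hlo : ∀ x, lo ≤ G x v) (θ : ℝ) (L : List (Stp E)) (x : E) :
    lo ≤ nestG F G θ L x v := by
  induction L generalizing x with
  | nil => exact hlo x
  | cons s L ih =>
    have f := fam_nest h L
    obtain ⟨B, hB⟩ := f.bound
    have cG : Continuous (nestG F G θ L) :=
      f.contG.comp (continuous_const.prodMk continuous_id : Continuous fun x : E => ((θ, x) : ℝ × E))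
    have hX := f.fix_cont θ
    have hL := f.fix_lip θ
    have e := K_clm (ContinuousLinearMap.apply ℝ ℝ v) hX hL cG ⟨B, fun x => (hB θ x).2.1⟩ s.m
      (rho s.k θ • s.a) x
    have e' : nestG F G θ (s :: L) x v =
        K s.m (rho s.k θ • s.a) (nest F θ L) (fun y => nestG F G θ L y v) x := by
      simpa [nestG] using e
    rw [e']
    have hc : ∀ c : ℝ, ∃ B, ∀ x : E, |(fun _ : E => c) x| ≤ B := fun c => ⟨|c|, fun x => le_rfl⟩
    have h2 := K_mono hX hL (φ := fun _ => lo) (ψ := fun y => nestG F G θ L y v) continuous_const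
      (hc lo) ((ContinuousLinearMap.apply ℝ ℝ v).continuous.comp cG)
      ⟨B * ‖v‖, fun y => ((nestG F G θ L y).le_opNorm v).trans
        (mul_le_mul_of_nonneg_right (hB θ y).2.1 (norm_nonneg _))⟩ ih s.m (rho s.k θ • s.a) x
    rwa [K_const hX hL] at h2

/-- upper bounds for `Wn`: `WB P L A m c` implies `Wn ≤ c` when all gradients of the nest lie in `P` -/
inductive WB (G : E → (E →L[ℝ] ℝ)) (S : E → (E →L[ℝ] E →L[ℝ] ℝ)) (P : Set (E →L[ℝ] ℝ)) :
    List (Stp E) → ((E →L[ℝ] E →L[ℝ] ℝ) →L[ℝ] ℝ) → ℝ → ℝ → Prop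
  | nil (A m c) (h : ∀ x, A (S x + m • (G x).smulRight (G x)) ≤ c) : WB G S P [] A m c
  | same (s L A c) (h : WB G S P L (A + eps s.k • ev s.a) s.m c) : WB G S P (s :: L) A s.m c
  | cons (s L A m c κ) (hm : m ≤ s.m) (hκ : ∀ p ∈ P, - A (p.smulRight p) ≤ κ)
      (h : WB G S P L (A + eps s.k • ev s.a) s.m c) : WB G S P (s :: L) A m (c + (s.m - m) * κ)

theorem Wn_nice {F : E → ℝ} {G : E → (E →L[ℝ] ℝ)} {S : E → (E →L[ℝ] E →L[ℝ] ℝ)}
    (h : Stat F G S) (θ : ℝ) (L : List (Stp E)) (A : (E →L[ℝ] E →L[ℝ] ℝ) →L[ℝ] ℝ) (m : ℝ) :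
    Continuous (Wn F G S θ L A m) ∧ ∃ B, ∀ x, |Wn F G S θ L A m x| ≤ B := by
  rw [Wn_eq h]
  have f := fam_nest h L
  obtain ⟨B, hB⟩ := f.bound
  have cG : Continuous (nestG F G θ L) :=
    f.contG.comp (continuous_const.prodMk continuous_id : Continuous fun x : E => ((θ, x) : ℝ × E))
  have cS : Continuous (nestS F G S θ L) :=
    f.contS.comp (continuous_const.prodMk continuous_id : Continuous fun x : E => ((θ, x) : ℝ × E))
  have hGS : ∃ B, ∀ x, ‖nestG F G θ L x‖ ≤ B ∧ ‖nestS F G S θ L x‖ ≤ B := ⟨B, fun x => (hB θ x).2⟩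
  obtain ⟨cN, B1, hB1⟩ := nestN_nice h θ L
  obtain ⟨B2, hB2⟩ := quad_bdd hGS m
  obtain ⟨C, hC, hC'⟩ := clm_bd A
  refine ⟨cN.add (A.continuous.comp (quad_cont cG cS m)), B1 + C * B2, fun x => ?_⟩
  refine (abs_add_le _ _).trans (add_le_add (hB1 x) ?_)
  exact (hC' _).trans (mul_le_mul_of_nonneg_left (hB2 x) hC.le)

theorem Wn_le {F : E → ℝ} {G : E → (E →L[ℝ] ℝ)} {S : E → (E →L[ℝ] E →L[ℝ] ℝ)}
    (h : Stat F G S) (P : Set (E →L[ℝ] ℝ)) (θ : ℝ) (hP : ∀ L' x, nestG F G θ L' x ∈ P)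
    (L : List (Stp E)) (A : (E →L[ℝ] E →L[ℝ] ℝ) →L[ℝ] ℝ) (m c : ℝ) (hW : WB G S P L A m c) (x : E) :
    Wn F G S θ L A m x ≤ c := by
  have hc : ∀ c : ℝ, ∃ B, ∀ x : E, |(fun _ : E => c) x| ≤ B := fun c => ⟨|c|, fun x => le_rfl⟩
  induction hW generalizing x with
  | nil A m c h => exact h x
  | same s L A c hw ih =>
    have f := fam_nest h L
    have n := Wn_nice h θ L (A + eps s.k • ev s.a) s.m
    have h1 := K_mono (f.fix_cont θ) (f.fix_lip θ) n.1 n.2 (ψ := fun _ => c) continuous_const (hc c)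
      ih s.m (rho s.k θ • s.a) x
    rw [K_const (f.fix_cont θ) (f.fix_lip θ)] at h1
    simp only [Wn, sub_self, neg_zero, zero_mul, zero_add]
    exact h1
  | cons s L A m c κ hm hκ hw ih =>
    have f := fam_nest h L
    have n := Wn_nice h θ L (A + eps s.k • ev s.a) s.m
    have h1 := K_mono (f.fix_cont θ) (f.fix_lip θ) n.1 n.2 (ψ := fun _ => c) continuous_const (hc c)
      ih s.m (rho s.k θ • s.a) x
    rw [K_const (f.fix_cont θ) (f.fix_lip θ)] at h1
    have h2 := hκ _ (hP (s :: L) x)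
    have h3 := mul_le_mul_of_nonneg_left h2 (sub_nonneg.2 hm)
    simp only [Wn]
    linarith

/-- comparison: value at `θ = π/2` (the `cos` steps disappear) against the value at `θ = 0` -/
theorem nest_compare {F : E → ℝ} {G : E → (E →L[ℝ] ℝ)} {S : E → (E →L[ℝ] E →L[ℝ] ℝ)}
    (h : Stat F G S) (L : List (Stp E)) (m : ℝ) (x : E) (c : ℝ)
    (hW : ∀ θ ∈ Set.Ioo 0 (Real.pi / 2), Wn F G S θ L 0 m x ≤ c) :
    nest F (Real.pi / 2) L x ≤ nest F 0 L x + c / 2 := by
  have hd : ∀ θ : ℝ, HasDerivAt (fun θ => nest F θ L x - c / 2 * Real.sin θ ^ 2)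
      (Real.sin θ * Real.cos θ * Wn F G S θ L 0 m x - c / 2 * (2 * Real.sin θ * Real.cos θ)) θ := by
    intro θ
    have h1 := nest_deriv h L m x θ
    have h2 : HasDerivAt (fun θ : ℝ => c / 2 * Real.sin θ ^ 2)
        (c / 2 * (2 * Real.sin θ * Real.cos θ)) θ := by
      have := ((Real.hasDerivAt_sin θ).pow 2).const_mul (c / 2)
      simpa using this
    exact h1.sub h2
  have hanti : AntitoneOn (fun θ => nest F θ L x - c / 2 * Real.sin θ ^ 2)
      (Set.Icc 0 (Real.pi / 2)) := by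
    refine antitoneOn_of_deriv_nonpos (convex_Icc _ _)
      (fun θ _ => (hd θ).continuousAt.continuousWithinAt)
      (fun θ _ => (hd θ).differentiableAt.differentiableWithinAt) fun θ hθ => ?_
    rw [interior_Icc] at hθ
    rw [(hd θ).deriv]
    have h1 := hW θ hθ
    have hs : 0 ≤ Real.sin θ := Real.sin_nonneg_of_nonneg_of_le_pi hθ.1.le
      (by linarith [hθ.2, Real.pi_pos])
    have hcs : 0 ≤ Real.cos θ := Real.cos_nonneg_of_mem_Icc ⟨by linarith [hθ.1, Real.pi_pos], hθ.2.le⟩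
    have h2 : Real.sin θ * Real.cos θ * Wn F G S θ L 0 m x ≤ Real.sin θ * Real.cos θ * c :=
      mul_le_mul_of_nonneg_left h1 (mul_nonneg hs hcs)
    nlinarith
  have h1 := hanti (Set.left_mem_Icc.2 (by positivity)) (Set.right_mem_Icc.2 (by positivity))
    (by positivity)
  simp only [Real.sin_pi_div_two, Real.sin_zero] at h1
  linarith

end Pool.Agent.OS
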