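import Pool.Agent.LibMP0f946f.Superadd
import Pool.Agent.LibMP0f946f.DiffPt

/-! TASK REG: existence of regular near-critical models.

Paper proof.  Apply `exists_diff_point` to `Φ β =` limit of `FN (fun p => (β p)²)` (`FN_tendsto`; choose the limit, `0`
when it does not exist), `b 2 = √(1/2 + η/2)` and `r 2` so small that `1/2 < t² < 1/2 + η` on the box,
`b p = s 3^{-p}`, `r p = b p / 2` for `p ≥ 4` (`s` small: `(3/2)² s² 9^{-p} ≤ κ 8^{-p}`), `b p = r p = 0` for `p = 0, 1, 3`.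
`L p = 2 (|b p| + r p)`, `|β² - β'²| ≤ L |β - β'|`, `FN_lip` passes to the limit.  Convexity of `ξ` on `[-1,1]`:
`ξ'' ≥ 2 c_2 - ∑_{p ≥ 4} p (p-1) c_p ≥ 0`.  Convexity in each coordinate: `FN_convex` passes to the limit. -/

set_option autoImplicit false
open MeasureTheory ProbabilityTheory Real Filter Topology

namespace Pool.Agent.OS

/-- regular model: all `c p`, `p ∈ {2,4,5,6,…}`, are positive, `c 3 = 0`, and the limiting free energy is
differentiable in every `β_p = √(c p)` -/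
structure Reg (c d : ℕ → ℝ) : Prop where
  adm : Adm c
  sum4 : Summable (fun p : ℕ => (4:ℝ) ^ p * c p)
  pos : ∀ p : ℕ, (p = 2 ∨ 4 ≤ p) → 0 < c p
  c3 : c 3 = 0
  conv : ConvexOn ℝ (Set.Icc (-1) 1) (xi c)
  lim : ∀ p : ℕ, (p = 2 ∨ 4 ≤ p) → ∃ Φ : ℝ → ℝ,
    (∀ᶠ t in 𝓝 (Real.sqrt (c p)),
      Tendsto (FN (Function.update c p (t ^ 2))) atTop (𝓝 (Φ t))) ∧
    HasDerivAt Φ (d p) (Real.sqrt (c p))

namespace RegAux

theorem summable_geo {a M : ℝ} (ha0 : 0 ≤ a) (ha : a < 9) :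
    Summable (fun p : ℕ => a ^ p * (M / 9 ^ p)) := by
  have h : Summable (fun p : ℕ => M * (a / 9) ^ p) :=
    (summable_geometric_of_lt_one (by positivity) (by linarith)).mul_left M
  refine h.congr fun p => ?_
  rw [div_pow]; ring

theorem adm_of {c : ℕ → ℝ} {M : ℝ} (h0 : ∀ p, 0 ≤ c p) (hb : ∀ p, c p ≤ M / 9 ^ p)
    (c0 : c 0 = 0) (c1 : c 1 = 0) : Adm c := by
  refine ⟨h0, ?_, c0, c1⟩
  refine Summable.of_nonneg_of_le (fun p => mul_nonneg (by positivity) (h0 p)) (fun p => ?_)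
    (summable_geo (a := 2) (M := M) (by norm_num) (by norm_num))
  exact mul_le_mul_of_nonneg_left (hb p) (by positivity)

theorem sum4_of {c : ℕ → ℝ} {M : ℝ} (h0 : ∀ p, 0 ≤ c p) (hb : ∀ p, c p ≤ M / 9 ^ p) :
    Summable (fun p : ℕ => (4:ℝ) ^ p * c p) := by
  refine Summable.of_nonneg_of_le (fun p => mul_nonneg (by positivity) (h0 p)) (fun p => ?_)
    (summable_geo (a := 4) (M := M) (by norm_num) (by norm_num))
  exact mul_le_mul_of_nonneg_left (hb p) (by positivity)

/-- the conditions on the coefficients in the box -/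
structure Box (c : ℕ → ℝ) : Prop where
  nonneg : ∀ p, 0 ≤ c p
  c0 : c 0 = 0
  c1 : c 1 = 0
  c3 : c 3 = 0
  c2 : 1 / 2 ≤ c 2
  c2' : c 2 ≤ 2
  c4 : ∀ p, 4 ≤ p → c p ≤ 1 / 4 / 9 ^ p

theorem Box.bd {c : ℕ → ℝ} (h : Box c) (p : ℕ) : c p ≤ 200 / 9 ^ p := by
  rcases Nat.lt_or_ge p 4 with hp | hp
  · interval_cases p
    · rw [h.c0]; positivity
    · rw [h.c1]; positivity
    · have := h.c2'; norm_num; linarith
    · rw [h.c3]; positivity
  · refine (h.c4 p hp).trans ?_
    gcongr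
    norm_num

theorem Box.adm {c : ℕ → ℝ} (h : Box c) : Adm c := adm_of h.nonneg h.bd h.c0 h.c1

theorem le_two_pow (p : ℕ) : (p : ℝ) ≤ 2 ^ p := by
  exact_mod_cast (Nat.lt_two_pow_self (n := p)).le

theorem Box.xi2_nonneg {c : ℕ → ℝ} (h : Box c) {x : ℝ} (hx : |x| ≤ 1) : 0 ≤ xi2 c x := by
  have hs := h.adm.summable2
  have hf : Summable (fun p : ℕ => c p * (p * (p - 1) * x ^ (p - 2))) := by
    refine Summable.of_norm_bounded hs fun p => ?_
    rw [Real.norm_eq_abs, abs_mul, abs_mul, abs_of_nonneg (h.nonneg p),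
      abs_of_nonneg (nat_mul_pred_nonneg p), abs_pow]
    have h1 : |x| ^ (p - 2) ≤ 1 := pow_le_one₀ (abs_nonneg _) hx
    have h2 := nat_mul_pred_nonneg p
    have h3 := h.nonneg p
    have h4 : (p : ℝ) * ((p : ℝ) - 1) * |x| ^ (p - 2) ≤ (p : ℝ) * ((p : ℝ) - 1) := by
      simpa using mul_le_mul_of_nonneg_left h1 h2
    exact mul_le_mul_of_nonneg_left h4 h3
  have hg : Summable (fun p : ℕ => (if p = 2 then (1:ℝ) else 0) - 1 / 4 * (4 / 9) ^ p) := by
    refine Summable.sub ?_ ?_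
    · exact (hasSum_ite_eq 2 (1:ℝ)).summable
    · exact (summable_geometric_of_lt_one (by norm_num) (by norm_num)).mul_left _
  have hgs : ∑' p : ℕ, ((if p = 2 then (1:ℝ) else 0) - 1 / 4 * (4 / 9) ^ p) = 1 - 1 / 4 * (9 / 5) := by
    rw [Summable.tsum_sub (hasSum_ite_eq 2 (1:ℝ)).summable
      ((summable_geometric_of_lt_one (by norm_num) (by norm_num)).mul_left _), tsum_ite_eq,
      tsum_mul_left, tsum_geometric_of_lt_one (by norm_num) (by norm_num)]
    norm_num
  have hle : ∀ p : ℕ, (if p = 2 then (1:ℝ) else 0) - 1 / 4 * (4 / 9) ^ p ≤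
      c p * (p * (p - 1) * x ^ (p - 2)) := by
    intro p
    rcases Nat.lt_or_ge p 4 with hp | hp
    · interval_cases p
      · rw [h.c0]; norm_num
      · rw [h.c1]; norm_num
      · have := h.c2; norm_num; linarith
      · rw [h.c3]; norm_num
    · have hne : p ≠ 2 := by omega
      rw [if_neg hne, zero_sub]
      have h1 : |c p * (p * (p - 1) * x ^ (p - 2))| ≤ 1 / 4 * (4 / 9) ^ p := by
        rw [abs_mul, abs_mul, abs_of_nonneg (h.nonneg p),
          abs_of_nonneg (nat_mul_pred_nonneg p), abs_pow]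
        have h1 : |x| ^ (p - 2) ≤ 1 := pow_le_one₀ (abs_nonneg _) hx
        have h2 := nat_mul_pred_nonneg p
        have h3 : (p : ℝ) * ((p : ℝ) - 1) ≤ 4 ^ p := by
          have a1 := le_two_pow p
          have a2 : (p : ℝ) - 1 ≤ 2 ^ p := by linarith
          have a3 : (0:ℝ) ≤ (p : ℝ) - 1 := by
            have : (4:ℝ) ≤ p := by exact_mod_cast hp
            linarith
          calc (p : ℝ) * ((p : ℝ) - 1) ≤ 2 ^ p * 2 ^ p := mul_le_mul a1 a2 a3 (by positivity)
            _ = 4 ^ p := by rw [← mul_pow]; norm_num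
        have h4 : (p : ℝ) * ((p : ℝ) - 1) * |x| ^ (p - 2) ≤ 4 ^ p := by
          calc (p : ℝ) * ((p : ℝ) - 1) * |x| ^ (p - 2) ≤ (p : ℝ) * ((p : ℝ) - 1) * 1 :=
                mul_le_mul_of_nonneg_left h1 h2
            _ ≤ 4 ^ p := by rw [mul_one]; exact h3
        calc c p * ((p : ℝ) * ((p : ℝ) - 1) * |x| ^ (p - 2)) ≤ 1 / 4 / 9 ^ p * 4 ^ p :=
              mul_le_mul (h.c4 p hp) h4 (by positivity) (by positivity)
          _ = 1 / 4 * (4 / 9) ^ p := by rw [div_pow]; ring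
      exact (abs_le.1 h1).1
  have := Summable.tsum_le_tsum hle hg hf
  rw [hgs] at this
  unfold xi2
  linarith

theorem Box.conv {c : ℕ → ℝ} (h : Box c) : ConvexOn ℝ (Set.Icc (-1) 1) (xi c) := by
  have a := h.adm
  have key : ∀ x ∈ Set.Icc (-1:ℝ) 1, |x| < 2 := fun x hx => by
    have : |x| ≤ 1 := abs_le.2 hx
    linarith
  have hi : interior (Set.Icc (-1:ℝ) 1) = Set.Ioo (-1) 1 := interior_Icc
  refine convexOn_of_hasDerivWithinAt2_nonneg (convex_Icc _ _) (f' := xi1 c) (f'' := xi2 c)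
    (fun x hx => (a.xi_deriv (key x hx)).continuousAt.continuousWithinAt) ?_ ?_ ?_
  · intro x hx
    exact (a.xi_deriv (key x (interior_subset hx))).hasDerivWithinAt
  · intro x hx
    exact (a.xi1_deriv (key x (interior_subset hx))).hasDerivWithinAt
  · intro x hx
    have hx' : x ∈ Set.Icc (-1:ℝ) 1 := interior_subset hx
    exact h.xi2_nonneg (abs_le.2 ⟨hx'.1, hx'.2⟩)

/-- the limiting free energy -/
noncomputable def lf (β : ℕ → ℝ) : ℝ := limUnder atTop (FN (fun p => (β p) ^ 2))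

theorem lf_tendsto {β : ℕ → ℝ} (h : Box (fun p => (β p) ^ 2)) :
    Tendsto (FN (fun p => (β p) ^ 2)) atTop (𝓝 (lf β)) := by
  obtain ⟨F, hF⟩ := FN_tendsto h.adm h.conv
  have e : lf β = F := hF.limUnder_eq
  rw [e]; exact hF

theorem upd_sq (β : ℕ → ℝ) (p : ℕ) (t : ℝ) :
    (fun q => (Function.update β p t q) ^ 2) = Function.update (fun q => (β q) ^ 2) p (t ^ 2) := by
  funext q
  by_cases hq : q = p
  · subst hq; simp
  · simp [Function.update_of_ne hq]

end RegAux

open RegAux in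
theorem exists_reg (η κ : ℝ) (hη : 0 < η) (hη1 : η ≤ 1) (hκ : 0 < κ) :
    ∃ c d : ℕ → ℝ, Reg c d ∧ 1 / 2 < c 2 ∧ c 2 < 1 / 2 + η ∧ ∀ p, 4 ≤ p → c p ≤ κ / 8 ^ p := by
  set b2 : ℝ := Real.sqrt (1 / 2 + η / 2) with hb2
  have hb2sq : b2 ^ 2 = 1 / 2 + η / 2 := Real.sq_sqrt (by positivity)
  have hb2pos : 0 < b2 := Real.sqrt_pos.2 (by positivity)
  have hb2le : b2 ≤ 1 := by nlinarith
  have hb2ge : 1 / 2 < b2 := by nlinarith
  set s : ℝ := min (1 / 3) κ with hs
  have hs0 : 0 < s := lt_min (by norm_num) hκ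
  have hs1 : s ≤ 1 / 3 := min_le_left _ _
  have hs2 : s ≤ κ := min_le_right _ _
  -- centre and radii
  set b : ℕ → ℝ := fun p => if p = 2 then b2 else if 4 ≤ p then s / 3 ^ p else 0 with hb
  set r : ℕ → ℝ := fun p => if p = 2 then η / 8 else if 4 ≤ p then s / 3 ^ p / 2 else 0 with hr
  have b_2 : b 2 = b2 := by simp [hb]
  have r_2 : r 2 = η / 8 := by simp [hr]
  have b_4 : ∀ p, 4 ≤ p → b p = s / 3 ^ p := fun p hp => by
    have : p ≠ 2 := by omega
    simp [hb, this, hp]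
  have r_4 : ∀ p, 4 ≤ p → r p = s / 3 ^ p / 2 := fun p hp => by
    have : p ≠ 2 := by omega
    simp [hr, this, hp]
  have b_z : ∀ p, ¬ (p = 2 ∨ 4 ≤ p) → b p = 0 := fun p hp => by
    have h1 : p ≠ 2 := fun h => hp (Or.inl h)
    have h2 : ¬ 4 ≤ p := fun h => hp (Or.inr h)
    simp [hb, h1, h2]
  have r_z : ∀ p, ¬ (p = 2 ∨ 4 ≤ p) → r p = 0 := fun p hp => by
    have h1 : p ≠ 2 := fun h => hp (Or.inl h)
    have h2 : ¬ 4 ≤ p := fun h => hp (Or.inr h)
    simp [hr, h1, h2]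
  have hr0 : ∀ p, 0 ≤ r p := fun p => by
    by_cases hp : p = 2 ∨ 4 ≤ p
    · rcases hp with rfl | hp
      · rw [r_2]; positivity
      · rw [r_4 p hp]; positivity
    · rw [r_z p hp]
  have hbox : ∀ β : ℕ → ℝ, (∀ p, |β p - b p| ≤ r p) → Box (fun p => (β p) ^ 2) := by
    intro β hβ
    have z : ∀ p, ¬ (p = 2 ∨ 4 ≤ p) → (β p) ^ 2 = 0 := fun p hp => by
      have := hβ p
      rw [b_z p hp, r_z p hp, sub_zero] at this
      have : β p = 0 := abs_nonpos_iff.1 this
      rw [this]; norm_num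
    have h2 := abs_le.1 (hβ 2)
    rw [b_2, r_2] at h2
    refine ⟨fun p => sq_nonneg _, z 0 (by norm_num), z 1 (by norm_num), z 3 (by norm_num), ?_, ?_, ?_⟩
    · show 1 / 2 ≤ (β 2) ^ 2
      nlinarith
    · show (β 2) ^ 2 ≤ 2
      nlinarith
    · intro p hp
      show (β p) ^ 2 ≤ _
      have h4 := abs_le.1 (hβ p)
      rw [b_4 p hp, r_4 p hp] at h4
      have e : (0:ℝ) < s / 3 ^ p := by positivity
      have u : β p ≤ 3 / 2 * (s / 3 ^ p) := by linarith
      have l : 0 ≤ β p := by linarith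
      have : (β p) ^ 2 ≤ (3 / 2 * (s / 3 ^ p)) ^ 2 := by gcongr
      refine this.trans ?_
      have e9 : ((3:ℝ) ^ p) ^ 2 = 9 ^ p := by rw [← pow_mul, mul_comm, pow_mul]; norm_num
      have : (3 / 2 * (s / 3 ^ p)) ^ 2 = 9 / 4 * s ^ 2 / 9 ^ p := by
        rw [mul_pow, div_pow s, e9]; ring
      rw [this]
      gcongr
      nlinarith
  set Lc : ℕ → ℝ := fun p => 2 * (|b p| + r p) with hLc
  have hL0 : ∀ p, 0 ≤ Lc p := fun p => by
    have := hr0 p
    have := abs_nonneg (b p)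
    show 0 ≤ 2 * (|b p| + r p)
    linarith
  have hLr : Summable (fun p => Lc p * r p) := by
    refine Summable.of_nonneg_of_le (fun p => mul_nonneg (hL0 p) (hr0 p)) (fun p => ?_)
      (summable_geo (a := 1) (M := 200) (by norm_num) (by norm_num))
    show 2 * (|b p| + r p) * r p ≤ _
    by_cases hp : p = 2 ∨ 4 ≤ p
    · rcases hp with rfl | hp
      · rw [b_2, r_2, abs_of_pos hb2pos]
        norm_num
        nlinarith
      · rw [b_4 p hp, r_4 p hp, one_pow, one_mul, abs_of_pos (by positivity)]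
        have e9 : ((3:ℝ) ^ p) ^ 2 = 9 ^ p := by rw [← pow_mul, mul_comm, pow_mul]; norm_num
        have : 2 * (s / 3 ^ p + s / 3 ^ p / 2) * (s / 3 ^ p / 2) = 3 / 2 * s ^ 2 / 9 ^ p := by
          rw [← e9]; field_simp; ring
        rw [this]
        gcongr
        nlinarith
    · rw [r_z p hp, mul_zero]; positivity
  have hlip : ∀ β β' : ℕ → ℝ, (∀ p, |β p - b p| ≤ r p) → (∀ p, |β' p - b p| ≤ r p) →
      |lf β - lf β'| ≤ ∑' p, Lc p * |β p - β' p| := by
    intro β β' hβ hβ'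
    have B := hbox β hβ
    have B' := hbox β' hβ'
    have hd : ∀ p, |β p - β' p| ≤ 2 * r p := fun p => by
      have h1 := abs_le.1 (hβ p)
      have h2 := abs_le.1 (hβ' p)
      rw [abs_le]; constructor <;> linarith
    have hsum : Summable (fun p => Lc p * |β p - β' p|) := by
      refine Summable.of_nonneg_of_le (fun p => mul_nonneg (hL0 p) (abs_nonneg _)) (fun p => ?_)
        (hLr.mul_left 2)
      have := mul_le_mul_of_nonneg_left (hd p) (hL0 p)
      linarith
    have hterm : ∀ p, |(β p) ^ 2 - (β' p) ^ 2| ≤ Lc p * |β p - β' p| := fun p => by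
      have e : (β p) ^ 2 - (β' p) ^ 2 = (β p + β' p) * (β p - β' p) := by ring
      rw [e, abs_mul]
      refine mul_le_mul_of_nonneg_right ?_ (abs_nonneg _)
      show |β p + β' p| ≤ 2 * (|b p| + r p)
      have h1 := abs_le.1 (hβ p)
      have h2 := abs_le.1 (hβ' p)
      have h3 := le_abs_self (b p)
      have h4 := neg_abs_le (b p)
      rw [abs_le]; constructor <;> linarith
    have hN : ∀ N, |FN (fun p => (β p) ^ 2) N - FN (fun p => (β' p) ^ 2) N| ≤
        ∑' p, Lc p * |β p - β' p| := fun N => by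
      refine (FN_lip B.adm B'.adm N).trans ?_
      exact Summable.tsum_le_tsum hterm
        (Summable.of_nonneg_of_le (fun p => abs_nonneg _) hterm hsum) hsum
    have ht := ((lf_tendsto B).sub (lf_tendsto B')).abs
    exact le_of_tendsto ht (Eventually.of_forall hN)
  have hupd : ∀ β : ℕ → ℝ, (∀ p, |β p - b p| ≤ r p) → ∀ p t, |t - b p| ≤ r p →
      ∀ q, |Function.update β p t q - b q| ≤ r q := by
    intro β hβ p t ht q
    by_cases hq : q = p
    · subst hq; simpa using ht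
    · rw [Function.update_of_ne hq]; exact hβ q
  have hconv : ∀ β : ℕ → ℝ, (∀ p, |β p - b p| ≤ r p) → ∀ p,
      ConvexOn ℝ (Set.Icc (b p - r p) (b p + r p)) (fun t => lf (Function.update β p t)) := by
    intro β hβ p
    have hin : ∀ t ∈ Set.Icc (b p - r p) (b p + r p), |t - b p| ≤ r p := fun t ht => by
      rw [abs_le]; constructor <;> linarith [ht.1, ht.2]
    have htend : ∀ t ∈ Set.Icc (b p - r p) (b p + r p),
        Tendsto (FN (Function.update (fun q => (β q) ^ 2) p (t ^ 2))) atTop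
          (𝓝 (lf (Function.update β p t))) := fun t ht => by
      rw [← upd_sq]
      exact lf_tendsto (hbox _ (hupd β hβ p t (hin t ht)))
    by_cases hp : p = 2 ∨ 4 ≤ p
    · have hp2 : 2 ≤ p := by omega
      refine ⟨convex_Icc _ _, fun x hx y hy u v hu hv huv => ?_⟩
      have hz := (convex_Icc (b p - r p) (b p + r p)) hx hy hu hv huv
      have h1 := htend _ hz
      have h2 := ((htend x hx).const_mul u).add ((htend y hy).const_mul v)
      refine le_of_tendsto_of_tendsto' h1 h2 fun N => ?_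
      have := (FN_convex (hbox β hβ).adm p hp2 N).2 (Set.mem_univ x) (Set.mem_univ y) hu hv huv
      simpa using this
    · have hz : r p = 0 := r_z p hp
      rw [hz, sub_zero, add_zero, Set.Icc_self]
      refine ⟨convex_singleton _, fun x hx y hy u v hu hv huv => ?_⟩
      rw [Set.mem_singleton_iff] at hx hy
      subst hx
      subst hy
      have e : u • b p + v • b p = b p := by rw [← add_smul, huv, one_smul]
      simp only [e]
      rw [← add_smul, huv, one_smul]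
  obtain ⟨β, hβ, hβd⟩ := exists_diff_point lf b r Lc hr0 hL0 hLr hlip hconv
  have rpos : ∀ p, (p = 2 ∨ 4 ≤ p) → 0 < r p := fun p hp => by
    rcases hp with rfl | hp
    · rw [r_2]; positivity
    · rw [r_4 p hp]; positivity
  have βpos : ∀ p, (p = 2 ∨ 4 ≤ p) → 0 < β p := fun p hp => by
    have h := abs_le.1 (hβ p)
    rcases hp with rfl | hp
    · rw [b_2, r_2] at h; linarith
    · rw [b_4 p hp, r_4 p hp] at h
      have e : (0:ℝ) < s / 3 ^ p := by positivity
      linarith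
  have B := hbox β hβ
  classical
  refine ⟨fun p => (β p) ^ 2, fun p => if hp : 0 < r p then (hβd p hp).2.choose else 0,
    ⟨B.adm, sum4_of B.nonneg B.bd, fun p hp => pow_pos (βpos p hp) 2, B.c3, B.conv, ?_⟩, ?_, ?_, ?_⟩
  · intro p hp
    have hrp := rpos p hp
    have hsq : Real.sqrt ((β p) ^ 2) = β p := Real.sqrt_sq (βpos p hp).le
    refine ⟨fun t => lf (Function.update β p t), ?_, ?_⟩
    · show ∀ᶠ t in 𝓝 (Real.sqrt ((β p) ^ 2)), _
      rw [hsq]
      have h1 := (hβd p hrp).1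
      have hcont : Tendsto (fun t : ℝ => |t - b p|) (𝓝 (β p)) (𝓝 |β p - b p|) :=
        (continuous_abs.comp (continuous_id.sub continuous_const)).continuousAt
      filter_upwards [hcont.eventually_lt_const h1] with t ht
      rw [← upd_sq]
      exact lf_tendsto (hbox _ (hupd β hβ p t ht.le))
    · show HasDerivAt _ (if hp : 0 < r p then (hβd p hp).2.choose else 0) (Real.sqrt ((β p) ^ 2))
      rw [hsq, dif_pos hrp]
      exact (hβd p hrp).2.choose_spec
  · show 1 / 2 < (β 2) ^ 2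
    have h := abs_le.1 (hβ 2)
    rw [b_2, r_2] at h
    nlinarith
  · show (β 2) ^ 2 < 1 / 2 + η
    have h := abs_le.1 (hβ 2)
    rw [b_2, r_2] at h
    have h0 := βpos 2 (Or.inl rfl)
    nlinarith
  · intro p hp
    show (β p) ^ 2 ≤ κ / 8 ^ p
    have h4 := abs_le.1 (hβ p)
    rw [b_4 p hp, r_4 p hp] at h4
    have e : (0:ℝ) < s / 3 ^ p := by positivity
    have u : β p ≤ 3 / 2 * (s / 3 ^ p) := by linarith
    have l : 0 ≤ β p := by linarith
    have h5 : (β p) ^ 2 ≤ (3 / 2 * (s / 3 ^ p)) ^ 2 := by gcongr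
    have e9 : ((3:ℝ) ^ p) ^ 2 = 9 ^ p := by rw [← pow_mul, mul_comm, pow_mul]; norm_num
    have h6 : (3 / 2 * (s / 3 ^ p)) ^ 2 = 9 / 4 * s ^ 2 / 9 ^ p := by
      rw [mul_pow, div_pow s, e9]; ring
    rw [h6] at h5
    have h7 : 9 / 4 * s ^ 2 ≤ κ := by nlinarith
    calc (β p) ^ 2 ≤ 9 / 4 * s ^ 2 / 9 ^ p := h5
      _ ≤ κ / 9 ^ p := by gcongr
      _ ≤ κ / 8 ^ p := by gcongr; norm_num

end Pool.Agent.OS
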