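import Pool.Agent.LibMP0f946f.GM

/-! TASK ST: Stein's lemma, Gaussian integration by parts, comparison of two Gaussian measures. -/

set_option autoImplicit false
open MeasureTheory ProbabilityTheory Real Filter Topology

namespace Pool.Agent.OS

theorem integrable_γ_iff (f : ℝ → ℝ) :
    Integrable f γ ↔ Integrable (fun x => gaussianPDFReal 0 1 x * f x) := by
  have h : γ = volume.withDensity (gaussianPDF 0 1) := gaussianReal_of_var_ne_zero _ one_ne_zero
  rw [h, integrable_withDensity_iff_integrable_smul₀' (measurable_gaussianPDF _ _).aemeasurable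
    (ae_of_all _ fun _ => gaussianPDF_lt_top)]
  simp only [toReal_gaussianPDF, smul_eq_mul]

theorem integrable_exp_abs_γ (B : ℝ) : Integrable (fun x : ℝ => Real.exp (B * |x|)) γ := by
  have h1 : Integrable (fun x : ℝ => Real.exp (B * x) + Real.exp (-B * x)) γ :=
    (integrable_exp_mul_gaussianReal B).add (integrable_exp_mul_gaussianReal (-B))
  refine h1.mono' (by fun_prop) (ae_of_all _ fun x => ?_)
  rw [Real.norm_eq_abs, abs_of_pos (Real.exp_pos _)]
  rcases abs_cases x with ⟨h, _⟩ | ⟨h, _⟩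
  · rw [h]; linarith [Real.exp_pos (-B * x)]
  · rw [h]
    have : B * -x = -B * x := by ring
    rw [this]
    linarith [Real.exp_pos (B * x)]

theorem integrable_γ_of_bound {f : ℝ → ℝ} (hf : Continuous f) {B : ℝ}
    (hb : ∀ x, |f x| ≤ B * Real.exp (B * |x|)) : Integrable f γ := by
  refine ((integrable_exp_abs_γ B).const_mul B).mono' hf.aestronglyMeasurable
    (ae_of_all _ fun x => ?_)
  rw [Real.norm_eq_abs]
  exact hb x

theorem integrable_γ_mul_of_bound {f : ℝ → ℝ} (hf : Continuous f) {B : ℝ}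
    (hb : ∀ x, |f x| ≤ B * Real.exp (B * |x|)) : Integrable (fun x => x * f x) γ := by
  have hB : 0 ≤ B := by
    have := (abs_nonneg _).trans (hb 0)
    simpa using this
  refine ((integrable_exp_abs_γ (B + 1)).const_mul B).mono'
    (continuous_id.mul hf).aestronglyMeasurable (ae_of_all _ fun x => ?_)
  rw [Real.norm_eq_abs, abs_mul]
  have h1 : |x| ≤ Real.exp |x| := by linarith [Real.add_one_le_exp |x|]
  have h2 : Real.exp ((B + 1) * |x|) = Real.exp |x| * Real.exp (B * |x|) := by
    rw [← Real.exp_add]; ring_nf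
  rw [h2]
  calc |x| * |f x| ≤ Real.exp |x| * (B * Real.exp (B * |x|)) := by
        gcongr
        exact hb x
    _ = _ := by ring

theorem stein (f f' : ℝ → ℝ) (hf : ∀ x, HasDerivAt f (f' x) x) (hc : Continuous f')
    (hb : ∃ B, ∀ x, |f x| ≤ B * Real.exp (B * |x|) ∧ |f' x| ≤ B * Real.exp (B * |x|)) :
    ∫ g, g * f g ∂γ = ∫ g, f' g ∂γ := by
  obtain ⟨B, hB⟩ := hb
  have hfc : Continuous f := continuous_iff_continuousAt.2 fun x => (hf x).continuousAt
  have i1 := (integrable_γ_iff _).1 (integrable_γ_of_bound hfc fun x => (hB x).1)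
  have i2 := (integrable_γ_iff _).1 (integrable_γ_of_bound hc fun x => (hB x).2)
  have i3 := (integrable_γ_iff _).1 (integrable_γ_mul_of_bound hfc fun x => (hB x).1)
  have hd : ∀ x : ℝ, HasDerivAt (gaussianPDFReal 0 1) (-(x * gaussianPDFReal 0 1 x)) x := by
    intro x
    have h1 : HasDerivAt (fun x : ℝ => -(x - 0) ^ 2 / (2 * ((1 : NNReal) : ℝ))) (-x) x := by
      have h0 := (((hasDerivAt_id x).sub_const 0).pow 2).neg.div_const (2 * ((1 : NNReal) : ℝ))
      refine h0.congr_deriv ?_
      simp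
      ring
    have h2 := (h1.exp).const_mul ((√(2 * π * ((1 : NNReal) : ℝ)))⁻¹)
    rw [gaussianPDFReal_def]
    refine h2.congr_deriv ?_
    ring
  rw [integral_gaussianReal_eq_integral_smul one_ne_zero,
    integral_gaussianReal_eq_integral_smul one_ne_zero]
  have key := integral_mul_deriv_eq_deriv_mul_of_integrable (u := f) (v := gaussianPDFReal 0 1)
    (u' := f') (v' := fun x => -(x * gaussianPDFReal 0 1 x)) (fun x _ => hf x) (fun x _ => hd x)
    (i3.neg.congr (ae_of_all _ fun x => by simp; ring)) (i2.congr (ae_of_all _ fun x => by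
      simp; ring)) (i1.congr (ae_of_all _ fun x => by simp; ring))
  have e1 : ∫ x, f x * -(x * gaussianPDFReal 0 1 x) =
      -∫ x, gaussianPDFReal 0 1 x • (x * f x) := by
    rw [← integral_neg]
    congr 1
    funext x
    simp only [smul_eq_mul]
    ring
  have e2 : ∫ x, f' x * gaussianPDFReal 0 1 x = ∫ x, gaussianPDFReal 0 1 x • f' x := by
    congr 1
    funext x
    simp only [smul_eq_mul]
    ring
  rw [e1, e2] at key
  linarith

variable {ι κ : Type*} [Fintype ι] [DecidableEq ι] [Fintype κ] [DecidableEq κ]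

theorem update_mp (k : ι) :
    MeasurePreserving (fun p : ℝ × (ι → ℝ) => Function.update p.2 k p.1)
      ((γ).prod (Measure.pi fun _ : ι => γ)) (Measure.pi fun _ : ι => γ) := by
  have hm : Measurable (fun p : ℝ × (ι → ℝ) => Function.update p.2 k p.1) := by
    refine measurable_pi_iff.2 fun i => ?_
    by_cases h : i = k
    · subst h
      simpa using measurable_fst
    · simp only [Function.update_of_ne h]
      exact (measurable_pi_apply i).comp measurable_snd
  refine ⟨hm, ?_⟩
  symm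
  refine Measure.pi_eq fun s hs => ?_
  rw [Measure.map_apply hm (MeasurableSet.univ_pi hs)]
  have h1 : (fun p : ℝ × (ι → ℝ) => Function.update p.2 k p.1) ⁻¹' (Set.univ.pi s) =
      s k ×ˢ Set.univ.pi (Function.update s k Set.univ) := by
    ext p
    simp only [Set.mem_preimage, Set.mem_pi, Set.mem_univ, true_implies, Set.mem_prod]
    constructor
    · intro h
      refine ⟨by simpa using h k, fun i => ?_⟩
      by_cases hi : i = k
      · subst hi; simp
      · have := h i
        rw [Function.update_of_ne hi] at this ⊢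
        exact this
    · rintro ⟨h1, h2⟩ i
      by_cases hi : i = k
      · subst hi; simpa using h1
      · have := h2 i
        rw [Function.update_of_ne hi] at this ⊢
        exact this
  rw [h1, Measure.prod_prod, Measure.pi_pi, ← Finset.mul_prod_erase _ _ (Finset.mem_univ k),
    ← Finset.mul_prod_erase _ _ (Finset.mem_univ k), Function.update_self, measure_univ, one_mul]
  congr 1
  refine Finset.prod_congr rfl fun i hi => ?_
  rw [Function.update_of_ne (Finset.ne_of_mem_erase hi)]

omit [DecidableEq ι] in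
theorem pi_expint (B : ℝ) :
    Integrable (fun g : ι → ℝ => Real.exp (B * ∑ i, |g i|)) (Measure.pi fun _ : ι => γ) := by
  have h := Integrable.fintype_prod (f := fun (_ : ι) (x : ℝ) => Real.exp (B * |x|))
    (μ := fun _ : ι => γ) (fun _ => integrable_exp_abs_γ B)
  refine h.congr (ae_of_all _ fun g => ?_)
  simp only
  rw [← Real.exp_sum, Finset.mul_sum]

omit [DecidableEq ι] in
theorem le_exp_sum (x : ι → ℝ) (i : ι) : |x i| ≤ Real.exp (∑ j, |x j|) := by
  have h1 : |x i| ≤ ∑ j, |x j| :=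
    Finset.single_le_sum (f := fun j => |x j|) (fun j _ => abs_nonneg _) (Finset.mem_univ i)
  linarith [Real.add_one_le_exp (∑ j, |x j|)]

omit [DecidableEq ι] in
theorem bound_mul {B y : ℝ} {x : ι → ℝ} (h : |y| ≤ B * Real.exp (B * ∑ i, |x i|)) (i : ι) :
    |x i * y| ≤ B * Real.exp ((B + 1) * ∑ i, |x i|) := by
  have h2 : Real.exp ((B + 1) * ∑ i, |x i|) =
      Real.exp (∑ i, |x i|) * Real.exp (B * ∑ i, |x i|) := by
    rw [← Real.exp_add]; ring_nf
  rw [h2, abs_mul]
  calc |x i| * |y| ≤ Real.exp (∑ i, |x i|) * (B * Real.exp (B * ∑ i, |x i|)) := by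
        gcongr
        exact le_exp_sum x i
    _ = _ := by ring

/-- integration by parts for iid standard Gaussians -/
theorem pi_ibp (k : ι) (H H' : (ι → ℝ) → ℝ)
    (hH : ∀ g t, HasDerivAt (fun t => H (Function.update g k t)) (H' (Function.update g k t)) t)
    (hc : Continuous H) (hc' : Continuous H')
    {B : ℝ} (hb : ∀ x, |H x| ≤ B * Real.exp (B * ∑ i, |x i|))
    (hb' : ∀ x, |H' x| ≤ B * Real.exp (B * ∑ i, |x i|)) :
    ∫ g, g k * H g ∂(Measure.pi fun _ : ι => γ) = ∫ g, H' g ∂(Measure.pi fun _ : ι => γ) := by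
  have hB : 0 ≤ B := by
    have := (abs_nonneg _).trans (hb 0)
    simpa using this
  have i1 : Integrable (fun g : ι → ℝ => g k * H g) (Measure.pi fun _ : ι => γ) :=
    ((pi_expint (B + 1)).const_mul B).mono' (by fun_prop)
      (ae_of_all _ fun x => bound_mul (hb x) k)
  have i2 : Integrable H' (Measure.pi fun _ : ι => γ) :=
    ((pi_expint B).const_mul B).mono' (by fun_prop) (ae_of_all _ fun x => hb' x)
  have hu : Continuous (fun p : ℝ × (ι → ℝ) => Function.update p.2 k p.1) :=
    continuous_snd.update k continuous_fst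
  have e1 : ∀ f : (ι → ℝ) → ℝ, Continuous f →
      ∫ g, f g ∂(Measure.pi fun _ : ι => γ) =
        ∫ p, f (Function.update p.2 k p.1) ∂((γ).prod (Measure.pi fun _ : ι => γ)) := by
    intro f hf
    rw [← integral_map (φ := fun p : ℝ × (ι → ℝ) => Function.update p.2 k p.1)
      (update_mp k).measurable.aemeasurable hf.aestronglyMeasurable, (update_mp k).map_eq]
  have j1 : Integrable (fun p : ℝ × (ι → ℝ) => (Function.update p.2 k p.1) k *
      H (Function.update p.2 k p.1)) ((γ).prod (Measure.pi fun _ : ι => γ)) :=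
    ((update_mp k).integrable_comp (g := fun g : ι → ℝ => g k * H g)
      (by fun_prop)).2 i1
  have j2 : Integrable (fun p : ℝ × (ι → ℝ) => H' (Function.update p.2 k p.1))
      ((γ).prod (Measure.pi fun _ : ι => γ)) :=
    ((update_mp k).integrable_comp (g := H') (by fun_prop)).2 i2
  rw [e1 (fun g => g k * H g) (by fun_prop), e1 H' hc', integral_prod_symm _ j1,
    integral_prod_symm _ j2]
  congr 1
  funext g
  simp only [Function.update_self]
  have hsum : ∀ t, ∑ i, |Function.update g k t i| ≤ |t| + ∑ i, |g i| := by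
    intro t
    rw [← Finset.add_sum_erase _ _ (Finset.mem_univ k), Function.update_self]
    gcongr
    refine (Finset.sum_congr rfl fun i hi => ?_ : _ = ∑ i ∈ Finset.univ.erase k, |g i|).trans_le
      (Finset.sum_le_sum_of_subset_of_nonneg (Finset.erase_subset _ _) fun i _ _ => abs_nonneg _)
    rw [Function.update_of_ne (Finset.ne_of_mem_erase hi)]
  set A := Real.exp (B * ∑ i, |g i|) with hA
  have hA1 : 1 ≤ A := by
    rw [hA, Real.one_le_exp_iff]
    exact mul_nonneg hB (Finset.sum_nonneg fun i _ => abs_nonneg _)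
  have hbd : ∀ (f : (ι → ℝ) → ℝ), (∀ x, |f x| ≤ B * Real.exp (B * ∑ i, |x i|)) → ∀ t,
      |f (Function.update g k t)| ≤ (B * A) * Real.exp ((B * A) * |t|) := by
    intro f hf t
    refine (hf _).trans ?_
    have h1 : Real.exp (B * ∑ i, |Function.update g k t i|) ≤ Real.exp (B * |t|) * A := by
      rw [hA, ← Real.exp_add, ← mul_add]
      exact Real.exp_le_exp.2 (mul_le_mul_of_nonneg_left (hsum t) hB)
    have h2 : Real.exp (B * |t|) ≤ Real.exp ((B * A) * |t|) := by
      apply Real.exp_le_exp.2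
      have : B ≤ B * A := le_mul_of_one_le_right hB hA1
      exact mul_le_mul_of_nonneg_right this (abs_nonneg _)
    calc B * Real.exp (B * ∑ i, |Function.update g k t i|) ≤ B * (Real.exp ((B * A) * |t|) * A) := by
          gcongr
          exact h1.trans (by gcongr)
      _ = _ := by ring
  refine stein (fun t => H (Function.update g k t)) (fun t => H' (Function.update g k t))
    (fun t => hH g t) ?_ ⟨B * A, fun t => ⟨hbd H hb t, hbd H' hb' t⟩⟩
  exact hc'.comp (continuous_const.update k continuous_id)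

omit [DecidableEq ι] in
theorem mulVec_sum_le (M : Matrix ι ι ℝ) (g : ι → ℝ) :
    ∑ i, |M.mulVec g i| ≤ (∑ i, ∑ k, |M i k|) * ∑ k, |g k| := by
  rw [Finset.sum_mul]
  refine Finset.sum_le_sum fun i _ => ?_
  refine (Finset.abs_sum_le_sum_abs _ _).trans ?_
  rw [Finset.sum_mul]
  refine Finset.sum_le_sum fun k _ => ?_
  rw [abs_mul]
  exact mul_le_mul_of_nonneg_left
    (Finset.single_le_sum (f := fun j => |g j|) (fun j _ => abs_nonneg _) (Finset.mem_univ k))
    (abs_nonneg _)

/-- Gaussian integration by parts -/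
theorem gm_ibp {C : Matrix ι ι ℝ} (hC : C.PosSemidef) (F : (ι → ℝ) → ℝ) (G : ι → (ι → ℝ) → ℝ)
    (hF : ∀ x, HasFDerivAt F (∑ j, G j x • (ContinuousLinearMap.proj j : (ι → ℝ) →L[ℝ] ℝ)) x)
    (hG : ∀ j, Continuous (G j))
    (hb : ∃ B, ∀ x, |F x| ≤ B * Real.exp (B * ∑ i, |x i|) ∧
      ∀ j, |G j x| ≤ B * Real.exp (B * ∑ i, |x i|)) (i : ι) :
    ∫ x, x i * F x ∂(gm C) = ∑ j, C i j * ∫ x, G j x ∂(gm C) := by
  obtain ⟨B, hB⟩ := hb
  obtain ⟨M, hCM, hmap⟩ := gm_factor hC
  have hB0 : 0 ≤ B := by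
    have := (abs_nonneg _).trans (hB 0).1
    simpa using this
  have hFc : Continuous F := continuous_iff_continuousAt.2 fun x => (hF x).continuousAt
  have hMc : Continuous (fun g : ι → ℝ => M.mulVec g) := by
    refine continuous_pi fun i => ?_
    exact continuous_finsetSum _ fun j _ => continuous_const.mul (continuous_apply j)
  set P := (Measure.pi fun _ : ι => γ) with hP
  have e1 : ∀ f : (ι → ℝ) → ℝ, Continuous f →
      ∫ x, f x ∂(gm C) = ∫ g, f (M.mulVec g) ∂P := by
    intro f hf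
    rw [hmap, integral_map hMc.measurable.aemeasurable hf.aestronglyMeasurable]
  set K := ∑ i, ∑ k, |M i k| with hK
  have hK0 : 0 ≤ K := Finset.sum_nonneg fun i _ => Finset.sum_nonneg fun k _ => abs_nonneg _
  -- bounds for compositions
  have hbd : ∀ (f : (ι → ℝ) → ℝ), (∀ x, |f x| ≤ B * Real.exp (B * ∑ i, |x i|)) →
      ∀ g, |f (M.mulVec g)| ≤ B * Real.exp ((B * (K + 1)) * ∑ i, |g i|) := by
    intro f hf g
    refine (hf _).trans (mul_le_mul_of_nonneg_left (Real.exp_le_exp.2 ?_) hB0)
    rw [mul_assoc]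
    refine mul_le_mul_of_nonneg_left ((mulVec_sum_le M g).trans ?_) hB0
    exact mul_le_mul_of_nonneg_right (by linarith) (Finset.sum_nonneg fun i _ => abs_nonneg _)
  have hint : ∀ (f : (ι → ℝ) → ℝ), Continuous f → (∀ x, |f x| ≤ B * Real.exp (B * ∑ i, |x i|)) →
      Integrable (fun g => f (M.mulVec g)) P := by
    intro f hfc hf
    exact ((pi_expint (B * (K + 1))).const_mul B).mono'
      (hfc.comp hMc).aestronglyMeasurable (ae_of_all _ fun g => hbd f hf g)
  have hint2 : ∀ (k : ι), Integrable (fun g : ι → ℝ => g k * F (M.mulVec g)) P := by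
    intro k
    refine ((pi_expint (B * (K + 1) + 1)).const_mul (B * (K + 1))).mono'
      ((continuous_apply k).mul (hFc.comp hMc)).aestronglyMeasurable (ae_of_all _ fun g => ?_)
    refine bound_mul ((hbd F (fun x => (hB x).1) g).trans ?_) k
    exact mul_le_mul_of_nonneg_right (le_mul_of_one_le_right hB0 (by linarith))
      (Real.exp_pos _).le
  have hGb : ∀ j x, |G j x| ≤ B * Real.exp (B * ∑ i, |x i|) := fun j x => (hB x).2 j
  -- one coordinate
  have key : ∀ k, ∫ g, g k * F (M.mulVec g) ∂P = ∑ j, M j k * ∫ g, G j (M.mulVec g) ∂P := by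
    intro k
    have h1 := pi_ibp k (fun g => F (M.mulVec g)) (fun g => ∑ j, G j (M.mulVec g) * M j k)
      ?_ (hFc.comp hMc) ?_ (B := B * (K + 1)) ?_ ?_
    · rw [h1, integral_finsetSum _ fun j _ => (hint (G j) (hG j) (hGb j)).mul_const _]
      refine Finset.sum_congr rfl fun j _ => ?_
      rw [integral_mul_const, mul_comm]
    · intro g t
      have h2 : HasDerivAt (fun t => M.mulVec (Function.update g k t)) (M.mulVec (Pi.single k 1)) t := by
        have h3 := (LinearMap.toContinuousLinearMap M.mulVecLin).hasFDerivAt.comp_hasDerivAt t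
          (hasDerivAt_update g k t)
        exact h3
      have h4 := (hF (M.mulVec (Function.update g k t))).comp_hasDerivAt t h2
      refine h4.congr_deriv ?_
      simp only [sum_apply, smul_apply,
        ContinuousLinearMap.proj_apply, smul_eq_mul]
      refine Finset.sum_congr rfl fun j _ => ?_
      rw [Matrix.mulVec_single_one]
      rfl
    · exact continuous_finsetSum _ fun j _ => ((hG j).comp hMc).mul continuous_const
    · intro g
      refine (hbd F (fun x => (hB x).1) g).trans ?_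
      exact mul_le_mul_of_nonneg_right (le_mul_of_one_le_right hB0 (by linarith))
        (Real.exp_pos _).le
    · intro g
      refine (Finset.abs_sum_le_sum_abs _ _).trans ?_
      have h5 : ∑ j, |G j (M.mulVec g) * M j k| ≤
          ∑ j, (B * Real.exp ((B * (K + 1)) * ∑ i, |g i|)) * |M j k| := by
        refine Finset.sum_le_sum fun j _ => ?_
        rw [abs_mul]
        exact mul_le_mul_of_nonneg_right (hbd (G j) (hGb j) g) (abs_nonneg _)
      refine h5.trans ?_
      rw [← Finset.mul_sum]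
      have h6 : ∑ j, |M j k| ≤ K := Finset.sum_le_sum fun j _ =>
        Finset.single_le_sum (f := fun k => |M j k|) (fun _ _ => abs_nonneg _) (Finset.mem_univ k)
      have h7 : 0 ≤ Real.exp ((B * (K + 1)) * ∑ i, |g i|) := (Real.exp_pos _).le
      calc B * Real.exp ((B * (K + 1)) * ∑ i, |g i|) * ∑ j, |M j k|
          ≤ B * Real.exp ((B * (K + 1)) * ∑ i, |g i|) * (K + 1) := by gcongr; linarith
        _ = _ := by ring
  rw [e1 (fun x => x i * F x) ((continuous_apply i).mul hFc)]
  have h8 : ∀ g : ι → ℝ, (M.mulVec g) i * F (M.mulVec g) =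
      ∑ k, M i k * (g k * F (M.mulVec g)) := by
    intro g
    simp only [Matrix.mulVec, dotProduct, Finset.sum_mul]
    exact Finset.sum_congr rfl fun k _ => by ring
  simp only [h8]
  rw [integral_finsetSum _ fun k _ => (hint2 k).const_mul _]
  simp only [integral_const_mul, key, Finset.mul_sum]
  rw [Finset.sum_comm]
  refine Finset.sum_congr rfl fun j _ => ?_
  rw [e1 _ (hG j), hCM, Matrix.mul_apply, Finset.sum_mul]
  exact Finset.sum_congr rfl fun k _ => by rw [Matrix.transpose_apply]; ring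

omit [DecidableEq ι] in
theorem C2b.lip0 {F : (ι → ℝ) → ℝ} {G : ι → (ι → ℝ) → ℝ} {S : ι → ι → (ι → ℝ) → ℝ}
    (h : C2b F G S) {B : ℝ} (hB : ∀ x i, |G i x| ≤ B) (x : ι → ℝ) :
    |F x| ≤ |F 0| + B * ∑ i, |x i| := by
  have h1 : ∀ t : ℝ, HasDerivAt (fun t : ℝ => F (t • x)) (∑ j, G j (t • x) * x j) t := by
    intro t
    have h2 : HasDerivAt (fun t : ℝ => t • x) ((1 : ℝ) • x) t := (hasDerivAt_id t).smul_const x
    refine ((h.hF (t • x)).comp_hasDerivAt t h2).congr_deriv ?_
    simp [sum_apply]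
  have h3 := norm_image_sub_le_of_norm_deriv_le_segment_01' (f := fun t : ℝ => F (t • x))
    (f' := fun t => ∑ j, G j (t • x) * x j) (C := B * ∑ i, |x i|)
    (fun t _ => (h1 t).hasDerivWithinAt) (fun t _ => ?_)
  · simp only [one_smul, zero_smul, Real.norm_eq_abs] at h3
    have := abs_sub_abs_le_abs_sub (F x) (F 0)
    linarith
  · rw [Real.norm_eq_abs, Finset.mul_sum]
    refine (Finset.abs_sum_le_sum_abs _ _).trans (Finset.sum_le_sum fun j _ => ?_)
    rw [abs_mul]
    exact mul_le_mul_of_nonneg_right (hB _ _) (abs_nonneg _)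

omit [DecidableEq ι] in
theorem C2b.contF {F : (ι → ℝ) → ℝ} {G : ι → (ι → ℝ) → ℝ} {S : ι → ι → (ι → ℝ) → ℝ}
    (h : C2b F G S) : Continuous F :=
  continuous_iff_continuousAt.2 fun x => (h.hF x).continuousAt

omit [DecidableEq ι] in
theorem C2b.contG {F : (ι → ℝ) → ℝ} {G : ι → (ι → ℝ) → ℝ} {S : ι → ι → (ι → ℝ) → ℝ}
    (h : C2b F G S) (i : ι) : Continuous (G i) :=
  continuous_iff_continuousAt.2 fun x => (h.hG i x).continuousAt

omit [DecidableEq ι] in
theorem sum_abs_nonneg (x : ι → ℝ) : 0 ≤ ∑ i, |x i| :=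
  Finset.sum_nonneg fun _ _ => abs_nonneg _

theorem gm_linint (C : Matrix ι ι ℝ) (A B : ℝ) :
    Integrable (fun x : ι → ℝ => A + B * ∑ i, |x i|) (gm C) := by
  refine (integrable_const A).add (Integrable.const_mul ?_ B)
  refine (gm_expint C 1).mono'
    (continuous_finsetSum _ fun i _ => (continuous_apply i).abs).aestronglyMeasurable
    (ae_of_all _ fun x => ?_)
  rw [Real.norm_eq_abs, abs_of_nonneg (sum_abs_nonneg x), one_mul]
  linarith [Real.add_one_le_exp (∑ i, |x i|)]

theorem C2b.integrable {C : Matrix ι ι ℝ}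
    {F : (ι → ℝ) → ℝ} {G : ι → (ι → ℝ) → ℝ} {S : ι → ι → (ι → ℝ) → ℝ} (h : C2b F G S) :
    Integrable F (gm C) := by
  obtain ⟨B, hB⟩ := h.bd
  exact (gm_linint C (|F 0|) B).mono' h.contF.aestronglyMeasurable
    (ae_of_all _ fun x => h.lip0 (fun x i => (hB x i).1) x)

theorem fromBlocks_psd {C D : Matrix ι ι ℝ} (hC : C.PosSemidef) (hD : D.PosSemidef) :
    (Matrix.fromBlocks C 0 0 D).PosSemidef := by
  obtain ⟨M, hM, -⟩ := gm_factor hC
  obtain ⟨N, hN, -⟩ := gm_factor hD
  have h := Matrix.posSemidef_self_mul_conjTranspose (Matrix.fromBlocks M 0 0 N)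
  rw [Matrix.conjTranspose_eq_transpose_of_trivial, Matrix.fromBlocks_transpose,
    Matrix.fromBlocks_multiply] at h
  simpa [← hM, ← hN] using h

/-- the rotated field -/
noncomputable def rotf (θ : ℝ) (w : ι ⊕ ι → ℝ) : ι → ℝ :=
  fun i => Real.cos θ * w (Sum.inl i) + Real.sin θ * w (Sum.inr i)

omit [Fintype ι] [DecidableEq ι] in
theorem rotf_cont : Continuous fun p : ℝ × (ι ⊕ ι → ℝ) => rotf p.1 p.2 := by
  refine continuous_pi fun i => ?_
  simp only [rotf]
  fun_prop

/-- the derivative of `rotf` in the field, as a continuous linear map -/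
noncomputable def rotL (θ : ℝ) : (ι ⊕ ι → ℝ) →L[ℝ] (ι → ℝ) :=
  ContinuousLinearMap.pi fun i =>
    Real.cos θ • (ContinuousLinearMap.proj (Sum.inl i) : (ι ⊕ ι → ℝ) →L[ℝ] ℝ) +
      Real.sin θ • (ContinuousLinearMap.proj (Sum.inr i) : (ι ⊕ ι → ℝ) →L[ℝ] ℝ)

omit [Fintype ι] [DecidableEq ι] in
theorem rotf_eq (θ : ℝ) (w : ι ⊕ ι → ℝ) : rotf θ w = rotL θ w := by
  ext i
  simp [rotf, rotL]

omit [DecidableEq ι] in
theorem rotf_sum_le (θ : ℝ) (w : ι ⊕ ι → ℝ) : ∑ i, |rotf θ w i| ≤ ∑ k, |w k| := by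
  rw [Fintype.sum_sum_type, ← Finset.sum_add_distrib]
  refine Finset.sum_le_sum fun i _ => (abs_add_le _ _).trans ?_
  rw [abs_mul, abs_mul]
  have h1 := Real.abs_cos_le_one θ
  have h2 := Real.abs_sin_le_one θ
  have h3 := abs_nonneg (w (Sum.inl i))
  have h4 := abs_nonneg (w (Sum.inr i))
  nlinarith

omit [Fintype ι] [DecidableEq ι] in
theorem rotf_deriv (θ : ℝ) (w : ι ⊕ ι → ℝ) :
    HasDerivAt (fun θ => rotf θ w)
      (fun i => -Real.sin θ * w (Sum.inl i) + Real.cos θ * w (Sum.inr i)) θ := by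
  refine hasDerivAt_pi.2 fun i => ?_
  exact ((Real.hasDerivAt_cos θ).mul_const _).add ((Real.hasDerivAt_sin θ).mul_const _)

/-- integration by parts for the rotated field -/
theorem rot_ibp {C D : Matrix ι ι ℝ} (hC : C.PosSemidef) (hD : D.PosSemidef)
    {F : (ι → ℝ) → ℝ} {G : ι → (ι → ℝ) → ℝ} {S : ι → ι → (ι → ℝ) → ℝ} (h : C2b F G S)
    (θ : ℝ) (i : ι) :
    (∫ w, w (Sum.inl i) * G i (rotf θ w) ∂(gm (Matrix.fromBlocks C 0 0 D)) =
      ∑ j, C i j * (Real.cos θ * ∫ w, S i j (rotf θ w) ∂(gm (Matrix.fromBlocks C 0 0 D)))) ∧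
    (∫ w, w (Sum.inr i) * G i (rotf θ w) ∂(gm (Matrix.fromBlocks C 0 0 D)) =
      ∑ j, D i j * (Real.sin θ * ∫ w, S i j (rotf θ w) ∂(gm (Matrix.fromBlocks C 0 0 D)))) := by
  obtain ⟨B, hB⟩ := h.bd
  have hrc : Continuous (fun w : ι ⊕ ι → ℝ => rotf θ w) :=
    rotf_cont.comp (continuous_const.prodMk continuous_id)
  let Γ : ι ⊕ ι → (ι ⊕ ι → ℝ) → ℝ :=
    Sum.elim (fun j w => Real.cos θ * S i j (rotf θ w)) (fun j w => Real.sin θ * S i j (rotf θ w))
  have hB0 : ∀ x : ι → ℝ, 0 ≤ B := fun x => (abs_nonneg _).trans (hB x i).1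
  have h1 : ∀ w, HasFDerivAt (fun w => G i (rotf θ w))
      (∑ k, Γ k w • (ContinuousLinearMap.proj k : (ι ⊕ ι → ℝ) →L[ℝ] ℝ)) w := by
    intro w
    have h2 : HasFDerivAt (fun w => rotf θ w) (rotL θ : (ι ⊕ ι → ℝ) →L[ℝ] (ι → ℝ)) w := by
      have h3 : (fun w : ι ⊕ ι → ℝ => rotf θ w) = fun w => rotL θ w := funext (rotf_eq θ)
      rw [h3]
      exact (rotL θ).hasFDerivAt
    refine ((h.hG i (rotf θ w)).comp w h2).congr_fderiv ?_
    ext v
    simp only [rotL, Γ, ContinuousLinearMap.comp_apply, sum_apply, smul_apply,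
      ContinuousLinearMap.proj_apply, ContinuousLinearMap.pi_apply, smul_eq_mul,
      Fintype.sum_sum_type, Sum.elim_inl, Sum.elim_inr, add_apply]
    rw [← Finset.sum_add_distrib]
    exact Finset.sum_congr rfl fun j _ => by ring
  have h4 : ∀ k, Continuous (Γ k) := by
    intro k
    cases k with
    | inl j => exact continuous_const.mul ((h.hS i j).comp hrc)
    | inr j => exact continuous_const.mul ((h.hS i j).comp hrc)
  have h5 : ∃ B, ∀ w, |G i (rotf θ w)| ≤ B * Real.exp (B * ∑ k, |w k|) ∧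
      ∀ k, |Γ k w| ≤ B * Real.exp (B * ∑ k, |w k|) := by
    refine ⟨B, fun w => ?_⟩
    have hb0 := hB0 0
    have h6 : B ≤ B * Real.exp (B * ∑ k, |w k|) :=
      le_mul_of_one_le_right hb0 (Real.one_le_exp (mul_nonneg hb0 (sum_abs_nonneg w)))
    refine ⟨((hB _ i).1).trans h6, fun k => le_trans ?_ h6⟩
    cases k with
    | inl j =>
      simp only [Γ, Sum.elim_inl, abs_mul]
      exact (mul_le_of_le_one_left (abs_nonneg _) (Real.abs_cos_le_one θ)).trans ((hB _ i).2 j)
    | inr j =>
      simp only [Γ, Sum.elim_inr, abs_mul]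
      exact (mul_le_of_le_one_left (abs_nonneg _) (Real.abs_sin_le_one θ)).trans ((hB _ i).2 j)
  constructor
  · rw [gm_ibp (fromBlocks_psd hC hD) _ Γ h1 h4 h5 (Sum.inl i)]
    simp [Γ, Fintype.sum_sum_type, integral_const_mul]
  · rw [gm_ibp (fromBlocks_psd hC hD) _ Γ h1 h4 h5 (Sum.inr i)]
    simp [Γ, Fintype.sum_sum_type, integral_const_mul]

/-- Gaussian comparison (rotation `cos θ x + sin θ y`, `x ~ gm C`, `y ~ gm D`; the `θ`-derivative is
`sin θ cos θ ∫∫ ∑ (D i j - C i j) S i j`) -/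
theorem gm_cmp {C D : Matrix ι ι ℝ} (hC : C.PosSemidef) (hD : D.PosSemidef)
    {F : (ι → ℝ) → ℝ} {G : ι → (ι → ℝ) → ℝ} {S : ι → ι → (ι → ℝ) → ℝ} (h : C2b F G S)
    (c : ℝ) (hc : ∀ x, ∑ i, ∑ j, (D i j - C i j) * S i j x ≤ c) :
    ∫ x, F x ∂(gm D) ≤ ∫ x, F x ∂(gm C) + c / 2 := by
  obtain ⟨B, hB⟩ := h.bd
  set E := gm (Matrix.fromBlocks C 0 0 D) with hE
  have hrc : ∀ θ, Continuous (fun w : ι ⊕ ι → ℝ => rotf θ w) := fun θ =>
    rotf_cont.comp (continuous_const.prodMk continuous_id)
  -- the ends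
  have h0 : ∫ w, F (rotf 0 w) ∂E = ∫ x, F x ∂(gm C) := by
    have e1 := gm_comp (fromBlocks_psd hC hD) (Sum.inl : ι → ι ⊕ ι)
    have e2 : (Matrix.fromBlocks C 0 0 D).submatrix Sum.inl Sum.inl = C := by
      ext i j; simp
    rw [e2] at e1
    have hm : Measurable (fun x : ι ⊕ ι → ℝ => x ∘ (Sum.inl : ι → ι ⊕ ι)) :=
      measurable_pi_iff.2 fun i => measurable_pi_apply (Sum.inl i)
    rw [← e1, integral_map hm.aemeasurable h.contF.aestronglyMeasurable]
    congr 1
    funext w
    congr 1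
    funext i
    simp [rotf]
  have h2 : ∫ w, F (rotf (π / 2) w) ∂E = ∫ x, F x ∂(gm D) := by
    have e1 := gm_comp (fromBlocks_psd hC hD) (Sum.inr : ι → ι ⊕ ι)
    have e2 : (Matrix.fromBlocks C 0 0 D).submatrix Sum.inr Sum.inr = D := by
      ext i j; simp
    rw [e2] at e1
    have hm : Measurable (fun x : ι ⊕ ι → ℝ => x ∘ (Sum.inr : ι → ι ⊕ ι)) :=
      measurable_pi_iff.2 fun i => measurable_pi_apply (Sum.inr i)
    rw [← e1, integral_map hm.aemeasurable h.contF.aestronglyMeasurable]
    congr 1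
    funext w
    congr 1
    funext i
    simp [rotf]
  -- integrability
  have hSint : ∀ θ i j, Integrable (fun w => S i j (rotf θ w)) E := by
    intro θ i j
    exact (integrable_const B).mono' ((h.hS i j).comp (hrc θ)).aestronglyMeasurable
      (ae_of_all _ fun w => (hB _ i).2 j)
  have hGint : ∀ θ i k, Integrable (fun w => w k * G i (rotf θ w)) E := by
    intro θ i k
    have hB0 : 0 ≤ B := (abs_nonneg _).trans (hB 0 i).1
    refine (gm_linint _ 0 B).mono'
      ((continuous_apply k).mul ((h.contG i).comp (hrc θ))).aestronglyMeasurable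
      (ae_of_all _ fun w => ?_)
    rw [Real.norm_eq_abs, abs_mul, zero_add, mul_comm]
    exact mul_le_mul (hB _ i).1 (Finset.single_le_sum (f := fun j => |w j|)
      (fun j _ => abs_nonneg _) (Finset.mem_univ k)) (abs_nonneg _) hB0
  -- the derivative
  have hder : ∀ θ, HasDerivAt (fun θ => ∫ w, F (rotf θ w) ∂E)
      (Real.sin θ * Real.cos θ *
        ∫ w, ∑ i, ∑ j, (D i j - C i j) * S i j (rotf θ w) ∂E) θ := by
    intro θ
    have hd := hasDerivAt_integral_of_dominated_loc_of_deriv_le (μ := E) (s := Set.univ)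
      (x₀ := θ) (F := fun θ w => F (rotf θ w))
      (F' := fun θ w => ∑ i, G i (rotf θ w) *
        (-Real.sin θ * w (Sum.inl i) + Real.cos θ * w (Sum.inr i)))
      (bound := fun w => 0 + B * ∑ k, |w k|) Filter.univ_mem
      (Eventually.of_forall fun θ => (h.contF.comp (hrc θ)).aestronglyMeasurable) ?_ ?_ ?_
      (gm_linint _ 0 B) ?_
    · refine hd.2.congr_deriv ?_
      have e1 : ∀ w : ι ⊕ ι → ℝ, ∑ i, G i (rotf θ w) *
          (-Real.sin θ * w (Sum.inl i) + Real.cos θ * w (Sum.inr i)) =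
          ∑ i, (-Real.sin θ * (w (Sum.inl i) * G i (rotf θ w)) +
            Real.cos θ * (w (Sum.inr i) * G i (rotf θ w))) := fun w =>
        Finset.sum_congr rfl fun i _ => by ring
      simp only [e1]
      have hadd : ∀ i, Integrable (fun w : ι ⊕ ι → ℝ =>
          -Real.sin θ * (w (Sum.inl i) * G i (rotf θ w)) +
            Real.cos θ * (w (Sum.inr i) * G i (rotf θ w))) E := fun i =>
        ((hGint θ i _).const_mul _).add ((hGint θ i _).const_mul _)
      rw [integral_finsetSum _ fun i _ => hadd i]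
      rw [integral_finsetSum _ fun i _ => integrable_finsetSum _ fun j _ =>
        (hSint θ i j).const_mul _, Finset.mul_sum]
      refine Finset.sum_congr rfl fun i _ => ?_
      rw [integral_add ((hGint θ i _).const_mul _) ((hGint θ i _).const_mul _),
        integral_const_mul, integral_const_mul, (rot_ibp hC hD h θ i).1,
        (rot_ibp hC hD h θ i).2, integral_finsetSum _ fun j _ => (hSint θ i j).const_mul _,
        Finset.mul_sum, Finset.mul_sum, Finset.mul_sum, ← Finset.sum_add_distrib]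
      refine Finset.sum_congr rfl fun j _ => ?_
      rw [integral_const_mul]
      ring
    · exact (gm_linint _ (|F 0|) B).mono' (h.contF.comp (hrc θ)).aestronglyMeasurable
        (ae_of_all _ fun w => (h.lip0 (fun x i => (hB x i).1) _).trans (by
          rcases isEmpty_or_nonempty ι with hι | ⟨⟨i⟩⟩
          · simp
          · have hB0 : 0 ≤ B := (abs_nonneg _).trans (hB 0 i).1
            gcongr
            exact rotf_sum_le θ w))
    · refine Continuous.aestronglyMeasurable ?_
      exact continuous_finsetSum _ fun i _ => ((h.contG i).comp (hrc θ)).mul (by fun_prop)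
    · refine ae_of_all _ fun w θ _ => ?_
      rw [Real.norm_eq_abs, zero_add, Fintype.sum_sum_type, ← Finset.sum_add_distrib,
        Finset.mul_sum]
      refine (Finset.abs_sum_le_sum_abs _ _).trans (Finset.sum_le_sum fun i _ => ?_)
      have hB0 : 0 ≤ B := (abs_nonneg _).trans (hB 0 i).1
      rw [abs_mul]
      refine mul_le_mul (hB _ i).1 ((abs_add_le _ _).trans ?_) (abs_nonneg _) hB0
      rw [abs_mul, abs_mul, abs_neg]
      have h1 := Real.abs_cos_le_one θ
      have h2 := Real.abs_sin_le_one θ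
      have h3 := abs_nonneg (w (Sum.inl i))
      have h4 := abs_nonneg (w (Sum.inr i))
      nlinarith
    · refine ae_of_all _ fun w θ _ => ?_
      refine ((h.hF (rotf θ w)).comp_hasDerivAt θ (rotf_deriv θ w)).congr_deriv ?_
      simp only [sum_apply, smul_apply, ContinuousLinearMap.proj_apply, smul_eq_mul]
  -- monotonicity
  have hψ : ∀ θ, HasDerivAt (fun θ => ∫ w, F (rotf θ w) ∂E - c * (Real.sin θ ^ 2 / 2))
      (Real.sin θ * Real.cos θ *
        ∫ w, ∑ i, ∑ j, (D i j - C i j) * S i j (rotf θ w) ∂E -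
        c * (Real.sin θ * Real.cos θ)) θ := by
    intro θ
    refine (hder θ).sub ((((Real.hasDerivAt_sin θ).pow 2).div_const 2).const_mul c
      |>.congr_deriv ?_)
    push_cast
    ring
  have hanti : AntitoneOn (fun θ => ∫ w, F (rotf θ w) ∂E - c * (Real.sin θ ^ 2 / 2))
      (Set.Icc 0 (π / 2)) := by
    refine antitoneOn_of_deriv_nonpos (convex_Icc _ _)
      (fun θ _ => (hψ θ).continuousAt.continuousWithinAt)
      (fun θ _ => (hψ θ).differentiableAt.differentiableWithinAt) fun θ hθ => ?_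
    rw [interior_Icc] at hθ
    rw [(hψ θ).deriv]
    have h1 : 0 ≤ Real.sin θ := Real.sin_nonneg_of_nonneg_of_le_pi hθ.1.le (by
      linarith [hθ.2, Real.pi_pos])
    have h3 : 0 ≤ Real.cos θ := Real.cos_nonneg_of_neg_pi_div_two_le_of_le (by
      linarith [hθ.1, Real.pi_pos]) hθ.2.le
    have h4 : ∫ w, ∑ i, ∑ j, (D i j - C i j) * S i j (rotf θ w) ∂E ≤ c := by
      have h5 : ∫ w, ∑ i, ∑ j, (D i j - C i j) * S i j (rotf θ w) ∂E ≤ ∫ _, c ∂E := by
        refine integral_mono (integrable_finsetSum _ fun i _ => integrable_finsetSum _ fun j _ =>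
          (hSint θ i j).const_mul _) (integrable_const c) fun w => hc _
      simpa using h5
    have h6 : 0 ≤ Real.sin θ * Real.cos θ := mul_nonneg h1 h3
    nlinarith
  have hfin := hanti (Set.left_mem_Icc.2 (by positivity)) (Set.right_mem_Icc.2 (by positivity))
    (by positivity : (0 : ℝ) ≤ π / 2)
  simp only [h0, h2, Real.sin_zero, Real.sin_pi_div_two] at hfin
  linarith

end Pool.Agent.OS
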