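import Pool.Agent.LibMP0f946f.Spin0
import Pool.Agent.LibMP0f946f.Lse

/-! TASK SUPERADD: Guerra-Toninelli superadditivity, existence of the limiting free energy, Lipschitz and convexity
in the coefficients.

Paper proofs.
* `FE_superadd`: configurations of `M + N` spins are pairs `(σ,τ)`, `ov = (M ov σ σ' + N ov τ τ')/(M+N)`, so by
  convexity `(M+N) ξ(ov) ≤ M ξ(ov σ σ') + N ξ(ov τ τ')` with equality on the diagonal; use `FE_reindex`,
  `FE_le_of_diag_eq` and `FE_prod_add`.
* `FN_tendsto`: Fekete (`Subadditive.tendsto_lim` for `-FE`), bounded by `FE_le`.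
* `FN_lip`: `FE_lip` with `δ = N ∑' |c p - c' p|`.
* `FN_mono`: `cov c' N = cov c N + cov (c' - c) N`, `FE_mono`.
* `FN_convex`: `FE (t² A + B) = ∫∫ lse (t x + y) dgm A dgm B` and `lse` is convex. -/

set_option autoImplicit false
open MeasureTheory ProbabilityTheory Real Filter Topology

namespace Pool.Agent.OS

private theorem ov_append {M N : ℕ} (hM : 1 ≤ M) (hN : 1 ≤ N) (p q : Cfg M × Cfg N) :
    ov (Fin.append p.1 p.2) (Fin.append q.1 q.2) =
      (M : ℝ) / (M + N) * ov p.1 q.1 + (N : ℝ) / (M + N) * ov p.2 q.2 := by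
  have hM' : (M : ℝ) ≠ 0 := by positivity
  have hN' : (N : ℝ) ≠ 0 := by positivity
  have hMN : (M : ℝ) + N ≠ 0 := by positivity
  unfold ov
  rw [Fin.sum_univ_add]
  simp only [Fin.append_left, Fin.append_right]
  push_cast
  field_simp

theorem FE_superadd {c : ℕ → ℝ} (hc : Adm c) (hconv : ConvexOn ℝ (Set.Icc (-1) 1) (xi c))
    (M N : ℕ) (hM : 1 ≤ M) (hN : 1 ≤ N) :
    FE (cov c M) + FE (cov c N) ≤ FE (cov c (M + N)) := by
  have hM' : (0 : ℝ) < M := by exact_mod_cast hM
  have hN' : (0 : ℝ) < N := by exact_mod_cast hN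
  have hpM := cov_psd hc M
  have hpN := cov_psd hc N
  have hpMN := cov_psd hc (M + N)
  rw [← FE_prod_add hpM hpN, ← FE_reindex (Fin.appendEquiv M N) hpMN]
  have hsub : (Matrix.of fun (p q : Cfg M × Cfg N) => cov c M p.1 q.1 + cov c N p.2 q.2) =
      (cov c M).submatrix Prod.fst Prod.fst + (cov c N).submatrix Prod.snd Prod.snd := rfl
  have hpos : (Matrix.of fun (p q : Cfg M × Cfg N) =>
      cov c M p.1 q.1 + cov c N p.2 q.2).PosSemidef := by
    rw [hsub]
    exact (hpM.submatrix _).add (hpN.submatrix _)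
  have hE : ∀ p q : Cfg M × Cfg N, ((cov c (M + N)).submatrix (Fin.appendEquiv M N)
      (Fin.appendEquiv M N)) p q = ((M : ℝ) + N) * xi c ((M : ℝ) / (M + N) * ov p.1 q.1 +
        (N : ℝ) / (M + N) * ov p.2 q.2) := by
    intro p q
    rw [Matrix.submatrix_apply, cov, ← ov_append hM hN p q]
    push_cast
    rfl
  refine FE_le_of_diag_eq hpos (hpMN.submatrix _) ?_ ?_
  · intro p
    rw [hE, Matrix.of_apply, cov, cov, ov_self hM, ov_self hN, mul_one, mul_one, ← add_div,
      div_self (by positivity)]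
    ring
  · intro p q
    rw [hE, Matrix.of_apply, cov, cov]
    have h1 : ov p.1 q.1 ∈ Set.Icc (-1 : ℝ) 1 := by
      have := abs_le.1 (ov_abs_le p.1 q.1)
      exact ⟨this.1, this.2⟩
    have h2 : ov p.2 q.2 ∈ Set.Icc (-1 : ℝ) 1 := by
      have := abs_le.1 (ov_abs_le p.2 q.2)
      exact ⟨this.1, this.2⟩
    have ha : 0 ≤ (M : ℝ) / ((M : ℝ) + (N : ℝ)) := by positivity
    have hb : 0 ≤ (N : ℝ) / ((M : ℝ) + (N : ℝ)) := by positivity
    have h3 := hconv.2 h1 h2 ha hb (by rw [← add_div, div_self (by positivity)])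
    simp only [smul_eq_mul] at h3
    have h4 := mul_le_mul_of_nonneg_left h3 (by positivity : (0 : ℝ) ≤ (M : ℝ) + N)
    refine h4.trans (le_of_eq ?_)
    field_simp

private theorem cov_zero (c : ℕ → ℝ) : cov c 0 = 0 := by
  funext σ τ
  simp [cov]

private theorem FE_cov_zero (c : ℕ → ℝ) : FE (cov c 0) = 0 := by
  rw [cov_zero]
  unfold FE
  rw [gm_zero, integral_dirac]
  simp [lse]

private theorem xi_one_nonneg {c : ℕ → ℝ} (hc : Adm c) : 0 ≤ xi c 1 :=
  tsum_nonneg fun p => mul_nonneg (hc.nonneg p) (by simp)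

theorem FN_le {c : ℕ → ℝ} (hc : Adm c) (N : ℕ) (hN : 1 ≤ N) :
    FN c N ≤ Real.log 2 + xi c 1 / 2 := by
  have hN' : (0 : ℝ) < N := by exact_mod_cast hN
  have h1 := FE_le (cov_psd hc N) (N * xi c 1) (fun σ => by
    rw [cov, ov_self hN])
  unfold FN
  rw [div_le_iff₀ hN']
  refine h1.trans (le_of_eq ?_)
  rw [Fintype.card_fun, Fintype.card_bool, Fintype.card_fin]
  push_cast
  rw [Real.log_pow]
  ring

theorem FN_tendsto {c : ℕ → ℝ} (hc : Adm c) (hconv : ConvexOn ℝ (Set.Icc (-1) 1) (xi c)) :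
    ∃ F, Tendsto (FN c) atTop (𝓝 F) := by
  have hsub : Subadditive (fun n => - FE (cov c n)) := by
    intro m n
    change - FE (cov c (m + n)) ≤ - FE (cov c m) + - FE (cov c n)
    rcases Nat.eq_zero_or_pos m with rfl | hm
    · rw [Nat.zero_add, FE_cov_zero]
      simp
    · rcases Nat.eq_zero_or_pos n with rfl | hn
      · rw [Nat.add_zero, FE_cov_zero]
        simp
      · have := FE_superadd hc hconv m n hm hn
        linarith
  have hbdd : BddBelow (Set.range fun n : ℕ => - FE (cov c n) / n) := by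
    refine ⟨- (Real.log 2 + xi c 1 / 2), ?_⟩
    rintro _ ⟨n, rfl⟩
    rcases Nat.eq_zero_or_pos n with rfl | hn
    · simp only [Nat.cast_zero, div_zero, Left.neg_nonpos_iff]
      have := xi_one_nonneg hc
      have := Real.log_nonneg (by norm_num : (1 : ℝ) ≤ 2)
      linarith
    · have := FN_le hc n hn
      rw [FN] at this
      simp only [neg_div]
      linarith
  have h := hsub.tendsto_lim hbdd
  refine ⟨- hsub.lim, ?_⟩
  have h2 := h.neg
  refine h2.congr fun n => ?_
  rw [FN, neg_div, neg_neg]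

private theorem xi_summable {c : ℕ → ℝ} (hc : Adm c) {x : ℝ} (hx : |x| ≤ 1) :
    Summable fun p => c p * x ^ p := summable_pow_of_abs_le hc.nonneg hc.summable hx fun p => p

private theorem xi_sub_abs {c c' : ℕ → ℝ} (hc : Adm c) (hc' : Adm c') {x : ℝ} (hx : |x| ≤ 1) :
    |xi c x - xi c' x| ≤ ∑' p, |c p - c' p| := by
  have h1 := xi_summable hc hx
  have h2 := xi_summable hc' hx
  have h3 : Summable fun p => |c p - c' p| := (hc.summable.sub hc'.summable).abs
  unfold xi
  rw [← h1.tsum_sub h2]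
  have h4 : ∀ p, ‖c p * x ^ p - c' p * x ^ p‖ ≤ |c p - c' p| := fun p => by
    rw [← sub_mul, Real.norm_eq_abs, abs_mul, abs_pow]
    exact mul_le_of_le_one_right (abs_nonneg _) (pow_le_one₀ (abs_nonneg _) hx)
  have h5 := tsum_of_norm_bounded h3.hasSum h4
  rwa [Real.norm_eq_abs] at h5

theorem FN_lip {c c' : ℕ → ℝ} (hc : Adm c) (hc' : Adm c') (N : ℕ) :
    |FN c N - FN c' N| ≤ ∑' p, |c p - c' p| := by
  have h0 : 0 ≤ ∑' p, |c p - c' p| := tsum_nonneg fun p => abs_nonneg _
  rcases Nat.eq_zero_or_pos N with rfl | hN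
  · simpa [FN] using h0
  · have hN' : (0 : ℝ) < N := by exact_mod_cast hN
    have h1 := FE_lip (cov_psd hc N) (cov_psd hc' N) (N * ∑' p, |c p - c' p|) (fun σ τ => by
      rw [cov, cov, ← mul_sub, abs_mul, Nat.abs_cast]
      exact mul_le_mul_of_nonneg_left (xi_sub_abs hc hc' (ov_abs_le σ τ)) hN'.le)
    unfold FN
    rw [← sub_div, abs_div, Nat.abs_cast, div_le_iff₀ hN', mul_comm]
    exact h1

private theorem xi_add {c c' d : ℕ → ℝ} (hc : Adm c) (hd : Adm d) (h : ∀ p, c' p = c p + d p)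
    {x : ℝ} (hx : |x| ≤ 1) : xi c' x = xi c x + xi d x := by
  unfold xi
  rw [← (xi_summable hc hx).tsum_add (xi_summable hd hx)]
  refine tsum_congr fun p => ?_
  rw [h p]
  ring

theorem FN_mono {c c' : ℕ → ℝ} (hc : Adm c) (hc' : Adm c') (h : ∀ p, c p ≤ c' p) (N : ℕ) :
    FN c N ≤ FN c' N := by
  have hd : Adm (fun p => c' p - c p) := by
    refine ⟨fun p => sub_nonneg.2 (h p), ?_, ?_, ?_⟩
    · refine (hc'.sum.sub hc.sum).congr fun p => ?_
      ring
    · simp [hc.c0, hc'.c0]
    · simp [hc.c1, hc'.c1]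
  have h1 : cov c' N = cov c N + cov (fun p => c' p - c p) N := by
    funext σ τ
    rw [Matrix.add_apply, cov, cov, cov,
      xi_add (c' := c') hc hd (fun p => by ring) (ov_abs_le σ τ)]
    ring
  unfold FN
  rw [h1]
  exact div_le_div_of_nonneg_right (FE_mono (cov_psd hc N) (cov_psd hd N)) (Nat.cast_nonneg N)

section convex
variable {ι : Type*} [Fintype ι] [Nonempty ι]

private theorem lse_tangent (x z : ι → ℝ) : lse z + ∑ i, pw z i * (x i - z i) ≤ lse x := by
  have hz : 0 < ∑ i, Real.exp (z i) := Finset.sum_pos (fun i _ => Real.exp_pos _)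
    Finset.univ_nonempty
  have h1 : ∑ i, Real.exp (x i) = (∑ i, Real.exp (z i)) * ∑ i, pw z i * Real.exp (x i - z i) := by
    rw [Finset.mul_sum]
    refine Finset.sum_congr rfl fun i _ => ?_
    rw [pw, Real.exp_sub]
    have := (Real.exp_pos (z i)).ne'
    field_simp
  have h2 : Real.exp (∑ i, pw z i * (x i - z i)) ≤ ∑ i, pw z i * Real.exp (x i - z i) := by
    have := convexOn_exp.map_sum_le (t := Finset.univ) (w := pw z) (p := fun i => x i - z i)
      (fun i _ => (pw_pos z i).le) (pw_sum z) (fun i _ => Set.mem_univ _)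
    simpa only [smul_eq_mul] using this
  unfold lse
  rw [h1, Real.log_mul hz.ne' ((Real.exp_pos _).trans_le h2).ne']
  have h3 := Real.log_le_log (Real.exp_pos _) h2
  rw [Real.log_exp] at h3
  linarith

private theorem lse_conv (x y : ι → ℝ) {a b : ℝ} (ha : 0 ≤ a) (hb : 0 ≤ b) (hab : a + b = 1) :
    lse (a • x + b • y) ≤ a * lse x + b * lse y := by
  have h1 := mul_le_mul_of_nonneg_left (lse_tangent x (a • x + b • y)) ha
  have h2 := mul_le_mul_of_nonneg_left (lse_tangent y (a • x + b • y)) hb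
  have h3 : a * ∑ i, pw (a • x + b • y) i * (x i - (a • x + b • y) i) +
      b * ∑ i, pw (a • x + b • y) i * (y i - (a • x + b • y) i) = 0 := by
    rw [Finset.mul_sum, Finset.mul_sum, ← Finset.sum_add_distrib]
    refine Finset.sum_eq_zero fun i _ => ?_
    simp only [Pi.add_apply, Pi.smul_apply, smul_eq_mul]
    have hb' : b = 1 - a := by linarith
    rw [hb']
    ring
  have h4 : a * lse (a • x + b • y) + b * lse (a • x + b • y) = lse (a • x + b • y) := by
    rw [← add_mul, hab, one_mul]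
  linarith

end convex

section sq
variable {ι : Type*} [Fintype ι] [DecidableEq ι] [Nonempty ι]

private theorem lse_cts : Continuous (lse (ι := ι)) :=
  continuous_iff_continuousAt.2 fun x => (lse_C2b.hF x).continuousAt

omit [Nonempty ι] in
private theorem gm_mix {A B : Matrix ι ι ℝ} (hA : A.PosSemidef) (hB : B.PosSemidef) (t : ℝ) :
    gm (t ^ 2 • A + B) = ((gm A).prod (gm B)).map (fun p => t • p.1 + p.2) := by
  have hc : Continuous fun x : ι → ℝ => t • x := by fun_prop
  have hA' : (t ^ 2 • A).PosSemidef := hA.smul (sq_nonneg t)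
  rw [← gm_add hA' hB, ← gm_smul hA t]
  have h1 : (gm B : Measure (ι → ℝ)) = (gm B).map id := Measure.map_id.symm
  conv_lhs => rw [h1]
  rw [Measure.map_prod_map _ _ hc.measurable measurable_id, Measure.map_map]
  · rfl
  · fun_prop
  · exact hc.measurable.prodMap measurable_id

private theorem lse_mix_int {A B : Matrix ι ι ℝ} (hA : A.PosSemidef) (hB : B.PosSemidef) (t : ℝ) :
    Integrable (fun p : (ι → ℝ) × (ι → ℝ) => lse (t • p.1 + p.2)) ((gm A).prod (gm B)) := by
  have h := lse_integrable (t ^ 2 • A + B)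
  rw [gm_mix hA hB t, integrable_map_measure lse_cts.aestronglyMeasurable (by fun_prop)] at h
  exact h

private theorem FE_mix {A B : Matrix ι ι ℝ} (hA : A.PosSemidef) (hB : B.PosSemidef) (t : ℝ) :
    FE (t ^ 2 • A + B) = ∫ p, lse (t • p.1 + p.2) ∂((gm A).prod (gm B)) := by
  unfold FE
  rw [gm_mix hA hB t, integral_map (by fun_prop) lse_cts.aestronglyMeasurable]

theorem FE_sq_convex {ι : Type*} [Fintype ι] [DecidableEq ι] [Nonempty ι] {A B : Matrix ι ι ℝ}
    (hA : A.PosSemidef) (hB : B.PosSemidef) :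
    ConvexOn ℝ Set.univ (fun t : ℝ => FE (t ^ 2 • A + B)) := by
  refine ⟨convex_univ, fun s _ t _ a b ha hb hab => ?_⟩
  simp only [smul_eq_mul]
  rw [FE_mix hA hB, FE_mix hA hB, FE_mix hA hB, ← integral_const_mul, ← integral_const_mul,
    ← integral_add ((lse_mix_int hA hB s).const_mul a) ((lse_mix_int hA hB t).const_mul b)]
  refine integral_mono (lse_mix_int hA hB _)
    (((lse_mix_int hA hB s).const_mul a).add ((lse_mix_int hA hB t).const_mul b)) fun p => ?_
  have h := lse_conv (s • p.1 + p.2) (t • p.1 + p.2) ha hb hab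
  refine le_trans (le_of_eq ?_) h
  congr 1
  funext i
  simp only [Pi.add_apply, Pi.smul_apply, smul_eq_mul]
  have hb' : b = 1 - a := by linarith
  rw [hb']
  ring

end sq

theorem FN_convex {c : ℕ → ℝ} (hc : Adm c) (p : ℕ) (hp : 2 ≤ p) (N : ℕ) :
    ConvexOn ℝ Set.univ (fun t : ℝ => FN (Function.update c p (t ^ 2)) N) := by
  have h1 : Adm (Pi.single p (1 : ℝ)) := by
    refine ⟨fun q => ?_, ?_, ?_, ?_⟩
    · by_cases h : q = p
      · subst h; simp
      · simp [Pi.single_eq_of_ne h]
    · refine summable_of_ne_finset_zero (s := {p}) fun q hq => ?_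
      rw [Finset.mem_singleton] at hq
      simp [Pi.single_eq_of_ne hq]
    · exact Pi.single_eq_of_ne (by omega) _
    · exact Pi.single_eq_of_ne (by omega) _
  have h2 : Adm (Function.update c p 0) := by
    have hle : ∀ q, Function.update c p 0 q ≤ c q := fun q => by
      by_cases h : q = p
      · subst h; simp [hc.nonneg]
      · simp [Function.update_of_ne h]
    have hnn : ∀ q, 0 ≤ Function.update c p 0 q := fun q => by
      by_cases h : q = p
      · subst h; simp
      · simp [Function.update_of_ne h, hc.nonneg]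
    refine ⟨hnn, ?_, ?_, ?_⟩
    · exact Summable.of_nonneg_of_le (fun q => mul_nonneg (by positivity) (hnn q))
        (fun q => mul_le_mul_of_nonneg_left (hle q) (by positivity)) hc.sum
    · rw [Function.update_of_ne (by omega), hc.c0]
    · rw [Function.update_of_ne (by omega), hc.c1]
  have h3 : ∀ t : ℝ, cov (Function.update c p (t ^ 2)) N =
      t ^ 2 • cov (Pi.single p (1 : ℝ)) N + cov (Function.update c p 0) N := by
    intro t
    funext σ τ
    have hx := ov_abs_le σ τ
    rw [Matrix.add_apply, Matrix.smul_apply, cov, cov, cov, smul_eq_mul]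
    have h4 : xi (Function.update c p (t ^ 2)) (ov σ τ) =
        t ^ 2 * xi (Pi.single p (1 : ℝ)) (ov σ τ) + xi (Function.update c p 0) (ov σ τ) := by
      unfold xi
      rw [← tsum_mul_left, ← ((xi_summable h1 hx).mul_left (t ^ 2)).tsum_add (xi_summable h2 hx)]
      refine tsum_congr fun q => ?_
      by_cases h : q = p
      · subst h; simp
      · simp [Function.update_of_ne h, Pi.single_eq_of_ne h]
    rw [h4]
    ring
  have h5 := FE_sq_convex (cov_psd h1 N) (cov_psd h2 N)
  have h6 := h5.smul (inv_nonneg.2 (Nat.cast_nonneg N : (0 : ℝ) ≤ N))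
  refine h6.congr fun t _ => ?_
  simp only [FN, h3, smul_eq_mul]
  rw [div_eq_inv_mul]

end Pool.Agent.OS
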